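import Pool.Agent.Lib.MP_8cb858_nt.PU.SpecQ

/-!
# Specs, block TD: the typical twist over `F`, counting of the twists, the final theorem

A twist is given by `u ∈ U` and a finite set `A` of places outside `S = G.S`; the squarefree ideal `∏_(v ∈ A) v` has the norm `NA A`.
Compare `PT/TDA.lean`, `PT/TDB.lean`, `PT/TDC.lean`, `PT/TDD.lean`, `PT/TD.lean`, `PT/FIN.lean` (`F = ℚ`).
`PF.SpecDNV` (proved) has the facts on places: at most `n = [F : ℚ]` places of norm `m`, at most `n` places over a prime number, finitely many places of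
bounded norm, `∑ 1/nv^2 ≤ n/M` for places of norm `> M`. `2 ≤ nv v`: `PF.SpecPLC` `two`.
Module XXX = file `PU/XXX.lean` (import `...PU.SpecT`), `theorem specXXX (hYYY : SpecYYY) .. : SpecXXX`, own lemmas in the namespace
`Pool.Agent.Lib.MP_8cb858_nt.PU.XXXM`.
-/

namespace Pool.Agent.Lib.MP_8cb858_nt.PU

open Polynomial NumberField IsDedekindDomain Filter Pool.Agent.Lib.MP_8cb858_nt.SEL
open Pool.Agent.Lib.MP_8cb858_nt.PF
open scoped Classical WithZero Topology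

section

variable {F : Type} [Field F] [NumberField F]

/-- The norm of the squarefree ideal `∏_(v ∈ A) v`. -/
noncomputable def NA (A : Finset (Pl F)) : ℕ := ∏ v ∈ A, nv v

/-- The finite sets of places outside `S` of norm at most `Y`. -/
def WS (S : Finset (Pl F)) (Y : ℝ) : Set (Finset (Pl F)) := {A | (∀ v ∈ A, v ∉ S) ∧ (NA A : ℝ) ≤ Y}

/-- The window of `m`: `(1 + δ)^j ≤ m < (1 + δ)^(j+1)`. -/
noncomputable def wn (δ : ℝ) (m : ℕ) : ℕ := ⌊Real.log m / Real.log (1 + δ)⌋₊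

/-- The large places of `A`. -/
noncomputable def LG (w : ℝ) (A : Finset (Pl F)) : Finset (Pl F) := A.filter (fun v => w < (nv v : ℝ))

/-- The small places of `A`. -/
noncomputable def SG (w : ℝ) (A : Finset (Pl F)) : Finset (Pl F) := A.filter (fun v => (nv v : ℝ) ≤ w)

variable (F) in
/-- The number of nonzero ideals of norm at most `x`. -/
noncomputable def IC (x : ℝ) : ℝ :=
  ({I : Ideal (𝓞 F) | I ≠ ⊥ ∧ (Ideal.absNorm I : ℝ) ≤ x}.ncard : ℝ)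

variable (F) in
/-- The places of norm `> w` in the window `j` (a finite set, see WIN). -/
def WJ (δ w : ℝ) (j : ℕ) : Set (Pl F) := {v | w < (nv v : ℝ) ∧ wn δ (nv v) = j}

/-- `A` is good. -/
structure Gw (δ E w : ℝ) (M r0 : ℕ) (A : Finset (Pl F)) : Prop where
  inj : Set.InjOn (fun v : Pl F => wn δ (nv v)) (LG w A : Set (Pl F))
  leM : (LG w A).card ≤ M
  sm : r0 * (SG w A).card ≤ (LG w A).card
  ge : r0 ≤ (LG w A).card
  rich : ∀ v ∈ LG w A, E ≤ ((WJ F δ w (wn δ (nv v))).ncard : ℝ)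

/-- `n` classes of sets `A1 i ∪ {p j : j < r i}`, `p j ∈ L i j`, as in STA. -/
structure Cw (S : Finset (Pl F)) (r0 n : ℕ) (r : Fin n → ℕ) (A1 : Fin n → Finset (Pl F))
    (L : ∀ i, Fin (r i) → Finset (Pl F)) : Prop where
  len : ∀ i, r0 ≤ r i
  out : ∀ i, ∀ v ∈ A1 i, v ∉ S
  few : ∀ i, r0 * (A1 i).card ≤ r i
  big : ∀ i j, ∀ q ∈ L i j, q ∉ S ∧ Real.exp (r0 * r i) ≤ (nv q : ℝ) ∧ q ∉ A1 i
  card : ∀ i j, Real.exp (r0 * r i) ≤ ((L i j).card : ℝ)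
  dis : ∀ i j k, j ≠ k → Disjoint (L i j) (L i k)

/-- The norm of the twist by `x`: the product of the norms of the places at which `x` has odd valuation. -/
noncomputable def tn (x : F) : ℕ :=
  ∏ᶠ v ∈ {v : Pl F | ¬ ∃ n : ℤ, v.valuation F x = WithZero.exp (2 * n)}, nv v

variable (F) in
/-- The group of the elements modulo squares. -/
abbrev SqC : Type := Fˣ ⧸ (powMonoidHom 2 : Fˣ →* Fˣ).range

variable (F) in
/-- The classes modulo squares of twist norm at most `Y`. -/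
def Tw (Y : ℝ) : Set (SqC F) := {c | ∃ D : Fˣ, (QuotientGroup.mk D : SqC F) = c ∧ (tn (D : F) : ℝ) ≤ Y}

/-- The proportion of the pairs in `Box F X` whose twist by `x` has `dim Sel_2 = d`. -/
noncomputable def propX (X : InfinitePlace F → ℝ) (x : F) (d : ℕ) : ℝ :=
  ({q ∈ Box F X | Nat.card (Sel 2 (curve ((q.1 : F) * x ^ 2) ((q.2 : F) * x ^ 3))) = 2 ^ d}.ncard : ℝ) /
    ((Box F X).ncard : ℝ)

end

/-! ## Ideals -/

/-- **IDA** (200 lines). Counting ideals.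
Proof. `fin`: `Ideal.finite_setOf_absNorm_le`. `asy`: `NumberField.Ideal.tendsto_norm_le_div_atTop₀` (the limit is positive: `regulator_pos`,
`classNumber_pos`, `torsionOrder`, `discr_ne_zero`); `Nat.card` of the subtype of `(Ideal (𝓞 F))⁰` = `ncard` (`I ∈ (Ideal (𝓞 F))⁰ ↔ I ≠ ⊥`).
`upp`: by `asy` `IC x ≤ (κ + 1) x` for `x ≥ x0 ≥ 1`; for `1 ≤ x ≤ x0`: `IC x ≤ IC x0 ≤ IC x0 * x`; for `x < 1`: `IC x = 0` (`absNorm I ≥ 1`).
`dvd`: the ideals divisible by all `v ∈ B` are the multiples of `∏_(v ∈ B) v` (distinct primes: `Finset.prod_primes_dvd` or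
`Finset.prod_dvd_of_coprime`), the bijection is `J ↦ J ∏_B v`, `absNorm` is multiplicative. `sqf`: `nv v ≠ 0`; a prime dividing a product of primes equals
one of them (`Prime.dvd_finset_prod_iff`, `v.prime`, `w.prime`, `HeightOneSpectrum.ext`). -/
structure SpecIDA : Prop where
  fin : ∀ (F : Type) [Field F] [NumberField F] (x : ℝ),
    {I : Ideal (𝓞 F) | I ≠ ⊥ ∧ (Ideal.absNorm I : ℝ) ≤ x}.Finite
  asy : ∀ (F : Type) [Field F] [NumberField F],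
    ∃ κ : ℝ, 0 < κ ∧ Tendsto (fun x : ℝ => IC F x / x) atTop (𝓝 κ)
  upp : ∀ (F : Type) [Field F] [NumberField F],
    ∃ C : ℝ, 1 ≤ C ∧ ∀ x : ℝ, 0 ≤ x → IC F x ≤ C * x
  dvd : ∀ (F : Type) [Field F] [NumberField F] (B : Finset (Pl F)) (x : ℝ),
    ({I : Ideal (𝓞 F) | I ≠ ⊥ ∧ (Ideal.absNorm I : ℝ) ≤ x ∧ ∀ v ∈ B, v.asIdeal ∣ I}.ncard : ℝ) =
      IC F (x / NA B)
  sqf : ∀ (F : Type) [Field F] [NumberField F] (A : Finset (Pl F)),
    ∏ v ∈ A, v.asIdeal ≠ ⊥ ∧ Ideal.absNorm (∏ v ∈ A, v.asIdeal) = NA A ∧ 1 ≤ NA A ∧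
      ∀ v : Pl F, v.asIdeal ∣ ∏ v ∈ A, v.asIdeal ↔ v ∈ A

/-- **WSU** (200 lines; from IDA). Upper bounds for sets of sets of places.
Proof. `A ↦ ∏_(v ∈ A) v` is injective (IDA `sqf`), so `WS S Y` is finite and has at most `IC Y ≤ C Y` elements. Union bound: `#{A ∈ WS ∅ Y : B i ⊆ A} ≤
#{I : N I ≤ Y, v ∣ I for v ∈ B i} = IC (Y / NA (B i)) ≤ C Y / NA (B i)`. Markov: `a #{A : a ≤ #(T ∩ A)} ≤ ∑_A #(T ∩ A) = ∑_(v ∈ T) #{A ∋ v} ≤
C Y ∑_(v ∈ T) 1/nv v` (compare `PT.TDM.markov`). -/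
structure SpecWSU : Prop where
  fin : ∀ (F : Type) [Field F] [NumberField F] (S : Finset (Pl F)) (Y : ℝ), (WS S Y).Finite
  bd : ∀ (F : Type) [Field F] [NumberField F], ∃ C : ℝ, 1 ≤ C ∧ ∀ Y : ℝ, 0 ≤ Y →
    (∀ S : Finset (Pl F), ((WS S Y).ncard : ℝ) ≤ C * Y) ∧
    (∀ (ι : Type) (s : Finset ι) (B : ι → Finset (Pl F)) (E : Set (Finset (Pl F))), E ⊆ WS ∅ Y →
      (∀ A ∈ E, ∃ i ∈ s, B i ⊆ A) → (E.ncard : ℝ) ≤ C * Y * ∑ i ∈ s, 1 / (NA (B i) : ℝ)) ∧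
    ∀ (T : Finset (Pl F)) (a : ℝ), 0 < a →
      ({A ∈ WS (∅ : Finset (Pl F)) Y | a ≤ ((T.filter (fun v => v ∈ A)).card : ℝ)}.ncard : ℝ) ≤
        C * Y * ((∑ v ∈ T, 1 / (nv v : ℝ)) / a)

/-- **TUR** (250 lines; from IDA). The inequality of Turan.
Proof. `κ` from IDA `asy`, `C2 = 8 κ`, `e = min 1 (η/(16 κ))`, `x0 ≥ 1` with `|IC x - κ x| ≤ e κ x` for `x ≥ x0`; `Y0 = x0^3`. `P = ∑_T 1/nv v`, `ω I` = number of the
`v ∈ T` dividing `I`; sums over the ideals `I ≠ 0` with `N I ≤ Y`. For `v, v' ∈ T`: `Y/(nv v nv v') ≥ x0` (its cube is `≥ Y`), so (IDA `dvd`)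
`∑ ω^2 = ∑_(v ≠ v') IC (Y/(nv v nv v')) + ∑_v IC (Y/nv v) ≤ κ (1+e) Y (P^2 + P)`, `∑ ω = ∑_v IC (Y/nv v) ≥ κ (1-e) Y P`, `∑ 1 = IC Y ≤ κ (1+e) Y`. Hence
`∑ (ω - P)^2 ≤ κ Y (4 e P^2 + 2 P)` and `#{I : ω I < P/2} ≤ (4/P^2) κ Y (4 e P^2 + 2P) = Y (16 κ e + 8 κ/P)`. `A ↦ ∏_A v` is injective, with
`ω = #(T ∩ A)` (IDA `sqf`). Compare `PT.TDM.turan`. -/
def SpecTUR : Prop :=
  ∀ (F : Type) [Field F] [NumberField F], ∃ C2 : ℝ, 0 < C2 ∧ ∀ η : ℝ, 0 < η → ∃ Y0 : ℝ,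
    ∀ Y : ℝ, Y0 ≤ Y → ∀ T : Finset (Pl F), (∀ v ∈ T, (nv v : ℝ) ^ 3 ≤ Y) →
      0 < ∑ v ∈ T, 1 / (nv v : ℝ) →
      ({A ∈ WS (∅ : Finset (Pl F)) Y |
        ((T.filter (fun v => v ∈ A)).card : ℝ) < (∑ v ∈ T, 1 / (nv v : ℝ)) / 2}.ncard : ℝ) ≤
        Y * (η + C2 / ∑ v ∈ T, 1 / (nv v : ℝ))

/-! ## The theorem of Mertens -/

/-- **MEU** (100 lines; from `PF.SpecDNV`, `PT.TDM.mertens` in `PT/TDA.lean`). Upper bound.
Proof. Every `v` contains a prime number `p ≤ nv v` (`PF.SpecPLC` `mem`, `low`), there are at most `n` places containing `p` (DNV), each contributes at most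
`1/p`: the sum is at most `n ∑_(p ≤ y) 1/p ≤ n (loglog ⌊y⌋ + C)`. -/
def SpecMEU : Prop :=
  ∀ (F : Type) [Field F] [NumberField F], ∃ C : ℝ, 0 < C ∧ ∀ y : ℝ, 3 ≤ y →
    ∀ T : Finset (Pl F), (∀ v ∈ T, (nv v : ℝ) ≤ y) →
      ∑ v ∈ T, 1 / (nv v : ℝ) ≤ (Module.finrank ℚ F : ℝ) * (Real.log (Real.log y) + C)

/-- **EUL** (200 lines). The Euler product.
Proof. Induction on `T`. `T = ∅`: the ideals in `J` have no prime divisor, so `J ⊆ {⊤}`. `insert v T`: write `I = v^k I'`, `v ∤ I'`, for `I ∈ J`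
(`WfDvdMonoid.max_power_factor` or `FiniteMultiplicity.exists_eq_pow_mul_and_not_dvd`); for fixed `k` the `I'` are different, nonzero and have only prime divisors in
`T`. `∑_J 1/N I = ∑_k nv^(-k) ∑_(I') 1/N I' ≤ ∑_k nv^(-k) ∏_T ≤ (1 - 1/nv v)⁻¹ ∏_T` (finite sums over `k`, geometric series). -/
def SpecEUL : Prop :=
  ∀ (F : Type) [Field F] [NumberField F] (T : Finset (Pl F)) (J : Finset (Ideal (𝓞 F))),
    (∀ I ∈ J, I ≠ ⊥ ∧ ∀ v : Pl F, v.asIdeal ∣ I → v ∈ T) →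
    ∑ I ∈ J, 1 / (Ideal.absNorm I : ℝ) ≤ ∏ v ∈ T, (1 - 1 / (nv v : ℝ))⁻¹

/-- **HSL** (150 lines; from IDA). The harmonic sum of the ideals.
Proof. Let `x0 ≥ 1` with `(κ/2) x ≤ IC x ≤ 2 κ x` for `x ≥ x0`. For `x ≥ x0` there are at least `4κx - 2κx = 2κx` ideals with `x < N I ≤ 8x`, they contribute at
least `2κx/(8x) = κ/4`. Take `J` = all nonzero ideals of norm `≤ y` and the disjoint intervals `(x0 8^k, x0 8^(k+1)]`, `x0 8^(k+1) ≤ y`: at least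
`log(y/x0)/log 8 - 1` of them. `c = κ/(4 log 8)`, `C = (κ/4)(log x0/log 8 + 1)`. -/
def SpecHSL : Prop :=
  ∀ (F : Type) [Field F] [NumberField F], ∃ c C : ℝ, 0 < c ∧ ∀ y : ℝ, 1 ≤ y →
    ∃ J : Finset (Ideal (𝓞 F)), (∀ I ∈ J, I ≠ ⊥ ∧ (Ideal.absNorm I : ℝ) ≤ y) ∧
      c * Real.log y - C ≤ ∑ I ∈ J, 1 / (Ideal.absNorm I : ℝ)

/-- **MEL** (150 lines; from EUL, HSL, `PF.SpecDNV`). Lower bound.
Proof. `T` = all places of norm `≤ y` (DNV); HSL: `c log y - C ≤ ∑_J 1/N I ≤ ∏_T (1 - 1/nv v)⁻¹` (a prime divisor of `I` has norm `≤ N I ≤ y`). For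
`y ≥ y1`: `(c/2) log y ≤ ..`, so `log(c/2) + loglog y ≤ ∑_T - log (1 - 1/nv v) ≤ ∑_T (1/nv v + 2/nv v^2) ≤ ∑_T 1/nv v + 2n`
(`- log(1-t) ≤ t/(1-t) = t + t^2/(1-t)`, `t ≤ 1/2`; DNV with `M = 1`). For `3 ≤ y < y1` the claim holds if `C' ≥ loglog y1`. -/
def SpecMEL : Prop :=
  ∀ (F : Type) [Field F] [NumberField F], ∃ C : ℝ, 0 < C ∧ ∀ y : ℝ, 3 ≤ y →
    ∃ T : Finset (Pl F), (∀ v, v ∈ T ↔ (nv v : ℝ) ≤ y) ∧
      Real.log (Real.log y) - C ≤ ∑ v ∈ T, 1 / (nv v : ℝ)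

/-! ## The number of twists -/

/-- **CNF** (250 lines; from IDA, WSU). Lower bound for the number of the sets `A`.
Proof. (1) Every nonzero ideal is `J^2 ∏_(v ∈ A) v` (`UniqueFactorizationMonoid.induction_on_prime`: `𝔭 J^2 ∏_A` is `(J 𝔭)^2 ∏_(A \ 𝔭)` or `J^2 ∏_(A ∪ 𝔭)`). (2) So
`IC Y ≤ 2^(#S) ∑_J W(Y/(N J)^2)`, `W x = #(WS S x)`, sum over the nonzero `J` with `(N J)^2 ≤ Y`: `I ↦ (J, A ∩ S, A \ S)`. (3) For `B ≥ 1` and a finite set of nonzero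
ideals of norm `> B`: `∑ 1/(N J)^2 ≤ 4 C/B` (dyadic intervals `(2^k B, 2^(k+1) B]`, IDA `upp`). (4) Choose `B` with `2^(#S) C 4C/B ≤ κ/4`. For `Y ≥ x0`
(`IC Y ≥ κ Y/2`): `κ Y/2 ≤ 2^(#S) (IC(B) W(Y) + C Y 4C/B)` (`W` is monotone, `W x ≤ C x`), so `W(Y) ≥ κ Y/(4 2^(#S) IC(B))`. -/
def SpecCNF : Prop :=
  ∀ (F : Type) [Field F] [NumberField F] (S : Finset (Pl F)), ∃ c Y0 : ℝ, 0 < c ∧
    ∀ Y : ℝ, Y0 ≤ Y → c * Y ≤ ((WS S Y).ncard : ℝ)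

/-! ## Typical twists -/

/-- **WIN** (200 lines; from `PF.SpecDNV`). Windows.
Proof. `le`: `PT.TDM.win_le`. `fin`: norms at most `(1+δ)^(j+1)`. `sum`: let `m0 > w` be the smallest norm in `T`; all norms are integers in `[m0, (1+δ) m0]`, at most
`δ m0 + 1` of them, each for at most `n` places: the sum is at most `n (δ m0 + 1)/m0`. `poor`: the windows of the `v ∈ T` are `≤ log Y/log (1+δ)`, each of them
contains at most `E` elements of `T`, and `1/nv v ≤ 1/w` (compare `PT.TDM.exc_poor`). -/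
structure SpecWIN : Prop where
  le : ∀ (δ : ℝ) (p q : ℕ), 0 < δ → 0 < p → 0 < q → wn δ p = wn δ q → (q : ℝ) ≤ (1 + δ) * p
  fin : ∀ (F : Type) [Field F] [NumberField F] (δ w : ℝ) (j : ℕ), 0 < δ → (WJ F δ w j).Finite
  sum : ∀ (F : Type) [Field F] [NumberField F] (δ w : ℝ) (j : ℕ) (T : Finset (Pl F)), 0 < δ →
    0 < w → (∀ v ∈ T, v ∈ WJ F δ w j) →
    ∑ v ∈ T, 1 / (nv v : ℝ) ≤ (Module.finrank ℚ F : ℝ) * (δ + 1 / w)
  poor : ∀ (F : Type) [Field F] [NumberField F] (δ w E Y : ℝ) (T : Finset (Pl F)), 0 < δ →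
    0 < w → 0 ≤ E → 1 ≤ Y →
    (∀ v ∈ T, w < (nv v : ℝ) ∧ (nv v : ℝ) ≤ Y ∧ ((WJ F δ w (wn δ (nv v))).ncard : ℝ) < E) →
    ∑ v ∈ T, 1 / (nv v : ℝ) ≤ (Real.log Y / Real.log (1 + δ) + 1) * E / w

/-- **TAS** (120 lines). Asymptotics. Compare `PT.TDM.ev_all` (`PT/TDD.lean`). -/
def SpecTAS : Prop :=
  ∀ (n C1 C2 C0 R K η W : ℝ), 1 ≤ n → 1 ≤ C1 → 0 < C2 → 0 < C0 → 1 ≤ R → 1 ≤ K → 0 < η →
    ∀ᶠ l : ℝ in atTop, 2 ≤ l ∧ 2 * K ≤ l ∧ W ≤ l ∧ C0 ≤ l ∧ 4 * R ≤ l ∧ 2 * C2 ≤ η * l ∧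
      C1 * n ^ 2 * (l + C0) * (1 / l ^ 2 + Real.exp (-(4 * R * K * l))) ≤ η ∧
      C1 * n * (Real.log (4 * R * K * l) + C0) * (4 * R) ≤ η * l ∧
      l / 2 ≤ l - Real.log 3 - C0 - n * (Real.log (4 * R * K * l) + C0) ∧
      C1 * (2 * l ^ 2 * Real.exp l + 1) * Real.exp (-(3 * R * K * l)) ≤ η

/-- **TEX** (300 lines; from WSU, TUR, MEU, MEL, WIN, TAS, `PF.SpecDNV`). Almost all `A` are good. Compare `PT.TDM.exceptional` (`PT/TD.lean`).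
Proof. `C1` from WSU, `C2` from TUR, `C0` = the maximum of the constants of MEU and MEL, `n = [F : ℚ]`, `W` = the maximum of the norms in `S`; `η = min (ε/8) (1/2)`,
`R = r0 + 1`, `K = 2 C1 n/η`. Let `l = loglog Y` (large, TAS), `w = exp (4RKl)`, `E = exp (RKl)`, `M = ⌊Kl⌋`, `δ = 1/l^2`. `(1+δ)^M ≤ exp (K/l) ≤ exp (1/2) ≤ 2`;
`nv v ≤ W ≤ l ≤ w` for `v ∈ S`; `exp (r0 M) ≤ E ≤ w`; `loglog w = log (4RKl)`, `w ≥ 3`. A bad `A ∈ WS S Y ⊆ WS ∅ Y` is in one of the following sets.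
(1) `LG w A` not injective: union bound with the pairs `(v, v')` of places in the same window, `v ≠ v'`, norms in `(w, Y]`, `B = {v, v'}`:
`C1 Y n (l + C0) n (δ + 1/w) ≤ η Y` (MEU, WIN `sum`; `nv v ≤ NA A` for `v ∈ A`). (2) `#LG ≥ M + 1 ≥ Kl`: Markov, `T` = places of norm `≤ Y`: `C1 Y n (l + C0)/(Kl) ≤ η Y`. (3)
`#SG ≥ l/(4R)`: Markov, `T` = places of norm `≤ w`: `C1 Y n (log (4RKl) + C0) 4R/l ≤ η Y`. (4) `T` = places with norm `> w` and `≤ z = Y^(1/3)` (`Real.rpow`):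
`P = ∑_T 1/nv v ≥ (∑_(nv ≤ z) - ∑_(nv ≤ w)) ≥ loglog z - C0 - n (log (4RKl) + C0) ≥ l/2` (`loglog z = l - log 3`, `z ≥ 3`); `#(T ∩ A) < P/2`: TUR:
`Y (η + C2/P) ≤ 2 η Y`. (5) a poor window: union bound with the poor places of norm in `(w, Y]`, `B = {v}`: `C1 Y (log Y/log (1+δ) + 1) E/w ≤ η Y` (WIN `poor`;
`log (1+δ) ≥ δ/2`, `log Y = exp l`). Otherwise `#LG ≥ #(T ∩ A) ≥ P/2 ≥ l/4 ≥ r0 l/(4R) ≥ r0 #SG`, `r0 ≤ l/4`. Total `6 η Y ≤ ε Y`. -/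
def SpecTEX : Prop :=
  ∀ (F : Type) [Field F] [NumberField F] (S : Finset (Pl F)) (ε : ℝ) (r0 : ℕ), 0 < ε →
    ∃ Y0 : ℝ, ∀ Y : ℝ, Y0 ≤ Y → ∃ (δ E w : ℝ) (M : ℕ), 0 < δ ∧ (1 + δ) ^ M ≤ 2 ∧ 1 ≤ w ∧
      (∀ v ∈ S, (nv v : ℝ) ≤ w) ∧ Real.exp ((r0 : ℝ) * M) ≤ E ∧ E ≤ w ∧
      ({A ∈ WS S Y | ¬ Gw δ E w M r0 A}.ncard : ℝ) ≤ ε * Y

/-- **TCL** (300 lines; from WSU `fin`, WIN `le`, `fin`). The classes. Compare `PT/TDB.lean` and the end of `PT/TD.lean`.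
Proof. The key of `A` is `(SG w A, (LG w A).image (wn δ ∘ nv))`. The classes are the keys `c = (a, J)` of the good `A ∈ WS S Y` (finitely many, enumerate them by
`Fin n`): `r = #J`, `A1 = a`, `L j` = the places of norm `> w` in the window `J.orderEmbOfFin rfl j` (WIN `fin`, `.toFinset`). Let `A` be good with key `c`:
`#J = #LG`; `Cw`: `exp (r0 r) ≤ exp (r0 M) ≤ E ≤ w`, `rich`, the places of `S` and of `a` have norm `≤ w`, different windows are disjoint. For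
`p ∈ piFinset L`: `a ∪ image p` has the key `c`, `NA (a ∪ image p) ≤ (1+δ)^r NA A ≤ 2Y` (WIN `le`: compare `p j` with the place of `LG w A` in the same window),
is disjoint from `S`, and determines `p` (`p j` is its only place in the window `J j`). Sets with different keys are different: the sum of the sizes of the classes is at most
`#(WS S (2Y))`. A good `A` is in its class: `p j` = the place of `LG w A` in the window `J j`. -/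
def SpecTCL : Prop :=
  ∀ (F : Type) [Field F] [NumberField F] (S : Finset (Pl F)) (δ E w Y : ℝ) (M r0 : ℕ), 0 < δ →
    (1 + δ) ^ M ≤ 2 → 1 ≤ w → (∀ v ∈ S, (nv v : ℝ) ≤ w) → Real.exp ((r0 : ℝ) * M) ≤ E → E ≤ w →
    ∃ (n : ℕ) (r : Fin n → ℕ) (A1 : Fin n → Finset (Pl F)) (L : ∀ i, Fin (r i) → Finset (Pl F)),
      Cw S r0 n r A1 L ∧ ∑ i, ∏ j, ((L i j).card : ℝ) ≤ ((WS S (2 * Y)).ncard : ℝ) ∧
      ∀ A ∈ WS S Y, Gw δ E w M r0 A → ∃ i, ∃ p ∈ Fintype.piFinset (L i),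
        A = A1 i ∪ Finset.univ.image p

/-- **TDF** (50 lines; from TEX, TCL, WSU). Typical twists. `C = 2 C1`; the uncovered `A` are bad. -/
def SpecTDF : Prop :=
  ∀ (F : Type) [Field F] [NumberField F] (S : Finset (Pl F)), ∃ C : ℝ, 0 < C ∧
    ∀ (ε : ℝ) (r0 : ℕ), 0 < ε → ∃ Y0 : ℝ, ∀ Y : ℝ, Y0 ≤ Y →
    ∃ (n : ℕ) (r : Fin n → ℕ) (A1 : Fin n → Finset (Pl F)) (L : ∀ i, Fin (r i) → Finset (Pl F)),
      Cw S r0 n r A1 L ∧ ∑ i, ∏ j, ((L i j).card : ℝ) ≤ C * Y ∧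
      ({A ∈ WS S Y | ∀ i, ∀ p ∈ Fintype.piFinset (L i),
        A ≠ A1 i ∪ Finset.univ.image p}.ncard : ℝ) ≤ ε * Y

/-! ## The final theorem -/

/-- **TNX** (200 lines; from TWV, `PF.SpecPLC` `fin`, `two`). The twists in terms of generators.
Proof. `vv v (algebraMap F (v.adicCompletion F) x) = v.valuation F x` (`valuedAdicCompletion_eq_valuation'`, see `PU/GNB.lean`, `PU/AUY.lean`). The valuation of
`x ≠ 0` is 1 for all but finitely many `v` (write `x = a/b` with integers `a, b`; PLC `fin`). `rep`: `A` = the places outside `G.S` with odd valuation of `x`;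
`x/∏_A pi v` has even valuations outside `G.S`; `Gs.rep`. `NA A ≤ tn x` (`finprod_mem_eq_finite_toFinset_prod`, `nv v ≥ 1`). `nrm`: the places with odd valuation of
`tw 1 A` are in `A ∪ G.S` (TWV `un` with `u = 1`). `inj`: the places outside `G.S` with odd valuation of `tw 1 A` are those of `A` (TWV `ex`, `un`), and the
parity does not change if one multiplies by a square. -/
structure SpecTNX : Prop where
  rep : ∀ {F : Type} [Field F] [NumberField F] (G : Gs F) (x : F), x ≠ 0 →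
    ∃ u ∈ G.U, ∃ A : Finset (Pl F), (∀ v ∈ A, v ∉ G.S) ∧ NA A ≤ tn x ∧
      ∃ y : F, y ≠ 0 ∧ x = (G.tw u A : F) * y ^ 2
  nrm : ∀ {F : Type} [Field F] [NumberField F] (G : Gs F) (A : Finset (Pl F)),
    (∀ v ∈ A, v ∉ G.S) → G.tw 1 A ≠ 0 ∧ tn (G.tw 1 A : F) ≤ NA A * NA G.S
  inj : ∀ {F : Type} [Field F] [NumberField F] (G : Gs F) (A A' : Finset (Pl F)) (y : F),
    (∀ v ∈ A, v ∉ G.S) → (∀ v ∈ A', v ∉ G.S) → y ≠ 0 → (G.tw 1 A : F) = (G.tw 1 A' : F) * y ^ 2 →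
    A = A'

/-- **CTW** (100 lines; from TNX, CNF). Lower bound for the number of classes.
Proof. `A ↦ [tw 1 A]` is injective from `WS G.S (Y / NA G.S)` to `Tw F Y` (`QuotientGroup.eq`), `G` from GNX; `Tw F Y` is finite: it is contained in the image
of `G.U × WS G.S Y` under `(u, A) ↦ [tw u A]` (TNX `rep`). -/
def SpecCTW : Prop :=
  ∀ (F : Type) [Field F] [NumberField F], (∀ Y : ℝ, (Tw F Y).Finite) ∧ ∃ c Y0 : ℝ, 0 < c ∧
    ∀ Y : ℝ, Y0 ≤ Y → c * Y ≤ ((Tw F Y).ncard : ℝ)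

/-- **PRX** (60 lines; from GEN `sqt`, `PF.SpecBOX`). The proportions.
Proof. `BOX`: `Box F X = Bx F ρ` with `ρ v = X v^(1/(6 mult v))`, which tends to infinity with `X v`; `4 a^3 + 27 b^2 ≠ 0` in the box. -/
def SpecPRX : Prop :=
  ∀ (F : Type) [Field F] [NumberField F] (R0 : ℝ), ∃ X0 : ℝ, ∀ X : InfinitePlace F → ℝ,
    (∀ v, X0 ≤ X v) → ∃ ρ : InfinitePlace F → ℝ, (∀ v, R0 ≤ ρ v) ∧
      ∀ (D : 𝓞 F) (x t : F) (d : ℕ), D ≠ 0 → t ≠ 0 → x = (D : F) * t ^ 2 →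
        propX X x d = prop ρ D d

/-- **FIN** (250 lines; from STA, TDF, CTW, TNX, PRX, WSU, GNX, TWV). The final theorem; `PR.law d` is the Poonen-Rains value. Compare `PT/FIN.lean`.
Proof. `G` from GNX, `C` from TDF for `G.S`, `c` from CTW. `ε1 = min ε (ε c/((#U + 1)(1 + C)))`, `r0` from STA for `G, ε1`. `Y` large (`Y ≥ 0`), the classes from TDF for `ε1`. For
every `i` and every `u ∈ U` STA gives `R0`; `X0` from PRX for the maximum. Let `ρ` be as in PRX. A bad class is `[tw u A]`, `u ∈ U`, `A ∈ WS G.S Y`, with bad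
`prop ρ (tw u A)`: `c = [D] = [D']`, `tn D' ≤ Y`, `D' = tw u A y^2` (TNX `rep`), `D = D' t^2`, and `propX X D d = prop ρ (tw u A) d` (PRX). Either `A` is
not covered (at most `ε1 Y` sets `A`), or `A = A1 i ∪ image p` with `p` in the exceptional set of STA for `(i, u)` (`ε1 ≤ ε`; at most
`∑_i ε1 ∏_j #(L i j) ≤ ε1 C Y`). So the number of bad classes is at most `#U (1 + C) ε1 Y ≤ ε c Y ≤ ε #(Tw F Y)`. -/
def SpecFIN : Prop :=
  ∀ (F : Type) [Field F] [NumberField F] (ε : ℝ), 0 < ε → ∃ Y0 : ℝ, ∀ Y : ℝ, Y0 ≤ Y →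
    ∃ X0 : ℝ, ∀ X : InfinitePlace F → ℝ, (∀ v, X0 ≤ X v) →
      ({c ∈ Tw F Y | ∃ D : Fˣ, (QuotientGroup.mk D : SqC F) = c ∧
        ∃ d : ℕ, ε < |propX X (D : F) d - PR.law d|}.ncard : ℝ) ≤ ε * ((Tw F Y).ncard : ℝ)

end Pool.Agent.Lib.MP_8cb858_nt.PU
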