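import Pool.Agent.Lib.MP_8cb858_nt.PU.SpecN

/-!
# Specs: tightness, mixing, bad events, assembly (Theorem S*), over `F`

Ports of the modules of `PT/` of the same name (`PT/SpecQ.lean`); notation of `PU/SpecN.lean`. `n` = number of mixing blocks for each of the
two curves `E`, `E'`; the blocks `bk n k`, `k < 2n`, are sets of `r / (2n)` consecutive indices. `al E E' p i`: `p i` is of type (1,2) or (3) for
`E` and of type (3) for `E'`. `As n E E' p lo hi` = the first such indices of the blocks `lo ≤ k < hi`. The curve `E` is mixed in the blocks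
`lo ≤ k < lo + n`, `E'` in the blocks `lo' ≤ k < lo' + n`; `(lo, lo')` is `(0, n)` or `(n, 0)`. `Uk k` = the (1,2)-indices of `E`
outside `A = Ax`, and the first `k` mixing indices of type (1,2).
Module XXX = file `PU/XXX.lean`, `theorem specXXX (hYYY : SpecYYY) .. : SpecXXX`, own lemmas in the namespace
`Pool.Agent.Lib.MP_8cb858_nt.PU.XXXM`.
-/

namespace Pool.Agent.Lib.MP_8cb858_nt.PU

open Polynomial NumberField IsDedekindDomain Pool.Agent.Lib.MP_8cb858_nt.SEL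
open Pool.Agent.Lib.MP_8cb858_nt.PF
open scoped Classical WithZero

namespace Dat

variable {F : Type} [Field F] [NumberField F] (S : Dat F)

/-- The blocks of indices. -/
noncomputable def bk (n k : ℕ) : Finset (Fin S.r) :=
  Finset.univ.filter (fun i => i.val / (S.r / (2 * n)) = k)

/-- `i` is a mixing index for `E`, neutral for `E'`. -/
def al (E E' : 𝓞 F × 𝓞 F) (p : Fin S.r → Pl F) (i : Fin S.r) : Prop :=
  ty (p i) E ≤ 1 ∧ ty (p i) E' = 1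

/-- The first mixing index of the block `k` (a set with at most one element). -/
noncomputable def fs (n : ℕ) (E E' : 𝓞 F × 𝓞 F) (p : Fin S.r → Pl F) (k : ℕ) : Finset (Fin S.r) :=
  (S.bk n k).filter (fun i => S.al E E' p i ∧ ∀ j ∈ S.bk n k, j < i → ¬ S.al E E' p j)

/-- The first mixing indices of the blocks `lo ≤ k < hi`. -/
noncomputable def As (n : ℕ) (E E' : 𝓞 F × 𝓞 F) (p : Fin S.r → Pl F) (lo hi : ℕ) :
    Finset (Fin S.r) :=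
  (Finset.Ico lo hi).biUnion (S.fs n E E' p)

/-- The set `A`. -/
noncomputable def Ax (n : ℕ) (E E' : 𝓞 F × 𝓞 F) (p : Fin S.r → Pl F) (lo lo' : ℕ) :
    Finset (Fin S.r) :=
  S.As n E E' p lo (lo + n) ∪ S.As n E' E p lo' (lo' + n)

/-- The sets `U_k`. -/
noncomputable def Uk (n : ℕ) (E E' : 𝓞 F × 𝓞 F) (p : Fin S.r → Pl F) (lo lo' k : ℕ) :
    Finset (Fin S.r) :=
  (S.Ux E p).filter (fun i => i ∉ S.Ax n E E' p lo lo' ∨ i ∈ S.As n E E' p lo (lo + k))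

/-- The good event for `E` (blocks `lo ≤ k < lo + n`). -/
structure Gh (n : ℕ) (η κ : ℝ) (lo : ℕ) (E E' : 𝓞 F × 𝓞 F) (p : Fin S.r → Pl F) : Prop where
  bad : ∀ i, ty (p i) E ≠ 3
  t12 : 48 * S.r ≤ 100 * (S.Ux E p).card
  t111 : 100 * (S.Jx E p).card ≤ 17 * S.r
  aux : ∀ v ∈ (S.m0 p (jx (S.m0 p) E)).2, Y3 v E
  base : (sc E (S.D1 * S.G.mx (S.m0 p) E) : ℝ) ≤ 2 ^ ((1 / 20 : ℝ) * S.r)
  blk : ∀ k, lo ≤ k → k < lo + n → ∃ i ∈ S.bk n k, S.al E E' p i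
  nod : S.Nal η κ E E' p

/-- The equivalence relation for tightness (index `i`). -/
def Rt (E E' : 𝓞 F × 𝓞 F) (i : ℕ) (p p' : Fin S.r → Pl F) : Prop :=
  p = p' ∨ ∃ h : i < S.r, (∀ j, j ≠ ⟨i, h⟩ → p j = p' j) ∧ ty (p ⟨i, h⟩) E = ty (p' ⟨i, h⟩) E ∧
    ty (p ⟨i, h⟩) E' = ty (p' ⟨i, h⟩) E' ∧ ty (p ⟨i, h⟩) E ≠ 2 ∧
    cl (S.Kx E p) (S.G.pi (p ⟨i, h⟩) : F) = cl (S.Kx E p) (S.G.pi (p' ⟨i, h⟩) : F)

/-- The equivalence relation for mixing (block `k`). -/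
def Rm (n : ℕ) (E E' : 𝓞 F × 𝓞 F) (k : ℕ) (p p' : Fin S.r → Pl F) : Prop :=
  p = p' ∨ ∃ a, a ∈ S.fs n E E' p k ∧ a ∈ S.fs n E E' p' k ∧ (∀ j, j ≠ a → p j = p' j) ∧
    cl (S.K2 E E' p) (S.G.pi (p a) : F) = cl (S.K2 E E' p) (S.G.pi (p' a) : F)

end Dat

/-- **EQR** (port of `PT/EQR.lean`). Combinatorics of blocks and relations. -/
structure SpecEQR : Prop where
  rt : ∀ {F : Type} [Field F] [NumberField F] (S : Dat F) (E E' : 𝓞 F × 𝓞 F) (i : ℕ),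
    Equivalence (S.Rt E E' i)
  rm : ∀ {F : Type} [Field F] [NumberField F] (S : Dat F) (n : ℕ) (E E' : 𝓞 F × 𝓞 F) (k : ℕ),
    Equivalence (S.Rm n E E' k)
  rtv : ∀ {F : Type} [Field F] [NumberField F] (S : Dat F) (E E' : 𝓞 F × 𝓞 F) (i : ℕ)
    (p p' : Fin S.r → Pl F), S.Rt E E' i p p' →
    (∀ j, ty (p j) E = ty (p' j) E ∧ ty (p j) E' = ty (p' j) E') ∧ S.Jx E p = S.Jx E p' ∧
    S.Ux E p = S.Ux E p' ∧ S.Kx E p = S.Kx E p' ∧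
    ∀ (n lo lo' : ℕ), S.Ax n E E' p lo lo' = S.Ax n E E' p' lo lo'
  rmv : ∀ {F : Type} [Field F] [NumberField F] (S : Dat F) (n : ℕ) (E E' : 𝓞 F × 𝓞 F) (k : ℕ)
    (p p' : Fin S.r → Pl F), S.Rm n E E' k p p' →
    S.Jx E p = S.Jx E p' ∧ S.Jx E' p = S.Jx E' p' ∧ S.Ux E' p = S.Ux E' p' ∧
    S.K2 E E' p = S.K2 E E' p' ∧
    ∀ (lo lo' : ℕ), (lo = 0 ∧ lo' = n ∨ lo = n ∧ lo' = 0) → lo ≤ k → k < lo + n →
      S.Ax n E E' p lo lo' = S.Ax n E E' p' lo lo' ∧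
      S.Uk n E E' p lo lo' (k - lo) = S.Uk n E E' p' lo lo' (k - lo) ∧
      (p ≠ p' → ∀ a ∈ S.fs n E E' p k, a ∉ S.Uk n E E' p lo lo' (k - lo))
  fs1 : ∀ {F : Type} [Field F] [NumberField F] (S : Dat F) (n : ℕ) (E E' : 𝓞 F × 𝓞 F) (k : ℕ)
    (p : Fin S.r → Pl F), (S.fs n E E' p k).card ≤ 1 ∧
    ((∃ i ∈ S.bk n k, S.al E E' p i) → (S.fs n E E' p k).card = 1)
  cardA : ∀ {F : Type} [Field F] [NumberField F] (S : Dat F) (n : ℕ) (E E' : 𝓞 F × 𝓞 F)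
    (p : Fin S.r → Pl F) (lo lo' : ℕ), (S.Ax n E E' p lo lo').card ≤ 2 * n
  uk : ∀ {F : Type} [Field F] [NumberField F] (S : Dat F) (n : ℕ) (E E' : 𝓞 F × 𝓞 F)
    (p : Fin S.r → Pl F) (lo lo' : ℕ), S.Uk n E E' p lo lo' n = S.Ux E p
  uks : ∀ {F : Type} [Field F] [NumberField F] (S : Dat F) (n : ℕ) (E E' : 𝓞 F × 𝓞 F)
    (p : Fin S.r → Pl F) (lo lo' k : ℕ),
    (lo = 0 ∧ lo' = n ∨ lo = n ∧ lo' = 0) → k < n →
    S.Uk n E E' p lo lo' (k + 1) = S.Uk n E E' p lo lo' k ∪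
      (S.fs n E E' p (lo + k)).filter (fun i => ty (p i) E = 0) ∧
    ∀ a ∈ S.fs n E E' p (lo + k), a ∉ S.Uk n E E' p lo lo' k
  bkc : ∀ {F : Type} [Field F] [NumberField F] (S : Dat F) (n k : ℕ), 0 < n → 2 * n ≤ S.r →
    k < 2 * n → S.r / (2 * n) ≤ (S.bk n k).card

/-- **TGS** (port of `PT/TGS.lean`; from IVT, NST, CNT, GEN, CLM, EQR `rtv`, VAP, AUV, TYZ). The tightness step. -/
def SpecTGS : Prop :=
  ∀ (F : Type) [Field F] [NumberField F] (S : Dat F) (η κ : ℝ) (E E' : 𝓞 F × 𝓞 F)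
    (p : Fin S.r → Pl F) (i : Fin S.r) (U : Finset (Fin S.r)),
    S.Ok → p ∈ S.Om → 0 ≤ η → η < 1 / 2 → κ < 1 / 3 → Sf S.M0 E → dsc E.1 E.2 ≠ 0 →
    (∀ j, ty (p j) E ≠ 3) → U ⊆ S.Ux E p → i ∈ S.Ux E p → i ∉ U →
    S.Nd η κ E E' p (S.Kx E p) i U → S.Nd η κ E E' p (S.Kx E p) i ∅ → S.Aok E p (insert i U) →
    ∑ p' ∈ S.Om.filter (S.Rt E E' i p), (2 : ℝ) ^ S.sx E p' (insert i U) ≤
      ((1 / 2 + 3 * η) * 2 ^ S.sx E p U + 3 / 2) * ((S.Om.filter (S.Rt E E' i p)).card : ℝ)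

/-- **TGP** (port of `PT/TGP.lean`; from `PT.SpecTGT`, TGS, JST, IVT, EQR, GEN). Tightness. -/
def SpecTGP : Prop :=
  ∀ (F : Type) [Field F] [NumberField F] (S : Dat F) (n : ℕ) (η κ : ℝ) (E E' : 𝓞 F × 𝓞 F)
    (lo lo' : ℕ), S.Ok → 0 < n → 40 * n ≤ S.r →
    0 ≤ η → η ≤ 1 / 150 → κ < 1 / 3 → Sf S.M0 E → dsc E.1 E.2 ≠ 0 →
    (lo = 0 ∧ lo' = n ∨ lo = n ∧ lo' = 0) →
    ∑ p ∈ S.Om.filter (S.Gh n η κ lo E E'), (2 : ℝ) ^ S.sx E p (S.Uk n E E' p lo lo' 0) ≤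
      7 * (S.Om.card : ℝ)

/-- **MXS** (port of `PT/MXS.lean`; from IVT, NST, CNT, GEN, CLM, EQR, TYZ, VAP, AUV). The mixing step. -/
def SpecMXS : Prop :=
  ∀ (F : Type) [Field F] [NumberField F] (S : Dat F) (n : ℕ) (η κ : ℝ) (E E' : 𝓞 F × 𝓞 F)
    (lo lo' k : ℕ) (p : Fin S.r → Pl F), S.Ok → 0 < n →
    2 * n ≤ S.r → 0 ≤ η → η < 1 / 2 → 0 ≤ κ → κ ≤ 1 / 10 → Sf S.M0 E → dsc E.1 E.2 ≠ 0 →
    (lo = 0 ∧ lo' = n ∨ lo = n ∧ lo' = 0) → k < n → p ∈ S.Om → S.Gh n η κ lo E E' p →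
    ∀ f : ℕ → ℝ, (∀ m, |f m| ≤ 1) →
      |∑ p' ∈ S.Om.filter (S.Rm n E E' (lo + k) p), f (S.sx E p' (S.Uk n E E' p' lo lo' (k + 1))) -
        PT.Pop f (S.sx E p (S.Uk n E E' p lo lo' k)) *
          ((S.Om.filter (S.Rm n E E' (lo + k) p)).card : ℝ)| ≤
        (4 * η + 4 * κ) * ((S.Om.filter (S.Rm n E E' (lo + k) p)).card : ℝ)

/-- **MXP** (port of `PT/MXP.lean`; from `PT.SpecMIX`, MXS, EQR, IVT, CLM). Mixing for one curve. -/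
def SpecMXP : Prop :=
  ∀ (F : Type) [Field F] [NumberField F] (S : Dat F) (n : ℕ) (η κ : ℝ) (E E' : 𝓞 F × 𝓞 F)
    (lo lo' : ℕ) (g : (Fin S.r → Pl F) → ℝ), S.Ok →
    0 < n → 2 * n ≤ S.r → 0 ≤ η → η < 1 / 2 → 0 ≤ κ → κ ≤ 1 / 10 → Sf S.M0 E →
    dsc E.1 E.2 ≠ 0 → (lo = 0 ∧ lo' = n ∨ lo = n ∧ lo' = 0) → (∀ p ∈ S.Om, |g p| ≤ 1) →
    (∀ k < n, ∀ p ∈ S.Om, ∀ p' ∈ S.Om, S.Rm n E E' (lo + k) p p' → g p = g p') →
    ∀ f : ℕ → ℝ, (∀ m, |f m| ≤ 1) →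
      |∑ p ∈ S.Om, f (S.sx E p (S.Ux E p)) * g p -
        ∑ p ∈ S.Om, (PT.Pop^[n] f) (S.sx E p (S.Uk n E E' p lo lo' 0)) * g p| ≤
        n * (4 * η + 4 * κ) * (S.Om.card : ℝ) +
          2 * n * ((S.Om.filter (fun p => ¬ S.Gh n η κ lo E E' p)).card : ℝ)

/-- **GIV** (port of `PT/GIV.lean`; from EQR, IVT, CLM). The second curve does not change. -/
def SpecGIV : Prop :=
  ∀ (F : Type) [Field F] [NumberField F] (S : Dat F) (n : ℕ) (E E' : 𝓞 F × 𝓞 F) (lo lo' k : ℕ)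
    (p p' : Fin S.r → Pl F), S.Ok →
    (lo = 0 ∧ lo' = n ∨ lo = n ∧ lo' = 0) → k < n → p ∈ S.Om → p' ∈ S.Om →
    S.Rm n E E' (lo + k) p p' →
    S.sx E' p (S.Ux E' p) = S.sx E' p' (S.Ux E' p') ∧
    S.sx E' p (S.Uk n E' E p lo' lo 0) = S.sx E' p' (S.Uk n E' E p' lo' lo 0)

/-- **PAI** (port of `PT/PAI.lean`; from `PT.SpecKPM`, NST, TGP, MXP, GIV). The pair theorem. -/
def SpecPAI : Prop :=
  ∀ ε : ℝ, 0 < ε → ∃ (n : ℕ) (η κ C : ℝ), 0 < n ∧ 0 < η ∧ 0 < κ ∧ κ ≤ 1 / 1000 ∧ 0 < C ∧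
    ∀ (F : Type) [Field F] [NumberField F] (S : Dat F) (E E' : 𝓞 F × 𝓞 F), S.Ok → 40 * n ≤ S.r →
      Sf S.M0 E → dsc E.1 E.2 ≠ 0 →
      Sf S.M0 E' → dsc E'.1 E'.2 ≠ 0 → ∀ f g : ℕ → ℝ, (∀ m, |f m| ≤ 1) → (∀ m, |g m| ≤ 1) →
      |∑ p ∈ S.Om, f (Nat.log 2 (sc E (S.D1 * S.pp p Finset.univ))) *
          g (Nat.log 2 (sc E' (S.D1 * S.pp p Finset.univ))) -
          PT.Lm f * PT.Lm g * (S.Om.card : ℝ)| ≤
        ε * (S.Om.card : ℝ) +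
          C * ((S.Om.filter (fun p => ¬ (S.Gh n η κ 0 E E' p ∧ S.Gh n η κ n E' E p))).card : ℝ)

/-! ## Bad events -/

/-- The size conditions of Theorem S*. -/
structure Big {F : Type} [Field F] [NumberField F] (S : Dat F) (r0 : ℕ) : Prop where
  ok : S.Ok
  r : r0 ≤ S.r
  d1 : r0 * S.A1.card ≤ S.r
  m0 : r0 * S.M0.card ≤ S.r
  c0 : r0 * S.c0 ≤ S.r
  pr : ∀ i, ∀ q ∈ S.L i, Real.exp (r0 * S.r) ≤ (nv q : ℝ)
  card : ∀ i, Real.exp (r0 * S.r) ≤ ((S.L i).card : ℝ)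
  aux : ∀ (M : Finset (Pl F)) (x : F), S.M0 ⊆ M → x ≠ 0 →
    (∀ v ∈ M, v ∉ S.G.S → vv v (algebraMap F (v.adicCompletion F) x) = 1) →
    ∀ j, ∀ v ∈ (S.mm M (cl M x) j).2, r0 ≤ nv v

/-- **BAB** (port of `PT/BAB.lean`; from PRD, TYZ). Bad types: for fixed `p`. -/
def SpecBAB : Prop :=
  ∀ (F : Type) [Field F] [NumberField F] (ε : ℝ), 0 < ε → ∃ r0 : ℕ, ∀ S : Dat F, Big S r0 →
    ∃ R0 : ℝ, ∀ ρ : InfinitePlace F → ℝ, (∀ v, R0 ≤ ρ v) → ∀ p ∈ S.Om,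
    ({E ∈ Bx F ρ | ∃ i, ty (p i) E = 3}.ncard : ℝ) ≤ ε * ((Bx F ρ).ncard : ℝ)

/-- The types are well distributed in the list `L`. -/
structure Tok {F : Type} [Field F] [NumberField F] (κ : ℝ) (L : Finset (Pl F))
    (E : 𝓞 F × 𝓞 F) : Prop where
  t12 : |((L.filter (fun q => Y12 q E)).card : ℝ) - (L.card : ℝ) / 2| ≤ κ * L.card
  t3 : |((L.filter (fun q => Y3 q E)).card : ℝ) - (L.card : ℝ) / 3| ≤ κ * L.card

/-- **TYE** (100 lines; from TYV, TYZ; see `PT/TYE.lean`). The types are well distributed in all lists and in the sublists of the places of type (3)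
for `E'` (for most `E`, given `E'`).
Proof. TYV for `L = L i` (proportion of bad `E` at most `(6n+6)/(κ^2 exp(r0 r))`), and for all subsets `L ⊆ L i` with at least `#(L i)/4` elements (finitely
many, so `R0` does not depend on `E'`); `Tok κ (L i) E'` implies that `{q ∈ L i : ty q E' = 1}` (= type (3): TYZ `t1`, `6 ∉ q` by `Gs.six`) has at least
`(1/3 - κ) #L i ≥ #L i/4` elements. Sum over `i`: `2 r · 4 (6n+6)/(κ^2 exp(r0 r)) ≤ ε`. -/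
def SpecTYE : Prop :=
  ∀ (F : Type) [Field F] [NumberField F] (κ ε : ℝ), 0 < κ → κ ≤ 1 / 1000 → 0 < ε →
    ∃ r0 : ℕ, ∀ S : Dat F, Big S r0 →
    ∃ R0 : ℝ, ∀ ρ : InfinitePlace F → ℝ, (∀ v, R0 ≤ ρ v) →
    ({E ∈ Bx F ρ | ∃ i, ¬ Tok κ (S.L i) E}.ncard : ℝ) ≤ ε * ((Bx F ρ).ncard : ℝ) ∧
    ∀ E' : 𝓞 F × 𝓞 F, (∀ i, Tok κ (S.L i) E') →
      ({E ∈ Bx F ρ | ∃ i, ¬ Tok κ ((S.L i).filter (fun q => ty q E' = 1)) E}.ncard : ℝ) ≤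
        ε * ((Bx F ρ).ncard : ℝ)

/-- **TYP** (port of `PT/TYP.lean`; from CHB, TYZ). Typical numbers of types (deterministic in `E`). -/
def SpecTYP : Prop :=
  ∀ ε : ℝ, 0 < ε → ∃ r0 : ℕ, ∀ (F : Type) [Field F] [NumberField F] (S : Dat F) (κ : ℝ)
    (E : 𝓞 F × 𝓞 F), Big S r0 → 0 < κ → κ ≤ 1 / 1000 →
    (∀ i, Tok κ (S.L i) E) →
    ((S.Om.filter (fun p => ¬ (48 * S.r ≤ 100 * (S.Ux E p).card ∧
      100 * (S.Jx E p).card ≤ 17 * S.r))).card : ℝ) ≤ ε * (S.Om.card : ℝ)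

/-- **BLB** (port of `PT/BLB.lean`; from BLK, EQR `bkc`, TYZ). Blocks without mixing index (deterministic in `E, E'`). -/
def SpecBLB : Prop :=
  ∀ (n : ℕ) (ε : ℝ), 0 < n → 0 < ε → ∃ r0 : ℕ, ∀ (F : Type) [Field F] [NumberField F] (S : Dat F)
    (κ : ℝ) (E E' : 𝓞 F × 𝓞 F) (lo : ℕ),
    Big S r0 → 0 < κ → κ ≤ 1 / 1000 → lo ≤ n → (∀ i, Tok κ (S.L i) E') →
    (∀ i, Tok κ ((S.L i).filter (fun q => ty q E' = 1)) E) →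
    ((S.Om.filter (fun p => ¬ ∀ k, lo ≤ k → k < lo + n → ∃ i ∈ S.bk n k, S.al E E' p i)).card : ℝ) ≤
      ε * (S.Om.card : ℝ)

/-- **BSB** (60 lines; from BAS, AUV; see `PT/BSB.lean`). The base bound fails (fixed `p`).
Proof. BAS with `δ = 1/20`, `u = u1`, `A = A1`, `b = c0 + 2 #M0` (`r0' b ≤ 3 r/..` : take `r0 ≥ 3 r0'`), `mm = m0 p = ms (Kp p ∅) p univ` (AUV with `J = ∅`; `Big.aux`;
`Aq`); finitely many `p`. -/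
def SpecBSB : Prop :=
  ∀ (F : Type) [Field F] [NumberField F] (G : Gs F) (ε : ℝ), 0 < ε → ∃ r0 : ℕ, ∀ S : Dat F,
    S.G = G → Big S r0 →
    ∃ R0 : ℝ, ∀ ρ : InfinitePlace F → ℝ, (∀ v, R0 ≤ ρ v) → ∀ p ∈ S.Om,
    ({E ∈ Bx F ρ | ¬ ((∀ v ∈ (S.m0 p (jx (S.m0 p) E)).2, Y3 v E) ∧
      (sc E (S.D1 * S.G.mx (S.m0 p) E) : ℝ) ≤ 2 ^ ((1 / 20 : ℝ) * S.r))}.ncard : ℝ) ≤
        ε * ((Bx F ρ).ncard : ℝ)

/-- **SML** (port of `PT/SML.lean`; from ONE, `S.Ok.num`). Small lists (deterministic in `E'`).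
Proof. For `i`, `I` with `i ∉ I`: ONE for the coordinate `i`: `K = Kp p I` does not change. `L i` is divided into the cells `{q : ty q E' = t, cl K (pi q) = c}`, at
most `4 · 2^(c0 + 2 #K)` of them (`ty ≤ 3`, `Ok.num` for `T` = the image of `L i`), `c0 + 2 #K ≤ r + 2 (r + r) = 5 r`; the `q` in cells with less than
`exp(r1 r)` elements are at most `4 · 2^(5r) exp(r1 r) ≤ exp(-3 r) #L i` if `r0 ≥ r1 + 10` (`r ≥ r0`). Sum over the `r 2^r` pairs `(i, I)`: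
`≤ r 2^r exp(-3r) ≤ ε`. -/
def SpecSML : Prop :=
  ∀ (r1 : ℕ) (ε : ℝ), 0 < ε → ∃ r0 : ℕ, ∀ (F : Type) [Field F] [NumberField F] (S : Dat F)
    (E' : 𝓞 F × 𝓞 F), Big S r0 →
    ((S.Om.filter (fun p => ∃ (i : Fin S.r) (I : Finset (Fin S.r)), i ∉ I ∧
      ((S.Ls E' (S.Kp p I) p i).card : ℝ) < Real.exp (r1 * S.r))).card : ℝ) ≤
      ε * (S.Om.card : ℝ)

/-- **NDB** (port of `PT/NDB.lean`, 200 lines; from NOD, AUV, VAP). Bad nodes (fixed `E'`, `p` with large lists).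
Proof. `B = 8`, `r1` from NOD. For given `p`, `i, I, V, J, W`: NOD for `u = u1`, `A = A1 ∪ V.image p` (VAP `im`: `D1 pp V = tw u1 A`), `#A ≤ r + r`,
`L' = Ls E' (Kp p I) p i ⊆ L i`, `mm = ms (Kp p J) p W`, `b = c0 + 2 #(Kp p J) ≤ 5 r`, `4^b r^2 = RR (Kp p J)`: `Aq` by AUV and `Big.aux` (VAP `cop`): the places of the auxiliary
sets are outside `Kp p J ⊇ M0 ⊇ G.S, A1` and outside all lists. `q ∈ L'`: `q ∉ A` (`i ∉ V`, lists disjoint, `A1 ⊆ M0`), `nv q ≥ exp(r0 r) ≥ r1`. The number of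
`(i, I, V, J, W)` is `r 16^r`, `r 16^r exp(-8 r) ≤ ε`. `R0`: the maximum over the finitely many `p` and subsets `L'` of the `L i` (so it does not depend on
`E'`). -/
def SpecNDB : Prop :=
  ∀ (F : Type) [Field F] [NumberField F] (G : Gs F) (η κ ε : ℝ), 0 < η → 0 < κ → 0 < ε →
    ∃ r1 r0 : ℕ, ∀ S : Dat F, S.G = G → Big S r0 →
    ∃ R0 : ℝ, ∀ ρ : InfinitePlace F → ℝ, (∀ v, R0 ≤ ρ v) → ∀ p ∈ S.Om, ∀ E' : 𝓞 F × 𝓞 F,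
      (∀ (i : Fin S.r) (I : Finset (Fin S.r)), i ∉ I →
        Real.exp (r1 * S.r) ≤ ((S.Ls E' (S.Kp p I) p i).card : ℝ)) →
      ({E ∈ Bx F ρ | ¬ S.Nal η κ E E' p}.ncard : ℝ) ≤ ε * ((Bx F ρ).ncard : ℝ)

/-- **BDM** (port of `PT/BDM.lean`, 250 lines; from BAB, TYE, TYP, BLB, BSB, SML, NDB, EQZ). The measure of the bad event. -/
def SpecBDM : Prop :=
  ∀ (F : Type) [Field F] [NumberField F] (G : Gs F) (n : ℕ) (η κ ε : ℝ), 0 < n → 0 < η → 0 < κ →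
    κ ≤ 1 / 1000 → 0 < ε → ∃ r0 : ℕ, ∀ S : Dat F, S.G = G →
    Big S r0 → ∃ R0 : ℝ, ∀ ρ : InfinitePlace F → ℝ, (∀ v, R0 ≤ ρ v) →
      ({t : (𝓞 F × 𝓞 F) × (𝓞 F × 𝓞 F) × (Fin S.r → Pl F) | t.1 ∈ Bx F ρ ∧ t.2.1 ∈ Bx F ρ ∧
        t.2.2 ∈ S.Om ∧
        ¬ (S.Gh n η κ 0 t.1 t.2.1 t.2.2 ∧ S.Gh n η κ n t.2.1 t.1 t.2.2)}.ncard : ℝ) ≤
        ε * ((Bx F ρ).ncard : ℝ) ^ 2 * (S.Om.card : ℝ)

/-- **STA** (Theorem S*). -/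
def SpecSTA : Prop :=
  ∀ (F : Type) [Field F] [NumberField F] (G : Gs F) (ε : ℝ), 0 < ε →
    ∃ r0 : ℕ, ∀ (r : ℕ) (u : 𝓞 F) (A1 : Finset (Pl F)) (L : Fin r → Finset (Pl F)), r0 ≤ r →
    u ∈ G.U → (∀ v ∈ A1, v ∉ G.S) → r0 * A1.card ≤ r →
    (∀ i, ∀ q ∈ L i, q ∉ G.S ∧ Real.exp (r0 * r) ≤ (nv q : ℝ) ∧ q ∉ A1) →
    (∀ i, Real.exp (r0 * r) ≤ ((L i).card : ℝ)) → (∀ i j, i ≠ j → Disjoint (L i) (L j)) →
    ∃ R0 : ℝ, ∀ ρ : InfinitePlace F → ℝ, (∀ v, R0 ≤ ρ v) →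
      (((Fintype.piFinset L).filter
        (fun p => ∃ d : ℕ, ε < |prop ρ (G.tw u (A1 ∪ Finset.univ.image p)) d - PR.law d|)).card : ℝ) ≤
        ε * ∏ i, ((L i).card : ℝ)

-- **STR** (port of `PT/STR.lean`, 300 lines): `theorem specSTA (hPAI : SpecPAI) (hBDM : SpecBDM) (hSMM : PT.SpecSMM) (hTLZ : SpecTLZ) (hEQZ : SpecEQZ)
-- (hGEN : SpecGEN) (hAUX : SpecAUX) (hNUM : SpecNUM) (hKPM : PT.SpecKPM) (hVAP : SpecVAP) (hDNV : PF.SpecDNV) : SpecSTA` (file PU/STR.lean).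
-- Proof. `δ` from SMM for `ε`; PAI for `δ/4`: `n, η, κ, C`; BDM for `δ/(4C)`: `r0'`; TLZ for `δ/16`: `M`; NUM: `c0`. `N0` = the finite set `G.S ∪ {v : nv v ≤ M}`. `r0` large:
-- `r0 ≥ 40 n`, `r0 ≥ 2 r0' (#N0 + c0 + 1)`, `exp(r0) > M`. Given `r, u, A1, L`: `M0 = N0 ∪ A1`, `mm` from AUX (`B0 = r0'`, `bad = ∪ L i`), `S = ⟨G, r, c0, M0, u, A1, L, mm⟩`:
-- `Big S r0'` (`q ∈ L i`: `nv q ≥ exp(r0) > M`, so `q ∉ N0`; `#M0 ≤ #N0 + #A1`). `Ex = Bx F ρ` (finite, EQZ), `s E p = Nat.log 2 (sc E (D1 pp univ))`. For `E ∈ Bx F ρ` with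
-- `¬ Sf M0 E` there is `v ∉ M0`, so `6 ∉ v` (`Gs.six`) and `nv v > M`, with `dsc ∈ v^2`: at most `(δ/16) #Bx` (TLZ). Then as in `PT/STR.lean`. `D1 pp univ = tw u (A1 ∪ univ.image p)`
-- (VAP `im`), and `#{E : s E p = d}/#Bx = prop ρ (..) d` because `sc = 2^s` (GEN `fin`; `dsc ≠ 0` in the box).

end Pool.Agent.Lib.MP_8cb858_nt.PU
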