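import Mathlib
import Pool.Agent.Lib.MP_391708_nt.Eqd.Prime
import Pool.Agent.Lib.MP_8cb858_nt.PU.SpecT
import Pool.Agent.Lib.MP_8cb858_nt.PV.TWX

section
/-!
# Counting lemmas for TD
-/
namespace Pool.Agent.Lib.MP_8cb858_nt.PT.TDM

open Finset

/-- sum of the reciprocals of the primes up to `y` -/
noncomputable def PS (y : ℕ) : ℝ := ∑ p ∈ (Icc 1 y).filter Nat.Prime, 1 / (p : ℝ)

lemma mertens : ∃ C : ℝ, 0 < C ∧ ∀ y : ℕ, 3 ≤ y → |PS y - Real.log (Real.log y)| ≤ C := by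
  obtain ⟨C, hC⟩ := Pool.Agent.Lib.MP391708.Eqd.specPrime 1 one_pos 0 (by simp) 1 one_pos
  refine ⟨|C| + 1, by positivity, fun y hy => ?_⟩
  have h := hC y hy 0 (by simp)
  have h1 : (∑ p ∈ (Icc 1 y).filter (fun p => p.Prime ∧ p ≡ 0 [MOD 1]),
      (p : ℂ) ^ (-1 + Complex.I * ((0 : ℝ) : ℂ))) = ((PS y : ℝ) : ℂ) := by
    unfold PS
    push_cast
    have h2 : (Icc 1 y).filter (fun p => p.Prime ∧ p ≡ 0 [MOD 1]) = (Icc 1 y).filter Nat.Prime := by
      refine Finset.filter_congr fun p _ => ?_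
      simp [Nat.modEq_one]
    rw [h2]
    refine Finset.sum_congr rfl fun p _ => ?_
    rw [mul_zero, add_zero, Complex.cpow_neg_one, one_div]
  rw [h1, ← Complex.ofReal_sub, Complex.norm_real, Real.norm_eq_abs] at h
  have h2 : -Real.log (1 / Real.log y + |(0 : ℝ)|) = Real.log (Real.log y) := by
    rw [abs_zero, add_zero, one_div, Real.log_inv, neg_neg]
  rw [h2] at h
  simp only [Nat.totient_one, Nat.cast_one, div_one, one_mul] at h
  have := le_abs_self C
  linarith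

lemma card_dvd (Y d : ℕ) : ((Icc 1 Y).filter (fun D => d ∣ D)).card = Y / d := by
  have h : (Icc 1 Y).filter (fun D => d ∣ D) = (Ioc 0 Y).filter (fun D => d ∣ D) := by
    rfl
  rw [h, Nat.Ioc_filter_dvd_card_eq_div]

lemma card_dvd_le (Y d : ℕ) : (((Icc 1 Y).filter (fun D => d ∣ D)).card : ℝ) ≤ Y * (1 / (d : ℝ)) := by
  rw [card_dvd, mul_one_div]
  exact Nat.cast_div_le

lemma card_dvd_ge (Y d : ℕ) (hd : 0 < d) :
    Y * (1 / (d : ℝ)) - 1 ≤ (((Icc 1 Y).filter (fun D => d ∣ D)).card : ℝ) := by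
  rw [card_dvd, mul_one_div]
  have h := Nat.lt_div_mul_add (a := Y) hd
  have h1 : (Y : ℝ) < (Y / d : ℕ) * d + d := by exact_mod_cast h
  have hd' : (0 : ℝ) < d := by exact_mod_cast hd
  have h2 : (Y : ℝ) / d < (Y / d : ℕ) + 1 := by
    rw [div_lt_iff₀ hd']; linarith
  linarith

/-- union bound -/
lemma card_exists_le {ι : Type*} (s : Finset ι) (Y : ℕ) (d : ι → ℕ) (P : ℕ → Prop)
    [DecidablePred P] (h : ∀ D ∈ Icc 1 Y, P D → ∃ i ∈ s, d i ∣ D) :
    (((Icc 1 Y).filter P).card : ℝ) ≤ Y * ∑ i ∈ s, 1 / (d i : ℝ) := by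
  classical
  have h1 : (Icc 1 Y).filter P ⊆ s.biUnion (fun i => (Icc 1 Y).filter (fun D => d i ∣ D)) := by
    intro D hD
    rw [mem_filter] at hD
    obtain ⟨i, hi, hd⟩ := h D hD.1 hD.2
    rw [mem_biUnion]
    exact ⟨i, hi, mem_filter.2 ⟨hD.1, hd⟩⟩
  calc (((Icc 1 Y).filter P).card : ℝ)
      ≤ ((s.biUnion (fun i => (Icc 1 Y).filter (fun D => d i ∣ D))).card : ℝ) := by
        exact_mod_cast card_le_card h1
    _ ≤ ((∑ i ∈ s, ((Icc 1 Y).filter (fun D => d i ∣ D)).card : ℕ) : ℝ) := by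
        exact_mod_cast card_biUnion_le
    _ = ∑ i ∈ s, (((Icc 1 Y).filter (fun D => d i ∣ D)).card : ℝ) := by push_cast; rfl
    _ ≤ ∑ i ∈ s, Y * (1 / (d i : ℝ)) := Finset.sum_le_sum fun i _ => card_dvd_le Y (d i)
    _ = _ := by rw [Finset.mul_sum]

/-- number of the elements of `T` dividing `D` -/
def cnt (T : Finset ℕ) (D : ℕ) : ℕ := (T.filter (fun p => p ∣ D)).card

lemma sum_cnt (T : Finset ℕ) (Y : ℕ) :
    ∑ D ∈ Icc 1 Y, (cnt T D : ℝ) = ∑ p ∈ T, (((Icc 1 Y).filter (fun D => p ∣ D)).card : ℝ) := by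
  unfold cnt
  simp only [Finset.card_filter, Nat.cast_sum, Nat.cast_ite, Nat.cast_one, Nat.cast_zero]
  rw [Finset.sum_comm]

lemma sum_cnt_le (T : Finset ℕ) (Y : ℕ) :
    ∑ D ∈ Icc 1 Y, (cnt T D : ℝ) ≤ Y * ∑ p ∈ T, 1 / (p : ℝ) := by
  rw [sum_cnt, Finset.mul_sum]
  exact Finset.sum_le_sum fun p _ => card_dvd_le Y p

lemma sum_cnt_ge (T : Finset ℕ) (hT : ∀ p ∈ T, 0 < p) (Y : ℕ) :
    Y * (∑ p ∈ T, 1 / (p : ℝ)) - T.card ≤ ∑ D ∈ Icc 1 Y, (cnt T D : ℝ) := by
  rw [sum_cnt, Finset.mul_sum]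
  have : (∑ p ∈ T, (Y : ℝ) * (1 / (p : ℝ))) - T.card = ∑ p ∈ T, ((Y : ℝ) * (1 / (p : ℝ)) - 1) := by
    rw [Finset.sum_sub_distrib]; simp
  rw [this]
  exact Finset.sum_le_sum fun p hp => card_dvd_ge Y p (hT p hp)

/-- Markov -/
lemma markov (T : Finset ℕ) (Y : ℕ) {a : ℝ} (ha : 0 < a) :
    (((Icc 1 Y).filter (fun D => a ≤ (cnt T D : ℝ))).card : ℝ) ≤
      Y * ((∑ p ∈ T, 1 / (p : ℝ)) / a) := by
  have h1 : a * (((Icc 1 Y).filter (fun D => a ≤ (cnt T D : ℝ))).card : ℝ) ≤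
      ∑ D ∈ Icc 1 Y, (cnt T D : ℝ) := by
    calc a * (((Icc 1 Y).filter (fun D => a ≤ (cnt T D : ℝ))).card : ℝ)
        = ∑ D ∈ (Icc 1 Y).filter (fun D => a ≤ (cnt T D : ℝ)), a := by
          rw [Finset.sum_const, nsmul_eq_mul, mul_comm]
      _ ≤ ∑ D ∈ (Icc 1 Y).filter (fun D => a ≤ (cnt T D : ℝ)), (cnt T D : ℝ) :=
          Finset.sum_le_sum fun D hD => (mem_filter.1 hD).2
      _ ≤ _ := Finset.sum_le_sum_of_subset_of_nonneg (filter_subset _ _)
          fun D _ _ => Nat.cast_nonneg _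
  have h2 := h1.trans (sum_cnt_le T Y)
  rw [← mul_div_assoc, le_div_iff₀ ha]
  linarith

/-- Turan -/
lemma turan (T : Finset ℕ) (hT : ∀ p ∈ T, p.Prime) (Y : ℕ) (hc : 2 * T.card ≤ Y)
    (hP : 0 < ∑ p ∈ T, 1 / (p : ℝ)) :
    (((Icc 1 Y).filter (fun D => (cnt T D : ℝ) < (∑ p ∈ T, 1 / (p : ℝ)) / 2)).card : ℝ) ≤
      Y * (8 / ∑ p ∈ T, 1 / (p : ℝ)) := by
  classical
  set P := ∑ p ∈ T, 1 / (p : ℝ) with hPdef
  have hpos : ∀ p ∈ T, 0 < p := fun p hp => (hT p hp).pos
  -- second moment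
  have hsq : ∑ D ∈ Icc 1 Y, (cnt T D : ℝ) ^ 2 ≤ Y * (P ^ 2 + P) := by
    have h1 : ∀ D, (cnt T D : ℝ) ^ 2 =
        ∑ p ∈ T, ∑ q ∈ T, (if p ∣ D ∧ q ∣ D then (1 : ℝ) else 0) := by
      intro D
      have : (cnt T D : ℝ) = ∑ p ∈ T, (if p ∣ D then (1 : ℝ) else 0) := by
        unfold cnt; rw [Finset.sum_boole]
      rw [this, sq, Finset.sum_mul_sum]
      refine Finset.sum_congr rfl fun p _ => Finset.sum_congr rfl fun q _ => ?_
      by_cases h : p ∣ D <;> by_cases h' : q ∣ D <;> simp [h, h']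
    simp_rw [h1]
    rw [Finset.sum_comm]
    have h2 : ∀ p ∈ T, ∑ D ∈ Icc 1 Y, ∑ q ∈ T, (if p ∣ D ∧ q ∣ D then (1 : ℝ) else 0) ≤
        Y * (1 / (p : ℝ) * P + 1 / (p : ℝ)) := by
      intro p hp
      rw [Finset.sum_comm]
      have h3 : ∀ q ∈ T, ∑ D ∈ Icc 1 Y, (if p ∣ D ∧ q ∣ D then (1 : ℝ) else 0) ≤
          Y * (1 / (p : ℝ) * (1 / (q : ℝ)) + if q = p then 1 / (p : ℝ) else 0) := by
        intro q hq
        by_cases hpq : q = p
        · subst hpq
          simp only [and_self, if_true]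
          rw [Finset.sum_ite, Finset.sum_const_zero, add_zero, Finset.sum_const, nsmul_eq_mul,
            mul_one]
          refine (card_dvd_le Y q).trans ?_
          refine mul_le_mul_of_nonneg_left ?_ (Nat.cast_nonneg _)
          have : (0 : ℝ) ≤ 1 / (q : ℝ) * (1 / (q : ℝ)) := by positivity
          linarith
        · rw [if_neg hpq, add_zero, Finset.sum_ite, Finset.sum_const_zero, add_zero,
            Finset.sum_const, nsmul_eq_mul, mul_one]
          have h4 : (Icc 1 Y).filter (fun D => p ∣ D ∧ q ∣ D) =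
              (Icc 1 Y).filter (fun D => p * q ∣ D) := by
            refine Finset.filter_congr fun D _ => ?_
            constructor
            · rintro ⟨h5, h6⟩
              exact Nat.Coprime.mul_dvd_of_dvd_of_dvd
                ((Nat.coprime_primes (hT p hp) (hT q hq)).2 (Ne.symm hpq)) h5 h6
            · intro h5
              exact ⟨(Dvd.intro _ rfl).trans h5, (Dvd.intro_left _ rfl).trans h5⟩
          rw [h4]
          refine (card_dvd_le Y (p * q)).trans (le_of_eq ?_)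
          push_cast
          rw [one_div_mul_one_div]
      calc ∑ q ∈ T, ∑ D ∈ Icc 1 Y, (if p ∣ D ∧ q ∣ D then (1 : ℝ) else 0)
          ≤ ∑ q ∈ T, Y * (1 / (p : ℝ) * (1 / (q : ℝ)) + if q = p then 1 / (p : ℝ) else 0) :=
            Finset.sum_le_sum h3
        _ = Y * (1 / (p : ℝ) * P + 1 / (p : ℝ)) := by
            rw [← Finset.mul_sum, Finset.sum_add_distrib, ← Finset.mul_sum,
              Finset.sum_ite_eq' T p, if_pos hp]
    calc ∑ p ∈ T, ∑ D ∈ Icc 1 Y, ∑ q ∈ T, (if p ∣ D ∧ q ∣ D then (1 : ℝ) else 0)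
        ≤ ∑ p ∈ T, Y * (1 / (p : ℝ) * P + 1 / (p : ℝ)) := Finset.sum_le_sum h2
      _ = Y * (P ^ 2 + P) := by
          rw [← Finset.mul_sum, Finset.sum_add_distrib, ← Finset.sum_mul, ← hPdef]; ring
  have hlow := sum_cnt_ge T hpos Y
  rw [← hPdef] at hlow
  have hvar : ∑ D ∈ Icc 1 Y, ((cnt T D : ℝ) - P) ^ 2 ≤ 2 * (Y * P) := by
    have h1 : ∑ D ∈ Icc 1 Y, ((cnt T D : ℝ) - P) ^ 2 =
        ∑ D ∈ Icc 1 Y, (cnt T D : ℝ) ^ 2 - 2 * P * ∑ D ∈ Icc 1 Y, (cnt T D : ℝ) + Y * P ^ 2 := by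
      have : ∀ D, ((cnt T D : ℝ) - P) ^ 2 = (cnt T D : ℝ) ^ 2 - 2 * P * (cnt T D : ℝ) + P ^ 2 :=
        fun D => by ring
      simp_rw [this]
      rw [Finset.sum_add_distrib, Finset.sum_sub_distrib, ← Finset.mul_sum, Finset.sum_const,
        nsmul_eq_mul]
      simp
    rw [h1]
    have hc' : 2 * (T.card : ℝ) ≤ Y := by exact_mod_cast hc
    nlinarith [mul_le_mul_of_nonneg_left hlow hP.le, mul_le_mul_of_nonneg_left hc' hP.le]
  have h5 : (P / 2) ^ 2 * (((Icc 1 Y).filter (fun D => (cnt T D : ℝ) < P / 2)).card : ℝ) ≤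
      2 * (Y * P) := by
    calc (P / 2) ^ 2 * (((Icc 1 Y).filter (fun D => (cnt T D : ℝ) < P / 2)).card : ℝ)
        = ∑ D ∈ (Icc 1 Y).filter (fun D => (cnt T D : ℝ) < P / 2), (P / 2) ^ 2 := by
          rw [Finset.sum_const, nsmul_eq_mul, mul_comm]
      _ ≤ ∑ D ∈ (Icc 1 Y).filter (fun D => (cnt T D : ℝ) < P / 2), ((cnt T D : ℝ) - P) ^ 2 := by
          refine Finset.sum_le_sum fun D hD => ?_
          have := (mem_filter.1 hD).2
          nlinarith
      _ ≤ ∑ D ∈ Icc 1 Y, ((cnt T D : ℝ) - P) ^ 2 :=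
          Finset.sum_le_sum_of_subset_of_nonneg (filter_subset _ _) fun D _ _ => sq_nonneg _
      _ ≤ _ := hvar
  rw [← mul_div_assoc, le_div_iff₀ hP]
  have h6 : P * (P * (((Icc 1 Y).filter (fun D => (cnt T D : ℝ) < P / 2)).card : ℝ)) ≤
      P * (Y * 8) := by nlinarith
  have := le_of_mul_le_mul_left h6 hP
  linarith

end Pool.Agent.Lib.MP_8cb858_nt.PT.TDM
end

section
/-!
# Module MEU (helper20): the theorem of Mertens for the places, upper bound
-/
namespace Pool.Agent.Lib.MP_8cb858_nt.PU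

open Polynomial NumberField IsDedekindDomain Filter Pool.Agent.Lib.MP_8cb858_nt.SEL
open Pool.Agent.Lib.MP_8cb858_nt.PF
open scoped Classical WithZero Topology

theorem specMEU : SpecMEU := by
  intro F _ _
  obtain ⟨C, hC, hM⟩ := PT.TDM.mertens
  refine ⟨C, hC, fun y hy T hT => ?_⟩
  choose p hp hpv using (DNVM.exists_prime (F := F))
  have hle : ∀ v ∈ T, p v ∈ (Finset.Icc 1 ⌊y⌋₊).filter Nat.Prime := by
    intro v hv
    rw [Finset.mem_filter, Finset.mem_Icc]
    refine ⟨⟨(hp v).one_lt.le, ?_⟩, hp v⟩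
    apply Nat.le_floor
    have h1 : (p v : ℝ) ≤ nv v := by exact_mod_cast DNVM.le_nv (hp v) (hpv v)
    exact h1.trans (hT v hv)
  have h1 : ∑ v ∈ T, 1 / (nv v : ℝ) ≤ ∑ v ∈ T, 1 / (p v : ℝ) := by
    refine Finset.sum_le_sum fun v _ => ?_
    have h0 : (0 : ℝ) < p v := by exact_mod_cast (hp v).pos
    have h1 : (p v : ℝ) ≤ nv v := by exact_mod_cast DNVM.le_nv (hp v) (hpv v)
    exact one_div_le_one_div_of_le h0 h1
  have h2 : ∑ v ∈ T, 1 / (p v : ℝ) =
      ∑ m ∈ (Finset.Icc 1 ⌊y⌋₊).filter Nat.Prime, ∑ v ∈ T.filter (fun v => p v = m),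
        1 / (p v : ℝ) := (Finset.sum_fiberwise_of_maps_to hle _).symm
  have h3 : ∀ m ∈ (Finset.Icc 1 ⌊y⌋₊).filter Nat.Prime,
      ∑ v ∈ T.filter (fun v => p v = m), 1 / (p v : ℝ) ≤
        (Module.finrank ℚ F : ℝ) * (1 / (m : ℝ)) := by
    intro m hm
    have hmp : m.Prime := (Finset.mem_filter.1 hm).2
    have h4 : ∑ v ∈ T.filter (fun v => p v = m), 1 / (p v : ℝ) =
        ∑ v ∈ T.filter (fun v => p v = m), 1 / (m : ℝ) :=
      Finset.sum_congr rfl fun v hv => by rw [(Finset.mem_filter.1 hv).2]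
    rw [h4, Finset.sum_const, nsmul_eq_mul]
    refine mul_le_mul_of_nonneg_right ?_ (by positivity)
    exact_mod_cast DNVM.card_over m hmp _ fun v hv => by
      have := hpv v
      rwa [(Finset.mem_filter.1 hv).2] at this
  have h5 : ∑ v ∈ T, 1 / (nv v : ℝ) ≤ (Module.finrank ℚ F : ℝ) * PT.TDM.PS ⌊y⌋₊ := by
    refine h1.trans ?_
    rw [h2]
    refine (Finset.sum_le_sum h3).trans (le_of_eq ?_)
    rw [← Finset.mul_sum]
    rfl
  have h3y : 3 ≤ ⌊y⌋₊ := Nat.le_floor (by exact_mod_cast hy)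
  have h6 := (abs_le.1 (hM ⌊y⌋₊ h3y)).2
  have h7 : Real.log (Real.log (⌊y⌋₊ : ℝ)) ≤ Real.log (Real.log y) := by
    have h8 : (3 : ℝ) ≤ (⌊y⌋₊ : ℝ) := by exact_mod_cast h3y
    have h9 : (⌊y⌋₊ : ℝ) ≤ y := Nat.floor_le (by linarith)
    have h10 : 0 < Real.log (⌊y⌋₊ : ℝ) := Real.log_pos (by linarith)
    exact Real.log_le_log h10 (Real.log_le_log (by linarith) h9)
  refine h5.trans (mul_le_mul_of_nonneg_left ?_ (by positivity))
  linarith

end Pool.Agent.Lib.MP_8cb858_nt.PU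
end

section
/-!
# TCL: the classes of the good sets of places
-/
namespace Pool.Agent.Lib.MP_8cb858_nt.PU

open Polynomial NumberField IsDedekindDomain Filter Pool.Agent.Lib.MP_8cb858_nt.SEL
open Pool.Agent.Lib.MP_8cb858_nt.PF
open scoped Classical WithZero Topology

namespace TCLM

open Finset

variable {F : Type} [Field F] [NumberField F] {δ E w Y : ℝ} {M r0 : ℕ} {S : Finset (Pl F)}

/-- The key of a set of places. -/
noncomputable def key (δ w : ℝ) (A : Finset (Pl F)) : Finset (Pl F) × Finset ℕ :=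
  (SG w A, (LG w A).image (fun v => wn δ (nv v)))

/-- The lists of a class. -/
noncomputable def LL (hf : ∀ j, (WJ F δ w j).Finite) (J : Finset ℕ) (j : Fin J.card) :
    Finset (Pl F) :=
  (hf (J.orderEmbOfFin rfl j)).toFinset

theorem mem_LL {hf : ∀ j, (WJ F δ w j).Finite} {J : Finset ℕ} {j : Fin J.card} {v : Pl F} :
    v ∈ LL hf J j ↔ w < (nv v : ℝ) ∧ wn δ (nv v) = J.orderEmbOfFin rfl j := by
  unfold LL
  rw [Set.Finite.mem_toFinset]
  rfl

theorem mem_pi {hf : ∀ j, (WJ F δ w j).Finite} {J : Finset ℕ} {p : Fin J.card → Pl F}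
    (h : p ∈ Fintype.piFinset (LL hf J)) (j) :
    w < (nv (p j) : ℝ) ∧ wn δ (nv (p j)) = J.orderEmbOfFin rfl j := by
  rw [Fintype.mem_piFinset] at h
  exact mem_LL.1 (h j)

theorem mem_LG {A : Finset (Pl F)} {v : Pl F} : v ∈ LG w A ↔ v ∈ A ∧ w < (nv v : ℝ) := by
  unfold LG; rw [mem_filter]

theorem mem_SG {A : Finset (Pl F)} {v : Pl F} : v ∈ SG w A ↔ v ∈ A ∧ (nv v : ℝ) ≤ w := by
  unfold SG; rw [mem_filter]

theorem split (w : ℝ) (A : Finset (Pl F)) : SG w A ∪ LG w A = A := by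
  ext v
  rw [mem_union, mem_SG, mem_LG]
  constructor
  · rintro (h | h) <;> exact h.1
  · intro h
    rcases le_or_gt (nv v : ℝ) w with h1 | h1
    · exact Or.inl ⟨h, h1⟩
    · exact Or.inr ⟨h, h1⟩

theorem disj (w : ℝ) (A : Finset (Pl F)) : Disjoint (SG w A) (LG w A) := by
  rw [Finset.disjoint_left]
  intro v h1 h2
  exact absurd (mem_SG.1 h1).2 (not_le.2 (mem_LG.1 h2).2)

theorem card_key {A : Finset (Pl F)} (h : Gw δ E w M r0 A) :
    (key δ w A).2.card = (LG w A).card := by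
  unfold key
  exact Finset.card_image_of_injOn h.inj

theorem image_emb (J : Finset ℕ) : univ.image (fun j : Fin J.card => J.orderEmbOfFin rfl j) = J := by
  have := Finset.range_orderEmbOfFin J rfl
  apply Finset.coe_injective
  rw [Finset.coe_image, Finset.coe_univ, Set.image_univ]
  exact this

theorem pi_inj {hf : ∀ j, (WJ F δ w j).Finite} {J : Finset ℕ} {p : Fin J.card → Pl F}
    (h : p ∈ Fintype.piFinset (LL hf J)) : Function.Injective p := by
  intro i j hij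
  have h1 : J.orderEmbOfFin rfl i = J.orderEmbOfFin rfl j := by
    rw [← (mem_pi h i).2, ← (mem_pi h j).2, hij]
  exact (J.orderEmbOfFin rfl).injective h1

/-- Every good set is in its class. -/
theorem cover (hf : ∀ j, (WJ F δ w j).Finite) {A : Finset (Pl F)} (h : Gw δ E w M r0 A) :
    ∃ p ∈ Fintype.piFinset (LL hf (key δ w A).2), A = (key δ w A).1 ∪ univ.image p := by
  obtain ⟨J, hJ⟩ : ∃ J, J = (key δ w A).2 := ⟨_, rfl⟩
  have hc : J.card = (LG w A).card := by rw [hJ, card_key h]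
  have hJ' : J = (LG w A).image (fun v => wn δ (nv v)) := hJ
  rw [← hJ]
  have hex : ∀ j : Fin J.card, ∃ q ∈ LG w A, wn δ (nv q) = J.orderEmbOfFin rfl j := by
    intro j
    have : J.orderEmbOfFin rfl j ∈ (LG w A).image (fun v => wn δ (nv v)) := by
      rw [← hJ']; exact Finset.orderEmbOfFin_mem J rfl j
    exact mem_image.1 this
  choose p hp1 hp2 using hex
  have hp : p ∈ Fintype.piFinset (LL hf J) := by
    rw [Fintype.mem_piFinset]
    intro j
    exact mem_LL.2 ⟨(mem_LG.1 (hp1 j)).2, hp2 j⟩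
  refine ⟨p, hp, ?_⟩
  have himg : univ.image p = LG w A := by
    refine Finset.eq_of_subset_of_card_le ?_ ?_
    · intro q hq
      obtain ⟨j, _, rfl⟩ := mem_image.1 hq
      exact hp1 j
    · rw [Finset.card_image_of_injective _ (pi_inj hp), Finset.card_univ, Fintype.card_fin, hc]
  rw [himg]
  exact (split w A).symm

theorem SG_union {a : Finset (Pl F)} (ha : ∀ v ∈ a, (nv v : ℝ) ≤ w) {r : ℕ} {p : Fin r → Pl F}
    (hp : ∀ j, w < (nv (p j) : ℝ)) : SG w (a ∪ univ.image p) = a := by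
  ext v
  rw [mem_SG, mem_union, mem_image]
  constructor
  · rintro ⟨h | ⟨j, _, rfl⟩, h2⟩
    · exact h
    · exact absurd h2 (not_le.2 (hp j))
  · intro h
    exact ⟨Or.inl h, ha v h⟩

theorem LG_union {a : Finset (Pl F)} (ha : ∀ v ∈ a, (nv v : ℝ) ≤ w) {r : ℕ} {p : Fin r → Pl F}
    (hp : ∀ j, w < (nv (p j) : ℝ)) : LG w (a ∪ univ.image p) = univ.image p := by
  ext v
  rw [mem_LG, mem_union]
  constructor
  · rintro ⟨h | h, h2⟩
    · exact absurd (ha v h) (not_le.2 h2)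
    · exact h
  · intro h
    refine ⟨Or.inr h, ?_⟩
    obtain ⟨j, _, rfl⟩ := mem_image.1 h
    exact hp j

theorem key_union {a : Finset (Pl F)} (ha : ∀ v ∈ a, (nv v : ℝ) ≤ w) {J : Finset ℕ}
    {hf : ∀ j, (WJ F δ w j).Finite} {p : Fin J.card → Pl F}
    (hp : p ∈ Fintype.piFinset (LL hf J)) : key δ w (a ∪ univ.image p) = (a, J) := by
  unfold key
  rw [SG_union ha fun j => (mem_pi hp j).1, LG_union ha fun j => (mem_pi hp j).1,
    Finset.image_image]
  congr 1
  conv_rhs => rw [← image_emb J]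
  refine Finset.image_congr fun j _ => ?_
  exact (mem_pi hp j).2

theorem NA_union {a : Finset (Pl F)} (ha : ∀ v ∈ a, (nv v : ℝ) ≤ w) {J : Finset ℕ}
    {hf : ∀ j, (WJ F δ w j).Finite} {p : Fin J.card → Pl F}
    (hp : p ∈ Fintype.piFinset (LL hf J)) :
    NA (a ∪ univ.image p) = NA a * ∏ j, nv (p j) := by
  unfold NA
  rw [Finset.prod_union, Finset.prod_image fun i _ j _ h => pi_inj hp h]
  rw [Finset.disjoint_left]
  intro v h1 h2
  obtain ⟨j, _, rfl⟩ := mem_image.1 h2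
  exact absurd (ha _ h1) (not_le.2 (mem_pi hp j).1)

/-- The sets of the class of a good set have norm at most `2 Y`. -/
theorem class_le (hwin : ∀ (p q : ℕ), 0 < p → 0 < q → wn δ p = wn δ q → (q : ℝ) ≤ (1 + δ) * p)
    (hδ : 0 < δ) (hM : (1 + δ) ^ M ≤ 2) (hw : 1 ≤ w) (hf : ∀ j, (WJ F δ w j).Finite)
    {A : Finset (Pl F)} (h : Gw δ E w M r0 A) (hA : (NA A : ℝ) ≤ Y)
    {p : Fin (key δ w A).2.card → Pl F} (hp : p ∈ Fintype.piFinset (LL hf (key δ w A).2)) :
    (NA ((key δ w A).1 ∪ univ.image p) : ℝ) ≤ 2 * Y := by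
  obtain ⟨p0, hp0, hA0⟩ := cover hf h
  have ha : ∀ v ∈ (key δ w A).1, (nv v : ℝ) ≤ w := fun v hv => (mem_SG.1 hv).2
  have hpos : ∀ v : Pl F, w < (nv v : ℝ) → 0 < nv v := fun v hv => by
    have : (0 : ℝ) < nv v := by linarith
    exact_mod_cast this
  have h1 : ∀ j, (nv (p j) : ℝ) ≤ (1 + δ) * nv (p0 j) := fun j =>
    hwin _ _ (hpos _ (mem_pi hp0 j).1) (hpos _ (mem_pi hp j).1)
      ((mem_pi hp0 j).2.trans (mem_pi hp j).2.symm)
  have h2 : ∏ j, (nv (p j) : ℝ) ≤ (1 + δ) ^ (key δ w A).2.card * ∏ j, (nv (p0 j) : ℝ) := by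
    calc ∏ j, (nv (p j) : ℝ) ≤ ∏ j, ((1 + δ) * (nv (p0 j) : ℝ)) :=
          Finset.prod_le_prod (fun j _ => Nat.cast_nonneg _) fun j _ => h1 j
      _ = _ := by
          rw [Finset.prod_mul_distrib, Finset.prod_const, Finset.card_univ, Fintype.card_fin]
  have h3 : (1 + δ) ^ (key δ w A).2.card ≤ 2 := by
    refine le_trans (pow_le_pow_right₀ (by linarith) ?_) hM
    rw [card_key h]; exact h.leM
  have h4 : (NA A : ℝ) = NA (key δ w A).1 * ∏ j, (nv (p0 j) : ℝ) := by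
    have h5 := NA_union ha hp0
    rw [← hA0] at h5
    rw [h5]
    push_cast
    rfl
  rw [NA_union ha hp]
  push_cast
  have hN : (0 : ℝ) ≤ NA A := Nat.cast_nonneg _
  calc (NA (key δ w A).1 : ℝ) * ∏ j, (nv (p j) : ℝ)
      ≤ NA (key δ w A).1 * ((1 + δ) ^ (key δ w A).2.card * ∏ j, (nv (p0 j) : ℝ)) :=
        mul_le_mul_of_nonneg_left h2 (Nat.cast_nonneg _)
    _ = (1 + δ) ^ (key δ w A).2.card * NA A := by rw [h4]; ring
    _ ≤ 2 * NA A := mul_le_mul_of_nonneg_right h3 hN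
    _ ≤ 2 * Y := by linarith

/-- Injectivity inside a class. -/
theorem class_inj {a : Finset (Pl F)} (ha : ∀ v ∈ a, (nv v : ℝ) ≤ w) {J : Finset ℕ}
    {hf : ∀ j, (WJ F δ w j).Finite} {p q : Fin J.card → Pl F}
    (hp : p ∈ Fintype.piFinset (LL hf J)) (hq : q ∈ Fintype.piFinset (LL hf J))
    (he : a ∪ univ.image p = a ∪ univ.image q) : p = q := by
  have h1 := LG_union ha fun j => (mem_pi hp j).1
  have h2 := LG_union ha fun j => (mem_pi hq j).1
  rw [he, h2] at h1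
  funext j
  have h3 : p j ∈ univ.image q := by rw [h1]; exact mem_image_of_mem _ (mem_univ j)
  obtain ⟨k, _, hk⟩ := mem_image.1 h3
  have h4 : J.orderEmbOfFin rfl k = J.orderEmbOfFin rfl j := by
    rw [← (mem_pi hq k).2, ← (mem_pi hp j).2, hk]
  have h5 : k = j := (J.orderEmbOfFin rfl).injective h4
  rw [← hk, h5]

end TCLM

open Finset TCLM in
theorem specTCL (hWSU : SpecWSU) (hWIN : SpecWIN) : SpecTCL := by
  intro F _ _ S δ E w Y M r0 hδ hM hw hSw hEM hEw
  have hf : ∀ j, (WJ F δ w j).Finite := fun j => hWIN.fin F δ w j hδ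
  have hwin : ∀ (p q : ℕ), 0 < p → 0 < q → wn δ p = wn δ q → (q : ℝ) ≤ (1 + δ) * p :=
    fun p q hp hq h => hWIN.le δ p q hδ hp hq h
  have hfin : ∀ y, (WS S y).Finite := fun y => hWSU.fin F S y
  obtain ⟨G, hG⟩ : ∃ G : Finset (Finset (Pl F)), ∀ A, A ∈ G ↔ A ∈ WS S Y ∧ Gw δ E w M r0 A :=
    ⟨(hfin Y).toFinset.filter (fun A => Gw δ E w M r0 A), fun A => by
      rw [mem_filter, Set.Finite.mem_toFinset]⟩
  obtain ⟨KK, hKK⟩ : ∃ KK : Finset (Finset (Pl F) × Finset ℕ), KK = G.image (key δ w) := ⟨_, rfl⟩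
  have hKK' : ∀ c ∈ KK, ∃ A, A ∈ WS S Y ∧ Gw δ E w M r0 A ∧ key δ w A = c := by
    intro c hc
    rw [hKK] at hc
    obtain ⟨A, hA, hAc⟩ := mem_image.1 hc
    exact ⟨A, ((hG A).1 hA).1, ((hG A).1 hA).2, hAc⟩
  obtain ⟨en, -⟩ : ∃ en : Fin KK.card ≃ KK, True := ⟨KK.equivFin.symm, trivial⟩
  refine ⟨KK.card, fun i => (en i).1.2.card, fun i => (en i).1.1, fun i => LL hf (en i).1.2,
    ?_, ?_, ?_⟩
  · have hget := fun i => hKK' (en i).1 (en i).2
    choose A hA1 hA2 hA3 using hget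
    have hcard : ∀ i, (en i).1.2.card = (LG w (A i)).card := fun i => by
      rw [← hA3 i, card_key (hA2 i)]
    have hfst : ∀ i, (en i).1.1 = SG w (A i) := fun i => by rw [← hA3 i]; rfl
    have hexp : ∀ i, Real.exp (r0 * ((en i).1.2.card : ℝ)) ≤ E := fun i => by
      refine le_trans (Real.exp_le_exp.2 ?_) hEM
      refine mul_le_mul_of_nonneg_left ?_ (Nat.cast_nonneg _)
      rw [hcard i]; exact_mod_cast (hA2 i).leM
    refine ⟨?_, ?_, ?_, ?_, ?_, ?_⟩
    · intro i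
      rw [hcard i]; exact (hA2 i).ge
    · intro i v hv
      rw [hfst i] at hv
      exact (hA1 i).1 v (mem_SG.1 hv).1
    · intro i
      rw [hcard i, hfst i]; exact (hA2 i).sm
    · intro i j q hq
      have hq' := (mem_LL.1 hq).1
      refine ⟨fun h => absurd (hSw q h) (not_le.2 hq'), ((hexp i).trans hEw).trans hq'.le,
        fun h => ?_⟩
      rw [hfst i] at h
      exact absurd (mem_SG.1 h).2 (not_le.2 hq')
    · intro i j
      refine (hexp i).trans ?_
      have hmem : (en i).1.2.orderEmbOfFin rfl j ∈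
          (LG w (A i)).image (fun v => wn δ (nv v)) := by
        have h6 : (LG w (A i)).image (fun v => wn δ (nv v)) = (en i).1.2 := by
          rw [← hA3 i]; rfl
        rw [h6]
        exact Finset.orderEmbOfFin_mem _ rfl j
      obtain ⟨v, hv, hvj⟩ := mem_image.1 hmem
      have h7 := (hA2 i).rich v hv
      rw [hvj] at h7
      rw [Set.ncard_eq_toFinset_card _ (hf _)] at h7
      exact h7
    · intro i j k hjk
      rw [Finset.disjoint_left]
      intro v hv hv'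
      have h8 := (mem_LL.1 hv).2.symm.trans (mem_LL.1 hv').2
      exact hjk (((en i).1.2.orderEmbOfFin rfl).injective h8)
  · -- the sizes of the classes
    have h1 : ∀ c ∈ KK, ∏ j, (LL hf c.2 j).card ≤
        ((hfin (2 * Y)).toFinset.filter (fun A => key δ w A = c)).card := by
      intro c hc
      obtain ⟨A, hAW, hA, rfl⟩ := hKK' c hc
      have ha : ∀ v ∈ (key δ w A).1, (nv v : ℝ) ≤ w := fun v hv => (mem_SG.1 hv).2
      rw [← Fintype.card_piFinset]
      refine card_le_card_of_injOn (fun p => (key δ w A).1 ∪ univ.image p) ?_ ?_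
      · intro p hp
        have hp' : p ∈ Fintype.piFinset (LL hf (key δ w A).2) := hp
        rw [mem_coe, mem_filter, Set.Finite.mem_toFinset]
        refine ⟨⟨?_, class_le hwin hδ hM hw hf hA hAW.2 hp'⟩, key_union ha hp'⟩
        intro v hv hvS
        rcases mem_union.1 hv with h | h
        · exact hAW.1 v (mem_SG.1 h).1 hvS
        · obtain ⟨j, _, rfl⟩ := mem_image.1 h
          exact absurd (hSw _ hvS) (not_le.2 (mem_pi hp' j).1)
      · intro p hp q hq he
        exact class_inj ha hp hq he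
    have h2 : ∑ c ∈ KK, ∏ j, (LL hf c.2 j).card ≤ (WS S (2 * Y)).ncard := by
      calc ∑ c ∈ KK, ∏ j, (LL hf c.2 j).card
          ≤ ∑ c ∈ KK, ((hfin (2 * Y)).toFinset.filter (fun A => key δ w A = c)).card :=
            Finset.sum_le_sum h1
        _ = (KK.biUnion (fun c => (hfin (2 * Y)).toFinset.filter (fun A => key δ w A = c))).card := by
            rw [Finset.card_biUnion]
            intro c _ c' _ hne
            rw [Function.onFun, Finset.disjoint_left]
            intro A hA hA'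
            exact hne ((mem_filter.1 hA).2.symm.trans (mem_filter.1 hA').2)
        _ ≤ (hfin (2 * Y)).toFinset.card := by
            refine card_le_card fun A hA => ?_
            obtain ⟨c, _, hc⟩ := mem_biUnion.1 hA
            exact (mem_filter.1 hc).1
        _ = _ := (Set.ncard_eq_toFinset_card _ (hfin (2 * Y))).symm
    have h3 : ∑ i : Fin KK.card, ∏ j, ((LL hf (en i).1.2 j).card : ℝ) =
        ((∑ c ∈ KK, ∏ j, (LL hf c.2 j).card : ℕ) : ℝ) := by
      push_cast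
      rw [← Finset.sum_coe_sort KK (fun c => ∏ j, ((LL hf c.2 j).card : ℝ))]
      exact Equiv.sum_comp en (fun c : KK => ∏ j, ((LL hf c.1.2 j).card : ℝ))
    rw [h3]
    exact_mod_cast h2
  · intro A hAW hA
    have hc : key δ w A ∈ KK := by
      rw [hKK]; exact mem_image_of_mem _ ((hG A).2 ⟨hAW, hA⟩)
    obtain ⟨p, hp, hAp⟩ := cover hf hA
    obtain ⟨i, hi⟩ : ∃ i, en i = ⟨key δ w A, hc⟩ := ⟨en.symm ⟨key δ w A, hc⟩, by simp⟩
    refine ⟨i, ?_⟩
    have hi' : (en i).1 = key δ w A := by rw [hi]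
    change ∃ p ∈ Fintype.piFinset (LL hf (en i).1.2), A = (en i).1.1 ∪ univ.image p
    rw [hi']
    exact ⟨p, hp, hAp⟩

end Pool.Agent.Lib.MP_8cb858_nt.PU
end

section
/-!
# TDF: typical twists
-/
namespace Pool.Agent.Lib.MP_8cb858_nt.PU

open Polynomial NumberField IsDedekindDomain Filter Pool.Agent.Lib.MP_8cb858_nt.SEL
open Pool.Agent.Lib.MP_8cb858_nt.PF
open scoped Classical WithZero Topology

theorem specTDF (hTEX : SpecTEX) (hTCL : SpecTCL) (hWSU : SpecWSU) : SpecTDF := by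
  intro F _ _ S
  obtain ⟨C, hC, hb⟩ := hWSU.bd F
  refine ⟨2 * C, by linarith, fun ε r0 hε => ?_⟩
  obtain ⟨Y0, hY0⟩ := hTEX F S ε r0 hε
  refine ⟨max Y0 0, fun Y hY => ?_⟩
  have hY1 : Y0 ≤ Y := (le_max_left _ _).trans hY
  have hY2 : 0 ≤ Y := (le_max_right _ _).trans hY
  obtain ⟨δ, E, w, M, h1, h2, h3, h4, h5, h6, h7⟩ := hY0 Y hY1
  obtain ⟨n, r, A1, L, hCw, hsum, hcov⟩ := hTCL F S δ E w Y M r0 h1 h2 h3 h4 h5 h6
  refine ⟨n, r, A1, L, hCw, ?_, ?_⟩
  · refine hsum.trans ?_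
    have := (hb (2 * Y) (by linarith)).1 S
    linarith
  · refine le_trans ?_ h7
    refine Nat.cast_le.2 (Set.ncard_le_ncard ?_ ((hWSU.fin F S Y).subset (Set.sep_subset _ _)))
    rintro A ⟨hA, hAn⟩
    refine ⟨hA, fun hg => ?_⟩
    obtain ⟨i, p, hp, hAp⟩ := hcov A hA hg
    exact hAn i p hp hAp

end Pool.Agent.Lib.MP_8cb858_nt.PU
end

section
/-!
# TUR: the inequality of Turan
-/
namespace Pool.Agent.Lib.MP_8cb858_nt.PU

open Polynomial NumberField IsDedekindDomain Filter Pool.Agent.Lib.MP_8cb858_nt.SEL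
open Pool.Agent.Lib.MP_8cb858_nt.PF
open scoped Classical WithZero Topology

namespace TURM

/-- the abstract inequality: `N I` = number of the `v ∈ T` with `R v I` -/
theorem abstr {α β : Type} (Is : Finset α) (T : Finset β) (R : β → α → Prop) (m : β → ℝ)
    (κ e Y : ℝ) (hκ : 0 < κ) (he0 : 0 ≤ e) (he1 : e ≤ 1) (hY : 0 ≤ Y) (hm : ∀ v ∈ T, 0 ≤ m v)
    (hP : 0 < ∑ v ∈ T, m v)
    (h0 : (Is.card : ℝ) ≤ κ * (1 + e) * Y)
    (h1 : ∀ v ∈ T, κ * (1 - e) * (Y * m v) ≤ ((Is.filter (fun I => R v I)).card : ℝ))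
    (h1' : ∀ v ∈ T, ((Is.filter (fun I => R v I)).card : ℝ) ≤ κ * (1 + e) * (Y * m v))
    (h2 : ∀ v ∈ T, ∀ u ∈ T, v ≠ u →
      ((Is.filter (fun I => R v I ∧ R u I)).card : ℝ) ≤ κ * (1 + e) * (Y * (m v * m u))) :
    ((Is.filter (fun I => ((T.filter (fun v => R v I)).card : ℝ) < (∑ v ∈ T, m v) / 2)).card : ℝ) ≤
      Y * (16 * κ * e + 8 * κ / ∑ v ∈ T, m v) := by
  set P := ∑ v ∈ T, m v with hPdef
  have hcnt : ∀ I, ((T.filter (fun v => R v I)).card : ℝ) =
      ∑ v ∈ T, (if R v I then (1 : ℝ) else 0) := by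
    intro I
    rw [Finset.sum_boole]
  -- second moment
  have hsq : ∑ I ∈ Is, ((T.filter (fun v => R v I)).card : ℝ) ^ 2 ≤
      κ * (1 + e) * Y * (P ^ 2 + P) := by
    have a1 : ∀ I, ((T.filter (fun v => R v I)).card : ℝ) ^ 2 =
        ∑ v ∈ T, ∑ u ∈ T, (if R v I ∧ R u I then (1 : ℝ) else 0) := by
      intro I
      rw [hcnt, sq, Finset.sum_mul_sum]
      refine Finset.sum_congr rfl fun v _ => Finset.sum_congr rfl fun u _ => ?_
      by_cases h : R v I <;> by_cases h' : R u I <;> simp [h, h']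
    simp_rw [a1]
    rw [Finset.sum_comm]
    have a2 : ∀ v ∈ T, ∑ I ∈ Is, ∑ u ∈ T, (if R v I ∧ R u I then (1 : ℝ) else 0) ≤
        κ * (1 + e) * Y * (m v * P + m v) := by
      intro v hv
      rw [Finset.sum_comm]
      have a3 : ∀ u ∈ T, ∑ I ∈ Is, (if R v I ∧ R u I then (1 : ℝ) else 0) ≤
          κ * (1 + e) * Y * (m v * m u + if u = v then m v else 0) := by
        intro u hu
        have hk : 0 ≤ κ * (1 + e) * Y := by positivity
        by_cases huv : u = v
        · subst huv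
          simp only [and_self, if_true]
          rw [Finset.sum_boole]
          refine (h1' u hu).trans ?_
          have b1 : κ * (1 + e) * (Y * m u) = κ * (1 + e) * Y * m u := by ring
          rw [b1]
          refine mul_le_mul_of_nonneg_left ?_ hk
          have := mul_nonneg (hm u hu) (hm u hu)
          linarith
        · rw [if_neg huv, add_zero, Finset.sum_boole]
          refine (h2 v hv u hu (Ne.symm huv)).trans (le_of_eq ?_)
          ring
      calc ∑ u ∈ T, ∑ I ∈ Is, (if R v I ∧ R u I then (1 : ℝ) else 0)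
          ≤ ∑ u ∈ T, κ * (1 + e) * Y * (m v * m u + if u = v then m v else 0) :=
            Finset.sum_le_sum a3
        _ = κ * (1 + e) * Y * (m v * P + m v) := by
            rw [← Finset.mul_sum, Finset.sum_add_distrib, ← Finset.mul_sum,
              Finset.sum_ite_eq' T v, if_pos hv]
    calc ∑ v ∈ T, ∑ I ∈ Is, ∑ u ∈ T, (if R v I ∧ R u I then (1 : ℝ) else 0)
        ≤ ∑ v ∈ T, κ * (1 + e) * Y * (m v * P + m v) := Finset.sum_le_sum a2
      _ = κ * (1 + e) * Y * (P ^ 2 + P) := by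
          rw [← Finset.mul_sum, Finset.sum_add_distrib, ← Finset.sum_mul, ← hPdef]
          ring
  -- first moment
  have hlow : κ * (1 - e) * Y * P ≤ ∑ I ∈ Is, ((T.filter (fun v => R v I)).card : ℝ) := by
    simp_rw [hcnt]
    rw [Finset.sum_comm]
    calc κ * (1 - e) * Y * P = ∑ v ∈ T, κ * (1 - e) * (Y * m v) := by
          rw [hPdef, Finset.mul_sum]
          refine Finset.sum_congr rfl fun v _ => ?_
          ring
      _ ≤ ∑ v ∈ T, ∑ I ∈ Is, (if R v I then (1 : ℝ) else 0) := by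
          refine Finset.sum_le_sum fun v hv => ?_
          rw [Finset.sum_boole]
          exact h1 v hv
  have hvar : ∑ I ∈ Is, (((T.filter (fun v => R v I)).card : ℝ) - P) ^ 2 ≤
      κ * Y * (4 * e * P ^ 2 + 2 * P) := by
    have b1 : ∑ I ∈ Is, (((T.filter (fun v => R v I)).card : ℝ) - P) ^ 2 =
        ∑ I ∈ Is, ((T.filter (fun v => R v I)).card : ℝ) ^ 2 -
          2 * P * ∑ I ∈ Is, ((T.filter (fun v => R v I)).card : ℝ) + Is.card * P ^ 2 := by
      have : ∀ I, (((T.filter (fun v => R v I)).card : ℝ) - P) ^ 2 =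
          ((T.filter (fun v => R v I)).card : ℝ) ^ 2 -
            2 * P * ((T.filter (fun v => R v I)).card : ℝ) + P ^ 2 := fun I => by ring
      simp_rw [this]
      rw [Finset.sum_add_distrib, Finset.sum_sub_distrib, ← Finset.mul_sum, Finset.sum_const,
        nsmul_eq_mul]
    rw [b1]
    have b2 := mul_le_mul_of_nonneg_left hlow (by positivity : 0 ≤ 2 * P)
    have b3 := mul_le_mul_of_nonneg_right h0 (sq_nonneg P)
    have b4 : κ * Y * (e * P) ≤ κ * Y * (1 * P) := by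
      refine mul_le_mul_of_nonneg_left ?_ (by positivity)
      exact mul_le_mul_of_nonneg_right he1 hP.le
    have b5 : κ * (1 + e) * Y * (P ^ 2 + P) - 2 * P * (κ * (1 - e) * Y * P) +
        κ * (1 + e) * Y * P ^ 2 = κ * Y * (4 * e * P ^ 2 + P) + κ * Y * (e * P) := by ring
    have b6 : κ * Y * (4 * e * P ^ 2 + 2 * P) =
        κ * Y * (4 * e * P ^ 2 + P) + κ * Y * (1 * P) := by ring
    rw [b6]
    linarith
  have hfin : (P / 2) ^ 2 *
      ((Is.filter (fun I => ((T.filter (fun v => R v I)).card : ℝ) < P / 2)).card : ℝ) ≤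
      κ * Y * (4 * e * P ^ 2 + 2 * P) := by
    calc (P / 2) ^ 2 *
        ((Is.filter (fun I => ((T.filter (fun v => R v I)).card : ℝ) < P / 2)).card : ℝ)
        = ∑ I ∈ Is.filter (fun I => ((T.filter (fun v => R v I)).card : ℝ) < P / 2),
            (P / 2) ^ 2 := by
          rw [Finset.sum_const, nsmul_eq_mul, mul_comm]
      _ ≤ ∑ I ∈ Is.filter (fun I => ((T.filter (fun v => R v I)).card : ℝ) < P / 2),
            (((T.filter (fun v => R v I)).card : ℝ) - P) ^ 2 := by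
          refine Finset.sum_le_sum fun I hI => ?_
          have := (Finset.mem_filter.1 hI).2
          nlinarith
      _ ≤ ∑ I ∈ Is, (((T.filter (fun v => R v I)).card : ℝ) - P) ^ 2 :=
          Finset.sum_le_sum_of_subset_of_nonneg (Finset.filter_subset _ _)
            fun I _ _ => sq_nonneg _
      _ ≤ _ := hvar
  have hP2 : 0 < (P / 2) ^ 2 := by positivity
  rw [mul_comm, ← le_div_iff₀ hP2] at hfin
  refine hfin.trans (le_of_eq ?_)
  field_simp
  ring

end TURM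

open TURM in
theorem specTUR (hIDA : SpecIDA) : SpecTUR := by
  intro F _ _
  obtain ⟨κ, hκ, hasy⟩ := hIDA.asy F
  refine ⟨8 * κ, by positivity, fun η hη => ?_⟩
  obtain ⟨e, he⟩ : ∃ e : ℝ, e = min 1 (η / (16 * κ)) := ⟨_, rfl⟩
  have he0 : 0 < e := by
    rw [he]
    exact lt_min one_pos (by positivity)
  have he1 : e ≤ 1 := by
    rw [he]
    exact min_le_left _ _
  have heη : 16 * κ * e ≤ η := by
    have h : e ≤ η / (16 * κ) := by
      rw [he]
      exact min_le_right _ _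
    rw [le_div_iff₀ (by positivity)] at h
    linarith
  have hev := Metric.tendsto_nhds.1 hasy (e * κ) (by positivity)
  obtain ⟨x1, hx1⟩ := Filter.eventually_atTop.1 hev
  obtain ⟨x0, hx0⟩ : ∃ x0 : ℝ, x0 = max x1 1 := ⟨_, rfl⟩
  have hx01 : 1 ≤ x0 := by
    rw [hx0]
    exact le_max_right _ _
  have hIC : ∀ x : ℝ, x0 ≤ x → κ * (1 - e) * x ≤ IC F x ∧ IC F x ≤ κ * (1 + e) * x := by
    intro x hx
    have hxpos : 0 < x := by linarith
    have h1 := hx1 x ((le_max_left x1 1).trans (by rw [← hx0]; exact hx))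
    rw [Real.dist_eq, abs_lt] at h1
    have h2 : κ * (1 - e) ≤ IC F x / x := by linarith [h1.1]
    have h3 : IC F x / x ≤ κ * (1 + e) := by linarith [h1.2]
    rw [le_div_iff₀ hxpos] at h2
    rw [div_le_iff₀ hxpos] at h3
    exact ⟨h2, h3⟩
  refine ⟨x0 ^ 3, fun Y hY T hT hP => ?_⟩
  have hY1 : 1 ≤ Y := (one_le_pow₀ hx01).trans hY
  have hY0 : 0 < Y := by linarith
  have hx0Y : x0 ≤ Y := by
    refine le_trans ?_ hY
    calc x0 = x0 ^ 1 := (pow_one x0).symm
      _ ≤ x0 ^ 3 := pow_le_pow_right₀ hx01 (by norm_num)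
  have hnv : ∀ v : Pl F, 1 ≤ nv v := by
    intro v
    have h := (hIDA.sqf F {v}).2.2.1
    unfold NA at h
    rwa [Finset.prod_singleton] at h
  have hnv' : ∀ v : Pl F, (1 : ℝ) ≤ nv v := fun v => by exact_mod_cast hnv v
  have hcube : ∀ z : ℝ, 0 ≤ z → x0 ^ 3 ≤ z ^ 3 → x0 ≤ z := by
    intro z hz h
    exact le_of_pow_le_pow_left₀ (by norm_num) hz h
  have hd1 : ∀ v ∈ T, x0 ≤ Y / nv v := by
    intro v hv
    have hp : (0 : ℝ) < nv v := by linarith [hnv' v]
    refine hcube _ (by positivity) ?_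
    rw [div_pow, le_div_iff₀ (by positivity)]
    calc x0 ^ 3 * (nv v : ℝ) ^ 3 ≤ Y * Y :=
          mul_le_mul hY (hT v hv) (by positivity) hY0.le
      _ ≤ Y * Y * Y := by
          have : 0 ≤ Y * Y := by positivity
          nlinarith
      _ = Y ^ 3 := by ring
  have hd2 : ∀ v ∈ T, ∀ u ∈ T, x0 ≤ Y / (nv v * nv u) := by
    intro v hv u hu
    have hp : (0 : ℝ) < nv v := by linarith [hnv' v]
    have hq : (0 : ℝ) < nv u := by linarith [hnv' u]
    refine hcube _ (by positivity) ?_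
    rw [div_pow, le_div_iff₀ (by positivity), mul_pow]
    calc x0 ^ 3 * ((nv v : ℝ) ^ 3 * (nv u : ℝ) ^ 3) ≤ Y * (Y * Y) :=
          mul_le_mul hY (mul_le_mul (hT v hv) (hT u hu) (by positivity) hY0.le)
            (by positivity) hY0.le
      _ = Y ^ 3 := by ring
  -- the ideals
  obtain ⟨Is, hIs⟩ : ∃ Is : Finset (Ideal (𝓞 F)), ∀ I, I ∈ Is ↔
      I ≠ ⊥ ∧ (Ideal.absNorm I : ℝ) ≤ Y :=
    ⟨(hIDA.fin F Y).toFinset, fun I => by rw [Set.Finite.mem_toFinset]; rfl⟩
  have c0 : (Is.card : ℝ) = IC F Y := by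
    unfold IC
    have : {I : Ideal (𝓞 F) | I ≠ ⊥ ∧ (Ideal.absNorm I : ℝ) ≤ Y} = (Is : Set (Ideal (𝓞 F))) := by
      ext I
      rw [Finset.mem_coe, hIs]
      rfl
    rw [this, Set.ncard_coe_finset]
  have cB : ∀ B : Finset (Pl F),
      ((Is.filter (fun I => ∀ v ∈ B, v.asIdeal ∣ I)).card : ℝ) = IC F (Y / NA B) := by
    intro B
    rw [← hIDA.dvd F B Y]
    have : {I : Ideal (𝓞 F) | I ≠ ⊥ ∧ (Ideal.absNorm I : ℝ) ≤ Y ∧ ∀ v ∈ B, v.asIdeal ∣ I} =
        ((Is.filter (fun I => ∀ v ∈ B, v.asIdeal ∣ I) : Finset (Ideal (𝓞 F))) :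
          Set (Ideal (𝓞 F))) := by
      ext I
      rw [Finset.mem_coe, Finset.mem_filter, hIs]
      constructor
      · rintro ⟨h1, h2, h3⟩
        exact ⟨⟨h1, h2⟩, h3⟩
      · rintro ⟨⟨h1, h2⟩, h3⟩
        exact ⟨h1, h2, h3⟩
    rw [this, Set.ncard_coe_finset]
  have c1 : ∀ v : Pl F, ((Is.filter (fun I => v.asIdeal ∣ I)).card : ℝ) = IC F (Y / nv v) := by
    intro v
    have h := cB {v}
    have h2 : NA ({v} : Finset (Pl F)) = nv v := by
      unfold NA
      rw [Finset.prod_singleton]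
    rw [h2] at h
    rw [← h]
    congr 2
    refine Finset.filter_congr fun I _ => ?_
    simp
  have c2 : ∀ v u : Pl F, v ≠ u →
      ((Is.filter (fun I => v.asIdeal ∣ I ∧ u.asIdeal ∣ I)).card : ℝ) =
        IC F (Y / (nv v * nv u)) := by
    intro v u hvu
    have h := cB {v, u}
    have h2 : NA ({v, u} : Finset (Pl F)) = nv v * nv u := by
      unfold NA
      rw [Finset.prod_pair hvu]
    rw [h2] at h
    push_cast at h
    rw [← h]
    congr 2
    refine Finset.filter_congr fun I _ => ?_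
    simp
  have key := abstr Is T (fun v I => v.asIdeal ∣ I) (fun v => 1 / (nv v : ℝ)) κ e Y hκ he0.le he1
    hY0.le (fun v _ => by positivity) hP (by rw [c0]; exact (hIC Y hx0Y).2)
    (fun v hv => by
      have h := (hIC _ (hd1 v hv)).1
      rw [c1 v, mul_one_div]
      exact h)
    (fun v hv => by
      have h := (hIC _ (hd1 v hv)).2
      rw [c1 v, mul_one_div]
      exact h)
    (fun v hv u hu hvu => by
      have h := (hIC _ (hd2 v hv u hu)).2
      rw [c2 v u hvu, one_div_mul_one_div, mul_one_div]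
      exact h)
  -- from sets to ideals
  have hinj : {A ∈ WS (∅ : Finset (Pl F)) Y |
      ((T.filter (fun v => v ∈ A)).card : ℝ) < (∑ v ∈ T, 1 / (nv v : ℝ)) / 2}.ncard ≤
      (Is.filter (fun I => ((T.filter (fun v => v.asIdeal ∣ I)).card : ℝ) <
        (∑ v ∈ T, 1 / (nv v : ℝ)) / 2)).card := by
    rw [← Set.ncard_coe_finset]
    refine Set.ncard_le_ncard_of_injOn (fun A : Finset (Pl F) => ∏ v ∈ A, v.asIdeal) ?_ ?_
      (Finset.finite_toSet _)
    · rintro A ⟨hA, hc⟩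
      obtain ⟨s1, s2, -, s4⟩ := hIDA.sqf F A
      rw [Finset.mem_coe, Finset.mem_filter, hIs]
      refine ⟨⟨s1, ?_⟩, ?_⟩
      · rw [s2]
        exact hA.2
      · have : T.filter (fun v => v.asIdeal ∣ ∏ v ∈ A, v.asIdeal) =
            T.filter (fun v => v ∈ A) := Finset.filter_congr fun v _ => s4 v
        rw [this]
        exact hc
    · intro A _ B _ hAB
      ext v
      have h1 := (hIDA.sqf F A).2.2.2 v
      have h2 := (hIDA.sqf F B).2.2.2 v
      have h3 : ∏ v ∈ A, v.asIdeal = ∏ v ∈ B, v.asIdeal := hAB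
      rw [← h1, ← h2, h3]
  have hinj' : ({A ∈ WS (∅ : Finset (Pl F)) Y |
      ((T.filter (fun v => v ∈ A)).card : ℝ) < (∑ v ∈ T, 1 / (nv v : ℝ)) / 2}.ncard : ℝ) ≤
      ((Is.filter (fun I => ((T.filter (fun v => v.asIdeal ∣ I)).card : ℝ) <
        (∑ v ∈ T, 1 / (nv v : ℝ)) / 2)).card : ℝ) := by
    exact_mod_cast hinj
  refine hinj'.trans (key.trans ?_)
  refine mul_le_mul_of_nonneg_left ?_ hY0.le
  linarith

end Pool.Agent.Lib.MP_8cb858_nt.PU
end

section
/-!
# WIN: windows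
-/
namespace Pool.Agent.Lib.MP_8cb858_nt.PU

open Polynomial NumberField IsDedekindDomain Filter Pool.Agent.Lib.MP_8cb858_nt.SEL
open Pool.Agent.Lib.MP_8cb858_nt.PF
open scoped Classical WithZero Topology

namespace WINM

theorem wn_le {δ : ℝ} (hδ : 0 < δ) {p q : ℕ} (hp : 0 < p) (hq : 0 < q)
    (h : wn δ p = wn δ q) : (q : ℝ) ≤ (1 + δ) * p := by
  have hl : 0 < Real.log (1 + δ) := Real.log_pos (by linarith)
  have hp' : (0 : ℝ) < p := by exact_mod_cast hp
  have hq' : (0 : ℝ) < q := by exact_mod_cast hq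
  have h1 : Real.log q / Real.log (1 + δ) < (wn δ q : ℝ) + 1 := by
    unfold wn
    exact Nat.lt_floor_add_one _
  have h2 : (wn δ p : ℝ) ≤ Real.log p / Real.log (1 + δ) := by
    unfold wn
    refine Nat.floor_le (div_nonneg (Real.log_nonneg ?_) hl.le)
    exact_mod_cast hp
  rw [← h] at h1
  rw [div_lt_iff₀ hl] at h1
  rw [le_div_iff₀ hl] at h2
  have h3 : Real.log q ≤ Real.log ((1 + δ) * p) := by
    rw [Real.log_mul (by linarith) hp'.ne']
    linarith
  exact (Real.log_le_log_iff hq' (by positivity)).1 h3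

theorem wn_up {δ : ℝ} (hδ : 0 < δ) {m : ℕ} (hm : 0 < m) : (m : ℝ) ≤ (1 + δ) ^ (wn δ m + 1) := by
  have hl : 0 < Real.log (1 + δ) := Real.log_pos (by linarith)
  have hm' : (0 : ℝ) < m := by exact_mod_cast hm
  have h1 : Real.log m / Real.log (1 + δ) < (wn δ m : ℝ) + 1 := by
    unfold wn
    exact Nat.lt_floor_add_one _
  rw [div_lt_iff₀ hl] at h1
  have h2 : Real.log m ≤ Real.log ((1 + δ) ^ (wn δ m + 1)) := by
    rw [Real.log_pow]
    push_cast
    exact h1.le
  exact (Real.log_le_log_iff hm' (by positivity)).1 h2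

theorem nv_pos {F : Type} [Field F] [NumberField F] {w : ℝ} (hw : 0 < w) {v : Pl F}
    (hv : w < (nv v : ℝ)) : 0 < nv v := by
  have : (0 : ℝ) < nv v := hw.trans hv
  exact_mod_cast this

theorem fin (hD : PF.SpecDNV) (F : Type) [Field F] [NumberField F] (δ w : ℝ) (j : ℕ)
    (hδ : 0 < δ) : (WJ F δ w j).Finite := by
  refine ((hD F).2.2.1 ((1 + δ) ^ (j + 1))).subset ?_
  rintro v ⟨_, hj⟩
  show (nv v : ℝ) ≤ (1 + δ) ^ (j + 1)
  rcases Nat.eq_zero_or_pos (nv v) with h0 | h0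
  · rw [h0]
    have : (0 : ℝ) ≤ (1 + δ) ^ (j + 1) := by positivity
    simpa using this
  · rw [← hj]
    exact wn_up hδ h0

end WINM

open WINM in
theorem specWIN (hD : PF.SpecDNV) : SpecWIN := by
  refine ⟨fun δ p q hδ hp hq h => wn_le hδ hp hq h, fun F _ _ δ w j hδ => fin hD F δ w j hδ,
    ?_, ?_⟩
  · intro F _ _ δ w j T hδ hw hT
    have hn : (0 : ℝ) ≤ (Module.finrank ℚ F : ℝ) := Nat.cast_nonneg _
    rcases T.eq_empty_or_nonempty with rfl | hne
    · rw [Finset.sum_empty]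
      positivity
    obtain ⟨v0, hv0, hmin⟩ := Finset.exists_min_image T nv hne
    have hw0 := (hT v0 hv0).1
    have hm0 : 0 < nv v0 := nv_pos hw hw0
    have hm0' : (0 : ℝ) < nv v0 := by exact_mod_cast hm0
    have himg : T.image nv ⊆ Finset.Icc (nv v0) ⌊(1 + δ) * (nv v0 : ℝ)⌋₊ := by
      intro m hm
      rw [Finset.mem_image] at hm
      obtain ⟨v, hv, rfl⟩ := hm
      rw [Finset.mem_Icc]
      refine ⟨hmin v hv, Nat.le_floor ?_⟩
      exact wn_le hδ hm0 (nv_pos hw (hT v hv).1) ((hT v0 hv0).2.trans (hT v hv).2.symm)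
    have hc1 : T.card ≤ Module.finrank ℚ F * (T.image nv).card := by
      refine Finset.card_le_mul_card_image T _ fun m _ => ?_
      refine (hD F).1 m _ fun v hv => ?_
      exact (Finset.mem_filter.1 hv).2
    have hc2 := Finset.card_le_card himg
    rw [Nat.card_Icc] at hc2
    have hK : (⌊(1 + δ) * (nv v0 : ℝ)⌋₊ : ℝ) ≤ (1 + δ) * nv v0 := Nat.floor_le (by positivity)
    have hKge : nv v0 ≤ ⌊(1 + δ) * (nv v0 : ℝ)⌋₊ := by
      refine Nat.le_floor ?_
      nlinarith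
    have hc3 : ((T.image nv).card : ℝ) ≤ δ * nv v0 + 1 := by
      have h1 : (T.image nv).card + nv v0 ≤ ⌊(1 + δ) * (nv v0 : ℝ)⌋₊ + 1 := by omega
      have h2 : ((T.image nv).card : ℝ) + nv v0 ≤ (⌊(1 + δ) * (nv v0 : ℝ)⌋₊ : ℝ) + 1 := by
        exact_mod_cast h1
      linarith
    have hc4 : (T.card : ℝ) ≤ (Module.finrank ℚ F : ℝ) * (δ * nv v0 + 1) := by
      have h1 : (T.card : ℝ) ≤ (Module.finrank ℚ F : ℝ) * ((T.image nv).card : ℝ) := by
        exact_mod_cast hc1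
      exact h1.trans (mul_le_mul_of_nonneg_left hc3 hn)
    calc ∑ v ∈ T, 1 / (nv v : ℝ) ≤ ∑ v ∈ T, 1 / (nv v0 : ℝ) := by
          refine Finset.sum_le_sum fun v hv => one_div_le_one_div_of_le hm0' ?_
          exact_mod_cast hmin v hv
      _ = (T.card : ℝ) * (1 / (nv v0 : ℝ)) := by rw [Finset.sum_const, nsmul_eq_mul]
      _ ≤ (Module.finrank ℚ F : ℝ) * (δ * nv v0 + 1) * (1 / (nv v0 : ℝ)) :=
          mul_le_mul_of_nonneg_right hc4 (by positivity)
      _ = (Module.finrank ℚ F : ℝ) * (δ + 1 / (nv v0 : ℝ)) := by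
          field_simp
      _ ≤ (Module.finrank ℚ F : ℝ) * (δ + 1 / w) := by
          refine mul_le_mul_of_nonneg_left ?_ hn
          have := one_div_le_one_div_of_le hw hw0.le
          linarith
  · intro F _ _ δ w E Y T hδ hw hE hY hT
    have hl : 0 < Real.log (1 + δ) := Real.log_pos (by linarith)
    have hlY : 0 ≤ Real.log Y := Real.log_nonneg hY
    have h3 : ∀ v ∈ T, wn δ (nv v) ∈ Finset.range (⌊Real.log Y / Real.log (1 + δ)⌋₊ + 1) := by
      intro v hv
      obtain ⟨h1, h2, -⟩ := hT v hv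
      rw [Finset.mem_range]
      refine Nat.lt_succ_of_le ?_
      unfold wn
      refine Nat.floor_mono (div_le_div_of_nonneg_right ?_ hl.le)
      exact Real.log_le_log (hw.trans h1) h2
    have hc : (T.card : ℝ) ≤ (Real.log Y / Real.log (1 + δ) + 1) * E := by
      rw [Finset.card_eq_sum_card_fiberwise h3]
      push_cast
      calc ∑ j ∈ Finset.range (⌊Real.log Y / Real.log (1 + δ)⌋₊ + 1),
            ((T.filter (fun v => wn δ (nv v) = j)).card : ℝ)
          ≤ ∑ j ∈ Finset.range (⌊Real.log Y / Real.log (1 + δ)⌋₊ + 1), E := by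
            refine Finset.sum_le_sum fun j _ => ?_
            rcases (T.filter (fun v => wn δ (nv v) = j)).eq_empty_or_nonempty with he | ⟨v, hv⟩
            · rw [he]
              simpa using hE
            · rw [Finset.mem_filter] at hv
              have h4 := (hT v hv.1).2.2
              rw [hv.2] at h4
              have h5 : ((T.filter (fun v => wn δ (nv v) = j) : Finset (Pl F)) : Set (Pl F)) ⊆
                  WJ F δ w j := by
                intro u hu
                rw [Finset.mem_coe, Finset.mem_filter] at hu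
                exact ⟨(hT u hu.1).1, hu.2⟩
              have h6 := Set.ncard_le_ncard h5 (fin hD F δ w j hδ)
              rw [Set.ncard_coe_finset] at h6
              have h7 : ((T.filter (fun v => wn δ (nv v) = j)).card : ℝ) ≤
                  ((WJ F δ w j).ncard : ℝ) := by exact_mod_cast h6
              linarith
        _ = ((⌊Real.log Y / Real.log (1 + δ)⌋₊ : ℝ) + 1) * E := by
            rw [Finset.sum_const, nsmul_eq_mul, Finset.card_range]
            push_cast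
            ring
        _ ≤ (Real.log Y / Real.log (1 + δ) + 1) * E := by
            refine mul_le_mul_of_nonneg_right ?_ hE
            have := Nat.floor_le (div_nonneg hlY hl.le)
            linarith
    calc ∑ v ∈ T, 1 / (nv v : ℝ) ≤ ∑ v ∈ T, 1 / w :=
          Finset.sum_le_sum fun v hv => one_div_le_one_div_of_le hw (hT v hv).1.le
      _ = (T.card : ℝ) * (1 / w) := by rw [Finset.sum_const, nsmul_eq_mul]
      _ ≤ (Real.log Y / Real.log (1 + δ) + 1) * E * (1 / w) :=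
          mul_le_mul_of_nonneg_right hc (by positivity)
      _ = (Real.log Y / Real.log (1 + δ) + 1) * E / w := by rw [mul_one_div]

end Pool.Agent.Lib.MP_8cb858_nt.PU
end
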