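import Pool.Agent.Lib.MP_8cb858_nt.PU.SpecE
import Pool.Agent.Lib.MP_8cb858_nt.PT.SpecF

/-!
# Specs, blocks FM and DN: first moment uniform in the twist (`SpecFMZ`), counting pairs of integers of `F`

Block FM: ports of the modules of `PF/` and `PT/` of the same name; the twist `D : ℕ` becomes `D : 𝓞 F`, `D ≠ 0`, and the box
`fun v => D * ρ v` becomes `fun v => v (D : F) * ρ v` (of volume `|N D| vol ρ`). `PT.PatW Q ∅ W Z`, `PT.dnW Q ∅ W Z`, `PT.nmW Q ∅ W`,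
`PT.SpecMP1`, `PT.SpecMP2`, `PT.SpecMQR` and the Specs of `PF/` without `D` are used unchanged. The Specs of `SEL/`, `PF/`, `PT/` are proved
(`SEL/All.lean`, `PF/All*.lean`, `PT/All.lean`) and may be used as hypotheses.
Module XXX = file `PU/XXX.lean` (import `...PU.SpecF`), `theorem specXXX (hYYY : SpecYYY) .. : SpecXXX`, own lemmas in the namespace
`Pool.Agent.Lib.MP_8cb858_nt.PU.XXXM`.
-/

namespace Pool.Agent.Lib.MP_8cb858_nt.PU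

open Polynomial NumberField IsDedekindDomain Pool.Agent.Lib.MP_8cb858_nt.SEL Matrix
open Pool.Agent.Lib.MP_8cb858_nt.PF
open scoped Classical WithZero

/-! ## F1. First moment -/

section glob

variable {F : Type} [Field F] [NumberField F]

/-- The nontrivial classes with a pattern in `Z` on the places of `Q`. -/
def FS (Q : Finset (Pl F)) (D : 𝓞 F) (Z : Finset (Finset (Pl F))) (ρ : InfinitePlace F → ℝ) :
    Set (Σ q : 𝓞 F × 𝓞 F, Sel 2 (cO q.1 q.2 D)) :=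
  {z : (Σ q : 𝓞 F × 𝓞 F, Sel 2 (cO q.1 q.2 D)) | z.1 ∈ Bx F ρ ∧
    (∀ v ∈ Q, Y12 v z.1) ∧ z.2 ≠ 0 ∧ Q.filter (fun v => ¬ TrO D v z.2) ∈ Z}

/-- The pair `X` is attached to the class `z`. -/
def AtZ (D : 𝓞 F) (z : Σ q : 𝓞 F × 𝓞 F, Sel 2 (cO q.1 q.2 D)) (X : MO F × MO F) : Prop :=
  ∃ c : Cocycles 2 (cO z.1.1 z.1.2 D), QuotientAddGroup.mk c = z.2 ∧
    Att ((z.1.1 : F) * (D : F) ^ 2) ((z.1.2 : F) * (D : F) ^ 3) c.1 (inc X.1) (inc X.2)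

/-- The absolute value of the norm of `D`. -/
noncomputable def nm (D : 𝓞 F) : ℝ := (Ideal.absNorm (Ideal.span {D}) : ℝ)

end glob

/-- **FL2** (port of `PF/FL2.lean`). The localisation at `v` in terms of the pair modulo `v`. -/
def SpecFL2 : Prop :=
  ∀ (F : Type) [Field F] [NumberField F] (v : Pl F) (a b D : 𝓞 F)
    (c : Cocycles 2 (cO a b D)) (X : MO F × MO F), (6 : 𝓞 F) ∉ v.asIdeal → D ∉ v.asIdeal →
    (∀ x : 𝓞 F, x ^ 2 + dsc a b ∉ v.asIdeal) → X.1.det ∉ v.asIdeal →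
    Att ((a : F) * (D : F) ^ 2) ((b : F) * (D : F) ^ 3) c.1 (inc X.1) (inc X.2) →
    Gd (Ideal.Quotient.mk v.asIdeal (a * D ^ 2)) (Ideal.Quotient.mk v.asIdeal (b * D ^ 3))
      (md v.asIdeal X.1) (md v.asIdeal X.2) ∧
    (TrO D v (QuotientAddGroup.mk c : Sel 2 (cO a b D)) ↔
      Sm (Ideal.Quotient.mk v.asIdeal (a * D ^ 2)) (md v.asIdeal X.1) (md v.asIdeal X.2))

/-- **FPT** (port of `PF/FPT.lean`, with `P = ∅`, `Q' = Q`; from FL2). The pattern of an attached pair. -/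
def SpecFPT : Prop :=
  ∀ (F : Type) [Field F] [NumberField F] (Q : Finset (Pl F)) (D : 𝓞 F)
    (Z : Finset (Finset (Pl F))) (ρ : InfinitePlace F → ℝ), D ≠ 0 →
    (∀ v ∈ Q, (6 : 𝓞 F) ∉ v.asIdeal ∧ D ∉ v.asIdeal) →
    ∀ z ∈ FS Q D Z ρ, ∀ X : MO F × MO F, AtZ D z X → (∀ v ∈ Q, X.1.det ∉ v.asIdeal) →
      Pat Q Q ∅ Z X.1 X.2

/-- **FZ1** (port of `PF/FZ1.lean`; from `SEL.SpecINJ`). A pair is attached to at most one class. -/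
def SpecFZ1 : Prop :=
  ∀ (F : Type) [Field F] [NumberField F] (D : 𝓞 F) (z z' : Σ q : 𝓞 F × 𝓞 F, Sel 2 (cO q.1 q.2 D))
    (X : MO F × MO F), D ≠ 0 → AtZ D z X → AtZ D z' X → z = z'

/-- **MZ2** (port of `PT/MZ2.lean`, and MPT: `PT/MPT.lean`; from FPT, `SEL.SpecCLS`, `PF.SpecFAD`, `PF.SpecFATT`). Reduced pairs, their patterns
and the conditions at the places of `W`. The condition `1 ≤ v D * ρ v` is the one of `SEL.SpecCLS` for the box of `(a D^2, b D^3)`. -/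
def SpecMZ2 : Prop :=
  ∀ (F : Type) [Field F] [NumberField F], ∃ (C : ℝ) (P0 : ℕ), 1 ≤ C ∧
    ∀ (Q W : Finset (Pl F)) (D : 𝓞 F) (Z : Finset (Finset (Pl F))) (ρ : InfinitePlace F → ℝ),
    D ≠ 0 → (∀ v ∈ Q, P0 < nv v ∧ D ∉ v.asIdeal) → (∀ v ∈ W, P0 < nv v ∧ D ∈ v.asIdeal) →
    (∀ v, 1 ≤ v (D : F) * ρ v) → ∀ z ∈ FS Q D Z ρ,
    (∃ X ∈ R1 F C (fun v => v (D : F) * ρ v), AtZ D z X ∧ PT.PatW Q ∅ W Z X.1 X.2) ∨
    (∃ (k : ℕ) (Φ : 𝓞 F → MO F × MO F),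
      Set.InjOn Φ {q : 𝓞 F | ∀ v : InfinitePlace F, v (q : F) ≤ 2 ^ k} ∧
      ∀ q : 𝓞 F, (∀ v : InfinitePlace F, v (q : F) ≤ 2 ^ k) →
        Φ q ∈ R2 F C (fun v => v (D : F) * ρ v) k ∧ AtZ D z (Φ q) ∧ PT.PatW Q ∅ W Z (Φ q).1 (Φ q).2)

/-- **MMA** (port of `PT/MMA.lean`; from FZ1, MZ2, `PT.SpecMP1`, `PT.SpecMP2`, `SEL.SpecCNL`, `SEL.SpecBX2`). The volume of the box
`fun v => v D * ρ v` is `nm D * vol ρ` (`∏_v (v D)^mult = |N D|`, `InfinitePlace.prod_eq_abs_norm`); all `v D * ρ v` are large if all `ρ v`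
are (`D` is fixed). -/
def SpecMMA : Prop :=
  ∀ (F : Type) [Field F] [NumberField F], ∃ (C : ℝ) (P0 : ℕ), 0 < C ∧
    ∀ (Q W : Finset (Pl F)) (D : 𝓞 F) (Z : Finset (Finset (Pl F))), D ≠ 0 →
    (∀ v ∈ Q, P0 < nv v ∧ D ∉ v.asIdeal) → (∀ v ∈ W, P0 < nv v ∧ D ∈ v.asIdeal) →
    (∀ z ∈ Z, z ⊆ Q) →
    ∃ R0 : ℝ, ∀ ρ : InfinitePlace F → ℝ, (∀ v, R0 ≤ ρ v) →
      (FS Q D Z ρ).Finite ∧
      ((FS Q D Z ρ).ncard : ℝ) ≤ C * nm D ^ 5 * PT.dnW Q ∅ W Z * vol ρ ^ 5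

/-- **FMZ** (150 lines; from MMA, `SEL.SpecLOW`). First moment with patterns, uniform in the twist `D = c ∏_(v ∈ A) pi v`.
Proof. `C1, P0` from MMA, `B` = the maximum of `nm c`, `c ∈ UU`, `K1 = 4 C_G^5 (P0+1)^5 ≥ 1`. `W = {v ∈ A : P0 < nv v}`. For `v ∈ A`: `pi v ∈ v`
(`Gs.ex`), so `D ∈ v`. For `v ∈ Q`: `vv v c = 1` (`Gs.uun`, products), `vv v (pi w) = 1` for `w ∈ A` (`Gs.un`), so `D ∉ v` (`PF.SpecNF` `int`).
`nm D = nm c ∏_A nm (pi v) ≤ B ∏_A (C_G nv v)`, so `nm D^5 ∏_W 4/nv^5 ≤ B^5 (4 C_G^5)^#A ∏_(A \ W) nv^5 ≤ B^5 K1^#A`. `dnW Q ∅ W Z =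
(#Z/2^#Q) ∏_Q (1+1/nv)^2/2 ∏_W 4/nv^5`. Finally `vol ρ^5 ≤ #Bx/c` (LOW). -/
def SpecFMZ : Prop :=
  ∀ (F : Type) [Field F] [NumberField F] (G : Gs F), ∃ (C K1 : ℝ) (P0 : ℕ), 1 ≤ C ∧ 1 ≤ K1 ∧
    ∀ (c : 𝓞 F) (A Q : Finset (Pl F)) (Z : Finset (Finset (Pl F))), c ∈ G.UU →
    (∀ v ∈ A, v ∉ G.S) → (∀ v ∈ Q, v ∉ G.S ∧ v ∉ A ∧ P0 < nv v) → (∀ z ∈ Z, z ⊆ Q) →
    ∃ R0 : ℝ, ∀ ρ : InfinitePlace F → ℝ, (∀ v, R0 ≤ ρ v) →
      (FS Q (G.tw c A) Z ρ).Finite ∧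
      ((FS Q (G.tw c A) Z ρ).ncard : ℝ) ≤ C * K1 ^ A.card * ((Z.card : ℝ) / 2 ^ Q.card) *
        (∏ v ∈ Q, (1 + 1 / (nv v : ℝ)) ^ 2 / 2) * ((Bx F ρ).ncard : ℝ)

/-! ## F2. Counting pairs of integers -/

section cnt

variable {F : Type} [Field F] [NumberField F]

/-- The integers of size at most `s`. -/
def Bo (s : InfinitePlace F → ℝ) : Set (𝓞 F) := {x | ∀ v : InfinitePlace F, v (x : F) ≤ s v}

/-- Pairs of classes modulo `v`. -/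
abbrev Kv (v : Pl F) : Type := (𝓞 F ⧸ v.asIdeal) × (𝓞 F ⧸ v.asIdeal)

/-- The class of the pair `q` modulo the ideal `I`. -/
def rd (I : Ideal (𝓞 F)) (q : 𝓞 F × 𝓞 F) : (𝓞 F ⧸ I) × (𝓞 F ⧸ I) :=
  (Ideal.Quotient.mk I q.1, Ideal.Quotient.mk I q.2)

/-- The classes modulo `v` of type (1,2). -/
def C12 (v : Pl F) : Set (Kv v) := {q | ¬ IsSquare (-(4 * q.1 ^ 3 + 27 * q.2 ^ 2))}

/-- The classes modulo `v` of type (3). -/
def C3 (v : Pl F) : Set (Kv v) := {q | ∀ x : 𝓞 F ⧸ v.asIdeal, x ^ 3 + q.1 * x + q.2 ≠ 0}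

/-- The bad classes modulo `v`. -/
def C0 (v : Pl F) : Set (Kv v) := {q | 4 * q.1 ^ 3 + 27 * q.2 ^ 2 = 0}

end cnt

/-- **ESH** (150 lines; from `PF.SpecDNS`). All classes modulo `I` have asymptotically the same number of elements in a large box.
Proof. Let `N = N I ≥ 1`, `C` from DNS. Choose `δ ∈ (0, 1]` and `ε'` with `n (C δ + ε') ≤ ε` (`n = [F:ℚ]`, at least the number of places). For the
finitely many pairs of classes choose a representative `t` of `x1 - x0` (`t` depends only on the class; finitely many `t`) and `T` with `v t ≤ T`.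
For `s_v ≥ T/δ`: `x ↦ x + t` maps `{x ≡ x0, x ∈ Bo s}` injectively into `{x ≡ x1, v x ≤ (1+δ) s_v}`, which is the union of `{x ≡ x1} ∩ Bo s` and of
the shells `s_u < u x` (one for each infinite place `u`), with at most `(C δ + ε') vol s/N` elements each (DNS, `k = 1 + δ`). All sets are
finite. Exchange `x0`, `x1`. -/
def SpecESH : Prop :=
  ∀ (F : Type) [Field F] [NumberField F] (I : Ideal (𝓞 F)) (ε : ℝ), I ≠ ⊥ → 0 < ε →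
    ∃ S0 : ℝ, ∀ s : InfinitePlace F → ℝ, (∀ v, S0 ≤ s v) → ∀ x0 x1 : 𝓞 F,
      |({x ∈ Bo s | x - x0 ∈ I}.ncard : ℝ) - ({x ∈ Bo s | x - x1 ∈ I}.ncard : ℝ)| ≤
        ε * (vol s / Ideal.absNorm I)

/-- **EQO** (100 lines; from ESH, `SEL.SpecCNL`). Equidistribution of the integers in a box.
Proof. `#Bo s = ∑_(classes) #{x ≡ x1}` (`N I` classes), so `|N #{x ≡ x0} - #Bo s| ≤ ε' vol s`, and `vol s ≤ #Bo s/c` (CNL, `s_v ≥ 1`). -/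
def SpecEQO : Prop :=
  ∀ (F : Type) [Field F] [NumberField F] (I : Ideal (𝓞 F)) (ε : ℝ), I ≠ ⊥ → 0 < ε →
    ∃ S0 : ℝ, ∀ s : InfinitePlace F → ℝ, (∀ v, S0 ≤ s v) → (Bo s).Finite ∧ ∀ x0 : 𝓞 F,
      |({x ∈ Bo s | x - x0 ∈ I}.ncard : ℝ) - ((Bo s).ncard : ℝ) / Ideal.absNorm I| ≤
        ε * ((Bo s).ncard : ℝ)

/-- **EQZ** (200 lines; from EQO, `SEL.SpecLOW`, `SEL.SpecCNU`). Equidistribution of the pairs in residue classes.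
Proof. `Bx F ρ` is `Bo (ρ^2) × Bo (ρ^3)` without the pairs with `dsc = 0`. Number of the latter: for every `b` at most 3 values of `a`, so
`≤ 3 C vol ρ^3 ≤ ε' vol ρ^5` for large `ρ` (CNU). The number of pairs of the product in the class `(r, s)` is the product of two numbers
which are `#Bo/N (1 ± ε' N)`; sum over the classes in `R` (at most `N^2`). `vol ρ^5 ≤ #Bx/c` (LOW), so everything is relative to `#Bx`. Positivity: LOW. -/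
def SpecEQZ : Prop :=
  ∀ (F : Type) [Field F] [NumberField F],
    (∀ ρ : InfinitePlace F → ℝ, (Bx F ρ).Finite) ∧
    (∀ ρ : InfinitePlace F → ℝ, (∀ v, 1 ≤ ρ v) → 0 < (Bx F ρ).ncard) ∧
    ∀ (I : Ideal (𝓞 F)) (R : Set ((𝓞 F ⧸ I) × (𝓞 F ⧸ I))) (ε : ℝ), I ≠ ⊥ → 0 < ε →
      ∃ R0 : ℝ, ∀ ρ : InfinitePlace F → ℝ, (∀ v, R0 ≤ ρ v) →
      |({q ∈ Bx F ρ | rd I q ∈ R}.ncard : ℝ) -
        (R.ncard : ℝ) / (Ideal.absNorm I : ℝ) ^ 2 * ((Bx F ρ).ncard : ℝ)| ≤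
        ε * ((Bx F ρ).ncard : ℝ)

/-- **TLZ** (60 lines; from `PF.SpecDNT`, `PF.SpecDNY`, `SEL.SpecLOW`). The tail: few pairs have `4a^3+27b^2` in `v^2` for a large place. -/
def SpecTLZ : Prop :=
  ∀ (F : Type) [Field F] [NumberField F] (ε : ℝ), 0 < ε → ∃ (M : ℕ) (R0 : ℝ),
    ∀ ρ : InfinitePlace F → ℝ, (∀ v, R0 ≤ ρ v) →
    ({q ∈ Bx F ρ | ∃ v : Pl F, (6 : 𝓞 F) ∉ v.asIdeal ∧ M < nv v ∧
      dsc q.1 q.2 ∈ v.asIdeal ^ 2}.ncard : ℝ) ≤ ε * ((Bx F ρ).ncard : ℝ)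

/-- **TYZ** (200 lines; from `PF.SpecDNQ`, `PF.SpecDNP`, `PF.SpecDNV`). The types modulo `v`, `6 ∉ v`.
Proof. `k = 𝓞 F ⧸ v` is a finite field with `nv v` elements (`PF.card_quot`, `PF.finite_quot`, `Ideal.Quotient.field`), `2, 3 ≠ 0`. `n12`: DNQ. `n3`: DNP (2).
`n0`: `t ↦ (-3t^2, 2t^3)` is a bijection from `k` to the set (as in `PT/TYZ.lean`). `x3`: a cubic without root has square `-disc` (proof of DNQ:
`PF.DNQM` or `PR.RTXM`), and it is not 0 by DNP (1). `e12`, `e3`, `e0`: every class is the class of an integer; `Ideal.Quotient.eq_zero_iff_mem`.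
`t1`: `x3`. `five`: `PF.SpecDNV`. -/
structure SpecTYZ : Prop where
  n12 : ∀ (F : Type) [Field F] [NumberField F] (v : Pl F), (6 : 𝓞 F) ∉ v.asIdeal →
    2 * (C12 v).ncard = nv v * (nv v - 1)
  n3 : ∀ (F : Type) [Field F] [NumberField F] (v : Pl F), (6 : 𝓞 F) ∉ v.asIdeal →
    3 * (C3 v).ncard + 1 = nv v ^ 2
  n0 : ∀ (F : Type) [Field F] [NumberField F] (v : Pl F), (6 : 𝓞 F) ∉ v.asIdeal →
    (C0 v).ncard = nv v
  x3 : ∀ (F : Type) [Field F] [NumberField F] (v : Pl F), (6 : 𝓞 F) ∉ v.asIdeal →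
    ∀ q ∈ C3 v, q ∉ C12 v ∧ q ∉ C0 v
  e12 : ∀ (F : Type) [Field F] [NumberField F] (v : Pl F) (E : 𝓞 F × 𝓞 F),
    Y12 v E ↔ rd v.asIdeal E ∈ C12 v
  e3 : ∀ (F : Type) [Field F] [NumberField F] (v : Pl F) (E : 𝓞 F × 𝓞 F),
    Y3 v E ↔ rd v.asIdeal E ∈ C3 v
  e0 : ∀ (F : Type) [Field F] [NumberField F] (v : Pl F) (E : 𝓞 F × 𝓞 F),
    dsc E.1 E.2 ∈ v.asIdeal ↔ rd v.asIdeal E ∈ C0 v
  t0 : ∀ (F : Type) [Field F] [NumberField F] (v : Pl F) (E : 𝓞 F × 𝓞 F),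
    ty v E = 0 ↔ Y12 v E
  t1 : ∀ (F : Type) [Field F] [NumberField F] (v : Pl F) (E : 𝓞 F × 𝓞 F), (6 : 𝓞 F) ∉ v.asIdeal →
    (ty v E = 1 ↔ Y3 v E)
  t3 : ∀ (F : Type) [Field F] [NumberField F] (v : Pl F) (E : 𝓞 F × 𝓞 F), ty v E = 3 →
    dsc E.1 E.2 ∈ v.asIdeal
  t2 : ∀ (F : Type) [Field F] [NumberField F] (v : Pl F) (E : 𝓞 F × 𝓞 F), ty v E = 2 →
    dsc E.1 E.2 ∉ v.asIdeal
  five : ∀ (F : Type) [Field F] [NumberField F] (v : Pl F), (6 : 𝓞 F) ∉ v.asIdeal → 5 ≤ nv v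

end Pool.Agent.Lib.MP_8cb858_nt.PU
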