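import Pool.Agent.Lib.MP_8cb858_nt.SEL.Spec
import Pool.Agent.Lib.MP_8cb858_nt.PF.SpecF
import Pool.Agent.Lib.MP_8cb858_nt.SEL.LO1
import Pool.Agent.Lib.MP_8cb858_nt.PT.SpecF
import Pool.Agent.Lib.MP_8cb858_nt.PU.SpecF

section
/-!
# MP_8cb858_nt, module LO2: the explicit integral basis at a finite place
-/
set_option autoImplicit false

namespace Pool.Agent.Lib.MP_8cb858_nt.SEL

open NumberField IsDedekindDomain
open scoped Classical

universe u

namespace LO2M

section Field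

variable {K : Type u} [Field K]

/-- the Gram matrix `A` in terms of the coefficients of the polynomials -/
def fA (a b x : K) (p : Matrix (Fin 3) (Fin 3) K) : Matrix (Fin 3) (Fin 3) K := fun j k =>
  -(p 0 j * p 1 k + p 1 j * p 0 k) + x * (p 0 j * p 2 k + p 1 j * p 1 k + p 2 j * p 0 k) +
    a * (p 1 j * p 2 k + p 2 j * p 1 k) + (b - a * x) * (p 2 j * p 2 k)

/-- the Gram matrix `B` in terms of the coefficients of the polynomials -/
def fB (a b x : K) (p : Matrix (Fin 3) (Fin 3) K) : Matrix (Fin 3) (Fin 3) K := fun j k =>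
  -(p 0 j * p 0 k) + x * (p 0 j * p 1 k + p 1 j * p 0 k) +
    a * (p 0 j * p 2 k + p 1 j * p 1 k + p 2 j * p 0 k) +
    (b - a * x) * (p 1 j * p 2 k + p 2 j * p 1 k) + (-(b * x) - a ^ 2) * (p 2 j * p 2 k)

theorem fA_map {L : Type u} [Field L] (f : K →+* L) (a b x : K) (p : Matrix (Fin 3) (Fin 3) K) :
    fA (f a) (f b) (f x) (p.map f) = (fA a b x p).map f := by
  ext j k
  simp only [fA, Matrix.map_apply, map_add, map_neg, map_mul, map_sub]

theorem fB_map {L : Type u} [Field L] (f : K →+* L) (a b x : K) (p : Matrix (Fin 3) (Fin 3) K) :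
    fB (f a) (f b) (f x) (p.map f) = (fB a b x p).map f := by
  ext j k
  simp only [fB, Matrix.map_apply, map_add, map_neg, map_mul, map_sub, map_pow]

variable {a b : K} {th : Fin 3 → K}

theorem root_cube (hr : IsRoots a b th) (i : Fin 3) : th i ^ 3 = -a * th i - b := by
  obtain ⟨-, e1, e2, e3⟩ := hr
  fin_cases i
  · simp only [Fin.zero_eta]
    linear_combination th 0 ^ 2 * e1 - th 0 * e2 + e3
  · simp only [Fin.mk_one]
    linear_combination th 1 ^ 2 * e1 - th 1 * e2 + e3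
  · simp only [Fin.reduceFinMk]
    linear_combination th 2 ^ 2 * e1 - th 2 * e2 + e3

/-- the moments -/
theorem moments (hr : IsRoots a b th) :
    (∑ i, 1 / fp th i = 0) ∧ (∑ i, th i / fp th i = 0) ∧ (∑ i, th i ^ 2 / fp th i = 1) ∧
    (∑ i, th i ^ 3 / fp th i = 0) ∧ (∑ i, th i ^ 4 / fp th i = -a) ∧
    (∑ i, th i ^ 5 / fp th i = -b) ∧ (∑ i, th i ^ 6 / fp th i = a ^ 2) := by
  have h01 : th 0 - th 1 ≠ 0 := sub_ne_zero.2 (fun h => by simpa using hr.inj h)
  have h02 : th 0 - th 2 ≠ 0 := sub_ne_zero.2 (fun h => by simpa using hr.inj h)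
  have h12 : th 1 - th 2 ≠ 0 := sub_ne_zero.2 (fun h => by simpa using hr.inj h)
  have f0 : fp th 0 = (th 0 - th 1) * (th 0 - th 2) := rfl
  have f1 : fp th 1 = (th 1 - th 2) * (th 1 - th 0) := rfl
  have f2 : fp th 2 = (th 2 - th 0) * (th 2 - th 1) := rfl
  have h10 : th 1 - th 0 ≠ 0 := by rw [← neg_sub]; exact neg_ne_zero.2 h01
  have h20 : th 2 - th 0 ≠ 0 := by rw [← neg_sub]; exact neg_ne_zero.2 h02
  have h21 : th 2 - th 1 ≠ 0 := by rw [← neg_sub]; exact neg_ne_zero.2 h12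
  have e0 : (fp th 0)⁻¹ = 1 / ((th 0 - th 1) * (th 0 - th 2)) := by rw [f0, one_div]
  have e1 : (fp th 1)⁻¹ = -1 / ((th 1 - th 2) * (th 0 - th 1)) := by
    rw [f1, ← neg_sub (th 0) (th 1), mul_neg, inv_neg, neg_div, one_div]
  have e2 : (fp th 2)⁻¹ = 1 / ((th 0 - th 2) * (th 1 - th 2)) := by
    rw [f2, ← neg_sub (th 0) (th 2), ← neg_sub (th 1) (th 2), neg_mul_neg, one_div]
  have s0 : ∑ i, 1 / fp th i = 0 := by
    rw [Fin.sum_univ_three]
    simp only [div_eq_mul_inv (1 : K)]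
    rw [e0, e1, e2]
    field_simp
    ring
  have s1 : ∑ i, th i / fp th i = 0 := by
    rw [Fin.sum_univ_three]
    simp only [div_eq_mul_inv _ (fp th _)]
    rw [e0, e1, e2]
    field_simp
    ring
  have s2 : ∑ i, th i ^ 2 / fp th i = 1 := by
    rw [Fin.sum_univ_three]
    simp only [div_eq_mul_inv _ (fp th _)]
    rw [e0, e1, e2]
    field_simp
    ring
  have rec1 : ∀ m : ℕ, ∑ i, th i ^ (m + 3) / fp th i =
      -a * ∑ i, th i ^ (m + 1) / fp th i - b * ∑ i, th i ^ m / fp th i := by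
    intro m
    rw [Finset.mul_sum, Finset.mul_sum, ← Finset.sum_sub_distrib]
    refine Finset.sum_congr rfl fun i _ => ?_
    rw [pow_add, root_cube hr i, pow_succ]
    ring
  have s0' : ∑ i, th i ^ 0 / fp th i = 0 := by simpa using s0
  have s1' : ∑ i, th i ^ 1 / fp th i = 0 := by simpa using s1
  have s3 : ∑ i, th i ^ 3 / fp th i = 0 := by
    rw [rec1 0, s0', zero_add, s1']
    ring
  have s4 : ∑ i, th i ^ 4 / fp th i = -a := by
    rw [rec1 1, s1', s2]
    ring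
  have s5 : ∑ i, th i ^ 5 / fp th i = -b := by
    rw [rec1 2, s3, s2]
    ring
  have s6 : ∑ i, th i ^ 6 / fp th i = a ^ 2 := by
    rw [rec1 3, s4, s3]
    ring
  exact ⟨s0, s1, s2, s3, s4, s5, s6⟩

theorem w_apply (h : Fin 3 → K) (p : Matrix (Fin 3) (Fin 3) K) (i j : Fin 3) :
    (Matrix.diagonal h * vnd th * p) i j =
      h i * (p 0 j + p 1 j * th i + p 2 j * th i ^ 2) := by
  rw [Matrix.mul_apply, Fin.sum_univ_three]
  simp only [Matrix.diagonal_mul, vnd]
  simp only [Fin.val_zero, Fin.val_one, Fin.val_two, pow_zero, pow_one]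
  ring

theorem gram (hr : IsRoots a b th) {x : K} {h : Fin 3 → K} (hh : ∀ i, h i ^ 2 = x - th i)
    (p : Matrix (Fin 3) (Fin 3) K) :
    gA th (Matrix.diagonal h * vnd th * p) = fA a b x p ∧
    gB th (Matrix.diagonal h * vnd th * p) = fB a b x p := by
  obtain ⟨s0, s1, s2, s3, s4, s5, s6⟩ := moments hr
  rw [Fin.sum_univ_three] at s0 s1 s2 s3 s4 s5 s6
  constructor
  · ext j k
    have h1 : gA th (Matrix.diagonal h * vnd th * p) j k =
        ∑ i, (x - th i) * (p 0 j + p 1 j * th i + p 2 j * th i ^ 2) *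
          (p 0 k + p 1 k * th i + p 2 k * th i ^ 2) / fp th i := by
      unfold gA
      refine Finset.sum_congr rfl fun i _ => ?_
      rw [w_apply, w_apply, ← hh i]
      ring
    rw [h1, Fin.sum_univ_three]
    unfold fA
    linear_combination (x * (p 0 j * p 0 k)) * s0 +
      (x * (p 0 j * p 1 k + p 1 j * p 0 k) - p 0 j * p 0 k) * s1 +
      (x * (p 0 j * p 2 k + p 1 j * p 1 k + p 2 j * p 0 k) -
        (p 0 j * p 1 k + p 1 j * p 0 k)) * s2 +
      (x * (p 1 j * p 2 k + p 2 j * p 1 k) -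
        (p 0 j * p 2 k + p 1 j * p 1 k + p 2 j * p 0 k)) * s3 +
      (x * (p 2 j * p 2 k) - (p 1 j * p 2 k + p 2 j * p 1 k)) * s4 -
      (p 2 j * p 2 k) * s5
  · ext j k
    have h1 : gB th (Matrix.diagonal h * vnd th * p) j k =
        ∑ i, th i * (x - th i) * (p 0 j + p 1 j * th i + p 2 j * th i ^ 2) *
          (p 0 k + p 1 k * th i + p 2 k * th i ^ 2) / fp th i := by
      unfold gB
      refine Finset.sum_congr rfl fun i _ => ?_
      rw [w_apply, w_apply, ← hh i]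
      ring
    rw [h1, Fin.sum_univ_three]
    unfold fB
    linear_combination (x * (p 0 j * p 0 k)) * s1 +
      (x * (p 0 j * p 1 k + p 1 j * p 0 k) - p 0 j * p 0 k) * s2 +
      (x * (p 0 j * p 2 k + p 1 j * p 1 k + p 2 j * p 0 k) -
        (p 0 j * p 1 k + p 1 j * p 0 k)) * s3 +
      (x * (p 1 j * p 2 k + p 2 j * p 1 k) -
        (p 0 j * p 2 k + p 1 j * p 1 k + p 2 j * p 0 k)) * s4 +
      (x * (p 2 j * p 2 k) - (p 1 j * p 2 k + p 2 j * p 1 k)) * s5 -
      (p 2 j * p 2 k) * s6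

end Field

/-! ## Case 1 -/

section Cases

variable {K : Type u} [Field K] {a b x y e : K}

/-- the matrix of case 1 -/
def p1 (a x y e : K) : Matrix (Fin 3) (Fin 3) K :=
  !![e, 0, (x ^ 2 + a) / y; 0, 1, x / y; 0, 0, 1 / y]

theorem p1_det : (p1 a x y e).det = e / y := by
  rw [Matrix.det_fin_three]
  simp [p1]
  ring

theorem p1_A (hy : y ≠ 0) (hxy : y ^ 2 = x ^ 3 + a * x + b) :
    fA a b x (p1 a x y e) = !![0, -e, 0; -e, x, 0; 0, 0, 1] := by
  ext i j
  fin_cases i <;> fin_cases j <;> simp [fA, p1]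
  all_goals field_simp
  all_goals first | linear_combination hxy | linear_combination -hxy | ring

theorem p1_B (he : e ^ 2 = 1) (hy : y ≠ 0) (hxy : y ^ 2 = x ^ 3 + a * x + b) :
    fB a b x (p1 a x y e) = !![-1, e * x, 0; e * x, a, y; 0, y, x] := by
  ext i j
  fin_cases i <;> fin_cases j <;> simp [fB, p1]
  all_goals try field_simp
  all_goals first
    | done
    | linear_combination he | linear_combination -he | linear_combination hxy
    | linear_combination -hxy | linear_combination x * hxy | linear_combination -x * hxy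
    | ring

/-- the matrix of case 2 -/
def p2 (r u e : K) : Matrix (Fin 3) (Fin 3) K :=
  !![r * e / u, 0, 0; 0, r, 0; 0, 0, r]

theorem p2_det {r u : K} : (p2 r u e).det = r ^ 3 * e / u := by
  rw [Matrix.det_fin_three]
  simp [p2]
  ring

theorem p2_A {r u : K} (hu : u ≠ 0) (hr : r ^ 2 * x = u) :
    fA a b x (p2 r u e) = !![0, -(r ^ 2 * e / u), e; -(r ^ 2 * e / u), u, a * r ^ 2;
      e, a * r ^ 2, b * r ^ 2 - a * u] := by
  ext i j
  fin_cases i <;> fin_cases j <;> simp [fA, p2]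
  all_goals try field_simp
  all_goals first
    | done
    | linear_combination hr | linear_combination e * hr | linear_combination (-a) * hr
    | ring1 | exact Or.inl trivial

theorem p2_B {r u : K} (he : e ^ 2 = 1) (hu : u ≠ 0) (hr : r ^ 2 * x = u) :
    fB a b x (p2 r u e) = !![-(r ^ 2 / u ^ 2), e, a * r ^ 2 * e / u; e, a * r ^ 2,
      b * r ^ 2 - a * u; a * r ^ 2 * e / u, b * r ^ 2 - a * u, -(b * u) - a ^ 2 * r ^ 2] := by
  ext i j
  fin_cases i <;> fin_cases j <;> simp [fB, p2]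
  all_goals try field_simp
  all_goals first
    | done
    | linear_combination he | linear_combination r ^ 2 * he
    | linear_combination hr | linear_combination e * hr | linear_combination (-a) * hr
    | linear_combination (-b) * hr
    | ring1 | exact Or.inl trivial

end Cases

/-! ## Integrality -/

section Val

variable {K : Type u} [Field K] {Γ : Type*} [LinearOrderedCommGroupWithZero Γ]
  (V : Valuation K Γ) {a b x y e : K}

/-- the local statement -/
theorem exists_p (ha : V a ≤ 1) (hb : V b ≤ 1) (he : e = 1 ∨ e = -1) (hy : y ≠ 0)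
    (hxy : y ^ 2 = x ^ 3 + a * x + b) :
    ∃ p : Matrix (Fin 3) (Fin 3) K, p.det = e / y ∧ ∀ i j, V (fA a b x p i j) ≤ 1 ∧
      V (fB a b x p i j) ≤ 1 := by
  have he2 : e ^ 2 = 1 := by
    rcases he with rfl | rfl <;> ring
  let O := V.valuationSubring
  have hO : ∀ z : K, z ∈ O ↔ V z ≤ 1 := fun z => Iff.rfl
  have ha' : a ∈ O := ha
  have hb' : b ∈ O := hb
  have he' : e ∈ O := by
    rcases he with rfl | rfl
    · exact one_mem _
    · exact neg_mem (one_mem _)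
  by_cases hx : V x ≤ 1
  · have hx' : x ∈ O := hx
    have hy' : y ∈ O := by
      have h1 : y ^ 2 ∈ O := by
        rw [hxy]
        exact add_mem (add_mem (pow_mem hx' 3) (mul_mem ha' hx')) hb'
      have h2 : V y ^ 2 ≤ 1 := by
        rw [← map_pow]
        exact h1
      exact (pow_le_one_iff (two_ne_zero)).1 h2
    refine ⟨p1 a x y e, p1_det, fun i j => ?_⟩
    rw [p1_A hy hxy, p1_B he2 hy hxy]
    change _ ∈ O ∧ _ ∈ O
    constructor
    · fin_cases i <;> fin_cases j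
      exacts [zero_mem O, neg_mem he', zero_mem O, neg_mem he', hx', zero_mem O, zero_mem O,
        zero_mem O, one_mem O]
    · fin_cases i <;> fin_cases j
      exacts [neg_mem (one_mem O), mul_mem he' hx', zero_mem O, mul_mem he' hx', ha', hy',
        zero_mem O, hy', hx']
  · rw [not_le] at hx
    have hx0 : x ≠ 0 := by
      rintro rfl
      rw [map_zero] at hx
      exact absurd hx (by simp)
    have hVx : (0 : Γ) < V x := zero_lt_iff.2 ((V.ne_zero_iff).2 hx0)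
    have h1 : V (a * x + b) < V (x ^ 3) := by
      have h2 : V (a * x + b) ≤ V x := by
        refine (V.map_add _ _).trans (max_le ?_ (hb.trans hx.le))
        rw [map_mul]
        exact mul_le_of_le_one_left' ha
      refine h2.trans_lt ?_
      rw [map_pow]
      calc V x = V x ^ 1 := (pow_one _).symm
        _ < V x ^ 3 := pow_lt_pow_right₀ hx (by norm_num)
    have h3 : V (y ^ 2) = V (x ^ 3) := by
      rw [hxy, add_assoc]
      exact V.map_add_eq_of_lt_left h1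
    have hy2 : y ^ 2 ≠ 0 := pow_ne_zero 2 hy
    set u : K := x ^ 3 / y ^ 2 with hu_def
    have hu : u ≠ 0 := div_ne_zero (pow_ne_zero 3 hx0) hy2
    have hVu : V u = 1 := by
      rw [hu_def, map_div₀, h3, div_self]
      exact (V.ne_zero_iff).2 (pow_ne_zero 3 hx0)
    have hu' : u ∈ O := hVu.le
    have hui : u⁻¹ ∈ O := by
      change V u⁻¹ ≤ 1
      rw [map_inv₀, hVu, inv_one]
    have hxi : x⁻¹ ∈ O := by
      change V x⁻¹ ≤ 1
      rw [map_inv₀]
      exact inv_le_one_of_one_le₀ hx.le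
    have hr : (x / y) ^ 2 * x = u := by
      rw [hu_def]
      field_simp
    have hr2 : (x / y) ^ 2 ∈ O := by
      have : (x / y) ^ 2 = u * x⁻¹ := by
        rw [← hr]
        field_simp
      rw [this]
      exact mul_mem hu' hxi
    refine ⟨p2 (x / y) u e, ?_, fun i j => ?_⟩
    · rw [p2_det, hu_def]
      field_simp
    · rw [p2_A hu hr, p2_B he2 hu hr]
      change _ ∈ O ∧ _ ∈ O
      have m1 : a * (x / y) ^ 2 ∈ O := mul_mem ha' hr2
      have m2 : b * (x / y) ^ 2 - a * u ∈ O := sub_mem (mul_mem hb' hr2) (mul_mem ha' hu')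
      have m3 : -((x / y) ^ 2 * e / u) ∈ O := neg_mem (by
        rw [div_eq_mul_inv]
        exact mul_mem (mul_mem hr2 he') hui)
      have m4 : a * (x / y) ^ 2 * e / u ∈ O := by
        rw [div_eq_mul_inv]
        exact mul_mem (mul_mem m1 he') hui
      have m5 : -((x / y) ^ 2 / u ^ 2) ∈ O := neg_mem (by
        rw [div_eq_mul_inv, ← inv_pow]
        exact mul_mem hr2 (pow_mem hui 2))
      have m6 : -(b * u) - a ^ 2 * (x / y) ^ 2 ∈ O :=
        sub_mem (neg_mem (mul_mem hb' hu')) (mul_mem (pow_mem ha' 2) hr2)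
      constructor
      · fin_cases i <;> fin_cases j
        exacts [zero_mem O, m3, he', m3, hu', m1, he', m1, m2]
      · fin_cases i <;> fin_cases j
        exacts [m5, he', m4, he', m1, m2, m4, m2, m6]

end Val

end LO2M

open LO2M

theorem specLO2 (hHAL : SpecHAL.{u}) : SpecLO2.{u} := by
  intro F _ _ v a b th P x' y' h hth hP hP2
  have hc : CharZero (v.adicCompletion F) := algebraRat.charZero _
  let K := v.adicCompletion F
  let L := AlgebraicClosure (v.adicCompletion F)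
  have tow : ∀ z : F, algebraMap F L z = algebraMap K L (algebraMap F K z) := fun z =>
    IsScalarTower.algebraMap_apply F K L z
  obtain ⟨x'', y'', h'', e1, e2, e3, e4, e5⟩ :=
    (hHAL F (AlgebraicClosure (v.adicCompletion F)) (a : F) (b : F) th hth).2 P hP
  rw [hP2] at e1
  have hx'' : algebraMap (v.adicCompletion F) (AlgebraicClosure (v.adicCompletion F)) x' = x'' := by
    injection e1
  have hy'' : algebraMap (v.adicCompletion F) (AlgebraicClosure (v.adicCompletion F)) y' = y'' := by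
    injection e1
  subst hx'' hy''
  have hinj := (algebraMap (v.adicCompletion F)
    (AlgebraicClosure (v.adicCompletion F))).injective
  have hy' : y' ≠ 0 := by
    rintro rfl
    exact e2 (map_zero _)
  -- the equation
  have hxy : y' ^ 2 = x' ^ 3 + algebraMap F (v.adicCompletion F) (a : F) * x' +
      algebraMap F (v.adicCompletion F) (b : F) := by
    apply hinj
    have h1 : (algebraMap K L y') ^ 2 + algebraMap F L 0 * algebraMap K L x' * algebraMap K L y' +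
        algebraMap F L 0 * algebraMap K L y' = (algebraMap K L x') ^ 3 +
        algebraMap F L 0 * (algebraMap K L x') ^ 2 + algebraMap F L (a : F) * algebraMap K L x' +
        algebraMap F L (b : F) := (WeierstrassCurve.Affine.equation_iff _ _).1 h.1
    simp only [map_zero, zero_mul, add_zero] at h1
    rw [map_add, map_add, map_mul, map_pow, map_pow, ← tow, ← tow, h1]
  -- the sign
  obtain ⟨e, he, he'⟩ : ∃ e : K, (e = 1 ∨ e = -1) ∧
      hlf th P 0 * hlf th P 1 * hlf th P 2 = algebraMap K L (e * y') := by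
    rcases sq_eq_sq_iff_eq_or_eq_neg.1 e5 with h1 | h1
    · exact ⟨1, Or.inl rfl, by rw [h1, one_mul]⟩
    · exact ⟨-1, Or.inr rfl, by rw [h1, neg_one_mul, map_neg]⟩
  have hva : Valued.v (algebraMap F K (a : F)) ≤ 1 := by
    have := HeightOneSpectrum.coe_algebraMap_mem (𝓞 F) F v a
    exact this
  have hvb : Valued.v (algebraMap F K (b : F)) ≤ 1 := by
    have := HeightOneSpectrum.coe_algebraMap_mem (𝓞 F) F v b
    exact this
  obtain ⟨p, hp, hpv⟩ := exists_p Valued.v hva hvb he hy' hxy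
  have hth' : IsRoots (algebraMap K L (algebraMap F K (a : F)))
      (algebraMap K L (algebraMap F K (b : F))) th := by
    rw [← tow, ← tow]
    exact hth
  obtain ⟨g1, g2⟩ := gram hth' e3 (p.map (algebraMap K L))
  refine ⟨p, fA (algebraMap F K (a : F)) (algebraMap F K (b : F)) x' p,
    fB (algebraMap F K (a : F)) (algebraMap F K (b : F)) x' p, ?_, ?_, ?_, hpv⟩
  · rw [Matrix.det_mul, Matrix.det_mul, Matrix.det_diagonal, Fin.prod_univ_three, he']
    have h1 : (p.map (algebraMap K L)).det = algebraMap K L (e / y') := by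
      rw [← hp, RingHom.map_det]
      rfl
    rw [h1, mul_right_comm, ← map_mul]
    have h2 : e * y' * (e / y') = 1 := by
      have h3 : e * y' * (e / y') = e * e * (y' / y') := by ring
      rw [h3, div_self hy', mul_one]
      rcases he with h4 | h4 <;> rw [h4] <;> ring
    rw [h2, map_one, one_mul]
  · rw [g1, fA_map]
  · rw [g2, fB_map]

end Pool.Agent.Lib.MP_8cb858_nt.SEL
end

section
/-!
# MAIN: the average size of the 2-Selmer group is bounded
-/
namespace Pool.Agent.Lib.MP_8cb858_nt.SEL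

open NumberField IsDedekindDomain
open scoped Classical

universe u

namespace MAINM

/-- the radii -/
theorem rho {m : ℕ} (hm : m ≠ 0) {X : ℝ} (hX : 1 ≤ X) :
    1 ≤ X ^ (1 / (6 * (m : ℝ))) ∧ (X ^ (1 / (6 * (m : ℝ)))) ^ (6 * m) = X := by
  have hm' : (0 : ℝ) < m := by exact_mod_cast Nat.pos_of_ne_zero hm
  refine ⟨Real.one_le_rpow hX (by positivity), ?_⟩
  rw [← Real.rpow_natCast, ← Real.rpow_mul (by linarith)]
  have : 1 / (6 * (m : ℝ)) * ((6 * m : ℕ) : ℝ) = 1 := by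
    push_cast
    field_simp
  rw [this, Real.rpow_one]

theorem box_eq {F : Type u} [Field F] [NumberField F] {X ρ : InfinitePlace F → ℝ}
    (h1 : ∀ v, 1 ≤ ρ v) (h2 : ∀ v : InfinitePlace F, ρ v ^ (6 * v.mult) = X v) :
    Box F X = Bx F ρ := by
  ext q
  simp only [Box, Bx, Set.mem_ofPred_eq]
  apply and_congr_right
  intro _
  apply forall_congr'
  intro v
  have hm : v.mult ≠ 0 := InfinitePlace.mult_ne_zero
  have hρ : 0 ≤ ρ v := by linarith [h1 v]
  rw [← h2 v]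
  have e1 : ρ v ^ (6 * v.mult) = ((ρ v ^ 2) ^ v.mult) ^ 3 := by
    rw [← pow_mul, ← pow_mul]
    congr 1
    ring
  have e2 : ρ v ^ (6 * v.mult) = ((ρ v ^ 3) ^ v.mult) ^ 2 := by
    rw [← pow_mul, ← pow_mul]
    congr 1
    ring
  apply and_congr
  · rw [e1, pow_le_pow_iff_left₀ (by positivity) (by positivity) (by norm_num),
      pow_le_pow_iff_left₀ (by positivity) (by positivity) hm]
  · rw [e2, pow_le_pow_iff_left₀ (by positivity) (by positivity) (by norm_num),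
      pow_le_pow_iff_left₀ (by positivity) (by positivity) hm]

/-- counting in a family of finite groups -/
theorem count {I : Type u} (G : I → Type u) [∀ i, AddGroup (G i)] (B : Set I) (hB : B.Finite)
    (hT : {z : (Σ i, G i) | z.1 ∈ B ∧ z.2 ≠ 0}.Finite) :
    (∀ i ∈ B, Finite (G i)) ∧
      ∑ᶠ i ∈ B, (Nat.card (G i) : ℝ) = B.ncard + {z : (Σ i, G i) | z.1 ∈ B ∧ z.2 ≠ 0}.ncard := by
  have hne : ∀ i ∈ B, {x : G i | x ≠ 0}.Finite := by
    intro i hi
    have h := hT.preimage (f := fun x : G i => (⟨i, x⟩ : Σ i, G i))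
      (fun x _ y _ hxy => by
        simp only [Sigma.mk.injEq, heq_eq_eq, true_and] at hxy
        exact hxy)
    refine h.subset ?_
    intro x hx
    exact ⟨hi, hx⟩
  have hfin : ∀ i ∈ B, Finite (G i) := by
    intro i hi
    rw [← Set.finite_univ_iff]
    refine ((hne i hi).union (Set.finite_singleton 0)).subset ?_
    intro x _
    by_cases hx : x = 0
    · exact Or.inr hx
    · exact Or.inl hx
  refine ⟨hfin, ?_⟩
  let f : ∀ i, Finset (G i) := fun i =>
    if h : {x : G i | x ≠ 0}.Finite then h.toFinset else ∅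
  have hf : ∀ i ∈ B, ∀ x : G i, x ∈ f i ↔ x ≠ 0 := by
    intro i hi x
    simp only [f]
    rw [dif_pos (hne i hi), Set.Finite.mem_toFinset]
    rfl
  have hTf : {z : (Σ i, G i) | z.1 ∈ B ∧ z.2 ≠ 0} = ↑(hB.toFinset.sigma f) := by
    ext z
    simp only [Set.mem_ofPred_eq, Finset.coe_sigma, Set.mem_sigma_iff, Finset.mem_coe,
      Set.Finite.mem_toFinset]
    apply and_congr_right
    intro hz
    exact (hf z.1 hz z.2).symm
  rw [hTf, Set.ncard_coe_finset, Finset.card_sigma, finsum_mem_eq_finite_toFinset_sum _ hB,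
    Set.ncard_eq_toFinset_card B hB, Finset.card_eq_sum_ones]
  push_cast
  rw [← Finset.sum_add_distrib]
  apply Finset.sum_congr rfl
  intro i hi
  have hiB : i ∈ B := hB.mem_toFinset.1 hi
  have := hfin i hiB
  have := Fintype.ofFinite (G i)
  have h1 : f i = Finset.univ.erase 0 := by
    ext x
    rw [hf i hiB x]
    simp
  rw [h1, Finset.card_erase_of_mem (Finset.mem_univ _), Nat.card_eq_fintype_card,
    Finset.card_univ]
  have h2 : 1 ≤ Fintype.card (G i) := Fintype.card_pos_iff.2 ⟨0⟩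
  rw [Nat.cast_sub h2]
  push_cast
  ring

end MAINM

open MAINM in
theorem specMAIN (hTOT : SpecTOT.{u}) (hLOW : SpecLOW.{u}) : SpecMAIN.{u} := by
  intro F _ _
  obtain ⟨C, hC, hT⟩ := hTOT F
  obtain ⟨c, hc, hL⟩ := hLOW F
  refine ⟨1 + C / c, ?_⟩
  intro X hX
  let ρ : InfinitePlace F → ℝ := fun v => X v ^ (1 / (6 * (v.mult : ℝ)))
  have h1 : ∀ v, 1 ≤ ρ v := fun v => (rho InfinitePlace.mult_ne_zero (hX v)).1
  have h2 : ∀ v : InfinitePlace F, ρ v ^ (6 * v.mult) = X v := fun v =>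
    (rho InfinitePlace.mult_ne_zero (hX v)).2
  rw [box_eq h1 h2]
  obtain ⟨hB, hB'⟩ := hL ρ h1
  obtain ⟨hTf, hTc⟩ := hT ρ h1
  obtain ⟨k1, k2⟩ := count (fun q : 𝓞 F × 𝓞 F => Sel 2 (curve (q.1 : F) (q.2 : F))) (Bx F ρ) hB hTf
  refine ⟨hB, k1, ?_⟩
  rw [k2]
  have h3 : C * vol ρ ^ 5 ≤ C / c * ((Bx F ρ).ncard : ℝ) := by
    rw [div_mul_eq_mul_div, le_div_iff₀ hc]
    nlinarith [hB', hC]
  linarith

end Pool.Agent.Lib.MP_8cb858_nt.SEL
end

section
/-!
# MNK: Minkowski's linear forms theorem over a number field, rank 3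
-/
namespace Pool.Agent.Lib.MP_8cb858_nt.SEL

namespace MNKM

open NumberField IsDedekindDomain MeasureTheory Module
open scoped Classical

universe u

variable (F : Type u) [Field F] [NumberField F]

/-- The real vector space `∏_v F_v^3`. -/
abbrev EE : Type u :=
  ({w : InfinitePlace F // w.IsReal} → Fin 3 → ℝ) ×
    ({w : InfinitePlace F // w.IsComplex} → Fin 3 → ℂ)

/-- Exchange of the coordinates. -/
noncomputable def swp : (Fin 3 → mixedEmbedding.mixedSpace F) ≃ₗ[ℝ] EE F where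
  toFun y := (fun w i => (y i).1 w, fun w i => (y i).2 w)
  invFun z := fun i => (fun w => z.1 w i, fun w => z.2 w i)
  map_add' _ _ := rfl
  map_smul' _ _ := rfl
  left_inv _ := rfl
  right_inv _ := rfl

/-- The image of an integral vector. -/
noncomputable def imv (x : Fin 3 → 𝓞 F) : EE F :=
  swp F fun i => mixedEmbedding F (x i : F)

/-- The basis of the lattice. -/
noncomputable def bas :
    Basis ((_ : Fin 3) × Module.Free.ChooseBasisIndex ℤ (𝓞 F)) ℝ (EE F) :=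
  (Pi.basis fun _ : Fin 3 => mixedEmbedding.latticeBasis F).map (swp F)

lemma imv_add (x y : Fin 3 → 𝓞 F) : imv F (x + y) = imv F x + imv F y := by
  unfold imv
  rw [← map_add]
  congr 1
  funext i
  simp

lemma imv_smul (n : ℤ) (x : Fin 3 → 𝓞 F) : imv F (n • x) = n • imv F x := by
  unfold imv
  rw [← map_zsmul]
  congr 1
  funext i
  simp

lemma imv_zero : imv F 0 = 0 := by
  have := imv_smul F 0 0
  simpa using this

lemma mem_span (y : EE F) (hy : y ∈ Submodule.span ℤ (Set.range (bas F))) :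
    ∃ x : Fin 3 → 𝓞 F, imv F x = y := by
  induction hy using Submodule.span_induction with
  | mem y hy =>
    obtain ⟨⟨i, j⟩, rfl⟩ := hy
    refine ⟨Pi.single i (RingOfIntegers.basis F j), ?_⟩
    unfold imv bas
    rw [Basis.map_apply]
    congr 1
    funext k
    rw [Pi.basis_apply]
    by_cases hk : k = i
    · subst hk
      simp [mixedEmbedding.latticeBasis_apply, integralBasis_apply]
    · simp [hk]
  | zero => exact ⟨0, imv_zero F⟩
  | add a b _ _ ha hb =>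
    obtain ⟨x, rfl⟩ := ha
    obtain ⟨y, rfl⟩ := hb
    exact ⟨x + y, imv_add F x y⟩
  | smul n a _ ha =>
    obtain ⟨x, rfl⟩ := ha
    exact ⟨n • x, imv_smul F n x⟩

lemma vpR (M : Matrix (Fin 3) (Fin 3) ℝ) (h : |M.det| = 1) :
    MeasurePreserving (fun y : Fin 3 → ℝ => M.mulVec y) := by
  have hM : M.det ≠ 0 := by
    intro h0; rw [h0] at h; simp at h
  have h1 := Real.map_matrix_volume_pi_eq_smul_volume_pi hM
  have hmeas : Measurable (fun y : Fin 3 → ℝ => M.mulVec y) :=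
    (LinearMap.continuous_of_finiteDimensional (Matrix.toLin' M)).measurable
  refine ⟨hmeas, ?_⟩
  have h2 : Measure.map (fun y : Fin 3 → ℝ => M.mulVec y) volume =
      Measure.map (Matrix.toLin' M) volume := rfl
  rw [h2, h1, abs_inv, h]
  simp

lemma vpC (M : Matrix (Fin 3) (Fin 3) ℂ) (h : ‖M.det‖ = 1) :
    MeasurePreserving (fun y : Fin 3 → ℂ => M.mulVec y) := by
  have hdet : LinearMap.det ((Matrix.toLin' M).restrictScalars ℝ) = 1 := by
    rw [LinearMap.det_restrictScalars, LinearMap.det_toLin', Algebra.norm_complex_apply,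
      Complex.normSq_eq_norm_sq, h]
    norm_num
  have h1 := Measure.map_linearMap_addHaar_eq_smul_addHaar (volume : Measure (Fin 3 → ℂ))
    (f := (Matrix.toLin' M).restrictScalars ℝ) (by rw [hdet]; exact one_ne_zero)
  have hmeas : Measurable (fun y : Fin 3 → ℂ => M.mulVec y) :=
    (LinearMap.continuous_of_finiteDimensional
      ((Matrix.toLin' M).restrictScalars ℝ)).measurable
  refine ⟨hmeas, ?_⟩
  have h2 : Measure.map (fun y : Fin 3 → ℂ => M.mulVec y) volume =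
      Measure.map ((Matrix.toLin' M).restrictScalars ℝ) volume := rfl
  rw [h2, h1, hdet]
  simp

/-- The product of the boxes. -/
def bx (r : InfinitePlace F → Fin 3 → ℝ) : Set (EE F) :=
  (Set.univ.pi fun w : {w : InfinitePlace F // w.IsReal} =>
    Set.univ.pi fun k : Fin 3 => Metric.closedBall (0 : ℝ) (r w.1 k)) ×ˢ
  (Set.univ.pi fun w : {w : InfinitePlace F // w.IsComplex} =>
    Set.univ.pi fun k : Fin 3 => Metric.closedBall (0 : ℂ) (r w.1 k))

lemma vol_bx (r : InfinitePlace F → Fin 3 → ℝ) (hr : ∀ v k, 0 < r v k) :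
    ENNReal.ofReal (∏ v, (r v 0 * r v 1 * r v 2) ^ v.mult) ≤ volume (bx F r) := by
  unfold bx
  rw [Measure.volume_eq_prod, Measure.prod_prod, volume_pi_pi, volume_pi_pi,
    InfinitePlace.prod_eq_prod_mul_prod,
    ENNReal.ofReal_mul (Finset.prod_nonneg fun w _ => by
      have h0 := hr w.1 0; have h1 := hr w.1 1; have h2 := hr w.1 2; positivity),
    ENNReal.ofReal_prod_of_nonneg (fun w _ => by
      have h0 := hr w.1 0; have h1 := hr w.1 1; have h2 := hr w.1 2; positivity),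
    ENNReal.ofReal_prod_of_nonneg (fun w _ => by
      have h0 := hr w.1 0; have h1 := hr w.1 1; have h2 := hr w.1 2; positivity)]
  refine mul_le_mul' (Finset.prod_le_prod' fun w _ => ?_) (Finset.prod_le_prod' fun w _ => ?_)
  · rw [volume_pi_pi, Fin.prod_univ_three, Real.volume_closedBall, Real.volume_closedBall,
      Real.volume_closedBall, InfinitePlace.mult_isReal, pow_one]
    have h0 := hr w.1 0; have h1 := hr w.1 1; have h2 := hr w.1 2
    rw [ENNReal.ofReal_mul (by positivity), ENNReal.ofReal_mul (by positivity)]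
    refine mul_le_mul' (mul_le_mul' ?_ ?_) ?_ <;> exact ENNReal.ofReal_le_ofReal (by linarith)
  · rw [volume_pi_pi, Fin.prod_univ_three, Complex.volume_closedBall, Complex.volume_closedBall,
      Complex.volume_closedBall, InfinitePlace.mult_isComplex]
    have h0 := hr w.1 0; have h1 := hr w.1 1; have h2 := hr w.1 2
    have hpi : (1 : ENNReal) ≤ (NNReal.pi : ENNReal) := by
      have : (1 : NNReal) ≤ NNReal.pi := by
        rw [← NNReal.coe_le_coe]
        have := Real.pi_gt_three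
        simp only [NNReal.coe_one, NNReal.coe_real_pi]
        linarith
      exact_mod_cast this
    have key : ∀ t : ℝ, 0 < t → ENNReal.ofReal (t ^ 2) ≤
        ENNReal.ofReal t ^ 2 * (NNReal.pi : ENNReal) := by
      intro t ht
      rw [ENNReal.ofReal_pow ht.le]
      calc ENNReal.ofReal t ^ 2 = ENNReal.ofReal t ^ 2 * 1 := by rw [mul_one]
        _ ≤ _ := mul_le_mul_right hpi _
    rw [mul_pow, mul_pow, ENNReal.ofReal_mul (by positivity), ENNReal.ofReal_mul (by positivity)]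
    exact mul_le_mul' (mul_le_mul' (key _ h0) (key _ h1)) (key _ h2)

/-- The linear map of the body. -/
noncomputable def TT (P : InfinitePlace F → Matrix (Fin 3) (Fin 3) ℝ)
    (U : InfinitePlace F → Matrix (Fin 3) (Fin 3) ℂ) (y : EE F) : EE F :=
  (fun w => (P w.1).mulVec (y.1 w), fun w => (U w.1).mulVec (y.2 w))

lemma mem_bx (r : InfinitePlace F → Fin 3 → ℝ) (z : EE F) : z ∈ bx F r ↔
    (∀ w k, ‖z.1 w k‖ ≤ r w.1 k) ∧ (∀ w k, ‖z.2 w k‖ ≤ r w.1 k) := by
  simp [bx, Set.mem_pi]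

lemma convex_body (P : InfinitePlace F → Matrix (Fin 3) (Fin 3) ℝ)
    (U : InfinitePlace F → Matrix (Fin 3) (Fin 3) ℂ) (r : InfinitePlace F → Fin 3 → ℝ) :
    Convex ℝ (TT F P U ⁻¹' bx F r) := by
  intro x hx y hy s t hs ht hst
  rw [Set.mem_preimage, mem_bx] at hx hy ⊢
  refine ⟨fun w k => ?_, fun w k => ?_⟩
  · have h1 := hx.1 w k
    have h2 := hy.1 w k
    have h3 : (TT F P U (s • x + t • y)).1 w k =
        s • (TT F P U x).1 w k + t • (TT F P U y).1 w k := by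
      simp [TT, Matrix.mulVec_add, Matrix.mulVec_smul]
    rw [h3]
    calc _ ≤ ‖s • (TT F P U x).1 w k‖ + ‖t • (TT F P U y).1 w k‖ := norm_add_le _ _
      _ = s * ‖(TT F P U x).1 w k‖ + t * ‖(TT F P U y).1 w k‖ := by
        rw [norm_smul, norm_smul, Real.norm_of_nonneg hs, Real.norm_of_nonneg ht]
      _ ≤ s * r w.1 k + t * r w.1 k :=
        add_le_add (mul_le_mul_of_nonneg_left h1 hs) (mul_le_mul_of_nonneg_left h2 ht)
      _ = r w.1 k := by rw [← add_mul, hst, one_mul]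
  · have h1 := hx.2 w k
    have h2 := hy.2 w k
    have h3 : (TT F P U (s • x + t • y)).2 w k =
        s • (TT F P U x).2 w k + t • (TT F P U y).2 w k := by
      simp [TT, Matrix.mulVec_add, Matrix.mulVec_smul]
    rw [h3]
    calc _ ≤ ‖s • (TT F P U x).2 w k‖ + ‖t • (TT F P U y).2 w k‖ := norm_add_le _ _
      _ = s * ‖(TT F P U x).2 w k‖ + t * ‖(TT F P U y).2 w k‖ := by
        rw [norm_smul, norm_smul, Real.norm_of_nonneg hs, Real.norm_of_nonneg ht]
      _ ≤ s * r w.1 k + t * r w.1 k :=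
        add_le_add (mul_le_mul_of_nonneg_left h1 hs) (mul_le_mul_of_nonneg_left h2 ht)
      _ = r w.1 k := by rw [← add_mul, hst, one_mul]

lemma symm_body (P : InfinitePlace F → Matrix (Fin 3) (Fin 3) ℝ)
    (U : InfinitePlace F → Matrix (Fin 3) (Fin 3) ℂ) (r : InfinitePlace F → Fin 3 → ℝ) :
    ∀ x ∈ TT F P U ⁻¹' bx F r, -x ∈ TT F P U ⁻¹' bx F r := by
  intro x hx
  rw [Set.mem_preimage, mem_bx] at hx ⊢
  refine ⟨fun w k => ?_, fun w k => ?_⟩
  · have h1 := hx.1 w k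
    have h3 : (TT F P U (-x)).1 w k = - (TT F P U x).1 w k := by
      simp [TT, Matrix.mulVec_neg]
    rw [h3, norm_neg]; exact h1
  · have h1 := hx.2 w k
    have h3 : (TT F P U (-x)).2 w k = - (TT F P U x).2 w k := by
      simp [TT, Matrix.mulVec_neg]
    rw [h3, norm_neg]; exact h1

lemma vol_body (P : InfinitePlace F → Matrix (Fin 3) (Fin 3) ℝ)
    (U : InfinitePlace F → Matrix (Fin 3) (Fin 3) ℂ) (r : InfinitePlace F → Fin 3 → ℝ)
    (hP : ∀ w : {w : InfinitePlace F // w.IsReal}, |(P w.1).det| = 1)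
    (hU : ∀ w, ‖(U w).det‖ = 1) :
    volume (TT F P U ⁻¹' bx F r) = volume (bx F r) := by
  have h : MeasurePreserving (TT F P U) volume volume := by
    have h1 : MeasurePreserving
      (fun (a : {w : InfinitePlace F // w.IsReal} → Fin 3 → ℝ) w => (P w.1).mulVec (a w)) :=
      volume_preserving_pi fun w => vpR (P w.1) (hP w)
    have h2 : MeasurePreserving
      (fun (a : {w : InfinitePlace F // w.IsComplex} → Fin 3 → ℂ) w => (U w.1).mulVec (a w)) :=
      volume_preserving_pi fun w => vpC (U w.1) (hU w.1)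
    exact h1.prod h2
  refine h.measure_preimage ?_
  apply MeasurableSet.nullMeasurableSet
  unfold bx
  refine MeasurableSet.prod ?_ ?_
  · exact MeasurableSet.univ_pi fun w => MeasurableSet.univ_pi fun k => measurableSet_closedBall
  · exact MeasurableSet.univ_pi fun w => MeasurableSet.univ_pi fun k => measurableSet_closedBall

end MNKM

open NumberField IsDedekindDomain MeasureTheory Module MNKM in
open scoped Classical in
theorem specMNK : SpecMNK := by
  intro F _ _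
  set D : Set (EE F) := ZSpan.fundamentalDomain (bas F) with hD
  set c : ENNReal := volume D * 2 ^ finrank ℝ (EE F) with hc
  have hcfin : c ≠ ⊤ := by
    rw [hc]
    refine ENNReal.mul_ne_top ?_ (by finiteness)
    exact (ZSpan.fundamentalDomain_isBounded (bas F)).measure_lt_top.ne
  refine ⟨c.toReal + 1, by have := ENNReal.toReal_nonneg (a := c); linarith, ?_⟩
  intro U r hU hr hC
  set P : InfinitePlace F → Matrix (Fin 3) (Fin 3) ℝ := fun v => (U v).map Complex.re with hPdef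
  have hPU : ∀ v : InfinitePlace F, v.IsReal → (P v).map Complex.ofRealHom = U v := by
    intro v hv
    ext i j
    have := (hU v).2 hv i j
    simp only [hPdef, Matrix.map_apply, Complex.ofRealHom_eq_coe]
    exact Complex.ext (by simp) (by simp [this])
  have hP : ∀ w : {w : InfinitePlace F // w.IsReal}, |(P w.1).det| = 1 := by
    intro w
    have h1 := (hU w.1).1
    rw [← hPU w.1 w.2, ← RingHom.mapMatrix_apply, ← RingHom.map_det] at h1
    simpa using h1
  have hvol := vol_body F P U r hP (fun v => (hU v).1)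
  have hlt : volume D * 2 ^ finrank ℝ (EE F) < volume (TT F P U ⁻¹' bx F r) := by
    rw [hvol]
    refine lt_of_lt_of_le ?_ (vol_bx F r hr)
    rw [← hc, ENNReal.lt_ofReal_iff_toReal_lt hcfin]
    linarith
  have i1 : Measure.IsAddHaarMeasure
      (volume : Measure ({w : InfinitePlace F // w.IsReal} → Fin 3 → ℝ)) :=
    Measure.pi.isAddHaarMeasure _
  have i2 : Measure.IsAddHaarMeasure
      (volume : Measure ({w : InfinitePlace F // w.IsComplex} → Fin 3 → ℂ)) :=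
    Measure.pi.isAddHaarMeasure _
  have : Measure.IsAddHaarMeasure (volume : Measure (EE F)) :=
    Measure.prod.instIsAddHaarMeasure volume volume
  have fund : IsAddFundamentalDomain
      (Submodule.span ℤ (Set.range (bas F))).toAddSubgroup D (volume : Measure (EE F)) :=
    ZSpan.isAddFundamentalDomain (bas F) (volume : Measure (EE F))
  have : Countable (Submodule.span ℤ (Set.range (bas F))).toAddSubgroup :=
    inferInstanceAs (Countable (Submodule.span ℤ (Set.range (bas F))))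
  obtain ⟨y, hy0, hy⟩ := exists_ne_zero_mem_lattice_of_measure_mul_two_pow_lt_measure fund
    (symm_body F P U r) (convex_body F P U r) hlt
  obtain ⟨x, hx⟩ := mem_span F (y : EE F) y.2
  refine ⟨x, ?_, ?_⟩
  · rintro rfl
    apply hy0
    rw [imv_zero] at hx
    exact Subtype.ext hx.symm
  · intro v k
    rw [Set.mem_preimage, mem_bx, ← hx] at hy
    by_cases hv : v.IsReal
    · have h1 := hy.1 ⟨v, hv⟩ k
      have h2 : (((TT F P U (imv F x)).1 ⟨v, hv⟩ k : ℝ) : ℂ) =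
          ((U v).mulVec (SEL.em v fun i => (x i : F))) k := by
        rw [← hPU v hv]
        simp [TT, imv, swp, SEL.em, Matrix.mulVec, dotProduct,
          mixedEmbedding.mixedEmbedding_apply_isReal, InfinitePlace.embedding_of_isReal_apply]
      rw [← h2, Complex.norm_real]
      exact h1
    · have hv' : v.IsComplex := InfinitePlace.not_isReal_iff_isComplex.1 hv
      have h1 := hy.2 ⟨v, hv'⟩ k
      have h2 : (TT F P U (imv F x)).2 ⟨v, hv'⟩ k =
          ((U v).mulVec (SEL.em v fun i => (x i : F))) k := by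
        simp [TT, imv, swp, SEL.em, Matrix.mulVec, dotProduct,
          mixedEmbedding.mixedEmbedding_apply_isComplex]
      rw [← h2]
      exact h1

end Pool.Agent.Lib.MP_8cb858_nt.SEL
end

section
/-!
# MP_8cb858_nt, module PRE: integral models of Selmer classes
-/
namespace Pool.Agent.Lib.MP_8cb858_nt.SEL

open NumberField IsDedekindDomain
open scoped Classical

universe u

theorem specPRE (hBAS : SpecBAS.{u}) (hLO3 : SpecLO3.{u}) (hINT : SpecINT.{u})
    (hARC : SpecARC.{u}) (hBCH : SpecBCH.{u}) : SpecPRE.{u} := by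
  intro F _ _ a b c ρ hab hc hρ
  have hab' : 4 * (a : F) ^ 3 + 27 * (b : F) ^ 2 ≠ 0 := by
    intro h
    apply hab
    have : ((4 * a ^ 3 + 27 * b ^ 2 : 𝓞 F) : F) = 0 := by
      push_cast
      exact h
    exact RingOfIntegers.coe_eq_zero_iff.1 this
  obtain ⟨hc1, hc2, hc3, hc4⟩ := hc
  obtain ⟨th, Z, A, B, hth, hZ, hdet, hA, hB, hAs, hBs, hAd⟩ := hBAS F _ _ c hab' hc1 hc2
  obtain ⟨γ, A', B', hγ, hA', hB'⟩ := hINT F A B (fun v =>
    hLO3 F v a b c th Z A B hab hc2 (hc3 v) hth hZ hdet hA hB)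
  obtain ⟨U, hU⟩ := hARC F _ _ c th Z A B ρ hc2 hth hZ hdet hA hB hρ
  have hatt : Att (a : F) (b : F) c A B := ⟨th, hth, Z, hZ, hA, hB⟩
  have hγ0 : γ.det ≠ 0 := by rw [hγ]; exact one_ne_zero
  have h1 := hBCH.1 F _ _ c A B γ hatt hγ0
  have h2 := hBCH.2.1 F A B γ ρ U hU hγ
  have hinj : Function.Injective (algebraMap (𝓞 F) F) := RingOfIntegers.coe_injective
  have hsym : ∀ M : Matrix (Fin 3) (Fin 3) (𝓞 F), (inc M).IsSymm → M.IsSymm := by
    intro M hM
    refine Matrix.ext fun i j => hinj ?_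
    exact hM.apply i j
  rw [← hA', ← hB'] at h1 h2
  obtain ⟨s1, s2, s3, s4⟩ := hBCH.2.2 F _ _ c _ _ h1
  refine ⟨A', B', _, h1, hsym _ s1, hsym _ s2, ?_, h2⟩
  apply hinj
  have h3 : algebraMap (𝓞 F) F A'.det = (inc A').det := by
    unfold inc
    rw [RingHom.map_det]
    rfl
  rw [h3, hA', Matrix.det_mul, Matrix.det_mul, Matrix.det_transpose, hγ, hAd]
  simp

end Pool.Agent.Lib.MP_8cb858_nt.SEL
end

section
/-!
# Module PSH (helper24): compatibility of signs and half points with maps of fields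
-/
set_option autoImplicit false

namespace Pool.Agent.Lib.MP_8cb858_nt.SEL

open NumberField IsDedekindDomain
open scoped Classical

universe u v w

namespace PSHM

theorem fp_eq {K : Type*} [Field K] {a b : K} {th : Fin 3 → K} (h : IsRoots a b th) (j : Fin 3) :
    fp th j = 3 * th j ^ 2 + a := by
  have h1 := h.e1
  have h2 := h.e2
  unfold fp
  fin_cases j
  · show (th 0 - th 1) * (th 0 - th 2) = 3 * th 0 ^ 2 + a
    linear_combination (-2 * th 0) * h1 + h2
  · show (th 1 - th 2) * (th 1 - th 0) = 3 * th 1 ^ 2 + a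
    linear_combination (-2 * th 1) * h1 + h2
  · show (th 2 - th 0) * (th 2 - th 1) = 3 * th 2 ^ 2 + a
    linear_combination (-2 * th 2) * h1 + h2

end PSHM

theorem specPSH : SpecPSH.{u} := by
  intro F K K' _ _ _ _ _ a b th th' i h h' j k hjk
  have hfp : i (fp th j) = fp th' k := by
    rw [PSHM.fp_eq h, PSHM.fp_eq h', map_add, map_mul, map_pow, hjk, AlgHom.commutes, map_ofNat]
  refine ⟨hfp, ?_⟩
  intro S
  cases S with
  | zero =>
    refine ⟨rfl, ?_⟩
    show i 0 = 0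
    exact map_zero i
  | some x y hxy =>
    refine ⟨?_, ?_⟩
    · show (if i x = th' k then (1 : ℤ) else -1) = if x = th j then 1 else -1
      have hi : Function.Injective i := i.toRingHom.injective
      rw [← hjk]
      by_cases hx : x = th j
      · rw [if_pos hx, if_pos (by rw [hx])]
      · rw [if_neg hx, if_neg (fun e => hx (hi e))]
    · show i (((x - th j) ^ 2 - fp th j) / (2 * y)) = ((i x - th' k) ^ 2 - fp th' k) / (2 * i y)
      rw [map_div₀, map_sub, map_pow, map_sub, map_mul, hjk, hfp, map_ofNat]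

end Pool.Agent.Lib.MP_8cb858_nt.SEL
end

section
/-!
# MP_8cb858_nt, module RE1: no short vector, a bounded basis
-/
set_option autoImplicit false

namespace Pool.Agent.Lib.MP_8cb858_nt.SEL

open NumberField IsDedekindDomain
open scoped Classical

universe u

namespace RE1M

/-! ### Norms -/

theorem en_sq (u : Fin 3 → ℂ) : en u ^ 2 = ‖u 0‖ ^ 2 + ‖u 1‖ ^ 2 + ‖u 2‖ ^ 2 := by
  unfold en
  rw [Real.sq_sqrt (Finset.sum_nonneg fun i _ => sq_nonneg _), Fin.sum_univ_three]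

theorem en_nonneg (u : Fin 3 → ℂ) : 0 ≤ en u := Real.sqrt_nonneg _

theorem en_le {u : Fin 3 → ℂ} {c : ℝ} (hc : 0 ≤ c)
    (h : ‖u 0‖ ^ 2 + ‖u 1‖ ^ 2 + ‖u 2‖ ^ 2 ≤ c ^ 2) : en u ≤ c := by
  rw [← en_sq] at h
  exact (sq_le_sq₀ (en_nonneg u) hc).1 h

/-! ### Real vectors -/

theorem im_mul {a b : ℂ} (ha : a.im = 0) (hb : b.im = 0) : (a * b).im = 0 := by
  rw [Complex.mul_im, ha, hb]
  ring

theorem im_mulVec {U : Matrix (Fin 3) (Fin 3) ℂ} {x : Fin 3 → ℂ} (hU : ∀ i j, (U i j).im = 0)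
    (hx : ∀ i, (x i).im = 0) (i : Fin 3) : (U.mulVec x i).im = 0 := by
  change (∑ j, U i j * x j).im = 0
  rw [Complex.im_sum]
  exact Finset.sum_eq_zero fun j _ => im_mul (hU i j) (hx j)

theorem im_mul_mat {U V : Matrix (Fin 3) (Fin 3) ℂ} (hU : ∀ i j, (U i j).im = 0)
    (hV : ∀ i j, (V i j).im = 0) (i j : Fin 3) : ((U * V) i j).im = 0 := by
  rw [Matrix.mul_apply, Complex.im_sum]
  exact Finset.sum_eq_zero fun k _ => im_mul (hU i k) (hV k j)

section

variable {F : Type u} [Field F] [NumberField F]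

omit [NumberField F] in
theorem im_em {v : InfinitePlace F} (hv : v.IsReal) (x : Fin 3 → F) (i : Fin 3) :
    (em v x i).im = 0 := by
  change (v.embedding (x i)).im = 0
  rw [← InfinitePlace.embedding_of_isReal_apply hv]
  exact Complex.ofReal_im _

omit [NumberField F] in
theorem em_add (v : InfinitePlace F) (x y : Fin 3 → F) : em v (x + y) = em v x + em v y := by
  funext i
  exact map_add v.embedding _ _

omit [NumberField F] in
theorem em_smul (v : InfinitePlace F) (c : F) (x : Fin 3 → F) :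
    em v (c • x) = v.embedding c • em v x := by
  funext i
  exact map_mul v.embedding _ _

omit [NumberField F] in
theorem em_zero (v : InfinitePlace F) : em v (0 : Fin 3 → F) = 0 := by
  funext i
  exact map_zero v.embedding

omit [NumberField F] in
theorem em_cross (v : InfinitePlace F) (x y : Fin 3 → F) :
    crossProduct (em v x) (em v y) = em v (crossProduct x y) := by
  rw [cross_apply, cross_apply]
  funext i
  fin_cases i <;> simp [em]

omit [NumberField F] in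
/-- independence is preserved by embeddings and invertible matrices -/
theorem indep {v : InfinitePlace F} {x y : Fin 3 → F} (h : LinearIndependent F ![x, y])
    {U : Matrix (Fin 3) (Fin 3) ℂ} (hU : U.det ≠ 0) :
    LinearIndependent ℂ ![U.mulVec (em v x), U.mulVec (em v y)] := by
  have h1 : LinearIndependent ℂ ![em v x, em v y] := by
    rw [← crossProduct_ne_zero_iff_linearIndependent, em_cross]
    rw [← crossProduct_ne_zero_iff_linearIndependent] at h
    intro h2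
    apply h
    funext i
    have h3 := congrFun h2 i
    exact (map_eq_zero v.embedding).1 h3
  have hinj : Function.Injective U.mulVecLin := by
    rw [← LinearMap.ker_eq_bot, LinearMap.ker_eq_bot']
    intro w hw
    by_contra hne
    exact hU (Matrix.exists_mulVec_eq_zero_iff.1 ⟨w, hne, hw⟩)
  have h2 := h1.map' U.mulVecLin (LinearMap.ker_eq_bot.2 hinj)
  have e : U.mulVecLin ∘ ![em v x, em v y] = ![U.mulVec (em v x), U.mulVec (em v y)] := by
    funext i
    fin_cases i <;> rfl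
  rw [← e]
  exact h2

variable (F) in
theorem prod_mult (c : ℝ) : ∏ v : InfinitePlace F, c ^ v.mult = c ^ Module.finrank ℚ F := by
  rw [Finset.prod_pow_eq_pow_sum, InfinitePlace.sum_mult_eq]

variable (F) in
theorem le_prod {c C : ℝ} (hC : 1 ≤ C) (hc : C ≤ c) :
    C ≤ ∏ v : InfinitePlace F, c ^ v.mult := by
  rw [prod_mult]
  have h1 : Module.finrank ℚ F ≠ 0 := (Module.finrank_pos).ne'
  exact hc.trans (le_self_pow₀ (hC.trans hc) h1)

/-- frame and Minkowski -/
theorem frame_mink (hMNK : SpecMNK.{u}) (hFRM : SpecFRM) : ∃ C : ℝ, 1 ≤ C ∧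
    ∀ (U : InfinitePlace F → Matrix (Fin 3) (Fin 3) ℂ) (x y : Fin 3 → F) (r : Fin 3 → ℝ),
    (∀ v, ‖(U v).det‖ = 1 ∧ (v.IsReal → ∀ i j, (U v i j).im = 0)) →
    LinearIndependent F ![x, y] → (∀ k, 0 < r k) → C ≤ r 0 * r 1 * r 2 →
    ∃ z : Fin 3 → 𝓞 F, z ≠ 0 ∧ ∀ v, ∃ Q : Matrix (Fin 3) (Fin 3) ℂ,
      (∀ w, en (Q.mulVec w) = en w) ∧
      (Q.mulVec ((U v).mulVec (em v x))) 1 = 0 ∧ (Q.mulVec ((U v).mulVec (em v x))) 2 = 0 ∧
      (Q.mulVec ((U v).mulVec (em v y))) 2 = 0 ∧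
      ∀ k, ‖(Q.mulVec ((U v).mulVec (em v fun i => (z i : F)))) k‖ ≤ r k := by
  obtain ⟨C, hC, hM⟩ := hMNK F
  refine ⟨C, hC, fun U x y r hU hxy hr hCr => ?_⟩
  have hdet : ∀ v, (U v).det ≠ 0 := by
    intro v h0
    have := (hU v).1
    rw [h0, norm_zero] at this
    exact zero_ne_one this
  choose Q hQ1 hQ2 hQ3 hQ4 hQ5 hQ6 using fun v => hFRM.2 _ _ (indep (v := v) hxy (hdet v))
  obtain ⟨z, hz, hz'⟩ := hM (fun v => Q v * U v) (fun _ => r) (by
    intro v
    refine ⟨?_, fun hv => ?_⟩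
    · rw [Matrix.det_mul, norm_mul, hQ1, (hU v).1, one_mul]
    · exact im_mul_mat (hQ6 v (im_mulVec ((hU v).2 hv) (im_em hv x))
        (im_mulVec ((hU v).2 hv) (im_em hv y))) ((hU v).2 hv)) (fun _ => hr)
    (le_prod F hC hCr)
  refine ⟨z, hz, fun v => ⟨Q v, hQ2 v, hQ3 v, hQ4 v, hQ5 v, fun k => ?_⟩⟩
  have := hz' v k
  rwa [← Matrix.mulVec_mulVec] at this

omit [NumberField F] in
theorem toF_ne {x : Fin 3 → 𝓞 F} (hx : x ≠ 0) : (fun i => (x i : F)) ≠ 0 := by
  intro h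
  apply hx
  funext i
  have := congrFun h i
  exact RingOfIntegers.coe_eq_zero_iff.1 this

end

end RE1M

open RE1M

theorem specRE1 (hMNK : SpecMNK.{u}) (hFRM : SpecFRM) : SpecRE1.{u} := by
  intro F _ _ C0
  obtain ⟨C1, hC1, hG⟩ := frame_mink (F := F) hMNK hFRM
  refine ⟨max C0 (8 * C1), (by linarith : (1 : ℝ) ≤ 8 * C1).trans (le_max_right _ _), ?_⟩
  intro U x1 hU hx1 hx1C hmin
  have hx1F := toF_ne hx1
  -- an auxiliary independent vector
  obtain ⟨w, hw⟩ : ∃ w : Fin 3 → F, LinearIndependent F ![fun i => (x1 i : F), w] := by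
    by_contra hcon
    push Not at hcon
    have h1 : ∀ w : Fin 3 → F, crossProduct (fun i => (x1 i : F)) w = 0 := by
      intro w
      by_contra hne
      exact hcon w (crossProduct_ne_zero_iff_linearIndependent.1 hne)
    apply hx1F
    have h2 := h1 (Pi.single 0 1)
    have h3 := h1 (Pi.single 1 1)
    rw [cross_apply] at h2 h3
    have a1 := congrFun h2 1
    have a2 := congrFun h2 2
    have a3 := congrFun h3 2
    simp at a1 a2 a3
    funext i
    fin_cases i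
    · simpa using a3
    · simpa using a2
    · simpa using a1
  -- the second vector
  obtain ⟨x2, hx2, hQ⟩ := hG U _ w ![1 / 2, 2 * C1, 2 * C1] hU hw (by
    intro k
    fin_cases k
    · norm_num
    · change 0 < 2 * C1
      linarith
    · change 0 < 2 * C1
      linarith) (by
    change C1 ≤ 1 / 2 * (2 * C1) * (2 * C1)
    nlinarith)
  have hx2C : ∀ v, en ((U v).mulVec (em v fun i => (x2 i : F))) ≤ 8 * C1 := by
    intro v
    obtain ⟨Q, q1, q2, q3, q4, q5⟩ := hQ v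
    rw [← q1]
    apply en_le (by linarith)
    have h0 := q5 0
    have h1 := q5 1
    have h2 := q5 2
    change _ ≤ (1 / 2 : ℝ) at h0
    change _ ≤ 2 * C1 at h1
    change _ ≤ 2 * C1 at h2
    nlinarith [norm_nonneg ((Q.mulVec ((U v).mulVec (em v fun i => (x2 i : F)))) 0),
      norm_nonneg ((Q.mulVec ((U v).mulVec (em v fun i => (x2 i : F)))) 1),
      norm_nonneg ((Q.mulVec ((U v).mulVec (em v fun i => (x2 i : F)))) 2)]
  have hind : LinearIndependent F ![fun i => (x1 i : F), fun i => (x2 i : F)] := by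
    rw [LinearIndependent.pair_iff' hx1F]
    intro a ha
    obtain ⟨v, hv⟩ := hmin x2 hx2
    obtain ⟨Q, q1, q2, q3, q4, q5⟩ := hQ v
    have h1 : Q.mulVec ((U v).mulVec (em v fun i => (x2 i : F))) =
        v.embedding a • Q.mulVec ((U v).mulVec (em v fun i => (x1 i : F))) := by
      rw [← ha, em_smul, Matrix.mulVec_smul, Matrix.mulVec_smul]
    have h2 : en ((U v).mulVec (em v fun i => (x2 i : F))) ≤ 1 / 2 := by
      rw [← q1]
      apply en_le (by norm_num)
      have e1 : (Q.mulVec ((U v).mulVec (em v fun i => (x2 i : F)))) 1 = 0 := by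
        rw [h1, Pi.smul_apply, q2, smul_zero]
      have e2 : (Q.mulVec ((U v).mulVec (em v fun i => (x2 i : F)))) 2 = 0 := by
        rw [h1, Pi.smul_apply, q3, smul_zero]
      have e0 := q5 0
      change _ ≤ (1 / 2 : ℝ) at e0
      rw [e1, e2, norm_zero]
      nlinarith [norm_nonneg ((Q.mulVec ((U v).mulVec (em v fun i => (x2 i : F)))) 0)]
    linarith
  -- the third vector
  obtain ⟨x3, hx3, hQ3⟩ := hG U _ _ ![1 / 2, 1 / 2, 4 * C1] hU hind (by
    intro k
    fin_cases k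
    · norm_num
    · norm_num
    · change 0 < 4 * C1
      linarith) (by
    change C1 ≤ 1 / 2 * (1 / 2) * (4 * C1)
    nlinarith)
  have hx3C : ∀ v, en ((U v).mulVec (em v fun i => (x3 i : F))) ≤ 8 * C1 := by
    intro v
    obtain ⟨Q, q1, q2, q3, q4, q5⟩ := hQ3 v
    rw [← q1]
    apply en_le (by linarith)
    have h0 := q5 0
    have h1 := q5 1
    have h2 := q5 2
    change _ ≤ (1 / 2 : ℝ) at h0
    change _ ≤ (1 / 2 : ℝ) at h1
    change _ ≤ 4 * C1 at h2
    nlinarith [norm_nonneg ((Q.mulVec ((U v).mulVec (em v fun i => (x3 i : F)))) 0),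
      norm_nonneg ((Q.mulVec ((U v).mulVec (em v fun i => (x3 i : F)))) 1),
      norm_nonneg ((Q.mulVec ((U v).mulVec (em v fun i => (x3 i : F)))) 2)]
  refine ⟨Matrix.of fun i j => ![x1, x2, x3] j i, ?_, ?_⟩
  · intro hdet
    have hdetF : (Matrix.map (Matrix.of fun i j => ![x1, x2, x3] j i : Matrix (Fin 3) (Fin 3) (𝓞 F))
        (algebraMap (𝓞 F) F)).det = 0 := by
      have := congrArg (algebraMap (𝓞 F) F) hdet
      rw [map_zero, RingHom.map_det] at this
      exact this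
    obtain ⟨c, hc0, hc⟩ := Matrix.exists_mulVec_eq_zero_iff.2 hdetF
    have hrel : c 0 • (fun i => (x1 i : F)) + c 1 • (fun i => (x2 i : F)) +
        c 2 • (fun i => (x3 i : F)) = 0 := by
      funext i
      have h1 := congrFun hc i
      rw [Matrix.mulVec, dotProduct, Fin.sum_univ_three] at h1
      simp only [Pi.add_apply, Pi.smul_apply, smul_eq_mul, Pi.zero_apply]
      change (x1 i : F) * c 0 + (x2 i : F) * c 1 + (x3 i : F) * c 2 = 0 at h1
      rw [← h1]
      ring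
    by_cases h2 : c 2 = 0
    · rw [h2, zero_smul, add_zero] at hrel
      obtain ⟨e0, e1⟩ := LinearIndependent.pair_iff.1 hind _ _ hrel
      apply hc0
      funext i
      fin_cases i
      · exact e0
      · exact e1
      · exact h2
    · obtain ⟨v, hv⟩ := hmin x3 hx3
      obtain ⟨Q, q1, q2, q3, q4, q5⟩ := hQ3 v
      have h3 : v.embedding (c 0) • Q.mulVec ((U v).mulVec (em v fun i => (x1 i : F))) +
          v.embedding (c 1) • Q.mulVec ((U v).mulVec (em v fun i => (x2 i : F))) +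
          v.embedding (c 2) • Q.mulVec ((U v).mulVec (em v fun i => (x3 i : F))) = 0 := by
        rw [← Matrix.mulVec_smul, ← Matrix.mulVec_smul, ← Matrix.mulVec_smul,
          ← Matrix.mulVec_smul, ← Matrix.mulVec_smul, ← Matrix.mulVec_smul, ← em_smul, ← em_smul,
          ← em_smul, ← Matrix.mulVec_add, ← Matrix.mulVec_add, ← Matrix.mulVec_add,
          ← Matrix.mulVec_add, ← em_add, ← em_add, hrel, em_zero, Matrix.mulVec_zero,
          Matrix.mulVec_zero]
      have h4 := congrFun h3 2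
      simp only [Pi.add_apply, Pi.smul_apply, q3, q4, mul_zero, zero_add, Pi.zero_apply,
        smul_eq_mul] at h4
      have h5 : (Q.mulVec ((U v).mulVec (em v fun i => (x3 i : F)))) 2 = 0 := by
        rcases mul_eq_zero.1 h4 with h | h
        · exact absurd ((map_eq_zero v.embedding).1 h) h2
        · exact h
      have h6 : en ((U v).mulVec (em v fun i => (x3 i : F))) ≤ 3 / 4 := by
        rw [← q1]
        apply en_le (by norm_num)
        have e0 := q5 0
        have e1 := q5 1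
        change _ ≤ (1 / 2 : ℝ) at e0
        change _ ≤ (1 / 2 : ℝ) at e1
        rw [h5, norm_zero]
        nlinarith [norm_nonneg ((Q.mulVec ((U v).mulVec (em v fun i => (x3 i : F)))) 0),
          norm_nonneg ((Q.mulVec ((U v).mulVec (em v fun i => (x3 i : F)))) 1)]
      linarith
  · intro v j
    fin_cases j
    · exact (hx1C v).trans (le_max_left _ _)
    · exact (hx2C v).trans (le_max_right _ _)
    · exact (hx3C v).trans (le_max_right _ _)

end Pool.Agent.Lib.MP_8cb858_nt.SEL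
end

section
/-!
# Module SLA: strong approximation for `SL_3` at one finite place
-/
namespace Pool.Agent.Lib.MP_8cb858_nt.SEL

open NumberField IsDedekindDomain
open scoped Classical

universe u w

namespace SLAM

section alg

variable {K : Type*} [Field K]

/-- The diagonal matrix `diag (q, q⁻¹, 1)` as a product of transvections. -/
lemma diag01 (q : K) (hq : q ≠ 0) :
    Matrix.diagonal ![q, q⁻¹, 1] =
      (Matrix.transvection 0 1 q * Matrix.transvection 1 0 (-q⁻¹) * Matrix.transvection 0 1 q) *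
      (Matrix.transvection 0 1 (-1) * Matrix.transvection 1 0 1 *
        Matrix.transvection 0 1 (-1 : K)) := by
  ext i j
  fin_cases i <;> fin_cases j <;>
    simp [Matrix.transvection, Matrix.mul_apply, Fin.sum_univ_three, Matrix.add_apply,
      Matrix.single_apply, Matrix.one_apply, hq]

/-- The diagonal matrix `diag (1, q, q⁻¹)` as a product of transvections. -/
lemma diag12 (q : K) (hq : q ≠ 0) :
    Matrix.diagonal ![1, q, q⁻¹] =
      (Matrix.transvection 1 2 q * Matrix.transvection 2 1 (-q⁻¹) * Matrix.transvection 1 2 q) *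
      (Matrix.transvection 1 2 (-1) * Matrix.transvection 2 1 1 *
        Matrix.transvection 1 2 (-1 : K)) := by
  ext i j
  fin_cases i <;> fin_cases j <;>
    simp [Matrix.transvection, Matrix.mul_apply, Fin.sum_univ_three, Matrix.add_apply,
      Matrix.single_apply, Matrix.one_apply, hq]

/-- A submonoid of `M_3(K)` containing all transvections contains all matrices of
determinant one. -/
lemma mem_of_det_one (S : Submonoid (Matrix (Fin 3) (Fin 3) K))
    (h : ∀ i j : Fin 3, i ≠ j → ∀ x : K, Matrix.transvection i j x ∈ S)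
    (g : Matrix (Fin 3) (Fin 3) K) (hg : g.det = 1) : g ∈ S := by
  obtain ⟨L, L', D, hD⟩ :=
    Matrix.Pivot.exists_list_transvec_mul_diagonal_mul_list_transvec g
  have hL : ∀ L : List (Matrix.TransvectionStruct (Fin 3) K),
      (L.map Matrix.TransvectionStruct.toMatrix).prod ∈ S := by
    intro L
    apply Submonoid.list_prod_mem
    intro x hx
    rw [List.mem_map] at hx
    obtain ⟨t, _, rfl⟩ := hx
    exact h _ _ t.hij t.c
  have hdet : D 0 * D 1 * D 2 = 1 := by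
    have := hg
    rw [hD, Matrix.det_mul, Matrix.det_mul, Matrix.TransvectionStruct.det_toMatrix_prod,
      Matrix.TransvectionStruct.det_toMatrix_prod, Matrix.det_diagonal, Fin.prod_univ_three] at this
    simpa using this
  have h0 : D 0 ≠ 0 := by
    intro h0
    simp [h0] at hdet
  have h1 : D 1 ≠ 0 := by
    intro h0
    simp [h0] at hdet
  have hDD : Matrix.diagonal D =
      Matrix.diagonal ![D 0, (D 0)⁻¹, 1] * Matrix.diagonal ![1, D 0 * D 1, (D 0 * D 1)⁻¹] := by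
    rw [Matrix.diagonal_mul_diagonal]
    congr 1
    funext i
    fin_cases i
    · simp
    · simp [h0]
    · have h2 : D 2 = (D 0 * D 1)⁻¹ := by
        apply eq_inv_of_mul_eq_one_left
        linear_combination hdet
      simp [h2]
  rw [hD]
  refine S.mul_mem (S.mul_mem (hL L) ?_) (hL L')
  rw [hDD, diag01 _ h0, diag12 _ (mul_ne_zero h0 h1)]
  refine S.mul_mem (S.mul_mem (S.mul_mem (S.mul_mem ?_ ?_) ?_) (S.mul_mem (S.mul_mem ?_ ?_) ?_))
    (S.mul_mem (S.mul_mem (S.mul_mem ?_ ?_) ?_) (S.mul_mem (S.mul_mem ?_ ?_) ?_))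
  all_goals exact h _ _ (by decide) _

end alg

section nt

variable {F : Type u} [Field F] [NumberField F]

/-- The elements of `F` which are integral outside `v`. -/
def Dset (v : HeightOneSpectrum (𝓞 F)) : Set F :=
  {x | ∀ w : HeightOneSpectrum (𝓞 F), w ≠ v → w.valuation F x ≤ 1}

/-- Approximation at `v` of an element of `F` by elements integral outside `v`. -/
lemma exists_approx (v : HeightOneSpectrum (𝓞 F)) (x : F) (γ : WithZero (Multiplicative ℤ))
    (hγ : γ ≠ 0) : ∃ y ∈ Dset v, v.valuation F (y - x) < γ := by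
  rcases eq_or_ne x 0 with rfl | hx
  · refine ⟨0, fun w _ => by simp, ?_⟩
    simpa using zero_lt_iff.mpr hγ
  have hfin : (HeightOneSpectrum.Support (𝓞 F) x).Finite :=
    HeightOneSpectrum.Support.finite (𝓞 F) x
  -- exponents
  have hexp : ∀ w : HeightOneSpectrum (𝓞 F), ∃ n : ℕ,
      WithZero.exp (-(n : ℤ)) < (w.valuation F x)⁻¹ ∧
      WithZero.exp (-(n : ℤ)) < γ * (w.valuation F x)⁻¹ := by
    intro w
    have hvx : w.valuation F x ≠ 0 := (Valuation.ne_zero_iff _).mpr hx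
    obtain ⟨n, hn1, hn2⟩ := WithZero.exists_exp_neg_natCast_lt_and_lt
      (inv_ne_zero hvx) (mul_ne_zero hγ (inv_ne_zero hvx))
    exact ⟨n, hn1, hn2⟩
  choose e he1 he2 using hexp
  set s : Finset (HeightOneSpectrum (𝓞 F)) := insert v hfin.toFinset with hs
  obtain ⟨y, hy⟩ := IsDedekindDomain.exists_forall_sub_mem_ideal (s := s)
    (fun w : HeightOneSpectrum (𝓞 F) => w.asIdeal) e
    (fun w _ => w.prime) (fun w _ w' _ hne h => hne (HeightOneSpectrum.ext h))
    (fun w => if (w : HeightOneSpectrum (𝓞 F)) = v then 1 else 0)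
  refine ⟨(y : F) * x, ?_, ?_⟩
  · intro w hw
    rw [map_mul]
    by_cases hwx : w ∈ HeightOneSpectrum.Support (𝓞 F) x
    · have hws : w ∈ s := by
        rw [hs, Finset.mem_insert]
        right
        exact hfin.mem_toFinset.mpr hwx
      have h1 := hy w hws
      simp only [if_neg hw, sub_zero] at h1
      rw [← HeightOneSpectrum.intValuation_le_pow_iff_mem] at h1
      rw [HeightOneSpectrum.valuation_of_algebraMap]
      have hvx : w.valuation F x ≠ 0 := (Valuation.ne_zero_iff _).mpr hx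
      have h2 := (h1.trans_lt (he1 w)).le
      calc w.intValuation y * w.valuation F x
          ≤ (w.valuation F x)⁻¹ * w.valuation F x := mul_le_mul_left h2 _
        _ = 1 := inv_mul_cancel₀ hvx
    · have h1 : w.valuation F x ≤ 1 := not_lt.mp hwx
      have h2 : w.valuation F (y : F) ≤ 1 := w.valuation_le_one y
      exact mul_le_one' h2 h1
  · have hvs : v ∈ s := by
      rw [hs, Finset.mem_insert]
      left; rfl
    have h1 := hy v hvs
    simp only [if_true] at h1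
    rw [← HeightOneSpectrum.intValuation_le_pow_iff_mem] at h1
    have h3 : (y : F) * x - x = ((y - 1 : 𝓞 F) : F) * x := by
      push_cast
      ring
    rw [h3, map_mul, HeightOneSpectrum.valuation_of_algebraMap]
    have hvx : v.valuation F x ≠ 0 := (Valuation.ne_zero_iff _).mpr hx
    have h2 := h1.trans_lt (he2 v)
    calc v.intValuation (y - 1) * v.valuation F x
        < γ * (v.valuation F x)⁻¹ * v.valuation F x := by
          exact mul_lt_mul_of_pos_right h2 (zero_lt_iff.mpr hvx)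
      _ = γ := by rw [mul_assoc, inv_mul_cancel₀ hvx, mul_one]

lemma dense_D (v : HeightOneSpectrum (𝓞 F)) :
    Dense ((algebraMap F (v.adicCompletion F)) '' Dset v) := by
  have h1 : Set.range (algebraMap F (v.adicCompletion F)) ⊆
      closure ((algebraMap F (v.adicCompletion F)) '' Dset v) := by
    rintro _ ⟨x, rfl⟩
    rw [mem_closure_iff_nhds]
    intro t ht
    rw [Valued.mem_nhds] at ht
    obtain ⟨γ, hγ⟩ := ht
    obtain ⟨y, hyD, hy⟩ := exists_approx v x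
      (MonoidWithZeroHom.ValueGroup₀.embedding (γ : MonoidWithZeroHom.ValueGroup₀
        (.ofClass (Valued.v (R := v.adicCompletion F))))) (by simp)
    refine ⟨algebraMap F _ y, hγ ?_, ⟨y, hyD, rfl⟩⟩
    rw [Set.mem_ofPred_eq, Valuation.restrict_lt_iff_lt_embedding, ← map_sub]
    have h2 := HeightOneSpectrum.valuedAdicCompletion_eq_valuation' (R := 𝓞 F) v (y - x)
    exact h2.trans_lt hy
  have h2 : DenseRange (algebraMap F (v.adicCompletion F)) :=
    HeightOneSpectrum.denseRange_algebraMap F v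
  have h3 : closure (Set.range (algebraMap F (v.adicCompletion F))) ⊆
      closure ((algebraMap F (v.adicCompletion F)) '' Dset v) :=
    closure_minimal h1 isClosed_closure
  intro x
  exact h3 (h2 x)

/-- The submonoid of the matrices of determinant one with entries integral outside `v`. -/
def SLD (v : HeightOneSpectrum (𝓞 F)) : Submonoid (Matrix (Fin 3) (Fin 3) F) where
  carrier := {γ | γ.det = 1 ∧ ∀ i j, γ i j ∈ Dset v}
  one_mem' := by
    refine ⟨Matrix.det_one, fun i j w hw => ?_⟩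
    rw [Matrix.one_apply]
    split_ifs <;> simp
  mul_mem' := by
    rintro a b ⟨ha, ha'⟩ ⟨hb, hb'⟩
    refine ⟨by rw [Matrix.det_mul, ha, hb, one_mul], fun i j w hw => ?_⟩
    rw [Matrix.mul_apply]
    refine Valuation.map_sum_le _ fun k _ => ?_
    rw [map_mul]
    exact mul_le_one' (ha' i k w hw) (hb' k j w hw)

lemma continuous_transvection {R : Type*} [CommRing R] [TopologicalSpace R] [ContinuousAdd R]
    (i j : Fin 3) : Continuous fun x : R => Matrix.transvection i j x := by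
  unfold Matrix.transvection
  refine continuous_const.add ?_
  refine continuous_matrix fun k l => ?_
  simp only [Matrix.single_apply]
  by_cases h : i = k ∧ j = l
  · simp only [if_pos h]; exact continuous_id
  · simp only [if_neg h]; exact continuous_const

end nt

end SLAM

open SLAM in
theorem specSLA : SpecSLA.{u} := by
  intro F _ _ v g hg
  let f : Matrix (Fin 3) (Fin 3) F →* Matrix (Fin 3) (Fin 3) (v.adicCompletion F) :=
    RingHom.toMonoidHom ((algebraMap F (v.adicCompletion F)).mapMatrix)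
  let S : Submonoid (Matrix (Fin 3) (Fin 3) (v.adicCompletion F)) := (SLD v).map f
  have hT : ∀ i j : Fin 3, i ≠ j → ∀ x : v.adicCompletion F,
      Matrix.transvection i j x ∈ S.topologicalClosure := by
    intro i j hij x
    have hx : x ∈ closure ((algebraMap F (v.adicCompletion F)) '' Dset v) := dense_D v x
    have := map_mem_closure (t := (S : Set (Matrix (Fin 3) (Fin 3) (v.adicCompletion F))))
      (continuous_transvection (R := v.adicCompletion F) i j) hx ?_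
    · exact this
    · rintro _ ⟨y, hy, rfl⟩
      refine ⟨Matrix.transvection i j y, ⟨Matrix.det_transvection_of_ne i j hij y, ?_⟩, ?_⟩
      · intro k l w hw
        rw [Matrix.transvection, Matrix.add_apply]
        refine (Valuation.map_add _ _ _).trans (max_le ?_ ?_)
        · rw [Matrix.one_apply]
          split_ifs <;> simp
        · rw [Matrix.single_apply]
          split_ifs
          · exact hy w hw
          · simp
      · change (Matrix.transvection i j y).map (algebraMap F (v.adicCompletion F)) = _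
        ext k l
        simp only [Matrix.transvection, Matrix.map_apply, Matrix.add_apply, Matrix.one_apply,
          Matrix.single_apply, map_add]
        split_ifs <;> simp
  have hg' : g ∈ S.topologicalClosure := mem_of_det_one _ hT g hg
  have hg'' : g ∈ closure (S : Set (Matrix (Fin 3) (Fin 3) (v.adicCompletion F))) := hg'
  let I : Subring (v.adicCompletion F) :=
    (Valued.v : Valuation (v.adicCompletion F) (WithZero (Multiplicative ℤ))).integer
  let U : Set (Matrix (Fin 3) (Fin 3) (v.adicCompletion F)) :=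
    {M | ∀ i j, (g.adjugate * M) i j ∈ I}
  have hU : IsOpen U := by
    have : U = ⋂ i, ⋂ j, {M | (g.adjugate * M) i j ∈ I} := by
      ext M; simp [U]
    rw [this]
    refine isOpen_iInter_of_finite fun i => isOpen_iInter_of_finite fun j => ?_
    refine (Valued.isOpen_integer (v.adicCompletion F)).preimage ?_
    exact (continuous_const.matrix_mul continuous_id).matrix_elem i j
  have hgU : g ∈ U := by
    intro i j
    rw [Matrix.adjugate_mul, hg, one_smul, Matrix.one_apply]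
    split_ifs
    · exact Subring.one_mem _
    · exact Subring.zero_mem _
  obtain ⟨M, hMU, hMS⟩ := mem_closure_iff.mp hg'' U hU hgU
  obtain ⟨γ, ⟨hγ1, hγ2⟩, rfl⟩ := hMS
  exact ⟨γ, hγ1, fun w hw i j => hγ2 i j w hw, fun i j => hMU i j⟩

end Pool.Agent.Lib.MP_8cb858_nt.SEL
end

section
/-!
# TOT: the total number of nontrivial Selmer elements over a box
-/
namespace Pool.Agent.Lib.MP_8cb858_nt.SEL

open NumberField IsDedekindDomain
open scoped Classical

universe u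

namespace TOTM

/-- the class `z` has the model `P` -/
def Rl {F : Type u} [Field F] [NumberField F]
    (z : Σ q : 𝓞 F × 𝓞 F, Sel 2 (curve (q.1 : F) (q.2 : F)))
    (P : Matrix (Fin 3) (Fin 3) (𝓞 F) × Matrix (Fin 3) (Fin 3) (𝓞 F)) : Prop :=
  ∃ c : Cocycles 2 (curve (z.1.1 : F) (z.1.2 : F)), (QuotientAddGroup.mk c : Sel 2 _) = z.2 ∧
    Att (z.1.1 : F) (z.1.2 : F) (c : Gal F → Pt _ (AlgebraicClosure F)) (inc P.1) (inc P.2)

theorem uniq (hINJ : SpecINJ.{u}) {F : Type u} [Field F] [NumberField F]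
    (z z' : Σ q : 𝓞 F × 𝓞 F, Sel 2 (curve (q.1 : F) (q.2 : F)))
    (P : Matrix (Fin 3) (Fin 3) (𝓞 F) × Matrix (Fin 3) (Fin 3) (𝓞 F))
    (h : Rl z P) (h' : Rl z' P) : z = z' := by
  obtain ⟨⟨a, b⟩, ξ⟩ := z
  obtain ⟨⟨a', b'⟩, ξ'⟩ := z'
  obtain ⟨c, hc, hA⟩ := h
  obtain ⟨c', hc', hA'⟩ := h'
  obtain ⟨h1, h2⟩ := (hINJ F).1 _ _ _ _ _ _ _ _ hA hA'
  have h1' : a = a' := RingOfIntegers.ext h1
  have h2' : b = b' := RingOfIntegers.ext h2
  subst h1'
  subst h2'
  have h3 := (hINJ F).2 _ _ _ _ _ _ c.2.2.1 c'.2.2.1 hA hA'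
  have h4 : ξ = ξ' := by
    simp only at hc hc'
    rw [← hc, ← hc', QuotientAddGroup.eq_iff_sub_mem, AddSubgroup.mem_addSubgroupOf]
    exact h3
  rw [h4]

theorem lemA {α β : Type*} (S : Set α) (R : Set β) (r : α → β → Prop)
    (hr : ∀ z ∈ S, ∀ z' ∈ S, ∀ P, r z P → r z' P → z = z') (h : ∀ z ∈ S, ∃ P ∈ R, r z P)
    (hR : R.Finite) : S.Finite ∧ S.ncard ≤ R.ncard := by
  rcases S.eq_empty_or_nonempty with hS | ⟨z₀, hz₀⟩
  · subst hS
    exact ⟨Set.finite_empty, by simp⟩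
  obtain ⟨P₀, hP₀, _⟩ := h z₀ hz₀
  let f : α → β := fun z => if hz : z ∈ S then (h z hz).choose else P₀
  have hf : ∀ z ∈ S, f z ∈ R ∧ r z (f z) := by
    intro z hz
    simp only [f]
    rw [dif_pos hz]
    exact (h z hz).choose_spec
  have hinj : Set.InjOn f S := by
    intro z hz z' hz' hzz
    have h1 := (hf z hz).2
    have h2 := (hf z' hz').2
    rw [← hzz] at h2
    exact hr z hz z' hz' _ h1 h2
  exact ⟨Set.Finite.of_injOn (fun z hz => (hf z hz).1) hinj hR,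
    Set.ncard_le_ncard_of_injOn f (fun z hz => (hf z hz).1) hinj hR⟩

theorem lemB {α β γ : Type*} (S : Set α) (R : Set β) (Q : Set γ) (r : α → β → Prop)
    (hr : ∀ z ∈ S, ∀ z' ∈ S, ∀ P, r z P → r z' P → z = z')
    (h : ∀ z ∈ S, ∃ Φ : γ → β, Set.InjOn Φ Q ∧ ∀ q ∈ Q, Φ q ∈ R ∧ r z (Φ q))
    (hR : R.Finite) (hQ : Q.Nonempty) : S.Finite ∧ S.ncard * Q.ncard ≤ R.ncard := by
  obtain ⟨q₀, hq₀⟩ := hQ
  have h1 := lemA S R r hr (fun z hz => by
    obtain ⟨Φ, _, h2⟩ := h z hz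
    exact ⟨Φ q₀, h2 q₀ hq₀⟩) hR
  refine ⟨h1.1, ?_⟩
  rcases S.eq_empty_or_nonempty with hS | ⟨z₀, hz₀⟩
  · subst hS
    simp
  rw [← Set.ncard_prod]
  have hne : Nonempty β := ⟨(h z₀ hz₀).choose q₀⟩
  choose! Φ hΦ using h
  refine (lemA (S ×ˢ Q) R (fun x P => Φ x.1 x.2 = P) ?_ ?_ hR).2
  · rintro ⟨z, q⟩ hz ⟨z', q'⟩ hz' P hP hP'
    rw [Set.mem_prod] at hz hz'
    simp only at hz hz' hP hP'
    have h2 := ((hΦ z hz.1).2 q hz.2).2
    have h3 := ((hΦ z' hz'.1).2 q' hz'.2).2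
    rw [hP] at h2
    rw [hP'] at h3
    have h4 := hr z hz.1 z' hz'.1 P h2 h3
    subst h4
    have h5 := (hΦ z hz.1).1 hz.2 hz'.2 (hP.trans hP'.symm)
    rw [h5]
  · rintro ⟨z, q⟩ hz
    rw [Set.mem_prod] at hz
    exact ⟨_, ((hΦ z hz.1).2 q hz.2).1, rfl⟩

theorem vol_two (F : Type u) [Field F] [NumberField F] (k : ℕ) :
    (2 : ℝ) ^ k ≤ vol (F := F) (fun _ => 2 ^ k) := by
  unfold vol
  rw [Finset.prod_pow_eq_pow_sum, InfinitePlace.sum_mult_eq]
  have h1 : (1 : ℝ) ≤ 2 ^ k := one_le_pow₀ (by norm_num)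
  have h2 : 1 ≤ Module.finrank ℚ F := Module.finrank_pos
  calc (2 : ℝ) ^ k = (2 ^ k) ^ 1 := by rw [pow_one]
    _ ≤ (2 ^ k) ^ Module.finrank ℚ F := pow_le_pow_right₀ h1 h2

end TOTM

open TOTM in
theorem specTOT (hCLS : SpecCLS.{u}) (hINJ : SpecINJ.{u}) (hBX1 : SpecBX1.{u})
    (hBX2 : SpecBX2.{u}) (hCNL : SpecCNL.{u}) : SpecTOT.{u} := by
  intro F _ _
  obtain ⟨C, hC1, hC⟩ := hCLS F
  obtain ⟨C₁, hC₁, hB1⟩ := hBX1 F C hC1
  obtain ⟨C₂, hC₂, hB2⟩ := hBX2 F C hC1
  obtain ⟨c, hc, hL⟩ := hCNL F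
  refine ⟨C₁ + 2 * C₂ / c, by positivity, ?_⟩
  intro ρ hρ
  obtain ⟨hR1f, hR1⟩ := hB1 ρ hρ
  obtain ⟨hR2, K, hK⟩ := hB2 ρ hρ
  set T : Set (Σ q : 𝓞 F × 𝓞 F, Sel 2 (curve (q.1 : F) (q.2 : F))) :=
    {z | z.1 ∈ Bx F ρ ∧ z.2 ≠ 0} with hTdef
  let Q : ℕ → Set (𝓞 F) := fun k => {q | ∀ v : InfinitePlace F, v (q : F) ≤ 2 ^ k}
  have hQ0 : ∀ k, (0 : 𝓞 F) ∈ Q k := by
    intro k v
    simp
  let T1 : Set (Σ q : 𝓞 F × 𝓞 F, Sel 2 (curve (q.1 : F) (q.2 : F))) :=
    {z | ∃ P ∈ R1 F C ρ, Rl z P}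
  let T2 : ℕ → Set (Σ q : 𝓞 F × 𝓞 F, Sel 2 (curve (q.1 : F) (q.2 : F))) := fun k =>
    {z | ∃ Φ : 𝓞 F → Matrix (Fin 3) (Fin 3) (𝓞 F) × Matrix (Fin 3) (Fin 3) (𝓞 F),
      Set.InjOn Φ (Q k) ∧ ∀ q ∈ Q k, Φ q ∈ R2 F C ρ k ∧ Rl z (Φ q)}
  have hcov : ∀ z ∈ T, z ∈ T1 ∨ ∃ k < K, z ∈ T2 k := by
    rintro ⟨⟨a, b⟩, ξ⟩ ⟨hz1, hz2⟩
    simp only at hz1 hz2
    obtain ⟨x, hx⟩ := QuotientAddGroup.mk_surjective ξ
    have hnc : (x : Gal F → Pt (curve (a : F) (b : F)) (AlgebraicClosure F)) ∉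
        Coboundaries 2 (curve (a : F) (b : F)) := by
      intro h
      apply hz2
      rw [← hx, QuotientAddGroup.eq_zero_iff, AddSubgroup.mem_addSubgroupOf]
      exact h
    rcases hC ρ a b x hρ hz1 x.2 hnc with ⟨P, hP, hA⟩ | ⟨k, Φ, hΦ, hΦ2⟩
    · left
      exact ⟨P, hP, x, hx, hA⟩
    · right
      refine ⟨k, ?_, Φ, hΦ, ?_⟩
      · by_contra hkK
        push Not at hkK
        have h1 := (hΦ2 0 (hQ0 k)).1
        rw [hK k hkK] at h1
        exact h1
      · intro q hq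
        exact ⟨(hΦ2 q hq).1, x, hx, (hΦ2 q hq).2⟩
  have hT1 : T1.Finite ∧ T1.ncard ≤ (R1 F C ρ).ncard :=
    lemA T1 _ Rl (fun z _ z' _ P => uniq hINJ z z' P) (fun z hz => hz) hR1f
  have hT2 : ∀ k, (T2 k).Finite ∧ (T2 k).ncard * (Q k).ncard ≤ (R2 F C ρ k).ncard := fun k =>
    lemB (T2 k) _ (Q k) Rl (fun z _ z' _ P => uniq hINJ z z' P) (fun z hz => hz) (hR2 k).1
      ⟨0, hQ0 k⟩
  have hV : 0 ≤ vol ρ ^ 5 := by
    apply pow_nonneg
    unfold vol
    apply Finset.prod_nonneg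
    intro v _
    have := hρ v
    positivity
  have hT2' : ∀ k, ((T2 k).ncard : ℝ) ≤ C₂ / c * vol ρ ^ 5 * (1 / 2) ^ k := by
    intro k
    have h1 : ((T2 k).ncard : ℝ) * ((Q k).ncard : ℝ) ≤ C₂ * vol ρ ^ 5 := by
      refine le_trans ?_ (hR2 k).2
      exact_mod_cast (hT2 k).2
    have h2 : c * 2 ^ k ≤ ((Q k).ncard : ℝ) := by
      refine le_trans ?_ (hL (fun _ => 2 ^ k) (fun _ => one_le_pow₀ (by norm_num)))
      exact mul_le_mul_of_nonneg_left (vol_two F k) hc.le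
    have h3 : ((T2 k).ncard : ℝ) * (c * 2 ^ k) ≤ C₂ * vol ρ ^ 5 :=
      (mul_le_mul_of_nonneg_left h2 (Nat.cast_nonneg _)).trans h1
    have h4 : (0 : ℝ) < c * 2 ^ k := by positivity
    have h5 : ((T2 k).ncard : ℝ) ≤ C₂ * vol ρ ^ 5 / (c * 2 ^ k) := by
      rw [le_div_iff₀ h4]
      exact h3
    refine h5.trans (le_of_eq ?_)
    rw [one_div, inv_pow]
    field_simp
  let U : Finset (Σ q : 𝓞 F × 𝓞 F, Sel 2 (curve (q.1 : F) (q.2 : F))) :=
    hT1.1.toFinset ∪ (Finset.range K).biUnion fun k => (hT2 k).1.toFinset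
  have hTU : T ⊆ ↑U := by
    intro z hz
    rw [Finset.mem_coe, Finset.mem_union, Finset.mem_biUnion]
    rcases hcov z hz with h | ⟨k, hk, h⟩
    · left
      exact hT1.1.mem_toFinset.2 h
    · right
      exact ⟨k, Finset.mem_range.2 hk, (hT2 k).1.mem_toFinset.2 h⟩
  refine ⟨U.finite_toSet.subset hTU, ?_⟩
  have h1 : (T.ncard : ℝ) ≤ (U.card : ℝ) := by
    rw [← Set.ncard_coe_finset]
    exact_mod_cast Set.ncard_le_ncard hTU U.finite_toSet
  have h2 : (U.card : ℝ) ≤ (T1.ncard : ℝ) + ∑ k ∈ Finset.range K, ((T2 k).ncard : ℝ) := by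
    have h3 : U.card ≤ T1.ncard + ∑ k ∈ Finset.range K, (T2 k).ncard := by
      refine (Finset.card_union_le _ _).trans ?_
      have e1 : hT1.1.toFinset.card = T1.ncard := (Set.ncard_eq_toFinset_card T1 hT1.1).symm
      rw [e1]
      apply Nat.add_le_add_left
      refine Finset.card_biUnion_le.trans ?_
      apply Finset.sum_le_sum
      intro k _
      exact (Set.ncard_eq_toFinset_card (T2 k) (hT2 k).1).symm.le
    exact_mod_cast h3
  have h3 : ∑ k ∈ Finset.range K, ((T2 k).ncard : ℝ) ≤ C₂ / c * vol ρ ^ 5 * 2 := by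
    calc ∑ k ∈ Finset.range K, ((T2 k).ncard : ℝ)
        ≤ ∑ k ∈ Finset.range K, C₂ / c * vol ρ ^ 5 * (1 / 2) ^ k :=
          Finset.sum_le_sum fun k _ => hT2' k
      _ = C₂ / c * vol ρ ^ 5 * ∑ k ∈ Finset.range K, (1 / (2 : ℝ)) ^ k := by
          rw [Finset.mul_sum]
      _ ≤ C₂ / c * vol ρ ^ 5 * 2 := by
          apply mul_le_mul_of_nonneg_left (sum_geometric_two_le K)
          positivity
  have h4 : (T1.ncard : ℝ) ≤ C₁ * vol ρ ^ 5 := by
    refine le_trans ?_ hR1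
    exact_mod_cast hT1.2
  calc (T.ncard : ℝ) ≤ C₁ * vol ρ ^ 5 + C₂ / c * vol ρ ^ 5 * 2 := by linarith
    _ = (C₁ + 2 * C₂ / c) * vol ρ ^ 5 := by ring

end Pool.Agent.Lib.MP_8cb858_nt.SEL
end

section
/-!
# FMA: assembly of the first moment with patterns
-/
namespace Pool.Agent.Lib.MP_8cb858_nt.PF

open Polynomial NumberField IsDedekindDomain Pool.Agent.Lib.MP_8cb858_nt.SEL Matrix
open scoped Classical WithZero

namespace FMAM

variable {F : Type} [Field F] [NumberField F]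

/-- pairs with pattern, first type -/
def S1 (C : ℝ) (ρ : InfinitePlace F → ℝ) (Q Q' P : Finset (HeightOneSpectrum (𝓞 F)))
    (Z : Finset (Finset (HeightOneSpectrum (𝓞 F)))) : Set (MO F × MO F) :=
  {X ∈ R1 F C ρ | Pat Q Q' P Z X.1 X.2}

/-- pairs with pattern, second type -/
def S2 (C : ℝ) (ρ : InfinitePlace F → ℝ) (Q Q' P : Finset (HeightOneSpectrum (𝓞 F)))
    (Z : Finset (Finset (HeightOneSpectrum (𝓞 F)))) (k : ℕ) : Set (MO F × MO F) :=
  {X ∈ R2 F C ρ k | Pat Q Q' P Z X.1 X.2}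

variable (F) in
/-- the integers with all absolute values at most `2^k` -/
def Qs (k : ℕ) : Set (𝓞 F) := {q : 𝓞 F | ∀ v : InfinitePlace F, v (q : F) ≤ 2 ^ k}

omit [NumberField F] in
lemma zero_mem_Qs (k : ℕ) : (0 : 𝓞 F) ∈ Qs F k := by
  intro v
  simp

/-- elements of the first type -/
def T1 (D : ℕ) (S : Set (MO F × MO F)) : Set (Σ q : 𝓞 F × 𝓞 F, Sel 2 (cN q.1 q.2 D)) :=
  {z | ∃ X ∈ S, AtZ D z X}

/-- elements of the second type -/
def T2 (D : ℕ) (S : Set (MO F × MO F)) (k : ℕ) : Set (Σ q : 𝓞 F × 𝓞 F, Sel 2 (cN q.1 q.2 D)) :=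
  {z | ∃ Φ : 𝓞 F → MO F × MO F, Set.InjOn Φ (Qs F k) ∧ ∀ q ∈ Qs F k, Φ q ∈ S ∧ AtZ D z (Φ q)}

lemma count1 (hFZ1 : SpecFZ1) {D : ℕ} (hD : 0 < D) {S : Set (MO F × MO F)} (hS : S.Finite) :
    (T1 D S).Finite ∧ (T1 D S).ncard ≤ S.ncard :=
  TOTM.lemA (T1 D S) S (AtZ D) (fun z _ z' _ X h h' => hFZ1 F D z z' X hD h h') (fun z hz => hz) hS

lemma count2 (hFZ1 : SpecFZ1) {D : ℕ} (hD : 0 < D) {S : Set (MO F × MO F)} (hS : S.Finite)
    (k : ℕ) : (T2 D S k).Finite ∧ (T2 D S k).ncard * (Qs F k).ncard ≤ S.ncard :=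
  TOTM.lemB (T2 D S k) S (Qs F k) (AtZ D) (fun z _ z' _ X h h' => hFZ1 F D z z' X hD h h')
    (fun z hz => hz) hS ⟨0, zero_mem_Qs k⟩

lemma geo (n : ℕ) : ∑ k ∈ Finset.range n, (1 / 2 : ℝ) ^ k ≤ 2 := sum_geometric_two_le n

lemma geo2 (m n : ℕ) : ∑ k ∈ (Finset.range n).filter (fun k => m ≤ k), (1 / 2 : ℝ) ^ k ≤
    2 * (1 / 2 : ℝ) ^ m := by
  have h1 : ∑ k ∈ (Finset.range n).filter (fun k => m ≤ k), (1 / 2 : ℝ) ^ k ≤
      ∑ k ∈ Finset.range n, (1 / 2 : ℝ) ^ (m + k) := by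
    have h2 : ∑ k ∈ (Finset.range n).filter (fun k => m ≤ k), (1 / 2 : ℝ) ^ k =
        ∑ j ∈ ((Finset.range n).filter (fun k => m ≤ k)).image (fun k => k - m),
          (1 / 2 : ℝ) ^ (m + j) := by
      rw [Finset.sum_image]
      · refine Finset.sum_congr rfl fun k hk => ?_
        have := (Finset.mem_filter.1 hk).2
        congr 1; omega
      · intro a ha b hb h
        have h3 := (Finset.mem_filter.1 ha).2
        have h4 := (Finset.mem_filter.1 hb).2
        simp only at h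
        omega
    rw [h2]
    refine Finset.sum_le_sum_of_subset_of_nonneg ?_ fun i _ _ => by positivity
    intro j hj
    obtain ⟨k, hk, rfl⟩ := Finset.mem_image.1 hj
    have := Finset.mem_range.1 (Finset.mem_filter.1 hk).1
    exact Finset.mem_range.2 (by omega)
  refine h1.trans ?_
  simp only [pow_add]
  rw [← Finset.mul_sum]
  have := geo n
  have h5 : (0 : ℝ) < (1 / 2) ^ m := by positivity
  nlinarith

/-- the sum over the levels -/
lemma levels {a b W d : ℝ} (ha : 0 ≤ a) (hb : 0 ≤ b) (hW : 0 ≤ W) (k1 K : ℕ)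
    (hk1 : 2 * b * (1 / 2 : ℝ) ^ k1 ≤ d) (t : ℕ → ℝ)
    (h1 : ∀ k, k < k1 → t k ≤ a * W * (1 / 2) ^ k) (h2 : ∀ k, t k ≤ b * W * (1 / 2) ^ k) :
    ∑ k ∈ Finset.range K, t k ≤ (2 * a + d) * W := by
  have h9 : ∀ k ∈ Finset.range K, t k ≤ a * W * (1 / 2) ^ k +
      (if k1 ≤ k then b * W * (1 / 2) ^ k else 0) := by
    intro k _
    by_cases hk : k1 ≤ k
    · rw [if_pos hk]
      have := h2 k
      have h10 : 0 ≤ a * W * (1 / 2) ^ k := by positivity
      linarith
    · rw [if_neg hk, add_zero]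
      exact h1 k (not_le.1 hk)
  refine (Finset.sum_le_sum h9).trans ?_
  rw [Finset.sum_add_distrib, ← Finset.mul_sum, ← Finset.sum_filter, ← Finset.mul_sum]
  have h15 := mul_le_mul_of_nonneg_left (geo K) (mul_nonneg ha hW)
  have h16 := mul_le_mul_of_nonneg_left (geo2 k1 K) (mul_nonneg hb hW)
  have h17 : b * W * (2 * (1 / 2) ^ k1) ≤ d * W := by
    have := mul_le_mul_of_nonneg_right hk1 hW
    linarith
  linarith

end FMAM

open FMAM in
theorem specFMA (hCNL : SEL.SpecCNL.{0}) (hBX2 : SEL.SpecBX2.{0}) : SpecFMA := by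
  intro hFZ1 hFZ2 hFP1 hFP2 F _ _
  obtain ⟨C, P0, hC1, hZ2⟩ := hFZ2 F
  obtain ⟨C1, P1, hC1p, h1⟩ := hFP1 F C hC1
  obtain ⟨C2, P2, hC2p, h2⟩ := hFP2 F C hC1
  obtain ⟨C3, hC3p, h3⟩ := hBX2 F C hC1
  obtain ⟨c, hc, hL⟩ := hCNL F
  refine ⟨C1 + 2 * (C2 / c) + 1, max P0 (max P1 P2), by positivity, ?_⟩
  intro Q Q' P D Z hD hQP hv hQQ hZ
  set n : ℕ := Module.finrank ℚ F with hn
  have hn1 : 1 ≤ n := Module.finrank_pos
  have hD1 : (1 : ℝ) ≤ (D : ℝ) := by exact_mod_cast hD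
  rcases Finset.eq_empty_or_nonempty Z with hZe | hZne
  · refine ⟨0, fun ρ _ => ?_⟩
    have hempty : FS Q Q' P D Z ρ = ∅ := by
      ext z
      simp [FS, hZe]
    change (FS Q Q' P D Z ρ).Finite ∧ ((FS Q Q' P D Z ρ).ncard : ℝ) ≤ _
    rw [hempty]
    refine ⟨Set.finite_empty, ?_⟩
    rw [hZe]; simp
  -- the density
  set d : ℝ := dns Q Q' P Z with hd
  have hdpos : 0 < d := by
    rw [hd, dns]
    have : (0 : ℝ) < Z.card := by exact_mod_cast Finset.card_pos.2 hZne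
    have e1 : 0 < ∏ v ∈ Q, (1 + 1 / (nv v : ℝ)) ^ 2 / 2 :=
      Finset.prod_pos fun v _ => by positivity
    have e2 : 0 < ∏ v ∈ P, (1 + 1 / (nv v : ℝ)) ^ 2 / 3 :=
      Finset.prod_pos fun v _ => by positivity
    positivity
  set N : ℝ := ∏ v ∈ Q ∪ P, (nv v : ℝ) with hN
  have hN1 : 1 ≤ N := by
    rw [hN]
    have : ∀ v ∈ Q ∪ P, (1 : ℝ) ≤ (nv v : ℝ) := by
      intro v hvm
      have h0 := (hv v hvm).1
      have : 1 ≤ nv v := by omega
      exact_mod_cast this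
    calc (1 : ℝ) = ∏ v ∈ Q ∪ P, (1 : ℝ) := by simp
      _ ≤ ∏ v ∈ Q ∪ P, (nv v : ℝ) := Finset.prod_le_prod (fun _ _ => zero_le_one) this
  -- the threshold
  obtain ⟨k1, hk1⟩ : ∃ k1 : ℕ, 2 * (C3 / c) * (1 / 2 : ℝ) ^ k1 ≤ d := by
    obtain ⟨k1, hk1⟩ := exists_pow_lt_of_lt_one (show 0 < d / (2 * (C3 / c)) by positivity)
      (show (1 / 2 : ℝ) < 1 by norm_num)
    refine ⟨k1, ?_⟩
    rw [lt_div_iff₀ (by positivity)] at hk1
    linarith
  refine ⟨max 1 (N * 4 ^ (k1 * n)), fun ρ hρ => ?_⟩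
  have hρ1 : ∀ v, 1 ≤ ρ v := fun v => (le_max_left _ _).trans (hρ v)
  set ρ' : InfinitePlace F → ℝ := fun v => D * ρ v with hρ'
  have hρ'1 : ∀ v, 1 ≤ ρ' v := fun v => by
    rw [hρ']
    have := hρ1 v
    simp only
    nlinarith
  have hVρ : vol ρ' = (D : ℝ) ^ n * vol ρ := by
    rw [hρ', CNUM.vol_mul (fun _ => (D : ℝ)) ρ, CNUM.vol_const]
  have h4k : (1 : ℝ) ≤ 4 ^ (k1 * n) := one_le_pow₀ (by norm_num)
  have hVN : N * 4 ^ (k1 * n) ≤ vol ρ' := by
    have e1 : N * 4 ^ (k1 * n) ≤ (N * 4 ^ (k1 * n)) ^ n := by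
      have e0 : 1 ≤ N * 4 ^ (k1 * n) := by nlinarith
      calc N * 4 ^ (k1 * n) = (N * 4 ^ (k1 * n)) ^ 1 := by rw [pow_one]
        _ ≤ (N * 4 ^ (k1 * n)) ^ n := pow_le_pow_right₀ e0 hn1
    refine e1.trans ?_
    rw [← CNUM.vol_const (F := F) (N * 4 ^ (k1 * n))]
    refine CNUM.vol_mono (fun _ => by positivity) fun v => ?_
    have e2 := (le_max_right _ _).trans (hρ v)
    have e3 := hρ1 v
    rw [hρ']
    simp only
    nlinarith
  have hVN' : N ≤ vol ρ' := by nlinarith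
  have hV1 : 1 ≤ vol ρ' := hN1.trans hVN'
  have hV5 : vol ρ' ^ 5 = (D : ℝ) ^ (5 * n) * vol ρ ^ 5 := by
    rw [hVρ, mul_pow, ← pow_mul, Nat.mul_comm n 5]
  -- the set
  set T : Set (Σ q : 𝓞 F × 𝓞 F, Sel 2 (cN q.1 q.2 D)) := FS Q Q' P D Z ρ with hT
  change T.Finite ∧ (T.ncard : ℝ) ≤ _
  have hv0 : ∀ v ∈ Q ∪ P, P0 < nv v ∧ (D : 𝓞 F) ∉ v.asIdeal := fun v h =>
    ⟨(le_max_left _ _).trans_lt (hv v h).1, (hv v h).2⟩
  have hv1 : ∀ v ∈ Q ∪ P, P1 < nv v := fun v h =>
    ((le_max_left _ _).trans (le_max_right _ _)).trans_lt (hv v h).1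
  have hv2 : ∀ v ∈ Q ∪ P, P2 < nv v := fun v h =>
    ((le_max_right _ _).trans (le_max_right _ _)).trans_lt (hv v h).1
  have hkey := hZ2 Q Q' P D Z ρ hD hQP hv0 hQQ hρ1
  obtain ⟨hR2, K, hK⟩ := h3 ρ' hρ'1
  -- first type
  obtain ⟨f1, b1⟩ := h1 Q Q' P Z hQP hv1 hQQ hZ ρ' hρ'1 hVN'
  obtain ⟨f1', b1'⟩ := count1 hFZ1 hD (S := S1 C ρ' Q Q' P Z) f1
  have c1 : ((T1 D (S1 C ρ' Q Q' P Z)).ncard : ℝ) ≤ C1 * d * vol ρ' ^ 5 := by
    refine le_trans ?_ b1
    exact_mod_cast b1'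
  -- second type
  have hS2fin : ∀ k, (S2 C ρ' Q Q' P Z k).Finite := fun k => (hR2 k).1.subset (fun X hX => hX.1)
  have f2 : ∀ k, (T2 D (S2 C ρ' Q Q' P Z k) k).Finite := fun k =>
    (count2 hFZ1 hD (hS2fin k) k).1
  have g2 : ∀ k, ((T2 D (S2 C ρ' Q Q' P Z k) k).ncard : ℝ) ≤
      ((S2 C ρ' Q Q' P Z k).ncard : ℝ) / c * (1 / 2) ^ k := by
    intro k
    have h' : ((T2 D (S2 C ρ' Q Q' P Z k) k).ncard : ℝ) * ((Qs F k).ncard : ℝ) ≤
        ((S2 C ρ' Q Q' P Z k).ncard : ℝ) := by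
      exact_mod_cast (count2 hFZ1 hD (hS2fin k) k).2
    have hq : c * 2 ^ k ≤ ((Qs F k).ncard : ℝ) := by
      refine le_trans ?_ (hL (fun _ => 2 ^ k) (fun _ => one_le_pow₀ (by norm_num)))
      exact mul_le_mul_of_nonneg_left (TOTM.vol_two F k) hc.le
    have h5 : ((T2 D (S2 C ρ' Q Q' P Z k) k).ncard : ℝ) * (c * 2 ^ k) ≤
        ((S2 C ρ' Q Q' P Z k).ncard : ℝ) :=
      (mul_le_mul_of_nonneg_left hq (Nat.cast_nonneg _)).trans h'
    have h6 : (0 : ℝ) < c * 2 ^ k := by positivity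
    have h7 : ((T2 D (S2 C ρ' Q Q' P Z k) k).ncard : ℝ) ≤
        ((S2 C ρ' Q Q' P Z k).ncard : ℝ) / (c * 2 ^ k) := by
      rw [le_div_iff₀ h6]
      exact h5
    refine h7.trans (le_of_eq ?_)
    rw [one_div, inv_pow]
    field_simp
  have c2 : ∀ k, k < k1 → ((T2 D (S2 C ρ' Q Q' P Z k) k).ncard : ℝ) ≤
      (C2 / c * d) * vol ρ' ^ 5 * (1 / 2) ^ k := by
    intro k hk
    refine (g2 k).trans ?_
    have hb : N * 4 ^ (k * n) ≤ vol ρ' := by
      refine le_trans ?_ hVN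
      have : (4 : ℝ) ^ (k * n) ≤ 4 ^ (k1 * n) :=
        pow_le_pow_right₀ (by norm_num) (Nat.mul_le_mul_right n hk.le)
      nlinarith
    have h8 := (h2 Q Q' P Z hQP hv2 hQQ hZ ρ' k hρ'1 hb).2
    refine mul_le_mul_of_nonneg_right ?_ (by positivity)
    rw [div_le_iff₀ hc]
    refine h8.trans (le_of_eq ?_)
    field_simp
    rfl
  have c3 : ∀ k, ((T2 D (S2 C ρ' Q Q' P Z k) k).ncard : ℝ) ≤
      (C3 / c) * vol ρ' ^ 5 * (1 / 2) ^ k := by
    intro k
    refine (g2 k).trans ?_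
    have h5 : ((S2 C ρ' Q Q' P Z k).ncard : ℝ) ≤ C3 * vol ρ' ^ 5 := by
      refine le_trans ?_ (hR2 k).2
      have h6 : S2 C ρ' Q Q' P Z k ⊆ R2 F C ρ' k := fun X hX => hX.1
      exact_mod_cast Set.ncard_le_ncard h6 (hR2 k).1
    refine mul_le_mul_of_nonneg_right ?_ (by positivity)
    rw [div_le_iff₀ hc]
    refine h5.trans (le_of_eq ?_)
    field_simp
  -- only finitely many levels
  have e2 : ∀ k, K ≤ k → T2 D (S2 C ρ' Q Q' P Z k) k = ∅ := by
    intro k hk
    rw [Set.eq_empty_iff_forall_notMem]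
    rintro z ⟨Φ, -, h⟩
    have := (h 0 (zero_mem_Qs k)).1.1
    rw [hK k hk] at this
    exact this
  have hsub : T ⊆ T1 D (S1 C ρ' Q Q' P Z) ∪ ⋃ k ∈ Finset.range K, T2 D (S2 C ρ' Q Q' P Z k) k := by
    intro z hz
    rcases hkey z hz with ⟨X, hX, hat, hpat⟩ | ⟨k, Φ, hinj, h⟩
    · exact Or.inl ⟨X, ⟨hX, hpat⟩, hat⟩
    · right
      have hzk : z ∈ T2 D (S2 C ρ' Q Q' P Z k) k :=
        ⟨Φ, hinj, fun q hq => ⟨⟨(h q hq).1, (h q hq).2.2⟩, (h q hq).2.1⟩⟩
      have hkK : k < K := by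
        by_contra hcon
        rw [e2 k (not_lt.1 hcon)] at hzk
        exact hzk
      exact Set.mem_biUnion (Finset.mem_coe.2 (Finset.mem_range.2 hkK)) hzk
  have hUfin : (⋃ k ∈ Finset.range K, T2 D (S2 C ρ' Q Q' P Z k) k).Finite :=
    Set.Finite.biUnion (Finset.range K).finite_toSet fun k _ => f2 k
  have hTfin : T.Finite := (f1'.union hUfin).subset hsub
  refine ⟨hTfin, ?_⟩
  have hU : ((⋃ k ∈ Finset.range K, T2 D (S2 C ρ' Q Q' P Z k) k).ncard : ℝ) ≤
      ∑ k ∈ Finset.range K, ((T2 D (S2 C ρ' Q Q' P Z k) k).ncard : ℝ) := by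
    have h7 : (⋃ k ∈ Finset.range K, T2 D (S2 C ρ' Q Q' P Z k) k).ncard ≤
        ∑ k ∈ Finset.range K, (T2 D (S2 C ρ' Q Q' P Z k) k).ncard := by
      have h8 : (⋃ k ∈ Finset.range K, T2 D (S2 C ρ' Q Q' P Z k) k) =
          (((Finset.range K).biUnion fun k => (f2 k).toFinset : Finset _) : Set _) := by
        ext z
        simp
      rw [h8, Set.ncard_coe_finset]
      refine Finset.card_biUnion_le.trans (Finset.sum_le_sum fun k _ => ?_)
      rw [Set.ncard_eq_toFinset_card _ (f2 k)]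
    exact_mod_cast h7
  have hsum := levels (a := C2 / c * d) (b := C3 / c) (W := vol ρ' ^ 5) (by positivity)
    (by positivity) (by positivity) k1 K hk1
    (fun k => ((T2 D (S2 C ρ' Q Q' P Z k) k).ncard : ℝ)) c2 c3
  have hfinal : (T.ncard : ℝ) ≤ (C1 + 2 * (C2 / c) + 1) * d * vol ρ' ^ 5 := by
    have h18 : T.ncard ≤ (T1 D (S1 C ρ' Q Q' P Z)).ncard +
        (⋃ k ∈ Finset.range K, T2 D (S2 C ρ' Q Q' P Z k) k).ncard :=
      (Set.ncard_le_ncard hsub (f1'.union hUfin)).trans (Set.ncard_union_le _ _)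
    have h19 : (T.ncard : ℝ) ≤ ((T1 D (S1 C ρ' Q Q' P Z)).ncard : ℝ) +
        ((⋃ k ∈ Finset.range K, T2 D (S2 C ρ' Q Q' P Z k) k).ncard : ℝ) := by
      exact_mod_cast h18
    calc (T.ncard : ℝ) ≤ C1 * d * vol ρ' ^ 5 + (2 * (C2 / c * d) + d) * vol ρ' ^ 5 := by linarith
      _ = (C1 + 2 * (C2 / c) + 1) * d * vol ρ' ^ 5 := by ring
  refine hfinal.trans (le_of_eq ?_)
  rw [hV5, hd, dns]
  ring

end Pool.Agent.Lib.MP_8cb858_nt.PF
end

section
/-!
# MMA: assembly of the first moment with patterns and conditions at the places dividing the twist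
-/
namespace Pool.Agent.Lib.MP_8cb858_nt.PT

open Polynomial NumberField IsDedekindDomain Pool.Agent.Lib.MP_8cb858_nt.SEL Matrix
open Pool.Agent.Lib.MP_8cb858_nt.PF
open scoped Classical WithZero

namespace MMAM

variable {F : Type} [Field F] [NumberField F]

/-- pairs with pattern, first type -/
def S1 (C : ℝ) (ρ : InfinitePlace F → ℝ) (Q P W : Finset (HeightOneSpectrum (𝓞 F)))
    (Z : Finset (Finset (HeightOneSpectrum (𝓞 F)))) : Set (MO F × MO F) :=
  {X ∈ R1 F C ρ | PatW Q P W Z X.1 X.2}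

/-- pairs with pattern, second type -/
def S2 (C : ℝ) (ρ : InfinitePlace F → ℝ) (Q P W : Finset (HeightOneSpectrum (𝓞 F)))
    (Z : Finset (Finset (HeightOneSpectrum (𝓞 F)))) (k : ℕ) : Set (MO F × MO F) :=
  {X ∈ R2 F C ρ k | PatW Q P W Z X.1 X.2}

end MMAM

open PF.FMAM in
theorem specMMA (hCNL : SEL.SpecCNL.{0}) (hBX2 : SEL.SpecBX2.{0}) (hFZ1 : PF.SpecFZ1)
    (hMZ2 : SpecMZ2) (hMP1 : SpecMP1) (hMP2 : SpecMP2) : SpecMMA := by
  intro F _ _
  obtain ⟨C, P0, hC1, hZ2⟩ := hMZ2 F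
  obtain ⟨C1, P1, hC1p, h1⟩ := hMP1 F C hC1
  obtain ⟨C2, P2, hC2p, h2⟩ := hMP2 F C hC1
  obtain ⟨C3, hC3p, h3⟩ := hBX2 F C hC1
  obtain ⟨c, hc, hL⟩ := hCNL F
  refine ⟨C1 + 2 * (C2 / c) + 1, max P0 (max P1 P2), by positivity, ?_⟩
  intro Q P W D Z hD hQP hv hvW hZ
  set n : ℕ := Module.finrank ℚ F with hn
  have hn1 : 1 ≤ n := Module.finrank_pos
  have hD1 : (1 : ℝ) ≤ (D : ℝ) := by exact_mod_cast hD
  rcases Finset.eq_empty_or_nonempty Z with hZe | hZne
  · refine ⟨0, fun ρ _ => ?_⟩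
    have hempty : FS Q Q P D Z ρ = ∅ := by
      ext z
      simp [FS, hZe]
    change (FS Q Q P D Z ρ).Finite ∧ ((FS Q Q P D Z ρ).ncard : ℝ) ≤ _
    rw [hempty]
    refine ⟨Set.finite_empty, ?_⟩
    rw [hZe]; simp [dnW, dns]
  -- the density
  set d : ℝ := dnW Q P W Z with hd
  have hP1 : ∀ v ∈ W, (1 : ℝ) ≤ (nv v : ℝ) := by
    intro v hvm
    have h0 := (hvW v hvm).1
    have : 1 ≤ nv v := by omega
    exact_mod_cast this
  have hdpos : 0 < d := by
    rw [hd, dnW, dns]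
    have : (0 : ℝ) < Z.card := by exact_mod_cast Finset.card_pos.2 hZne
    have e1 : 0 < ∏ v ∈ Q, (1 + 1 / (nv v : ℝ)) ^ 2 / 2 :=
      Finset.prod_pos fun v _ => by positivity
    have e2 : 0 < ∏ v ∈ P, (1 + 1 / (nv v : ℝ)) ^ 2 / 3 :=
      Finset.prod_pos fun v _ => by positivity
    have e3 : 0 < ∏ v ∈ W, 4 / (nv v : ℝ) ^ 5 :=
      Finset.prod_pos fun v hvm => by
        have := hP1 v hvm
        have h0 : (0 : ℝ) < (nv v : ℝ) := by linarith
        positivity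
    positivity
  set N : ℝ := nmW Q P W with hN
  have hN1 : 1 ≤ N := by
    rw [hN, nmW]
    have hWN : (1 : ℝ) ≤ ∏ v ∈ W, (nv v : ℝ) ^ 3 := by
      calc (1 : ℝ) = ∏ v ∈ W, (1 : ℝ) := by simp
        _ ≤ ∏ v ∈ W, (nv v : ℝ) ^ 3 := Finset.prod_le_prod (fun _ _ => zero_le_one)
          fun v hvm => one_le_pow₀ (hP1 v hvm)
    refine one_le_mul_of_one_le_of_one_le ?_ hWN
    have : ∀ v ∈ Q ∪ P, (1 : ℝ) ≤ (nv v : ℝ) := by
      intro v hvm
      have h0 := (hv v hvm).1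
      have : 1 ≤ nv v := by omega
      exact_mod_cast this
    calc (1 : ℝ) = ∏ v ∈ Q ∪ P, (1 : ℝ) := by simp
      _ ≤ ∏ v ∈ Q ∪ P, (nv v : ℝ) := Finset.prod_le_prod (fun _ _ => zero_le_one) this
  -- the threshold
  obtain ⟨k1, hk1⟩ : ∃ k1 : ℕ, 2 * (C3 / c) * (1 / 2 : ℝ) ^ k1 ≤ d := by
    obtain ⟨k1, hk1⟩ := exists_pow_lt_of_lt_one (show 0 < d / (2 * (C3 / c)) by positivity)
      (show (1 / 2 : ℝ) < 1 by norm_num)
    refine ⟨k1, ?_⟩
    rw [lt_div_iff₀ (by positivity)] at hk1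
    linarith
  refine ⟨max 1 (N * 4 ^ (k1 * n)), fun ρ hρ => ?_⟩
  have hρ1 : ∀ v, 1 ≤ ρ v := fun v => (le_max_left _ _).trans (hρ v)
  set ρ' : InfinitePlace F → ℝ := fun v => D * ρ v with hρ'
  have hρ'1 : ∀ v, 1 ≤ ρ' v := fun v => by
    rw [hρ']
    have := hρ1 v
    simp only
    nlinarith
  have hVρ : vol ρ' = (D : ℝ) ^ n * vol ρ := by
    rw [hρ', CNUM.vol_mul (fun _ => (D : ℝ)) ρ, CNUM.vol_const]
  have h4k : (1 : ℝ) ≤ 4 ^ (k1 * n) := one_le_pow₀ (by norm_num)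
  have hVN : N * 4 ^ (k1 * n) ≤ vol ρ' := by
    have e1 : N * 4 ^ (k1 * n) ≤ (N * 4 ^ (k1 * n)) ^ n := by
      have e0 : 1 ≤ N * 4 ^ (k1 * n) := by nlinarith
      calc N * 4 ^ (k1 * n) = (N * 4 ^ (k1 * n)) ^ 1 := by rw [pow_one]
        _ ≤ (N * 4 ^ (k1 * n)) ^ n := pow_le_pow_right₀ e0 hn1
    refine e1.trans ?_
    rw [← CNUM.vol_const (F := F) (N * 4 ^ (k1 * n))]
    refine CNUM.vol_mono (fun _ => by positivity) fun v => ?_
    have e2 := (le_max_right _ _).trans (hρ v)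
    have e3 := hρ1 v
    rw [hρ']
    simp only
    nlinarith
  have hVN' : N ≤ vol ρ' := by nlinarith
  have hV1 : 1 ≤ vol ρ' := hN1.trans hVN'
  have hV5 : vol ρ' ^ 5 = (D : ℝ) ^ (5 * n) * vol ρ ^ 5 := by
    rw [hVρ, mul_pow, ← pow_mul, Nat.mul_comm n 5]
  -- the set
  set T : Set (Σ q : 𝓞 F × 𝓞 F, Sel 2 (cN q.1 q.2 D)) := FS Q Q P D Z ρ with hT
  change T.Finite ∧ (T.ncard : ℝ) ≤ _
  have hv0 : ∀ v ∈ Q ∪ P, P0 < nv v ∧ (D : 𝓞 F) ∉ v.asIdeal := fun v h =>
    ⟨(le_max_left _ _).trans_lt (hv v h).1, (hv v h).2⟩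
  have hall : ∀ v ∈ Q ∪ P ∪ W, max P0 (max P1 P2) < nv v := fun v h => by
    rcases Finset.mem_union.1 h with h | h
    · exact (hv v h).1
    · exact (hvW v h).1
  have hv1 : ∀ v ∈ Q ∪ P ∪ W, P1 < nv v := fun v h =>
    ((le_max_left _ _).trans (le_max_right _ _)).trans_lt (hall v h)
  have hv2 : ∀ v ∈ Q ∪ P ∪ W, P2 < nv v := fun v h =>
    ((le_max_right _ _).trans (le_max_right _ _)).trans_lt (hall v h)
  have hWQ : ∀ v ∈ W, v ∉ Q ∧ v ∉ P := fun v h =>
    ⟨fun h1 => (hv v (Finset.mem_union_left _ h1)).2 (hvW v h).2,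
      fun h1 => (hv v (Finset.mem_union_right _ h1)).2 (hvW v h).2⟩
  have hw0 : ∀ v ∈ W, P0 < nv v ∧ (D : 𝓞 F) ∈ v.asIdeal := fun v h =>
    ⟨(le_max_left _ _).trans_lt (hvW v h).1, (hvW v h).2⟩
  have hkey := hZ2 Q P W D Z ρ hD hQP hv0 hw0 hρ1
  obtain ⟨hR2, K, hK⟩ := h3 ρ' hρ'1
  -- first type
  obtain ⟨f1, b1⟩ := h1 Q P W Z hQP hWQ hv1 hZ ρ' hρ'1 hVN'
  obtain ⟨f1', b1'⟩ := count1 hFZ1 hD (S := MMAM.S1 C ρ' Q P W Z) f1
  have c1 : ((T1 D (MMAM.S1 C ρ' Q P W Z)).ncard : ℝ) ≤ C1 * d * vol ρ' ^ 5 := by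
    refine le_trans ?_ b1
    exact_mod_cast b1'
  -- second type
  have hS2fin : ∀ k, (MMAM.S2 C ρ' Q P W Z k).Finite := fun k => (hR2 k).1.subset (fun X hX => hX.1)
  have f2 : ∀ k, (T2 D (MMAM.S2 C ρ' Q P W Z k) k).Finite := fun k =>
    (count2 hFZ1 hD (hS2fin k) k).1
  have g2 : ∀ k, ((T2 D (MMAM.S2 C ρ' Q P W Z k) k).ncard : ℝ) ≤
      ((MMAM.S2 C ρ' Q P W Z k).ncard : ℝ) / c * (1 / 2) ^ k := by
    intro k
    have h' : ((T2 D (MMAM.S2 C ρ' Q P W Z k) k).ncard : ℝ) * ((Qs F k).ncard : ℝ) ≤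
        ((MMAM.S2 C ρ' Q P W Z k).ncard : ℝ) := by
      exact_mod_cast (count2 hFZ1 hD (hS2fin k) k).2
    have hq : c * 2 ^ k ≤ ((Qs F k).ncard : ℝ) := by
      refine le_trans ?_ (hL (fun _ => 2 ^ k) (fun _ => one_le_pow₀ (by norm_num)))
      exact mul_le_mul_of_nonneg_left (TOTM.vol_two F k) hc.le
    have h5 : ((T2 D (MMAM.S2 C ρ' Q P W Z k) k).ncard : ℝ) * (c * 2 ^ k) ≤
        ((MMAM.S2 C ρ' Q P W Z k).ncard : ℝ) :=
      (mul_le_mul_of_nonneg_left hq (Nat.cast_nonneg _)).trans h'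
    have h6 : (0 : ℝ) < c * 2 ^ k := by positivity
    have h7 : ((T2 D (MMAM.S2 C ρ' Q P W Z k) k).ncard : ℝ) ≤
        ((MMAM.S2 C ρ' Q P W Z k).ncard : ℝ) / (c * 2 ^ k) := by
      rw [le_div_iff₀ h6]
      exact h5
    refine h7.trans (le_of_eq ?_)
    rw [one_div, inv_pow]
    field_simp
  have c2 : ∀ k, k < k1 → ((T2 D (MMAM.S2 C ρ' Q P W Z k) k).ncard : ℝ) ≤
      (C2 / c * d) * vol ρ' ^ 5 * (1 / 2) ^ k := by
    intro k hk
    refine (g2 k).trans ?_
    have hb : N * 4 ^ (k * n) ≤ vol ρ' := by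
      refine le_trans ?_ hVN
      have : (4 : ℝ) ^ (k * n) ≤ 4 ^ (k1 * n) :=
        pow_le_pow_right₀ (by norm_num) (Nat.mul_le_mul_right n hk.le)
      nlinarith
    have h8 := (h2 Q P W Z hQP hWQ hv2 hZ ρ' k hρ'1 hb).2
    refine mul_le_mul_of_nonneg_right ?_ (by positivity)
    rw [div_le_iff₀ hc]
    refine h8.trans (le_of_eq ?_)
    field_simp
    rfl
  have c3 : ∀ k, ((T2 D (MMAM.S2 C ρ' Q P W Z k) k).ncard : ℝ) ≤
      (C3 / c) * vol ρ' ^ 5 * (1 / 2) ^ k := by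
    intro k
    refine (g2 k).trans ?_
    have h5 : ((MMAM.S2 C ρ' Q P W Z k).ncard : ℝ) ≤ C3 * vol ρ' ^ 5 := by
      refine le_trans ?_ (hR2 k).2
      have h6 : MMAM.S2 C ρ' Q P W Z k ⊆ R2 F C ρ' k := fun X hX => hX.1
      exact_mod_cast Set.ncard_le_ncard h6 (hR2 k).1
    refine mul_le_mul_of_nonneg_right ?_ (by positivity)
    rw [div_le_iff₀ hc]
    refine h5.trans (le_of_eq ?_)
    field_simp
  -- only finitely many levels
  have e2 : ∀ k, K ≤ k → T2 D (MMAM.S2 C ρ' Q P W Z k) k = ∅ := by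
    intro k hk
    rw [Set.eq_empty_iff_forall_notMem]
    rintro z ⟨Φ, -, h⟩
    have := (h 0 (zero_mem_Qs k)).1.1
    rw [hK k hk] at this
    exact this
  have hsub : T ⊆ T1 D (MMAM.S1 C ρ' Q P W Z) ∪ ⋃ k ∈ Finset.range K, T2 D (MMAM.S2 C ρ' Q P W Z k) k := by
    intro z hz
    rcases hkey z hz with ⟨X, hX, hat, hpat⟩ | ⟨k, Φ, hinj, h⟩
    · exact Or.inl ⟨X, ⟨hX, hpat⟩, hat⟩
    · right
      have hzk : z ∈ T2 D (MMAM.S2 C ρ' Q P W Z k) k :=
        ⟨Φ, hinj, fun q hq => ⟨⟨(h q hq).1, (h q hq).2.2⟩, (h q hq).2.1⟩⟩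
      have hkK : k < K := by
        by_contra hcon
        rw [e2 k (not_lt.1 hcon)] at hzk
        exact hzk
      exact Set.mem_biUnion (Finset.mem_coe.2 (Finset.mem_range.2 hkK)) hzk
  have hUfin : (⋃ k ∈ Finset.range K, T2 D (MMAM.S2 C ρ' Q P W Z k) k).Finite :=
    Set.Finite.biUnion (Finset.range K).finite_toSet fun k _ => f2 k
  have hTfin : T.Finite := (f1'.union hUfin).subset hsub
  refine ⟨hTfin, ?_⟩
  have hU : ((⋃ k ∈ Finset.range K, T2 D (MMAM.S2 C ρ' Q P W Z k) k).ncard : ℝ) ≤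
      ∑ k ∈ Finset.range K, ((T2 D (MMAM.S2 C ρ' Q P W Z k) k).ncard : ℝ) := by
    have h7 : (⋃ k ∈ Finset.range K, T2 D (MMAM.S2 C ρ' Q P W Z k) k).ncard ≤
        ∑ k ∈ Finset.range K, (T2 D (MMAM.S2 C ρ' Q P W Z k) k).ncard := by
      have h8 : (⋃ k ∈ Finset.range K, T2 D (MMAM.S2 C ρ' Q P W Z k) k) =
          (((Finset.range K).biUnion fun k => (f2 k).toFinset : Finset _) : Set _) := by
        ext z
        simp
      rw [h8, Set.ncard_coe_finset]
      refine Finset.card_biUnion_le.trans (Finset.sum_le_sum fun k _ => ?_)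
      rw [Set.ncard_eq_toFinset_card _ (f2 k)]
    exact_mod_cast h7
  have hsum := levels (a := C2 / c * d) (b := C3 / c) (W := vol ρ' ^ 5) (by positivity)
    (by positivity) (by positivity) k1 K hk1
    (fun k => ((T2 D (MMAM.S2 C ρ' Q P W Z k) k).ncard : ℝ)) c2 c3
  have hfinal : (T.ncard : ℝ) ≤ (C1 + 2 * (C2 / c) + 1) * d * vol ρ' ^ 5 := by
    have h18 : T.ncard ≤ (T1 D (MMAM.S1 C ρ' Q P W Z)).ncard +
        (⋃ k ∈ Finset.range K, T2 D (MMAM.S2 C ρ' Q P W Z k) k).ncard :=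
      (Set.ncard_le_ncard hsub (f1'.union hUfin)).trans (Set.ncard_union_le _ _)
    have h19 : (T.ncard : ℝ) ≤ ((T1 D (MMAM.S1 C ρ' Q P W Z)).ncard : ℝ) +
        ((⋃ k ∈ Finset.range K, T2 D (MMAM.S2 C ρ' Q P W Z k) k).ncard : ℝ) := by
      exact_mod_cast h18
    calc (T.ncard : ℝ) ≤ C1 * d * vol ρ' ^ 5 + (2 * (C2 / c * d) + d) * vol ρ' ^ 5 := by linarith
      _ = (C1 + 2 * (C2 / c) + 1) * d * vol ρ' ^ 5 := by ring
  refine hfinal.trans (le_of_eq ?_)
  rw [hV5]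
  ring

end Pool.Agent.Lib.MP_8cb858_nt.PT
end

section
/-!
# MMA: assembly of the first moment with patterns and conditions at the places dividing the twist
-/
namespace Pool.Agent.Lib.MP_8cb858_nt.PU

open Polynomial NumberField IsDedekindDomain Pool.Agent.Lib.MP_8cb858_nt.SEL Matrix
open Pool.Agent.Lib.MP_8cb858_nt.PF
open scoped Classical WithZero

open Pool.Agent.Lib.MP_8cb858_nt.PF.FMAM (Qs zero_mem_Qs levels)

namespace MMAM

variable {F : Type} [Field F] [NumberField F]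

/-- pairs with pattern, first type -/
def S1 (C : ℝ) (ρ : InfinitePlace F → ℝ) (Q W : Finset (Pl F)) (Z : Finset (Finset (Pl F))) : Set (MO F × MO F) :=
  {X ∈ R1 F C ρ | PT.PatW Q ∅ W Z X.1 X.2}

/-- pairs with pattern, second type -/
def S2 (C : ℝ) (ρ : InfinitePlace F → ℝ) (Q W : Finset (Pl F)) (Z : Finset (Finset (Pl F))) (k : ℕ) : Set (MO F × MO F) :=
  {X ∈ R2 F C ρ k | PT.PatW Q ∅ W Z X.1 X.2}

/-- elements of the first type -/
def T1 (D : 𝓞 F) (S : Set (MO F × MO F)) : Set (Σ q : 𝓞 F × 𝓞 F, Sel 2 (cO q.1 q.2 D)) :=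
  {z | ∃ X ∈ S, AtZ D z X}

/-- elements of the second type -/
def T2 (D : 𝓞 F) (S : Set (MO F × MO F)) (k : ℕ) : Set (Σ q : 𝓞 F × 𝓞 F, Sel 2 (cO q.1 q.2 D)) :=
  {z | ∃ Φ : 𝓞 F → MO F × MO F, Set.InjOn Φ (Qs F k) ∧ ∀ q ∈ Qs F k, Φ q ∈ S ∧ AtZ D z (Φ q)}

lemma count1 (hFZ1 : SpecFZ1) {D : 𝓞 F} (hD : D ≠ 0) {S : Set (MO F × MO F)} (hS : S.Finite) :
    (T1 D S).Finite ∧ (T1 D S).ncard ≤ S.ncard :=
  TOTM.lemA (T1 D S) S (AtZ D) (fun z _ z' _ X h h' => hFZ1 F D z z' X hD h h') (fun z hz => hz) hS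

lemma count2 (hFZ1 : SpecFZ1) {D : 𝓞 F} (hD : D ≠ 0) {S : Set (MO F × MO F)} (hS : S.Finite)
    (k : ℕ) : (T2 D S k).Finite ∧ (T2 D S k).ncard * (Qs F k).ncard ≤ S.ncard :=
  TOTM.lemB (T2 D S k) S (Qs F k) (AtZ D) (fun z _ z' _ X h h' => hFZ1 F D z z' X hD h h')
    (fun z hz => hz) hS ⟨0, zero_mem_Qs k⟩

/-- the absolute values of a nonzero element are bounded below -/
lemma low {D : 𝓞 F} (hD : D ≠ 0) : ∃ δ : ℝ, 0 < δ ∧ ∀ v : InfinitePlace F, δ ≤ v (D : F) := by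
  obtain ⟨v, hv⟩ := Finite.exists_min (fun v : InfinitePlace F => v (D : F))
  exact ⟨v (D : F), InfinitePlace.pos_iff.2 (fun h => hD (RingOfIntegers.coe_eq_zero_iff.1 h)), hv⟩

/-- the product formula -/
lemma vol_abs (D : 𝓞 F) : vol (fun v : InfinitePlace F => v (D : F)) = nm D := by
  unfold vol nm
  rw [InfinitePlace.prod_eq_abs_norm, Ideal.absNorm_span_singleton, ← Algebra.coe_norm_int]
  simp [Nat.cast_natAbs]

lemma nm_pos {D : 𝓞 F} (hD : D ≠ 0) : 0 < nm D := by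
  rw [← vol_abs]
  exact Finset.prod_pos fun v _ => pow_pos
    (InfinitePlace.pos_iff.2 (fun h => hD (RingOfIntegers.coe_eq_zero_iff.1 h))) _

end MMAM

open MMAM in
theorem specMMA (hCNL : SEL.SpecCNL.{0}) (hBX2 : SEL.SpecBX2.{0}) (hFZ1 : SpecFZ1)
    (hMZ2 : SpecMZ2) (hMP1 : PT.SpecMP1) (hMP2 : PT.SpecMP2) : SpecMMA := by
  intro F _ _
  obtain ⟨C, P0, hC1, hZ2⟩ := hMZ2 F
  obtain ⟨C1, P1, hC1p, h1⟩ := hMP1 F C hC1
  obtain ⟨C2, P2, hC2p, h2⟩ := hMP2 F C hC1
  obtain ⟨C3, hC3p, h3⟩ := hBX2 F C hC1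
  obtain ⟨c, hc, hL⟩ := hCNL F
  refine ⟨C1 + 2 * (C2 / c) + 1, max P0 (max P1 P2), by positivity, ?_⟩
  intro Q W D Z hD hv hvW hZ
  set n : ℕ := Module.finrank ℚ F with hn
  have hn1 : 1 ≤ n := Module.finrank_pos
  obtain ⟨δ, hδ, hδv⟩ := low hD
  rcases Finset.eq_empty_or_nonempty Z with hZe | hZne
  · refine ⟨0, fun ρ _ => ?_⟩
    have hempty : FS Q D Z ρ = ∅ := by
      ext z
      simp [FS, hZe]
    change (FS Q D Z ρ).Finite ∧ ((FS Q D Z ρ).ncard : ℝ) ≤ _
    rw [hempty]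
    refine ⟨Set.finite_empty, ?_⟩
    rw [hZe]; simp [PT.dnW, dns]
  -- the density
  set d : ℝ := PT.dnW Q ∅ W Z with hd
  have hP1 : ∀ v ∈ W, (1 : ℝ) ≤ (nv v : ℝ) := by
    intro v hvm
    have h0 := (hvW v hvm).1
    have : 1 ≤ nv v := by omega
    exact_mod_cast this
  have hdpos : 0 < d := by
    rw [hd, PT.dnW, dns]
    have : (0 : ℝ) < Z.card := by exact_mod_cast Finset.card_pos.2 hZne
    have e1 : 0 < ∏ v ∈ Q, (1 + 1 / (nv v : ℝ)) ^ 2 / 2 :=
      Finset.prod_pos fun v _ => by positivity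
    have e2 : 0 < ∏ v ∈ (∅ : Finset (Pl F)), (1 + 1 / (nv v : ℝ)) ^ 2 / 3 :=
      Finset.prod_pos fun v _ => by positivity
    have e3 : 0 < ∏ v ∈ W, 4 / (nv v : ℝ) ^ 5 :=
      Finset.prod_pos fun v hvm => by
        have := hP1 v hvm
        have h0 : (0 : ℝ) < (nv v : ℝ) := by linarith
        positivity
    positivity
  set N : ℝ := PT.nmW Q ∅ W with hN
  have hN1 : 1 ≤ N := by
    rw [hN, PT.nmW]
    have hWN : (1 : ℝ) ≤ ∏ v ∈ W, (nv v : ℝ) ^ 3 := by
      calc (1 : ℝ) = ∏ v ∈ W, (1 : ℝ) := by simp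
        _ ≤ ∏ v ∈ W, (nv v : ℝ) ^ 3 := Finset.prod_le_prod (fun _ _ => zero_le_one)
          fun v hvm => one_le_pow₀ (hP1 v hvm)
    refine one_le_mul_of_one_le_of_one_le ?_ hWN
    have : ∀ v ∈ Q ∪ ∅, (1 : ℝ) ≤ (nv v : ℝ) := by
      intro v hvm
      have h0 := (hv v (by simpa using hvm)).1
      have : 1 ≤ nv v := by omega
      exact_mod_cast this
    calc (1 : ℝ) = ∏ v ∈ Q ∪ ∅, (1 : ℝ) := by simp
      _ ≤ ∏ v ∈ Q ∪ ∅, (nv v : ℝ) := Finset.prod_le_prod (fun _ _ => zero_le_one) this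
  -- the threshold
  obtain ⟨k1, hk1⟩ : ∃ k1 : ℕ, 2 * (C3 / c) * (1 / 2 : ℝ) ^ k1 ≤ d := by
    obtain ⟨k1, hk1⟩ := exists_pow_lt_of_lt_one (show 0 < d / (2 * (C3 / c)) by positivity)
      (show (1 / 2 : ℝ) < 1 by norm_num)
    refine ⟨k1, ?_⟩
    rw [lt_div_iff₀ (by positivity)] at hk1
    linarith
  have h4k : (1 : ℝ) ≤ 4 ^ (k1 * n) := one_le_pow₀ (by norm_num)
  have hN4 : 1 ≤ N * 4 ^ (k1 * n) := by nlinarith
  refine ⟨(N * 4 ^ (k1 * n)) / δ, fun ρ hρ => ?_⟩
  set ρ' : InfinitePlace F → ℝ := fun v => v (D : F) * ρ v with hρ'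
  have hρ'N : ∀ v, N * 4 ^ (k1 * n) ≤ ρ' v := fun v => by
    have h1 := hρ v
    rw [div_le_iff₀ hδ] at h1
    have h2 := hδv v
    have h3 : 0 ≤ ρ v := le_trans (div_nonneg (by linarith) hδ.le) (hρ v)
    show N * 4 ^ (k1 * n) ≤ v (D : F) * ρ v
    nlinarith
  have hρ'1 : ∀ v, 1 ≤ ρ' v := fun v => hN4.trans (hρ'N v)
  have hVρ : vol ρ' = nm D * vol ρ := by
    rw [hρ', CNUM.vol_mul (fun v => v (D : F)) ρ, vol_abs]
  have hVN : N * 4 ^ (k1 * n) ≤ vol ρ' := by
    have e1 : N * 4 ^ (k1 * n) ≤ (N * 4 ^ (k1 * n)) ^ n := by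
      have e0 : 1 ≤ N * 4 ^ (k1 * n) := hN4
      calc N * 4 ^ (k1 * n) = (N * 4 ^ (k1 * n)) ^ 1 := by rw [pow_one]
        _ ≤ (N * 4 ^ (k1 * n)) ^ n := pow_le_pow_right₀ e0 hn1
    refine e1.trans ?_
    rw [← CNUM.vol_const (F := F) (N * 4 ^ (k1 * n))]
    exact CNUM.vol_mono (fun _ => by positivity) hρ'N
  have hVN' : N ≤ vol ρ' := by nlinarith
  have hV1 : 1 ≤ vol ρ' := hN1.trans hVN'
  have hV5 : vol ρ' ^ 5 = nm D ^ 5 * vol ρ ^ 5 := by
    rw [hVρ, mul_pow]
  -- the set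
  set T : Set (Σ q : 𝓞 F × 𝓞 F, Sel 2 (cO q.1 q.2 D)) := FS Q D Z ρ with hT
  change T.Finite ∧ (T.ncard : ℝ) ≤ _
  have hv0 : ∀ v ∈ Q, P0 < nv v ∧ D ∉ v.asIdeal := fun v h =>
    ⟨(le_max_left _ _).trans_lt (hv v h).1, (hv v h).2⟩
  have hall : ∀ v ∈ Q ∪ ∅ ∪ W, max P0 (max P1 P2) < nv v := fun v h => by
    rcases Finset.mem_union.1 h with h | h
    · exact (hv v (by simpa using h)).1
    · exact (hvW v h).1
  have hv1 : ∀ v ∈ Q ∪ ∅ ∪ W, P1 < nv v := fun v h =>
    ((le_max_left _ _).trans (le_max_right _ _)).trans_lt (hall v h)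
  have hv2 : ∀ v ∈ Q ∪ ∅ ∪ W, P2 < nv v := fun v h =>
    ((le_max_right _ _).trans (le_max_right _ _)).trans_lt (hall v h)
  have hQe : ∀ v ∈ Q, v ∉ (∅ : Finset (Pl F)) := fun v _ => Finset.notMem_empty v
  have hWQ : ∀ v ∈ W, v ∉ Q ∧ v ∉ (∅ : Finset (Pl F)) := fun v h =>
    ⟨fun h1 => (hv v h1).2 (hvW v h).2, Finset.notMem_empty v⟩
  have hw0 : ∀ v ∈ W, P0 < nv v ∧ D ∈ v.asIdeal := fun v h =>
    ⟨(le_max_left _ _).trans_lt (hvW v h).1, (hvW v h).2⟩
  have hkey := hZ2 Q W D Z ρ hD hv0 hw0 hρ'1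
  obtain ⟨hR2, K, hK⟩ := h3 ρ' hρ'1
  -- first type
  obtain ⟨f1, b1⟩ := h1 Q ∅ W Z hQe hWQ hv1 hZ ρ' hρ'1 hVN'
  obtain ⟨f1', b1'⟩ := count1 hFZ1 hD (S := MMAM.S1 C ρ' Q W Z) f1
  have c1 : ((T1 D (MMAM.S1 C ρ' Q W Z)).ncard : ℝ) ≤ C1 * d * vol ρ' ^ 5 := by
    refine le_trans ?_ b1
    exact_mod_cast b1'
  -- second type
  have hS2fin : ∀ k, (MMAM.S2 C ρ' Q W Z k).Finite := fun k => (hR2 k).1.subset (fun X hX => hX.1)
  have f2 : ∀ k, (T2 D (MMAM.S2 C ρ' Q W Z k) k).Finite := fun k =>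
    (count2 hFZ1 hD (hS2fin k) k).1
  have g2 : ∀ k, ((T2 D (MMAM.S2 C ρ' Q W Z k) k).ncard : ℝ) ≤
      ((MMAM.S2 C ρ' Q W Z k).ncard : ℝ) / c * (1 / 2) ^ k := by
    intro k
    have h' : ((T2 D (MMAM.S2 C ρ' Q W Z k) k).ncard : ℝ) * ((Qs F k).ncard : ℝ) ≤
        ((MMAM.S2 C ρ' Q W Z k).ncard : ℝ) := by
      exact_mod_cast (count2 hFZ1 hD (hS2fin k) k).2
    have hq : c * 2 ^ k ≤ ((Qs F k).ncard : ℝ) := by
      refine le_trans ?_ (hL (fun _ => 2 ^ k) (fun _ => one_le_pow₀ (by norm_num)))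
      exact mul_le_mul_of_nonneg_left (TOTM.vol_two F k) hc.le
    have h5 : ((T2 D (MMAM.S2 C ρ' Q W Z k) k).ncard : ℝ) * (c * 2 ^ k) ≤
        ((MMAM.S2 C ρ' Q W Z k).ncard : ℝ) :=
      (mul_le_mul_of_nonneg_left hq (Nat.cast_nonneg _)).trans h'
    have h6 : (0 : ℝ) < c * 2 ^ k := by positivity
    have h7 : ((T2 D (MMAM.S2 C ρ' Q W Z k) k).ncard : ℝ) ≤
        ((MMAM.S2 C ρ' Q W Z k).ncard : ℝ) / (c * 2 ^ k) := by
      rw [le_div_iff₀ h6]
      exact h5
    refine h7.trans (le_of_eq ?_)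
    rw [one_div, inv_pow]
    field_simp
  have c2 : ∀ k, k < k1 → ((T2 D (MMAM.S2 C ρ' Q W Z k) k).ncard : ℝ) ≤
      (C2 / c * d) * vol ρ' ^ 5 * (1 / 2) ^ k := by
    intro k hk
    refine (g2 k).trans ?_
    have hb : N * 4 ^ (k * n) ≤ vol ρ' := by
      refine le_trans ?_ hVN
      have : (4 : ℝ) ^ (k * n) ≤ 4 ^ (k1 * n) :=
        pow_le_pow_right₀ (by norm_num) (Nat.mul_le_mul_right n hk.le)
      nlinarith
    have h8 := (h2 Q ∅ W Z hQe hWQ hv2 hZ ρ' k hρ'1 hb).2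
    refine mul_le_mul_of_nonneg_right ?_ (by positivity)
    rw [div_le_iff₀ hc]
    refine h8.trans (le_of_eq ?_)
    field_simp
    rfl
  have c3 : ∀ k, ((T2 D (MMAM.S2 C ρ' Q W Z k) k).ncard : ℝ) ≤
      (C3 / c) * vol ρ' ^ 5 * (1 / 2) ^ k := by
    intro k
    refine (g2 k).trans ?_
    have h5 : ((MMAM.S2 C ρ' Q W Z k).ncard : ℝ) ≤ C3 * vol ρ' ^ 5 := by
      refine le_trans ?_ (hR2 k).2
      have h6 : MMAM.S2 C ρ' Q W Z k ⊆ R2 F C ρ' k := fun X hX => hX.1
      exact_mod_cast Set.ncard_le_ncard h6 (hR2 k).1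
    refine mul_le_mul_of_nonneg_right ?_ (by positivity)
    rw [div_le_iff₀ hc]
    refine h5.trans (le_of_eq ?_)
    field_simp
  -- only finitely many levels
  have e2 : ∀ k, K ≤ k → T2 D (MMAM.S2 C ρ' Q W Z k) k = ∅ := by
    intro k hk
    rw [Set.eq_empty_iff_forall_notMem]
    rintro z ⟨Φ, -, h⟩
    have := (h 0 (zero_mem_Qs k)).1.1
    rw [hK k hk] at this
    exact this
  have hsub : T ⊆ T1 D (MMAM.S1 C ρ' Q W Z) ∪ ⋃ k ∈ Finset.range K, T2 D (MMAM.S2 C ρ' Q W Z k) k := by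
    intro z hz
    rcases hkey z hz with ⟨X, hX, hat, hpat⟩ | ⟨k, Φ, hinj, h⟩
    · exact Or.inl ⟨X, ⟨hX, hpat⟩, hat⟩
    · right
      have hzk : z ∈ T2 D (MMAM.S2 C ρ' Q W Z k) k :=
        ⟨Φ, hinj, fun q hq => ⟨⟨(h q hq).1, (h q hq).2.2⟩, (h q hq).2.1⟩⟩
      have hkK : k < K := by
        by_contra hcon
        rw [e2 k (not_lt.1 hcon)] at hzk
        exact hzk
      exact Set.mem_biUnion (Finset.mem_coe.2 (Finset.mem_range.2 hkK)) hzk
  have hUfin : (⋃ k ∈ Finset.range K, T2 D (MMAM.S2 C ρ' Q W Z k) k).Finite :=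
    Set.Finite.biUnion (Finset.range K).finite_toSet fun k _ => f2 k
  have hTfin : T.Finite := (f1'.union hUfin).subset hsub
  refine ⟨hTfin, ?_⟩
  have hU : ((⋃ k ∈ Finset.range K, T2 D (MMAM.S2 C ρ' Q W Z k) k).ncard : ℝ) ≤
      ∑ k ∈ Finset.range K, ((T2 D (MMAM.S2 C ρ' Q W Z k) k).ncard : ℝ) := by
    have h7 : (⋃ k ∈ Finset.range K, T2 D (MMAM.S2 C ρ' Q W Z k) k).ncard ≤
        ∑ k ∈ Finset.range K, (T2 D (MMAM.S2 C ρ' Q W Z k) k).ncard := by
      have h8 : (⋃ k ∈ Finset.range K, T2 D (MMAM.S2 C ρ' Q W Z k) k) =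
          (((Finset.range K).biUnion fun k => (f2 k).toFinset : Finset _) : Set _) := by
        ext z
        simp
      rw [h8, Set.ncard_coe_finset]
      refine Finset.card_biUnion_le.trans (Finset.sum_le_sum fun k _ => ?_)
      rw [Set.ncard_eq_toFinset_card _ (f2 k)]
    exact_mod_cast h7
  have hsum := levels (a := C2 / c * d) (b := C3 / c) (W := vol ρ' ^ 5) (by positivity)
    (by positivity) (by positivity) k1 K hk1
    (fun k => ((T2 D (MMAM.S2 C ρ' Q W Z k) k).ncard : ℝ)) c2 c3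
  have hfinal : (T.ncard : ℝ) ≤ (C1 + 2 * (C2 / c) + 1) * d * vol ρ' ^ 5 := by
    have h18 : T.ncard ≤ (T1 D (MMAM.S1 C ρ' Q W Z)).ncard +
        (⋃ k ∈ Finset.range K, T2 D (MMAM.S2 C ρ' Q W Z k) k).ncard :=
      (Set.ncard_le_ncard hsub (f1'.union hUfin)).trans (Set.ncard_union_le _ _)
    have h19 : (T.ncard : ℝ) ≤ ((T1 D (MMAM.S1 C ρ' Q W Z)).ncard : ℝ) +
        ((⋃ k ∈ Finset.range K, T2 D (MMAM.S2 C ρ' Q W Z k) k).ncard : ℝ) := by
      exact_mod_cast h18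
    calc (T.ncard : ℝ) ≤ C1 * d * vol ρ' ^ 5 + (2 * (C2 / c * d) + d) * vol ρ' ^ 5 := by linarith
      _ = (C1 + 2 * (C2 / c) + 1) * d * vol ρ' ^ 5 := by ring
  refine hfinal.trans (le_of_eq ?_)
  rw [hV5]
  ring

end Pool.Agent.Lib.MP_8cb858_nt.PU
end
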