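import Pool.Agent.Lib.MP_8cb858_nt.PU.Defs

/-!
# Specs, block E: the step theorem over a number field for twists by integers `D` of `F`

Most modules are ports of the modules of `PT/` of the same name: there `D, Ds` were positive natural numbers, here they are nonzero
elements of `𝓞 F`; `(D : v.adicCompletion F)` becomes `lc v D`, `0 < D` becomes `D ≠ 0`, `cN` becomes `cO`, `TrN` becomes `TrO`, and at
the infinite places `Aff 1` becomes `Aff Ds` (`D Ds` is a square there by `Lsq`). The configuration `PT.Cf M Q P a b` and the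
Specs of `PT/` which do not mention `D` (`PT.SpecHAQ`, `PT.SpecSUH`, `PT.SpecKMD`, `PT.SpecLJR`, `PT.SpecNR3`, `PT.SpecFAH` except `dA`)
are used unchanged, as hypotheses (all of them are proved: `PT/All.lean`); the same for the Specs of `PF/`.
Module XXX = file `PU/XXX.lean`, `theorem specXXX (hYYY : SpecYYY) (h : PT.SpecZZZ) .. : SpecXXX`, own lemmas in the namespace
`Pool.Agent.Lib.MP_8cb858_nt.PU.XXXM`. Every Spec is a closed proposition with a complete proof in its doc string.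
-/

namespace Pool.Agent.Lib.MP_8cb858_nt.PU

open Polynomial NumberField IsDedekindDomain Pool.Agent.Lib.MP_8cb858_nt.SEL
open Pool.Agent.Lib.MP_8cb858_nt.PF
open scoped Classical WithZero

/-! ## E1. Infinite places -/

/-- **LIT** (120 lines; from `PT.SpecLIT`, `PF.SpecTWD`). The infinite places, for the twist by `D`.
Proof. `PF.SpecTWD` for `K = v.Completion` and the image `δ` of `D`: `κ : Lk a b → Lk (a δ^2) (b δ^3)` (multiplicative, `InV` is preserved,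
`Aff δ α ↔ Aff 1 (κ α)`, squares). `PT.SpecLIT` for `(a D^2, b D^3)` (`dsc` is multiplied by `D^6 ≠ 0`; `Thr v (a D^2) (b D^3) ↔ Thr v a b`
because `D^6` is positive in a real embedding). Generalise `algebraMap (a D^2) = x` before rewriting it as
`(algebraMap a) δ^2`. -/
structure SpecLIT : Prop where
  grp : ∀ (F : Type) [Field F] [NumberField F] (v : InfinitePlace F) (a b D : F)
    (α β : Lk (algebraMap F v.Completion a) (algebraMap F v.Completion b)), dsc a b ≠ 0 → D ≠ 0 →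
    InV α → InV β → Aff (algebraMap F v.Completion D) α → Aff (algebraMap F v.Completion D) β →
    Aff (algebraMap F v.Completion D) (α * β)
  sqa : ∀ (F : Type) [Field F] [NumberField F] (v : InfinitePlace F) (a b D : F)
    (α : Lk (algebraMap F v.Completion a) (algebraMap F v.Completion b)), dsc a b ≠ 0 → D ≠ 0 →
    InV α → IsSquare α → Aff (algebraMap F v.Completion D) α
  col : ∀ (F : Type) [Field F] [NumberField F] (v : InfinitePlace F) (a b D : F), dsc a b ≠ 0 →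
    D ≠ 0 →
    ∃ c : Lk (algebraMap F v.Completion a) (algebraMap F v.Completion b) →
      Fin (if PT.Thr v a b then 2 else 1),
      ∀ α β, InV α → InV β → c α = c β → Aff (algebraMap F v.Completion D) (α * β)

/-- **DAF** (60 lines; from `PF.SpecAFI` `dd`). Change of the twist by a local square.
Proof. `Lsq M (D Ds)`: `D`, `Ds` are nonzero in the completions (injectivity of `F → K`), the image of `D Ds` is the product of the
images: AFI `dd`. Third part: the same for all places. -/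
structure SpecDAF : Prop where
  fin : ∀ {F : Type} [Field F] [NumberField F] {a b : 𝓞 F} (M : Finset (Pl F)) (D Ds : 𝓞 F),
    D ≠ 0 → Ds ≠ 0 → Lsq M ((D * Ds : 𝓞 F) : F) → ∀ v ∈ M, ∀ α : Lk (lc v a) (lc v b),
      (Aff (lc v D) α ↔ Aff (lc v Ds) α)
  inf : ∀ {F : Type} [Field F] [NumberField F] {a b : F} (M : Finset (Pl F)) (D Ds : 𝓞 F),
    D ≠ 0 → Ds ≠ 0 → Lsq M ((D * Ds : 𝓞 F) : F) → ∀ (v : InfinitePlace F)
      (α : Lk (algebraMap F v.Completion a) (algebraMap F v.Completion b)),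
      (Aff (algebraMap F v.Completion (D : F)) α ↔ Aff (algebraMap F v.Completion (Ds : F)) α)
  sel : ∀ {F : Type} [Field F] [NumberField F] (a b D t : F), D ≠ 0 → t ≠ 0 →
    SelSet a b (D * t ^ 2) = SelSet a b D

/-! ## E2. The structure of the Selmer groups -/

/-- **SLH** (port of `PT/SLH.lean`). The local conditions of the 2-Selmer group of `E^D`.
Proof. Infinite places and `v ∈ M`: DAF. `v ∈ P`: LV, LZ, EVF: both sides hold (`D ≠ 0`). `v ∉ M, P, Q` or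
`v ∈ Q \ T`: `w D = 1`, LG. `v ∈ T`: LT. -/
def SpecSLH : Prop :=
  ∀ (F : Type) [Field F] [NumberField F] (M Q P T : Finset (Pl F)) (Ds D : 𝓞 F) (a b : 𝓞 F),
    PT.Cf M Q P a b → Ds ≠ 0 → Ad M P T Ds D → T ⊆ Q →
    ∀ α : Lk (a : F) (b : F), α ∈ SelSet (a : F) (b : F) (D : F) ↔ α ∈ Wh M Q Ds a b ∧ Cnd Q T α

/-- **RCH** (port of `PT/RCH.lean`). Reciprocity on `Wh`.
Proof. `PT.RecFor F Q`. `Iso` at `v ∉ Q`: `v ∈ M`: `Aff Ds`, AFI `iso`; `v ∈ P`: a square (LV), AFI `inv`, ADJ `one`; otherwise `Ev`, LG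
(`D = 1`), AFI `iso`. Infinite places: `Aff Ds`, AFI `iso`. -/
def SpecRCH : Prop :=
  ∀ (F : Type) [Field F] [NumberField F] (M Q P : Finset (Pl F)) (Ds : 𝓞 F) (a b : 𝓞 F),
    PT.RecFor F Q → PT.Cf M Q P a b → Ds ≠ 0 → ∀ α ∈ Wh M Q Ds a b, ∑ v ∈ Q, ee v α * ss v α = 0

/-- **ELH** (port of `PT/ELH.lean`). `Wh` is a group. Proof: INV, EVF, at `v ∈ M` `PT.SpecKMD` `grp` (`w (Ds) ≤ 1`) and LZ, LIT `grp`,
`sqa`. -/
def SpecELH : Prop :=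
  ∀ (F : Type) [Field F] [NumberField F] (M Q P : Finset (Pl F)) (Ds : 𝓞 F) (a b : 𝓞 F),
    PT.Cf M Q P a b → Ds ≠ 0 → (1 : Lk (a : F) (b : F)) ∈ Wh M Q Ds a b ∧
    ∀ α ∈ Wh M Q Ds a b, ∀ β ∈ Wh M Q Ds a b, α * β ∈ Wh M Q Ds a b

/-- **WCH** (port of `PT/WCH.lean`). Many elements of `Wh`.
Proof. As in `PT/WCH.lean` with `PT.SpecKMD` `col` for `Ds` and LIT `col` for `Ds`. -/
def SpecWCH : Prop :=
  ∀ (F : Type) [Field F] [NumberField F] (M Q P : Finset (Pl F)) (Ds : 𝓞 F) (a b : 𝓞 F),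
    PT.Cf M Q P a b → Ds ≠ 0 →
    ∃ G : Finset (Lk (a : F) (b : F)), 2 ^ Q.card ≤ G.card ∧ (∀ α ∈ G, α ∈ Wh M Q Ds a b) ∧
      ∀ α ∈ G, ∀ β ∈ G, α ≠ β → ¬ IsSquare (α * β)

/-- **RPH** (port of `PT/RPH.lean`). `1` is in `SelSet`: LZ, LIT `sqa`. -/
def SpecRPH : Prop :=
  ∀ (F : Type) [Field F] [NumberField F] (a b D : F), dsc a b ≠ 0 → D ≠ 0 →
    Rep D (1 : Lk a b) (0 : Sel 2 (cur a b D)) ∧
    ∀ (α : Lk a b) (z : Sel 2 (cur a b D)), Rep D α z → (z = 0 ↔ IsSquare α)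

/-- **TVL** (port of `PT/TVL.lean`; local form). `Triv` at a place of type (1,2), good for `E^D`. -/
def SpecTVL : Prop :=
  ∀ (F : Type) [Field F] [NumberField F] (a b D : 𝓞 F) (v : Pl F),
    D ≠ 0 → (6 : 𝓞 F) ∉ v.asIdeal → D ∉ v.asIdeal → (∀ x : 𝓞 F, x ^ 2 + dsc a b ∉ v.asIdeal) →
    ∀ (α : Lk (a : F) (b : F)) (z : Sel 2 (cO a b D)), Rep (D : F) α z →
      Ev (vv v) (ul v α) ∧ (TrO D v z ↔ IsSquare (ul v α))

/-- **TRL** (port of `PT/TRL.lean`). Triviality is given by a character. -/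
def SpecTRL : Prop :=
  ∀ (F : Type) [Field F] [NumberField F] (a b D : 𝓞 F) (v : Pl F),
    D ≠ 0 → (6 : 𝓞 F) ∉ v.asIdeal → D ∉ v.asIdeal → (∀ x : 𝓞 F, x ^ 2 + dsc a b ∉ v.asIdeal) →
    ∀ z w : Sel 2 (cO a b D), TrO D v (z + w) ↔ (TrO D v z ↔ TrO D v w)

/-- **KRH** (port of `PT/KRH.lean`). For good `(a, b)` the coordinates are injective on `Wh` modulo squares. -/
def SpecKRH : Prop :=
  ∀ (F : Type) [Field F] [NumberField F] (M Q P : Finset (Pl F)) (Ds D0 : 𝓞 F) (a b : 𝓞 F),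
    PT.Cf M Q P a b → Ds ≠ 0 → Ad M P ∅ Ds D0 →
    (∀ z : Sel 2 (cO a b D0), (∀ v ∈ Q, TrO D0 v z) → z = 0) →
    ∀ α ∈ Wh M Q Ds a b, (∀ v ∈ Q, ee v α = 0 ∧ ss v α = 0) → IsSquare α

/-- **WGH** (port of `PT/WGH.lean`). The subgroup of the vectors of coordinates. -/
def SpecWGH : Prop :=
  ∀ (F : Type) [Field F] [NumberField F] (M Q P : Finset (Pl F)) (Ds D0 : 𝓞 F) (a b : 𝓞 F),
    PT.RecFor F Q → PT.Cf M Q P a b → Ds ≠ 0 → Ad M P ∅ Ds D0 →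
    (∀ z : Sel 2 (cO a b D0), (∀ v ∈ Q, TrO D0 v z) → z = 0) →
    ∃ W : AddSubgroup ({v // v ∈ Q} → ZMod 2 × ZMod 2),
      (∀ w, w ∈ W ↔ ∃ α ∈ Wh M Q Ds a b, ∀ v, w v = (ee v.1 α, ss v.1 α)) ∧
      (∀ w ∈ W, ∑ v, (w v).1 * (w v).2 = 0) ∧
      2 ^ Fintype.card {v // v ∈ Q} ≤ Nat.card W

/-- **CRH** (port of `PT/CRH.lean`). The Selmer group is counted by vectors. -/
def SpecCRH : Prop :=
  ∀ (F : Type) [Field F] [NumberField F] (M Q P : Finset (Pl F)) (Ds D0 : 𝓞 F) (a b : 𝓞 F),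
    PT.RecFor F Q → PT.Cf M Q P a b → Ds ≠ 0 → Ad M P ∅ Ds D0 →
    (∀ z : Sel 2 (cO a b D0), (∀ v ∈ Q, TrO D0 v z) → z = 0) →
    ∀ (T : Finset (Pl F)) (D : 𝓞 F), T ⊆ Q → Ad M P T Ds D →
    Nat.card (Sel 2 (cO a b D)) =
      {w : {v // v ∈ Q} → ZMod 2 × ZMod 2 |
        (∃ α ∈ Wh M Q Ds a b, ∀ v, w v = (ee v.1 α, ss v.1 α)) ∧
        (∀ v, v.1 ∉ T → (w v).1 = 0) ∧ ∀ v, v.1 ∈ T → (w v).2 = 0}.ncard

/-- **STH** (port of `PT/STH.lean`). The step theorem. -/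
def SpecSTH : Prop :=
  ∀ (F : Type) [Field F] [NumberField F] (M Q P : Finset (Pl F)) (Ds D0 : 𝓞 F) (a b : 𝓞 F),
    PT.RecFor F Q → PT.Cf M Q P a b → Ds ≠ 0 → Ad M P ∅ Ds D0 →
    (∀ z : Sel 2 (cO a b D0), (∀ v ∈ Q, TrO D0 v z) → z = 0) →
    (∀ T ⊆ Q, ∀ D D' : 𝓞 F, Ad M P T Ds D → Ad M P T Ds D' →
      Nat.card (Sel 2 (cO a b D)) = Nat.card (Sel 2 (cO a b D'))) ∧
    ∀ T ⊆ Q, ∀ v ∈ Q, v ∉ T → ∀ D D' : 𝓞 F, Ad M P T Ds D → Ad M P (insert v T) Ds D' →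
      ((∀ z : Sel 2 (cO a b D), TrO D v z) →
        Nat.card (Sel 2 (cO a b D')) = 2 * Nat.card (Sel 2 (cO a b D))) ∧
      (¬ (∀ z : Sel 2 (cO a b D), TrO D v z) →
        2 * Nat.card (Sel 2 (cO a b D')) = Nat.card (Sel 2 (cO a b D)))

/-- **SEQ** (port of `PT/SEQ.lean`, for `D, D'` in `F`). Comparison of Selmer groups by local conditions. -/
def SpecSEQ : Prop :=
  ∀ (F : Type) [Field F] [NumberField F] (a b D D' : F), dsc a b ≠ 0 → D ≠ 0 → D' ≠ 0 →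
    Finite (Sel 2 (cur a b D')) → SelSet a b D ⊆ SelSet a b D' →
    Nat.card (Sel 2 (cur a b D)) ≤ Nat.card (Sel 2 (cur a b D'))

/-- **SFN** (port of `PF/SFN.lean`). Finiteness of the Selmer groups, exponent 2. -/
def SpecSFN : Prop :=
  ∀ (F : Type) [Field F] [NumberField F] (a b D : 𝓞 F), dsc a b ≠ 0 → D ≠ 0 →
    Finite (Sel 2 (cO a b D)) ∧ ∀ z : Sel 2 (cO a b D), z + z = 0

/-- **JNH** (port of `PT/JNH.lean`). The junk lemma.
Proof. As in `PT/JNH.lean`; at the infinite places and at `v ∈ M` DAF (`Lsq M (D1 D2)`) and LIT `grp`, `PT.SpecKMD` `grp`. -/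
def SpecJNH : Prop :=
  ∀ (F : Type) [Field F] [NumberField F] (M P J : Finset (Pl F)) (a b : 𝓞 F)
    (D1 D2 : 𝓞 F), dsc a b ≠ 0 → (∀ v : Pl F, (6 : 𝓞 F) ∈ v.asIdeal → v ∈ M) →
    (∀ v : Pl F, v ∉ M → dsc a b ∉ v.asIdeal ^ 2) →
    (∀ v ∈ P, v ∉ M ∧ ∀ x : 𝓞 F, x ^ 3 + a * x + b ∉ v.asIdeal) →
    (∀ v ∈ J, v ∉ M ∧ dsc a b ∉ v.asIdeal ∧ vv v (lc v D1) = WithZero.exp (-1 : ℤ)) →
    D1 ≠ 0 → D2 ≠ 0 → Lsq M ((D1 * D2 : 𝓞 F) : F) →
    (∀ v : Pl F, v ∉ M → v ∉ J → v ∉ P → vv v (lc v D1) = 1 ∧ vv v (lc v D2) = 1) →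
    Nat.card (Sel 2 (cO a b D1)) ≤ 4 ^ J.card * Nat.card (Sel 2 (cO a b D2))

/-! ## E3. Summary for the other blocks -/

/-- **REC** (block R, `PU/SpecR.lean`). Reciprocity for all finite sets of odd unramified places. -/
def SpecREC : Prop :=
  ∀ (F : Type) [Field F] [NumberField F] (Q : Finset (Pl F)),
    (∀ v ∈ Q, (2 : 𝓞 F) ∉ v.asIdeal ∧ Unr v) → PT.RecFor F Q

/-- **STP** (20 lines; from STH, REC). The step theorem. -/
def SpecSTP : Prop :=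
  ∀ (F : Type) [Field F] [NumberField F] (M Q P : Finset (Pl F)) (Ds : 𝓞 F) (a b : 𝓞 F),
    Gm M → PT.Cf M Q P a b → Ds ≠ 0 →
    (∃ D0 : 𝓞 F, Ad M P ∅ Ds D0 ∧ ∀ z : Sel 2 (cO a b D0), (∀ v ∈ Q, TrO D0 v z) → z = 0) →
    (∀ T ⊆ Q, ∀ D D' : 𝓞 F, Ad M P T Ds D → Ad M P T Ds D' → sc (a, b) D = sc (a, b) D') ∧
    ∀ T ⊆ Q, ∀ v ∈ Q, v ∉ T → ∀ D D' : 𝓞 F, Ad M P T Ds D → Ad M P (insert v T) Ds D' →
      ((∀ z : Sel 2 (cO a b D), TrO D v z) → sc (a, b) D' = 2 * sc (a, b) D) ∧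
      (¬ (∀ z : Sel 2 (cO a b D), TrO D v z) → 2 * sc (a, b) D' = sc (a, b) D)

/-- **JNK** (port of `PT/JNZ.lean`, 30 lines; from JNH). -/
def SpecJNK : Prop :=
  ∀ (F : Type) [Field F] [NumberField F] (M P J : Finset (Pl F)) (E : 𝓞 F × 𝓞 F)
    (D1 D2 : 𝓞 F), Gm M → Sf M E → dsc E.1 E.2 ≠ 0 → (∀ v ∈ P, v ∉ M ∧ Y3 v E) →
    (∀ v ∈ J, v ∉ M ∧ dsc E.1 E.2 ∉ v.asIdeal ∧ vv v (lc v D1) = WithZero.exp (-1 : ℤ)) →
    D1 ≠ 0 → D2 ≠ 0 → Lsq M ((D1 * D2 : 𝓞 F) : F) →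
    (∀ v : Pl F, v ∉ M → v ∉ J → v ∉ P → vv v (lc v D1) = 1 ∧ vv v (lc v D2) = 1) →
    sc E D1 ≤ 4 ^ J.card * sc E D2

/-- **GEN** (80 lines; from SFN, SEQ, DAF, BR). General facts.
Proof. `fin`: SFN; a finite group of exponent 2 has `2^s` elements. `sqt`: for `D, D' ∈ 𝓞 F` with `D' = D t^2` in `F`: DAF `sel`, SEQ in both
directions. -/
structure SpecGEN : Prop where
  fin : ∀ (F : Type) [Field F] [NumberField F] (E : 𝓞 F × 𝓞 F) (D : 𝓞 F), dsc E.1 E.2 ≠ 0 →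
    D ≠ 0 → Finite (Sel 2 (cO E.1 E.2 D)) ∧ (∀ z : Sel 2 (cO E.1 E.2 D), z + z = 0) ∧
      ∃ s : ℕ, sc E D = 2 ^ s
  sqt : ∀ (F : Type) [Field F] [NumberField F] (E : 𝓞 F × 𝓞 F) (D : 𝓞 F) (D' t : F),
    dsc E.1 E.2 ≠ 0 → D ≠ 0 → t ≠ 0 → D' = (D : F) * t ^ 2 →
    Nat.card (Sel 2 (cur (E.1 : F) (E.2 : F) D')) = sc E D

end Pool.Agent.Lib.MP_8cb858_nt.PU
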