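import Pool.Agent.Lib.MP_8cb858_nt.PF.SpecE
import Pool.Agent.Lib.MP_8cb858_nt.SEL.Spec
import Pool.Agent.Lib.MP_8cb858_nt.PT.SpecE
import Pool.Agent.Lib.MP_8cb858_nt.PF.SpecA
import Pool.Agent.Lib.MP_8cb858_nt.PF.SpecB
import Pool.Agent.Lib.MP_8cb858_nt.PF.SpecO
import Mathlib.NumberTheory.LegendreSymbol.QuadraticChar.Basic
import Pool.Agent.Lib.MP_8cb858_nt.PU.SpecE

section
/-!
# WGR: the subgroup of the vectors of coordinates (every number field)
-/
namespace Pool.Agent.Lib.MP_8cb858_nt.PF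

open Polynomial NumberField IsDedekindDomain Pool.Agent.Lib.MP_8cb858_nt.SEL
open scoped Classical WithZero

namespace WGRM

variable {F : Type} [Field F] [NumberField F] {k : ℕ} {cl : 𝓞 F × 𝓞 F}
  {Q P : Finset (HeightOneSpectrum (𝓞 F))} {a b : 𝓞 F}

/-- The vector of the coordinates of a class. -/
noncomputable def vec (Q : Finset (HeightOneSpectrum (𝓞 F))) (a b : 𝓞 F) (α : Lk (a : F) (b : F)) :
    {v // v ∈ Q} → ZMod 2 × ZMod 2 := fun v => (ee v.1 α, ss v.1 α)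

theorem vec_mul (hHAP : SpecHAP) (hk : 0 < k) (h6 : 6 ∣ k) (hQ : Act k Q) (hP : Cmp k Q P) (hf : (a, b) ∈ Fam k cl Q P)
    {α β : Lk (a : F) (b : F)} (ha : InV α) (hb : InV β) :
    vec Q a b (α * β) = vec Q a b α + vec Q a b β := by
  funext v
  have h := hHAP F k cl Q P a b hk h6 hQ hP hf v.1 v.2 α β ha hb
  exact Prod.ext h.1 h.2.1

theorem add_self (x : ZMod 2 × ZMod 2) : x + x = 0 := by
  revert x; decide

theorem vadd_self {ι : Type} (w : ι → ZMod 2 × ZMod 2) : w + w = 0 := by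
  funext v
  exact add_self (w v)

theorem vec_one (hELF : SpecELF) (hHAP : SpecHAP) (hk : 0 < k) (h6 : 6 ∣ k) (hQ : Act k Q) (hP : Cmp k Q P)
    (hf : (a, b) ∈ Fam k cl Q P) : vec Q a b 1 = 0 := by
  have h1 : InV (1 : Lk (a : F) (b : F)) := (hELF F k cl Q P a b hk h6 hQ hP hf).1.1
  have h := vec_mul hHAP hk h6 hQ hP hf h1 h1
  rw [mul_one, vadd_self] at h
  exact h

/-- Two classes with the same vector have a square as product. -/
theorem sq_of_vec (hELF : SpecELF) (hHAP : SpecHAP) (hKRN : SpecKRN)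
    (hk : 0 < k) (h6 : 6 ∣ k) (hQ : Act k Q) (hP : Cmp k Q P) (hf : (a, b) ∈ Fam k cl Q P)
    (hg : ∀ z : Sel 2 (cN a b 1), (∀ v ∈ Q, TrN 1 v z) → z = 0)
    {α β : Lk (a : F) (b : F)} (ha : α ∈ Wg k Q a b) (hb : β ∈ Wg k Q a b)
    (h : vec Q a b α = vec Q a b β) : IsSquare (α * β) := by
  have h0 : vec Q a b (α * β) = 0 := by
    rw [vec_mul hHAP hk h6 hQ hP hf ha.1 hb.1, h, vadd_self]
  refine hKRN F k cl Q P a b hk h6 hQ hP hf hg _ ((hELF F k cl Q P a b hk h6 hQ hP hf).2 α ha β hb) fun v hv => ?_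
  have h1 := congrFun h0 ⟨v, hv⟩
  exact ⟨congrArg Prod.fst h1, congrArg Prod.snd h1⟩

end WGRM

theorem specWGR (hELF : SpecELF) (hHAP : SpecHAP) (hRCE : SpecRCE) (hWCT : SpecWCT)
    (hKRN : SpecKRN) : SpecWGR := by
  intro F _ _ k cl Q P a b hk h6 hQ hP hf hg
  refine ⟨{
      carrier := {w | ∃ α ∈ Wg k Q a b, ∀ v, w v = (ee v.1 α, ss v.1 α)}
      add_mem' := ?_
      zero_mem' := ?_
      neg_mem' := ?_ }, fun w => Iff.rfl, ?_, ?_⟩
  · rintro w w' ⟨α, ha, h⟩ ⟨β, hb, h'⟩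
    refine ⟨α * β, (hELF F k cl Q P a b hk h6 hQ hP hf).2 α ha β hb, fun v => ?_⟩
    have h1 := congrFun (WGRM.vec_mul hHAP hk h6 hQ hP hf ha.1 hb.1) v
    rw [Pi.add_apply, h v, h' v]
    exact h1.symm
  · refine ⟨1, (hELF F k cl Q P a b hk h6 hQ hP hf).1, fun v => ?_⟩
    exact (congrFun (WGRM.vec_one hELF hHAP hk h6 hQ hP hf) v).symm
  · rintro w ⟨α, ha, h⟩
    refine ⟨α, ha, fun v => ?_⟩
    rw [Pi.neg_apply, neg_eq_of_add_eq_zero_right (WGRM.add_self (w v))]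
    exact h v
  · rintro w ⟨α, ha, h⟩
    have h1 := hRCE F k cl Q P a b hk h6 hQ hP hf α ha
    rw [Finset.sum_subtype Q (fun x => Iff.rfl) (fun v => ee v α * ss v α)] at h1
    rw [← h1]
    refine Finset.sum_congr rfl fun v _ => ?_
    rw [h v]
  · obtain ⟨G, hG1, hG2, hG3⟩ := hWCT F k cl Q P a b hk h6 hQ hP hf
    have hcard : Fintype.card {v // v ∈ Q} = Q.card := Fintype.card_coe _
    rw [hcard]
    refine hG1.trans ?_
    rw [← Nat.card_eq_finsetCard]
    refine Nat.card_le_card_of_injective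
      (fun α : G => ⟨WGRM.vec Q a b α.1, α.1, hG2 α.1 α.2, fun v => rfl⟩) ?_
    intro α β hab
    by_contra hne
    have h1 : WGRM.vec Q a b α.1 = WGRM.vec Q a b β.1 := congrArg Subtype.val hab
    exact hG3 α.1 α.2 β.1 β.2 (fun h => hne (Subtype.ext h))
      (WGRM.sq_of_vec hELF hHAP hKRN hk h6 hQ hP hf hg (hG2 α.1 α.2) (hG2 β.1 β.2) h1)

end Pool.Agent.Lib.MP_8cb858_nt.PF
end

section
/-!
# CRD: the Selmer group of the twist is counted by vectors (every number field)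
-/
namespace Pool.Agent.Lib.MP_8cb858_nt.PF

open Polynomial NumberField IsDedekindDomain Pool.Agent.Lib.MP_8cb858_nt.SEL
open scoped Classical WithZero

theorem specCRD (hBR : SpecBR) (hSLC : SpecSLC) (hELF : SpecELF) (hHAP : SpecHAP)
    (hKRN : SpecKRN) (hRP0 : SpecRP0) (hSFN : SpecSFN) (hFAC : SpecFAC) (hFAP : SpecFAP) :
    SpecCRD := by
  intro F _ _ k cl Q P a b hk h6 hQ hP hf hg T m hT hm
  have hd : dsc (a : F) (b : F) ≠ 0 := (hFAC.ne0 h6 hP hf).2.1
  have hd0 : dsc a b ≠ 0 := (hFAC.ne0 h6 hP hf).1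
  have hpos : 0 < m * pr T := (hFAP.dD hk hQ hm hT).2
  have hD : ((m * pr T : ℕ) : F) ≠ 0 := Nat.cast_ne_zero.2 hpos.ne'
  have hself := (hSFN F a b (m * pr T) hd0 hpos).2
  -- choice of a representative
  choose r hr using fun z : Sel 2 (cN a b (m * pr T)) => hBR.surj hd hD z
  have hmem : ∀ (α : Lk (a : F) (b : F)) (z : Sel 2 (cN a b (m * pr T))),
      Rep ((m * pr T : ℕ) : F) α z → α ∈ Wg k Q a b ∧ Cnd Q T α := fun α z h =>
    (hSLC F k cl Q P T m a b hk h6 hQ hP hm hf hT α).1 (hBR.sel hd hD α z h)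
  -- two representatives have the same vector
  have hwd : ∀ (α β : Lk (a : F) (b : F)), α ∈ Wg k Q a b → β ∈ Wg k Q a b → IsSquare (α * β) →
      WGRM.vec Q a b α = WGRM.vec Q a b β := by
    intro α β ha hb hs
    have h0 : WGRM.vec Q a b (α * β) = 0 := by
      funext v
      have hab := (hELF F k cl Q P a b hk h6 hQ hP hf).2 α ha β hb
      have h := hHAP F k cl Q P a b hk h6 hQ hP hf v.1 v.2 (α * β) (α * β) hab.1 hab.1
      have h1 := h.2.2.2.1.2 (hs.map (upr (algebraMap F (v.1.adicCompletion F)) (a : F) (b : F)))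
      exact Prod.ext h1.1 h1.2
    rw [WGRM.vec_mul hHAP hk h6 hQ hP hf ha.1 hb.1] at h0
    have h1 := WGRM.vadd_self (WGRM.vec Q a b β)
    exact add_right_cancel (h0.trans h1.symm)
  rw [← Nat.card_coe_set_eq]
  refine Nat.card_congr (Equiv.ofBijective
    (fun z => ⟨WGRM.vec Q a b (r z), ⟨r z, (hmem _ z (hr z)).1, fun v => rfl⟩,
      fun v hv => ((hmem _ z (hr z)).2 v.1 v.2).2 hv,
      fun v hv => ((hmem _ z (hr z)).2 v.1 v.2).1 hv⟩) ⟨?_, ?_⟩)
  · intro z w hzw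
    have h1 : WGRM.vec Q a b (r z) = WGRM.vec Q a b (r w) := congrArg Subtype.val hzw
    have h2 := WGRM.sq_of_vec hELF hHAP hKRN hk h6 hQ hP hf hg (hmem _ z (hr z)).1
      (hmem _ w (hr w)).1 h1
    have h3 := hBR.mul hd hD _ _ z w (hr z) (hr w)
    have h4 := ((hRP0 F (a : F) (b : F) ((m * pr T : ℕ) : F) hf.1 hd hD).2 _ _ h3).2 h2
    exact add_right_cancel (h4.trans (hself w).symm)
  · rintro ⟨w, ⟨α, ha, hw⟩, h1, h2⟩
    have hc : Cnd Q T α := by
      intro v hv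
      have hv' := hw ⟨v, hv⟩
      refine ⟨fun hs => ?_, fun hs => ?_⟩
      · have := h2 ⟨v, hv⟩ hs
        rw [hv'] at this
        exact this
      · have := h1 ⟨v, hv⟩ hs
        rw [hv'] at this
        exact this
    obtain ⟨z, hz⟩ := hBR.ex hd hD α
      ((hSLC F k cl Q P T m a b hk h6 hQ hP hm hf hT α).2 ⟨ha, hc⟩)
    refine ⟨z, Subtype.ext ?_⟩
    have h3 := hwd _ _ (hmem _ z (hr z)).1 ha (hBR.inj hd hD _ _ z (hr z) hz)
    exact h3.trans (funext fun v => (hw v).symm)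

end Pool.Agent.Lib.MP_8cb858_nt.PF
end

section
/-!
# ELF: `Wg` is a group
-/
set_option autoImplicit false

namespace Pool.Agent.Lib.MP_8cb858_nt.PF

open Polynomial NumberField IsDedekindDomain Pool.Agent.Lib.MP_8cb858_nt.SEL
open scoped Classical WithZero

theorem specELF (hINV : SpecINV) (hEVF : SpecEVF) (hKML : SpecKML) (hLZ : SpecLZ) (hNF : SpecNF)
    (hFAC : SpecFAC) : SpecELF := by
  intro F _ _ k cl Q P a b hk h6 hA hC hF
  have hd := (hFAC.ne0 h6 hC hF).2.2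
  have h1 : ∀ v : HeightOneSpectrum (𝓞 F), ul v (1 : Lk (a : F) (b : F)) = 1 := fun v => by
    unfold ul up
    rw [map_one]
  have hm : ∀ (v : HeightOneSpectrum (𝓞 F)) (α β : Lk (a : F) (b : F)),
      ul v (α * β) = ul v α * ul v β := fun v α β => by
    unfold ul up
    rw [map_mul]
  have hup : ∀ (v : HeightOneSpectrum (𝓞 F)) (α : Lk (a : F) (b : F)), InV α → InV (ul v α) :=
    fun v α h => hINV.upv _ α h
  refine ⟨⟨⟨isUnit_one, ?_⟩, fun v _ => ?_, fun v _ _ => ?_⟩, fun α hα β hβ =>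
    ⟨hINV.mul α β hα.1 hβ.1, fun v hv => ?_, fun v hv hvQ => ?_⟩⟩
  · rw [map_one]
    exact ⟨1, (mul_one 1).symm⟩
  · rw [h1]
    exact hLZ (v.adicCompletion F) (vv v) _ _ 1 1 (hNF.lf F v) one_ne_zero ⟨1, (mul_one 1).symm⟩
  · rw [h1]
    exact (hEVF (v.adicCompletion F) (vv v) _ _ 1 1 (hFAC.int v a) (hFAC.int v b)).2.2
      isUnit_one ⟨1, (mul_one 1).symm⟩
  · rw [hm]
    exact hKML (v.adicCompletion F) (vv v) _ _ _ _ (hNF.lf F v) (hFAC.int v a) (hFAC.int v b) (hd v)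
      (hup v α hα.1) (hup v β hβ.1) (hα.2.1 v hv) (hβ.2.1 v hv)
  · rw [hm]
    exact (hEVF (v.adicCompletion F) (vv v) _ _ _ _ (hFAC.int v a) (hFAC.int v b)).1
      (hα.2.2 v hv hvQ) (hβ.2.2 v hv hvQ)

end Pool.Agent.Lib.MP_8cb858_nt.PF
end

section
/-!
# Module FAP: elementary facts on the places (helper68)
-/
namespace Pool.Agent.Lib.MP_8cb858_nt.PF

open Polynomial NumberField IsDedekindDomain Pool.Agent.Lib.MP_8cb858_nt.SEL
open scoped Classical WithZero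

namespace FAPM

/-! ### the value group -/

theorem lt_one_iff (x : ℤᵐ⁰) : x < 1 ↔ x ≤ WithZero.exp (-1 : ℤ) := by
  by_cases hx : x = 0
  · rw [hx]
    exact ⟨fun _ => zero_le, fun _ => zero_lt_one⟩
  · rw [← WithZero.exp_log hx, ← WithZero.exp_zero, WithZero.exp_lt_exp, WithZero.exp_le_exp]
    omega

theorem eq_of_not_le {x : ℤᵐ⁰} (h : ¬ x ≤ WithZero.exp (-2 : ℤ)) :
    WithZero.exp (-1 : ℤ) ≤ x := by
  have hx : x ≠ 0 := by
    rintro rfl
    exact h zero_le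
  rw [← WithZero.exp_log hx, WithZero.exp_le_exp] at h ⊢
  omega

variable {F : Type} [Field F] [NumberField F]

theorem lc_nat (v : HeightOneSpectrum (𝓞 F)) (n : ℕ) :
    lc v ((n : ℕ) : 𝓞 F) = ((n : ℕ) : v.adicCompletion F) := by
  show algebraMap F (v.adicCompletion F) (algebraMap (𝓞 F) F ((n : ℕ) : 𝓞 F)) = _
  rw [map_natCast, map_natCast]

/-- the map from the integers to the completion -/
noncomputable def lcr (v : HeightOneSpectrum (𝓞 F)) : 𝓞 F →+* v.adicCompletion F :=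
  (algebraMap F (v.adicCompletion F)).comp (algebraMap (𝓞 F) F)

theorem lcr_apply (v : HeightOneSpectrum (𝓞 F)) (x : 𝓞 F) : lcr v x = lc v x := rfl

theorem lcr_inj (v : HeightOneSpectrum (𝓞 F)) : Function.Injective (lcr v) :=
  (algebraMap F (v.adicCompletion F)).injective.comp (RingOfIntegers.coe_injective)

variable (hNF : SpecNF) (v : HeightOneSpectrum (𝓞 F))

include hNF

theorem le_one (x : 𝓞 F) : vv v (lc v x) ≤ 1 := (hNF.int F v x 0).1

theorem mem_iff (x : 𝓞 F) : x ∈ v.asIdeal ↔ vv v (lc v x) ≤ WithZero.exp (-1 : ℤ) := by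
  have h := (hNF.int F v x 1).2
  rw [pow_one] at h
  exact h

theorem mem_iff' (x : 𝓞 F) : x ∈ v.asIdeal ↔ vv v (lc v x) < 1 := by
  rw [lt_one_iff, mem_iff hNF]

theorem eq_one {x : 𝓞 F} (hx : x ∉ v.asIdeal) : vv v (lc v x) = 1 := by
  rw [mem_iff' hNF, not_lt] at hx
  exact le_antisymm (le_one hNF v x) hx

theorem eq_exp {x : 𝓞 F} (h1 : x ∈ v.asIdeal) (h2 : x ∉ v.asIdeal ^ 2) :
    vv v (lc v x) = WithZero.exp (-1 : ℤ) := by
  rw [(hNF.int F v x 2).2] at h2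
  exact le_antisymm ((mem_iff hNF v x).1 h1) (eq_of_not_le h2)

theorem eq_one_nat {n : ℕ} (hn : (n : 𝓞 F) ∉ v.asIdeal) : vv v ((n : ℕ) : v.adicCompletion F) = 1 := by
  rw [← lc_nat]
  exact eq_one hNF v hn

omit hNF

theorem nv_mem : ((nv v : ℕ) : 𝓞 F) ∈ v.asIdeal := Ideal.absNorm_mem _

theorem mem_of_dvd {m n : ℕ} (h : m ∣ n) (hm : (m : 𝓞 F) ∈ v.asIdeal) : (n : 𝓞 F) ∈ v.asIdeal := by
  obtain ⟨c, rfl⟩ := h
  rw [Nat.cast_mul]
  exact Ideal.mul_mem_right _ _ hm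

theorem two_three {k : ℕ} (h6 : 6 ∣ k) (hk : (k : 𝓞 F) ∉ v.asIdeal) :
    (2 : 𝓞 F) ∉ v.asIdeal ∧ (3 : 𝓞 F) ∉ v.asIdeal := by
  constructor
  · intro h
    apply hk
    apply mem_of_dvd v (m := 2) ((by norm_num : 2 ∣ 6).trans h6)
    exact_mod_cast h
  · intro h
    apply hk
    apply mem_of_dvd v (m := 3) ((by norm_num : 3 ∣ 6).trans h6)
    exact_mod_cast h

theorem qk {k : ℕ} {Q : Finset (HeightOneSpectrum (𝓞 F))} (hA : Act k Q) {v : HeightOneSpectrum (𝓞 F)}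
    (hv : v ∈ Q) : (k : 𝓞 F) ∉ v.asIdeal := by
  intro hk
  have h1 := nv_mem v
  have h2 := Nat.div_add_mod (nv v) (8 * k)
  rw [hA.modk v hv] at h2
  apply v.isPrime.ne_top
  rw [Ideal.eq_top_iff_one]
  have h3 : (1 : 𝓞 F) = ((nv v : ℕ) : 𝓞 F) - (k : 𝓞 F) * (8 * ((nv v / (8 * k) : ℕ) : 𝓞 F)) := by
    have h4 : ((8 * k * (nv v / (8 * k)) + 1 : ℕ) : 𝓞 F) = ((nv v : ℕ) : 𝓞 F) := by rw [h2]
    rw [← h4]
    push_cast
    ring
  rw [h3]
  exact Ideal.sub_mem _ h1 (Ideal.mul_mem_right _ _ hk)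

theorem finite_mem {x : 𝓞 F} (hx : x ≠ 0) : {v : HeightOneSpectrum (𝓞 F) | x ∈ v.asIdeal}.Finite := by
  have h : Ideal.span {x} ≠ 0 := by
    rw [Ne, Ideal.zero_eq_bot, Ideal.span_singleton_eq_bot]
    exact hx
  refine (Ideal.finite_factors h).subset fun v hv => ?_
  show v.asIdeal ∣ Ideal.span {x}
  rw [Ideal.dvd_span_singleton]
  exact hv

theorem vv_prod (T : Finset (HeightOneSpectrum (𝓞 F))) :
    vv v ((pr T : ℕ) : v.adicCompletion F) = ∏ u ∈ T, vv v ((nv u : ℕ) : v.adicCompletion F) := by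
  unfold pr
  rw [Nat.cast_prod, map_prod]

end FAPM

open FAPM in
theorem specFAP (hNF : SpecNF) : SpecFAP where
  tw := by
    intro F _ _ k v h6 hk
    obtain ⟨h2, h3⟩ := two_three v h6 hk
    refine ⟨?_, ?_, h2⟩
    · have := eq_one_nat hNF v (n := 2) (by exact_mod_cast h2)
      exact_mod_cast this
    · have := eq_one_nat hNF v (n := 3) (by exact_mod_cast h3)
      exact_mod_cast this
  kk := by
    intro F _ _ k v hk
    rw [← lc_nat]
    exact (mem_iff' hNF v _).1 hk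
  qk := fun hA v hv => qk hA hv
  dD := by
    intro F _ _ k Q P T m hk hA hm hT
    have h1 : m * pr T ≡ 1 [MOD 8 * k] := by
      have hm1 : m ≡ 1 [MOD 8 * k] := by
        show m % (8 * k) = 1 % (8 * k)
        rw [hm.modk, Nat.mod_eq_of_lt (by omega)]
      have hT1 : pr T ≡ 1 [MOD 8 * k] := by
        unfold pr
        refine Nat.ModEq.trans (Nat.ModEq.prod (g := fun _ => 1) fun v hv => ?_) ?_
        · show nv v % (8 * k) = 1 % (8 * k)
          rw [hA.modk v (hT hv), Nat.mod_eq_of_lt (by omega)]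
        · rw [Finset.prod_const_one]
      exact hm1.mul hT1
    have h2 : (m * pr T) % (8 * k) = 1 := by
      have h3 : (m * pr T) % (8 * k) = 1 % (8 * k) := h1
      rwa [Nat.mod_eq_of_lt (show 1 < 8 * k by omega)] at h3
    refine ⟨h2, Nat.pos_of_ne_zero fun h0 => ?_⟩
    rw [h0, Nat.zero_mod] at h2
    exact zero_ne_one h2
  dT := by
    intro F _ _ k Q P T m hA hC hm hT v hv
    have hvQ := hT hv
    have hvP := hC.dis v hvQ
    rw [Nat.cast_mul, map_mul, eq_one_nat hNF v (fun h => hvP (hm.mem v h)), one_mul, vv_prod,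
      ← Finset.mul_prod_erase T _ hv, Finset.prod_eq_one, mul_one, ← lc_nat]
    · exact eq_exp hNF v (nv_mem v) (hA.unr v hvQ)
    · intro u hu
      apply eq_one_nat hNF v
      intro h
      rcases hC.oth u (hT (Finset.mem_of_mem_erase hu)) v h with h1 | h1
      · exact Finset.ne_of_mem_erase hu h1.symm
      · exact hvP h1
  dU := by
    intro F _ _ k Q P T m hA hC hm hT v hvP hvT
    rw [Nat.cast_mul, map_mul, eq_one_nat hNF v (fun h => hvP (hm.mem v h)), one_mul, vv_prod,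
      Finset.prod_eq_one]
    intro u hu
    apply eq_one_nat hNF v
    intro h
    rcases hC.oth u (hT hu) v h with h1 | h1
    · exact hvT (h1 ▸ hu)
    · exact hvP h1
  fin := by
    intro F _ _ k hk h6
    have hk0 : (k : 𝓞 F) ≠ 0 := Nat.cast_ne_zero.2 hk.ne'
    refine ⟨(finite_mem hk0).toFinset, fun v => ?_, fun v h2 => ?_⟩
    · rw [Set.Finite.mem_toFinset]
      rfl
    · rw [Set.Finite.mem_toFinset]
      exact mem_of_dvd v (m := 2) ((by norm_num : 2 ∣ 6).trans h6) (by exact_mod_cast h2)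

end Pool.Agent.Lib.MP_8cb858_nt.PF
end

section
/-!
# Module FAC: elementary facts on the family (helper68)
-/
namespace Pool.Agent.Lib.MP_8cb858_nt.PF

open Polynomial NumberField IsDedekindDomain Pool.Agent.Lib.MP_8cb858_nt.SEL
open scoped Classical WithZero

namespace FACM

open FAPM

variable {F : Type} [Field F] [NumberField F] (v : HeightOneSpectrum (𝓞 F))

theorem lc_dsc (a b : 𝓞 F) : lc v (dsc a b) = dsc (lc v a) (lc v b) := by
  rw [← lcr_apply, ← lcr_apply, ← lcr_apply]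
  unfold dsc
  rw [map_add, map_mul, map_mul, map_pow, map_pow, map_ofNat, map_ofNat]

theorem lc_f (a b x : 𝓞 F) :
    lc v (x ^ 3 + a * x + b) = lc v x ^ 3 + lc v a * lc v x + lc v b := by
  rw [← lcr_apply, ← lcr_apply, ← lcr_apply, ← lcr_apply]
  rw [map_add, map_add, map_mul, map_pow]

theorem lc_f' (a x : 𝓞 F) : lc v (3 * x ^ 2 + a) = 3 * lc v x ^ 2 + lc v a := by
  rw [← lcr_apply, ← lcr_apply, ← lcr_apply]
  rw [map_add, map_mul, map_pow, map_ofNat]

/-- a root modulo a place dividing the discriminant -/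
theorem exists_root {v : HeightOneSpectrum (𝓞 F)} (h3 : (3 : 𝓞 F) ∉ v.asIdeal) {a b : 𝓞 F}
    (hd : dsc a b ∈ v.asIdeal) : ∃ x : 𝓞 F, x ^ 3 + a * x + b ∈ v.asIdeal := by
  have hp := v.isPrime
  by_cases ha : a ∈ v.asIdeal
  · refine ⟨0, ?_⟩
    have h1 : (27 : 𝓞 F) * b ^ 2 ∈ v.asIdeal := by
      have h2 : (27 : 𝓞 F) * b ^ 2 = dsc a b - a * (4 * a ^ 2) := by
        unfold dsc
        ring
      rw [h2]
      exact Ideal.sub_mem _ hd (Ideal.mul_mem_right _ _ ha)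
    have hb : b ∈ v.asIdeal := by
      rcases hp.mem_or_mem h1 with h | h
      · exfalso
        apply h3
        have h4 : (27 : 𝓞 F) = 3 ^ 3 := by norm_num
        rw [h4] at h
        exact hp.mem_of_pow_mem 3 h
      · exact hp.mem_of_pow_mem 2 h
    simpa using hb
  · obtain ⟨c, i, hi, hc⟩ := v.isMaximal.exists_inv ha
    refine ⟨3 * b * c, ?_⟩
    have h1 : (3 * b * c) ^ 3 + a * (3 * b * c) + b =
        dsc a b * (c ^ 3 * b) + i * (b * (2 * (c * a) + 1) ^ 2) := by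
      unfold dsc
      linear_combination -b * (2 * (c * a) + 1) ^ 2 * hc
    rw [h1]
    exact Ideal.add_mem _ (Ideal.mul_mem_right _ _ hd) (Ideal.mul_mem_right _ _ hi)

end FACM

open FAPM FACM in
theorem specFAC (hNF : SpecNF) (hLR : SpecLR) : SpecFAC := by
  have hd : ∀ {F : Type} [Field F] [NumberField F] {k : ℕ} {cl : 𝓞 F × 𝓞 F}
      {Q P : Finset (HeightOneSpectrum (𝓞 F))} {a b : 𝓞 F}, 6 ∣ k →
      Cmp k Q P → (a, b) ∈ Fam k cl Q P → ∀ v ∈ P, dsc a b ∉ v.asIdeal := by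
    intro F _ _ k cl Q P a b h6 hC hF v hv hd
    obtain ⟨x, hx⟩ := exists_root (two_three v h6 (hC.cop v hv)).2 hd
    exact hF.2.2.1 v hv x hx
  have ne0 : ∀ {F : Type} [Field F] [NumberField F] {k : ℕ} {cl : 𝓞 F × 𝓞 F}
      {Q P : Finset (HeightOneSpectrum (𝓞 F))} {a b : 𝓞 F}, 6 ∣ k →
      Cmp k Q P → (a, b) ∈ Fam k cl Q P → dsc a b ≠ 0 ∧ dsc (a : F) (b : F) ≠ 0 ∧
        ∀ v : HeightOneSpectrum (𝓞 F), dsc (lc v a) (lc v b) ≠ 0 := by
    intro F _ _ k cl Q P a b h6 hC hF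
    have h1 : dsc a b ≠ 0 := by
      obtain ⟨w, hw⟩ := hC.ne
      intro h
      apply hd h6 hC hF w hw
      rw [h]
      exact zero_mem _
    refine ⟨h1, ?_, fun v => ?_⟩
    · have h2 : ((dsc a b : 𝓞 F) : F) = dsc (a : F) (b : F) := by
        show algebraMap (𝓞 F) F (dsc a b) = dsc (algebraMap (𝓞 F) F a) (algebraMap (𝓞 F) F b)
        unfold dsc
        rw [map_add, map_mul, map_mul, map_pow, map_pow, map_ofNat, map_ofNat]
      rw [← h2]
      exact fun h => h1 (RingOfIntegers.coe_eq_zero_iff.1 h)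
    · rw [← lc_dsc, ← lcr_apply]
      exact fun h => h1 (lcr_inj v (h.trans (map_zero _).symm))
  have bad : ∀ {F : Type} [Field F] [NumberField F] {k : ℕ} {cl : 𝓞 F × 𝓞 F}
      {Q P : Finset (HeightOneSpectrum (𝓞 F))} {a b : 𝓞 F}, 6 ∣ k →
      Cmp k Q P → (a, b) ∈ Fam k cl Q P → ∀ v : HeightOneSpectrum (𝓞 F), dsc a b ∈ v.asIdeal →
      (k : 𝓞 F) ∉ v.asIdeal →
      v ∉ P ∧ v ∉ Q ∧ vv v (dsc (lc v a) (lc v b)) = WithZero.exp (-1 : ℤ) := by
    intro F _ _ k cl Q P a b h6 hC hF v hv hk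
    refine ⟨fun h => hd h6 hC hF v h hv, fun h => ?_, ?_⟩
    · apply hF.2.2.2.1 v h 0
      rw [zero_pow two_ne_zero, zero_add]
      exact hv
    · rw [← lc_dsc]
      exact eq_exp hNF v hv (hF.2.2.2.2 v hk)
  refine ⟨fun v x => le_one hNF v x, ne0, ?_, ?_, ?_, bad, ?_, ?_⟩
  · intro F _ _ k cl Q P a b hF v hk
    rw [← lc_dsc]
    apply eq_of_not_le
    exact fun h => hF.2.2.2.2 v hk ((hNF.int F v _ 2).2.2 h)
  · intro F _ _ k cl Q P a b hF v hv
    exact (hNF.t3 F v a b).2 (hF.2.2.1 v hv)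
  · intro F _ _ k cl Q P a b hF v hv
    exact (hNF.t12 F v a b).2 (hF.2.2.2.1 v hv)
  · intro F _ _ a b h
    exact finite_mem h
  · intro F _ _ k cl Q P a b h6 hA hC hF v hk hcase
    obtain ⟨h2, h3⟩ := two_three v h6 hk
    have w2 : vv v 2 = 1 := by
      have := eq_one_nat hNF v (n := 2) (by exact_mod_cast h2)
      exact_mod_cast this
    have w3 : vv v 3 = 1 := by
      have := eq_one_nat hNF v (n := 3) (by exact_mod_cast h3)
      exact_mod_cast this
    obtain ⟨t, ht, hroot, ht'⟩ := (hLR (v.adicCompletion F) (vv v) (lc v a) (lc v b) (hNF.lf F v) w2 w3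
      (le_one hNF v a) (le_one hNF v b) ((ne0 h6 hC hF).2.2 v) (by
        rcases hcase with h | h
        · exact Or.inl ((hNF.t12 F v a b).2 (hF.2.2.2.1 v h))
        · exact Or.inr (bad h6 hC hF v h hk).2.2)).1
    obtain ⟨x, hx⟩ := hNF.dense F v t ht
    have hxl : vv v (lc v x) ≤ 1 := le_one hNF v x
    refine ⟨x, ?_, fun hmem => ?_⟩
    · rw [mem_iff' hNF, lc_f]
      have e : lc v x ^ 3 + lc v a * lc v x + lc v b =
          -((t - lc v x) * (t ^ 2 + t * lc v x + lc v x ^ 2 + lc v a)) := by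
        linear_combination hroot
      rw [e, Valuation.map_neg, map_mul]
      refine mul_lt_one_of_lt_of_le hx ?_
      refine (Valuation.map_add _ _ _).trans (max_le ?_ (le_one hNF v a))
      refine (Valuation.map_add _ _ _).trans (max_le ?_ ?_)
      · refine (Valuation.map_add _ _ _).trans (max_le ?_ ?_)
        · rw [map_pow]
          exact pow_le_one' ht 2
        · rw [map_mul]
          exact mul_le_one' ht hxl
      · rw [map_pow]
        exact pow_le_one' hxl 2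
    · rw [mem_iff' hNF, lc_f'] at hmem
      have e : 3 * t ^ 2 + lc v a = 3 * lc v x ^ 2 + lc v a + (t - lc v x) * (3 * (t + lc v x)) := by
        ring
      rw [e] at ht'
      have h5 : vv v ((t - lc v x) * (3 * (t + lc v x))) < 1 := by
        rw [map_mul]
        refine mul_lt_one_of_lt_of_le hx ?_
        rw [map_mul, w3, one_mul]
        exact (Valuation.map_add _ _ _).trans (max_le ht hxl)
      have h6 := (Valuation.map_add (vv v) (3 * lc v x ^ 2 + lc v a)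
        ((t - lc v x) * (3 * (t + lc v x)))).trans_lt (max_lt hmem h5)
      rw [ht'] at h6
      exact lt_irrefl _ h6

end Pool.Agent.Lib.MP_8cb858_nt.PF
end

section
/-!
# Module HAP: the planes at the places of `Q`
-/
namespace Pool.Agent.Lib.MP_8cb858_nt.PF

open Polynomial NumberField IsDedekindDomain Pool.Agent.Lib.MP_8cb858_nt.SEL
open scoped Classical WithZero

namespace HAPM

theorem hyp (hLS : SpecLS) (hNF : SpecNF) (hFAP : SpecFAP) (hFAC : SpecFAC) {F : Type} [Field F]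
    [NumberField F] {k : ℕ} {cl : 𝓞 F × 𝓞 F} {Q P : Finset (HeightOneSpectrum (𝓞 F))}
    {a b : 𝓞 F} (h6 : 6 ∣ k) (hQ : Act k Q) (hP : Cmp k Q P) (hf : (a, b) ∈ Fam k cl Q P)
    (v : HeightOneSpectrum (𝓞 F)) (hv : v ∈ Q) :
    PR.Hyp (M := Lk (lc v a) (lc v b)) InV (Ev (vv v)) Iso := by
  have h1 := hFAP.tw v h6 (hFAP.qk hQ v hv)
  exact hLS _ (vv v) (lc v a) (lc v b) (hNF.lf F v) h1.1 h1.2.1 (hFAC.int v a) (hFAC.int v b)
    ((hFAC.ne0 h6 hP hf).2.2 v) (Or.inl (hFAC.t12 hf v hv))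

end HAPM

theorem specHAP (hHYP : PR.SpecHYP) (hLS : SpecLS) (hINV : SpecINV) (hNF : SpecNF)
    (hFAP : SpecFAP) (hFAC : SpecFAC) : SpecHAP := by
  intro F _ _ k cl Q P a b hk h6 hQ hP hf v hv α β hα hβ
  have h := HAPM.hyp hLS hNF hFAP hFAC h6 hQ hP hf v hv
  have hα' : InV (ul v α) := hINV.upv _ α hα
  have hβ' : InV (ul v β) := hINV.upv _ β hβ
  obtain ⟨k1, k2, k3, k4, k5, k6⟩ := hHYP InV (Ev (vv v)) Iso h (fun γ hγ => hγ.1)
    (fun γ δ hγ hδ => hINV.mul γ δ hγ hδ) (ul v α) (ul v β) hα' hβ'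
  have e : ul v (α * β) = ul v α * ul v β := map_mul _ _ _
  unfold ee ss
  rw [e]
  exact ⟨k1, k2, k3, k4, k5, k6⟩

end Pool.Agent.Lib.MP_8cb858_nt.PF
end

section
/-!
# KRN: the coordinates are injective on `Wg` modulo squares
-/
set_option autoImplicit false

namespace Pool.Agent.Lib.MP_8cb858_nt.PF

open Polynomial NumberField IsDedekindDomain Pool.Agent.Lib.MP_8cb858_nt.SEL
open scoped Classical WithZero

theorem specKRN (hBR : SpecBR) (hSLC : SpecSLC) (hTVS : SpecTVS) (hRP0 : SpecRP0)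
    (hFAC : SpecFAC) (hNE1 : SpecNE1) : SpecKRN := by
  intro F _ _ k cl Q P a b hk h6 hA hC hF hgood α hα hco
  obtain ⟨-, hd, -⟩ := hFAC.ne0 h6 hC hF
  obtain ⟨hN1, hpr⟩ := hNE1 F k P hk
  have h1 := hSLC F k cl Q P ∅ 1 a b hk h6 hA hC hN1 hF (Finset.empty_subset _) α
  have h2 := hTVS F k cl Q P ∅ 1 a b hk h6 hA hC hN1 hF (Finset.empty_subset _)
  rw [hpr] at h1 h2
  have h3 : α ∈ SelSet (a : F) (b : F) ((1 : ℕ) : F) := by
    rw [h1]
    exact ⟨hα, fun v hv => ⟨fun h => absurd h (Finset.notMem_empty v), fun _ => (hco v hv).1⟩⟩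
  have hone : ((1 : ℕ) : F) ≠ 0 := by
    rw [Nat.cast_one]
    exact one_ne_zero
  obtain ⟨z, hz⟩ := hBR.ex hd hone α h3
  have h4 : z = 0 := hgood z fun v hv =>
    (h2 v hv (Finset.notMem_empty v) α z hz).2 (hco v hv).2
  exact ((hRP0 F (a : F) (b : F) ((1 : ℕ) : F) hF.1 hd hone).2 α z hz).1 h4

end Pool.Agent.Lib.MP_8cb858_nt.PF
end

section
/-!
# Module NE1: `1` is neutral
-/
namespace Pool.Agent.Lib.MP_8cb858_nt.PF

open Polynomial NumberField IsDedekindDomain Pool.Agent.Lib.MP_8cb858_nt.SEL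
open scoped Classical WithZero

theorem specNE1 : SpecNE1 := by
  intro F _ _ k P hk
  refine ⟨⟨one_pos, Nat.mod_eq_of_lt (by omega), fun w hw => ?_⟩, ?_⟩
  · rw [Nat.cast_one] at hw
    exact absurd ((Ideal.eq_top_iff_one _).2 hw) w.isPrime.ne_top
  · unfold pr
    rw [Finset.prod_empty, one_mul]

end Pool.Agent.Lib.MP_8cb858_nt.PF
end

section
/-!
# RCE: reciprocity on `Wg`
-/
set_option autoImplicit false

namespace Pool.Agent.Lib.MP_8cb858_nt.PF

open Polynomial NumberField IsDedekindDomain Pool.Agent.Lib.MP_8cb858_nt.SEL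
open scoped Classical WithZero

theorem specRCE (hREC : SpecREC) (hLI : SpecLI) (hLG : SpecLG) (hLV : SpecLV) (hAFI : SpecAFI)
    (hINV : SpecINV) (hADJ : SpecADJ) (hHAP : SpecHAP) (hFAC : SpecFAC) (hFAP : SpecFAP)
    (hNF : SpecNF) : SpecRCE := by
  intro F _ _ k cl Q P a b hk h6 hA hC hF α hα
  obtain ⟨-, hd, hdv⟩ := hFAC.ne0 h6 hC hF
  have hup : ∀ v : HeightOneSpectrum (𝓞 F), InV (ul v α) := fun v => hINV.upv _ α hα.1
  have hq : ∀ v ∈ Q, nv v % 4 = 1 := by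
    intro v hv
    have h1 := hA.modk v hv
    have h3 : nv v % (8 * k) % 4 = nv v % 4 := by
      rw [show 8 * k = 4 * (2 * k) by ring]
      exact Nat.mod_mul_right_mod _ _ _
    rw [← h3, h1]
  have hinf : ∀ v : InfinitePlace F, Iso (up v.Completion α) := fun v =>
    (hLI F v (a : F) (b : F) 1 (up v.Completion α) (hF.1 v) hd one_ne_zero
      (hINV.upv _ α hα.1)).2.2
  have hiso : ∀ v : HeightOneSpectrum (𝓞 F), v ∉ Q → Iso (ul v α) := by
    intro v hv
    by_cases hkv : (k : 𝓞 F) ∈ v.asIdeal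
    · exact hAFI.iso 1 _ one_ne_zero (hup v).1 (hα.2.1 v hkv)
    obtain ⟨hw2, hw3, -⟩ := hFAP.tw v h6 hkv
    by_cases hP : v ∈ P
    · obtain ⟨γ, hγ⟩ := hLV (v.adicCompletion F) (vv v) (lc v a) (lc v b) (ul v α) (hNF.lf F v) hw2
        (hFAC.int v a) (hFAC.int v b) (hFAC.t3 hF v hP) (hup v)
      have hγu : IsUnit γ := by
        have h1 := (hup v).1
        rw [hγ] at h1
        exact isUnit_of_mul_isUnit_left h1
      have h2 := (hAFI.inv (a := lc v a) (b := lc v b) 1 1 γ hγu).2.2 hADJ.one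
      rw [one_mul, pow_two, ← hγ] at h2
      exact h2
    · have h1 := (hLG (v.adicCompletion F) (vv v) (lc v a) (lc v b) 1 (ul v α) (hNF.lf F v) hw2
        (hFAC.int v a) (hFAC.int v b) (hFAC.sqf hF v hkv) (map_one _) (hup v)).1
        (hα.2.2 v hkv hv)
      exact hAFI.iso 1 _ one_ne_zero (hup v).1 h1
  have hev := hREC F (a : F) (b : F) α Q hd hα.1 (fun v hv => ⟨hA.prime v hv, hq v hv, hA.unr v hv⟩)
    hA.inj hiso hinf
  have hval : ∀ v ∈ Q, ee v α * ss v α = if ¬ Iso (ul v α) then 1 else 0 := by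
    intro v hv
    obtain ⟨-, -, h1, -⟩ := hHAP F k cl Q P a b hk h6 hA hC hF v hv α α hα.1 hα.1
    rw [h1]
    by_cases h : Iso (ul v α)
    · rw [if_pos h, if_neg (not_not.2 h)]
    · rw [if_neg h, if_pos h]
  rw [Finset.sum_congr rfl hval, Finset.sum_boole, ZMod.natCast_eq_zero_iff]
  exact hev.two_dvd

end Pool.Agent.Lib.MP_8cb858_nt.PF
end

section
/-!
# Module RP0: formal consequences of BR
-/
namespace Pool.Agent.Lib.MP_8cb858_nt.PF

open Polynomial NumberField IsDedekindDomain Pool.Agent.Lib.MP_8cb858_nt.SEL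
open scoped Classical WithZero

theorem specRP0 (hBR : SpecBR) (hLZ : SpecLZ) (hLI : SpecLI) (hINV : SpecINV) (hNF : SpecNF) :
    SpecRP0 := by
  intro F _ _ a b D hA hd hD
  have h1 : InV (1 : Lk a b) := ⟨isUnit_one, by rw [map_one]; exact IsSquare.one⟩
  have hsel : (1 : Lk a b) ∈ SelSet a b D := by
    refine ⟨h1, fun v => ?_, fun v => ?_⟩
    · refine hLZ _ (vv v) _ _ _ _ (hNF.lf F v) ?_ ?_
      · rw [Ne, map_eq_zero]
        exact hD
      · unfold up
        rw [map_one]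
        exact IsSquare.one
    · exact (hLI F v a b D _ (hA v) hd hD (hINV.upv _ _ h1)).2.1
  obtain ⟨z, hz⟩ := hBR.ex hd hD 1 hsel
  have hzz := hBR.mul hd hD 1 1 z z hz hz
  rw [mul_one] at hzz
  have hz0 : z = 0 := by
    have h2 := hBR.uni hd hD 1 (z + z) z hzz hz
    exact add_eq_left.1 h2
  subst hz0
  refine ⟨hz, fun α z hα => ⟨?_, ?_⟩⟩
  · rintro rfl
    have h2 := hBR.inj hd hD α 1 0 hα hz
    rwa [mul_one] at h2
  · rintro ⟨g, hg⟩
    have hu : IsUnit g := by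
      have h2 := hα.1.1
      rw [hg] at h2
      exact isUnit_of_mul_isUnit_left h2
    have h2 := hBR.sqr hd hD 1 g 0 hu hz
    rw [one_mul, pow_two, ← hg] at h2
    exact hBR.uni hd hD α z 0 hα h2

end Pool.Agent.Lib.MP_8cb858_nt.PF
end

section
/-!
# Module SFN: the Selmer groups are finite of exponent 2
-/
namespace Pool.Agent.Lib.MP_8cb858_nt.PF

open Polynomial NumberField IsDedekindDomain Pool.Agent.Lib.MP_8cb858_nt.SEL
open scoped Classical WithZero

namespace SFNM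

theorem two_tors {F : Type} [Field F] [NumberField F] (E : WeierstrassCurve F) (z : Sel 2 E) :
    z + z = 0 := by
  induction z using QuotientAddGroup.induction_on with
  | H c =>
    have h : c + c = 0 := by
      apply Subtype.ext
      funext s
      have h1 := c.2.2.1 s
      rw [two_nsmul] at h1
      exact h1
    rw [← QuotientAddGroup.mk_add, h]
    rfl

theorem fin (hMAIN : SEL.SpecMAIN.{0}) (F : Type) [Field F] [NumberField F] (a b : 𝓞 F)
    (h : 4 * a ^ 3 + 27 * b ^ 2 ≠ 0) : Finite (Sel 2 (curve (a : F) (b : F))) := by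
  obtain ⟨C, hC⟩ := hMAIN F
  set X : InfinitePlace F → ℝ := fun v =>
    max 1 (max (((v (a : F)) ^ v.mult) ^ 3) (((v (b : F)) ^ v.mult) ^ 2)) with hX
  obtain ⟨-, h2, -⟩ := hC X (fun v => le_max_left _ _)
  exact h2 (a, b) ⟨h, fun v => ⟨(le_max_left _ _).trans (le_max_right _ _),
    (le_max_right _ _).trans (le_max_right _ _)⟩⟩

end SFNM

theorem specSFN (hMAIN : SEL.SpecMAIN.{0}) : SpecSFN := by
  intro F _ _ a b D hd hD
  refine ⟨?_, fun z => SFNM.two_tors _ z⟩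
  have hD' : (D : 𝓞 F) ≠ 0 := Nat.cast_ne_zero.2 hD.ne'
  have h := SFNM.fin hMAIN F (a * D ^ 2) (b * D ^ 3) (by
    have e : 4 * (a * (D : 𝓞 F) ^ 2) ^ 3 + 27 * (b * (D : 𝓞 F) ^ 3) ^ 2 =
        (D : 𝓞 F) ^ 6 * dsc a b := by
      unfold dsc; ring
    rw [e]
    exact mul_ne_zero (pow_ne_zero 6 hD') hd)
  have e : curve ((a * D ^ 2 : 𝓞 F) : F) ((b * D ^ 3 : 𝓞 F) : F) = cN a b D := by
    unfold cN cur
    push_cast
    rfl
  rw [e] at h
  exact h

end Pool.Agent.Lib.MP_8cb858_nt.PF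
end

section
/-!
# SLC: the local conditions of the 2-Selmer group in terms of the coordinates
-/
namespace Pool.Agent.Lib.MP_8cb858_nt.PF

open Polynomial NumberField IsDedekindDomain Pool.Agent.Lib.MP_8cb858_nt.SEL
open scoped Classical WithZero

namespace SLCM

/-- The local condition at a finite place. -/
theorem loc (hAFI : SpecAFI) (hLG : SpecLG) (hLT : SpecLT) (hLV : SpecLV) (hLZ : SpecLZ)
    (hSQK : SpecSQK) (hEVF : SpecEVF) (hNF : SpecNF) (hHAP : SpecHAP) (hFAP : SpecFAP)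
    (hFAC : SpecFAC) {F : Type} [Field F] [NumberField F] {k m : ℕ} {cl : 𝓞 F × 𝓞 F}
    {Q P T : Finset (HeightOneSpectrum (𝓞 F))} {a b : 𝓞 F} (hk : 0 < k) (h6 : 6 ∣ k)
    (hQ : Act k Q) (hP : Cmp k Q P) (hm : Neu k P m) (hf : (a, b) ∈ Fam k cl Q P) (hT : T ⊆ Q)
    (α : Lk (a : F) (b : F)) (hα : InV α) (v : HeightOneSpectrum (𝓞 F)) (hup : InV (ul v α)) :
    Aff (algebraMap F (v.adicCompletion F) ((m * pr T : ℕ) : F)) (ul v α) ↔
      ((k : 𝓞 F) ∈ v.asIdeal → Aff 1 (ul v α)) ∧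
      ((k : 𝓞 F) ∉ v.asIdeal → v ∉ Q → Ev (vv v) (ul v α)) ∧
      (v ∈ Q → (v ∈ T → ss v α = 0) ∧ (v ∉ T → ee v α = 0)) := by
  obtain ⟨hD8, hD0⟩ := hFAP.dD hk hQ hm hT
  have hDK : ((m * pr T : ℕ) : v.adicCompletion F) ≠ 0 := Nat.cast_ne_zero.2 hD0.ne'
  have hlf := hNF.lf F v
  have ia := hFAC.int v a
  have ib := hFAC.int v b
  rw [map_natCast]
  by_cases hkv : (k : 𝓞 F) ∈ v.asIdeal
  · have hvQ : v ∉ Q := fun h => hFAP.qk hQ v h hkv
    have hsq := hSQK _ (vv v) k (m * pr T) hlf (hFAP.kk v hkv) hD8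
    rw [hAFI.dd ((m * pr T : ℕ) : v.adicCompletion F) 1 (ul v α) hDK one_ne_zero
      (by rw [mul_one]; exact hsq)]
    exact ⟨fun h => ⟨fun _ => h, fun h' => absurd hkv h', fun h' => absurd h' hvQ⟩,
      fun h => h.1 hkv⟩
  · obtain ⟨h2, h3, -⟩ := hFAP.tw v h6 hkv
    by_cases hvP : v ∈ P
    · have hvQ : v ∉ Q := fun h => hP.dis v h hvP
      have hs : IsSquare (ul v α) :=
        hLV _ (vv v) (lc v a) (lc v b) (ul v α) hlf h2 ia ib (hFAC.t3 hf v hvP) hup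
      have hE : Ev (vv v) (ul v α) := (hEVF _ (vv v) (lc v a) (lc v b) (ul v α) (ul v α) ia ib).2.2
        hup.1 hs
      exact ⟨fun _ => ⟨fun h => absurd h hkv, fun _ _ => hE, fun h => absurd h hvQ⟩,
        fun _ => hLZ _ (vv v) _ _ _ _ hlf hDK hs⟩
    · have key : v ∉ T → (Aff ((m * pr T : ℕ) : v.adicCompletion F) (ul v α) ↔
          Ev (vv v) (ul v α)) := fun hvT =>
        (hLG _ (vv v) (lc v a) (lc v b) ((m * pr T : ℕ) : v.adicCompletion F) (ul v α) hlf h2 ia ib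
          (hFAC.sqf hf v hkv) (hFAP.dU hQ hP hm hT v hvP hvT) hup).symm
      by_cases hvQ : v ∈ Q
      · obtain ⟨-, -, -, -, he, hs⟩ := hHAP F k cl Q P a b hk h6 hQ hP hf v hvQ α α hα hα
        by_cases hvT : v ∈ T
        · rw [hLT _ (vv v) (lc v a) (lc v b) ((m * pr T : ℕ) : v.adicCompletion F) (ul v α) hlf h2
            h3 ia ib ((hFAC.ne0 h6 hP hf).2.2 v) (hFAC.t12 hf v hvQ) (hFAP.dT hQ hP hm hT v hvT)
            hup, ← hs]
          exact ⟨fun h => ⟨fun h' => absurd h' hkv, fun _ h' => absurd hvQ h',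
            fun _ => ⟨fun _ => h, fun h' => absurd hvT h'⟩⟩, fun h => (h.2.2 hvQ).1 hvT⟩
        · rw [key hvT, ← he]
          exact ⟨fun h => ⟨fun h' => absurd h' hkv, fun _ h' => absurd hvQ h',
            fun _ => ⟨fun h' => absurd h' hvT, fun _ => h⟩⟩, fun h => (h.2.2 hvQ).2 hvT⟩
      · rw [key (fun h => hvQ (hT h))]
        exact ⟨fun h => ⟨fun h' => absurd h' hkv, fun _ _ => h, fun h' => absurd h' hvQ⟩,
          fun h => h.2.1 hkv hvQ⟩

end SLCM

theorem specSLC (hINV : SpecINV) (hAFI : SpecAFI) (hLI : SpecLI) (hLG : SpecLG) (hLT : SpecLT)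
    (hLV : SpecLV) (hLZ : SpecLZ) (hSQK : SpecSQK) (hEVF : SpecEVF) (hNF : SpecNF)
    (hHAP : SpecHAP) (hFAP : SpecFAP) (hFAC : SpecFAC) : SpecSLC := by
  intro F _ _ k cl Q P T m a b hk h6 hQ hP hm hf hT α
  have hloc := fun (hα : InV α) (v : HeightOneSpectrum (𝓞 F)) =>
    SLCM.loc hAFI hLG hLT hLV hLZ hSQK hEVF hNF hHAP hFAP hFAC hk h6 hQ hP hm hf hT α hα v
      (hINV.upv _ α hα)
  have hD : ((m * pr T : ℕ) : F) ≠ 0 := Nat.cast_ne_zero.2 (hFAP.dD hk hQ hm hT).2.ne'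
  constructor
  · rintro ⟨hα, hp, -⟩
    have h := fun v => (hloc hα v).1 (hp v)
    exact ⟨⟨hα, fun v => (h v).1, fun v => (h v).2.1⟩, fun v hv => (h v).2.2 hv⟩
  · rintro ⟨⟨hα, h1, h2⟩, h3⟩
    refine ⟨hα, fun v => (hloc hα v).2 ⟨h1 v, h2 v, h3 v⟩, fun v => ?_⟩
    exact (hLI F v a b _ (up v.Completion α) (hf.1 v) (hFAC.ne0 h6 hP hf).2.1 hD
      (hINV.upv _ α hα)).2.1

end Pool.Agent.Lib.MP_8cb858_nt.PF
end

section
/-!
# STW (helper60): the change of the Selmer group under twisting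
-/
set_option autoImplicit false

namespace Pool.Agent.Lib.MP_8cb858_nt.PF

open Polynomial NumberField IsDedekindDomain Pool.Agent.Lib.MP_8cb858_nt.SEL
open scoped Classical WithZero

namespace STWM

variable {F : Type} [Field F] [NumberField F]

/-- the places of `U` in `Q` -/
noncomputable def Sf (Q U : Finset (HeightOneSpectrum (𝓞 F))) : Finset {v // v ∈ Q} :=
  Finset.univ.filter fun v => v.1 ∈ U

omit [NumberField F] in
lemma mem_Sf {Q U : Finset (HeightOneSpectrum (𝓞 F))} {v : {v // v ∈ Q}} :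
    v ∈ Sf Q U ↔ v.1 ∈ U := by simp [Sf]

lemma insert_Sf {Q U : Finset (HeightOneSpectrum (𝓞 F))} (v : {v // v ∈ Q}) :
    insert v (Sf Q U) = Sf Q (insert v.1 U) := by
  ext u
  rw [Finset.mem_insert, mem_Sf, mem_Sf, Finset.mem_insert, Subtype.ext_iff]

/-- the set of CRD is the set of LAL -/
lemma set_eq {k : ℕ} {Q : Finset (HeightOneSpectrum (𝓞 F))} {a b : 𝓞 F}
    {W : AddSubgroup ({v // v ∈ Q} → ZMod 2 × ZMod 2)}
    (hW : ∀ w, w ∈ W ↔ ∃ α ∈ Wg k Q a b, ∀ v, w v = (ee v.1 α, ss v.1 α))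
    (U : Finset (HeightOneSpectrum (𝓞 F))) :
    {w : {v // v ∈ Q} → ZMod 2 × ZMod 2 |
        (∃ α ∈ Wg k Q a b, ∀ v, w v = (ee v.1 α, ss v.1 α)) ∧
        (∀ v, v.1 ∉ U → (w v).1 = 0) ∧ ∀ v, v.1 ∈ U → (w v).2 = 0} =
    {w ∈ (W : Set ({v // v ∈ Q} → ZMod 2 × ZMod 2)) |
        (∀ u ∉ Sf Q U, (w u).1 = 0) ∧ ∀ u ∈ Sf Q U, (w u).2 = 0} := by
  ext w
  simp only [Set.mem_ofPred_eq, SetLike.mem_coe, hW, mem_Sf]

lemma D_ne {k : ℕ} {Q P T : Finset (HeightOneSpectrum (𝓞 F))} {m : ℕ} (hQ : Act k Q)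
    (hm : Neu k P m) (hT : T ⊆ Q) : ((m * pr T : ℕ) : F) ≠ 0 := by
  have h : 0 < pr T := Finset.prod_pos fun v hv => (hQ.prime v (hT hv)).pos
  exact Nat.cast_ne_zero.2 (mul_pos hm.pos h).ne'

end STWM

theorem specSTW (hWGR : SpecWGR) (hLAL : PR.SpecLAL) (hCRD : SpecCRD) (hTVS : SpecTVS)
    (hBR : SpecBR) (hSLC : SpecSLC) (hFAC : SpecFAC) (hNE1 : SpecNE1) : SpecSTW := by
  intro F _ _ k cl Q P m a b hk0 hk hQ hP hm hF hgood
  have hd : dsc (a : F) (b : F) ≠ 0 := (hFAC.ne0 hk hP hF).2.1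
  obtain ⟨W, hW, hiso, hcard⟩ := hWGR F k cl Q P a b hk0 hk hQ hP hF hgood
  refine ⟨?_, ?_⟩
  · intro T hT
    rw [hCRD F k cl Q P a b hk0 hk hQ hP hF hgood T m hT hm,
      hCRD F k cl Q P a b hk0 hk hQ hP hF hgood T 1 hT (hNE1 F k P hk0).1]
  · intro T hT v hvQ hvT
    have hD : ((m * pr T : ℕ) : F) ≠ 0 := STWM.D_ne hQ hm hT
    have hTv : insert v T ⊆ Q := Finset.insert_subset hvQ hT
    have hvS : (⟨v, hvQ⟩ : {v // v ∈ Q}) ∉ STWM.Sf Q T := by
      rw [STWM.mem_Sf]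
      exact hvT
    obtain ⟨h1, h2⟩ := hLAL _ W hiso hcard (STWM.Sf Q T) ⟨v, hvQ⟩ hvS
    have e0 := hCRD F k cl Q P a b hk0 hk hQ hP hF hgood T m hT hm
    have e1 := hCRD F k cl Q P a b hk0 hk hQ hP hF hgood (insert v T) m hTv hm
    rw [STWM.set_eq hW] at e0 e1
    rw [STWM.insert_Sf] at h1 h2
    rw [← e0, ← e1] at h1 h2
    have hcond : (∀ z : Sel 2 (cN a b (m * pr T)), TrN (m * pr T) v z) ↔
        ∀ w ∈ W, (∀ u ∉ STWM.Sf Q T, (w u).1 = 0) →
          (∀ u ∈ STWM.Sf Q T, (w u).2 = 0) → (w ⟨v, hvQ⟩).2 = 0 := by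
      constructor
      · intro hz w hw hw1 hw2
        obtain ⟨α, hα, hαw⟩ := (hW w).1 hw
        have hsel : α ∈ SelSet (a : F) (b : F) ((m * pr T : ℕ) : F) := by
          rw [hSLC F k cl Q P T m a b hk0 hk hQ hP hm hF hT]
          refine ⟨hα, fun q hq => ⟨fun h => ?_, fun h => ?_⟩⟩
          · have := hw2 ⟨q, hq⟩ (STWM.mem_Sf.2 h)
            rwa [hαw] at this
          · have := hw1 ⟨q, hq⟩ fun h' => h (STWM.mem_Sf.1 h')
            rwa [hαw] at this
        obtain ⟨z, hz'⟩ := hBR.ex hd hD α hsel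
        have := (hTVS F k cl Q P T m a b hk0 hk hQ hP hm hF hT v hvQ hvT α z hz').1 (hz z)
        rw [hαw]
        exact this
      · intro hw z
        obtain ⟨α, hα⟩ := hBR.surj hd hD z
        have hsel := hBR.sel hd hD α z hα
        rw [hSLC F k cl Q P T m a b hk0 hk hQ hP hm hF hT] at hsel
        refine (hTVS F k cl Q P T m a b hk0 hk hQ hP hm hF hT v hvQ hvT α z hα).2 ?_
        refine hw (fun v => (ee v.1 α, ss v.1 α)) ((hW _).2 ⟨α, hsel.1, fun v => rfl⟩) ?_ ?_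
        · intro u hu
          exact (hsel.2 u.1 u.2).2 fun h => hu (STWM.mem_Sf.2 h)
        · intro u hu
          exact (hsel.2 u.1 u.2).1 (STWM.mem_Sf.1 hu)
    rw [hcond]
    exact ⟨h1, h2⟩

end Pool.Agent.Lib.MP_8cb858_nt.PF
end

section
/-!
# TRF: structure of the Selmer groups of the twists
-/
namespace Pool.Agent.Lib.MP_8cb858_nt.PF

open Polynomial NumberField IsDedekindDomain Pool.Agent.Lib.MP_8cb858_nt.SEL
open scoped Classical WithZero

namespace TRFM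

theorem zm : ∀ x y : ZMod 2, x + y = 0 ↔ (x = 0 ↔ y = 0) := by decide

end TRFM

theorem specTRF (hSFN : SpecSFN) (hBR : SpecBR) (hTVS : SpecTVS) (hHAP : SpecHAP)
    (hFAP : SpecFAP) (hFAC : SpecFAC) : SpecTRF := by
  intro F _ _ k cl Q P T m a b hk h6 hQ hP hm hf hT
  obtain ⟨d1, d2, -⟩ := hFAC.ne0 h6 hP hf
  have hD := (hFAP.dD hk hQ hm hT).2
  have hD' : ((m * pr T : ℕ) : F) ≠ 0 := Nat.cast_ne_zero.2 hD.ne'
  obtain ⟨h1, h2⟩ := hSFN F a b (m * pr T) d1 hD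
  refine ⟨h1, h2, fun v hv hvT z w => ?_⟩
  obtain ⟨α, hα⟩ := hBR.surj d2 hD' z
  obtain ⟨β, hβ⟩ := hBR.surj d2 hD' w
  have hαβ := hBR.mul d2 hD' α β z w hα hβ
  rw [hTVS F k cl Q P T m a b hk h6 hQ hP hm hf hT v hv hvT _ _ hαβ,
    hTVS F k cl Q P T m a b hk h6 hQ hP hm hf hT v hv hvT _ _ hα,
    hTVS F k cl Q P T m a b hk h6 hQ hP hm hf hT v hv hvT _ _ hβ,
    (hHAP F k cl Q P a b hk h6 hQ hP hf v hv α β hα.1 hβ.1).2.1]
  exact TRFM.zm _ _

end Pool.Agent.Lib.MP_8cb858_nt.PF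
end

section
/-!
# TVS: `Triv` is the vanishing of `s_v`
-/
set_option autoImplicit false

namespace Pool.Agent.Lib.MP_8cb858_nt.PF

open Polynomial NumberField IsDedekindDomain Pool.Agent.Lib.MP_8cb858_nt.SEL
open scoped Classical WithZero

theorem specTVS (hBR : SpecBR) (hSLC : SpecSLC) (hEVA : SpecEVA) (hINV : SpecINV) (hLR : SpecLR)
    (hHAP : SpecHAP) (hFAC : SpecFAC) (hFAP : SpecFAP) (hNF : SpecNF) : SpecTVS := by
  intro F _ _ k cl Q P T m a b hk h6 hA hC hN hF hT v hvQ hvT α z hz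
  obtain ⟨-, hd, hdv⟩ := hFAC.ne0 h6 hC hF
  have hDpos : 0 < m * pr T := (hFAP.dD hk hA hN hT).2
  have hD : ((m * pr T : ℕ) : F) ≠ 0 := Nat.cast_ne_zero.2 hDpos.ne'
  have hkv : (k : 𝓞 F) ∉ v.asIdeal := hFAP.qk hA v hvQ
  obtain ⟨hw2, hw3, -⟩ := hFAP.tw v h6 hkv
  have hsel := hBR.sel hd hD α z hz
  rw [hSLC F k cl Q P T m a b hk h6 hA hC hN hF hT] at hsel
  have hInV : InV α := hsel.1.1
  have hee : ee v α = 0 := (hsel.2 v hvQ).2 hvT
  obtain ⟨-, -, -, hap2, hap3, -⟩ := hHAP F k cl Q P a b hk h6 hA hC hF v hvQ α α hInV hInV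
  have hEv : Ev (vv v) (ul v α) := hap3.1 hee
  have hup : InV (ul v α) := hINV.upv _ α hInV
  have hT12 := hFAC.t12 hF v hvQ
  obtain ⟨⟨t₀, -, ht₀, -⟩, hLR2⟩ := hLR (v.adicCompletion F) (vv v) (lc v a) (lc v b) (hNF.lf F v)
    hw2 hw3 (hFAC.int v a) (hFAC.int v b) (hdv v) (Or.inl hT12)
  have hev : ∀ (t : v.adicCompletion F) (β : Lk (a : F) (b : F)),
      ev (RingHom.id (v.adicCompletion F)) t (ul v β) =
        ev (algebraMap F (v.adicCompletion F)) t β := by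
    intro t β
    unfold ul up
    rw [hEVA.upv, RingHom.id_comp]
  constructor
  · rintro ⟨α', t, hz', ht, hsq⟩
    obtain ⟨γ, hγ⟩ := hBR.inj hd hD α α' z hz hz'
    have h1 : ev (algebraMap F (v.adicCompletion F)) t α *
        ev (algebraMap F (v.adicCompletion F)) t α' =
        ev (algebraMap F (v.adicCompletion F)) t γ *
          ev (algebraMap F (v.adicCompletion F)) t γ := by
      rw [← hEVA.mul _ _ _ _ ht, hγ, hEVA.mul _ _ _ _ ht]
    have h2 : ev (algebraMap F (v.adicCompletion F)) t α' ≠ 0 :=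
      (hEVA.unit _ _ α' ht hz'.1.1).ne_zero
    obtain ⟨c, hc⟩ := hsq
    have hc0 : c ≠ 0 := by
      rintro rfl
      rw [mul_zero] at hc
      exact h2 hc
    have h3 : IsSquare (ev (algebraMap F (v.adicCompletion F)) t α) := by
      refine ⟨ev (algebraMap F (v.adicCompletion F)) t γ / c, ?_⟩
      rw [hc] at h1
      field_simp
      linear_combination h1
    have h4 := (hLR2 hT12 t (ul v α) ht hup hEv).2 (by rw [hev]; exact h3)
    exact (hap2.2 h4).2
  · intro hss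
    have h4 := hap2.1 ⟨hee, hss⟩
    have h5 := (hLR2 hT12 t₀ (ul v α) ht₀ hup hEv).1 h4
    rw [hev] at h5
    exact ⟨α, t₀, hz, ht₀, h5⟩

end Pool.Agent.Lib.MP_8cb858_nt.PF
end

section
/-!
# WCT: many elements of `Wg`
-/
namespace Pool.Agent.Lib.MP_8cb858_nt.PF

open Polynomial NumberField IsDedekindDomain Pool.Agent.Lib.MP_8cb858_nt.SEL
open scoped Classical WithZero

namespace WCTM

/-- Pigeonhole with several colourings (PGH with `0 < M i`). -/
theorem pgh {X ι κ : Type} [Fintype ι] [Fintype κ] (G : Finset X) (M : ι → ℕ)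
    (hM : ∀ i, 0 < M i) (c : ∀ i : ι, X → Fin (M i)) (d : κ → X → ZMod 2) (k : ℕ)
    (h : k * ((∏ i, M i) * 2 ^ Fintype.card κ) ≤ G.card) :
    ∃ H : Finset X, H ⊆ G ∧ k ≤ H.card ∧
      ∀ x ∈ H, ∀ y ∈ H, (∀ i, c i x = c i y) ∧ ∀ j, d j x = d j y := by
  have : ∀ i, Nonempty (Fin (M i)) := fun i => ⟨⟨0, hM i⟩⟩
  have hc : (Finset.univ : Finset ((∀ i : ι, Fin (M i)) × (κ → ZMod 2))).card =
      (∏ i, M i) * 2 ^ Fintype.card κ := by
    rw [Finset.card_univ, Fintype.card_prod, Fintype.card_pi, Fintype.card_fun, ZMod.card]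
    simp only [Fintype.card_fin]
  obtain ⟨y, -, hy⟩ := Finset.exists_le_card_fiber_of_mul_le_card_of_maps_to
    (s := G) (t := (Finset.univ : Finset ((∀ i : ι, Fin (M i)) × (κ → ZMod 2))))
    (f := fun x => (fun i => c i x, fun j => d j x)) (n := k) (fun _ _ => Finset.mem_univ _)
    Finset.univ_nonempty (by rw [hc, mul_comm]; exact h)
  refine ⟨_, Finset.filter_subset _ _, hy, ?_⟩
  intro x hx z hz
  have h1 := (Finset.mem_filter.1 hx).2
  have h2 := (Finset.mem_filter.1 hz).2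
  have h3 := h1.trans h2.symm
  exact ⟨fun i => congrFun (congrArg Prod.fst h3) i, fun j => congrFun (congrArg Prod.snd h3) j⟩

theorem up_mul {F K : Type} [Field F] [Field K] [Algebra F K] {a b : F} (α β : Lk a b) :
    up K (α * β) = up K α * up K β := by
  unfold up
  exact map_mul _ _ _

end WCTM

open WCTM in
theorem specPGH : SpecPGH := by
  intro X ι κ G I J M c d N hM h hN
  obtain ⟨H, h1, h2, h3⟩ := pgh (X := X) (ι := {i // i ∈ I}) (κ := {j // j ∈ J}) G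
    (fun i => M i.1) (fun i => hM i.1) (fun i => c i.1) (fun j => d j.1) N (by
      rw [Fintype.card_coe, Finset.prod_coe_sort I M]
      exact h)
  exact ⟨H, h1, h2, fun x hx y hy => ⟨fun i hi => (h3 x hx y hy).1 ⟨i, hi⟩,
    fun j hj => (h3 x hx y hy).2 ⟨j, hj⟩⟩⟩

open WCTM in
theorem specWCT (hFAC : SpecFAC) (hFAP : SpecFAP) (hSU : SpecSU) (hNF : SpecNF) (hIX : SpecIX)
    (hLS : SpecLS) (hEVF : SpecEVF) (hINV : SpecINV) : SpecWCT := by
  intro F _ _ k cl Q P a b hk hk6 hQ hC hab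
  obtain ⟨M, hM, hM2⟩ := hFAP.fin (F := F) hk hk6
  have hne0 := hFAC.ne0 hk6 hC hab
  set bad : Finset (HeightOneSpectrum (𝓞 F)) := (hFAC.fin hne0.1).toFinset.filter
    (fun v => v ∉ M) with hbad
  have mem_bad : ∀ v, v ∈ bad ↔ dsc a b ∈ v.asIdeal ∧ v ∉ M := by
    intro v
    rw [hbad, Finset.mem_filter, Set.Finite.mem_toFinset]
    rfl
  have bad_fac : ∀ v, v ∈ bad → v ∉ P ∧ v ∉ Q ∧
      vv v (dsc (lc v a) (lc v b)) = WithZero.exp (-1 : ℤ) := by
    intro v hv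
    obtain ⟨h1, h2⟩ := (mem_bad v).1 hv
    exact hFAC.bad hk6 hC hab v h1 (fun h => h2 ((hM v).2 h))
  have hdis : Disjoint Q bad := by
    rw [Finset.disjoint_right]
    intro v hv
    exact (bad_fac v hv).2.1
  have hQM : ∀ v ∈ Q, v ∉ M := fun v hv h => hFAP.qk hQ v hv ((hM v).1 h)
  have hSM : ∀ v ∈ Q ∪ bad, v ∉ M := by
    intro v hv
    rcases Finset.mem_union.1 hv with h | h
    · exact hQM v h
    · exact ((mem_bad v).1 h).2
  have hprod := hNF.twm F M hM2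
  obtain ⟨G0, hcard, hG1, hG2⟩ := hSU F a b (Q ∪ bad) M hab.1 hne0.1
    (by
      obtain ⟨w, hw⟩ := hC.ne
      exact ⟨w, hab.2.2.1 w hw⟩)
    hM2 hSM
    (by
      intro v hv
      by_cases h : v ∈ M
      · exact Or.inr h
      · exact Or.inl (Finset.mem_union_right _ ((mem_bad v).2 ⟨hv, h⟩)))
    (by
      intro v hv
      have hkv : (k : 𝓞 F) ∉ v.asIdeal := fun h => hSM v hv ((hM v).2 h)
      have hv' : v ∈ Q ∨ dsc a b ∈ v.asIdeal := by
        rcases Finset.mem_union.1 hv with h | h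
        · exact Or.inl h
        · exact Or.inr ((mem_bad v).1 h).1
      exact hFAC.rt hk6 hQ hC hab v hkv hv')
  have hint : ∀ (v : HeightOneSpectrum (𝓞 F)) (x : 𝓞 F), vv v (lc v x) ≤ 1 := fun v x =>
    hFAC.int v x
  -- colourings at the places dividing k
  have hcol : ∀ v : {v // v ∈ M}, ∃ c : Lk (lc v.1 a) (lc v.1 b) →
      Fin (two (vv v.1) * (1 + nr a b v.1)),
      ∀ α β : Lk (lc v.1 a) (lc v.1 b), InV α → InV β → c α = c β → Aff 1 (α * β) := by
    rintro ⟨v, hv⟩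
    exact hIX (v.adicCompletion F) (vv v) (lc v a) (lc v b) (hNF.lf F v)
      (hint v a) (hint v b) (hne0.2.2 v)
  choose c hc using hcol
  have hpos : ∀ v : {v // v ∈ M}, 0 < two (vv v.1) * (1 + nr a b v.1) := by
    intro v
    refine Nat.mul_pos ?_ (by omega)
    apply Nat.pos_of_ne_zero
    intro h0
    have h1 : ∏ v ∈ M, two (vv v) = 0 := Finset.prod_eq_zero v.2 h0
    rw [hprod] at h1
    exact absurd h1 (pow_ne_zero _ two_ne_zero)
  obtain ⟨H, hHG, hHc, hH⟩ := pgh (X := Lk (a : F) (b : F)) (ι := {v // v ∈ M})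
    (κ := {v // v ∈ bad}) G0 (fun v => two (vv v.1) * (1 + nr a b v.1)) hpos
    (fun v α => c v (ul v.1 α))
    (fun v α => ee v.1 α) (2 ^ Q.card) (by
      refine le_trans (le_of_eq ?_) hcard
      rw [Finset.card_union_of_disjoint hdis, Fintype.card_coe, Finset.prod_coe_sort M
        (fun v => two (vv v) * (1 + nr a b v)), Finset.prod_mul_distrib, hprod, pow_add, pow_add]
      ring)
  have hne : H.Nonempty := by
    rw [← Finset.card_pos]
    exact lt_of_lt_of_le (pow_pos two_pos _) hHc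
  obtain ⟨α₀, hα₀⟩ := hne
  have hV : ∀ α ∈ H, InV α := fun α hα => (hG1 α (hHG hα)).1
  have hu₀ : IsUnit α₀ := (hV α₀ hα₀).1
  have hinj : Set.InjOn (fun α => α * α₀) (H : Set (Lk (a : F) (b : F))) := by
    intro x _ y _ hxy
    exact hu₀.mul_left_injective hxy
  refine ⟨H.image (fun α => α * α₀), ?_, ?_, ?_⟩
  · rw [Finset.card_image_of_injOn hinj]
    exact hHc
  · intro β hβ
    obtain ⟨α, hα, rfl⟩ := Finset.mem_image.1 hβ
    have hVl : ∀ (v : HeightOneSpectrum (𝓞 F)) (γ : Lk (a : F) (b : F)), InV γ →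
        InV (ul v γ) := fun v γ hγ => hINV.upv _ γ hγ
    refine ⟨hINV.mul _ _ (hV α hα) (hV α₀ hα₀), ?_, ?_⟩
    · intro v hv
      show Aff 1 (up _ (α * α₀))
      rw [up_mul]
      exact hc ⟨v, (hM v).2 hv⟩ _ _ (hVl v α (hV α hα)) (hVl v α₀ (hV α₀ hα₀))
        ((hH α hα α₀ hα₀).1 ⟨v, (hM v).2 hv⟩)
    · intro v hv hvQ
      show Ev (vv v) (up _ (α * α₀))
      rw [up_mul]
      by_cases hvb : v ∈ bad
      · have hb := bad_fac v hvb
        have htw := hFAP.tw v hk6 hv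
        have hyp := hLS (v.adicCompletion F) (vv v) (lc v a) (lc v b) (hNF.lf F v)
          htw.1 htw.2.1 (hint v a) (hint v b) (hne0.2.2 v) (Or.inr hb.2.2)
        have he : PR.he (Ev (vv v)) (ul v α) = PR.he (Ev (vv v)) (ul v α₀) :=
          (hH α hα α₀ hα₀).2 ⟨v, hvb⟩
        have hV1 := hVl v α (hV α hα)
        have hV2 := hVl v α₀ (hV α₀ hα₀)
        by_cases h1 : Ev (vv v) (ul v α)
        · have h2 : Ev (vv v) (ul v α₀) := by
            by_contra h2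
            rw [PR.he, PR.he, if_pos h1, if_neg h2] at he
            exact absurd he (by decide)
          exact hyp.c0 _ _ hV1 hV2 h1 h2
        · have h2 : ¬ Ev (vv v) (ul v α₀) := by
            intro h2
            rw [PR.he, PR.he, if_neg h1, if_pos h2] at he
            exact absurd he (by decide)
          exact hyp.c1 _ _ hV1 hV2 h1 h2
      · have hvS : v ∉ Q ∪ bad := by
          rw [Finset.mem_union]
          rintro (h | h)
          · exact hvQ h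
          · exact hvb h
        have hvM : v ∉ M := fun h => hv ((hM v).1 h)
        have h1 := (hG1 α (hHG hα)).2 v hvS hvM
        have h2 := (hG1 α₀ (hHG hα₀)).2 v hvS hvM
        exact (hEVF (v.adicCompletion F) (vv v) (lc v a) (lc v b) (ul v α) (ul v α₀) (hint v a)
          (hint v b)).1 h1 h2
  · intro β hβ β' hβ' hne
    obtain ⟨α, hα, rfl⟩ := Finset.mem_image.1 hβ
    obtain ⟨α', hα', rfl⟩ := Finset.mem_image.1 hβ'
    have hne' : α ≠ α' := fun h => hne (by rw [h])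
    intro hsq
    apply hG2 α (hHG hα) α' (hHG hα') hne'
    obtain ⟨r, hr⟩ := hsq
    obtain ⟨u, hu⟩ := hu₀.exists_right_inv
    refine ⟨r * u, ?_⟩
    have h1 : α * α' = (α * α₀ * (α' * α₀)) * (u * u) := by
      have : α * α₀ * (α' * α₀) * (u * u) = α * α' * ((α₀ * u) * (α₀ * u)) := by ring
      rw [this, hu]
      ring
    rw [h1, hr]
    ring

end Pool.Agent.Lib.MP_8cb858_nt.PF
end

section
/-!
# Module FAH: elementary facts on configurations and admissible numbers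
-/
namespace Pool.Agent.Lib.MP_8cb858_nt.PT

open Polynomial NumberField IsDedekindDomain Pool.Agent.Lib.MP_8cb858_nt.SEL
open Pool.Agent.Lib.MP_8cb858_nt.PF
open scoped Classical WithZero

namespace FAHM

variable {F : Type} [Field F] [NumberField F]

theorem two_three {v : HeightOneSpectrum (𝓞 F)} (h6 : (6 : 𝓞 F) ∉ v.asIdeal) :
    (2 : 𝓞 F) ∉ v.asIdeal ∧ (3 : 𝓞 F) ∉ v.asIdeal := by
  constructor
  · intro h
    apply h6
    have e : (6 : 𝓞 F) = 2 * 3 := by norm_num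
    rw [e]
    exact Ideal.mul_mem_right _ _ h
  · intro h
    apply h6
    have e : (6 : 𝓞 F) = 2 * 3 := by norm_num
    rw [e]
    exact Ideal.mul_mem_left _ _ h

end FAHM

open FAPM FACM in
theorem specFAH (hNF : SpecNF) (hLR : SpecLR) (hAFI : SpecAFI) : SpecFAH := by
  have tw : ∀ {F : Type} [Field F] [NumberField F] {M Q P : Finset (HeightOneSpectrum (𝓞 F))}
      {a b : 𝓞 F}, Cf M Q P a b → ∀ v : HeightOneSpectrum (𝓞 F), v ∉ M →
        vv v 2 = 1 ∧ vv v 3 = 1 ∧ (2 : 𝓞 F) ∉ v.asIdeal := by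
    intro F _ _ M Q P a b hC v hv
    obtain ⟨h2, h3⟩ := FAHM.two_three (fun h => hv (hC.six v h))
    refine ⟨?_, ?_, h2⟩
    · have := eq_one_nat hNF v (n := 2) (by exact_mod_cast h2)
      exact_mod_cast this
    · have := eq_one_nat hNF v (n := 3) (by exact_mod_cast h3)
      exact_mod_cast this
  have hd : ∀ {F : Type} [Field F] [NumberField F] {M Q P : Finset (HeightOneSpectrum (𝓞 F))}
      {a b : 𝓞 F}, Cf M Q P a b → ∀ v ∈ P, dsc a b ∉ v.asIdeal := by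
    intro F _ _ M Q P a b hC v hv hd
    obtain ⟨x, hx⟩ := exists_root (FAHM.two_three (fun h => hC.pm v hv (hC.six v h))).2 hd
    exact hC.t3 v hv x hx
  have ne0 : ∀ {F : Type} [Field F] [NumberField F] {M Q P : Finset (HeightOneSpectrum (𝓞 F))}
      {a b : 𝓞 F}, Cf M Q P a b → dsc a b ≠ 0 ∧ dsc (a : F) (b : F) ≠ 0 ∧
        ∀ v : HeightOneSpectrum (𝓞 F), dsc (lc v a) (lc v b) ≠ 0 := by
    intro F _ _ M Q P a b hC
    have h1 : dsc a b ≠ 0 := by
      obtain ⟨w, hw⟩ := hC.ne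
      intro h
      apply hd hC w hw
      rw [h]
      exact zero_mem _
    refine ⟨h1, ?_, fun v => ?_⟩
    · have h2 : ((dsc a b : 𝓞 F) : F) = dsc (a : F) (b : F) := by
        show algebraMap (𝓞 F) F (dsc a b) = dsc (algebraMap (𝓞 F) F a) (algebraMap (𝓞 F) F b)
        unfold dsc
        rw [map_add, map_mul, map_mul, map_pow, map_pow, map_ofNat, map_ofNat]
      rw [← h2]
      exact fun h => h1 (RingOfIntegers.coe_eq_zero_iff.1 h)
    · rw [← lc_dsc, ← lcr_apply]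
      exact fun h => h1 (lcr_inj v (h.trans (map_zero _).symm))
  have bad : ∀ {F : Type} [Field F] [NumberField F] {M Q P : Finset (HeightOneSpectrum (𝓞 F))}
      {a b : 𝓞 F}, Cf M Q P a b → ∀ v : HeightOneSpectrum (𝓞 F), dsc a b ∈ v.asIdeal → v ∉ M →
        v ∉ P ∧ v ∉ Q ∧ vv v (dsc (lc v a) (lc v b)) = WithZero.exp (-1 : ℤ) := by
    intro F _ _ M Q P a b hC v hv hk
    refine ⟨fun h => hd hC v h hv, fun h => ?_, ?_⟩
    · apply hC.t12 v h 0
      rw [zero_pow two_ne_zero, zero_add]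
      exact hv
    · rw [← lc_dsc]
      exact eq_exp hNF v hv (hC.sf v hk)
  refine ⟨fun v x => le_one hNF v x, fun v D => ?_, tw, ne0, ?_, ?_, ?_, bad, ?_, ?_, ?_⟩
  · rw [← lc_nat]
    exact le_one hNF v _
  · intro F _ _ M Q P a b hC v hk
    rw [← lc_dsc]
    apply eq_of_not_le
    exact fun h => hC.sf v hk ((hNF.int F v _ 2).2.2 h)
  · intro F _ _ M Q P a b hC v hv
    exact (hNF.t3 F v a b).2 (hC.t3 v hv)
  · intro F _ _ M Q P a b hC v hv
    exact (hNF.t12 F v a b).2 (hC.t12 v hv)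
  · intro F _ _ a b h
    exact finite_mem h
  · intro F _ _ M Q P a b hC v hk hcase
    obtain ⟨w2, w3, h2⟩ := tw hC v hk
    obtain ⟨t, ht, hroot, ht'⟩ := (hLR (v.adicCompletion F) (vv v) (lc v a) (lc v b) (hNF.lf F v) w2 w3
      (le_one hNF v a) (le_one hNF v b) ((ne0 hC).2.2 v) (by
        rcases hcase with h | h
        · exact Or.inl ((hNF.t12 F v a b).2 (hC.t12 v h))
        · exact Or.inr (bad hC v h hk).2.2)).1
    obtain ⟨x, hx⟩ := hNF.dense F v t ht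
    have hxl : vv v (lc v x) ≤ 1 := le_one hNF v x
    refine ⟨x, ?_, fun hmem => ?_⟩
    · rw [mem_iff' hNF, lc_f]
      have e : lc v x ^ 3 + lc v a * lc v x + lc v b =
          -((t - lc v x) * (t ^ 2 + t * lc v x + lc v x ^ 2 + lc v a)) := by
        linear_combination hroot
      rw [e, Valuation.map_neg, map_mul]
      refine mul_lt_one_of_lt_of_le hx ?_
      refine (Valuation.map_add _ _ _).trans (max_le ?_ (le_one hNF v a))
      refine (Valuation.map_add _ _ _).trans (max_le ?_ ?_)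
      · refine (Valuation.map_add _ _ _).trans (max_le ?_ ?_)
        · rw [map_pow]
          exact pow_le_one' ht 2
        · rw [map_mul]
          exact mul_le_one' ht hxl
      · rw [map_pow]
        exact pow_le_one' hxl 2
    · rw [mem_iff' hNF, lc_f'] at hmem
      have e : 3 * t ^ 2 + lc v a = 3 * lc v x ^ 2 + lc v a + (t - lc v x) * (3 * (t + lc v x)) := by
        ring
      rw [e] at ht'
      have h5 : vv v ((t - lc v x) * (3 * (t + lc v x))) < 1 := by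
        rw [map_mul]
        refine mul_lt_one_of_lt_of_le hx ?_
        rw [map_mul, w3, one_mul]
        exact (Valuation.map_add _ _ _).trans (max_le ht hxl)
      have h6 := (Valuation.map_add (vv v) (3 * lc v x ^ 2 + lc v a)
        ((t - lc v x) * (3 * (t + lc v x)))).trans_lt (max_lt hmem h5)
      rw [ht'] at h6
      exact lt_irrefl _ h6
  · intro F _ _ a b v D Ds α hD hDs hsq
    refine hAFI.dd _ _ α (Nat.cast_ne_zero.2 hD.ne') (Nat.cast_ne_zero.2 hDs.ne') ?_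
    rw [← Nat.cast_mul]
    exact hsq

end Pool.Agent.Lib.MP_8cb858_nt.PT
end

section
/-!
# KRH: the coordinates are injective on `Wh` modulo squares
-/
set_option autoImplicit false

namespace Pool.Agent.Lib.MP_8cb858_nt.PT

open Polynomial NumberField IsDedekindDomain Pool.Agent.Lib.MP_8cb858_nt.SEL
open Pool.Agent.Lib.MP_8cb858_nt.PF
open scoped Classical WithZero

theorem specKRH (hBR : PF.SpecBR) (hSLH : SpecSLH) (hTVL : SpecTVL) (hHAQ : SpecHAQ)
    (hRPH : SpecRPH) (hFAH : SpecFAH) (hNF : PF.SpecNF) : SpecKRH := by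
  intro F _ _ M Q P Ds D0 a b hC hDs hA hgood α hα hco
  obtain ⟨-, hd, -⟩ := hFAH.ne0 hC
  have hD0 : 0 < D0 := hA.pos
  have hD : (D0 : F) ≠ 0 := Nat.cast_ne_zero.2 hD0.ne'
  have h1 := hSLH F M Q P ∅ Ds D0 a b hC hDs hA (Finset.empty_subset _) α
  have h3 : α ∈ SelSet (a : F) (b : F) (D0 : F) := by
    rw [h1]
    exact ⟨hα, fun v hv => ⟨fun h => absurd h (Finset.notMem_empty v), fun _ => (hco v hv).1⟩⟩
  obtain ⟨z, hz⟩ := hBR.ex hd hD α h3
  have h4 : z = 0 := by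
    refine hgood z fun v hv => ?_
    have hvM : v ∉ M := hC.qm v hv
    have hvP : v ∉ P := hC.qp v hv
    have h6 : (6 : 𝓞 F) ∉ v.asIdeal := fun h => hvM (hC.six v h)
    have hw : vv v (D0 : v.adicCompletion F) = 1 := hA.un v hvM hvP (Finset.notMem_empty v)
    have hDv : (D0 : 𝓞 F) ∉ v.asIdeal := by
      intro h
      have h7 := (FAPM.mem_iff' hNF v (D0 : 𝓞 F)).1 h
      rw [FAPM.lc_nat, hw] at h7
      exact lt_irrefl _ h7
    have h5 := (hTVL F a b D0 v hD0 h6 hDv (hC.t12 v hv) α z hz).2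
    rw [h5]
    exact (hHAQ F M Q P a b hC v hv α α hα.1 hα.1).2.2.2.1.1 (hco v hv)
  exact ((hRPH F (a : F) (b : F) D0 hd hD0).2 α z hz).1 h4

end Pool.Agent.Lib.MP_8cb858_nt.PT
end

section
/-!
# LJR: the Kummer classes of a ramified twist at a good place
-/
set_option autoImplicit false

namespace Pool.Agent.Lib.MP_8cb858_nt.PT

open Polynomial Pool.Agent.Lib.MP_8cb858_nt.PF
open scoped Classical WithZero

namespace LJRM

variable {K : Type} [Field K] {w : Valuation K ℤᵐ⁰}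

lemma wadd {x y : K} {c : ℤᵐ⁰} (hx : w x ≤ c) (hy : w y ≤ c) : w (x + y) ≤ c :=
  (w.map_add x y).trans (max_le hx hy)

lemma wsub {x y : K} {c : ℤᵐ⁰} (hx : w x ≤ c) (hy : w y ≤ c) : w (x - y) ≤ c :=
  (w.map_sub x y).trans (max_le hx hy)

lemma waddl {x y : K} (hx : w x < 1) (hy : w y < 1) : w (x + y) < 1 :=
  lt_of_le_of_lt (w.map_add x y) (max_lt hx hy)

lemma wmul {x y : K} (hx : w x ≤ 1) (hy : w y ≤ 1) : w (x * y) ≤ 1 := by
  rw [map_mul]; exact mul_le_one' hx hy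

lemma wmull {x y : K} (hx : w x < 1) (hy : w y ≤ 1) : w (x * y) < 1 := by
  rw [map_mul]
  exact lt_of_le_of_lt (mul_le_of_le_one_right' hy) hx

lemma wmulr {x y : K} (hx : w x ≤ 1) (hy : w y < 1) : w (x * y) < 1 := by
  rw [mul_comm]; exact wmull hy hx

lemma wpow {x : K} (hx : w x ≤ 1) (n : ℕ) : w (x ^ n) ≤ 1 := by
  rw [map_pow]; exact pow_le_one' hx n

lemma wnat (n : ℕ) : w (n : K) ≤ 1 := by
  induction n with
  | zero => simp
  | succ n ih =>
    rw [Nat.cast_add, Nat.cast_one]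
    exact wadd ih (le_of_eq (map_one w))

lemma wneg {x : K} {c : ℤᵐ⁰} (hx : w x ≤ c) : w (-x) ≤ c := by
  rw [Valuation.map_neg]; exact hx

lemma wnum (n : ℕ) [n.AtLeastTwo] : w (OfNat.ofNat n : K) ≤ 1 := by
  have := wnat (w := w) n
  rwa [← Nat.cast_ofNat (R := K) (n := n)]

lemma exp_odd {k : ℤᵐ⁰} (h : k ^ 2 = WithZero.exp (-1 : ℤ)) : False := by
  rcases eq_or_ne k 0 with rfl | hk
  · rw [zero_pow (by norm_num)] at h
    exact WithZero.exp_ne_zero h.symm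
  · obtain ⟨m, rfl⟩ : ∃ m : ℤ, k = WithZero.exp m := ⟨WithZero.log k, (WithZero.exp_log hk).symm⟩
    rw [← WithZero.exp_nsmul, WithZero.exp_inj] at h
    rw [nsmul_eq_mul] at h
    push_cast at h
    omega

lemma lt_one_iff {k : ℤᵐ⁰} (h : k < 1) : k ≤ WithZero.exp (-1 : ℤ) := by
  rcases eq_or_ne k 0 with rfl | hk
  · exact zero_le
  · obtain ⟨m, rfl⟩ : ∃ m : ℤ, k = WithZero.exp m := ⟨WithZero.log k, (WithZero.exp_log hk).symm⟩
    rw [← WithZero.exp_zero, WithZero.exp_lt_exp] at h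
    rw [WithZero.exp_le_exp]
    omega

/-- case (A) -/
lemma big (hCOO : SpecCOO) (hHNA : SpecHNA) (hHNS : SpecHNS) [CharZero K] {a b D x y : K}
    (hw : IsLF w) (h2 : w 2 = 1) (ha : w a ≤ 1) (hb : w b ≤ 1) (hx : 1 < w x)
    (h : y ^ 2 = D * (x ^ 3 + a * x + b)) :
    IsSquare (AdjoinRoot.of (fpol a b) D * (AdjoinRoot.of _ x - th a b)) := by
  have hx0 : x ≠ 0 := by
    rintro rfl
    rw [map_zero] at hx
    exact absurd zero_le (not_le.2 hx)
  have hi : w (x⁻¹) < 1 := by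
    rw [map_inv₀]
    exact inv_lt_one_of_one_lt₀ hx
  have h4 : w (4 : K) = 1 := by
    rw [show (4 : K) = 2 ^ 2 by norm_num, map_pow, h2, one_pow]
  have h40 : (4 : K) ≠ 0 := by norm_num
  -- the bracket
  have hB : w (1 ^ 2 - (1 + a * x⁻¹ ^ 2 + b * x⁻¹ ^ 3)) < 1 := by
    rw [show (1 : K) ^ 2 - (1 + a * x⁻¹ ^ 2 + b * x⁻¹ ^ 3) =
      x⁻¹ * (-(a * x⁻¹ + b * x⁻¹ ^ 2)) by ring]
    refine wmull hi (wneg (wadd (wmul ha hi.le) (wmul hb (wpow hi.le 2))))
  have hB1 : w (1 + a * x⁻¹ ^ 2 + b * x⁻¹ ^ 3) = 1 := by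
    have e : (1 + a * x⁻¹ ^ 2 + b * x⁻¹ ^ 3) = 1 + x⁻¹ * (a * x⁻¹ + b * x⁻¹ ^ 2) := by ring
    rw [e]
    refine Valuation.map_one_add_of_lt (v := w) ?_
    exact wmull hi (wadd (wmul ha hi.le) (wmul hb (wpow hi.le 2)))
  obtain ⟨v, hv1, hv2, -⟩ := hHNS.sqr _ 1 hw h2 hB1 (le_of_eq (map_one w)) hB
  have hv0 : v ≠ 0 := by
    rintro rfl
    rw [map_zero] at hv1
    exact zero_ne_one hv1
  have hDx : D * x = (y / (x * v)) ^ 2 := by
    have e : x ^ 3 + a * x + b = x ^ 3 * v ^ 2 := by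
      rw [hv2]
      field_simp
    rw [e] at h
    rw [div_pow, h]
    field_simp
  -- the factor
  obtain ⟨z, hz⟩ : ∃ z : Lk a b, z = el a b 0 (-(x⁻¹ / 4)) 0 := ⟨_, rfl⟩
  have hzc : ∀ i, w (cf i z) ≤ WithZero.exp (-((1 : ℕ) : ℤ)) := by
    intro i
    have hco := hCOO.co (a := a) (b := b) 0 (-(x⁻¹ / 4)) 0
    rw [← hz] at hco
    have h0 : w (0 : K) ≤ WithZero.exp (-((1 : ℕ) : ℤ)) := by
      rw [map_zero]; exact zero_le
    rcases (by omega : i = 0 ∨ i = 1 ∨ i = 2 ∨ 3 ≤ i) with rfl | rfl | rfl | hi3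
    · rw [hco.1]; exact h0
    · rw [hco.2.1]
      refine wneg ?_
      rw [map_div₀, h4, div_one]
      exact lt_one_iff hi
    · rw [hco.2.2]; exact h0
    · rw [hCOO.big i z hi3]; exact h0
  obtain ⟨u, -, hu⟩ := hHNA.sq z 1 hw ha hb le_rfl hzc
  have h1 : (1 : Lk a b) + 4 * z = 1 - AdjoinRoot.of (fpol a b) x⁻¹ * th a b := by
    have e4 : (4 : Lk a b) = AdjoinRoot.of (fpol a b) 4 :=
      (map_ofNat (AdjoinRoot.of (fpol a b)) 4).symm
    rw [eq_sub_iff_add_eq, hz, e4, hCOO.ofv, hCOO.ofv, hCOO.thv, hCOO.one, hCOO.mul, hCOO.mul,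
      hCOO.add, hCOO.add]
    congr 1
    · ring
    · field_simp
      ring
    · ring
  refine ⟨AdjoinRoot.of (fpol a b) (y / (x * v)) * (1 + 2 * u), ?_⟩
  have e1 : AdjoinRoot.of (fpol a b) D * (AdjoinRoot.of _ x - th a b) =
      AdjoinRoot.of (fpol a b) (D * x) * (1 - AdjoinRoot.of (fpol a b) x⁻¹ * th a b) := by
    have e2 : AdjoinRoot.of (fpol a b) x * AdjoinRoot.of (fpol a b) x⁻¹ = 1 := by
      rw [← map_mul, mul_inv_cancel₀ hx0, map_one]
    rw [map_mul]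
    linear_combination (AdjoinRoot.of (fpol a b) D * th a b) * e2
  rw [e1, hDx, ← h1, ← hu, map_pow]
  ring

/-- case (B) -/
lemma small (hHNS : SpecHNS) {a b D x y : K} (hw : IsLF w) (ha : w a ≤ 1) (hb : w b ≤ 1)
    (hd : w (dsc a b) = 1) (hD : w D = WithZero.exp (-1 : ℤ)) (hx : w x ≤ 1)
    (h : y ^ 2 = D * (x ^ 3 + a * x + b)) :
    ∃ t, w t ≤ 1 ∧ t ^ 3 + a * t + b = 0 ∧ w (x - t) < 1 := by
  have hF : w (x ^ 3 + a * x + b) ≤ 1 := wadd (wadd (wpow hx 3) (wmul ha hx)) hb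
  have hF1 : w (x ^ 3 + a * x + b) < 1 := by
    refine lt_of_le_of_ne hF fun h1 => ?_
    have h2 : w y ^ 2 = WithZero.exp (-1 : ℤ) := by
      rw [← map_pow, h, map_mul, h1, mul_one, hD]
    exact exp_odd h2
  have hG : w (3 * x ^ 2 + a) ≤ 1 := wadd (wmul (wnum 3) (wpow hx 2)) ha
  have hG1 : w (3 * x ^ 2 + a) = 1 := by
    by_contra hne
    have hlt : w (3 * x ^ 2 + a) < 1 := lt_of_le_of_ne hG hne
    have e : dsc a b = (x ^ 3 + a * x + b) *
        (27 * (x ^ 3 + a * x + b) - 54 * (3 * x ^ 2 + a) * x + 108 * x ^ 3) +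
        (3 * x ^ 2 + a) * ((3 * x ^ 2 + a) * (4 * (3 * x ^ 2 + a) - 9 * x ^ 2)) := by
      unfold dsc
      ring
    have : w (dsc a b) < 1 := by
      rw [e]
      refine waddl (wmull hF1 ?_) (wmull hlt ?_)
      · refine wadd (wsub (wmul (wnum 27) hF) (wmul (wmul (wnum 54) hG) hx))
          (wmul (wnum 108) (wpow hx 3))
      · exact wmul hG (wsub (wmul (wnum 4) hG) (wmul (wnum 9) (wpow hx 2)))
    exact absurd hd this.ne
  obtain ⟨t, ht1, ht2, ht3⟩ := hHNS.cub a b x hw ha hb hx hF1 hG1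
  refine ⟨t, ht1, ht2, ?_⟩
  rw [← Valuation.map_neg]
  rwa [neg_sub]

/-- two points of type (B) with the same root -/
lemma same (hTOC : SpecTOC) (hTOI : SpecTOI) (hSQS : SpecSQS) (hAFI : SpecAFI) (hINV : SpecINV)
    {a b D t x y x' y' : K} (hw : IsLF w) (h2 : w 2 = 1) (ha : w a ≤ 1)
    (hD0 : D ≠ 0) (ht1 : w t ≤ 1) (ht : t ^ 3 + a * t + b = 0) (hg : w (3 * t ^ 2 + a) = 1)
    (hx : w (x - t) < 1) (hx' : w (x' - t) < 1) (hy : y ≠ 0) (hy' : y' ≠ 0)
    (h : y ^ 2 = D * (x ^ 3 + a * x + b)) (h' : y' ^ 2 = D * (x' ^ 3 + a * x' + b)) :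
    IsSquare (AdjoinRoot.of (fpol a b) D * (AdjoinRoot.of _ x - th a b) *
      (AdjoinRoot.of (fpol a b) D * (AdjoinRoot.of _ x' - th a b))) := by
  have h20 : (2 : K) ≠ 0 := by
    intro e
    rw [e, map_zero] at h2
    exact zero_ne_one h2
  have hg0 : 3 * t ^ 2 + a ≠ 0 := by
    intro e
    rw [e, map_zero] at hg
    exact zero_ne_one hg
  obtain ⟨g, hgg⟩ : ∃ g : K, g = 3 * t ^ 2 + a := ⟨_, rfl⟩
  have hgn : g ≠ 0 := by rw [hgg]; exact hg0
  have hgi : w g⁻¹ ≤ 1 := by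
    rw [map_inv₀, hgg, hg, inv_one]
  have h2i : w (2 : K)⁻¹ ≤ 1 := by
    rw [map_inv₀, h2, inv_one]
  have hxw : w x ≤ 1 := by
    have e : x = (x - t) + t := by ring
    rw [e]; exact wadd hx.le ht1
  have hxw' : w x' ≤ 1 := by
    have e : x' = (x' - t) + t := by ring
    rw [e]; exact wadd hx'.le ht1
  have hdw : w (dq a t) ≤ 1 := by
    unfold dq
    refine wsub (wmul (wneg (wnum 3)) (wpow ht1 2)) (wmul (wnum 4) ha)
  obtain ⟨β, hβ⟩ : ∃ β : Lk a b, β = AdjoinRoot.of (fpol a b) D * (AdjoinRoot.of _ x - th a b) *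
      (AdjoinRoot.of (fpol a b) D * (AdjoinRoot.of _ x' - th a b)) := ⟨_, rfl⟩
  have hI : InV β := by
    rw [hβ]
    exact hINV.mul _ _ (hAFI.pt D x y hD0 hy h).1 (hAFI.pt D x' y' hD0 hy' h').1
  obtain ⟨γ, hγ⟩ := hTOC.ex (a := a) (b := b) (t := t) (1 / D) (3 * t / (2 * g * D))
    (1 / (2 * g * D)) hg0
  have hγu : IsUnit γ := by
    rw [hTOC.unt h20 ht hγ]
    refine ⟨one_div_ne_zero hD0, ?_⟩
    have e : (3 * t / (2 * g * D)) ^ 2 - dq a t * (1 / (2 * g * D)) ^ 2 = 1 / (g * D ^ 2) := by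
      unfold dq
      field_simp
      rw [hgg]
      ring
    rw [e]
    exact one_div_ne_zero (mul_ne_zero hgn (pow_ne_zero 2 hD0))
  have c1 := hTOC.mul h20 ht (hTOC.pnt (a := a) (b := b) t D x h20)
    (hTOC.pnt (a := a) (b := b) t D x' h20)
  rw [← hβ] at c1
  have c2 := hTOC.mul h20 ht c1 (hTOC.mul h20 ht hγ hγ)
  rw [← pow_two] at c2
  -- the coordinates
  obtain ⟨Z, hZ⟩ : ∃ Z : K, Z = 1 + (((x - t) * (x' + 2⁻¹ * t) + 3 * 2⁻¹ * t * (x' - t)) *
      ((3 * t ^ 2 - 2 * a) * (2⁻¹ * g⁻¹ ^ 2)) +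
      (x - t + (x' - t)) * (-(dq a t * 3 * t * (2⁻¹ ^ 2 * g⁻¹ ^ 2)))) := ⟨_, rfl⟩
  obtain ⟨S, hS⟩ : ∃ S : K, S = ((x - t) * (x' + 2⁻¹ * t) + 3 * 2⁻¹ * t * (x' - t)) *
      (3 * t * (2⁻¹ * g⁻¹ ^ 2)) + (x - t + (x' - t)) * (-((3 * t ^ 2 - 2 * a) *
      (2⁻¹ ^ 2 * g⁻¹ ^ 2))) := ⟨_, rfl⟩
  obtain ⟨R, hR⟩ : ∃ R : K, R = (x - t) * (x' - t) := ⟨_, rfl⟩
  have c3 : Co t (β * γ ^ 2) R Z S := by
    convert c2 using 1
    · rw [hR]
      field_simp
    · rw [hZ]
      have hg2 : a = g - 3 * t ^ 2 := by rw [hgg]; ring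
      unfold dq
      rw [hg2]
      field_simp
      ring
    · rw [hS]
      have hg2 : a = g - 3 * t ^ 2 := by rw [hgg]; ring
      unfold dq
      rw [hg2]
      field_simp
      ring
  have hs1 : w ((x - t) * (x' + 2⁻¹ * t) + 3 * 2⁻¹ * t * (x' - t)) < 1 := by
    refine waddl (wmull hx (wadd hxw' (wmul h2i ht1))) (wmulr ?_ hx')
    exact wmul (wmul (wnum 3) h2i) ht1
  have hs2 : w (x - t + (x' - t)) < 1 := waddl hx hx'
  have h3 : w (3 * t ^ 2 - 2 * a) ≤ 1 :=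
    wsub (wmul (wnum 3) (wpow ht1 2)) (wmul (wnum 2) ha)
  have hZ1 : w (Z - 1) < 1 := by
    rw [hZ, add_sub_cancel_left]
    refine waddl (wmull hs1 (wmul h3 (wmul h2i (wpow hgi 2)))) (wmull hs2 (wneg ?_))
    exact wmul (wmul (wmul hdw (wnum 3)) ht1) (wmul (wpow h2i 2) (wpow hgi 2))
  have hS1 : w S < 1 := by
    rw [hS]
    refine waddl (wmull hs1 (wmul (wmul (wnum 3) ht1) (wmul h2i (wpow hgi 2))))
      (wmull hs2 (wneg ?_))
    exact wmul h3 (wmul (wpow h2i 2) (wpow hgi 2))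
  obtain ⟨X, Y, hX, hY⟩ := hSQS.one (dq a t) Z S hw h2 hdw hZ1 hS1
  have hI2 : InV (β * γ ^ 2) := hINV.mul _ _ hI (hINV.sqr γ hγu)
  have hn0 := (hTOC.unt h20 ht c3).1 hI2.1
  have hZS : Z ^ 2 - dq a t * S ^ 2 = (X ^ 2 - dq a t * Y ^ 2) ^ 2 := by
    rw [hX, hY]
    ring
  obtain ⟨m, hm⟩ := hI2.2
  have hRsq : IsSquare R := by
    rw [hTOC.nrm h20 ht c3, hZS] at hm
    have hne : X ^ 2 - dq a t * Y ^ 2 ≠ 0 := by
      intro e
      apply hn0.2
      rw [hZS, e]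
      ring
    refine ⟨m / (X ^ 2 - dq a t * Y ^ 2), ?_⟩
    field_simp
    linear_combination hm
  have hsq : IsSquare (β * γ ^ 2) :=
    (hTOI K a b t _ R Z S h20 ht hg0 c3).1.2 ⟨hRsq, X, Y, hX, hY⟩
  have := hINV.trs β (γ ^ 2) 1 (hγu.pow 2) hsq (by rw [mul_one]; exact ⟨γ, by ring⟩)
  rwa [mul_one, hβ] at this

end LJRM

open LJRM in
theorem specLJR (hCOO : SpecCOO) (hHNA : SpecHNA) (hHNS : SpecHNS) (hTOC : SpecTOC)
    (hTOI : SpecTOI) (hSQS : SpecSQS) (hAFI : SpecAFI) (hINV : SpecINV) (hRTS : SpecRTS)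
    (hNR3 : SpecNR3) : SpecLJR := by
  intro K _ _ w a b D hw h2 ha hb hd hD
  have hD0 : D ≠ 0 := by
    rintro rfl
    rw [map_zero] at hD
    exact WithZero.exp_ne_zero hD.symm
  have hfin : Finite {t : K // t ^ 3 + a * t + b = 0} := (hNR3 K a b).2
  obtain ⟨ι, -⟩ : ∃ ι : {t : K // t ^ 3 + a * t + b = 0} ≃
      Fin (Nat.card {t : K // t ^ 3 + a * t + b = 0}), True := ⟨Finite.equivFin _, trivial⟩
  obtain ⟨Q, hQ⟩ : ∃ Q : Lk a b → {t : K // t ^ 3 + a * t + b = 0} → Prop,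
      Q = fun α t => ∃ x y : K, y ≠ 0 ∧ y ^ 2 = D * (x ^ 3 + a * x + b) ∧
        IsSquare (α * (AdjoinRoot.of _ D * (AdjoinRoot.of _ x - th a b))) ∧ w (x - t.1) < 1 :=
    ⟨_, rfl⟩
  have hlev : WithZero.exp (-1 : ℤ) ≤ w (dsc a b) := by
    rw [hd, ← WithZero.exp_zero, WithZero.exp_le_exp]
    omega
  have hrt := (hRTS K w a b hw ha hb hlev).2
  have dich : ∀ α : Lk a b, Aff D α → ¬ IsSquare α → ∃ t, Q α t := by
    rintro α ⟨x, y, hy, h, hs⟩ hns
    rcases le_or_gt (w x) 1 with hx | hx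
    · obtain ⟨t, -, ht2, ht3⟩ := small hHNS hw ha hb hd hD hx h
      refine ⟨⟨t, ht2⟩, ?_⟩
      rw [hQ]
      exact ⟨x, y, hy, h, hs, ht3⟩
    · exfalso
      apply hns
      have h1 := big hCOO hHNA hHNS hw h2 ha hb hx h
      have := hINV.trs α _ 1 (hAFI.pt D x y hD0 hy h).1.1 hs (by rw [mul_one]; exact h1)
      rwa [mul_one] at this
  refine ⟨fun α => if IsSquare α then Fin.castAdd _ (0 : Fin 1) else
    if hh : ∃ t, Q α t then Fin.natAdd 1 (ι (Classical.choose hh)) else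
      Fin.castAdd _ (0 : Fin 1), ?_⟩
  intro α β hIα hIβ hα hβ hc
  dsimp only at hc
  by_cases hsα : IsSquare α
  · by_cases hsβ : IsSquare β
    · exact hsα.mul hsβ
    · rw [if_pos hsα, if_neg hsβ, dif_pos (dich β hβ hsβ)] at hc
      have := congrArg Fin.val hc
      simp only [Fin.val_castAdd, Fin.val_natAdd] at this
      omega
  · by_cases hsβ : IsSquare β
    · rw [if_neg hsα, if_pos hsβ, dif_pos (dich α hα hsα)] at hc
      have := congrArg Fin.val hc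
      simp only [Fin.val_castAdd, Fin.val_natAdd] at this
      omega
    · rw [if_neg hsα, if_neg hsβ, dif_pos (dich α hα hsα), dif_pos (dich β hβ hsβ)] at hc
      have e1 : ι (Classical.choose (dich α hα hsα)) = ι (Classical.choose (dich β hβ hsβ)) := by
        have := congrArg Fin.val hc
        simp only [Fin.val_natAdd] at this
        apply Fin.ext
        omega
      have e2 := ι.injective e1
      have p1 := Classical.choose_spec (dich α hα hsα)
      have p2 := Classical.choose_spec (dich β hβ hsβ)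
      rw [← e2] at p2
      generalize Classical.choose (dich α hα hsα) = t at p1 p2
      rw [hQ] at p1 p2
      obtain ⟨x, y, hy, h, hs, hx⟩ := p1
      obtain ⟨x', y', hy', h', hs', hx'⟩ := p2
      have ht := hrt t.1 t.2
      have hss := same hTOC hTOI hSQS hAFI hINV hw h2 ha hD0 ht.1 t.2 ht.2 hx hx' hy hy' h h'
      have u1 := (hAFI.pt D x y hD0 hy h).1.1
      have u2 := (hAFI.pt D x' y' hD0 hy' h').1.1
      have s1 := hINV.trs α _ _ u1 hs hss
      refine hINV.trs α _ β u2 s1 ?_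
      rw [mul_comm]
      exact hs'

end Pool.Agent.Lib.MP_8cb858_nt.PT
end

section
/-!
# NR3: a cubic has at most three roots
-/
set_option autoImplicit false

namespace Pool.Agent.Lib.MP_8cb858_nt.PT

open Polynomial NumberField IsDedekindDomain Pool.Agent.Lib.MP_8cb858_nt.SEL
open Pool.Agent.Lib.MP_8cb858_nt.PF
open scoped Classical WithZero

theorem specNR3 : SpecNR3 := by
  intro K _ a b
  have hp : (X ^ 3 + C a * X + C b : K[X]) ≠ 0 := by
    intro h
    have h1 := congrArg (fun q : K[X] => q.coeff 3) h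
    simp at h1
  have hdeg : (X ^ 3 + C a * X + C b : K[X]).natDegree ≤ 3 := by
    compute_degree
  have hset : {t : K | t ^ 3 + a * t + b = 0} ⊆
      ((X ^ 3 + C a * X + C b : K[X]).roots.toFinset : Set K) := by
    intro t ht
    simp only [Set.mem_ofPred_eq] at ht
    simp only [Finset.mem_coe, Multiset.mem_toFinset]
    rw [mem_roots hp]
    simpa [IsRoot] using ht
  have hfin : {t : K | t ^ 3 + a * t + b = 0}.Finite := (Finset.finite_toSet _).subset hset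
  refine ⟨?_, hfin⟩
  have h1 : Nat.card {t : K // t ^ 3 + a * t + b = 0} =
      {t : K | t ^ 3 + a * t + b = 0}.ncard := rfl
  rw [h1]
  calc {t : K | t ^ 3 + a * t + b = 0}.ncard
      ≤ (((X ^ 3 + C a * X + C b : K[X]).roots.toFinset : Set K)).ncard :=
        Set.ncard_le_ncard hset (Finset.finite_toSet _)
    _ = (X ^ 3 + C a * X + C b : K[X]).roots.toFinset.card := Set.ncard_coe_finset _
    _ ≤ Multiset.card (X ^ 3 + C a * X + C b : K[X]).roots := Multiset.toFinset_card_le _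
    _ ≤ (X ^ 3 + C a * X + C b : K[X]).natDegree := card_roots' _
    _ ≤ 3 := hdeg

end Pool.Agent.Lib.MP_8cb858_nt.PT
end

section
/-!
# RCH: reciprocity on `Wh`
-/
namespace Pool.Agent.Lib.MP_8cb858_nt.PT

open Polynomial NumberField IsDedekindDomain Pool.Agent.Lib.MP_8cb858_nt.SEL
open Pool.Agent.Lib.MP_8cb858_nt.PF
open scoped Classical WithZero

theorem specRCH (hLG : SpecLG) (hLV : SpecLV) (hAFI : SpecAFI)
    (hINV : SpecINV) (hADJ : SpecADJ) (hHAQ : SpecHAQ) (hFAH : SpecFAH)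
    (hNF : SpecNF) : SpecRCH := by
  intro F _ _ M Q P Ds a b hR hC hDs α hα
  obtain ⟨hd0, -, -⟩ := hFAH.ne0 hC
  have hup : ∀ v : HeightOneSpectrum (𝓞 F), InV (ul v α) := fun v => hINV.upv _ α hα.1
  have hinf : ∀ v : InfinitePlace F, Iso (up v.Completion α) := fun v =>
    hAFI.iso 1 _ one_ne_zero (hINV.upv _ α hα.1).1 (hα.2.2.1 v)
  have hiso : ∀ v : HeightOneSpectrum (𝓞 F), v ∉ Q → Iso (ul v α) := by
    intro v hv
    by_cases hkv : v ∈ M
    · exact hAFI.iso (Ds : v.adicCompletion F) _ (Nat.cast_ne_zero.2 hDs.ne') (hup v).1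
        (hα.2.1 v hkv)
    obtain ⟨hw2, hw3, -⟩ := hFAH.tw hC v hkv
    by_cases hP : v ∈ P
    · obtain ⟨γ, hγ⟩ := hLV (v.adicCompletion F) (vv v) (lc v a) (lc v b) (ul v α) (hNF.lf F v) hw2
        (hFAH.int v a) (hFAH.int v b) (hFAH.t3 hC v hP) (hup v)
      have hγu : IsUnit γ := by
        have h1 := (hup v).1
        rw [hγ] at h1
        exact isUnit_of_mul_isUnit_left h1
      have h2 := (hAFI.inv (a := lc v a) (b := lc v b) 1 1 γ hγu).2.2 hADJ.one
      rw [one_mul, pow_two, ← hγ] at h2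
      exact h2
    · have h1 := (hLG (v.adicCompletion F) (vv v) (lc v a) (lc v b) 1 (ul v α) (hNF.lf F v) hw2
        (hFAH.int v a) (hFAH.int v b) (hFAH.sqf hC v hkv) (map_one _) (hup v)).1
        (hα.2.2.2 v hkv hv)
      exact hAFI.iso 1 _ one_ne_zero (hup v).1 h1
  have hev := hR a b α hd0 hα.1 hiso hinf
  have hval : ∀ v ∈ Q, ee v α * ss v α = if ¬ Iso (ul v α) then 1 else 0 := by
    intro v hv
    obtain ⟨-, -, h1, -⟩ := hHAQ F M Q P a b hC v hv α α hα.1 hα.1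
    rw [h1]
    by_cases h : Iso (ul v α)
    · rw [if_pos h, if_neg (not_not.2 h)]
    · rw [if_neg h, if_pos h]
  rw [Finset.sum_congr rfl hval, Finset.sum_boole, ZMod.natCast_eq_zero_iff]
  exact hev.two_dvd

end Pool.Agent.Lib.MP_8cb858_nt.PT
end

section
/-!
# Module RPH: `1` represents the trivial class (port of `PF/RP0.lean`)
-/
namespace Pool.Agent.Lib.MP_8cb858_nt.PT

open Polynomial NumberField IsDedekindDomain Pool.Agent.Lib.MP_8cb858_nt.SEL
open Pool.Agent.Lib.MP_8cb858_nt.PF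
open scoped Classical WithZero

theorem specRPH (hBR : PF.SpecBR) (hLZ : PF.SpecLZ) (hINV : PF.SpecINV) (hNF : PF.SpecNF)
    (hLIT : SpecLIT) : SpecRPH := by
  intro F _ _ a b D hd hD0
  have hD : (D : F) ≠ 0 := Nat.cast_ne_zero.2 hD0.ne'
  have h1 : InV (1 : Lk a b) := ⟨isUnit_one, by rw [map_one]; exact IsSquare.one⟩
  have hsel : (1 : Lk a b) ∈ SelSet a b (D : F) := by
    refine ⟨h1, fun v => ?_, fun v => ?_⟩
    · refine hLZ _ (vv v) _ _ _ _ (hNF.lf F v) ?_ ?_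
      · rw [Ne, map_eq_zero]
        exact hD
      · unfold up
        rw [map_one]
        exact IsSquare.one
    · rw [map_natCast]
      rw [hLIT.nat F v a b D _ hD0]
      refine hLIT.sqa F v a b _ hd (hINV.upv _ _ h1) ?_
      unfold up
      rw [map_one]
      exact IsSquare.one
  obtain ⟨z, hz⟩ := hBR.ex hd hD 1 hsel
  have hzz := hBR.mul hd hD 1 1 z z hz hz
  rw [mul_one] at hzz
  have hz0 : z = 0 := by
    have h2 := hBR.uni hd hD 1 (z + z) z hzz hz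
    exact add_eq_left.1 h2
  subst hz0
  refine ⟨hz, fun α z hα => ⟨?_, ?_⟩⟩
  · rintro rfl
    have h2 := hBR.inj hd hD α 1 0 hα hz
    rwa [mul_one] at h2
  · rintro ⟨g, hg⟩
    have hu : IsUnit g := by
      have h2 := hα.1.1
      rw [hg] at h2
      exact isUnit_of_mul_isUnit_left h2
    have h2 := hBR.sqr hd hD 1 g 0 hu hz
    rw [one_mul, pow_two, ← hg] at h2
    exact hBR.uni hd hD α z 0 hα h2

end Pool.Agent.Lib.MP_8cb858_nt.PT
end

section
/-!
# SEQ: comparison of Selmer groups by local conditions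
-/
namespace Pool.Agent.Lib.MP_8cb858_nt.PT

open Polynomial NumberField IsDedekindDomain Pool.Agent.Lib.MP_8cb858_nt.SEL
open Pool.Agent.Lib.MP_8cb858_nt.PF
open scoped Classical WithZero

theorem specSEQ (hBR : PF.SpecBR) (hINV : PF.SpecINV) (hSFN : PF.SpecSFN) : SpecSEQ := by
  intro F _ _ a b D D' hd hD hD' hsub
  have hdF : dsc (a : F) (b : F) ≠ 0 := by
    have h1 : algebraMap (𝓞 F) F (dsc a b) = dsc (a : F) (b : F) := by
      simp only [dsc, map_add, map_mul, map_pow, map_ofNat]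
    rw [← h1]
    intro h
    exact hd (RingOfIntegers.ext (h.trans (map_zero _).symm))
  have h0 : (D : F) ≠ 0 := Nat.cast_ne_zero.2 hD.ne'
  have h0' : (D' : F) ≠ 0 := Nat.cast_ne_zero.2 hD'.ne'
  have : Finite (Sel 2 (cN a b D')) := (hSFN F a b D' hd hD').1
  have key : ∀ z : Sel 2 (cN a b D), ∃ (α : Lk (a : F) (b : F)) (z' : Sel 2 (cN a b D')),
      Rep (D : F) α z ∧ Rep (D' : F) α z' := fun z => by
    obtain ⟨α, hα⟩ := hBR.surj hdF h0 z
    obtain ⟨z', hz'⟩ := hBR.ex hdF h0' α (hsub (hBR.sel hdF h0 α z hα))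
    exact ⟨α, z', hα, hz'⟩
  choose α f hα hf using key
  refine Nat.card_le_card_of_injective f (fun z₁ z₂ h => ?_)
  have h2 := hf z₂
  rw [← h] at h2
  have hs := hBR.inj hdF h0' (α z₁) (α z₂) (f z₁) (hf z₁) h2
  obtain ⟨γ, hγ, hg⟩ := (hINV.quo _ _ (hα z₁).1.1 (hα z₂).1.1).1 hs
  have h3 := hBR.sqr hdF h0 (α z₂) γ z₂ hγ (hα z₂)
  rw [← hg] at h3
  exact hBR.uni hdF h0 (α z₁) z₁ z₂ (hα z₁) h3

end Pool.Agent.Lib.MP_8cb858_nt.PT
end

section
/-!
# SLH: the local conditions of the 2-Selmer group in terms of the coordinates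
-/
namespace Pool.Agent.Lib.MP_8cb858_nt.PT

open Polynomial NumberField IsDedekindDomain Pool.Agent.Lib.MP_8cb858_nt.SEL
open Pool.Agent.Lib.MP_8cb858_nt.PF
open scoped Classical WithZero

namespace SLHM

/-- The local condition at a finite place. -/
theorem loc (hLG : SpecLG) (hLT : SpecLT) (hLV : SpecLV) (hLZ : SpecLZ)
    (hEVF : SpecEVF) (hNF : SpecNF) (hHAQ : SpecHAQ) (hFAH : SpecFAH)
    {F : Type} [Field F] [NumberField F]
    {M Q P T : Finset (HeightOneSpectrum (𝓞 F))} {Ds D : ℕ} {a b : 𝓞 F} (hC : Cf M Q P a b)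
    (hDs : 0 < Ds) (hA : Ad M P T Ds D) (hT : T ⊆ Q)
    (α : Lk (a : F) (b : F)) (hα : InV α) (v : HeightOneSpectrum (𝓞 F)) (hup : InV (ul v α)) :
    Aff (algebraMap F (v.adicCompletion F) ((D : ℕ) : F)) (ul v α) ↔
      (v ∈ M → Aff (Ds : v.adicCompletion F) (ul v α)) ∧
      (v ∉ M → v ∉ Q → Ev (vv v) (ul v α)) ∧
      (v ∈ Q → (v ∈ T → ss v α = 0) ∧ (v ∉ T → ee v α = 0)) := by
  have hDK : ((D : ℕ) : v.adicCompletion F) ≠ 0 := Nat.cast_ne_zero.2 hA.pos.ne'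
  have hlf := hNF.lf F v
  have ia := hFAH.int v a
  have ib := hFAH.int v b
  rw [map_natCast]
  by_cases hkv : v ∈ M
  · have hvQ : v ∉ Q := fun h => hC.qm v h hkv
    rw [hFAH.dA v D Ds (ul v α) hA.pos hDs (hA.sq v hkv)]
    exact ⟨fun h => ⟨fun _ => h, fun h' => absurd hkv h', fun h' => absurd h' hvQ⟩,
      fun h => h.1 hkv⟩
  · obtain ⟨h2, h3, -⟩ := hFAH.tw hC v hkv
    by_cases hvP : v ∈ P
    · have hvQ : v ∉ Q := fun h => hC.qp v h hvP
      have hs : IsSquare (ul v α) :=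
        hLV _ (vv v) (lc v a) (lc v b) (ul v α) hlf h2 ia ib (hFAH.t3 hC v hvP) hup
      have hE : Ev (vv v) (ul v α) := (hEVF _ (vv v) (lc v a) (lc v b) (ul v α) (ul v α) ia ib).2.2
        hup.1 hs
      exact ⟨fun _ => ⟨fun h => absurd h hkv, fun _ _ => hE, fun h => absurd h hvQ⟩,
        fun _ => hLZ _ (vv v) _ _ _ _ hlf hDK hs⟩
    · have key : v ∉ T → (Aff ((D : ℕ) : v.adicCompletion F) (ul v α) ↔
          Ev (vv v) (ul v α)) := fun hvT =>
        (hLG _ (vv v) (lc v a) (lc v b) ((D : ℕ) : v.adicCompletion F) (ul v α) hlf h2 ia ib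
          (hFAH.sqf hC v hkv) (hA.un v hkv hvP hvT) hup).symm
      by_cases hvQ : v ∈ Q
      · obtain ⟨-, -, -, -, he, hs⟩ := hHAQ F M Q P a b hC v hvQ α α hα hα
        by_cases hvT : v ∈ T
        · rw [hLT _ (vv v) (lc v a) (lc v b) ((D : ℕ) : v.adicCompletion F) (ul v α) hlf h2
            h3 ia ib ((hFAH.ne0 hC).2.2 v) (hFAH.t12 hC v hvQ) (hA.ex v hvT)
            hup, ← hs]
          exact ⟨fun h => ⟨fun h' => absurd h' hkv, fun _ h' => absurd hvQ h',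
            fun _ => ⟨fun _ => h, fun h' => absurd hvT h'⟩⟩, fun h => (h.2.2 hvQ).1 hvT⟩
        · rw [key hvT, ← he]
          exact ⟨fun h => ⟨fun h' => absurd h' hkv, fun _ h' => absurd hvQ h',
            fun _ => ⟨fun h' => absurd h' hvT, fun _ => h⟩⟩, fun h => (h.2.2 hvQ).2 hvT⟩
      · rw [key (fun h => hvQ (hT h))]
        exact ⟨fun h => ⟨fun h' => absurd h' hkv, fun _ _ => h, fun h' => absurd h' hvQ⟩,
          fun h => h.2.1 hkv hvQ⟩

end SLHM

theorem specSLH (hINV : SpecINV) (hLIT : SpecLIT) (hLG : SpecLG) (hLT : SpecLT)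
    (hLV : SpecLV) (hLZ : SpecLZ) (hEVF : SpecEVF) (hNF : SpecNF)
    (hHAQ : SpecHAQ) (hFAH : SpecFAH) : SpecSLH := by
  intro F _ _ M Q P T Ds D a b hC hDs hA hT α
  have hloc := fun (hα : InV α) (v : HeightOneSpectrum (𝓞 F)) =>
    SLHM.loc hLG hLT hLV hLZ hEVF hNF hHAQ hFAH hC hDs hA hT α hα v
      (hINV.upv _ α hα)
  have hinf : ∀ v : InfinitePlace F, Aff (algebraMap F v.Completion ((D : ℕ) : F))
      (up v.Completion α) ↔ Aff 1 (up v.Completion α) := by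
    intro v
    rw [map_natCast]
    exact hLIT.nat F v a b D (up v.Completion α) hA.pos
  constructor
  · rintro ⟨hα, hp, hi⟩
    have h := fun v => (hloc hα v).1 (hp v)
    exact ⟨⟨hα, fun v => (h v).1, fun v => (hinf v).1 (hi v), fun v => (h v).2.1⟩,
      fun v hv => (h v).2.2 hv⟩
  · rintro ⟨⟨hα, h1, hi, h2⟩, h3⟩
    exact ⟨hα, fun v => (hloc hα v).2 ⟨h1 v, h2 v, h3 v⟩, fun v => (hinf v).2 (hi v)⟩

end Pool.Agent.Lib.MP_8cb858_nt.PT
end

section
/-!
# SQZ: classes modulo squares at the primes dividing `K`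
-/
set_option autoImplicit false

namespace Pool.Agent.Lib.MP_8cb858_nt.PT

open Polynomial NumberField IsDedekindDomain Pool.Agent.Lib.MP_8cb858_nt.SEL
open Pool.Agent.Lib.MP_8cb858_nt.PF
open scoped Classical WithZero

namespace SQZM

theorem mem_nat (h : SpecPLQ) {p : ℕ} (hp : p.Prime) {v : HeightOneSpectrum (𝓞 ℚ)}
    (hv : (p : 𝓞 ℚ) ∈ v.asIdeal) (n : ℕ) : (n : 𝓞 ℚ) ∈ v.asIdeal ↔ p ∣ n := by
  have := h.mem p v (n : ℤ) 1 hp hv
  rw [pow_one, pow_one, Int.cast_natCast] at this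
  rw [this, Int.natCast_dvd_natCast]

theorem exp_neg_one_lt : WithZero.exp (-1 : ℤ) < (1 : ℤᵐ⁰) := by
  rw [← WithZero.exp_zero, WithZero.exp_lt_exp]
  norm_num

theorem zmod_sq {p : ℕ} (hp : p.Prime) (a b : ZMod p) (ha : a ≠ 0) (hb : b ≠ 0)
    (h : IsSquare a ↔ IsSquare b) : IsSquare (a * b) := by
  haveI : Fact p.Prime := ⟨hp⟩
  by_cases hs : IsSquare a
  · exact hs.mul (h.1 hs)
  · have hs' : ¬ IsSquare b := fun h' => hs (h.2 h')
    by_cases h2 : ringChar (ZMod p) = 2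
    · exact FiniteField.isSquare_of_char_two h2 _
    · have h3 := (quadraticChar_neg_one_iff_not_isSquare (F := ZMod p)).2 hs
      have h4 := (quadraticChar_neg_one_iff_not_isSquare (F := ZMod p)).2 hs'
      rw [← quadraticChar_one_iff_isSquare (mul_ne_zero ha hb), map_mul, h3, h4]
      norm_num

theorem val_int (hNF : SpecNF) {F : Type} [Field F] [NumberField F]
    (v : HeightOneSpectrum (𝓞 F)) (n : ℤ) (h : (n : 𝓞 F) ∈ v.asIdeal ^ 1) :
    vv v (n : v.adicCompletion F) ≤ WithZero.exp (-1 : ℤ) := by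
  have hw := ((hNF.int F v _ 1).2).1 h
  rwa [show (((n : ℤ) : 𝓞 F) : F) = (n : F) from map_intCast (algebraMap (𝓞 F) F) _,
    map_intCast, Nat.cast_one] at hw

theorem val_nat (hNF : SpecNF) {F : Type} [Field F] [NumberField F]
    (v : HeightOneSpectrum (𝓞 F)) (n : ℕ) : vv v (n : v.adicCompletion F) ≤ 1 := by
  have hw := (hNF.int F v (n : 𝓞 F) 0).1
  rwa [show (((n : ℕ) : 𝓞 F) : F) = (n : F) from map_natCast (algebraMap (𝓞 F) F) _,
    map_natCast] at hw

end SQZM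

open SQZM in
theorem specSQZ (hPLQ : SpecPLQ) (hNF : SpecNF) (hHNS : SpecHNS) (hSQ2 : SpecSQ2) : SpecSQZ where
  sym := by
    intro K m n h v hv
    rw [Nat.mul_comm]
    exact h v hv
  trs := by
    intro K l m n hm h1 h2 v hv
    obtain ⟨x, hx⟩ := h1 v hv
    obtain ⟨y, hy⟩ := h2 v hv
    have hm0 : (m : v.adicCompletion ℚ) ≠ 0 := Nat.cast_ne_zero.2 hm.ne'
    refine ⟨x * y / m, ?_⟩
    push_cast at hx hy ⊢
    field_simp
    linear_combination (m : v.adicCompletion ℚ) * n * hx + x * x * hy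
  mul := by
    intro K g m n h v hv
    obtain ⟨x, hx⟩ := h v hv
    refine ⟨g * x, ?_⟩
    push_cast at hx ⊢
    linear_combination (g : v.adicCompletion ℚ) ^ 2 * hx
  mon := by
    intro K K' m n hd h v hv
    refine h v ?_
    obtain ⟨c, rfl⟩ := hd
    rw [Nat.cast_mul]
    exact v.asIdeal.mul_mem_right _ hv
  cls := by
    intro K m n hK h2K hm hn h8 hsq v hv
    obtain ⟨p, hp, hpv⟩ := hPLQ.pr v
    have hpK : p ∣ K := (mem_nat hPLQ hp hpv K).1 hv
    have hpm : ¬ p ∣ m := fun h => hp.one_lt.ne' (Nat.eq_one_of_dvd_coprimes hm h hpK)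
    have hpn : ¬ p ∣ n := fun h => hp.one_lt.ne' (Nat.eq_one_of_dvd_coprimes hn h hpK)
    have hlf := hNF.lf ℚ v
    by_cases hp2 : p = 2
    · subst hp2
      have hw2 : vv v (2 : v.adicCompletion ℚ) < 1 := by
        have := (hPLQ.nat 2 v 2 hp hpv).2.1 ⟨dvd_refl 2, by norm_num⟩
        rw [Nat.cast_ofNat] at this
        rw [this]
        exact exp_neg_one_lt
      refine hSQ2 (v.adicCompletion ℚ) (vv v) (m * n) hlf hw2 ?_
      have h1 : m % 8 = 1 ∨ m % 8 = 3 ∨ m % 8 = 5 ∨ m % 8 = 7 := by omega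
      rw [Nat.mul_mod, ← h8]
      rcases h1 with h | h | h | h <;> rw [h]
    · have hw2 : vv v (2 : v.adicCompletion ℚ) = 1 := by
        have := (hPLQ.nat p v 2 hp hpv).1.1 (fun h => hp2 ((Nat.prime_dvd_prime_iff_eq hp
          Nat.prime_two).1 h))
        rwa [Nat.cast_ofNat] at this
      have hwu : vv v ((m * n : ℕ) : v.adicCompletion ℚ) = 1 :=
        (hPLQ.nat p v (m * n) hp hpv).1.1 (fun h => (hp.dvd_mul.1 h).elim hpm hpn)
      haveI : Fact p.Prime := ⟨hp⟩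
      have hm0 : (m : ZMod p) ≠ 0 := fun h => hpm ((ZMod.natCast_eq_zero_iff m p).1 h)
      have hn0 : (n : ZMod p) ≠ 0 := fun h => hpn ((ZMod.natCast_eq_zero_iff n p).1 h)
      obtain ⟨c, hc⟩ := zmod_sq hp (m : ZMod p) (n : ZMod p) hm0 hn0 (hsq p hp hpK)
      have hdvd : (p : ℤ) ∣ (c.val : ℤ) ^ 2 - ((m * n : ℕ) : ℤ) := by
        rw [← ZMod.intCast_zmod_eq_zero_iff_dvd]
        push_cast
        rw [ZMod.natCast_zmod_val, hc]
        ring
      have hmem : (((c.val : ℤ) ^ 2 - ((m * n : ℕ) : ℤ) : ℤ) : 𝓞 ℚ) ∈ v.asIdeal ^ 1 :=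
        (hPLQ.mem p v _ 1 hp hpv).2 (by rw [pow_one]; exact hdvd)
      have hw := val_int hNF v _ hmem
      have hcast : ((((c.val : ℤ) ^ 2 - ((m * n : ℕ) : ℤ) : ℤ)) : v.adicCompletion ℚ) =
          (c.val : v.adicCompletion ℚ) ^ 2 - ((m * n : ℕ) : v.adicCompletion ℚ) := by
        push_cast
        ring
      rw [hcast] at hw
      have hwx : vv v (c.val : v.adicCompletion ℚ) ≤ 1 := val_nat hNF v _
      obtain ⟨y, -, hy, -⟩ := hHNS.sqr ((m * n : ℕ) : v.adicCompletion ℚ)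
        (c.val : v.adicCompletion ℚ) hlf hw2 hwu hwx
        (lt_of_le_of_lt hw exp_neg_one_lt)
      exact ⟨y, by rw [← hy, pow_two]⟩

end Pool.Agent.Lib.MP_8cb858_nt.PT
end

section
/-!
# Module SRQ: the number of infinite places of `L`
-/
namespace Pool.Agent.Lib.MP_8cb858_nt.PT

open Polynomial NumberField IsDedekindDomain Pool.Agent.Lib.MP_8cb858_nt.SEL
open Pool.Agent.Lib.MP_8cb858_nt.PF
open scoped Classical WithZero

namespace SRQM

theorem isReal_ofReal {K : Type} [Field K] (ψ : K →+* ℝ) :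
    ComplexEmbedding.IsReal (Complex.ofRealHom.comp ψ) := by
  rw [ComplexEmbedding.isReal_iff]
  ext x
  rw [ComplexEmbedding.conjugate_coe_eq]
  show (starRingEnd ℂ) ((ψ x : ℝ) : ℂ) = ((ψ x : ℝ) : ℂ)
  exact Complex.conj_ofReal _

theorem natDegree {R : Type} [CommRing R] [Nontrivial R] (a b : R) :
    (fpol a b).natDegree = 3 := by
  have h : (C a * X + C b).degree < ((X : R[X]) ^ 3).degree := by
    rw [degree_X_pow]
    exact lt_of_le_of_lt degree_linear_le (by norm_num)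
  unfold fpol
  rw [add_assoc, natDegree_add_eq_left_of_degree_lt h, natDegree_X_pow]

/-- The real embeddings of `F`. -/
abbrev RE (F : Type) [Field F] : Type := {φ : F →+* ℂ // ComplexEmbedding.IsReal φ}

/-- Three real roots at the real embedding `φ`. -/
def thr {F : Type} [Field F] (a b : F) (φ : RE F) : Prop := (φ.1 (dsc a b)).re < 0

theorem nth_eq {F : Type} [Field F] [NumberField F] (a b : F) :
    nth a b = (Finset.univ.filter (fun φ : RE F => thr a b φ)).card := by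
  unfold nth
  symm
  refine Finset.card_bij (fun φ _ => InfinitePlace.mk φ.1) ?_ ?_ ?_
  · intro φ hφ
    rw [Finset.mem_filter] at hφ ⊢
    refine ⟨Finset.mem_univ _, ⟨φ.1, φ.2, rfl⟩, ?_⟩
    rw [InfinitePlace.embedding_mk_eq_of_isReal φ.2]
    exact hφ.2
  · intro φ _ φ' _ h
    apply Subtype.ext
    have h1 := congrArg InfinitePlace.embedding h
    rw [InfinitePlace.embedding_mk_eq_of_isReal φ.2,
      InfinitePlace.embedding_mk_eq_of_isReal φ'.2] at h1
    exact h1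
  · intro v hv
    rw [Finset.mem_filter] at hv
    have hr : ComplexEmbedding.IsReal v.embedding := InfinitePlace.isReal_iff.1 hv.2.1
    refine ⟨⟨v.embedding, hr⟩, ?_, InfinitePlace.mk_embedding v⟩
    rw [Finset.mem_filter]
    exact ⟨Finset.mem_univ _, hv.2.2⟩

theorem real_le (F L : Type) [Field F] [NumberField F] [Field L] [NumberField L] [Algebra F L]
    (p : RE F → Prop)
    (hext : ∀ φ : F →+* ℝ, ∃ ψ : L →+* ℝ, ∀ x : F, ψ (algebraMap F L x) = φ x)
    (hext3 : ∀ φ : RE F, p φ → ∃ ψ : Fin 3 → (L →+* ℝ), Function.Injective ψ ∧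
      ∀ (i : Fin 3) (x : F), ψ i (algebraMap F L x) = φ.2.embedding x) :
    InfinitePlace.nrRealPlaces F + 2 * (Finset.univ.filter p).card ≤
      InfinitePlace.nrRealPlaces L := by
  rw [← InfinitePlace.card_real_embeddings, ← InfinitePlace.card_real_embeddings]
  have h : ∀ φ : RE F, ∃ ψ : Fin (if p φ then 3 else 1) → (L →+* ℝ), Function.Injective ψ ∧
      ∀ i (x : F), ψ i (algebraMap F L x) = φ.2.embedding x := by
    intro φ
    by_cases hp : p φ
    · rw [if_pos hp]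
      exact hext3 φ hp
    · rw [if_neg hp]
      obtain ⟨ψ, hψ⟩ := hext φ.2.embedding
      refine ⟨fun _ => ψ, fun i j _ => Subsingleton.elim i j, fun _ x => hψ x⟩
  choose g hg1 hg2 using h
  have hc : Fintype.card (RE F) + 2 * (Finset.univ.filter p).card =
      Fintype.card (Σ φ : RE F, Fin (if p φ then 3 else 1)) := by
    rw [Fintype.card_sigma]
    simp only [Fintype.card_fin]
    have h1 : ∀ φ : RE F, (if p φ then 3 else 1) = 1 + 2 * (if p φ then 1 else 0) := by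
      intro φ
      split_ifs <;> rfl
    simp only [h1, Finset.sum_add_distrib, ← Finset.mul_sum, Finset.sum_boole]
    simp
  rw [hc]
  refine Fintype.card_le_of_injective
    (fun q : (Σ φ : RE F, Fin (if p φ then 3 else 1)) =>
      (⟨Complex.ofRealHom.comp (g q.1 q.2), isReal_ofReal _⟩ : RE L)) ?_
  rintro ⟨φ, i⟩ ⟨φ', j⟩ h
  have h0 : Complex.ofRealHom.comp (g φ i) = Complex.ofRealHom.comp (g φ' j) :=
    congrArg Subtype.val h
  have h1 : g φ i = g φ' j := by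
    ext y
    have h2 := congrArg (fun ψ : L →+* ℂ => ψ y) h0
    simp only [RingHom.comp_apply] at h2
    exact Complex.ofReal_injective h2
  have h3 : φ = φ' := by
    apply Subtype.ext
    ext x
    rw [← ComplexEmbedding.IsReal.coe_embedding_apply φ.2 x,
      ← ComplexEmbedding.IsReal.coe_embedding_apply φ'.2 x, ← hg2 φ i x, ← hg2 φ' j x, h1]
  subst h3
  rw [hg1 φ h1]

end SRQM

open SRQM in
theorem specSRQ (hSRT : SpecSRT) (hSRR : PF.SpecSRR) : SpecSRQ := by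
  intro F _ _ a b _
  have hF := InfinitePlace.card_add_two_mul_card_eq_rank F
  have hL := InfinitePlace.card_add_two_mul_card_eq_rank (Lk a b)
  have hF2 := InfinitePlace.card_eq_nrRealPlaces_add_nrComplexPlaces F
  have hL2 := InfinitePlace.card_eq_nrRealPlaces_add_nrComplexPlaces (Lk a b)
  have h3 : Module.finrank F (Lk a b) = 3 := by
    have h4 := (AdjoinRoot.powerBasis' (fpol_monic a b)).finrank
    rw [h4]
    show (fpol a b).natDegree = 3
    exact natDegree a b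
  have hdeg : Module.finrank ℚ (Lk a b) = Module.finrank ℚ F * 3 := by
    rw [← Module.finrank_mul_finrank ℚ F (Lk a b), h3]
  have hle := real_le F (Lk a b) (thr a b) (fun φ => hSRR F a b φ) (by
    intro φ hp
    have h5 : φ.2.embedding (dsc a b) < 0 := by
      have h6 : ((φ.2.embedding (dsc a b) : ℝ) : ℂ) = φ.1 (dsc a b) :=
        ComplexEmbedding.IsReal.coe_embedding_apply φ.2 _
      have h7 := hp
      unfold thr at h7
      rw [← h6, Complex.ofReal_re] at h7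
      exact h7
    exact hSRT F a b φ.2.embedding h5)
  rw [← nth_eq] at hle
  omega

end Pool.Agent.Lib.MP_8cb858_nt.PT
end

section
/-!
# STH: the change of the Selmer group under twisting (port of `PF/STW.lean`)
-/
set_option autoImplicit false

namespace Pool.Agent.Lib.MP_8cb858_nt.PT

open Polynomial NumberField IsDedekindDomain Pool.Agent.Lib.MP_8cb858_nt.SEL
open Pool.Agent.Lib.MP_8cb858_nt.PF
open scoped Classical WithZero

namespace STHM

variable {F : Type} [Field F] [NumberField F]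

/-- the places of `U` in `Q` -/
noncomputable def Sf (Q U : Finset (HeightOneSpectrum (𝓞 F))) : Finset {v // v ∈ Q} :=
  Finset.univ.filter fun v => v.1 ∈ U

omit [NumberField F] in
lemma mem_Sf {Q U : Finset (HeightOneSpectrum (𝓞 F))} {v : {v // v ∈ Q}} :
    v ∈ Sf Q U ↔ v.1 ∈ U := by simp [Sf]

omit [NumberField F] in
lemma insert_Sf {Q U : Finset (HeightOneSpectrum (𝓞 F))} (v : {v // v ∈ Q}) :
    insert v (Sf Q U) = Sf Q (insert v.1 U) := by
  ext u
  rw [Finset.mem_insert, mem_Sf, mem_Sf, Finset.mem_insert, Subtype.ext_iff]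

/-- the set of CRH is the set of LAL -/
lemma set_eq {M Q : Finset (HeightOneSpectrum (𝓞 F))} {Ds : ℕ} {a b : 𝓞 F}
    {W : AddSubgroup ({v // v ∈ Q} → ZMod 2 × ZMod 2)}
    (hW : ∀ w, w ∈ W ↔ ∃ α ∈ Wh M Q Ds a b, ∀ v, w v = (ee v.1 α, ss v.1 α))
    (U : Finset (HeightOneSpectrum (𝓞 F))) :
    {w : {v // v ∈ Q} → ZMod 2 × ZMod 2 |
        (∃ α ∈ Wh M Q Ds a b, ∀ v, w v = (ee v.1 α, ss v.1 α)) ∧
        (∀ v, v.1 ∉ U → (w v).1 = 0) ∧ ∀ v, v.1 ∈ U → (w v).2 = 0} =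
    {w ∈ (W : Set ({v // v ∈ Q} → ZMod 2 × ZMod 2)) |
        (∀ u ∉ Sf Q U, (w u).1 = 0) ∧ ∀ u ∈ Sf Q U, (w u).2 = 0} := by
  ext w
  simp only [Set.mem_ofPred_eq, SetLike.mem_coe, hW, mem_Sf]

lemma notMem_of_un (hNF : PF.SpecNF) (v : HeightOneSpectrum (𝓞 F)) (D : ℕ)
    (h : vv v (D : v.adicCompletion F) = 1) : (D : 𝓞 F) ∉ v.asIdeal := by
  intro hD
  have h1 := (hNF.int F v (D : 𝓞 F) 1).2.1 (by rwa [pow_one])
  have h2 : algebraMap F (v.adicCompletion F) (((D : 𝓞 F) : F)) = (D : v.adicCompletion F) := by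
    have h3 : ((D : 𝓞 F) : F) = (D : F) := map_natCast (algebraMap (𝓞 F) F) D
    rw [h3, map_natCast]
  rw [h2, h, Nat.cast_one] at h1
  exact absurd h1 (by decide)

lemma tr_iff (hNF : PF.SpecNF) (hHAQ : SpecHAQ) (hTVL : SpecTVL)
    {M Q P T : Finset (HeightOneSpectrum (𝓞 F))} {Ds D : ℕ} {a b : 𝓞 F} (hC : Cf M Q P a b)
    (hA : Ad M P T Ds D) {v : HeightOneSpectrum (𝓞 F)} (hvQ : v ∈ Q) (hvT : v ∉ T)
    (α : Lk (a : F) (b : F)) (hα : α ∈ Wh M Q Ds a b) (z : Sel 2 (cN a b D))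
    (hz : Rep (D : F) α z) : TrN D v z ↔ ss v α = 0 := by
  have hvM := hC.qm v hvQ
  have h6 : (6 : 𝓞 F) ∉ v.asIdeal := fun h => hvM (hC.six v h)
  have hD : (D : 𝓞 F) ∉ v.asIdeal :=
    notMem_of_un hNF v D (hA.un v hvM (hC.qp v hvQ) hvT)
  obtain ⟨h1, h2⟩ := hTVL F a b D v hA.pos h6 hD (hC.t12 v hvQ) α z hz
  obtain ⟨-, -, -, h3, h4, -⟩ := hHAQ F M Q P a b hC v hvQ α α hα.1 hα.1
  rw [h2, ← h3]
  exact ⟨fun h => h.2, fun h => ⟨h4.2 h1, h⟩⟩

end STHM

theorem specSTH (hWGH : SpecWGH) (hLAL : PR.SpecLAL) (hCRH : SpecCRH) (hTVL : SpecTVL)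
    (hHAQ : SpecHAQ) (hBR : PF.SpecBR) (hSLH : SpecSLH) (hFAH : SpecFAH) (hNF : PF.SpecNF) :
    SpecSTH := by
  intro F _ _ M Q P Ds D0 a b hR hC hDs hA0 hgood
  have hd : dsc (a : F) (b : F) ≠ 0 := (hFAH.ne0 hC).2.1
  obtain ⟨W, hW, hiso, hcard⟩ := hWGH F M Q P Ds D0 a b hR hC hDs hA0 hgood
  refine ⟨?_, ?_⟩
  · intro T hT D D' hD hD'
    rw [hCRH F M Q P Ds D0 a b hR hC hDs hA0 hgood T D hT hD,
      hCRH F M Q P Ds D0 a b hR hC hDs hA0 hgood T D' hT hD']
  · intro T hT v hvQ hvT D D' hD hD'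
    have hDF : (D : F) ≠ 0 := Nat.cast_ne_zero.2 hD.pos.ne'
    have hTv : insert v T ⊆ Q := Finset.insert_subset hvQ hT
    have hvS : (⟨v, hvQ⟩ : {v // v ∈ Q}) ∉ STHM.Sf Q T := by
      rw [STHM.mem_Sf]
      exact hvT
    obtain ⟨h1, h2⟩ := hLAL _ W hiso hcard (STHM.Sf Q T) ⟨v, hvQ⟩ hvS
    have e0 := hCRH F M Q P Ds D0 a b hR hC hDs hA0 hgood T D hT hD
    have e1 := hCRH F M Q P Ds D0 a b hR hC hDs hA0 hgood (insert v T) D' hTv hD'
    rw [STHM.set_eq hW] at e0 e1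
    rw [STHM.insert_Sf] at h1 h2
    rw [← e0, ← e1] at h1 h2
    have hcond : (∀ z : Sel 2 (cN a b D), TrN D v z) ↔
        ∀ w ∈ W, (∀ u ∉ STHM.Sf Q T, (w u).1 = 0) →
          (∀ u ∈ STHM.Sf Q T, (w u).2 = 0) → (w ⟨v, hvQ⟩).2 = 0 := by
      constructor
      · intro hz w hw hw1 hw2
        obtain ⟨α, hα, hαw⟩ := (hW w).1 hw
        have hsel : α ∈ SelSet (a : F) (b : F) (D : F) := by
          rw [hSLH F M Q P T Ds D a b hC hDs hD hT]
          refine ⟨hα, fun q hq => ⟨fun h => ?_, fun h => ?_⟩⟩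
          · have := hw2 ⟨q, hq⟩ (STHM.mem_Sf.2 h)
            rwa [hαw] at this
          · have := hw1 ⟨q, hq⟩ fun h' => h (STHM.mem_Sf.1 h')
            rwa [hαw] at this
        obtain ⟨z, hz'⟩ := hBR.ex hd hDF α hsel
        have := (STHM.tr_iff hNF hHAQ hTVL hC hD hvQ hvT α hα z hz').1 (hz z)
        rw [hαw]
        exact this
      · intro hw z
        obtain ⟨α, hα⟩ := hBR.surj hd hDF z
        have hsel := hBR.sel hd hDF α z hα
        rw [hSLH F M Q P T Ds D a b hC hDs hD hT] at hsel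
        refine (STHM.tr_iff hNF hHAQ hTVL hC hD hvQ hvT α hsel.1 z hα).2 ?_
        refine hw (fun v => (ee v.1 α, ss v.1 α)) ((hW _).2 ⟨α, hsel.1, fun v => rfl⟩) ?_ ?_
        · intro u hu
          exact (hsel.2 u.1 u.2).2 fun h => hu (STHM.mem_Sf.2 h)
        · intro u hu
          exact (hsel.2 u.1 u.2).1 (STHM.mem_Sf.1 hu)
    rw [hcond]
    exact ⟨h1, h2⟩

end Pool.Agent.Lib.MP_8cb858_nt.PT
end

section
/-!
# Module SUF: units of square norm (port of `PF/SUE.lean`)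
-/
set_option autoImplicit false

namespace Pool.Agent.Lib.MP_8cb858_nt.PT

open Polynomial NumberField IsDedekindDomain
open scoped Classical

namespace SUFM

/-- an integral square root of a unit is a unit -/
theorem exists_unit {L : Type} [Field L] [NumberField L] (u : (𝓞 L)ˣ) (γ : L)
    (h : ((u : 𝓞 L) : L) = γ * γ) : ∃ g : (𝓞 L)ˣ, ((g : 𝓞 L) : L) = γ ∧ u = g ^ 2 := by
  have hi : IsIntegral ℤ γ := by
    have h1 : IsIntegral ℤ (γ ^ 2) := by
      rw [sq, ← h]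
      exact RingOfIntegers.isIntegral_coe _
    exact IsIntegral.of_pow (by norm_num) h1
  obtain ⟨c, hc⟩ : ∃ c : 𝓞 L, (c : L) = γ := ⟨⟨γ, hi⟩, rfl⟩
  have h2 : (u : 𝓞 L) = c * c := by
    apply RingOfIntegers.coe_injective
    rw [map_mul]
    change ((u : 𝓞 L) : L) = (c : L) * (c : L)
    rw [hc, h]
  have hcu : IsUnit c := isUnit_of_mul_isUnit_left (h2 ▸ u.isUnit)
  obtain ⟨g, hg⟩ := hcu
  refine ⟨g, by rw [hg, hc], ?_⟩
  apply Units.ext
  rw [h2, Units.val_pow_eq_pow_val, hg, sq]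

end SUFM

theorem specSUF (hSUI : PF.SpecSUI) : SpecSUF := by
  intro F L _ _ _ _ _ e hle
  have hF := hSUI F
  have hL := hSUI L
  set SL : Subgroup (𝓞 L)ˣ := (powMonoidHom 2 : (𝓞 L)ˣ →* (𝓞 L)ˣ).range with hSL
  set SF : Subgroup (𝓞 F)ˣ := (powMonoidHom 2 : (𝓞 F)ˣ →* (𝓞 F)ˣ).range with hSF
  set N : (𝓞 L)ˣ →* (𝓞 F)ˣ := Units.map (RingOfIntegers.norm F) with hN
  set G : Subgroup (𝓞 L)ˣ := SF.comap N with hG
  have hSG : SL ≤ G := by
    rintro _ ⟨x, rfl⟩
    refine ⟨N x, ?_⟩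
    simp only [powMonoidHom_apply, map_pow]
  have h1 : SL.relIndex G * G.index = SL.index := Subgroup.relIndex_mul_index hSG
  have h2 : G.index ∣ SF.index := by
    rw [hG, Subgroup.index_comap]
    exact Subgroup.relIndex_dvd_index_of_normal _ _
  have h3 : G.index ≤ 2 ^ Fintype.card (InfinitePlace F) := by
    rw [← hF]
    exact Nat.le_of_dvd (by rw [hF]; positivity) h2
  have h4 : 2 ^ (Module.finrank ℚ F + e) ≤ SL.relIndex G := by
    have h5 : 2 ^ (Module.finrank ℚ F + e) * 2 ^ Fintype.card (InfinitePlace F) ≤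
        SL.relIndex G * 2 ^ Fintype.card (InfinitePlace F) := by
      calc 2 ^ (Module.finrank ℚ F + e) * 2 ^ Fintype.card (InfinitePlace F)
          = 2 ^ (Module.finrank ℚ F + Fintype.card (InfinitePlace F) + e) := by
            rw [← pow_add]
            congr 1
            omega
        _ ≤ 2 ^ Fintype.card (InfinitePlace L) := Nat.pow_le_pow_right (by norm_num) hle
        _ = SL.relIndex G * G.index := by rw [h1, hL]
        _ ≤ _ := Nat.mul_le_mul_left _ h3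
    exact Nat.le_of_mul_le_mul_right h5 (by positivity)
  -- representatives
  have h6 : 2 ^ (Module.finrank ℚ F + e) ≤ Nat.card (G ⧸ SL.subgroupOf G) := h4
  have h7 : Finite (G ⧸ SL.subgroupOf G) := by
    apply Nat.finite_of_card_ne_zero
    have : 0 < 2 ^ (Module.finrank ℚ F + e) := by positivity
    omega
  obtain ⟨f⟩ : Nonempty (Fin (2 ^ (Module.finrank ℚ F + e)) ↪ G ⧸ SL.subgroupOf G) := by
    have e := (Finite.equivFin (G ⧸ SL.subgroupOf G))
    exact ⟨(Fin.castLEEmb h6).trans e.symm.toEmbedding⟩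
  refine ⟨fun i => ((f i).out : G), ?_, ?_⟩
  · intro i
    obtain ⟨v, hv⟩ := (f i).out.2
    refine ⟨((v : 𝓞 F) : F), ?_⟩
    have h8 := congrArg (fun z : (𝓞 F)ˣ => ((z : 𝓞 F) : F)) hv
    simp only [powMonoidHom_apply, Units.val_pow_eq_pow_val] at h8
    rw [← sq]
    have h9 : ((((v : 𝓞 F)) ^ 2 : 𝓞 F) : F) = ((v : 𝓞 F) : F) ^ 2 := map_pow _ _ _
    rw [← h9, h8]
    rfl
  · intro i j hij ⟨γ, hγ⟩
    apply hij
    apply f.injective
    have h8 : (((((f i).out : (𝓞 L)ˣ) * ((f j).out : (𝓞 L)ˣ) : (𝓞 L)ˣ) : 𝓞 L) : L) = γ * γ := by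
      rw [← hγ, Units.val_mul]
      exact map_mul _ _ _
    obtain ⟨g, -, hg⟩ := SUFM.exists_unit _ _ h8
    rw [← (f i).out_eq', ← (f j).out_eq']
    refine QuotientGroup.eq.2 ?_
    rw [Subgroup.mem_subgroupOf]
    refine ⟨((f i).out : (𝓞 L)ˣ)⁻¹ * g, ?_⟩
    simp only [powMonoidHom_apply]
    rw [mul_pow, ← hg, Subgroup.coe_mul, Subgroup.coe_inv, sq]
    group

end Pool.Agent.Lib.MP_8cb858_nt.PT
end

section
/-!
# KRH: the coordinates are injective on `Wh` modulo squares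
-/
set_option autoImplicit false

namespace Pool.Agent.Lib.MP_8cb858_nt.PU

open Polynomial NumberField IsDedekindDomain Pool.Agent.Lib.MP_8cb858_nt.SEL
open Pool.Agent.Lib.MP_8cb858_nt.PF
open scoped Classical WithZero

theorem specKRH (hBR : PF.SpecBR) (hSLH : SpecSLH) (hTVL : SpecTVL) (hHAQ : PT.SpecHAQ)
    (hRPH : SpecRPH) (hFAH : PT.SpecFAH) (hNF : PF.SpecNF) : SpecKRH := by
  intro F _ _ M Q P Ds D0 a b hC hDs hA hgood α hα hco
  obtain ⟨-, hd, -⟩ := hFAH.ne0 hC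
  have hD0 : D0 ≠ 0 := hA.ne
  have hD : (D0 : F) ≠ 0 := fun h => hD0 (RingOfIntegers.coe_eq_zero_iff.1 h)
  have h1 := hSLH F M Q P ∅ Ds D0 a b hC hDs hA (Finset.empty_subset _) α
  have h3 : α ∈ SelSet (a : F) (b : F) (D0 : F) := by
    rw [h1]
    exact ⟨hα, fun v hv => ⟨fun h => absurd h (Finset.notMem_empty v), fun _ => (hco v hv).1⟩⟩
  obtain ⟨z, hz⟩ := hBR.ex hd hD α h3
  have h4 : z = 0 := by
    refine hgood z fun v hv => ?_
    have hvM : v ∉ M := hC.qm v hv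
    have hvP : v ∉ P := hC.qp v hv
    have h6 : (6 : 𝓞 F) ∉ v.asIdeal := fun h => hvM (hC.six v h)
    have hw : vv v (lc v D0) = 1 := hA.un v hvM hvP (Finset.notMem_empty v)
    have hDv : D0 ∉ v.asIdeal := by
      intro h
      have h7 := (FAPM.mem_iff' hNF v D0).1 h
      rw [hw] at h7
      exact lt_irrefl _ h7
    have h5 := (hTVL F a b D0 v hD0 h6 hDv (hC.t12 v hv) α z hz).2
    rw [h5]
    exact (hHAQ F M Q P a b hC v hv α α hα.1 hα.1).2.2.2.1.1 (hco v hv)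
  exact ((hRPH F (a : F) (b : F) (D0 : F) hd hD).2 α z hz).1 h4

end Pool.Agent.Lib.MP_8cb858_nt.PU
end
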