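import Pool.Agent.Lib.MP_8cb858_nt.PR.SpecF
import Pool.Agent.Lib.MP_8cb858_nt.PF.SpecF
import Pool.Agent.Lib.MP_8cb858_nt.PT.SpecF
import Pool.Agent.Lib.MP_8cb858_nt.PU.SpecF

section
namespace Pool.Agent.Lib.MP_8cb858_nt.PR

open Polynomial NumberField IsDedekindDomain Pool.Agent.Lib.MP_8cb858_nt.SEL Matrix
open scoped Classical

namespace FL1M

/-- the three factors -/
lemma prod_eq {K : Type} [Field K] {a b : K} {th : Fin 3 → K} (h : IsRoots a b th) (x : K) :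
    (x - th 0) * (x - th 1) * (x - th 2) = x ^ 3 + a * x + b := by
  have e1 := h.e1
  have e2 := h.e2
  have e3 := h.e3
  linear_combination (-x ^ 2) * e1 + x * e2 - e3

lemma exists_root {K L : Type} [Field K] [Field L] (φ : K →+* L) {a b : K} {th : Fin 3 → K}
    (h : IsRoots a b th) (x : L) (hx : x ^ 3 + φ a * x + φ b = 0) : ∃ j, φ (th j) = x := by
  have h1 : (x - φ (th 0)) * (x - φ (th 1)) * (x - φ (th 2)) = 0 := by
    rw [← hx]
    have e1 := congrArg φ h.e1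
    have e2 := congrArg φ h.e2
    have e3 := congrArg φ h.e3
    simp only [map_add, map_mul, map_neg, map_zero] at e1 e2 e3
    linear_combination (-x ^ 2) * e1 + x * e2 - e3
  rcases mul_eq_zero.1 h1 with h2 | h2
  · rcases mul_eq_zero.1 h2 with h3 | h3
    · exact ⟨0, (sub_eq_zero.1 h3).symm⟩
    · exact ⟨1, (sub_eq_zero.1 h3).symm⟩
  · exact ⟨2, (sub_eq_zero.1 h2).symm⟩

lemma fp_eq {K : Type} [Field K] {a b : K} {th : Fin 3 → K} (h : IsRoots a b th) (j : Fin 3) :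
    fp th j = 3 * th j ^ 2 + a := by
  have e1 := h.e1
  have e2 := h.e2
  fin_cases j
  · show (th 0 - th 1) * (th 0 - th 2) = 3 * th 0 ^ 2 + a
    linear_combination (-2 * th 0) * e1 + e2
  · show (th 1 - th 2) * (th 1 - th 0) = 3 * th 1 ^ 2 + a
    linear_combination (-2 * th 1) * e1 + e2
  · show (th 2 - th 0) * (th 2 - th 1) = 3 * th 2 ^ 2 + a
    linear_combination (-2 * th 2) * e1 + e2

lemma sg_pm {F K : Type} [Field F] [Field K] [Algebra F K] {E : WeierstrassCurve F}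
    (th : Fin 3 → K) (S : Pt E K) (i : Fin 3) : sg th S i = 1 ∨ sg th S i = -1 := by
  unfold sg
  split
  · exact Or.inl rfl
  · split_ifs
    · exact Or.inl rfl
    · exact Or.inr rfl

lemma sg_congr {F K : Type} [Field F] [Field K] [Algebra F K] {E : WeierstrassCurve F}
    (th th' : Fin 3 → K) (S : Pt E K) (i j : Fin 3) (h : th i = th' j) :
    sg th S i = sg th' S j := by
  unfold sg
  split
  · rfl
  · rw [h]

lemma exists_emb (F : Type) [Field F] (M : Type) [Field M] [IsAlgClosed M] [Algebra F M] :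
    Nonempty (AlgebraicClosure F →ₐ[F] M) := ⟨IsAlgClosed.lift⟩

lemma gal_lift (hEMB : SpecEMB.{0, 0}) (F : Type) [Field F] (M : Type) [Field M] [Algebra F M]
    (i : AlgebraicClosure F →ₐ[F] M) (τ : M →ₐ[F] M) :
    ∃ σ : Gal F, ∀ x, i (σ x) = τ (i x) := hEMB F M i (τ.comp i)

/-- embedding of `Qbar` in `Kbar`, with the lifting property -/
lemma exists_embQ (hEMB : SpecEMB.{0, 0}) (M : Type) [Field M] [CharZero M] [IsAlgClosed M] :
    ∃ i : AlgebraicClosure ℚ →+* M, ∀ τ : M →+* M, ∃ σ : Gal ℚ, ∀ x, i (σ x) = τ (i x) := by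
  obtain ⟨i0⟩ := exists_emb ℚ M
  refine ⟨i0.toRingHom, fun τ => ?_⟩
  obtain ⟨σ, hσ⟩ := gal_lift hEMB ℚ M i0 (AlgHom.mk τ (fun q => by
    show τ (algebraMap ℚ M q) = algebraMap ℚ M q
    rw [eq_ratCast, map_ratCast]))
  exact ⟨σ, hσ⟩

end FL1M

open FL1M in
theorem specFL1 (hEMB : SpecEMB.{0, 0}) (hFXD : SpecFXD.{0}) (hDET : SpecDET.{0}) : SpecFL1 := by
  intro p _ A B D α c G H t hdsc hD0 htor hrel hatt ht
  obtain ⟨t0, s, hroots0, hs, hgal0⟩ := hrel
  obtain ⟨th, hroots, Z, ⟨hZdet, hgal⟩, hgA, hgB⟩ := hatt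
  have hroots' : IsRoots ((A : AlgebraicClosure ℚ) * (D : AlgebraicClosure ℚ) ^ 2)
      ((B : AlgebraicClosure ℚ) * (D : AlgebraicClosure ℚ) ^ 3) th := by
    have e1 : algebraMap ℚ (AlgebraicClosure ℚ) ((A : ℚ) * (D : ℚ) ^ 2) =
        (A : AlgebraicClosure ℚ) * (D : AlgebraicClosure ℚ) ^ 2 := by
      rw [eq_ratCast]; push_cast; rfl
    have e2 : algebraMap ℚ (AlgebraicClosure ℚ) ((B : ℚ) * (D : ℚ) ^ 3) =
        (B : AlgebraicClosure ℚ) * (D : AlgebraicClosure ℚ) ^ 3 := by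
      rw [eq_ratCast]; push_cast; rfl
    have e1' := (eq_ratCast (algebraMap ℚ (AlgebraicClosure ℚ)) ((A : ℚ) * (D : ℚ) ^ 2)).symm
    refine ⟨hroots.inj, hroots.e1, ?_, ?_⟩
    · rw [hroots.e2, eq_ratCast]; push_cast; rfl
    · rw [hroots.e3, eq_ratCast]; push_cast; rfl
  have hgA' : ∀ a b, gA th Z a b = ((G a b : ℚ) : AlgebraicClosure ℚ) := by
    intro a b
    rw [hgA, Matrix.map_apply, eq_ratCast]
  have hgB' : ∀ a b, gB th Z a b = ((H a b : ℚ) : AlgebraicClosure ℚ) := by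
    intro a b
    rw [hgB, Matrix.map_apply, eq_ratCast]
  -- the embedding
  obtain ⟨i, hlift⟩ := exists_embQ hEMB (AlgebraicClosure ℚ_[p])
  set φ : ℚ_[p] →+* AlgebraicClosure ℚ_[p] := algebraMap ℚ_[p] (AlgebraicClosure ℚ_[p]) with hφ
  have hφi : Function.Injective φ := φ.injective
  have hii : Function.Injective i := i.injective
  have hcast : ∀ q : ℚ, i (q : AlgebraicClosure ℚ) = φ (q : ℚ_[p]) := by
    intro q
    rw [map_ratCast, map_ratCast]
  have hDq : (D : AlgebraicClosure ℚ) ≠ 0 := by exact_mod_cast hD0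
  -- the index l
  obtain ⟨l, hl⟩ : ∃ l, i (t0 l) = φ t := by
    refine exists_root i hroots0 (φ t) ?_
    have := congrArg φ ht
    simp only [map_add, map_mul, map_pow, map_intCast, map_zero] at this
    simpa using this
  -- the index j
  obtain ⟨j, hj⟩ : ∃ j, th j = D * t0 l := by
    have h1 := prod_eq hroots0 (t0 l)
    have h0 : (t0 l - t0 0) * (t0 l - t0 1) * (t0 l - t0 2) = 0 := by
      fin_cases l <;> simp
    rw [h0] at h1
    obtain ⟨j, hj⟩ := exists_root (RingHom.id (AlgebraicClosure ℚ)) hroots' (D * t0 l) (by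
      simp only [RingHom.id_apply]
      linear_combination (-(D : AlgebraicClosure ℚ) ^ 3) * h1)
    exact ⟨j, hj⟩
  set θ : ℚ_[p] := D * t with hθ
  have hij : i (th j) = φ θ := by
    rw [hj, map_mul, hl, hθ, map_mul, map_intCast, map_intCast]
  -- matrices over Kbar
  obtain ⟨hvnd, hfp0, -, -, -, hdetx, -⟩ := hDET _ _ _ th Z hroots'
  -- (a)
  have hdet0 : (θ • G.map (Rat.castHom ℚ_[p]) - H.map (Rat.castHom ℚ_[p])).det = 0 := by
    apply hφi
    rw [map_zero, RingHom.map_det, RingHom.mapMatrix_apply]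
    have h1 : (th j • gA th Z - gB th Z).det = 0 := by
      rw [hdetx (th j), ← prod_eq hroots' (th j)]
      have : (th j - th 0) * (th j - th 1) * (th j - th 2) = 0 := by
        fin_cases j <;> simp
      rw [this, mul_zero]
    have h2 := congrArg i h1
    rw [map_zero, RingHom.map_det, RingHom.mapMatrix_apply] at h2
    rw [← h2]
    congr 1
    ext a b
    simp only [Matrix.map_apply, Matrix.sub_apply, Matrix.smul_apply, smul_eq_mul, map_sub, map_mul,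
      hgA', hgB', hij, hcast, Rat.coe_castHom]
  obtain ⟨w, hw0, hwz⟩ := Matrix.exists_mulVec_eq_zero_iff.2 hdet0
  have hwe : (H.map (Rat.castHom ℚ_[p])).mulVec w = θ • (G.map (Rat.castHom ℚ_[p])).mulVec w := by
    rw [Matrix.sub_mulVec, Matrix.smul_mulVec] at hwz
    exact (sub_eq_zero.1 hwz).symm
  -- (b)
  set W : Fin 3 → AlgebraicClosure ℚ_[p] := fun n => φ (w n) with hW
  set z : Fin 3 → AlgebraicClosure ℚ_[p] := fun m => ∑ n, i (Z m n) * W n with hz
  have hZi : ((Z.map i).det) ≠ 0 := by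
    have : (Z.map i).det = i Z.det := by
      rw [RingHom.map_det, RingHom.mapMatrix_apply]
    rw [this]
    exact (map_ne_zero_iff _ hii).2 hZdet
  have hzW : (Z.map i).mulVec W = z := by
    ext m
    simp [Matrix.mulVec, dotProduct, hz]
  have hfpi : ∀ m, i (fp th m) ≠ 0 := fun m => (map_ne_zero_iff _ hii).2 (hfp0 m)
  have hGW : ∀ k, ((G.map (Rat.castHom ℚ_[p])).map φ).mulVec W k =
      ∑ m, i (Z m k) * z m / i (fp th m) := by
    intro k
    have e0 : ∀ n, ((G.map (Rat.castHom ℚ_[p])).map φ) k n = i (gA th Z k n) := by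
      intro n
      rw [hgA', hcast]; rfl
    simp only [Matrix.mulVec, dotProduct, e0, gA, hz, map_add, map_div₀, map_mul,
      Fin.sum_univ_three]
    ring
  have hHW : ∀ k, ((H.map (Rat.castHom ℚ_[p])).map φ).mulVec W k =
      ∑ m, i (th m) * (i (Z m k) * z m) / i (fp th m) := by
    intro k
    have e0 : ∀ n, ((H.map (Rat.castHom ℚ_[p])).map φ) k n = i (gB th Z k n) := by
      intro n
      rw [hgB', hcast]; rfl
    simp only [Matrix.mulVec, dotProduct, e0, gB, hz, map_add, map_div₀, map_mul,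
      Fin.sum_univ_three]
    ring
  have hmapv : ∀ M : Matrix (Fin 3) (Fin 3) ℚ_[p], ∀ k, (M.map φ).mulVec W k = φ (M.mulVec w k) := by
    intro M k
    simp [Matrix.mulVec, dotProduct, hW, Fin.sum_univ_three]
  have hy : ∀ m, (i (th m) - φ θ) * z m / i (fp th m) = 0 := by
    have h1 : ((Z.map i)ᵀ).mulVec (fun m => (i (th m) - φ θ) * z m / i (fp th m)) = 0 := by
      ext k
      have e1 : (((Z.map i)ᵀ).mulVec (fun m => (i (th m) - φ θ) * z m / i (fp th m))) k =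
          (∑ m, i (th m) * (i (Z m k) * z m) / i (fp th m)) -
            φ θ * ∑ m, i (Z m k) * z m / i (fp th m) := by
        simp only [Matrix.mulVec, dotProduct, Matrix.transpose_apply, Matrix.map_apply,
          Fin.sum_univ_three]
        ring
      rw [e1, ← hHW, ← hGW, hmapv, hmapv, hwe]
      simp
    have h2 : ((Z.map i)ᵀ).det ≠ 0 := by rw [Matrix.det_transpose]; exact hZi
    have h3 := Matrix.eq_zero_of_mulVec_eq_zero h2 h1
    intro m
    exact congrFun h3 m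
  have hz0 : ∀ m, m ≠ j → z m = 0 := by
    intro m hm
    rcases div_eq_zero_iff.1 (hy m) with h1 | h1
    · rcases mul_eq_zero.1 h1 with h2 | h2
      · exfalso
        rw [← hij, ← map_sub] at h2
        have h3 : th m - th j = 0 := (map_eq_zero_iff _ hii).1 h2
        exact hm (hroots.inj (sub_eq_zero.1 h3))
      · exact h2
    · exact absurd h1 (hfpi m)
  have hzj : z j ≠ 0 := by
    intro h0
    have : z = 0 := by
      ext m
      by_cases hm : m = j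
      · rw [hm, h0]; rfl
      · rw [hz0 m hm]; rfl
    rw [this] at hzW
    have hW0 := Matrix.eq_zero_of_mulVec_eq_zero hZi hzW
    apply hw0
    ext n
    have := congrFun hW0 n
    simp only [hW, Pi.zero_apply] at this
    exact (map_eq_zero_iff φ hφi).1 this
  -- (c) the value of the form
  have hform : φ (w ⬝ᵥ (G.map (Rat.castHom ℚ_[p])).mulVec w) = z j ^ 2 / i (fp th j) := by
    have e1 : φ (w ⬝ᵥ (G.map (Rat.castHom ℚ_[p])).mulVec w) = ∑ k, W k *
        ∑ m, i (Z m k) * z m / i (fp th m) := by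
      rw [dotProduct, map_sum]
      refine Finset.sum_congr rfl fun k _ => ?_
      rw [map_mul, ← hmapv, hGW]
    have e2 : (∑ k, W k * ∑ m, i (Z m k) * z m / i (fp th m)) =
        ∑ m, z m * z m / i (fp th m) := by
      simp only [hz, Fin.sum_univ_three]
      ring
    rw [e1, e2, Finset.sum_eq_single j]
    · ring
    · intro m _ hm
      rw [hz0 m hm]; ring
    · intro h; exact absurd (Finset.mem_univ j) h
  -- (d) the numbers zeta
  have hsl : s l ≠ 0 := (hs l).1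
  have hζ : ∀ n, ∃ y : ℚ_[p], φ y = i (Z j n / s l) := by
    intro n
    apply hFXD
    intro τ
    obtain ⟨σ, hσ'⟩ := hlift (τ : AlgebraicClosure ℚ_[p] →+* AlgebraicClosure ℚ_[p])
    have h1 : σ (th j) = th j := by
      apply hii
      rw [hσ', hij]
      exact τ.commutes θ
    have h2 : σ (t0 l) = t0 l := by
      apply hii
      rw [hσ', hl]
      exact τ.commutes t
    have h3 : σ (Z j n) = (sg (E := cur A B D) th (c σ) j : AlgebraicClosure ℚ) * Z j n :=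
      hgal σ j j n h1
    have h4 := hgal0 σ l l h2
    have h5 : sg (fun k => (D : AlgebraicClosure ℚ) * t0 k) (c σ) l = sg th (c σ) j :=
      sg_congr _ _ _ _ _ hj.symm
    have h7 : σ (Z j n / s l) = Z j n / s l := by
      rw [map_div₀, h3, h4, h5]
      rcases sg_pm th (c σ) j with h6 | h6
      · rw [h6]; simp
      · rw [h6]; simp
    have h8 := hσ' (Z j n / s l)
    rw [h7] at h8
    exact h8.symm
  choose y hy' using hζ
  set ζ : ℚ_[p] := ∑ n, y n * w n with hζdef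
  have hzζ : z j = i (s l) * φ ζ := by
    have hsi : i (s l) ≠ 0 := (map_ne_zero_iff _ hii).2 hsl
    simp only [hz, hζdef, hW, map_add, map_mul, hy', map_div₀, Fin.sum_univ_three]
    field_simp
  have hsev : i (s l) ^ 2 = φ (ev (Rat.castHom ℚ_[p]) t α) := by
    rw [← map_pow, (hs l).2, ev, ev]
    simp only [map_add, map_mul, map_pow, hl, eq_ratCast, hcast]
  refine ⟨w, ζ, hw0, ?_, hwe, ?_⟩
  · intro h0
    apply hzj
    rw [hzζ, h0, map_zero, mul_zero]
  · apply hφi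
    rw [map_mul, hform, map_mul, map_pow φ ζ, ← hsev]
    have hfpj : i (fp th j) = φ (3 * θ ^ 2 + A * (D : ℚ_[p]) ^ 2) := by
      rw [fp_eq hroots' j]
      simp only [map_add, map_mul, map_pow, map_ofNat, map_intCast, hij]
    rw [← hfpj, mul_div_cancel₀ _ (hfpi j), hzζ]
    ring

end Pool.Agent.Lib.MP_8cb858_nt.PR
end

section
/-!
# FL1: the value of `α` at a root, in terms of an attached pair
-/
namespace Pool.Agent.Lib.MP_8cb858_nt.PF

open Polynomial NumberField IsDedekindDomain Pool.Agent.Lib.MP_8cb858_nt.SEL Matrix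
open scoped Classical

open PR.FL1M in
theorem specFL1 (hEMB : SpecEMB.{0, 0}) (hFXD : SpecFXD.{0}) (hDET : SpecDET.{0}) : SpecFL1 := by
  intro F K _ _ _ _ _ A B D α c G H t hdsc hD0 htor hrel hatt ht
  set ι : F →+* AlgebraicClosure F := algebraMap F (AlgebraicClosure F) with hι
  set κ : F →+* K := algebraMap F K with hκ
  obtain ⟨t0, s, hroots0, hs, hgal0⟩ := hrel
  obtain ⟨th, hroots, Z, ⟨hZdet, hgal⟩, hgA, hgB⟩ := hatt
  have hroots' : IsRoots (ι A * ι D ^ 2) (ι B * ι D ^ 3) th := by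
    refine ⟨hroots.inj, hroots.e1, ?_, ?_⟩
    · rw [hroots.e2, map_mul, map_pow]
    · rw [hroots.e3, map_mul, map_pow]
  have hgA' : ∀ a b, gA th Z a b = ι (G a b) := by
    intro a b
    rw [hgA, Matrix.map_apply]
  have hgB' : ∀ a b, gB th Z a b = ι (H a b) := by
    intro a b
    rw [hgB, Matrix.map_apply]
  -- the embedding
  obtain ⟨i0⟩ := exists_emb F (AlgebraicClosure K)
  have hlift : ∀ τ : AlgebraicClosure K ≃ₐ[K] AlgebraicClosure K, ∃ σ : SEL.Gal F,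
      ∀ x, i0 (σ x) = τ (i0 x) := fun τ =>
    gal_lift hEMB F (AlgebraicClosure K) i0
      ((τ : AlgebraicClosure K →ₐ[K] AlgebraicClosure K).restrictScalars F)
  set φ : K →+* AlgebraicClosure K := algebraMap K (AlgebraicClosure K) with hφ
  have hφi : Function.Injective φ := φ.injective
  have hcast0 : ∀ q : F, i0 (ι q) = φ (κ q) := by
    intro q
    rw [hι, i0.commutes, IsScalarTower.algebraMap_apply F K (AlgebraicClosure K)]
  obtain ⟨i, hi0⟩ : ∃ i : AlgebraicClosure F →+* AlgebraicClosure K, ∀ x, i x = i0 x :=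
    ⟨i0.toRingHom, fun _ => rfl⟩
  have hii : Function.Injective i := i.injective
  have hcast : ∀ q : F, i (ι q) = φ (κ q) := fun q => by rw [hi0, hcast0]
  have hDq : ι D ≠ 0 := (map_ne_zero_iff _ ι.injective).2 hD0
  -- the index l
  obtain ⟨l, hl⟩ : ∃ l, i (t0 l) = φ t := by
    refine exists_root i hroots0 (φ t) ?_
    have := congrArg φ ht
    simp only [map_add, map_mul, map_pow, map_zero] at this
    rw [← hι, hcast, hcast]
    exact this
  -- the index j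
  obtain ⟨j, hj⟩ : ∃ j, th j = ι D * t0 l := by
    have h1 := prod_eq hroots0 (t0 l)
    have h0 : (t0 l - t0 0) * (t0 l - t0 1) * (t0 l - t0 2) = 0 := by
      fin_cases l <;> simp
    rw [h0] at h1
    obtain ⟨j, hj⟩ := exists_root (RingHom.id (AlgebraicClosure F)) hroots' (ι D * t0 l) (by
      simp only [RingHom.id_apply]
      linear_combination (-(ι D) ^ 3) * h1)
    exact ⟨j, hj⟩
  set θ : K := κ D * t with hθ
  have hij : i (th j) = φ θ := by
    rw [hj, map_mul, hl, hθ, map_mul, hcast]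
  -- matrices over Kbar
  obtain ⟨hvnd, hfp0, -, -, -, hdetx, -⟩ := hDET _ _ _ th Z hroots'
  -- (a)
  have hdet0 : (θ • G.map κ - H.map κ).det = 0 := by
    apply hφi
    rw [map_zero, RingHom.map_det, RingHom.mapMatrix_apply]
    have h1 : (th j • gA th Z - gB th Z).det = 0 := by
      rw [hdetx (th j), ← prod_eq hroots' (th j)]
      have : (th j - th 0) * (th j - th 1) * (th j - th 2) = 0 := by
        fin_cases j <;> simp
      rw [this, mul_zero]
    have h2 := congrArg i h1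
    rw [map_zero, RingHom.map_det, RingHom.mapMatrix_apply] at h2
    rw [← h2]
    congr 1
    ext a b
    simp only [Matrix.map_apply, Matrix.sub_apply, Matrix.smul_apply, smul_eq_mul, map_sub, map_mul,
      hgA', hgB', hij, hcast, ]
  obtain ⟨w, hw0, hwz⟩ := Matrix.exists_mulVec_eq_zero_iff.2 hdet0
  have hwe : (H.map κ).mulVec w = θ • (G.map κ).mulVec w := by
    rw [Matrix.sub_mulVec, Matrix.smul_mulVec] at hwz
    exact (sub_eq_zero.1 hwz).symm
  -- (b)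
  set W : Fin 3 → AlgebraicClosure K := fun n => φ (w n) with hW
  set z : Fin 3 → AlgebraicClosure K := fun m => ∑ n, i (Z m n) * W n with hz
  have hZi : ((Z.map i).det) ≠ 0 := by
    have : (Z.map i).det = i Z.det := by
      rw [RingHom.map_det, RingHom.mapMatrix_apply]
    rw [this]
    exact (map_ne_zero_iff _ hii).2 hZdet
  have hzW : (Z.map i).mulVec W = z := by
    ext m
    simp [Matrix.mulVec, dotProduct, hz]
  have hfpi : ∀ m, i (fp th m) ≠ 0 := fun m => (map_ne_zero_iff _ hii).2 (hfp0 m)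
  have hGW : ∀ k, ((G.map κ).map φ).mulVec W k =
      ∑ m, i (Z m k) * z m / i (fp th m) := by
    intro k
    have e0 : ∀ n, ((G.map κ).map φ) k n = i (gA th Z k n) := by
      intro n
      rw [hgA', hcast]; rfl
    simp only [Matrix.mulVec, dotProduct, e0, gA, hz, map_add, map_div₀, map_mul,
      Fin.sum_univ_three]
    ring
  have hHW : ∀ k, ((H.map κ).map φ).mulVec W k =
      ∑ m, i (th m) * (i (Z m k) * z m) / i (fp th m) := by
    intro k
    have e0 : ∀ n, ((H.map κ).map φ) k n = i (gB th Z k n) := by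
      intro n
      rw [hgB', hcast]; rfl
    simp only [Matrix.mulVec, dotProduct, e0, gB, hz, map_add, map_div₀, map_mul,
      Fin.sum_univ_three]
    ring
  have hmapv : ∀ M : Matrix (Fin 3) (Fin 3) K, ∀ k, (M.map φ).mulVec W k = φ (M.mulVec w k) := by
    intro M k
    simp [Matrix.mulVec, dotProduct, hW, Fin.sum_univ_three]
  have hy : ∀ m, (i (th m) - φ θ) * z m / i (fp th m) = 0 := by
    have h1 : ((Z.map i)ᵀ).mulVec (fun m => (i (th m) - φ θ) * z m / i (fp th m)) = 0 := by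
      ext k
      have e1 : (((Z.map i)ᵀ).mulVec (fun m => (i (th m) - φ θ) * z m / i (fp th m))) k =
          (∑ m, i (th m) * (i (Z m k) * z m) / i (fp th m)) -
            φ θ * ∑ m, i (Z m k) * z m / i (fp th m) := by
        simp only [Matrix.mulVec, dotProduct, Matrix.transpose_apply, Matrix.map_apply,
          Fin.sum_univ_three]
        ring
      rw [e1, ← hHW, ← hGW, hmapv, hmapv, hwe]
      simp
    have h2 : ((Z.map i)ᵀ).det ≠ 0 := by rw [Matrix.det_transpose]; exact hZi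
    have h3 := Matrix.eq_zero_of_mulVec_eq_zero h2 h1
    intro m
    exact congrFun h3 m
  have hz0 : ∀ m, m ≠ j → z m = 0 := by
    intro m hm
    rcases div_eq_zero_iff.1 (hy m) with h1 | h1
    · rcases mul_eq_zero.1 h1 with h2 | h2
      · exfalso
        rw [← hij, ← map_sub] at h2
        have h3 : th m - th j = 0 := (map_eq_zero_iff _ hii).1 h2
        exact hm (hroots.inj (sub_eq_zero.1 h3))
      · exact h2
    · exact absurd h1 (hfpi m)
  have hzj : z j ≠ 0 := by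
    intro h0
    have : z = 0 := by
      ext m
      by_cases hm : m = j
      · rw [hm, h0]; rfl
      · rw [hz0 m hm]; rfl
    rw [this] at hzW
    have hW0 := Matrix.eq_zero_of_mulVec_eq_zero hZi hzW
    apply hw0
    ext n
    have := congrFun hW0 n
    simp only [hW, Pi.zero_apply] at this
    exact (map_eq_zero_iff φ hφi).1 this
  -- (c) the value of the form
  have hform : φ (w ⬝ᵥ (G.map κ).mulVec w) = z j ^ 2 / i (fp th j) := by
    have e1 : φ (w ⬝ᵥ (G.map κ).mulVec w) = ∑ k, W k *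
        ∑ m, i (Z m k) * z m / i (fp th m) := by
      rw [dotProduct, map_sum]
      refine Finset.sum_congr rfl fun k _ => ?_
      rw [map_mul, ← hmapv, hGW]
    have e2 : (∑ k, W k * ∑ m, i (Z m k) * z m / i (fp th m)) =
        ∑ m, z m * z m / i (fp th m) := by
      simp only [hz, Fin.sum_univ_three]
      ring
    rw [e1, e2, Finset.sum_eq_single j]
    · ring
    · intro m _ hm
      rw [hz0 m hm]; ring
    · intro h; exact absurd (Finset.mem_univ j) h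
  -- (d) the numbers zeta
  have hsl : s l ≠ 0 := (hs l).1
  have hζ : ∀ n, ∃ y : K, φ y = i (Z j n / s l) := by
    intro n
    apply hFXD
    intro τ
    obtain ⟨σ, hσ0⟩ := hlift τ
    have hσ' : ∀ x, i (σ x) = τ (i x) := fun x => by rw [hi0, hi0, hσ0]
    have h1 : σ (th j) = th j := by
      apply hii
      rw [hσ', hij]
      exact τ.commutes θ
    have h2 : σ (t0 l) = t0 l := by
      apply hii
      rw [hσ', hl]
      exact τ.commutes t
    have h3 : σ (Z j n) = (sg (E := cur A B D) th (c σ) j : AlgebraicClosure F) * Z j n :=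
      hgal σ j j n h1
    have h4 := hgal0 σ l l h2
    have h5 : sg (fun k => ι D * t0 k) (c σ) l = sg th (c σ) j :=
      sg_congr _ _ _ _ _ hj.symm
    have h7 : σ (Z j n / s l) = Z j n / s l := by
      rw [map_div₀, h3, h4, h5]
      rcases sg_pm th (c σ) j with h6 | h6
      · rw [h6]; simp
      · rw [h6]; simp
    have h8 := hσ' (Z j n / s l)
    rw [h7] at h8
    exact h8.symm
  choose y hy' using hζ
  set ζ : K := ∑ n, y n * w n with hζdef
  have hzζ : z j = i (s l) * φ ζ := by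
    have hsi : i (s l) ≠ 0 := (map_ne_zero_iff _ hii).2 hsl
    simp only [hz, hζdef, hW, map_add, map_mul, hy', map_div₀, Fin.sum_univ_three]
    field_simp
  have hsev : i (s l) ^ 2 = φ (ev κ t α) := by
    rw [← map_pow, (hs l).2, ev, ev]
    simp only [← hι, map_add, map_mul, map_pow, hl, hcast]
  refine ⟨w, ζ, hw0, ?_, hwe, ?_⟩
  · intro h0
    apply hzj
    rw [hzζ, h0, map_zero, mul_zero]
  · apply hφi
    rw [map_mul, hform, map_mul, map_pow φ ζ, ← hsev]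
    have hfpj : i (fp th j) = φ (3 * θ ^ 2 + κ A * κ D ^ 2) := by
      rw [fp_eq hroots' j]
      simp only [map_add, map_mul, map_pow, map_ofNat, hcast, hij]
    rw [← hfpj, mul_div_cancel₀ _ (hfpi j), hzζ]
    ring

end Pool.Agent.Lib.MP_8cb858_nt.PF
end

section
/-!
# FPT: the pattern of an attached pair (helper73)
-/
set_option autoImplicit false

namespace Pool.Agent.Lib.MP_8cb858_nt.PF

open Polynomial NumberField IsDedekindDomain Pool.Agent.Lib.MP_8cb858_nt.SEL Matrix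
open scoped Classical WithZero

namespace FPTM

variable {F : Type} [Field F] [NumberField F]

/-- `Gc` modulo an ideal -/
theorem Gc_md {R : Type} [CommRing R] (I : Ideal R) {a b : R} {A B : Matrix (Fin 3) (Fin 3) R}
    (h : Gc a b A B) :
    Gc (Ideal.Quotient.mk I a) (Ideal.Quotient.mk I b) (md I A) (md I B) := by
  obtain ⟨h1, h2, h3, h4⟩ := h
  refine ⟨md_symm I B h1, ?_, ?_, ?_⟩
  · rw [md_adj, md_mul, md_trace, h2, map_zero]
  · rw [md_adj, md_mul, md_trace, h3, map_mul, md_det]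
  · rw [md_det, md_det, ← map_neg, h4, map_mul]

/-- no root of the twisted polynomial modulo `v` -/
theorem no_root (v : HeightOneSpectrum (𝓞 F)) (a b : 𝓞 F) (D : 𝓞 F) (hD : D ∉ v.asIdeal)
    (h : ∀ x : 𝓞 F, x ^ 3 + a * x + b ∉ v.asIdeal) (x : 𝓞 F ⧸ v.asIdeal) :
    x ^ 3 + Ideal.Quotient.mk v.asIdeal (a * D ^ 2) * x +
      Ideal.Quotient.mk v.asIdeal (b * D ^ 3) ≠ 0 := by
  intro hx
  have hmax := v.isMaximal
  let _ := Ideal.Quotient.field v.asIdeal
  have hD0 : Ideal.Quotient.mk v.asIdeal D ≠ 0 := by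
    intro h0
    exact hD (Ideal.Quotient.eq_zero_iff_mem.1 h0)
  obtain ⟨y, hy⟩ := Ideal.Quotient.mk_surjective (x / Ideal.Quotient.mk v.asIdeal D)
  apply h y
  rw [← Ideal.Quotient.eq_zero_iff_mem, map_add, map_add, map_mul, map_pow, hy]
  have e : (Ideal.Quotient.mk v.asIdeal D) ^ 3 *
      ((x / Ideal.Quotient.mk v.asIdeal D) ^ 3 +
        Ideal.Quotient.mk v.asIdeal a * (x / Ideal.Quotient.mk v.asIdeal D) +
        Ideal.Quotient.mk v.asIdeal b) = 0 := by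
    rw [map_mul, map_mul, map_pow, map_pow] at hx
    rw [← hx]
    field_simp
  exact (mul_eq_zero.1 e).resolve_left (pow_ne_zero 3 hD0)

end FPTM

open FPTM in
/-- **FPT** -/
theorem specFPT (hFATT : SpecFATT) (hFL2 : SpecFL2) : SpecFPT := by
  intro F _ _ Q Q' P D Z ρ hD hQP h6 hQ' z hz X hX hdet
  obtain ⟨hbx, hP, hQ, -, hpat⟩ := hz
  obtain ⟨c, hc, hatt⟩ := hX
  refine ⟨Q'.filter (fun v => ¬ TrN D v z.2), hpat, ?_⟩
  have key : ∀ v ∈ Q, Gd (Ideal.Quotient.mk v.asIdeal (z.1.1 * D ^ 2))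
      (Ideal.Quotient.mk v.asIdeal (z.1.2 * D ^ 3)) (md v.asIdeal X.1) (md v.asIdeal X.2) ∧
      (TrN D v z.2 ↔ Sm (Ideal.Quotient.mk v.asIdeal (z.1.1 * D ^ 2)) (md v.asIdeal X.1)
        (md v.asIdeal X.2)) := by
    intro v hv
    have h1 := hFL2 F v z.1.1 z.1.2 D c X (h6 v (Finset.mem_union_left _ hv)).1
      (h6 v (Finset.mem_union_left _ hv)).2 (hQ v hv) (hdet v (Finset.mem_union_left _ hv)) hatt
    rw [hc] at h1
    exact h1
  intro v hv
  rw [AL]
  by_cases h1 : v ∈ Q'.filter (fun v => ¬ TrN D v z.2)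
  · rw [if_pos h1]
    obtain ⟨h2, h3⟩ := Finset.mem_filter.1 h1
    obtain ⟨k1, k2⟩ := key v (hQ' h2)
    exact ⟨_, _, k1, fun h => h3 (k2.2 h)⟩
  · rw [if_neg h1]
    by_cases h2 : v ∈ Q'
    · rw [if_pos h2]
      obtain ⟨k1, k2⟩ := key v (hQ' h2)
      have h3 : TrN D v z.2 := by
        by_contra h
        exact h1 (Finset.mem_filter.2 ⟨h2, h⟩)
      exact ⟨_, _, k1, k2.1 h3⟩
    · rw [if_neg h2]
      by_cases h3 : v ∈ Q
      · rw [if_pos h3]
        obtain ⟨k1, k2⟩ := key v h3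
        by_cases h4 : Sm (Ideal.Quotient.mk v.asIdeal (z.1.1 * D ^ 2)) (md v.asIdeal X.1)
            (md v.asIdeal X.2)
        · exact Or.inl ⟨_, _, k1, h4⟩
        · exact Or.inr ⟨_, _, k1, h4⟩
      · rw [if_neg h3]
        have h4 : v ∈ P := (Finset.mem_union.1 hv).resolve_left h3
        have h5 := hFATT F (z.1.1 * D ^ 2) (z.1.2 * D ^ 3) ((z.1.1 : F) * (D : F) ^ 2)
          ((z.1.2 : F) * (D : F) ^ 3) c.1 X (by push_cast; ring) (by push_cast; ring) hatt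
        exact ⟨_, _, Gc_md v.asIdeal h5.2.2, fun x =>
          no_root v z.1.1 z.1.2 (D : 𝓞 F) (h6 v hv).2 (hP v h4) x⟩

end Pool.Agent.Lib.MP_8cb858_nt.PF
end

section
/-!
# FZ1: a pair is attached to at most one Selmer class
-/
namespace Pool.Agent.Lib.MP_8cb858_nt.PF

open Polynomial NumberField IsDedekindDomain Pool.Agent.Lib.MP_8cb858_nt.SEL Matrix
open scoped Classical

theorem specFZ1 (hINJ : SEL.SpecINJ.{0}) : SpecFZ1 := by
  intro F _ _ D z z' P hD hz hz'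
  obtain ⟨⟨A, B⟩, x⟩ := z
  obtain ⟨⟨A', B'⟩, x'⟩ := z'
  obtain ⟨c, hc, hA⟩ := hz
  obtain ⟨c', hc', hA'⟩ := hz'
  simp only at c c' hc hc' hA hA'
  obtain ⟨h1, h2⟩ := (hINJ F).1 _ _ _ _ _ _ _ _ hA hA'
  have hDQ : (D : F) ≠ 0 := Nat.cast_ne_zero.2 hD.ne'
  have hAA : A = A' := by
    have := mul_right_cancel₀ (pow_ne_zero 2 hDQ) h1
    exact RingOfIntegers.ext this
  have hBB : B = B' := by
    have := mul_right_cancel₀ (pow_ne_zero 3 hDQ) h2
    exact RingOfIntegers.ext this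
  subst hAA hBB
  have h3 := (hINJ F).2 _ _ c.1 c'.1 _ _ c.2.2.1 c'.2.2.1 hA hA'
  have h4 : x = x' := by
    rw [← hc, ← hc']
    rw [eq_comm, QuotientAddGroup.eq, AddSubgroup.mem_addSubgroupOf]
    show -c'.1 + c.1 ∈ Coboundaries 2 (cN A B D)
    rw [neg_add_eq_sub]
    exact h3
  subst h4
  rfl

end Pool.Agent.Lib.MP_8cb858_nt.PF
end

section
/-!
# FZ2: reduced pairs of Selmer classes and their patterns
-/
namespace Pool.Agent.Lib.MP_8cb858_nt.PF

open Polynomial NumberField IsDedekindDomain Pool.Agent.Lib.MP_8cb858_nt.SEL Matrix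
open scoped Classical

namespace FZ2M

variable {F : Type} [Field F] [NumberField F]

/-- The conclusion of `SEL.SpecCLS`, for the given constant. -/
theorem cls {C : ℝ} (h : ∀ (ρ : InfinitePlace F → ℝ) (a b : 𝓞 F)
      (c : Gal F → Pt (curve (a : F) (b : F)) (AlgebraicClosure F)),
    (∀ v, 1 ≤ ρ v) → (a, b) ∈ Bx F ρ → c ∈ Cocycles 2 (curve (a : F) (b : F)) →
    c ∉ Coboundaries 2 (curve (a : F) (b : F)) →
    (∃ P ∈ R1 F C ρ, Att (a : F) (b : F) c (inc P.1) (inc P.2)) ∨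
    (∃ (k : ℕ) (Φ : 𝓞 F → Matrix (Fin 3) (Fin 3) (𝓞 F) × Matrix (Fin 3) (Fin 3) (𝓞 F)),
      Set.InjOn Φ {q | ∀ v : InfinitePlace F, v (q : F) ≤ 2 ^ k} ∧
      ∀ q : 𝓞 F, (∀ v : InfinitePlace F, v (q : F) ≤ 2 ^ k) → Φ q ∈ R2 F C ρ k ∧
        Att (a : F) (b : F) c (inc (Φ q).1) (inc (Φ q).2)))
    (ρ : InfinitePlace F → ℝ) (a b : 𝓞 F) (a1 b1 : F) (ha : a1 = (a : F)) (hb : b1 = (b : F))
    (c : Gal F → Pt (curve a1 b1) (AlgebraicClosure F)) (hρ : ∀ v, 1 ≤ ρ v)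
    (hB : (a, b) ∈ Bx F ρ) (hc : c ∈ Cocycles 2 (curve a1 b1))
    (hc' : c ∉ Coboundaries 2 (curve a1 b1)) :
    (∃ P ∈ R1 F C ρ, Att a1 b1 c (inc P.1) (inc P.2)) ∨
    (∃ (k : ℕ) (Φ : 𝓞 F → Matrix (Fin 3) (Fin 3) (𝓞 F) × Matrix (Fin 3) (Fin 3) (𝓞 F)),
      Set.InjOn Φ {q | ∀ v : InfinitePlace F, v (q : F) ≤ 2 ^ k} ∧
      ∀ q : 𝓞 F, (∀ v : InfinitePlace F, v (q : F) ≤ 2 ^ k) → Φ q ∈ R2 F C ρ k ∧
        Att a1 b1 c (inc (Φ q).1) (inc (Φ q).2)) := by
  subst ha hb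
  exact h ρ a b c hρ hB hc hc'

theorem vD (v : InfinitePlace F) (D : ℕ) : v (D : F) = D := by
  rw [← InfinitePlace.norm_embedding_eq, map_natCast, Complex.norm_natCast]

end FZ2M

open FZ2M in
theorem specFZ2 (hCLS : SEL.SpecCLS.{0}) (hFPT : SpecFPT) (hFAD : SpecFAD) : SpecFZ2 := by
  intro F _ _
  obtain ⟨C, hC, h⟩ := hCLS F
  obtain ⟨-, P0, hP0⟩ := hFAD F C
  refine ⟨C, P0, hC, ?_⟩
  intro Q Q' P D Z ρ hD hQP hQ hQQ hρ z hz
  have hpt := hFPT F Q Q' P D Z ρ hD hQP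
    (fun v hv => ⟨(hP0 v (hQ v hv).1).1, (hQ v hv).2⟩) hQQ z hz
  obtain ⟨⟨a, b⟩, x⟩ := z
  obtain ⟨hBx, -, -, hx0, -⟩ := hz
  simp only at hBx hx0
  obtain ⟨c, rfl⟩ := QuotientAddGroup.mk_surjective x
  have hD1 : (1 : ℝ) ≤ D := by exact_mod_cast hD
  have hρ' : ∀ v, 1 ≤ (D : ℝ) * ρ v := fun v => one_le_mul_of_one_le_of_one_le hD1 (hρ v)
  have hDF : (D : 𝓞 F) ≠ 0 := Nat.cast_ne_zero.2 hD.ne'
  have hB' : (a * (D : 𝓞 F) ^ 2, b * (D : 𝓞 F) ^ 3) ∈ Bx F (fun v => (D : ℝ) * ρ v) := by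
    refine ⟨?_, fun v => ⟨?_, ?_⟩⟩
    · have e : 4 * (a * (D : 𝓞 F) ^ 2) ^ 3 + 27 * (b * (D : 𝓞 F) ^ 3) ^ 2 =
          (D : 𝓞 F) ^ 6 * (4 * a ^ 3 + 27 * b ^ 2) := by ring
      show 4 * (a * (D : 𝓞 F) ^ 2) ^ 3 + 27 * (b * (D : 𝓞 F) ^ 3) ^ 2 ≠ 0
      rw [e]
      exact mul_ne_zero (pow_ne_zero 6 hDF) hBx.1
    · have h1 := (hBx.2 v).1
      show v ((a * (D : 𝓞 F) ^ 2 : 𝓞 F) : F) ≤ _
      push_cast
      rw [map_mul, map_pow, vD, mul_pow, mul_comm]
      exact mul_le_mul_of_nonneg_left h1 (by positivity)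
    · have h1 := (hBx.2 v).2
      show v ((b * (D : 𝓞 F) ^ 3 : 𝓞 F) : F) ≤ _
      push_cast
      rw [map_mul, map_pow, vD, mul_pow, mul_comm]
      exact mul_le_mul_of_nonneg_left h1 (by positivity)
  have hcb : c.1 ∉ Coboundaries 2 (cN a b D) := by
    intro hc
    apply hx0
    rw [QuotientAddGroup.eq_zero_iff, AddSubgroup.mem_addSubgroupOf]
    exact hc
  have hdet : ∀ X : MO F × MO F, X.1.det ≠ 0 →
      (∀ (u : InfinitePlace F) (i j : Fin 3), u (X.1 i j : F) ≤ C) →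
      ∀ v ∈ Q ∪ P, X.1.det ∉ v.asIdeal := fun X h1 h2 v hv =>
    (hP0 v (hQ v hv).1).2 X.1 h2 h1
  rcases cls h (fun v => (D : ℝ) * ρ v) (a * (D : 𝓞 F) ^ 2) (b * (D : 𝓞 F) ^ 3)
    ((a : F) * (D : F) ^ 2) ((b : F) * (D : F) ^ 3) (by push_cast; rfl) (by push_cast; rfl) c.1
    hρ' hB' c.2 hcb with ⟨X, hX, hA⟩ | ⟨k, Φ, hinj, hΦ⟩
  · left
    have hAt : AtZ D ⟨(a, b), QuotientAddGroup.mk c⟩ X := ⟨c, rfl, hA⟩
    exact ⟨X, hX, hAt, hpt X hAt (hdet X hX.2.2.1 fun u i j => (hX.2.2.2.2 u i j).1)⟩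
  · right
    refine ⟨k, Φ, hinj, ?_⟩
    intro q hq
    obtain ⟨hX, hA⟩ := hΦ q hq
    have hAt : AtZ D ⟨(a, b), QuotientAddGroup.mk c⟩ (Φ q) := ⟨c, rfl, hA⟩
    exact ⟨hX, hAt, hpt _ hAt (hdet _ hX.2.2.1 fun u i j => (hX.2.2.2.2.2.2.2.2.2 u i j).1)⟩

end Pool.Agent.Lib.MP_8cb858_nt.PF
end

section
/-!
# MZ2: reduced pairs of Selmer classes, their patterns, and the conditions at places dividing the twist
-/
namespace Pool.Agent.Lib.MP_8cb858_nt.PT

open Polynomial NumberField IsDedekindDomain Pool.Agent.Lib.MP_8cb858_nt.SEL Matrix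
open Pool.Agent.Lib.MP_8cb858_nt.PF
open scoped Classical WithZero

open FZ2M in
theorem specMZ2 (hCLS : SEL.SpecCLS.{0}) (hFPT : PF.SpecFPT) (hFAD : PF.SpecFAD)
    (hFATT : PF.SpecFATT) (hMPT : SpecMPT) : SpecMZ2 := by
  intro F _ _
  obtain ⟨C, hC, h⟩ := hCLS F
  obtain ⟨-, P0, hP0⟩ := hFAD F C
  refine ⟨C, P0, hC, ?_⟩
  intro Q P W D Z ρ hD hQP hQ hW hρ z hz
  have hpt := hFPT F Q Q P D Z ρ hD hQP
    (fun v hv => ⟨(hP0 v (hQ v hv).1).1, (hQ v hv).2⟩) (Finset.Subset.refl Q) z hz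
  have hw : ∀ X : MO F × MO F, AtZ D z X → ∀ v ∈ W, md (v.asIdeal ^ 3) X.2 ∈ NW X.1 v := by
    rintro X ⟨c, -, hA⟩ v hv
    obtain ⟨-, -, hG⟩ := hFATT F (z.1.1 * (D : 𝓞 F) ^ 2) (z.1.2 * (D : 𝓞 F) ^ 3)
      ((z.1.1 : F) * (D : F) ^ 2) ((z.1.2 : F) * (D : F) ^ 3) c.1 X (by push_cast; rfl)
      (by push_cast; rfl) hA
    exact hMPT F v z.1.1 z.1.2 D X.1 X.2 (hW v hv).2 hG
  obtain ⟨⟨a, b⟩, x⟩ := z
  obtain ⟨hBx, -, -, hx0, -⟩ := hz
  simp only at hBx hx0
  obtain ⟨c, rfl⟩ := QuotientAddGroup.mk_surjective x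
  have hD1 : (1 : ℝ) ≤ D := by exact_mod_cast hD
  have hρ' : ∀ v, 1 ≤ (D : ℝ) * ρ v := fun v => one_le_mul_of_one_le_of_one_le hD1 (hρ v)
  have hDF : (D : 𝓞 F) ≠ 0 := Nat.cast_ne_zero.2 hD.ne'
  have hB' : (a * (D : 𝓞 F) ^ 2, b * (D : 𝓞 F) ^ 3) ∈ Bx F (fun v => (D : ℝ) * ρ v) := by
    refine ⟨?_, fun v => ⟨?_, ?_⟩⟩
    · have e : 4 * (a * (D : 𝓞 F) ^ 2) ^ 3 + 27 * (b * (D : 𝓞 F) ^ 3) ^ 2 =
          (D : 𝓞 F) ^ 6 * (4 * a ^ 3 + 27 * b ^ 2) := by ring
      show 4 * (a * (D : 𝓞 F) ^ 2) ^ 3 + 27 * (b * (D : 𝓞 F) ^ 3) ^ 2 ≠ 0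
      rw [e]
      exact mul_ne_zero (pow_ne_zero 6 hDF) hBx.1
    · have h1 := (hBx.2 v).1
      show v ((a * (D : 𝓞 F) ^ 2 : 𝓞 F) : F) ≤ _
      push_cast
      rw [map_mul, map_pow, vD, mul_pow, mul_comm]
      exact mul_le_mul_of_nonneg_left h1 (by positivity)
    · have h1 := (hBx.2 v).2
      show v ((b * (D : 𝓞 F) ^ 3 : 𝓞 F) : F) ≤ _
      push_cast
      rw [map_mul, map_pow, vD, mul_pow, mul_comm]
      exact mul_le_mul_of_nonneg_left h1 (by positivity)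
  have hcb : c.1 ∉ Coboundaries 2 (cN a b D) := by
    intro hc
    apply hx0
    rw [QuotientAddGroup.eq_zero_iff, AddSubgroup.mem_addSubgroupOf]
    exact hc
  have hdet : ∀ X : MO F × MO F, X.1.det ≠ 0 →
      (∀ (u : InfinitePlace F) (i j : Fin 3), u (X.1 i j : F) ≤ C) →
      ∀ v ∈ Q ∪ P, X.1.det ∉ v.asIdeal := fun X h1 h2 v hv =>
    (hP0 v (hQ v hv).1).2 X.1 h2 h1
  rcases cls h (fun v => (D : ℝ) * ρ v) (a * (D : 𝓞 F) ^ 2) (b * (D : 𝓞 F) ^ 3)
    ((a : F) * (D : F) ^ 2) ((b : F) * (D : F) ^ 3) (by push_cast; rfl) (by push_cast; rfl) c.1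
    hρ' hB' c.2 hcb with ⟨X, hX, hA⟩ | ⟨k, Φ, hinj, hΦ⟩
  · left
    have hAt : AtZ D ⟨(a, b), QuotientAddGroup.mk c⟩ X := ⟨c, rfl, hA⟩
    exact ⟨X, hX, hAt, hpt X hAt (hdet X hX.2.2.1 fun u i j => (hX.2.2.2.2 u i j).1), hw X hAt⟩
  · right
    refine ⟨k, Φ, hinj, ?_⟩
    intro q hq
    obtain ⟨hX, hA⟩ := hΦ q hq
    have hAt : AtZ D ⟨(a, b), QuotientAddGroup.mk c⟩ (Φ q) := ⟨c, rfl, hA⟩
    exact ⟨hX, hAt, hpt _ hAt (hdet _ hX.2.2.1 fun u i j => (hX.2.2.2.2.2.2.2.2.2 u i j).1),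
      hw _ hAt⟩

end Pool.Agent.Lib.MP_8cb858_nt.PT
end

section
/-!
# FPT: the pattern of an attached pair (helper73)
-/
set_option autoImplicit false

namespace Pool.Agent.Lib.MP_8cb858_nt.PU

open Polynomial NumberField IsDedekindDomain Pool.Agent.Lib.MP_8cb858_nt.SEL Matrix
open Pool.Agent.Lib.MP_8cb858_nt.PF
open scoped Classical WithZero

namespace FPTM

variable {F : Type} [Field F] [NumberField F]

/-- `Gc` modulo an ideal -/
theorem Gc_md {R : Type} [CommRing R] (I : Ideal R) {a b : R} {A B : Matrix (Fin 3) (Fin 3) R}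
    (h : Gc a b A B) :
    Gc (Ideal.Quotient.mk I a) (Ideal.Quotient.mk I b) (md I A) (md I B) := by
  obtain ⟨h1, h2, h3, h4⟩ := h
  refine ⟨md_symm I B h1, ?_, ?_, ?_⟩
  · rw [md_adj, md_mul, md_trace, h2, map_zero]
  · rw [md_adj, md_mul, md_trace, h3, map_mul, md_det]
  · rw [md_det, md_det, ← map_neg, h4, map_mul]

/-- no root of the twisted polynomial modulo `v` -/
theorem no_root (v : HeightOneSpectrum (𝓞 F)) (a b : 𝓞 F) (D : 𝓞 F) (hD : D ∉ v.asIdeal)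
    (h : ∀ x : 𝓞 F, x ^ 3 + a * x + b ∉ v.asIdeal) (x : 𝓞 F ⧸ v.asIdeal) :
    x ^ 3 + Ideal.Quotient.mk v.asIdeal (a * D ^ 2) * x +
      Ideal.Quotient.mk v.asIdeal (b * D ^ 3) ≠ 0 := by
  intro hx
  have hmax := v.isMaximal
  let _ := Ideal.Quotient.field v.asIdeal
  have hD0 : Ideal.Quotient.mk v.asIdeal D ≠ 0 := by
    intro h0
    exact hD (Ideal.Quotient.eq_zero_iff_mem.1 h0)
  obtain ⟨y, hy⟩ := Ideal.Quotient.mk_surjective (x / Ideal.Quotient.mk v.asIdeal D)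
  apply h y
  rw [← Ideal.Quotient.eq_zero_iff_mem, map_add, map_add, map_mul, map_pow, hy]
  have e : (Ideal.Quotient.mk v.asIdeal D) ^ 3 *
      ((x / Ideal.Quotient.mk v.asIdeal D) ^ 3 +
        Ideal.Quotient.mk v.asIdeal a * (x / Ideal.Quotient.mk v.asIdeal D) +
        Ideal.Quotient.mk v.asIdeal b) = 0 := by
    rw [map_mul, map_mul, map_pow, map_pow] at hx
    rw [← hx]
    field_simp
  exact (mul_eq_zero.1 e).resolve_left (pow_ne_zero 3 hD0)

end FPTM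

open FPTM in
/-- **FPT** -/
theorem specFPT (hFL2 : SpecFL2) : SpecFPT := by
  intro F _ _ Q D Z ρ hD h6 z hz X hX hdet
  obtain ⟨hbx, hQ, -, hpat⟩ := hz
  obtain ⟨c, hc, hatt⟩ := hX
  refine ⟨Q.filter (fun v => ¬ TrO D v z.2), hpat, ?_⟩
  have key : ∀ v ∈ Q, Gd (Ideal.Quotient.mk v.asIdeal (z.1.1 * D ^ 2))
      (Ideal.Quotient.mk v.asIdeal (z.1.2 * D ^ 3)) (md v.asIdeal X.1) (md v.asIdeal X.2) ∧
      (TrO D v z.2 ↔ Sm (Ideal.Quotient.mk v.asIdeal (z.1.1 * D ^ 2)) (md v.asIdeal X.1)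
        (md v.asIdeal X.2)) := by
    intro v hv
    have h1 := hFL2 F v z.1.1 z.1.2 D c X (h6 v hv).1 (h6 v hv).2 (hQ v hv) (hdet v hv) hatt
    rw [hc] at h1
    exact h1
  intro v hv
  rw [Finset.union_empty] at hv
  rw [AL]
  by_cases h1 : v ∈ Q.filter (fun v => ¬ TrO D v z.2)
  · rw [if_pos h1]
    obtain ⟨h2, h3⟩ := Finset.mem_filter.1 h1
    obtain ⟨k1, k2⟩ := key v h2
    exact ⟨_, _, k1, fun h => h3 (k2.2 h)⟩
  · rw [if_neg h1, if_pos hv]
    obtain ⟨k1, k2⟩ := key v hv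
    have h3 : TrO D v z.2 := by
      by_contra h
      exact h1 (Finset.mem_filter.2 ⟨hv, h⟩)
    exact ⟨_, _, k1, k2.1 h3⟩

end Pool.Agent.Lib.MP_8cb858_nt.PU
end

section
/-!
# MZ2: reduced pairs of Selmer classes, their patterns, and the conditions at places dividing the twist
-/
namespace Pool.Agent.Lib.MP_8cb858_nt.PU

open Polynomial NumberField IsDedekindDomain Pool.Agent.Lib.MP_8cb858_nt.SEL Matrix
open Pool.Agent.Lib.MP_8cb858_nt.PF
open scoped Classical WithZero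

namespace MZ2M

/-- The condition at a place dividing `D`. -/
theorem mpt {F : Type} [Field F] [NumberField F] (v : Pl F) (a b D : 𝓞 F) (A B : MO F)
    (hD : D ∈ v.asIdeal) (hG : Gc (a * D ^ 2) (b * D ^ 3) A B) :
    md (v.asIdeal ^ 3) B ∈ PT.NW A v := by
  obtain ⟨h1, h2, h3, h4⟩ := hG
  refine ⟨md_symm _ _ h1, ?_, ?_, ?_⟩
  · rw [md_adj, md_mul, md_trace, h2, map_zero]
  · rw [md_adj, md_mul, md_trace, h3]
    apply Ideal.mem_map_of_mem
    have h5 : D ^ 2 ∈ v.asIdeal ^ 2 := Ideal.pow_mem_pow hD 2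
    have h6 : a * D ^ 2 * A.det = (a * A.det) * D ^ 2 := by ring
    rw [h6]
    exact Ideal.mul_mem_left _ _ h5
  · rw [md_det, Ideal.Quotient.eq_zero_iff_mem]
    have h5 : D ^ 3 ∈ v.asIdeal ^ 3 := Ideal.pow_mem_pow hD 3
    have h6 : B.det = (-(b * A.det)) * D ^ 3 := by
      linear_combination -h4
    rw [h6]
    exact Ideal.mul_mem_left _ _ h5

end MZ2M

open FZ2M in
theorem specMZ2 (hCLS : SEL.SpecCLS.{0}) (hFPT : SpecFPT) (hFAD : PF.SpecFAD)
    (hFATT : PF.SpecFATT) : SpecMZ2 := by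
  intro F _ _
  obtain ⟨C, hC, h⟩ := hCLS F
  obtain ⟨-, P0, hP0⟩ := hFAD F C
  refine ⟨C, P0, hC, ?_⟩
  intro Q W D Z ρ hD hQ hW hρ z hz
  have hpt := hFPT F Q D Z ρ hD
    (fun v hv => ⟨(hP0 v (hQ v hv).1).1, (hQ v hv).2⟩) z hz
  have hw : ∀ X : MO F × MO F, AtZ D z X → ∀ v ∈ W, md (v.asIdeal ^ 3) X.2 ∈ PT.NW X.1 v := by
    rintro X ⟨c, -, hA⟩ v hv
    obtain ⟨-, -, hG⟩ := hFATT F (z.1.1 * D ^ 2) (z.1.2 * D ^ 3)
      ((z.1.1 : F) * (D : F) ^ 2) ((z.1.2 : F) * (D : F) ^ 3) c.1 X (by push_cast; rfl)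
      (by push_cast; rfl) hA
    exact MZ2M.mpt v z.1.1 z.1.2 D X.1 X.2 (hW v hv).2 hG
  obtain ⟨⟨a, b⟩, x⟩ := z
  obtain ⟨hBx, -, hx0, -⟩ := hz
  simp only at hBx hx0
  obtain ⟨c, rfl⟩ := QuotientAddGroup.mk_surjective x
  have hB' : (a * D ^ 2, b * D ^ 3) ∈ Bx F (fun v => v (D : F) * ρ v) := by
    refine ⟨?_, fun v => ⟨?_, ?_⟩⟩
    · have e : 4 * (a * D ^ 2) ^ 3 + 27 * (b * D ^ 3) ^ 2 =
          D ^ 6 * (4 * a ^ 3 + 27 * b ^ 2) := by ring
      show 4 * (a * D ^ 2) ^ 3 + 27 * (b * D ^ 3) ^ 2 ≠ 0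
      rw [e]
      exact mul_ne_zero (pow_ne_zero 6 hD) hBx.1
    · have h1 := (hBx.2 v).1
      show v ((a * D ^ 2 : 𝓞 F) : F) ≤ _
      push_cast
      rw [map_mul, map_pow, mul_pow, mul_comm]
      exact mul_le_mul_of_nonneg_left h1 (by positivity)
    · have h1 := (hBx.2 v).2
      show v ((b * D ^ 3 : 𝓞 F) : F) ≤ _
      push_cast
      rw [map_mul, map_pow, mul_pow, mul_comm]
      exact mul_le_mul_of_nonneg_left h1 (by positivity)
  have hcb : c.1 ∉ Coboundaries 2 (cO a b D) := by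
    intro hc
    apply hx0
    rw [QuotientAddGroup.eq_zero_iff, AddSubgroup.mem_addSubgroupOf]
    exact hc
  have hdet : ∀ X : MO F × MO F, X.1.det ≠ 0 →
      (∀ (u : InfinitePlace F) (i j : Fin 3), u (X.1 i j : F) ≤ C) →
      ∀ v ∈ Q, X.1.det ∉ v.asIdeal := fun X h1 h2 v hv =>
    (hP0 v (hQ v hv).1).2 X.1 h2 h1
  rcases cls h (fun v => v (D : F) * ρ v) (a * D ^ 2) (b * D ^ 3)
    ((a : F) * (D : F) ^ 2) ((b : F) * (D : F) ^ 3) (by push_cast; rfl) (by push_cast; rfl) c.1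
    hρ hB' c.2 hcb with ⟨X, hX, hA⟩ | ⟨k, Φ, hinj, hΦ⟩
  · left
    have hAt : AtZ D ⟨(a, b), QuotientAddGroup.mk c⟩ X := ⟨c, rfl, hA⟩
    exact ⟨X, hX, hAt, hpt X hAt (hdet X hX.2.2.1 fun u i j => (hX.2.2.2.2 u i j).1), hw X hAt⟩
  · right
    refine ⟨k, Φ, hinj, ?_⟩
    intro q hq
    obtain ⟨hX, hA⟩ := hΦ q hq
    have hAt : AtZ D ⟨(a, b), QuotientAddGroup.mk c⟩ (Φ q) := ⟨c, rfl, hA⟩
    exact ⟨hX, hAt, hpt _ hAt (hdet _ hX.2.2.1 fun u i j => (hX.2.2.2.2.2.2.2.2.2 u i j).1),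
      hw _ hAt⟩

end Pool.Agent.Lib.MP_8cb858_nt.PU
end
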