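import Pool.Agent.Lib.MP_8cb858_nt.PR.SpecF
import Pool.Agent.Lib.MP_8cb858_nt.PF.SpecF
import Pool.Agent.Lib.MP_8cb858_nt.PT.SpecF
import Pool.Agent.Lib.MP_8cb858_nt.PU.SpecF

section
/-!
# MP_8cb858_nt, Poonen-Rains up to epsilon, block F, module FID (helper43)

Identities for `3 × 3` matrices over a commutative ring.
-/
set_option autoImplicit false

namespace Pool.Agent.Lib.MP_8cb858_nt.PR

open Matrix

namespace FIDM

variable {R : Type} [CommRing R]

theorem tr_mul (A B : Matrix (Fin 3) (Fin 3) R) : (A * B).trace =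
    A 0 0 * B 0 0 + A 0 1 * B 1 0 + A 0 2 * B 2 0 + (A 1 0 * B 0 1 + A 1 1 * B 1 1 + A 1 2 * B 2 1) +
      (A 2 0 * B 0 2 + A 2 1 * B 1 2 + A 2 2 * B 2 2) := by
  simp only [Matrix.trace, Matrix.diag, Matrix.mul_apply, Fin.sum_univ_three]

theorem adj00 (A : Matrix (Fin 3) (Fin 3) R) :
    A.adjugate 0 0 = A 1 1 * A 2 2 - A 1 2 * A 2 1 := by
  rw [adjugate_fin_three]; simp

theorem adj01 (A : Matrix (Fin 3) (Fin 3) R) :
    A.adjugate 0 1 = -(A 0 1 * A 2 2) + A 0 2 * A 2 1 := by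
  rw [adjugate_fin_three]; simp

theorem adj02 (A : Matrix (Fin 3) (Fin 3) R) :
    A.adjugate 0 2 = A 0 1 * A 1 2 - A 0 2 * A 1 1 := by
  rw [adjugate_fin_three]; simp

theorem adj10 (A : Matrix (Fin 3) (Fin 3) R) :
    A.adjugate 1 0 = -(A 1 0 * A 2 2) + A 1 2 * A 2 0 := by
  rw [adjugate_fin_three]; simp

theorem adj11 (A : Matrix (Fin 3) (Fin 3) R) :
    A.adjugate 1 1 = A 0 0 * A 2 2 - A 0 2 * A 2 0 := by
  rw [adjugate_fin_three]; simp

theorem adj12 (A : Matrix (Fin 3) (Fin 3) R) :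
    A.adjugate 1 2 = -(A 0 0 * A 1 2) + A 0 2 * A 1 0 := by
  rw [adjugate_fin_three]; simp

theorem adj20 (A : Matrix (Fin 3) (Fin 3) R) :
    A.adjugate 2 0 = A 1 0 * A 2 1 - A 1 1 * A 2 0 := by
  rw [adjugate_fin_three]; simp

theorem adj21 (A : Matrix (Fin 3) (Fin 3) R) :
    A.adjugate 2 1 = -(A 0 0 * A 2 1) + A 0 1 * A 2 0 := by
  rw [adjugate_fin_three]; simp

theorem adj22 (A : Matrix (Fin 3) (Fin 3) R) :
    A.adjugate 2 2 = A 0 0 * A 1 1 - A 0 1 * A 1 0 := by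
  rw [adjugate_fin_three]; simp

end FIDM

open FIDM in
/-- **FID** -/
theorem specFID : SpecFID where
  cp := by
    intro R _ A B x
    rw [tr_mul, tr_mul]
    simp only [adj00, adj01, adj02, adj10, adj11, adj12, adj20, adj21, adj22, det_fin_three,
      Matrix.sub_apply, Matrix.smul_apply, smul_eq_mul]
    ring
  dr := by
    intro R _ A B x
    rw [tr_mul, tr_mul, tr_mul]
    simp only [adj00, adj01, adj02, adj10, adj11, adj12, adj20, adj21, adj22, det_fin_three,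
      Matrix.sub_apply, Matrix.smul_apply, smul_eq_mul]
    ring
  cg := by
    intro R _ A B g
    have h1 : (gᵀ * A * g).adjugate = g.adjugate * (A.adjugate * gᵀ.adjugate) := by
      rw [adjugate_mul_distrib, adjugate_mul_distrib]
    have h2 : gᵀ.adjugate * gᵀ = g.det • (1 : Matrix (Fin 3) (Fin 3) R) := by
      rw [adjugate_mul, det_transpose]
    have h3 : g * g.adjugate = g.det • (1 : Matrix (Fin 3) (Fin 3) R) := mul_adjugate g
    rw [h1]
    calc (g.adjugate * (A.adjugate * gᵀ.adjugate) * (gᵀ * B * g)).trace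
        = (g.adjugate * (A.adjugate * (gᵀ.adjugate * gᵀ) * B * g)).trace := by
          congr 1
          simp only [Matrix.mul_assoc]
      _ = ((A.adjugate * (gᵀ.adjugate * gᵀ) * B * g) * g.adjugate).trace := trace_mul_comm _ _
      _ = (A.adjugate * (gᵀ.adjugate * gᵀ) * B * (g * g.adjugate)).trace := by
          congr 1
          simp only [Matrix.mul_assoc]
      _ = g.det ^ 2 * (A.adjugate * B).trace := by
          rw [h2, h3]
          simp only [Matrix.mul_smul, Matrix.smul_mul, Matrix.mul_one, trace_smul, smul_eq_mul]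
          ring
  kr := by
    intro R _ A C w i j hC hw
    have e0 : C 0 0 * w 0 + C 0 1 * w 1 + C 0 2 * w 2 = 0 := by
      have := congrFun hw 0
      simpa [Matrix.mulVec, dotProduct, Fin.sum_univ_three] using this
    have e1 : C 1 0 * w 0 + C 1 1 * w 1 + C 1 2 * w 2 = 0 := by
      have := congrFun hw 1
      simpa [Matrix.mulVec, dotProduct, Fin.sum_univ_three] using this
    have e2 : C 2 0 * w 0 + C 2 1 * w 1 + C 2 2 * w 2 = 0 := by
      have := congrFun hw 2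
      simpa [Matrix.mulVec, dotProduct, Fin.sum_univ_three] using this
    have s01 : C 1 0 = C 0 1 := hC.apply 0 1
    have s02 : C 2 0 = C 0 2 := hC.apply 0 2
    have s12 : C 2 1 = C 1 2 := hC.apply 1 2
    rw [s01] at e1
    rw [s02, s12] at e2
    -- adj(C) a b * w c = adj(C) c b * w a
    have key : ∀ a c b : Fin 3, C.adjugate a b * w c = C.adjugate c b * w a := by
      have k00 : C.adjugate 0 0 * w 1 = C.adjugate 1 0 * w 0 := by
        rw [adj00, adj10, s01, s02, s12]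
        linear_combination C 2 2 * e1 - C 1 2 * e2
      have k01 : C.adjugate 0 1 * w 1 = C.adjugate 1 1 * w 0 := by
        rw [adj01, adj11, s02, s12]
        linear_combination -C 2 2 * e0 + C 0 2 * e2
      have k02 : C.adjugate 0 2 * w 1 = C.adjugate 1 2 * w 0 := by
        rw [adj02, adj12, s01]
        linear_combination C 1 2 * e0 - C 0 2 * e1
      have l00 : C.adjugate 0 0 * w 2 = C.adjugate 2 0 * w 0 := by
        rw [adj00, adj20, s01, s02, s12]
        linear_combination C 1 1 * e2 - C 1 2 * e1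
      have l01 : C.adjugate 0 1 * w 2 = C.adjugate 2 1 * w 0 := by
        rw [adj01, adj21, s02, s12]
        linear_combination -C 0 1 * e2 + C 1 2 * e0
      have l02 : C.adjugate 0 2 * w 2 = C.adjugate 2 2 * w 0 := by
        rw [adj02, adj22, s01]
        linear_combination C 0 1 * e1 - C 1 1 * e0
      have m00 : C.adjugate 1 0 * w 2 = C.adjugate 2 0 * w 1 := by
        rw [adj10, adj20, s01, s02, s12]
        linear_combination -C 0 1 * e2 + C 0 2 * e1
      have m01 : C.adjugate 1 1 * w 2 = C.adjugate 2 1 * w 1 := by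
        rw [adj11, adj21, s02, s12]
        linear_combination C 0 0 * e2 - C 0 2 * e0
      have m02 : C.adjugate 1 2 * w 2 = C.adjugate 2 2 * w 1 := by
        rw [adj12, adj22, s01]
        linear_combination -C 0 0 * e1 + C 0 1 * e0
      intro a c b
      fin_cases a <;> fin_cases c <;> fin_cases b <;>
        first
          | rfl
          | exact k00 | exact k01 | exact k02 | exact l00 | exact l01 | exact l02
          | exact m00 | exact m01 | exact m02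
          | exact k00.symm | exact k01.symm | exact k02.symm | exact l00.symm | exact l01.symm
          | exact l02.symm | exact m00.symm | exact m01.symm | exact m02.symm
    have hsym : ∀ a b : Fin 3, C.adjugate a b = C.adjugate b a := by
      intro a b
      have : C.adjugate.IsSymm := by
        rw [Matrix.IsSymm, adjugate_transpose, hC]
      exact this.apply b a
    have key2 : ∀ k l : Fin 3, C.adjugate k l * (w i * w j) = C.adjugate i j * (w k * w l) := by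
      intro k l
      calc C.adjugate k l * (w i * w j) = (C.adjugate k l * w i) * w j := by ring
        _ = (C.adjugate i l * w k) * w j := by rw [key k i l]
        _ = (C.adjugate l i * w j) * w k := by rw [hsym i l]; ring
        _ = (C.adjugate j i * w l) * w k := by rw [key l j i]
        _ = C.adjugate i j * (w k * w l) := by rw [hsym j i]; ring
    have hdot : w ⬝ᵥ A.mulVec w = ∑ k, ∑ l, w k * (A k l * w l) := by
      simp only [dotProduct, Matrix.mulVec, Finset.mul_sum]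
    rw [hdot, Matrix.trace, Finset.sum_mul, Finset.mul_sum]
    have : ∀ k : Fin 3, (C.adjugate * A).diag k * (w i * w j) =
        ∑ l, C.adjugate k l * (w i * w j) * A l k := by
      intro k
      rw [Matrix.diag, Matrix.mul_apply, Finset.sum_mul]
      exact Finset.sum_congr rfl fun l _ => by ring
    simp_rw [this, key2]
    rw [Finset.sum_comm]
    refine Finset.sum_congr rfl fun l _ => ?_
    rw [Finset.mul_sum]
    exact Finset.sum_congr rfl fun k _ => by ring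

end Pool.Agent.Lib.MP_8cb858_nt.PR
end

section
/-! # FCZ: a pair with irreducible characteristic polynomial has a common zero over a finite field (helper93) -/
namespace Pool.Agent.Lib.MP_8cb858_nt.PF

open Polynomial Matrix

namespace FCZM

variable {k : Type} [Field k]

/-- the cubic -/
noncomputable def fp (a b : k) : k[X] := X ^ 3 + C a * X + C b

theorem fp_monic (a b : k) : (fp a b).Monic := by
  unfold fp
  monicity!

theorem fp_natDegree (a b : k) : (fp a b).natDegree = 3 := by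
  unfold fp
  compute_degree!

theorem fp_irr {a b : k} (h : ∀ x : k, x ^ 3 + a * x + b ≠ 0) : Irreducible (fp a b) := by
  rw [(fp_monic a b).irreducible_iff_roots_eq_zero_of_degree_le_three (by rw [fp_natDegree]; norm_num)
    (by rw [fp_natDegree])]
  apply Multiset.eq_zero_of_forall_notMem
  intro x hx
  rw [mem_roots (fp_monic a b).ne_zero, IsRoot.def] at hx
  apply h x
  simpa [fp] using hx

theorem charpoly_T (hF : PR.SpecFID) {A B : Matrix (Fin 3) (Fin 3) k} {a b : k} (hA : A.det ≠ 0)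
    (hG : Gc a b A B) : (A⁻¹ * B).charpoly = fp a b := by
  have hAi : A * A⁻¹ = 1 := Matrix.mul_nonsing_inv A (isUnit_iff_ne_zero.2 hA)
  have h1 : (C : k →+* k[X]).mapMatrix A * charmatrix (A⁻¹ * B) =
      (X : k[X]) • (C : k →+* k[X]).mapMatrix A - (C : k →+* k[X]).mapMatrix B := by
    rw [charmatrix, mul_sub, ← map_mul, ← mul_assoc, hAi, one_mul]
    congr 1
    rw [Matrix.scalar_apply, ← Matrix.smul_one_eq_diagonal, mul_smul_comm, mul_one]
  have h2 := congrArg Matrix.det h1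
  rw [Matrix.det_mul, hF.cp, ← RingHom.map_det, ← RingHom.map_adjugate, ← RingHom.map_adjugate, ← map_mul,
    ← map_mul, ← RingHom.map_det] at h2
  have etr : ∀ M : Matrix (Fin 3) (Fin 3) k, ((C : k →+* k[X]).mapMatrix M).trace = C M.trace := fun M => by
    simp [Matrix.trace]
  have e1 := etr (A.adjugate * B)
  have e2 := etr (A * B.adjugate)
  rw [e1, e2, hG.2.1, hG.2.2.1] at h2
  have e3 : B.det = - (b * A.det) := by rw [← hG.2.2.2, neg_neg]
  rw [e3] at h2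
  have hC : (C A.det : k[X]) ≠ 0 := by simpa using hA
  apply mul_left_cancel₀ hC
  rw [Matrix.charpoly, h2, fp]
  simp only [map_zero, map_mul, map_neg]
  ring

theorem sym {A T : Matrix (Fin 3) (Fin 3) k} (hT : Tᵀ * A = A * T) (p : k[X]) :
    (aeval T p)ᵀ * A = A * aeval T p := by
  have hpow : ∀ n : ℕ, (T ^ n)ᵀ * A = A * T ^ n := by
    intro n
    induction n with
    | zero => simp
    | succ n ih =>
      rw [pow_succ, Matrix.transpose_mul, mul_assoc, ih, ← mul_assoc, hT, mul_assoc, ← pow_succ',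
        ← pow_succ]
  induction p using Polynomial.induction_on' with
  | add p q hp hq => rw [map_add, Matrix.transpose_add, add_mul, hp, hq, mul_add]
  | monomial n c =>
    rw [aeval_monomial, ← Algebra.smul_def, Matrix.transpose_smul, smul_mul_assoc, hpow, mul_smul_comm]

/-- evaluation at `T` -/
noncomputable def Phi {a b : k} (T : Matrix (Fin 3) (Fin 3) k) (h : aeval T (fp a b) = 0) :
    AdjoinRoot (fp a b) →+* Matrix (Fin 3) (Fin 3) k :=
  Ideal.Quotient.lift (Ideal.span {fp a b}) (aeval T : k[X] →ₐ[k] _).toRingHom (by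
    intro p hp
    rw [Ideal.mem_span_singleton] at hp
    obtain ⟨q, rfl⟩ := hp
    simp [h])

theorem Phi_mk {a b : k} {T : Matrix (Fin 3) (Fin 3) k} (h : aeval T (fp a b) = 0) (p : k[X]) :
    Phi T h (AdjoinRoot.mk _ p) = aeval T p := rfl

theorem Phi_root {a b : k} {T : Matrix (Fin 3) (Fin 3) k} (h : aeval T (fp a b) = 0) :
    Phi T h (AdjoinRoot.root _) = T := by
  rw [AdjoinRoot.root, Phi_mk, aeval_X]

theorem Phi_smul {a b : k} {T : Matrix (Fin 3) (Fin 3) k} (h : aeval T (fp a b) = 0) (c : k)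
    (x : AdjoinRoot (fp a b)) : Phi T h (c • x) = c • Phi T h x := by
  rw [Algebra.smul_def, map_mul, AdjoinRoot.algebraMap_eq, ← AdjoinRoot.mk_C, Phi_mk, aeval_C,
    ← Algebra.smul_def]

theorem Phi_sym {A T : Matrix (Fin 3) (Fin 3) k} (hT : Tᵀ * A = A * T) {a b : k} (h : aeval T (fp a b) = 0)
    (x : AdjoinRoot (fp a b)) : (Phi T h x)ᵀ * A = A * Phi T h x := by
  obtain ⟨p, rfl⟩ := AdjoinRoot.mk_surjective x
  rw [Phi_mk]
  exact sym hT p

/-- the two linear forms -/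
noncomputable def lin {a b : k} (A T : Matrix (Fin 3) (Fin 3) k) (h : aeval T (fp a b) = 0) :
    AdjoinRoot (fp a b) →ₗ[k] k × k where
  toFun x := ((A * Phi T h x) 0 0, (A * Phi T h (AdjoinRoot.root _ * x)) 0 0)
  map_add' x y := by
    simp only [mul_add, map_add, Matrix.add_apply, Prod.mk_add_mk]
  map_smul' c x := by
    simp only [mul_smul_comm, Phi_smul, Matrix.smul_apply, RingHom.id_apply, Prod.smul_mk, smul_eq_mul]

theorem colq (M N : Matrix (Fin 3) (Fin 3) k) :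
    (fun i => M i 0) ⬝ᵥ N.mulVec (fun i => M i 0) = (Mᵀ * (N * M)) 0 0 := rfl

theorem mul_isSquare {K : Type} [Field K] [Finite K] {x y : K} (hx : ¬ IsSquare x)
    (hy : ¬ IsSquare y) : IsSquare (x * y) := by
  classical
  have := Fintype.ofFinite K
  have hx0 : x ≠ 0 := fun e => hx (e ▸ IsSquare.zero)
  have hy0 : y ≠ 0 := fun e => hy (e ▸ IsSquare.zero)
  rw [← quadraticChar_one_iff_isSquare (mul_ne_zero hx0 hy0), map_mul,
    quadraticChar_neg_one_iff_not_isSquare.2 hx, quadraticChar_neg_one_iff_not_isSquare.2 hy]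
  norm_num

theorem ringChar_ne {K : Type} [Field K] (h2 : (2 : K) ≠ 0) : ringChar K ≠ 2 := by
  intro h
  apply h2
  have := (ringChar.spec K 2).2 (by rw [h])
  exact_mod_cast this

end FCZM

open FCZM in
/-- FCZ -/
theorem specFCZ (hF : PR.SpecFID) : SpecFCZ := by
  intro k _ _ a b A B h2 hAs hA hG hroot
  have hirr := fp_irr hroot
  have : Fact (Irreducible (fp a b)) := ⟨hirr⟩
  have hf0 : fp a b ≠ 0 := (fp_monic a b).ne_zero
  have hAi : A * A⁻¹ = 1 := Matrix.mul_nonsing_inv A (isUnit_iff_ne_zero.2 hA)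
  have hAi' : A⁻¹ * A = 1 := Matrix.nonsing_inv_mul A (isUnit_iff_ne_zero.2 hA)
  have hTB : A * (A⁻¹ * B) = B := by rw [← mul_assoc, hAi, one_mul]
  have hT : (A⁻¹ * B)ᵀ * A = A * (A⁻¹ * B) := by
    rw [hTB, Matrix.transpose_mul, Matrix.transpose_nonsing_inv, hAs.eq, hG.1.eq, mul_assoc, hAi', mul_one]
  have hch : aeval (A⁻¹ * B) (fp a b) = 0 := by
    rw [← charpoly_T hF hA hG]
    exact Matrix.aeval_self_charpoly _
  have hfr : Module.finrank k (AdjoinRoot (fp a b)) = 3 := by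
    rw [(AdjoinRoot.powerBasis hf0).finrank, AdjoinRoot.powerBasis_dim, fp_natDegree]
  have : Module.Finite k (AdjoinRoot (fp a b)) := Module.finite_of_finrank_pos (by rw [hfr]; norm_num)
  have : Finite (AdjoinRoot (fp a b)) := Module.finite_of_finite k
  have hinj := LinearMap.ker_ne_bot_of_finrank_lt (f := lin A (A⁻¹ * B) hch) (by
    rw [hfr, Module.finrank_prod, Module.finrank_self]; norm_num)
  obtain ⟨κ, hκ, hκ0⟩ := (Submodule.ne_bot_iff _).1 hinj
  rw [LinearMap.mem_ker] at hκ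
  have k1 : (A * Phi (A⁻¹ * B) hch κ) 0 0 = 0 := congrArg Prod.fst hκ
  have k2 : (A * Phi (A⁻¹ * B) hch (AdjoinRoot.root _ * κ)) 0 0 = 0 := congrArg Prod.snd hκ
  -- a common multiple which is a square
  obtain ⟨ξ, c, hξ0, hξ⟩ : ∃ (ξ : AdjoinRoot (fp a b)) (c : k), ξ ≠ 0 ∧ ξ * ξ = c • κ := by
    by_cases hs : IsSquare κ
    · obtain ⟨ξ, rfl⟩ := hs
      exact ⟨ξ, 1, left_ne_zero_of_mul hκ0, by rw [one_smul]⟩
    · have := Fintype.ofFinite k
      obtain ⟨c, hc⟩ := FiniteField.exists_nonsquare (F := k) (ringChar_ne h2)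
      have hc0 : c ≠ 0 := fun e => hc (e ▸ IsSquare.zero)
      have hcK : ¬ IsSquare (algebraMap k (AdjoinRoot (fp a b)) c) := by
        rintro ⟨η, hη⟩
        apply hc
        have h3 := congrArg (Algebra.norm k) hη
        rw [Algebra.norm_algebraMap, hfr, map_mul] at h3
        refine ⟨Algebra.norm k η / c, ?_⟩
        field_simp
        rw [← h3.symm.trans (by ring : c ^ 3 = c ^ 3)] <;> ring
      obtain ⟨ξ, hξ⟩ := mul_isSquare hcK hs
      refine ⟨ξ, c, ?_, ?_⟩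
      · rintro rfl
        rw [mul_zero] at hξ
        rcases mul_eq_zero.1 hξ with h | h
        · exact hc0 ((map_eq_zero _).1 h)
        · exact hκ0 h
      · rw [← hξ, Algebra.smul_def]
  refine ⟨fun i => Phi (A⁻¹ * B) hch ξ i 0, ?_, ?_, ?_⟩
  · intro h0
    have h1 : (Phi (A⁻¹ * B) hch (ξ⁻¹ * ξ)) 0 0 = 1 := by
      rw [inv_mul_cancel₀ hξ0, map_one, Matrix.one_apply_eq]
    rw [map_mul, Matrix.mul_apply] at h1
    have h3 : ∀ j, Phi (A⁻¹ * B) hch ξ j 0 = 0 := fun j => congrFun h0 j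
    simp [h3] at h1
  · rw [colq, ← mul_assoc, Phi_sym hT, mul_assoc, ← map_mul, hξ, Phi_smul, mul_smul_comm, Matrix.smul_apply, k1,
      smul_zero]
  · rw [colq]
    have e : B * Phi (A⁻¹ * B) hch ξ = A * Phi (A⁻¹ * B) hch (AdjoinRoot.root _ * ξ) := by
      rw [map_mul, Phi_root, ← mul_assoc, hTB]
    rw [e, ← mul_assoc, Phi_sym hT, mul_assoc, ← map_mul, mul_left_comm, hξ, mul_smul_comm, Phi_smul,
      mul_smul_comm, Matrix.smul_apply, k2, smul_zero]

end Pool.Agent.Lib.MP_8cb858_nt.PF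
end

section
/-!
# FORB: an orthogonal basis containing `w`
-/
namespace Pool.Agent.Lib.MP_8cb858_nt.PF

open Matrix

namespace FORBM

variable {k : Type} [Field k]

theorem symm {A : Matrix (Fin 3) (Fin 3) k} (hA : A.IsSymm) (x y : Fin 3 → k) :
    x ⬝ᵥ A.mulVec y = y ⬝ᵥ A.mulVec x := by
  rw [Matrix.dotProduct_mulVec, ← Matrix.mulVec_transpose, hA, dotProduct_comm]

theorem exists_u (h2 : (2 : k) ≠ 0) {A : Matrix (Fin 3) (Fin 3) k} (hA : A.IsSymm) (hdet : A.det ≠ 0)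
    {w : Fin 3 → k} (hμ : w ⬝ᵥ A.mulVec w ≠ 0) :
    ∃ u : Fin 3 → k, A.mulVec w ⬝ᵥ u = 0 ∧ u ⬝ᵥ A.mulVec u ≠ 0 := by
  by_contra hcon
  push Not at hcon
  obtain ⟨v, hv⟩ : ∃ v, v = A.mulVec w := ⟨_, rfl⟩
  rw [← hv] at hcon hμ
  have pol : ∀ u u' : Fin 3 → k, v ⬝ᵥ u = 0 → v ⬝ᵥ u' = 0 → u ⬝ᵥ A.mulVec u' = 0 := by
    intro u u' h h'
    have e1 := hcon (u + u') (by rw [dotProduct_add, h, h', add_zero])
    have e2 := hcon u h
    have e3 := hcon u' h'
    rw [Matrix.mulVec_add, add_dotProduct, dotProduct_add, dotProduct_add, e2, e3,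
      symm hA u' u] at e1
    have e4 : 2 * (u ⬝ᵥ A.mulVec u') = 0 := by linear_combination e1
    exact (mul_eq_zero.1 e4).resolve_left h2
  have zero : ∀ u : Fin 3 → k, v ⬝ᵥ u = 0 → u = 0 := by
    intro u hu
    apply Matrix.eq_zero_of_mulVec_eq_zero hdet
    apply dotProduct_eq_zero
    intro x
    rw [dotProduct_comm]
    have hvw : v ⬝ᵥ w = w ⬝ᵥ v := dotProduct_comm _ _
    obtain ⟨r, hr⟩ : ∃ r, v ⬝ᵥ x = r * (w ⬝ᵥ v) := ⟨v ⬝ᵥ x / (w ⬝ᵥ v), by field_simp⟩
    have e1 : v ⬝ᵥ (x - r • w) = 0 := by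
      rw [dotProduct_sub, dotProduct_smul, hvw, hr, smul_eq_mul, sub_self]
    have e2 := pol _ u e1 hu
    have e3 : w ⬝ᵥ A.mulVec u = 0 := by
      rw [symm hA, ← hv, dotProduct_comm]
      exact hu
    rw [sub_dotProduct, smul_dotProduct, e3, smul_zero, sub_zero] at e2
    exact e2
  have z1 := zero ![v 1, -v 0, 0] (by
    simp [dotProduct, Fin.sum_univ_three]
    ring)
  have z2 := zero ![v 2, 0, -v 0] (by
    simp [dotProduct, Fin.sum_univ_three]
    ring)
  have e0 : v 0 = 0 := by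
    have := congrFun z1 1
    simpa using this
  have e1 : v 1 = 0 := by
    have := congrFun z1 0
    simpa using this
  have e2 : v 2 = 0 := by
    have := congrFun z2 0
    simpa using this
  apply hμ
  simp [dotProduct, Fin.sum_univ_three, e0, e1, e2]

end FORBM

open FORBM in
theorem specFORB : SpecFORB := by
  intro k _ A w h2 hA hdet hμ
  obtain ⟨u, hu, hl⟩ := exists_u h2 hA hdet hμ
  obtain ⟨u2, hu2⟩ : ∃ u2, u2 = crossProduct (A.mulVec w) (A.mulVec u) := ⟨_, rfl⟩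
  have h21 : A.mulVec w ⬝ᵥ u2 = 0 := by
    rw [hu2]
    exact dot_self_cross _ _
  have h22 : A.mulVec u ⬝ᵥ u2 = 0 := by
    rw [hu2]
    exact dot_cross_self _ _
  obtain ⟨G, hG⟩ : ∃ G : Matrix (Fin 3) (Fin 3) k, G = Matrix.of ![u, u2, w] := ⟨_, rfl⟩
  have hGdet : G.det = (w ⬝ᵥ A.mulVec w) * (u ⬝ᵥ A.mulVec u) := by
    have e1 : G.det = u ⬝ᵥ crossProduct u2 w := by
      rw [triple_product_eq_det, hG]
      rfl
    rw [e1, triple_product_permutation, hu2, cross_dot_cross, hu, zero_mul, sub_zero,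
      dotProduct_comm (A.mulVec w), dotProduct_comm (A.mulVec u)]
  have hent : ∀ i j, (G * A * Gᵀ) i j = G i ⬝ᵥ A.mulVec (G j) := by
    intro i j
    rw [Matrix.mul_assoc]
    rfl
  have g0 : G 0 = u := by rw [hG]; rfl
  have g1 : G 1 = u2 := by rw [hG]; rfl
  have g2 : G 2 = w := by rw [hG]; rfl
  have huw : u ⬝ᵥ A.mulVec w = 0 := by rw [dotProduct_comm]; exact hu
  have hwu : w ⬝ᵥ A.mulVec u = 0 := by rw [FORBM.symm hA]; exact huw
  have h2w : u2 ⬝ᵥ A.mulVec w = 0 := by rw [dotProduct_comm]; exact h21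
  have hw2 : w ⬝ᵥ A.mulVec u2 = 0 := by rw [FORBM.symm hA]; exact h2w
  have h2u : u2 ⬝ᵥ A.mulVec u = 0 := by rw [dotProduct_comm]; exact h22
  have hu2' : u ⬝ᵥ A.mulVec u2 = 0 := by rw [FORBM.symm hA]; exact h2u
  have hdiag : G * A * Gᵀ = Matrix.diagonal ![u ⬝ᵥ A.mulVec u, u2 ⬝ᵥ A.mulVec u2,
      w ⬝ᵥ A.mulVec w] := by
    ext i j
    rw [hent]
    fin_cases i <;> fin_cases j
    · show G 0 ⬝ᵥ A.mulVec (G 0) = _
      rw [g0]; simp
    · show G 0 ⬝ᵥ A.mulVec (G 1) = _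
      rw [g0, g1, hu2']; simp
    · show G 0 ⬝ᵥ A.mulVec (G 2) = _
      rw [g0, g2, huw]; simp
    · show G 1 ⬝ᵥ A.mulVec (G 0) = _
      rw [g0, g1, h2u]; simp
    · show G 1 ⬝ᵥ A.mulVec (G 1) = _
      rw [g1]; simp
    · show G 1 ⬝ᵥ A.mulVec (G 2) = _
      rw [g1, g2, h2w]; simp
    · show G 2 ⬝ᵥ A.mulVec (G 0) = _
      rw [g0, g2, hwu]; simp
    · show G 2 ⬝ᵥ A.mulVec (G 1) = _
      rw [g1, g2, hw2]; simp
    · show G 2 ⬝ᵥ A.mulVec (G 2) = _
      rw [g2]; simp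
  have hGne : G.det ≠ 0 := by
    rw [hGdet]
    exact mul_ne_zero hμ hl
  have hm : u2 ⬝ᵥ A.mulVec u2 ≠ 0 := by
    intro h
    have e1 := congrArg Matrix.det hdiag
    rw [Matrix.det_mul, Matrix.det_mul, Matrix.det_transpose, Matrix.det_diagonal,
      Fin.prod_univ_three] at e1
    simp only [Matrix.cons_val] at e1
    rw [h] at e1
    have e2 : G.det * A.det * G.det = 0 := by rw [e1]; ring
    exact (mul_ne_zero (mul_ne_zero hGne hdet) hGne) e2
  refine ⟨Gᵀ, _, _, ?_, ?_, hl, hm, ?_⟩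
  · rw [Matrix.det_transpose]
    exact hGne
  · ext i
    have : (Gᵀ.mulVec ![0, 0, 1]) i = G 2 i := by
      simp [Matrix.mulVec, dotProduct, Fin.sum_univ_three]
    rw [this, g2]
  · rw [Matrix.transpose_transpose]
    exact hdiag

end Pool.Agent.Lib.MP_8cb858_nt.PF
end

section
/-!
# Row 187, module FPB (helper74): the number of `B` with pattern, for one `A`
-/
set_option autoImplicit false

namespace Pool.Agent.Lib.MP_8cb858_nt.PF

open Polynomial NumberField IsDedekindDomain Pool.Agent.Lib.MP_8cb858_nt.SEL Matrix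
open scoped Classical WithZero

theorem specFPB (hFFIB : SpecFFIB) (hFAL : SpecFAL) : SpecFPB := by
  intro F _ _ Q Q' P Z A S M hQP hQ' hZ hA h6 hM hS
  have hcop : ∀ v ∈ Q ∪ P, ∀ u ∈ Q ∪ P, v ≠ u →
      IsCoprime (v.asIdeal) (u.asIdeal) := by
    intro v _ u _ hne
    rw [Ideal.isCoprime_iff_sup_eq]
    exact v.isMaximal.coprime_of_ne u.isMaximal fun h => hne (HeightOneSpectrum.ext h)
  have h1 : ∀ z ∈ Z, {B ∈ S | ∀ v ∈ Q ∪ P, md v.asIdeal B ∈ AL Q Q' z A v}.Finite ∧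
      ({B ∈ S | ∀ v ∈ Q ∪ P, md v.asIdeal B ∈ AL Q Q' z A v}.ncard : ℝ) ≤
        M * ((∏ v ∈ Q ∪ P, (nv v : ℝ)) ^ 5 * ((1 / 2 ^ Q'.card) *
        (∏ v ∈ Q, (1 + 1 / (nv v : ℝ)) ^ 2 / 2) * ∏ v ∈ P, (1 + 1 / (nv v : ℝ)) ^ 2 / 3)) := by
    intro z hz
    obtain ⟨h2, h3⟩ := hFFIB (𝓞 F) (HeightOneSpectrum (𝓞 F)) (Q ∪ P) (fun v => v.asIdeal) S
      (fun v => AL Q Q' z A v) M hcop (fun v _ => finite_quot v) hM hS
    exact ⟨h2, h3.trans (mul_le_mul_of_nonneg_left (hFAL F Q Q' P z A hQP hQ' (hZ z hz) hA h6) hM)⟩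
  have he : {B ∈ S | Pat Q Q' P Z A B} =
      ⋃ z ∈ Z, {B ∈ S | ∀ v ∈ Q ∪ P, md v.asIdeal B ∈ AL Q Q' z A v} := by
    ext B
    simp only [Set.mem_setOf_eq, Set.mem_iUnion, Pat, exists_prop]
    constructor
    · rintro ⟨hB, z, hz, h⟩
      exact ⟨z, hz, hB, h⟩
    · rintro ⟨z, hz, hB, h⟩
      exact ⟨hB, z, hz, h⟩
  have hfin : {B ∈ S | Pat Q Q' P Z A B}.Finite := by
    rw [he]
    exact Set.Finite.biUnion Z.finite_toSet fun z hz => (h1 z hz).1
  refine ⟨hfin, ?_⟩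
  have h2 : {B ∈ S | Pat Q Q' P Z A B}.ncard ≤
      ∑ z ∈ Z, {B ∈ S | ∀ v ∈ Q ∪ P, md v.asIdeal B ∈ AL Q Q' z A v}.ncard := by
    rw [he]
    exact Finset.set_ncard_biUnion_le Z _
  have h3 : ({B ∈ S | Pat Q Q' P Z A B}.ncard : ℝ) ≤
      ∑ z ∈ Z, ({B ∈ S | ∀ v ∈ Q ∪ P, md v.asIdeal B ∈ AL Q Q' z A v}.ncard : ℝ) := by
    exact_mod_cast h2
  refine h3.trans ((Finset.sum_le_sum fun z hz => (h1 z hz).2).trans (le_of_eq ?_))
  rw [Finset.sum_const, nsmul_eq_mul, dns]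
  ring

end Pool.Agent.Lib.MP_8cb858_nt.PF
end

section
/-!
# MP_8cb858_nt, Poonen-Rains up to epsilon over number fields, block F, module FRT (helper43)

Cubics over a finite field with nonsquare discriminant: exactly one root, and it is simple.
-/
set_option autoImplicit false

namespace Pool.Agent.Lib.MP_8cb858_nt.PF

namespace FRTM

variable {k : Type} [Field k]

theorem disc_root {a b t : k} (ht : t ^ 3 + a * t + b = 0) :
    -(4 * a ^ 3 + 27 * b ^ 2) = (3 * t ^ 2 + a) ^ 2 * -(3 * t ^ 2 + 4 * a) := by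
  have hb : b = -t ^ 3 - a * t := by linear_combination ht
  rw [hb]
  ring

end FRTM

open FRTM in
/-- **FRT** -/
theorem specFRT (hSTF : SpecSTF) : SpecFRT := by
  intro k _ _ a b h
  refine ⟨hSTF k a b h, ?_, ?_⟩
  · intro t s ht hs
    by_contra hne
    have h1 : s ^ 2 + s * t + t ^ 2 + a = 0 := by
      have h2 : (s - t) * (s ^ 2 + s * t + t ^ 2 + a) = 0 := by linear_combination hs - ht
      exact (mul_eq_zero.1 h2).resolve_left (sub_ne_zero.2 (Ne.symm hne))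
    apply h
    refine ⟨(3 * t ^ 2 + a) * (2 * s + t), ?_⟩
    rw [disc_root ht]
    linear_combination (-4 * (3 * t ^ 2 + a) ^ 2) * h1
  · intro t ht h0
    apply h
    refine ⟨0, ?_⟩
    rw [disc_root ht, h0]
    ring

end Pool.Agent.Lib.MP_8cb858_nt.PF
end

section
/-!
# FWW: counting `B` with a given eigenvector
-/
namespace Pool.Agent.Lib.MP_8cb858_nt.PF

open Polynomial NumberField IsDedekindDomain Pool.Agent.Lib.MP_8cb858_nt.SEL Matrix
open scoped Classical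

namespace FWWM

theorem gd {k : Type} [Field k] (hFID : PR.SpecFID) {a b : k} {A B g : Matrix (Fin 3) (Fin 3) k}
    (h : Gd a b A B) : Gd a b (gᵀ * A * g) (gᵀ * B * g) := by
  obtain ⟨⟨hs, h1, h2, h3⟩, h4⟩ := h
  refine ⟨⟨?_, ?_, ?_, ?_⟩, h4⟩
  · unfold Matrix.IsSymm
    rw [Matrix.transpose_mul, Matrix.transpose_mul, Matrix.transpose_transpose, hs.eq,
      Matrix.mul_assoc]
  · rw [hFID.cg, h1, mul_zero]
  · rw [Matrix.trace_mul_comm, hFID.cg, Matrix.trace_mul_comm, h2, Matrix.det_mul, Matrix.det_mul,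
      Matrix.det_transpose]
    ring
  · rw [Matrix.det_mul, Matrix.det_mul, Matrix.det_mul, Matrix.det_mul, Matrix.det_transpose]
    linear_combination g.det ^ 2 * h3

end FWWM

open FWWM in
theorem specFWW (hFEI : SpecFEI) (hFORB : SpecFORB) (hFID : PR.SpecFID) (hFDIA : SpecFDIA) :
    SpecFWW := by
  intro k _ _ A w e h2 h3 hA hdet hw
  by_cases hμ : w ⬝ᵥ A.mulVec w = 0
  · have : {B : Matrix (Fin 3) (Fin 3) k | ∃ a b t : k, Gd a b A B ∧ B.mulVec w = t • A.mulVec w ∧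
      (IsSquare ((3 * t ^ 2 + a) * (w ⬝ᵥ A.mulVec w)) ↔ e)} = ∅ := by
      ext B
      simp only [Set.mem_ofPred_eq, Set.mem_empty_iff_false, iff_false]
      rintro ⟨a, b, t, hG, hB, -⟩
      exact ((hFEI k a b A B h2 h3 hA hdet hG).2 t w hw hB).2.2.1 hμ
    rw [this, Set.ncard_empty]
    simp
  · obtain ⟨g, l, m, hg, hgw, hl, hm, hd⟩ := hFORB k A w h2 hA hdet hμ
    refine le_trans (Nat.mul_le_mul_left 4 ?_) (hFDIA k l m (w ⬝ᵥ A.mulVec w) e h2 h3 hl hm hμ)
    refine Set.ncard_le_ncard_of_injOn (fun B : Matrix (Fin 3) (Fin 3) k => gᵀ * B * g) ?_ ?_ (Set.toFinite _)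
    · rintro B ⟨a, b, t, hG, hB, he⟩
      refine ⟨a, b, t, ?_, ?_, he⟩
      · rw [← hd]
        exact gd hFID hG
      · rw [← hd, ← Matrix.mulVec_mulVec, ← Matrix.mulVec_mulVec, hgw, ← Matrix.mulVec_mulVec,
          ← Matrix.mulVec_mulVec, hgw, hB, Matrix.mulVec_smul]
    · intro B _ B' _ hBB
      replace hBB : gᵀ * B * g = gᵀ * B' * g := hBB
      have hgu : IsUnit g.det := isUnit_iff_ne_zero.2 hg
      have hgt : IsUnit gᵀ.det := by rw [Matrix.det_transpose]; exact hgu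
      have h1 : gᵀ * B = gᵀ * B' := by
        have : gᵀ * B * g * g⁻¹ = gᵀ * B' * g * g⁻¹ := by rw [hBB]
        rwa [Matrix.mul_assoc, Matrix.mul_nonsing_inv g hgu, Matrix.mul_one, Matrix.mul_assoc,
          Matrix.mul_nonsing_inv g hgu, Matrix.mul_one] at this
      have : gᵀ⁻¹ * (gᵀ * B) = gᵀ⁻¹ * (gᵀ * B') := by rw [h1]
      rwa [← Matrix.mul_assoc, Matrix.nonsing_inv_mul _ hgt, Matrix.one_mul, ← Matrix.mul_assoc,
        Matrix.nonsing_inv_mul _ hgt, Matrix.one_mul] at this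

end Pool.Agent.Lib.MP_8cb858_nt.PF
end

section
/-!
# MKV: an isotropic vector in the kernel of a nilpotent symmetric pencil
-/
namespace Pool.Agent.Lib.MP_8cb858_nt.PT

open Polynomial Matrix
open Pool.Agent.Lib.MP_8cb858_nt.PF
open scoped Classical

namespace MKVM

variable {k : Type} [Field k]

theorem quad (A M : Matrix (Fin 3) (Fin 3) k) (x : Fin 3 → k) :
    M.mulVec x ⬝ᵥ A.mulVec (M.mulVec x) = x ⬝ᵥ (Mᵀ * A * M).mulVec x := by
  rw [Matrix.mul_assoc, ← Matrix.mulVec_mulVec, ← Matrix.mulVec_mulVec, Matrix.dotProduct_mulVec x,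
    Matrix.vecMul_transpose]

theorem ex_vec {M : Matrix (Fin 3) (Fin 3) k} (h : M ≠ 0) : ∃ x : Fin 3 → k, M.mulVec x ≠ 0 := by
  by_contra hc
  push Not at hc
  apply h
  ext i j
  have h1 := congrFun (hc (Pi.single j 1)) i
  simpa using h1

end MKVM

open FCZM MKVM in
theorem specMKV (hFID : PR.SpecFID) : SpecMKV := by
  intro k _ A B hAs hA hBs h1 h2 h3 hB
  have hG : Gc 0 0 A B := ⟨hBs, h1, by rw [h2, zero_mul], by rw [h3, zero_mul, neg_zero]⟩
  have hAi : A * A⁻¹ = 1 := Matrix.mul_nonsing_inv A (isUnit_iff_ne_zero.2 hA)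
  have hAi' : A⁻¹ * A = 1 := Matrix.nonsing_inv_mul A (isUnit_iff_ne_zero.2 hA)
  have hTB : A * (A⁻¹ * B) = B := by rw [← mul_assoc, hAi, one_mul]
  have hT : (A⁻¹ * B)ᵀ * A = A * (A⁻¹ * B) := by
    rw [hTB, Matrix.transpose_mul, Matrix.transpose_nonsing_inv, hAs.eq, hBs.eq, mul_assoc, hAi',
      mul_one]
  have hch : (A⁻¹ * B) ^ 3 = 0 := by
    have h := Matrix.aeval_self_charpoly (A⁻¹ * B)
    rw [charpoly_T hFID hA hG, fp] at h
    simpa using h
  have hM0 : A⁻¹ * B ≠ 0 := by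
    intro h
    apply hB
    rw [← hTB, h, mul_zero]
  set M := A⁻¹ * B with hM
  by_cases h4 : M ^ 2 = 0
  · obtain ⟨x, hx⟩ := ex_vec hM0
    refine ⟨M.mulVec x, hx, ?_, ?_⟩
    · rw [quad, hT, mul_assoc, ← pow_two, h4, mul_zero, Matrix.zero_mulVec, dotProduct_zero]
    · rw [← hTB, Matrix.mulVec_mulVec, mul_assoc, ← pow_two, h4, mul_zero, Matrix.zero_mulVec]
  · obtain ⟨x, hx⟩ := ex_vec h4
    refine ⟨(M ^ 2).mulVec x, hx, ?_, ?_⟩
    · have e : (M ^ 2)ᵀ * A * M ^ 2 = 0 := by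
        have e1 : (M ^ 2)ᵀ * A = A * M ^ 2 := by
          rw [pow_two, Matrix.transpose_mul, mul_assoc, hT, ← mul_assoc, hT, mul_assoc]
        rw [e1, mul_assoc, ← pow_add]
        have e2 : M ^ (2 + 2) = M ^ 3 * M := by rw [← pow_succ]
        rw [e2, hch, zero_mul, mul_zero]
      rw [quad, e, Matrix.zero_mulVec, dotProduct_zero]
    · rw [← hTB, Matrix.mulVec_mulVec, mul_assoc]
      have e2 : M * M ^ 2 = M ^ 3 := by rw [← pow_succ']
      rw [e2, hch, mul_zero, Matrix.zero_mulVec]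

end Pool.Agent.Lib.MP_8cb858_nt.PT
end

section
/-!
# MQR: the local count for `O/v^3`
-/
set_option autoImplicit false

namespace Pool.Agent.Lib.MP_8cb858_nt.PT

open Polynomial NumberField IsDedekindDomain Pool.Agent.Lib.MP_8cb858_nt.SEL Matrix
open Pool.Agent.Lib.MP_8cb858_nt.PF
open scoped Classical WithZero

namespace MQRM

theorem sq_dvd {M : Type} [CommMonoidWithZero M] [IsCancelMulZero M] {p x : M} (hp : Prime p)
    (h : p ^ 3 ∣ x ^ 2) : p ^ 2 ∣ x := by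
  have h1 : p ∣ x := hp.dvd_of_dvd_pow ((dvd_pow_self p (by norm_num)).trans h)
  obtain ⟨b, rfl⟩ := h1
  have h2 : p ∣ b := by
    have h3 : p ^ 2 * p ∣ p ^ 2 * b ^ 2 := by
      rw [← pow_succ, ← mul_pow]; exact h
    exact hp.dvd_of_dvd_pow ((mul_dvd_mul_iff_left (pow_ne_zero 2 hp.ne_zero)).mp h3)
  rw [sq]
  exact mul_dvd_mul_left p h2

variable {F : Type} [Field F] [NumberField F]

theorem sq_mem (v : HeightOneSpectrum (𝓞 F)) (a : 𝓞 F) (h : a ^ 2 ∈ v.asIdeal ^ 3) :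
    a ∈ v.asIdeal ^ 2 := by
  rw [← Ideal.dvd_span_singleton] at h ⊢
  rw [← Ideal.span_singleton_pow] at h
  exact sq_dvd v.prime h

theorem card_pow (v : HeightOneSpectrum (𝓞 F)) (n : ℕ) :
    Nat.card (𝓞 F ⧸ v.asIdeal ^ n) = nv v ^ n := by
  rw [nv, ← map_pow, Ideal.absNorm_apply, Submodule.cardQuot_apply]

theorem card_ker {A B : Type} [AddCommGroup A] [AddCommGroup B] (f : A →+ B)
    (hf : Function.Surjective f) : {x : A | f x = 0}.ncard * Nat.card B = Nat.card A := by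
  have h1 := AddSubgroup.card_mul_index f.ker
  have h2 : f.ker.index = Nat.card B := by
    rw [AddSubgroup.index_ker]
    rw [AddMonoidHom.range_eq_top.mpr hf]
    exact AddSubgroup.card_top
  rw [h2] at h1
  rw [← h1]
  rfl

omit [NumberField F] in
theorem mem_N3 (v : HeightOneSpectrum (𝓞 F)) (x : 𝓞 F) :
    Ideal.Quotient.mk (v.asIdeal ^ 3) x ∈ N3 v ↔ x ∈ v.asIdeal ^ 2 := by
  unfold N3
  have hle : v.asIdeal ^ 3 ≤ v.asIdeal ^ 2 := Ideal.pow_le_pow_right (by norm_num)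
  constructor
  · intro h
    rw [Ideal.mem_map_iff_of_surjective _ Ideal.Quotient.mk_surjective] at h
    obtain ⟨y, hy, hxy⟩ := h
    rw [Ideal.Quotient.eq] at hxy
    have h1 := (v.asIdeal ^ 2).sub_mem hy (hle hxy)
    convert h1 using 1
    ring
  · intro h
    exact Ideal.mem_map_of_mem _ h

end MQRM

open MQRM in
theorem specMQR (hMLC : SpecMLC) : SpecMQR := by
  intro F _ _ v A h6 hs hd
  have hmax := v.isMaximal
  have hfk := finite_quot v
  have hne : v.asIdeal ^ 3 ≠ ⊥ := pow_ne_zero 3 v.ne_bot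
  have hfR : Finite (𝓞 F ⧸ v.asIdeal ^ 3) := Ideal.finiteQuotientOfFreeOfNeBot _ hne
  have hle : v.asIdeal ^ 3 ≤ v.asIdeal := Ideal.pow_le_self (by norm_num)
  have hle2 : v.asIdeal ^ 3 ≤ v.asIdeal ^ 2 := Ideal.pow_le_pow_right (by norm_num)
  have hle3 : v.asIdeal ^ 2 ≤ v.asIdeal := Ideal.pow_le_self (by norm_num)
  refine ⟨?_, hfR⟩
  let _ := Ideal.Quotient.field v.asIdeal
  let π : 𝓞 F ⧸ v.asIdeal ^ 3 →+* 𝓞 F ⧸ v.asIdeal := Ideal.Quotient.factor hle
  have hπ : ∀ x : 𝓞 F, π (Ideal.Quotient.mk _ x) = Ideal.Quotient.mk _ x := fun x => rfl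
  have hπ0 : ∀ x : 𝓞 F, π (Ideal.Quotient.mk _ x) = 0 ↔ x ∈ v.asIdeal := fun x => by
    rw [hπ]; exact Ideal.Quotient.eq_zero_iff_mem
  have h2 : (2 : 𝓞 F ⧸ v.asIdeal) ≠ 0 := by
    intro h0
    apply h6
    have h1 : (2 : 𝓞 F) ∈ v.asIdeal := by
      rw [← Ideal.Quotient.eq_zero_iff_mem]; exact h0
    have := v.asIdeal.mul_mem_left 3 h1
    norm_num at this
    exact this
  have h3 : (3 : 𝓞 F ⧸ v.asIdeal) ≠ 0 := by
    intro h0
    apply h6
    have h1 : (3 : 𝓞 F) ∈ v.asIdeal := by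
      rw [← Ideal.Quotient.eq_zero_iff_mem]; exact h0
    have := v.asIdeal.mul_mem_left 2 h1
    norm_num at this
    exact this
  have hmap : (md (v.asIdeal ^ 3) A).map π = md v.asIdeal A := by
    ext i j
    rfl
  have hd' : ((md (v.asIdeal ^ 3) A).map π).det ≠ 0 := by
    rw [hmap, md_det]
    intro h0
    exact hd (Ideal.Quotient.eq_zero_iff_mem.1 h0)
  have hq : Nat.card (𝓞 F ⧸ v.asIdeal) = nv v := card_quot v
  have hq0 : 0 < nv v := by
    rw [← hq]; exact Nat.card_pos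
  have hC : Ch3 π (N3 v) := by
    refine ⟨hfR, Ideal.Quotient.factor_surjective hle, ?_, ?_, ?_, ?_, ?_, ?_, ?_, ?_⟩
    · intro x hx
      obtain ⟨a, rfl⟩ := Ideal.Quotient.mk_surjective x
      have ha : a ∉ v.asIdeal := fun h => hx ((hπ0 a).2 h)
      obtain ⟨y, i, hi, hyi⟩ := hmax.exists_inv ha
      have h4 : (1 - y * a) ^ 3 ∈ v.asIdeal ^ 3 := by
        apply Ideal.pow_mem_pow
        have : 1 - y * a = i := by linear_combination -hyi
        rw [this]; exact hi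
      have h5 : Ideal.Quotient.mk (v.asIdeal ^ 3) (a * (3 * y - 3 * y ^ 2 * a + y ^ 3 * a ^ 2)) =
          1 := by
        rw [← map_one (Ideal.Quotient.mk (v.asIdeal ^ 3)), eq_comm, Ideal.Quotient.eq]
        convert h4 using 1
        ring
      rw [map_mul] at h5
      exact IsUnit.of_mul_eq_one _ h5
    · intro x hx
      obtain ⟨a, rfl⟩ := Ideal.Quotient.mk_surjective x
      rw [mem_N3] at hx
      exact (hπ0 a).2 (hle3 hx)
    · intro x y hx hy
      obtain ⟨a, rfl⟩ := Ideal.Quotient.mk_surjective x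
      obtain ⟨b, rfl⟩ := Ideal.Quotient.mk_surjective y
      rw [← map_mul, mem_N3, sq]
      exact Ideal.mul_mem_mul ((hπ0 a).1 hx) ((hπ0 b).1 hy)
    · intro x y hx hy
      obtain ⟨a, rfl⟩ := Ideal.Quotient.mk_surjective x
      obtain ⟨b, rfl⟩ := Ideal.Quotient.mk_surjective y
      rw [mem_N3] at hy
      rw [← map_mul, Ideal.Quotient.eq_zero_iff_mem, pow_succ']
      exact Ideal.mul_mem_mul ((hπ0 a).1 hx) hy
    · intro x hx
      obtain ⟨a, rfl⟩ := Ideal.Quotient.mk_surjective x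
      rw [mem_N3]
      rw [← map_pow, Ideal.Quotient.eq_zero_iff_mem] at hx
      exact sq_mem v a hx
    · have h4 := card_ker (π : 𝓞 F ⧸ v.asIdeal ^ 3 →+ 𝓞 F ⧸ v.asIdeal)
        (Ideal.Quotient.factor_surjective hle)
      rw [hq, card_pow] at h4
      rw [hq]
      apply le_of_eq
      apply Nat.eq_of_mul_eq_mul_right hq0
      rw [← pow_succ]
      exact h4
    · let π2 : 𝓞 F ⧸ v.asIdeal ^ 3 →+* 𝓞 F ⧸ v.asIdeal ^ 2 := Ideal.Quotient.factor hle2
      have h4 := card_ker (π2 : 𝓞 F ⧸ v.asIdeal ^ 3 →+ 𝓞 F ⧸ v.asIdeal ^ 2)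
        (Ideal.Quotient.factor_surjective hle2)
      have h5 : {x : 𝓞 F ⧸ v.asIdeal ^ 3 |
          (π2 : 𝓞 F ⧸ v.asIdeal ^ 3 →+ 𝓞 F ⧸ v.asIdeal ^ 2) x = 0} =
          (N3 v : Set (𝓞 F ⧸ v.asIdeal ^ 3)) := by
        ext x
        obtain ⟨a, rfl⟩ := Ideal.Quotient.mk_surjective x
        rw [SetLike.mem_coe, mem_N3]
        exact Ideal.Quotient.eq_zero_iff_mem
      rw [h5, card_pow, card_pow] at h4
      rw [hq]
      apply le_of_eq
      apply Nat.eq_of_mul_eq_mul_right (pow_pos hq0 2)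
      rw [h4]
      ring
    · rw [card_pow, hq]
  have h7 := hMLC (𝓞 F ⧸ v.asIdeal ^ 3) (𝓞 F ⧸ v.asIdeal) π (N3 v) (md (v.asIdeal ^ 3) A) hC
    h2 h3 (md_symm _ _ hs) hd'
  rw [hq] at h7
  exact h7

end Pool.Agent.Lib.MP_8cb858_nt.PT
end

section
/-!
# FZ1: a pair is attached to at most one Selmer class
-/
namespace Pool.Agent.Lib.MP_8cb858_nt.PU

open Polynomial NumberField IsDedekindDomain Pool.Agent.Lib.MP_8cb858_nt.SEL Matrix
open Pool.Agent.Lib.MP_8cb858_nt.PF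
open scoped Classical WithZero

theorem specFZ1 (hINJ : SEL.SpecINJ.{0}) : SpecFZ1 := by
  intro F _ _ D z z' P hD hz hz'
  obtain ⟨⟨A, B⟩, x⟩ := z
  obtain ⟨⟨A', B'⟩, x'⟩ := z'
  obtain ⟨c, hc, hA⟩ := hz
  obtain ⟨c', hc', hA'⟩ := hz'
  simp only at c c' hc hc' hA hA'
  obtain ⟨h1, h2⟩ := (hINJ F).1 _ _ _ _ _ _ _ _ hA hA'
  have hDQ : (D : F) ≠ 0 := fun h => hD (RingOfIntegers.coe_eq_zero_iff.1 h)
  have hAA : A = A' := by
    have := mul_right_cancel₀ (pow_ne_zero 2 hDQ) h1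
    exact RingOfIntegers.ext this
  have hBB : B = B' := by
    have := mul_right_cancel₀ (pow_ne_zero 3 hDQ) h2
    exact RingOfIntegers.ext this
  subst hAA hBB
  have h3 := (hINJ F).2 _ _ c.1 c'.1 _ _ c.2.2.1 c'.2.2.1 hA hA'
  have h4 : x = x' := by
    rw [← hc, ← hc']
    rw [eq_comm, QuotientAddGroup.eq, AddSubgroup.mem_addSubgroupOf]
    show -c'.1 + c.1 ∈ Coboundaries 2 (cO A B D)
    rw [neg_add_eq_sub]
    exact h3
  subst h4
  rfl

end Pool.Agent.Lib.MP_8cb858_nt.PU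
end

section
/-!
# Module TLZ: the tail of the squarefree sieve
-/
namespace Pool.Agent.Lib.MP_8cb858_nt.PU

open Polynomial NumberField IsDedekindDomain Pool.Agent.Lib.MP_8cb858_nt.SEL Matrix
open Pool.Agent.Lib.MP_8cb858_nt.PF
open scoped Classical WithZero

/-- **TLZ** -/
theorem specTLZ (hDNT : PF.SpecDNT) (hDNY : PF.SpecDNY) (hLOW : SEL.SpecLOW.{0}) : SpecTLZ := by
  intro F _ _ ε hε
  obtain ⟨C₁, hC₁, h1⟩ := hDNT F
  obtain ⟨C₂, hC₂, h2⟩ := hDNY F
  obtain ⟨c, hc, h3⟩ := hLOW F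
  obtain ⟨M, hM⟩ := exists_nat_gt (4 * (C₁ + C₂) / (ε * c))
  have hεc : 0 < ε * c := mul_pos hε hc
  have hM0 : (0 : ℝ) < M := lt_of_le_of_lt (by positivity) hM
  have hM1 : 0 < M := by exact_mod_cast hM0
  have hM2 : (C₁ + C₂) / M ≤ ε * c / 4 := by
    rw [div_lt_iff₀ hεc] at hM
    rw [div_le_iff₀ hM0]
    linarith
  obtain ⟨R₁, k1⟩ := h1 M (ε * c / 4) hM1 (by positivity)
  obtain ⟨R₂, k2⟩ := h2 M (ε * c / 4) hM1 (by positivity)
  refine ⟨M, max 1 (max R₁ R₂), fun ρ hρ => ?_⟩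
  have hr1 : ∀ v, 1 ≤ ρ v := fun v => (le_max_left _ _).trans (hρ v)
  have hr2 : ∀ v, R₁ ≤ ρ v := fun v => ((le_max_left _ _).trans (le_max_right _ _)).trans (hρ v)
  have hr3 : ∀ v, R₂ ≤ ρ v := fun v => ((le_max_right _ _).trans (le_max_right _ _)).trans (hρ v)
  obtain ⟨hfin, hlow⟩ := h3 ρ hr1
  have hV : 0 ≤ vol ρ ^ 5 := by
    refine pow_nonneg (Finset.prod_nonneg fun v _ => pow_nonneg ?_ _) 5
    exact zero_le_one.trans (hr1 v)
  have hsub : {q ∈ Bx F ρ | ∃ v : Pl F, (6 : 𝓞 F) ∉ v.asIdeal ∧ M < nv v ∧ dsc q.1 q.2 ∈ v.asIdeal ^ 2} ⊆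
      {q : 𝓞 F × 𝓞 F | q ∈ Bx F ρ ∧ ∃ v : HeightOneSpectrum (𝓞 F), (6 : 𝓞 F) ∉ v.asIdeal ∧
        M < nv v ∧ q.1 ∉ v.asIdeal ∧ dsc q.1 q.2 ∈ v.asIdeal ^ 2} ∪
      {q : 𝓞 F × 𝓞 F | q ∈ Bx F ρ ∧ ∃ v : HeightOneSpectrum (𝓞 F), (6 : 𝓞 F) ∉ v.asIdeal ∧
        M < nv v ∧ q.1 ∈ v.asIdeal ∧ dsc q.1 q.2 ∈ v.asIdeal ^ 2} := by
    rintro q ⟨hq, v, h6, hv, hd⟩
    by_cases ha : q.1 ∈ v.asIdeal
    · exact Or.inr ⟨hq, v, h6, hv, ha, hd⟩
    · exact Or.inl ⟨hq, v, h6, hv, ha, hd⟩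
  have hn := (Set.ncard_le_ncard hsub (Set.Finite.union (hfin.subset fun q hq => hq.1)
    (hfin.subset fun q hq => hq.1))).trans (Set.ncard_union_le _ _)
  have hn' : ({q ∈ Bx F ρ | ∃ v : Pl F, (6 : 𝓞 F) ∉ v.asIdeal ∧ M < nv v ∧ dsc q.1 q.2 ∈ v.asIdeal ^ 2}.ncard : ℝ) ≤
      (C₁ / M + ε * c / 4) * vol ρ ^ 5 + (C₂ / M + ε * c / 4) * vol ρ ^ 5 := by
    refine le_trans (Nat.cast_le.2 hn) ?_
    push_cast
    exact add_le_add (k1 ρ hr2) (k2 ρ hr3)
  have h4 : (C₁ / M + ε * c / 4) * vol ρ ^ 5 + (C₂ / M + ε * c / 4) * vol ρ ^ 5 =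
      ((C₁ + C₂) / M + ε * c / 2) * vol ρ ^ 5 := by ring
  rw [h4] at hn'
  have h5 : ((C₁ + C₂) / M + ε * c / 2) * vol ρ ^ 5 ≤ (ε * c) * vol ρ ^ 5 :=
    mul_le_mul_of_nonneg_right (by linarith) hV
  have h6 : ε * (c * vol ρ ^ 5) ≤ ε * ((Bx F ρ).ncard : ℝ) := mul_le_mul_of_nonneg_left hlow hε.le
  linarith

end Pool.Agent.Lib.MP_8cb858_nt.PU
end
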