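import Pool.Agent.Lib.MP_8cb858_nt.PR.SpecE
import Pool.Agent.Lib.MP_8cb858_nt.PR.SpecF
import Pool.Agent.Lib.MP_8cb858_nt.PT.SpecF
import Pool.Agent.Lib.MP_8cb858_nt.PR.SpecDN
import Pool.Agent.Lib.MP_8cb858_nt.PF.SpecDN
import Pool.Agent.Lib.MP_8cb858_nt.PU.SpecF
import Pool.Agent.Lib.MP_8cb858_nt.PF.DNU
import Pool.Agent.Lib.MP_8cb858_nt.PF.SpecB

section
/-!
# Module HYP: coordinates in a hyperbolic plane
-/
namespace Pool.Agent.Lib.MP_8cb858_nt.PR

open scoped Classical

namespace HYPM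

variable {M : Type} [CommRing M]

theorem sq_mul_iff {α γ : M} (hγ : IsUnit γ) : IsSquare (α * γ ^ 2) ↔ IsSquare α := by
  obtain ⟨u, rfl⟩ := hγ
  constructor
  · rintro ⟨d, hd⟩
    refine ⟨d * ((u⁻¹ : Mˣ) : M), ?_⟩
    have h1 : (u : M) * ((u⁻¹ : Mˣ) : M) = 1 := u.mul_inv
    calc α = α * ((u : M) * ((u⁻¹ : Mˣ) : M)) ^ 2 := by rw [h1]; ring
      _ = (α * (u : M) ^ 2) * ((u⁻¹ : Mˣ) : M) ^ 2 := by ring
      _ = d * ((u⁻¹ : Mˣ) : M) * (d * ((u⁻¹ : Mˣ) : M)) := by rw [hd]; ring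
  · rintro ⟨d, hd⟩
    exact ⟨d * u, by rw [hd]; ring⟩

variable {V E I : M → Prop}

theorem E_mixed (h : Hyp V E I) (hu : ∀ α, V α → IsUnit α) (hm : ∀ α β, V α → V β → V (α * β))
    {α β : M} (hα : V α) (hβ : V β) (h1 : E α) (h2 : ¬ E β) : ¬ E (α * β) := by
  intro h3
  have h4 := h.c0 α (α * β) hα (hm α β hα hβ) h1 h3
  have e : α * (α * β) = β * α ^ 2 := by ring
  rw [e, (h.inv β α hβ (hu α hα)).1] at h4
  exact h2 h4

theorem he_of {α : M} (h : E α) : he E α = 0 := if_pos h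

theorem he_of_not {α : M} (h : ¬ E α) : he E α = 1 := if_neg h

theorem oneone : (1 : ZMod 2) + 1 = 0 := rfl

theorem one_ne : (1 : ZMod 2) ≠ 0 := by decide

theorem he_mul (h : Hyp V E I) (hu : ∀ α, V α → IsUnit α) (hm : ∀ α β, V α → V β → V (α * β))
    {α β : M} (hα : V α) (hβ : V β) : he E (α * β) = he E α + he E β := by
  by_cases h1 : E α
  · by_cases h2 : E β
    · rw [he_of (h.c0 α β hα hβ h1 h2), he_of h1, he_of h2, add_zero]
    · rw [he_of_not (E_mixed h hu hm hα hβ h1 h2), he_of h1, he_of_not h2, zero_add]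
  · by_cases h2 : E β
    · rw [mul_comm, he_of_not (E_mixed h hu hm hβ hα h2 h1), he_of h2, he_of_not h1, add_zero]
    · rw [he_of (h.c1 α β hα hβ h1 h2), he_of_not h1, he_of_not h2, oneone]

theorem hs_E {α : M} (h : E α) : hs E I α = if IsSquare α then 0 else 1 := if_pos h

theorem hs_not {α : M} (h : ¬ E α) : hs E I α = if I α then 0 else 1 := if_neg h

theorem hs_mixed (h : Hyp V E I) (hu : ∀ α, V α → IsUnit α)
    (hm : ∀ α β, V α → V β → V (α * β)) {α β : M} (hα : V α) (hβ : V β) (h1 : E α)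
    (h2 : ¬ E β) : hs E I (α * β) = hs E I α + hs E I β := by
  have h3 := E_mixed h hu hm hα hβ h1 h2
  have h4 := h.c4 (α * β) β (hm α β hα hβ) hβ h3 h2
  have e : α * β * β = α * β ^ 2 := by ring
  rw [e, sq_mul_iff (hu β hβ)] at h4
  rw [hs_not h3, hs_not h2, hs_E h1]
  by_cases s : IsSquare α
  · rw [if_pos s, zero_add]
    have h5 := h4.2 s
    by_cases i : I β
    · rw [if_pos i, if_pos (h5.2 i)]
    · rw [if_neg i, if_neg (fun h => i (h5.1 h))]
  · rw [if_neg s]
    by_cases i : I β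
    · rw [if_pos i, if_neg (fun h => s (h4.1 ⟨fun _ => i, fun _ => h⟩)), add_zero]
    · by_cases j : I (α * β)
      · rw [if_neg i, if_pos j, oneone]
      · exact absurd (h4.1 ⟨fun x => absurd x j, fun x => absurd x i⟩) s

theorem hs_mul (h : Hyp V E I) (hu : ∀ α, V α → IsUnit α) (hm : ∀ α β, V α → V β → V (α * β))
    {α β : M} (hα : V α) (hβ : V β) : hs E I (α * β) = hs E I α + hs E I β := by
  by_cases h1 : E α
  · by_cases h2 : E β
    · rw [hs_E (h.c0 α β hα hβ h1 h2), hs_E h1, hs_E h2]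
      have key : ∀ γ δ : M, IsUnit γ → IsSquare γ → (IsSquare (γ * δ) ↔ IsSquare δ) := by
        rintro γ δ hγ ⟨d, rfl⟩
        have hd : IsUnit d := isUnit_of_mul_isUnit_left hγ
        have e : d * d * δ = δ * d ^ 2 := by ring
        rw [e, sq_mul_iff hd]
      by_cases s : IsSquare α
      · rw [if_pos s, zero_add]
        exact if_congr (key α β (hu α hα) s) rfl rfl
      · by_cases t : IsSquare β
        · rw [if_pos t, add_zero]
          refine if_congr ?_ rfl rfl
          rw [mul_comm]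
          exact key β α (hu β hβ) t
        · rw [if_neg s, if_neg t, if_pos (h.c2 α β hα hβ h1 h2 s t), oneone]
    · exact hs_mixed h hu hm hα hβ h1 h2
  · by_cases h2 : E β
    · rw [mul_comm, hs_mixed h hu hm hβ hα h2 h1, add_comm]
    · have h3 := h.c4 α β hα hβ h1 h2
      rw [hs_E (h.c1 α β hα hβ h1 h2), hs_not h1, hs_not h2]
      by_cases i : I α
      · by_cases j : I β
        · rw [if_pos i, if_pos j, if_pos (h3.1 ⟨fun _ => j, fun _ => i⟩), add_zero]
        · rw [if_pos i, if_neg j, if_neg (fun s => j ((h3.2 s).1 i)), zero_add]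
      · by_cases j : I β
        · rw [if_neg i, if_pos j, if_neg (fun s => i ((h3.2 s).2 j)), add_zero]
        · rw [if_neg i, if_neg j, if_pos (h3.1 ⟨fun x => absurd x i, fun x => absurd x j⟩), oneone]

theorem he_zero {α : M} : he E α = 0 ↔ E α := by
  by_cases h : E α
  · exact ⟨fun _ => h, fun _ => he_of h⟩
  · rw [he_of_not h]
    exact ⟨fun x => absurd x one_ne, fun x => absurd x h⟩

theorem ite_zero {P : Prop} : (if P then (0 : ZMod 2) else 1) = 0 ↔ P := by
  by_cases h : P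
  · simp [h]
  · simp [h]

end HYPM

open HYPM in
theorem specHYP : SpecHYP := by
  intro M _ V E I h hu hm α β hα hβ
  refine ⟨he_mul h hu hm hα hβ, hs_mul h hu hm hα hβ, ?_, ?_, he_zero, ?_⟩
  · by_cases h1 : E α
    · rw [he_of h1, zero_mul, if_pos (h.c3 α hα h1)]
    · rw [he_of_not h1, one_mul, hs_not h1]
  · rw [he_zero]
    constructor
    · rintro ⟨h1, h2⟩
      rw [hs_E h1, ite_zero] at h2
      exact h2
    · intro h1
      have h2 := h.one α hα h1
      refine ⟨h2, ?_⟩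
      rw [hs_E h2, ite_zero]
      exact h1
  · by_cases h1 : E α
    · rw [hs_E h1, ite_zero]
      tauto
    · rw [hs_not h1, ite_zero]
      constructor
      · intro h2
        exact Or.inr ⟨h1, h2⟩
      · rintro (h2 | h2)
        · exact absurd (h.one α hα h2) h1
        · exact h2.2

end Pool.Agent.Lib.MP_8cb858_nt.PR
end

section
/-!
# MP_8cb858_nt, Poonen-Rains up to epsilon, part E, module RTX (helper45)

If `-D'` is a nonresidue modulo `p`, then `X^3 + A X + B` has a simple root in `ℤ_p`.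
-/
set_option autoImplicit false

namespace Pool.Agent.Lib.MP_8cb858_nt.PR

open Polynomial Pool.Agent.Lib.MP_8cb858_nt.SEL

namespace RTXM

/-- the discriminant identity -/
theorem disc_id {k : Type} [Field k] {a b x y z : k} (hx : x ^ 3 + a * x + b = 0)
    (hy : y ^ 3 + a * y + b = 0) (hz : z ^ 3 + a * z + b = 0) (hxy : x ≠ y) (hyz : y ≠ z)
    (hxz : x ≠ z) : ((x - y) * (y - z) * (z - x)) ^ 2 = -(4 * a ^ 3 + 27 * b ^ 2) := by
  have h1 : x ^ 2 + x * y + y ^ 2 + a = 0 := by
    have : (x - y) * (x ^ 2 + x * y + y ^ 2 + a) = 0 := by linear_combination hx - hy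
    exact (mul_eq_zero.1 this).resolve_left (sub_ne_zero.2 hxy)
  have h2 : x ^ 2 + x * z + z ^ 2 + a = 0 := by
    have : (x - z) * (x ^ 2 + x * z + z ^ 2 + a) = 0 := by linear_combination hx - hz
    exact (mul_eq_zero.1 this).resolve_left (sub_ne_zero.2 hxz)
  have h3 : x + y + z = 0 := by
    have : (y - z) * (x + y + z) = 0 := by linear_combination h1 - h2
    exact (mul_eq_zero.1 this).resolve_left (sub_ne_zero.2 hyz)
  have hz' : z = -x - y := by linear_combination h3
  have ha : a = -(x ^ 2 + x * y + y ^ 2) := by linear_combination h1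
  have hb : b = x * y * (x + y) := by
    rw [ha] at hx
    linear_combination hx
  rw [hz', ha, hb]
  ring

/-- A cubic `x^3 + a x + b` over `F_p` without roots has square discriminant. -/
theorem square_of_no_root (p : ℕ) [Fact p.Prime] (A B : ℤ)
    (h : ∀ x : ZMod p, x ^ 3 + A * x + B ≠ 0) : IsSquare ((-dsc A B : ℤ) : ZMod p) := by
  set f := fpol (ZMod p) A B with hf
  have hev : ∀ x : ZMod p, f.eval x = x ^ 3 + A * x + B := fun x => by
    have := eval₂_fpol A B (RingHom.id (ZMod p)) x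
    rwa [eval₂_id] at this
  have hmon : f.Monic := fpol_monic _ A B
  have hnd : f.natDegree = 3 := by
    rw [hf, fpol]
    compute_degree!
  have hirr : Irreducible f := by
    refine irreducible_of_degree_le_three_of_not_isRoot ?_ fun x hx => h x ?_
    · rw [hnd]; simp
    · rw [← hev]; exact hx
  have : Fact (Irreducible f) := ⟨hirr⟩
  let k := AdjoinRoot f
  let φ : ZMod p →+* k := AdjoinRoot.of f
  have hchar : CharP k p := charP_of_injective_ringHom φ.injective p
  have : Module.Finite (ZMod p) k := hmon.finite_adjoinRoot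
  have : Finite k := Module.finite_of_finite (ZMod p)
  have : Fintype k := Fintype.ofFinite k
  have hcard : Fintype.card k = p ^ 3 := by
    have h1 : Module.finrank (ZMod p) k = 3 := by
      have := (AdjoinRoot.powerBasis hmon.ne_zero).finrank
      rw [AdjoinRoot.powerBasis_dim, hnd] at this
      exact this
    have h2 := Module.card_eq_pow_finrank (K := ZMod p) (V := k)
    rw [h1, ZMod.card] at h2
    exact h2
  let r : k := AdjoinRoot.root f
  have hr : r ^ 3 + (A : k) * r + (B : k) = 0 := by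
    have h1 := AdjoinRoot.eval₂_root f
    rw [hf, eval₂_fpol] at h1
    exact h1
  let F : k →+* k := frobenius k p
  have hFinj : Function.Injective F := F.injective
  have hF3 : F (F (F r)) = r := by
    show ((r ^ p) ^ p) ^ p = r
    have h1 := FiniteField.pow_card r
    rw [hcard] at h1
    rw [← pow_mul, ← pow_mul, show p * (p * p) = p ^ 3 by ring]
    exact h1
  have hfix : ∀ x : k, F x = x → ∃ c : ZMod p, φ c = x := by
    intro x hx
    have h1 : x ∈ (⊥ : Subfield k) := (Subfield.mem_bot_iff_pow_eq_self k p).2 hx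
    rw [← ZMod.fieldRange_castHom_eq_bot p] at h1
    obtain ⟨c, hc⟩ := h1
    exact ⟨c, by rw [← hc]; exact congrArg (fun g : ZMod p →+* k => g c) (Subsingleton.elim _ _)⟩
  have hr1 : F r ^ 3 + (A : k) * F r + (B : k) = 0 := by
    have := congrArg F hr
    simpa using this
  have hr2 : F (F r) ^ 3 + (A : k) * F (F r) + (B : k) = 0 := by
    have := congrArg F hr1
    simpa using this
  have hne : F r ≠ r := by
    intro h1
    obtain ⟨c, hc⟩ := hfix r h1
    refine h c (φ.injective ?_)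
    rw [map_zero, ← hr, ← hc]
    simp
  have hne2 : F (F r) ≠ F r := fun h1 => hne (hFinj h1)
  have hne3 : r ≠ F (F r) := by
    intro h1
    have := congrArg F h1
    rw [hF3] at this
    exact hne this
  have hd := disc_id hr hr1 hr2 hne.symm hne2.symm hne3
  obtain ⟨c, hc⟩ := hfix ((r - F r) * (F r - F (F r)) * (F (F r) - r)) (by
    rw [map_mul, map_mul, map_sub, map_sub, map_sub, hF3]
    ring)
  refine ⟨c, φ.injective ?_⟩
  rw [map_mul, hc, ← pow_two, hd, dsc]
  have h4 : φ 4 = 4 := map_ofNat φ 4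
  have h27 : φ 27 = 27 := map_ofNat φ 27
  push_cast
  simp only [map_neg, map_add, map_mul, map_pow, map_intCast, h4, h27]

end RTXM

open RTXM in
/-- **RTX** -/
theorem specRTX : SpecRTX := by
  intro p _ A B hp hns
  obtain ⟨x, hx⟩ : ∃ x : ZMod p, x ^ 3 + A * x + B = 0 := by
    by_contra hcon
    exact hns (square_of_no_root p A B (fun x hx => hcon ⟨x, hx⟩))
  have hx' : 3 * x ^ 2 + (A : ZMod p) ≠ 0 := by
    intro h0
    apply hns
    have hA : (A : ZMod p) = -3 * x ^ 2 := by linear_combination h0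
    have hB : (B : ZMod p) = 2 * x ^ 3 := by
      rw [hA] at hx
      linear_combination hx
    refine ⟨0, ?_⟩
    rw [dsc]
    push_cast
    rw [hA, hB]
    ring
  have hs : Function.Surjective (PadicInt.toZMod (p := p)) := ZMod.ringHom_surjective _
  have hloc : IsLocalHom (PadicInt.toZMod (p := p)) := IsLocalHom.of_surjective _ hs
  obtain ⟨a, ha⟩ := hs x
  have hunit : ∀ y : ℤ_[p], IsUnit y ↔ PadicInt.toZMod y ≠ 0 := fun y => by
    rw [← isUnit_map_iff (PadicInt.toZMod (p := p)), isUnit_iff_ne_zero]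
  have hF : ∀ y : ℤ_[p], aeval y (fpol ℤ_[p] A B) = y ^ 3 + A * y + B := fun y => by
    rw [aeval_def, eval₂_fpol]
  have hF' : ∀ y : ℤ_[p], aeval y (derivative (fpol ℤ_[p] A B)) = 3 * y ^ 2 + A := fun y => by
    simp only [fpol, derivative_X_pow, derivative_C_mul, derivative_X,
      derivative_C, map_add, map_mul, map_pow, aeval_X, aeval_C, map_natCast, mul_one, add_zero,
      Algebra.algebraMap_self, RingHom.id_apply]
    norm_num
  have h1 : IsUnit (aeval a (derivative (fpol ℤ_[p] A B))) := by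
    rw [hF', hunit, map_add, map_mul, map_pow, ha, map_intCast, map_ofNat]
    exact hx'
  have h2 : ‖aeval a (fpol ℤ_[p] A B)‖ < 1 := by
    rw [hF]
    refine lt_of_le_of_ne (PadicInt.norm_le_one _) fun h3 => ?_
    have h4 := (hunit _).1 (PadicInt.isUnit_iff.2 h3)
    apply h4
    simpa [ha] using hx
  have h3 : ‖aeval a (derivative (fpol ℤ_[p] A B))‖ = 1 := PadicInt.isUnit_iff.1 h1
  obtain ⟨z, hz1, -, hz3, -⟩ := hensels_lemma (F := fpol ℤ_[p] A B) (a := a) (by
    rw [h3, one_pow]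
    exact h2)
  refine ⟨z, by rw [← hF]; exact hz1, ?_⟩
  rw [← hF', PadicInt.isUnit_iff, hz3, h3]

end Pool.Agent.Lib.MP_8cb858_nt.PR
end

section
/-!
# MP_8cb858_nt, Poonen-Rains up to epsilon, block F, module FRT (helper43)

Cubics over `ℤ/p` with nonsquare discriminant: exactly one root, and it is simple.
-/
set_option autoImplicit false

namespace Pool.Agent.Lib.MP_8cb858_nt.PR

namespace FRTM

variable {p : ℕ} [Fact p.Prime]

theorem root_ex (a b : ZMod p) (h : ¬ IsSquare (-(4 * a ^ 3 + 27 * b ^ 2))) :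
    ∃ t : ZMod p, t ^ 3 + a * t + b = 0 := by
  by_contra hcon
  obtain ⟨A, rfl⟩ := ZMod.intCast_surjective a
  obtain ⟨B, rfl⟩ := ZMod.intCast_surjective b
  apply h
  have := RTXM.square_of_no_root p A B (fun x hx => hcon ⟨x, hx⟩)
  rw [dsc] at this
  push_cast at this
  convert this using 1

theorem disc_root {a b t : ZMod p} (ht : t ^ 3 + a * t + b = 0) :
    -(4 * a ^ 3 + 27 * b ^ 2) = (3 * t ^ 2 + a) ^ 2 * -(3 * t ^ 2 + 4 * a) := by
  have hb : b = -t ^ 3 - a * t := by linear_combination ht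
  rw [hb]
  ring

end FRTM

open FRTM in
/-- **FRT** -/
theorem specFRT : SpecFRT := by
  intro p _ a b _ h
  refine ⟨root_ex a b h, ?_, ?_⟩
  · intro t s ht hs
    by_contra hne
    have h1 : s ^ 2 + s * t + t ^ 2 + a = 0 := by
      have h2 : (s - t) * (s ^ 2 + s * t + t ^ 2 + a) = 0 := by linear_combination hs - ht
      exact (mul_eq_zero.1 h2).resolve_left (sub_ne_zero.2 (Ne.symm hne))
    apply h
    refine ⟨(3 * t ^ 2 + a) * (2 * s + t), ?_⟩
    rw [disc_root ht]
    linear_combination (-4 * (3 * t ^ 2 + a) ^ 2) * h1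
  · intro t ht h0
    apply h
    refine ⟨0, ?_⟩
    rw [disc_root ht, h0]
    ring

end Pool.Agent.Lib.MP_8cb858_nt.PR
end

section
/-!
# Module TYZ: the numbers of residue classes of the types modulo `p`
-/
namespace Pool.Agent.Lib.MP_8cb858_nt.PT

namespace TYZM

/-- The pairs with vanishing discriminant. -/
theorem zero_set {k : Type} [Field k] (h2 : (2 : k) ≠ 0) (h3 : (3 : k) ≠ 0) :
    {q : k × k | 4 * q.1 ^ 3 + 27 * q.2 ^ 2 = 0} =
      (fun t : k => (-3 * t ^ 2, 2 * t ^ 3)) '' Set.univ := by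
  ext ⟨a, b⟩
  simp only [Set.mem_setOf_eq, Set.image_univ, Set.mem_range, Prod.mk.injEq]
  constructor
  · intro h
    by_cases ha : a = 0
    · subst ha
      have hb : b = 0 := by
        have h1 : (3 : k) ^ 3 * b ^ 2 = 0 := by linear_combination h
        exact pow_eq_zero_iff two_ne_zero |>.mp
          ((mul_eq_zero.mp h1).resolve_left (pow_ne_zero 3 h3))
      exact ⟨0, by ring, by rw [hb]; ring⟩
    · refine ⟨-3 * b / (2 * a), ?_, ?_⟩
      · have h4 : (4 : k) ≠ 0 := by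
          have : (4 : k) = 2 * 2 := by norm_num
          rw [this]
          exact mul_ne_zero h2 h2
        rw [div_pow, ← mul_div_assoc, div_eq_iff (pow_ne_zero 2 (mul_ne_zero h2 ha))]
        linear_combination -h
      · rw [div_pow, ← mul_div_assoc, div_eq_iff (pow_ne_zero 3 (mul_ne_zero h2 ha))]
        linear_combination (-2 * b) * h
  · rintro ⟨t, rfl, rfl⟩
    ring

theorem inj {k : Type} [Field k] (h2 : (2 : k) ≠ 0) (h3 : (3 : k) ≠ 0) :
    Function.Injective (fun t : k => (-3 * t ^ 2, 2 * t ^ 3)) := by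
  intro t s h
  simp only [Prod.mk.injEq] at h
  have e2 : t ^ 2 = s ^ 2 := by
    have h4 : (3 : k) * (t ^ 2 - s ^ 2) = 0 := by linear_combination -h.1
    exact sub_eq_zero.mp ((mul_eq_zero.mp h4).resolve_left h3)
  have e3 : t ^ 3 = s ^ 3 := mul_left_cancel₀ h2 h.2
  by_cases ht : t = 0
  · subst ht
    have : s ^ 2 = 0 := by rw [← e2]; ring
    exact (pow_eq_zero_iff two_ne_zero |>.mp this).symm
  · have h5 : t ^ 2 * (t - s) = 0 := by linear_combination e3 - s * e2
    exact sub_eq_zero.mp ((mul_eq_zero.mp h5).resolve_left (pow_ne_zero 2 ht))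

end TYZM

theorem specTYZ (hDNQ : PR.SpecDNQ) (hDNP : PF.SpecDNP) : SpecTYZ := by
  intro p hp h5
  haveI : Fact p.Prime := ⟨hp⟩
  have hc : ∀ n : ℕ, 0 < n → n < p → ((n : ℕ) : ZMod p) ≠ 0 := by
    intro n hn hnp h0
    rw [ZMod.natCast_eq_zero_iff] at h0
    exact absurd (Nat.le_of_dvd hn h0) (by omega)
  have h2 : (2 : ZMod p) ≠ 0 := by exact_mod_cast hc 2 (by norm_num) (by omega)
  have h3 : (3 : ZMod p) ≠ 0 := by exact_mod_cast hc 3 (by norm_num) (by omega)
  obtain ⟨d1, d2, -⟩ := hDNP (ZMod p)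
  have hcard : Nat.card (ZMod p) = p := by rw [Nat.card_eq_fintype_card, ZMod.card]
  refine ⟨hDNQ p h5, ?_, ?_, ?_⟩
  · have := d2 h3
    rw [hcard] at this
    exact this
  · rw [TYZM.zero_set h2 h3, Set.ncard_image_of_injective _ (TYZM.inj h2 h3), Set.ncard_univ,
      hcard]
  · rintro ⟨a, b⟩ h
    simp only at h
    refine ⟨?_, ?_⟩
    · obtain ⟨A, rfl⟩ := ZMod.intCast_surjective a
      obtain ⟨B, rfl⟩ := ZMod.intCast_surjective b
      have h1 := PR.RTXM.square_of_no_root p A B h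
      have h4 : (((-PR.dsc A B : ℤ)) : ZMod p) = -(4 * (A : ZMod p) ^ 3 + 27 * (B : ZMod p) ^ 2) := by
        unfold PR.dsc
        push_cast
        ring
      rw [h4] at h1
      exact h1
    · intro h0
      obtain ⟨x, hx⟩ := d1 a b h0
      exact h x hx

end Pool.Agent.Lib.MP_8cb858_nt.PT
end

section
/-!
# Module TYZ: the types modulo `v`
-/
namespace Pool.Agent.Lib.MP_8cb858_nt.PU

open Polynomial NumberField IsDedekindDomain Pool.Agent.Lib.MP_8cb858_nt.SEL Matrix
open Pool.Agent.Lib.MP_8cb858_nt.PF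
open scoped Classical WithZero

namespace TYZM

variable {F : Type} [Field F] [NumberField F]

lemma hz (v : Pl F) (x : 𝓞 F) : x ∈ v.asIdeal ↔ Ideal.Quotient.mk v.asIdeal x = 0 :=
  Ideal.Quotient.eq_zero_iff_mem.symm

lemma two_ne (v : Pl F) (h6 : (6 : 𝓞 F) ∉ v.asIdeal) : (2 : 𝓞 F ⧸ v.asIdeal) ≠ 0 := by
  intro h
  apply h6
  have e : (6 : 𝓞 F) = 3 * 2 := by norm_num
  rw [e]
  exact Ideal.mul_mem_left _ _ ((hz v 2).2 (by rw [DNIM.num_mk]; exact h))

lemma three_ne (v : Pl F) (h6 : (6 : 𝓞 F) ∉ v.asIdeal) : (3 : 𝓞 F ⧸ v.asIdeal) ≠ 0 := by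
  intro h
  apply h6
  have e : (6 : 𝓞 F) = 2 * 3 := by norm_num
  rw [e]
  exact Ideal.mul_mem_left _ _ ((hz v 3).2 (by rw [DNIM.num_mk]; exact h))

lemma hdsc (v : Pl F) (a b : 𝓞 F) : Ideal.Quotient.mk v.asIdeal (dsc a b) =
    4 * (Ideal.Quotient.mk v.asIdeal a) ^ 3 + 27 * (Ideal.Quotient.mk v.asIdeal b) ^ 2 := by
  unfold dsc
  rw [map_add, map_mul, map_mul, map_pow, map_pow, DNIM.num_mk, DNIM.num_mk]

lemma hcub (v : Pl F) (a b x : 𝓞 F) : Ideal.Quotient.mk v.asIdeal (x ^ 3 + a * x + b) =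
    (Ideal.Quotient.mk v.asIdeal x) ^ 3 +
      Ideal.Quotient.mk v.asIdeal a * Ideal.Quotient.mk v.asIdeal x +
      Ideal.Quotient.mk v.asIdeal b := by
  rw [map_add, map_add, map_mul, map_pow]

lemma e12 (v : Pl F) (E : 𝓞 F × 𝓞 F) : Y12 v E ↔ rd v.asIdeal E ∈ C12 v := by
  have hsurj : Function.Surjective (Ideal.Quotient.mk v.asIdeal) := Ideal.Quotient.mk_surjective
  constructor
  · rintro h ⟨r, hr⟩
    obtain ⟨y, rfl⟩ := hsurj r
    apply h y
    rw [hz, map_add, map_pow, hdsc]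
    change -(4 * (Ideal.Quotient.mk v.asIdeal E.1) ^ 3 + 27 * (Ideal.Quotient.mk v.asIdeal E.2) ^ 2) =
      Ideal.Quotient.mk v.asIdeal y * Ideal.Quotient.mk v.asIdeal y at hr
    rw [pow_two, ← hr]
    ring
  · intro h x hx
    rw [hz, map_add, map_pow, hdsc] at hx
    apply h
    refine ⟨Ideal.Quotient.mk v.asIdeal x, ?_⟩
    change -(4 * (Ideal.Quotient.mk v.asIdeal E.1) ^ 3 + 27 * (Ideal.Quotient.mk v.asIdeal E.2) ^ 2) =
      Ideal.Quotient.mk v.asIdeal x * Ideal.Quotient.mk v.asIdeal x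
    linear_combination -hx

lemma e3 (v : Pl F) (E : 𝓞 F × 𝓞 F) : Y3 v E ↔ rd v.asIdeal E ∈ C3 v := by
  have hsurj : Function.Surjective (Ideal.Quotient.mk v.asIdeal) := Ideal.Quotient.mk_surjective
  constructor
  · intro h x
    obtain ⟨y, rfl⟩ := hsurj x
    have := h y
    rw [hz, hcub] at this
    exact this
  · intro h x hx
    rw [hz, hcub] at hx
    exact h _ hx

lemma e0 (v : Pl F) (E : 𝓞 F × 𝓞 F) : dsc E.1 E.2 ∈ v.asIdeal ↔ rd v.asIdeal E ∈ C0 v := by
  rw [hz, hdsc]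
  rfl

lemma x3 (hSTF : SpecSTF) (hDNP : SpecDNP) (v : Pl F) : ∀ q ∈ C3 v, q ∉ C12 v ∧ q ∉ C0 v := by
  intro q hq
  have hmax : v.asIdeal.IsMaximal := v.isMaximal
  have hfin := DNIM.finite_k v
  let _ : Field (𝓞 F ⧸ v.asIdeal) := Ideal.Quotient.field v.asIdeal
  refine ⟨fun h => ?_, fun h => ?_⟩
  · obtain ⟨x, hx⟩ := hSTF (𝓞 F ⧸ v.asIdeal) q.1 q.2 h
    exact hq x hx
  · obtain ⟨x, hx⟩ := (hDNP (𝓞 F ⧸ v.asIdeal)).1 q.1 q.2 h
    exact hq x hx

end TYZM

open TYZM in
/-- **TYZ** -/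
theorem specTYZ (hDNQ : PF.SpecDNQ) (hDNP : PF.SpecDNP) (hDNV : PF.SpecDNV) (hSTF : PF.SpecSTF) : SpecTYZ where
  n12 := by
    intro F _ _ v h6
    have hmax : v.asIdeal.IsMaximal := v.isMaximal
    have hfin := DNIM.finite_k v
    let _ : Field (𝓞 F ⧸ v.asIdeal) := Ideal.Quotient.field v.asIdeal
    have h := hDNQ (𝓞 F ⧸ v.asIdeal) (two_ne v h6) (three_ne v h6)
    rw [DNIM.card_k] at h
    exact h
  n3 := by
    intro F _ _ v h6
    have hmax : v.asIdeal.IsMaximal := v.isMaximal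
    have hfin := DNIM.finite_k v
    let _ : Field (𝓞 F ⧸ v.asIdeal) := Ideal.Quotient.field v.asIdeal
    have h := (hDNP (𝓞 F ⧸ v.asIdeal)).2.1 (three_ne v h6)
    rw [DNIM.card_k] at h
    exact h
  n0 := by
    intro F _ _ v h6
    have hmax : v.asIdeal.IsMaximal := v.isMaximal
    have hfin := DNIM.finite_k v
    let _ : Field (𝓞 F ⧸ v.asIdeal) := Ideal.Quotient.field v.asIdeal
    have h := PT.TYZM.zero_set (k := 𝓞 F ⧸ v.asIdeal) (two_ne v h6) (three_ne v h6)
    have h2 : (C0 v).ncard = ({q : (𝓞 F ⧸ v.asIdeal) × (𝓞 F ⧸ v.asIdeal) | 4 * q.1 ^ 3 + 27 * q.2 ^ 2 = 0}).ncard := rfl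
    rw [h2, h, Set.ncard_image_of_injective _ (PT.TYZM.inj (two_ne v h6) (three_ne v h6)), Set.ncard_univ,
      DNIM.card_k]
  x3 := fun F _ _ v _ => x3 hSTF hDNP v
  e12 := fun F _ _ v E => e12 v E
  e3 := fun F _ _ v E => e3 v E
  e0 := fun F _ _ v E => e0 v E
  t0 := by
    intro F _ _ v E
    unfold ty
    split_ifs with h1 h2 h3 <;> simp [h1]
  t1 := by
    intro F _ _ v E h6
    have hx := x3 hSTF hDNP v (rd v.asIdeal E)
    rw [← e3, ← e12, ← e0] at hx
    unfold ty
    split_ifs with h1 h2 h3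
    · constructor
      · intro h
        exact absurd h (by simp)
      · exact fun h => absurd h1 (hx h).1
    · simp [h2]
    · simp [h2]
    · simp [h2]
  t3 := by
    intro F _ _ v E h
    unfold ty at h
    split_ifs at h with h1 h2 h3 <;> first | exact h3 | omega
  t2 := by
    intro F _ _ v E h
    unfold ty at h
    split_ifs at h with h1 h2 h3 <;> first | exact h3 | omega
  five := fun F _ _ v h6 => (hDNV F).2.2.2.2.2.1 v h6

end Pool.Agent.Lib.MP_8cb858_nt.PU
end
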