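import Pool.Agent.Lib.MP_8cb858_nt.PF.SpecO
import Pool.Agent.Lib.MP_8cb858_nt.PF.RF.Spec
import Pool.Agent.Lib.MP_8cb858_nt.PF.AllD
import Pool.Agent.Lib.MP_8cb858_nt.PU.TYZ
import Pool.Agent.Lib.MP_8cb858_nt.PR.LAL
import Pool.Agent.Lib.MP_8cb858_nt.PR.LAW
import Pool.Agent.Lib.MP_8cb858_nt.PU.TLZ
import Pool.Agent.Lib.MP_8cb858_nt.PF.RF.All
import Pool.Agent.Lib.MP_8cb858_nt.PT.PLQ
import Pool.Agent.Lib.MP_8cb858_nt.PF.TOC
import Pool.Agent.Lib.MP_8cb858_nt.PF.BND
import Pool.Agent.Lib.MP_8cb858_nt.PF.SGL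
import Pool.Agent.Lib.MP_8cb858_nt.PU.KRH
import Pool.Agent.Lib.MP_8cb858_nt.PV.UPB
import Pool.Agent.Lib.MP_8cb858_nt.PF.DNU
import Pool.Agent.Lib.MP_8cb858_nt.PF.DNK
import Pool.Agent.Lib.MP_8cb858_nt.PF.DNP
import Pool.Agent.Lib.MP_8cb858_nt.PF.TWT
import Pool.Agent.Lib.MP_8cb858_nt.PV.TWX
import Pool.Agent.Lib.MP_8cb858_nt.PF.DNZ
import Pool.Agent.Lib.MP_8cb858_nt.PF.EPC
import Pool.Agent.Lib.MP_8cb858_nt.PF.FTRI
import Pool.Agent.Lib.MP_8cb858_nt.PV.LWA
import Pool.Agent.Lib.MP_8cb858_nt.PF.FATT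
import Pool.Agent.Lib.MP_8cb858_nt.PT.MLC
import Pool.Agent.Lib.MP_8cb858_nt.PF.FI1
import Pool.Agent.Lib.MP_8cb858_nt.PU.MZ2
import Pool.Agent.Lib.MP_8cb858_nt.PF.FL2
import Pool.Agent.Lib.MP_8cb858_nt.PU.MMA
import Pool.Agent.Lib.MP_8cb858_nt.PF.LYR
import Pool.Agent.Lib.MP_8cb858_nt.PF.FRD
import Pool.Agent.Lib.MP_8cb858_nt.PF.FSQ
import Pool.Agent.Lib.MP_8cb858_nt.PF.HNS
import Pool.Agent.Lib.MP_8cb858_nt.PF.SQL
import Pool.Agent.Lib.MP_8cb858_nt.PF.RF.SQV
import Pool.Agent.Lib.MP_8cb858_nt.PF.NFC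
import Pool.Agent.Lib.MP_8cb858_nt.PF.POP
import Pool.Agent.Lib.MP_8cb858_nt.PF.PRM
import Pool.Agent.Lib.MP_8cb858_nt.PF.SUI
import Pool.Agent.Lib.MP_8cb858_nt.PF.SCT
import Pool.Agent.Lib.MP_8cb858_nt.PF.SEJ
import Pool.Agent.Lib.MP_8cb858_nt.PF.SEM
import Pool.Agent.Lib.MP_8cb858_nt.PF.SpecDN
import Pool.Agent.Lib.MP_8cb858_nt.PF.TWD
import Pool.Agent.Lib.MP_8cb858_nt.PF.UNG
import Pool.Agent.Lib.MP_8cb858_nt.PF.VCT
import Pool.Agent.Lib.MP_8cb858_nt.PT.SpecE
import Pool.Agent.Lib.MP_8cb858_nt.PU.SpecR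

section
/-!
# REC: reciprocity for the ternary forms of classes, over number fields
-/
namespace Pool.Agent.Lib.MP_8cb858_nt.PF

open Matrix NumberField IsDedekindDomain

namespace RECM

variable {K : Type} [Field K]

/-- The Gram matrix of the form `cf 2 (α ξ^2)`, `α = x + y θ + z θ^2`. -/
def gram (a b x y z : K) : Matrix (Fin 3) (Fin 3) K :=
  !![z, y, x - a * z; y, x - a * z, -b * z - a * y; x - a * z, -b * z - a * y,
    -b * y - a * (x - a * z)]

lemma gram_symm (a b x y z : K) : (gram a b x y z).IsSymm := by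
  ext i j
  fin_cases i <;> fin_cases j <;> rfl

lemma gram_map {F : Type} [Field F] (φ : F →+* K) (a b x y z : F) :
    (gram a b x y z).map φ = gram (φ a) (φ b) (φ x) (φ y) (φ z) := by
  unfold gram
  ext i j
  fin_cases i <;> fin_cases j <;> simp

lemma gram_det (hNRM : SpecNRM) (a b x y z : K) :
    (gram a b x y z).det = -Algebra.norm K (el a b x y z) := by
  rw [hNRM.frm, gram, Matrix.det_fin_three]
  simp only [Matrix.of_apply, Matrix.cons_val', Matrix.cons_val_zero, Matrix.cons_val_one,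
    Matrix.cons_val, Matrix.cons_val_fin_one]
  ring

lemma iso_gram (hCOO : SpecCOO) (a b x y z : K) :
    Iso (el a b x y z) ↔ RF.IsoM (gram a b x y z) := by
  have hval : ∀ v : Fin 3 → K, cf 2 (el a b x y z * (el a b (v 0) (v 1) (v 2)) ^ 2) =
      v ⬝ᵥ (gram a b x y z).mulVec v := by
    intro v
    rw [sq, hCOO.mul, hCOO.mul, (hCOO.co _ _ _).2.2]
    simp only [dotProduct, Matrix.mulVec, Fin.sum_univ_three, gram, Matrix.of_apply,
      Matrix.cons_val', Matrix.cons_val_zero, Matrix.cons_val_one,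
      Matrix.cons_val_fin_one, Matrix.cons_val]
    ring
  unfold RF.IsoM
  constructor
  · rintro ⟨ξ, hξ, h0⟩
    refine ⟨![cf 0 ξ, cf 1 ξ, cf 2 ξ], ?_, ?_⟩
    · intro h
      apply hξ
      have e0 := congrFun h 0
      have e1 := congrFun h 1
      have e2 := congrFun h 2
      simp at e0 e1 e2
      rw [hCOO.ext ξ, e0, e1, e2]
      simp [el]
    · rw [← hval]
      have := hCOO.ext ξ
      simp only [Matrix.cons_val_zero, Matrix.cons_val_one, Matrix.cons_val]
      rw [← this]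
      exact h0
  · rintro ⟨v, hv, h0⟩
    refine ⟨el a b (v 0) (v 1) (v 2), ?_, ?_⟩
    · intro h
      apply hv
      have h0' : el a b (v 0) (v 1) (v 2) = el a b (0 : K) 0 0 := by
        rw [h]; simp [el]
      have c1 := hCOO.co (a := a) (b := b) (v 0) (v 1) (v 2)
      have c2 := hCOO.co (a := a) (b := b) (0 : K) 0 0
      ext i
      fin_cases i
      · exact c1.1.symm.trans (by rw [h0']; exact c2.1)
      · exact c1.2.1.symm.trans (by rw [h0']; exact c2.2.1)
      · exact c1.2.2.symm.trans (by rw [h0']; exact c2.2.2)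
    · rw [hval]; exact h0

lemma iso_up (hCOO : SpecCOO) {F : Type} [Field F] (K : Type) [Field K] [Algebra F K]
    (a b x y z : F) : Iso (up K (el a b x y z)) ↔
      RF.IsoM ((gram a b x y z).map (algebraMap F K)) := by
  have hup : up K (el a b x y z) = el (algebraMap F K a) (algebraMap F K b) (algebraMap F K x)
      (algebraMap F K y) (algebraMap F K z) := by
    unfold up
    rw [hCOO.upv]
  rw [hup, gram_map]
  exact iso_gram hCOO _ _ _ _ _

/-- The version with a general family of primes. -/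
theorem main (hCOO : SpecCOO) (hNRM : SpecNRM) (hR : RF.SpecRECF.{0}) (F : Type) [Field F]
    [NumberField F] (a b : F) (α : Lk a b) (Q : Finset (HeightOneSpectrum (𝓞 F)))
    (hα : IsUnit α)
    (hQ : ∀ v ∈ Q, (nv v).Prime ∧ nv v % 4 = 1 ∧ (nv v : 𝓞 F) ∉ v.asIdeal ^ 2)
    (hinj : ∀ v ∈ Q, ∀ w ∈ Q, nv v = nv w → v = w)
    (hfin : ∀ v : HeightOneSpectrum (𝓞 F), v ∉ Q → Iso (up (v.adicCompletion F) α))
    (hinf : ∀ v : InfinitePlace F, Iso (up v.Completion α)) :
    Even {v : HeightOneSpectrum (𝓞 F) | ¬ Iso (up (v.adicCompletion F) α)}.ncard := by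
  have hN : Algebra.norm F α ≠ 0 := ((hNRM.unt α).1 hα).ne_zero
  rw [hCOO.ext α] at hN hfin hinf ⊢
  set x := cf 0 α
  set y := cf 1 α
  set z := cf 2 α
  have hdet : (gram a b x y z).det ≠ 0 := by
    rw [gram_det hNRM]; exact neg_ne_zero.2 hN
  simp only [iso_up hCOO] at hfin hinf ⊢
  refine hR F (gram a b x y z) (Q : Set (HeightOneSpectrum (𝓞 F))) nv (gram_symm a b x y z) hdet
    Q.finite_toSet ?_ ?_ ?_ hinf
  · intro v hv
    obtain ⟨h1, h2, h3⟩ := hQ v hv
    exact ⟨h1, h2, rfl, h3⟩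
  · intro v hv w hw h
    exact hinj v hv w hw h
  · intro v hv
    exact hfin v hv

end RECM

open scoped Classical in
/-- **REC.** -/
theorem specREC (hCOO : SpecCOO) (hNRM : SpecNRM) (hR : RF.SpecRECF.{0}) : SpecREC := by
  intro F _ _ a b α Q _ hα hQ hinj hfin hinf
  have h := RECM.main hCOO hNRM hR F a b α Q hα.1 hQ hinj hfin hinf
  have e : {v : HeightOneSpectrum (𝓞 F) | ¬ Iso (up (v.adicCompletion F) α)} =
      ((Q.filter (fun v => ¬ Iso (up (v.adicCompletion F) α)) :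
        Finset (HeightOneSpectrum (𝓞 F))) : Set (HeightOneSpectrum (𝓞 F))) := by
    ext v
    rw [Finset.mem_coe, Finset.mem_filter]
    constructor
    · intro hv
      refine ⟨?_, hv⟩
      by_contra hvQ
      exact hv (hfin v hvQ)
    · intro hv
      exact hv.2
  rw [e, Set.ncard_coe_finset] at h
  exact h

end Pool.Agent.Lib.MP_8cb858_nt.PF
end

section
/-!
# MP_8cb858_nt, phase 2: all Specs without hypotheses

Generated from the signatures of the modules `specXXX`.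
-/
namespace Pool.Agent.Lib.MP_8cb858_nt.PF.All

theorem hADJ : SpecADJ := specADJ hCOO hNRM

theorem hAFI : SpecAFI := specAFI hCOO hNRM

theorem hBOX : SpecBOX := specBOX

theorem hCHB : SpecCHB := specCHB

theorem hCLK : SpecCLK := specCLK

theorem hCN1 : SpecCN1 := specCN1

theorem hDNA : SpecDNA := specDNA

theorem hDNB : SpecDNB := specDNB

theorem hDNC : SpecDNC := specDNC

theorem hDNF : SpecDNF := specDNF

theorem hDNK : SpecDNK := specDNK

theorem hDNP : SpecDNP := specDNP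

theorem hDNS : SpecDNS := specDNS hDNA

theorem hDNV : SpecDNV := specDNV

theorem hDNZ : SpecDNZ := specDNZ

theorem hENG : SpecENG := specENG

theorem hEVF : SpecEVF := specEVF hCOO

theorem hFAD : SpecFAD := specFAD

theorem hFATI : SpecFATI := specFATI SEL.hWEI SEL.hPSH

theorem hFATT : SpecFATT := specFATT SEL.hDET PR.specFID

theorem hFCN : SpecFCN := specFCN

theorem hFCON : SpecFCON := specFCON

theorem hFCZ : SpecFCZ := specFCZ PR.specFID

theorem hFFIB : SpecFFIB := specFFIB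

theorem hFHB : SpecFHB := specFHB

theorem hFI1 : SpecFI1 := specFI1 hDNA

theorem hFI2 : SpecFI2 := specFI2 hDNA

theorem hFL1 : SpecFL1 := specFL1 SEL.hEMB SEL.hFXD SEL.hDET

theorem hFMA : SpecFMA := specFMA SEL.hCNL SEL.hBX2

theorem hFORB : SpecFORB := specFORB

theorem hFTRI : SpecFTRI := specFTRI hFCON

theorem hFZ1 : SpecFZ1 := specFZ1 SEL.hINJ

theorem hHLV : SpecHLV := specHLV hCOO

theorem hHNA : SpecHNA := specHNA hCOO

theorem hHNS : SpecHNS := specHNS

theorem hHQ : SpecHQ := specHQ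

theorem hHYF : SpecHYF := specHYF hAFI hINV

theorem hKMF : SpecKML := specKMF hCOO hNRM hHNA hCLK

theorem hLFB : SpecLFB := specLFB hCOO hNRM hADJ

theorem hLIT : SpecLIT := specLIT hCOO hNRM

theorem hLTP : SpecLTP := specLTP hHNS

theorem hLTQ : SpecLTQ := specLTQ hCOO hHNA

theorem hNE1 : SpecNE1 := specNE1

theorem hNFA : SpecNFA := specNFA

theorem hNFB : SpecNFB := specNFB

theorem hNFC : SpecNFC := specNFC hNFB

theorem hNFF : SpecNF := specNFF hNFA hNFB hNFC hLFB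

theorem hPLC : SpecPLC := specPLC

theorem hPRM : SpecPRM := specPRM

theorem hREC : SpecREC := specREC hCOO hNRM RF.All.hRECF

theorem hRTC : SpecRTC := specRTC hHNS

theorem hRTS : SpecRTS := specRTS hHNS

theorem hSAP : SpecSAP := specSAP

theorem hSCL : SpecSCL := specSCL hCOO hNRM

theorem hSDN : SpecSDN := specSDN

theorem hSED : SpecSED := specSED

theorem hSEM : SpecSEM := specSEM

theorem hSFN : SpecSFN := specSFN SEL.hMAIN

theorem hSGL : SpecSGL := specSGL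

theorem hSIR : SpecSIR := specSIR

theorem hSOR : SpecSOR := specSOR hCOO hNRM

theorem hSPG : SpecSPG := specSPG

theorem hSPQ : SpecSPQ := specSPQ hNRM

theorem hSPX : SpecSPX := specSPX

theorem hSQL : SpecSQK := specSQL hHNA

theorem hSRP : SpecSRP := specSRP

theorem hSRR : SpecSRR := specSRR

theorem hSTF : SpecSTF := specSTF

theorem hSUI : SpecSUI := specSUI

theorem hSYS : SpecSYS := specSYS hPLC

theorem hTOC : SpecTOC := specTOC hCOO hNRM

theorem hTOI : SpecTOI := specTOI hTOC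

theorem hTSF : SpecTSF := specTSF

theorem hTWD : SpecTWD := specTWD hCOO

theorem hTWT : SpecTWT := specTWT hCOO hNRM

theorem hUNG : SpecUNG := specUNG hCOO hNRM hLFB hHNA hHQ

theorem hVAL : SpecVAL := specVAL

theorem hBND : SpecBND := specBND hCOO hNRM hVAL hLFB hHNA hSCL hTOC

theorem hCN2 : SpecCN2 := specCN2 hPLC hSYS hBOX

theorem hDNQ : SpecDNQ := specDNQ hSTF

theorem hDNT : SpecDNT := specDNT hDNA hDNV hDNZ

theorem hDNY : SpecDNY := specDNY hDNA hDNV hDNZ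

theorem hDSQ : SpecDSQ := specDSQ hHLV

theorem hEFI : SpecEFI := specEFI hLFB

theorem hEPC : SpecEPC := specEPC hVAL hLFB hHNA hENG

theorem hEVI : SpecEVI := specEVI hSCL hNRM hCOO hLFB

theorem hFAP : SpecFAP := specFAP hNFF

theorem hFC3 : SpecFC3 := specFC3 hFCN hFCZ hFHB hDNP

theorem hFDIA : SpecFDIA := specFDIA hFTRI

theorem hFRD : SpecFRD := specFRD hNFF

theorem hFRT : SpecFRT := specFRT hSTF

theorem hFSQ : SpecFSQ := specFSQ hNFF hHNS

theorem hGCT : SpecGCT := specGCT hHQ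

theorem hIDM : SpecIDM := specIDM hLFB

theorem hIJD : SpecIJD := specIJD hTSF

theorem hITC : SpecITC := specITC hCOO hTOC

theorem hLG1 : SpecLG1 := specLG1 hCOO hNRM hEVF hLFB hVAL hRTS hIDM

theorem hLIC : SpecLIC := specLIC hTOC hTOI hNRM hAFI

theorem hLIR : SpecLIR := specLIR hTOC hTOI hNRM hAFI

theorem hLVF : SpecLV := specLVF hEVI hINV hLFB hUNG hTWT

theorem hLYR : SpecLYR := specLYR hPRM hPLC

theorem hLZF : SpecLZ := specLZF hCOO hNRM hHNA hTWD hAFI

theorem hNVU : SpecNVU := specNVU hVAL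

theorem hRES : SpecRES := specRES hSTF

theorem hRTA : SpecRTA := specRTA hRES hHNS

theorem hSCT : SpecSCT := specSCT hSPG

theorem hSEJ : SpecSEJ := specSEJ hSEM hSED hSPX

theorem hSEV : SpecSEV := specSEV hSAP hSDN hSOR hCOO

theorem hSQS : SpecSQS := specSQS hHNS hRES

theorem hSUE : SpecSUE := specSUE hSUI

theorem hVCT : SpecVCT := specVCT hCOO hNRM hLFB hEVA hHNA hTWT hBND hGCT

theorem hDNI : SpecDNI := specDNI hDNQ hDNP hDNZ

theorem hDNR : SpecDNR := specDNR hDNC hDNV hDNI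

theorem hDNW : SpecDNW := specDNW hDNC hDNI

theorem hEVC : SpecEVC := specEVC hTOC hITC

theorem hEWR : SpecEWR := specEWR hVAL hTOC hEVC hINV

theorem hEWU : SpecEWU := specEWU hVAL hTOC hEVC hINV hNVU

theorem hFEI : SpecFEI := specFEI hFRT PR.specFID

theorem hFL2 : SpecFL2 := specFL2 hNFF hFRD hFATT hFATI hFL1 hFSQ hFEI hFRT hDFI

theorem hFPT : SpecFPT := specFPT hFATT hFL2

theorem hFWW : SpecFWW := specFWW hFEI hFORB PR.specFID hFDIA

theorem hFZ2 : SpecFZ2 := specFZ2 SEL.hCLS hFPT hFAD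

theorem hISE : SpecISE := specISE hRES hTOC hEVC

theorem hISR : SpecISR := specISR hVAL hRES hTOC hTOI hEVC

theorem hISU : SpecISU := specISU hVAL hHNS hTOC hTOI hISE

theorem hKMC : SpecKMC := specKMC hNRM hENG hEFI hEPC hHQ hDSQ hHLV hLZF

theorem hLGF : SpecLG := specLGF hAFI hINV hTWD hKMC hUNG hTWT hLFB hLG1

theorem hLIF : SpecLI := specLIF hLIR hLIC hLIT

theorem hLTN : SpecLTN := specLTN hTOC hEVC hNVU

theorem hRP0 : SpecRP0 := specRP0 hDFI hLZF hLIF hINV hNFF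

theorem hSU : SpecSU := specSU hSIR hSRR hSRP hSUE hSPQ hSPX hSEJ hSCT hSEV

theorem hTWR : SpecTWR := specTWR hHNS hRES hTOC hTOI hSQS hEVC hINV

theorem hTWU : SpecTWU := specTWU hHNS hRES hTOC hTOI hSQS hEVC hEVA hINV

theorem hDNL : SpecDNL := specDNL hDNB hDNK hDNR hDNT hDNY

theorem hDNU : SpecDNU := specDNU hDNA hDNS hDNK hDNW

theorem hFCB : SpecFCB := specFCB hFEI hFWW

theorem hIXF : SpecIX := specIXF hAFI hINV hKMC hVCT hLFB hKMF

theorem hLRF : SpecLR := specLRF hRTA hRTC hTWU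

theorem hLSF : SpecLS := specLSF hRTA hRTC hHYF hEVF hEWU hEWR hTWU hTWR hLGF hAFI hISU hISR

theorem hLTF : SpecLT := specLTF hRTA hLTN hLTP hLTQ hLSF hLZF hAFI hINV hEVF

theorem hDEN : SpecDEN := specDEN hDNF hDNL hDNU

theorem hFAC : SpecFAC := specFAC hNFF hLRF

theorem hFAL : SpecFAL := specFAL hFCB hFC3

theorem hFPB : SpecFPB := specFPB hFFIB hFAL

theorem hHAP : SpecHAP := specHAP PR.specHYP hLSF hINV hNFF hFAP hFAC

theorem hRCE : SpecRCE := specRCE hREC hLIF hLGF hLVF hAFI hINV hADJ hHAP hFAC hFAP hNFF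

theorem hSLC : SpecSLC := specSLC hINV hAFI hLIF hLGF hLTF hLVF hLZF hSQL hEVF hNFF hHAP hFAP hFAC

theorem hTVS : SpecTVS := specTVS hDFI hSLC hEVA hINV hLRF hHAP hFAC hFAP hNFF

theorem hWCT : SpecWCT := specWCT hFAC hFAP hSU hNFF hIXF hLSF hEVF hINV

theorem hELF : SpecELF := specELF hINV hEVF hKMF hLZF hNFF hFAC

theorem hFP1 : SpecFP1 := specFP1 hFI1 hFPB hFAD

theorem hFP2 : SpecFP2 := specFP2 hFI2 hFPB hFAD

theorem hKRN : SpecKRN := specKRN hDFI hSLC hTVS hRP0 hFAC hNE1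

theorem hTRF : SpecTRF := specTRF hSFN hDFI hTVS hHAP hFAP hFAC

theorem hWGR : SpecWGR := specWGR hELF hHAP hRCE hWCT hKRN

theorem hCRD : SpecCRD := specCRD hDFI hSLC hELF hHAP hKRN hRP0 hSFN hFAC hFAP

theorem hFM : SpecFM := hFMA hFZ1 hFZ2 hFP1 hFP2

theorem hFMQ : SpecFMQ := specFMQ hFM hPLC hSYS

theorem hSTW : SpecSTW := specSTW hWGR PR.specLAL hCRD hTVS hDFI hSLC hFAC hNE1

theorem hPOP : SpecPOP := specPOP hTRF hSTW hFMQ hDEN hSGL hCHB hTSF hLYR hSYS PR.specLAW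

theorem hFIN : SpecFIN := specFIN hDEN hSYS hBOX hIJD hCN1 hCN2 hTSF hPOP PR.specLAW

end Pool.Agent.Lib.MP_8cb858_nt.PF.All
end

section
/-!
# RCQ: reciprocity over the rationals, for all finite sets of places
-/
namespace Pool.Agent.Lib.MP_8cb858_nt.PT

open Matrix NumberField IsDedekindDomain
open Pool.Agent.Lib.MP_8cb858_nt.PF
open scoped Classical WithZero

namespace RCQM

/-- Isotropy of a rational form only depends on the field up to isomorphism. -/
lemma isoM_congr (G : Matrix (Fin 3) (Fin 3) ℚ) (K K' : Type) [Field K] [Field K']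
    (φ : ℚ →+* K) (ψ : ℚ →+* K') (e : K ≃+* K') :
    RF.IsoM (G.map φ) ↔ RF.IsoM (G.map ψ) := by
  have hmap : ∀ q : ℚ, e (φ q) = ψ q := by
    intro q
    have : ((e : K →+* K').comp φ) = ψ := Subsingleton.elim _ _
    exact congrArg (fun f : ℚ →+* K' => f q) this
  have key : ∀ x : Fin 3 → K, e (x ⬝ᵥ (G.map φ).mulVec x) =
      (e ∘ x) ⬝ᵥ (G.map ψ).mulVec (e ∘ x) := by
    intro x
    simp only [dotProduct, Matrix.mulVec, Fin.sum_univ_three, Matrix.map_apply, Function.comp,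
      map_add, map_mul, hmap]
  constructor
  · rintro ⟨x, hx, h⟩
    refine ⟨e ∘ x, ?_, ?_⟩
    · intro h0
      apply hx
      ext i
      have := congrFun h0 i
      simpa using this
    · rw [← key, h, map_zero]
  · rintro ⟨y, hy, h⟩
    refine ⟨e.symm ∘ y, ?_, ?_⟩
    · intro h0
      apply hy
      ext i
      have := congrFun h0 i
      simpa using this
    · apply e.injective
      rw [key, map_zero]
      have : (e ∘ (e.symm ∘ y)) = y := by
        ext i
        simp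
      rw [this]
      exact h

lemma real_iff (G : Matrix (Fin 3) (Fin 3) ℚ) (v : InfinitePlace ℚ) (φ : ℚ →+* v.Completion) :
    RF.IsoM (G.map φ) ↔ RF.IsoM (G.map (Rat.castHom ℝ)) := by
  have hv : v.IsReal := by
    rw [Subsingleton.elim v Rat.infinitePlace]
    exact Rat.isReal_infinitePlace
  exact isoM_congr G _ _ _ _ (InfinitePlace.Completion.ringEquivRealOfIsReal hv)

lemma fin_iff (G : Matrix (Fin 3) (Fin 3) ℚ) (v : HeightOneSpectrum (𝓞 ℚ))
    (φ : ℚ →+* v.adicCompletion ℚ)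
    [hF : Fact (Nat.Prime (Rat.HeightOneSpectrum.primesEquiv v : Nat.Primes))] :
    RF.IsoM (G.map φ) ↔
      RF.IsoM (G.map (Rat.castHom ℚ_[(Rat.HeightOneSpectrum.primesEquiv v : Nat.Primes)])) := by
  let _ : Algebra ℚ (v.adicCompletion ℚ) := HeightOneSpectrum.instAlgebraAdicCompletion (𝓞 ℚ) ℚ v
  exact isoM_congr G _ _ _ _ (Rat.HeightOneSpectrum.adicCompletion.padicEquiv v).toRingEquiv

/-- The form is anisotropic at an even number of places. -/
theorem even_ncard (G : Matrix (Fin 3) (Fin 3) ℚ) (hs : G.IsSymm) (hG : G.det ≠ 0)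
    (φ : ∀ v : HeightOneSpectrum (𝓞 ℚ), ℚ →+* v.adicCompletion ℚ)
    (ψ : ∀ v : InfinitePlace ℚ, ℚ →+* v.Completion)
    (hinf : ∀ v : InfinitePlace ℚ, RF.IsoM (G.map (ψ v))) :
    Even {v : HeightOneSpectrum (𝓞 ℚ) | ¬ RF.IsoM (G.map (φ v))}.ncard := by
  obtain ⟨hfin, heven⟩ := PR.RecM.ternary hs hG
  have hreal : ∃ x : Fin 3 → ℝ, x ≠ 0 ∧ x ⬝ᵥ (G.map (Rat.castHom ℝ)).mulVec x = 0 :=
    (real_iff G Rat.infinitePlace (ψ _)).1 (hinf _)
  rw [if_pos hreal, add_zero] at heven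
  set S : Set ℕ := {p : ℕ | ∃ _ : Fact p.Prime, ¬ ∃ x : Fin 3 → ℚ_[p], x ≠ 0 ∧
      x ⬝ᵥ (G.map (Rat.castHom ℚ_[p])).mulVec x = 0} with hS
  have himg : S = (fun v : HeightOneSpectrum (𝓞 ℚ) =>
      ((Rat.HeightOneSpectrum.primesEquiv v : Nat.Primes) : ℕ)) ''
      {v : HeightOneSpectrum (𝓞 ℚ) | ¬ RF.IsoM (G.map (φ v))} := by
    ext p
    constructor
    · rintro ⟨hp, h⟩
      refine ⟨Rat.HeightOneSpectrum.primesEquiv.symm ⟨p, hp.out⟩, ?_, by simp⟩
      have e0 : Rat.HeightOneSpectrum.primesEquiv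
          ((Rat.HeightOneSpectrum.primesEquiv (R := 𝓞 ℚ)).symm ⟨p, hp.out⟩) = ⟨p, hp.out⟩ := by
        simp
      have hF : Fact (Nat.Prime (Rat.HeightOneSpectrum.primesEquiv
          ((Rat.HeightOneSpectrum.primesEquiv (R := 𝓞 ℚ)).symm ⟨p, hp.out⟩) : Nat.Primes)) :=
        ⟨(Rat.HeightOneSpectrum.primesEquiv _).2⟩
      rw [Set.mem_ofPred_eq, fin_iff]
      intro h'
      apply h
      have gen : ∀ (P : Nat.Primes) (_ : Fact (P : ℕ).Prime), (P : ℕ) = p →
          RF.IsoM (G.map (Rat.castHom ℚ_[(P : ℕ)])) →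
          ∃ x : Fin 3 → ℚ_[p], x ≠ 0 ∧ x ⬝ᵥ (G.map (Rat.castHom ℚ_[p])).mulVec x = 0 := by
        rintro ⟨P, hP⟩ hF rfl hI
        exact hI
      exact gen _ _ (by rw [e0]) h'
    · rintro ⟨v, hv, rfl⟩
      have hF : Fact (Nat.Prime (Rat.HeightOneSpectrum.primesEquiv v : Nat.Primes)) :=
        ⟨(Rat.HeightOneSpectrum.primesEquiv v).2⟩
      rw [Set.mem_ofPred_eq, fin_iff] at hv
      exact ⟨hF, hv⟩
  have hinj : Function.Injective (fun v : HeightOneSpectrum (𝓞 ℚ) =>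
      ((Rat.HeightOneSpectrum.primesEquiv v : Nat.Primes) : ℕ)) := by
    intro v w h
    exact Rat.HeightOneSpectrum.primesEquiv.injective (Subtype.ext h)
  rw [himg, Set.ncard_image_of_injective _ hinj] at heven
  exact heven

/-- Reciprocity for classes from reciprocity for ternary forms. -/
theorem conv (hCOO : SpecCOO) (hNRM : SpecNRM) (F : Type) [Field F] [NumberField F]
    (hE : ∀ G : Matrix (Fin 3) (Fin 3) F, G.IsSymm → G.det ≠ 0 →
      (∀ v : InfinitePlace F, RF.IsoM (G.map (algebraMap F v.Completion))) →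
      Even {v : HeightOneSpectrum (𝓞 F) |
        ¬ RF.IsoM (G.map (algebraMap F (v.adicCompletion F)))}.ncard)
    (Q : Finset (HeightOneSpectrum (𝓞 F))) : RecFor F Q := by
  intro a b α _ hα hfin hinf
  have hN : Algebra.norm F α ≠ 0 := ((hNRM.unt α).1 hα.1).ne_zero
  have e : {v : HeightOneSpectrum (𝓞 F) | ¬ Iso (up (v.adicCompletion F) α)} =
      ((Q.filter (fun v => ¬ Iso (up (v.adicCompletion F) α)) :
        Finset (HeightOneSpectrum (𝓞 F))) : Set (HeightOneSpectrum (𝓞 F))) := by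
    ext v
    rw [Finset.mem_coe, Finset.mem_filter]
    constructor
    · intro hv
      refine ⟨?_, hv⟩
      by_contra hvQ
      exact hv (hfin v hvQ)
    · intro hv
      exact hv.2
  have h : Even {v : HeightOneSpectrum (𝓞 F) | ¬ Iso (up (v.adicCompletion F) α)}.ncard := by
    clear e hfin
    rw [hCOO.ext α] at hN hinf ⊢
    set x := cf 0 α
    set y := cf 1 α
    set z := cf 2 α
    have hdet : (RECM.gram (a : F) (b : F) x y z).det ≠ 0 := by
      rw [RECM.gram_det hNRM]; exact neg_ne_zero.2 hN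
    simp only [RECM.iso_up hCOO] at hinf ⊢
    exact hE _ (RECM.gram_symm _ _ x y z) hdet hinf
  rw [e, Set.ncard_coe_finset] at h
  exact h

end RCQM

/-- **RCQ.** -/
theorem specRCQ (hCOO : SpecCOO) (hNRM : SpecNRM) : SpecRCQ := fun Q =>
  RCQM.conv hCOO hNRM ℚ (fun G h1 h2 h3 => RCQM.even_ncard G h1 h2 _ _ h3) Q

end Pool.Agent.Lib.MP_8cb858_nt.PT
end

section
/-!
# Module REC: reciprocity for all finite sets of odd unramified places
-/
namespace Pool.Agent.Lib.MP_8cb858_nt.PU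

open Matrix NumberField IsDedekindDomain Pool.Agent.Lib.MP_8cb858_nt.PF
open scoped Classical

namespace RECM

/-- The version with the set of all anisotropic places. -/
theorem main (hREF : SpecREF) (hCOO : PF.SpecCOO) (hNRM : PF.SpecNRM) (F : Type) [Field F]
    [NumberField F] (a b : F) (α : Lk a b) (Q : Finset (Pl F)) (hα : IsUnit α)
    (hQ : ∀ v ∈ Q, (2 : 𝓞 F) ∉ v.asIdeal ∧ Unr v)
    (hfin : ∀ v : Pl F, v ∉ Q → Iso (up (v.adicCompletion F) α))
    (hinf : ∀ v : InfinitePlace F, Iso (up v.Completion α)) :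
    Even {v : Pl F | ¬ Iso (up (v.adicCompletion F) α)}.ncard := by
  have hN : Algebra.norm F α ≠ 0 := ((hNRM.unt α).1 hα).ne_zero
  rw [hCOO.ext α] at hN hfin hinf ⊢
  set x := cf 0 α
  set y := cf 1 α
  set z := cf 2 α
  have hdet : (PF.RECM.gram a b x y z).det ≠ 0 := by
    rw [PF.RECM.gram_det hNRM]
    exact neg_ne_zero.2 hN
  simp only [PF.RECM.iso_up hCOO] at hfin hinf ⊢
  refine hREF F (PF.RECM.gram a b x y z) (Q : Set (Pl F)) (PF.RECM.gram_symm a b x y z) hdet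
    Q.finite_toSet ?_ ?_ hinf
  · intro v hv
    exact hQ v hv
  · intro v hv
    exact hfin v hv

end RECM

/-- **REC.** -/
theorem specREC (hREF : SpecREF) (hCOO : PF.SpecCOO) (hNRM : PF.SpecNRM) : SpecREC := by
  intro F _ _ Q hQ a b α _ hα hfin hinf
  have h := RECM.main hREF hCOO hNRM F (a : F) (b : F) α Q hα.1 hQ hfin hinf
  have e : {v : Pl F | ¬ Iso (up (v.adicCompletion F) α)} =
      ((Q.filter (fun v => ¬ Iso (up (v.adicCompletion F) α)) : Finset (Pl F)) :
        Set (Pl F)) := by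
    ext v
    rw [Finset.mem_coe, Finset.mem_filter]
    constructor
    · intro hv
      refine ⟨?_, hv⟩
      by_contra hvQ
      exact hv (hfin v hvQ)
    · intro hv
      exact hv.2
  rw [e, Set.ncard_coe_finset] at h
  exact h

end Pool.Agent.Lib.MP_8cb858_nt.PU
end
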