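import Mathlib
import Pool.Agent.Lib.MP_8cb858_nt.PT.FIN
import Pool.Agent.Lib.MP_8cb858_nt.PT.TDC
import Pool.Agent.Lib.MP_8cb858_nt.PU.SpecT

section
/-!
# Asymptotics for TD
-/
namespace Pool.Agent.Lib.MP_8cb858_nt.PT.TDM

open Filter Topology

lemma ev_lin (c η : ℝ) (hη : 0 < η) : ∀ᶠ l : ℝ in atTop, c ≤ η * l :=
  (tendsto_id.const_mul_atTop hη).eventually_ge_atTop c

lemma ev_log (a : ℝ) (ha : 0 < a) (c η : ℝ) (hη : 0 < η) :
    ∀ᶠ l : ℝ in atTop, Real.log (a * l + 1) + c ≤ η * l := by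
  have h1 : ∀ᶠ l : ℝ in atTop, Real.log l ≤ (η / 2) * l := by
    have h := Real.isLittleO_log_id_atTop.def (half_pos hη)
    filter_upwards [h, eventually_ge_atTop 1] with l hl h1
    rw [Real.norm_eq_abs, id, Real.norm_eq_abs, abs_of_nonneg (by linarith : (0 : ℝ) ≤ l)] at hl
    exact (le_abs_self _).trans hl
  filter_upwards [h1, ev_lin (Real.log (a + 1) + c) (η / 2) (half_pos hη), eventually_ge_atTop 1]
    with l h2 h3 h4
  have h5 : Real.log (a * l + 1) ≤ Real.log ((a + 1) * l) := by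
    refine Real.log_le_log (by positivity) (by nlinarith)
  rw [Real.log_mul (by positivity) (by positivity)] at h5
  linarith

lemma ev_exp (η : ℝ) (hη : 0 < η) : ∀ᶠ l : ℝ in atTop, 3 * l ^ 2 * Real.exp (-l) ≤ η := by
  have h := Real.tendsto_pow_mul_exp_neg_atTop_nhds_zero 2
  have h2 := h.const_mul 3
  rw [mul_zero] at h2
  filter_upwards [h2.eventually (gt_mem_nhds hη)] with l hl
  rw [mul_assoc]; exact hl.le

/-- all inequalities used -/
lemma ev_all (R K C0 η : ℝ) (hR : 1 ≤ R) (hK : 1 ≤ K) (_ : 0 < C0) (hη : 0 < η) :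
    ∀ᶠ l : ℝ in atTop, 2 ≤ l ∧ 4 * R ≤ l ∧ C0 ≤ l ∧
      Real.exp (-(4 * R * K * l)) ≤ η ∧
      (l + C0) * (1 / l ^ 2 + Real.exp (-(4 * R * K * l))) ≤ η ∧
      (Real.log (4 * R * K * l + 1) + C0) * (4 * R) ≤ η * l ∧
      l / 2 ≤ l - Real.log 4 - C0 - (Real.log (4 * R * K * l + 1) + C0) ∧
      16 ≤ η * l ∧
      (2 * l ^ 2 * Real.exp l + 1) * Real.exp (-(3 * R * K * l)) ≤ η ∧
      K ≤ η * l := by
  have hRK : 1 ≤ R * K := by nlinarith
  have e5 : ∀ᶠ l : ℝ in atTop, 1 / l ^ 2 ≤ η := by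
    filter_upwards [ev_lin 1 η hη, eventually_ge_atTop 1] with l h1 h2
    rw [div_le_iff₀ (by positivity)]
    nlinarith
  filter_upwards [eventually_ge_atTop 2, eventually_ge_atTop (4 * R), eventually_ge_atTop C0,
    ev_exp η hη, ev_exp (η / 4) (by positivity), ev_lin 4 η hη,
    ev_log (4 * R * K) (by positivity) C0 (η / (4 * R)) (by positivity),
    ev_log (4 * R * K) (by positivity) (Real.log 4 + 2 * C0) (1 / 2) (by norm_num),
    ev_lin 16 η hη, ev_lin K η hη] with l h1 h2 h3 h4 h5 h6 h7 h8 h9 h10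
  have hl0 : 0 < l := by linarith
  have hx1 : Real.exp (-(4 * R * K * l)) ≤ Real.exp (-l) := by
    apply Real.exp_le_exp.2; nlinarith
  have hx2 : Real.exp (-(3 * R * K * l)) ≤ Real.exp (-(2 * l)) := by
    apply Real.exp_le_exp.2; nlinarith
  have hx0 : 0 < Real.exp (-l) := Real.exp_pos _
  refine ⟨h1, h2, h3, ?_, ?_, ?_, ?_, h9, ?_, h10⟩
  · have : 1 * Real.exp (-l) ≤ 3 * l ^ 2 * Real.exp (-l) := by
      refine mul_le_mul_of_nonneg_right ?_ hx0.le; nlinarith
    linarith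
  · have h11 : (l + C0) * (1 / l ^ 2) ≤ η / 2 := by
      have : (l + C0) * (1 / l ^ 2) ≤ 2 * l * (1 / l ^ 2) :=
        mul_le_mul_of_nonneg_right (by linarith) (by positivity)
      have h12 : 2 * l * (1 / l ^ 2) = 2 / l := by field_simp
      have h13 : 2 / l ≤ η / 2 := by
        rw [div_le_iff₀ hl0]; linarith
      linarith
    have h12 : (l + C0) * Real.exp (-(4 * R * K * l)) ≤ η / 4 := by
      have h13 : (l + C0) * Real.exp (-(4 * R * K * l)) ≤ 3 * l ^ 2 * Real.exp (-l) := by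
        refine mul_le_mul ?_ hx1 (Real.exp_pos _).le (by positivity)
        nlinarith
      linarith
    rw [mul_add]; linarith
  · have h11 : (Real.log (4 * R * K * l + 1) + C0) * (4 * R) ≤ η / (4 * R) * l * (4 * R) :=
      mul_le_mul_of_nonneg_right h7 (by positivity)
    have h12 : η / (4 * R) * l * (4 * R) = η * l := by
      field_simp
    linarith
  · linarith
  · have h11 : (2 * l ^ 2 * Real.exp l + 1) ≤ 3 * l ^ 2 * Real.exp l := by
      have h13 : (1 : ℝ) ≤ Real.exp l := Real.one_le_exp hl0.le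
      have : 1 ≤ l ^ 2 * Real.exp l := by nlinarith
      nlinarith
    calc (2 * l ^ 2 * Real.exp l + 1) * Real.exp (-(3 * R * K * l))
        ≤ (3 * l ^ 2 * Real.exp l) * Real.exp (-(2 * l)) := by
          refine mul_le_mul h11 hx2 (Real.exp_pos _).le (by positivity)
      _ = 3 * l ^ 2 * Real.exp (-l) := by
          rw [mul_assoc, ← Real.exp_add]; congr 2; ring
      _ ≤ η := h4

end Pool.Agent.Lib.MP_8cb858_nt.PT.TDM
end

section
/-!
# Typical `D`: `specTD : SpecTD`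
-/
namespace Pool.Agent.Lib.MP_8cb858_nt.PT.TDM

open Finset Filter Topology

lemma PS_mono {x y : ℕ} (h : x ≤ y) : PS x ≤ PS y := by
  unfold PS
  refine Finset.sum_le_sum_of_subset_of_nonneg ?_ fun i _ _ => by positivity
  intro p hp
  rw [mem_filter, mem_Icc] at hp ⊢
  exact ⟨⟨hp.1.1, hp.1.2.trans h⟩, hp.2⟩

lemma PS_split {x y : ℕ} (h : x ≤ y) :
    PS y = PS x + ∑ p ∈ (Icc 1 y).filter (fun p => p.Prime ∧ x < p), 1 / (p : ℝ) := by
  classical
  unfold PS
  have h1 : (Icc 1 y).filter Nat.Prime =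
      (Icc 1 x).filter Nat.Prime ∪ (Icc 1 y).filter (fun p => p.Prime ∧ x < p) := by
    ext p
    simp only [mem_union, mem_filter, mem_Icc]
    constructor
    · rintro ⟨⟨h1, h2⟩, h3⟩
      rcases le_or_gt p x with h4 | h4
      · exact Or.inl ⟨⟨h1, h4⟩, h3⟩
      · exact Or.inr ⟨⟨h1, h2⟩, h3, h4⟩
    · rintro (⟨⟨h1, h2⟩, h3⟩ | ⟨⟨h1, h2⟩, h3, h4⟩)
      · exact ⟨⟨h1, h2.trans h⟩, h3⟩
      · exact ⟨⟨h1, h2⟩, h3⟩
  rw [h1, Finset.sum_union]
  rw [Finset.disjoint_left]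
  intro p hp hp'
  rw [mem_filter, mem_Icc] at hp hp'
  omega

/-- the bound for the exceptional set -/
lemma exceptional (ε : ℝ) (r0 : ℕ) (hε : 0 < ε) :
    ∃ Y0 : ℕ, ∀ Y : ℕ, Y0 ≤ Y → ∃ (δ E : ℝ) (w M : ℕ), 0 < δ ∧ 0 < E ∧
      Real.exp ((r0 : ℝ) * M) ≤ E ∧ E ≤ w ∧
      (({D ∈ Icc 1 Y | ¬ Gd δ E w Y M r0 D} : Set ℕ).ncard : ℝ) ≤ ε * Y := by
  classical
  obtain ⟨C0, hC0, hM⟩ := mertens
  set R : ℝ := (r0 : ℝ) + 1 with hR
  have hR1 : 1 ≤ R := by rw [hR]; have : (0 : ℝ) ≤ r0 := Nat.cast_nonneg _; linarith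
  set η : ℝ := min (ε / 8) (1 / 2) with hη
  have hη0 : 0 < η := lt_min (by positivity) (by norm_num)
  have hηε : 8 * η ≤ ε := by have := min_le_left (ε / 8) (1 / 2 : ℝ); rw [← hη] at this; linarith
  have hη2 : η ≤ 1 / 2 := min_le_right _ _
  set K : ℝ := 2 / η with hK
  have hK1 : 1 ≤ K := by rw [hK, le_div_iff₀ hη0]; linarith
  have hev := ev_all R K C0 η hR1 hK1 hC0 hη0
  have hlim : Tendsto (fun Y : ℕ => Real.log (Real.log (Y : ℝ))) atTop atTop :=
    Real.tendsto_log_atTop.comp (Real.tendsto_log_atTop.comp tendsto_natCast_atTop_atTop)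
  have hY1 : ∀ᶠ Y : ℕ in atTop, 1 ≤ η * (Y : ℝ) :=
    ((tendsto_natCast_atTop_atTop (R := ℝ)).const_mul_atTop hη0).eventually_ge_atTop 1
  obtain ⟨Y0, hY0⟩ := eventually_atTop.1 ((hlim.eventually hev).and
    (hY1.and (eventually_ge_atTop (10 ^ 4))))
  refine ⟨Y0, fun Y hY => ?_⟩
  obtain ⟨⟨e1, e2, e3, e4, e5, e6, e7, e8, e9, e10⟩, hY2, hY3⟩ := hY0 Y hY
  set l : ℝ := Real.log (Real.log (Y : ℝ)) with hl
  have hl0 : 0 < l := by linarith
  have hYpos : (0 : ℝ) < Y := by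
    have : 0 < Y := by omega
    exact_mod_cast this
  set w : ℕ := ⌈Real.exp (4 * R * K * l)⌉₊ with hw
  set M : ℕ := ⌊K * l⌋₊ with hMd
  set δ : ℝ := 1 / l ^ 2 with hδ
  set E : ℝ := Real.exp (R * K * l) with hE
  have hδ0 : 0 < δ := by rw [hδ]; positivity
  have hδ1 : δ ≤ 1 := by
    rw [hδ, div_le_one (by positivity)]; nlinarith
  have hE0 : 0 < E := Real.exp_pos _
  have hRK : 1 ≤ R * K := by nlinarith
  have hw1 : Real.exp (4 * R * K * l) ≤ w := Nat.le_ceil _
  have hw1' : Real.exp (4 * R * K * l) = E ^ 4 := by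
    rw [hE, ← Real.exp_nat_mul]; congr 1; push_cast; ring
  have hE1 : 1 ≤ E := Real.one_le_exp (by positivity)
  have hw0 : 0 < w := Nat.ceil_pos.2 (Real.exp_pos _)
  have hw0' : (0 : ℝ) < w := by exact_mod_cast hw0
  have hw3 : 3 ≤ w := by
    have h1 : (3 : ℝ) ≤ Real.exp (4 * R * K * l) := by
      have h2 : 4 * R * K * l + 1 ≤ Real.exp (4 * R * K * l) := Real.add_one_le_exp _
      nlinarith
    have h2 : ((3 : ℕ) : ℝ) ≤ w := by push_cast; linarith
    exact_mod_cast h2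
  have hwinv : 1 / (w : ℝ) ≤ Real.exp (-(4 * R * K * l)) := by
    rw [Real.exp_neg, ← one_div]
    exact one_div_le_one_div_of_le (Real.exp_pos _) hw1
  have hwlog : Real.log (Real.log (w : ℝ)) ≤ Real.log (4 * R * K * l + 1) := by
    have h1 : (w : ℝ) ≤ Real.exp (4 * R * K * l + 1) := by
      have h2 : (w : ℝ) < Real.exp (4 * R * K * l) + 1 := Nat.ceil_lt_add_one (Real.exp_pos _).le
      rw [Real.exp_add]
      have h3 : 1 + 1 ≤ Real.exp 1 := Real.add_one_le_exp 1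
      have h4 : 1 ≤ Real.exp (4 * R * K * l) := Real.one_le_exp (by positivity)
      nlinarith
    have h2 : Real.log w ≤ 4 * R * K * l + 1 := by
      rw [Real.log_le_iff_le_exp hw0']; exact h1
    refine Real.log_le_log (Real.log_pos ?_) h2
    have : ((3 : ℕ) : ℝ) ≤ w := by exact_mod_cast hw3
    push_cast at this; linarith
  have hPSY : PS Y ≤ l + C0 := by
    have := (abs_le.1 (hM Y (by omega))).2; rw [← hl] at this; linarith
  have hPSw : PS w ≤ Real.log (4 * R * K * l + 1) + C0 := by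
    have := (abs_le.1 (hM w hw3)).2; linarith
  have hMKl : (M : ℝ) ≤ K * l := Nat.floor_le (by positivity)
  have hMlt : K * l < (M : ℝ) + 1 := Nat.lt_floor_add_one _
  refine ⟨δ, E, w, M, hδ0, hE0, ?_, ?_, ?_⟩
  · rw [hE]
    refine Real.exp_le_exp.2 ?_
    have h1 : (r0 : ℝ) * M ≤ R * (K * l) :=
      mul_le_mul (by rw [hR]; linarith) hMKl (Nat.cast_nonneg _) (by linarith)
    linarith
  · refine le_trans ?_ hw1
    rw [hw1']
    nlinarith [one_le_pow₀ hE1 (n := 3)]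
  -- the large primes for Turan
  set z : ℕ := Nat.sqrt Y with hz
  have hzz : z * z ≤ Y := Nat.sqrt_le Y
  have hzz' : Y < (z + 1) * (z + 1) := Nat.lt_succ_sqrt Y
  have hz99 : 99 ≤ z := by
    by_contra h
    push Not at h
    have : (z + 1) * (z + 1) ≤ 99 * 99 := Nat.mul_le_mul (by omega) (by omega)
    omega
  set T : Finset ℕ := (Icc 1 z).filter (fun p => p.Prime ∧ w < p) with hT
  have hTcard : 2 * T.card ≤ Y := by
    have h1 : T.card ≤ z := by
      calc T.card ≤ (Icc 1 z).card := card_le_card (filter_subset _ _)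
        _ = z := by simp
    nlinarith
  have hlogz : l - Real.log 4 ≤ Real.log (Real.log (z : ℝ)) := by
    have h1 : (Y : ℝ) ≤ (z : ℝ) ^ 4 := by
      have h2 : Y ≤ z ^ 4 := by
        have h3 : (z + 1) ≤ z * z := by nlinarith
        calc Y ≤ (z + 1) * (z + 1) := hzz'.le
          _ ≤ (z * z) * (z * z) := Nat.mul_le_mul h3 h3
          _ = z ^ 4 := by ring
      exact_mod_cast h2
    have h2 : Real.log Y ≤ 4 * Real.log z := by
      have h3 := Real.log_le_log hYpos h1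
      rw [Real.log_pow] at h3
      exact_mod_cast h3
    have h3 : 0 < Real.log (Y : ℝ) := by
      have : (1 : ℝ) < Y := by
        have : 1 < Y := by omega
        exact_mod_cast this
      exact Real.log_pos this
    have h4 : l ≤ Real.log (4 * Real.log z) := Real.log_le_log h3 h2
    rw [Real.log_mul (by norm_num) (by
      have : (1 : ℝ) < z := by
        have : 1 < z := by omega
        exact_mod_cast this
      exact (Real.log_pos this).ne')] at h4
    linarith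
  have hPSz : l - Real.log 4 - C0 ≤ PS z := by
    have := (abs_le.1 (hM z (by omega))).1; linarith
  have hP : l / 2 ≤ ∑ p ∈ T, 1 / (p : ℝ) := by
    have hwz : w ≤ z := by
      by_contra h
      push Not at h
      have := PS_mono h.le
      linarith
    have h1 := PS_split hwz
    rw [← hT] at h1
    linarith
  -- the seven exceptional sets
  have X1 := exc_sq hw0 Y
  have X2 := exc_win hδ0 hw0 Y
  have X3 := markov ((Icc 1 Y).filter Nat.Prime) Y (a := K * l) (by positivity)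
  have X4 := markov ((Icc 1 w).filter Nat.Prime) Y (a := l / (4 * R)) (by positivity)
  have X5 := turan T (fun p hp => (mem_filter.1 hp).2.1) Y hTcard (by linarith)
  have X6 := exc_poor hδ0 hw0 Y hE0.le
  have X7 := exc_top hδ0 hδ1 Y M
  have x1 : (Y : ℝ) * (1 / (w : ℝ)) ≤ Y * η :=
    mul_le_mul_of_nonneg_left (hwinv.trans e4) hYpos.le
  have x2 : (Y : ℝ) * (PS Y * (δ + 1 / (w : ℝ))) ≤ Y * η := by
    refine mul_le_mul_of_nonneg_left ?_ hYpos.le
    refine le_trans ?_ e5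
    refine mul_le_mul hPSY (by rw [hδ]; linarith) (by positivity) (by linarith)
  have x3 : (Y : ℝ) * ((∑ p ∈ (Icc 1 Y).filter Nat.Prime, 1 / (p : ℝ)) / (K * l)) ≤ Y * η := by
    refine mul_le_mul_of_nonneg_left ?_ hYpos.le
    rw [div_le_iff₀ (by positivity)]
    have h1 : η * (K * l) = 2 * l := by rw [hK]; field_simp
    rw [h1]
    have : PS Y ≤ 2 * l := by linarith
    exact this
  have x4 : (Y : ℝ) * ((∑ p ∈ (Icc 1 w).filter Nat.Prime, 1 / (p : ℝ)) / (l / (4 * R))) ≤ Y * η := by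
    refine mul_le_mul_of_nonneg_left ?_ hYpos.le
    rw [div_div_eq_mul_div, div_le_iff₀ hl0]
    refine le_trans ?_ e6
    exact mul_le_mul_of_nonneg_right hPSw (by positivity)
  have x5 : (Y : ℝ) * (8 / ∑ p ∈ T, 1 / (p : ℝ)) ≤ Y * η := by
    refine mul_le_mul_of_nonneg_left ?_ hYpos.le
    rw [div_le_iff₀ (by linarith)]
    nlinarith
  have x6 : (Y : ℝ) * (((win δ Y : ℝ) + 1) * E / (w : ℝ)) ≤ Y * η := by
    refine mul_le_mul_of_nonneg_left ?_ hYpos.le
    refine le_trans ?_ e9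
    have hwin : (win δ Y : ℝ) ≤ 2 * l ^ 2 * Real.exp l := by
      have h1 : (win δ Y : ℝ) ≤ Real.log Y / Real.log (1 + δ) := by
        unfold win
        refine Nat.floor_le (div_nonneg (Real.log_nonneg ?_) (Real.log_pos (by linarith)).le)
        have : 1 ≤ Y := by omega
        exact_mod_cast this
      refine h1.trans ?_
      have h2 : δ / 2 ≤ Real.log (1 + δ) := by
        have h3 := Real.one_sub_inv_le_log_of_pos (x := 1 + δ) (by linarith)
        have h4 : δ / 2 ≤ 1 - (1 + δ)⁻¹ := by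
          have h5 : 1 - (1 + δ)⁻¹ = δ / (1 + δ) := by
            field_simp; ring
          rw [h5, div_le_div_iff₀ (by norm_num) (by linarith)]
          nlinarith
        linarith
      have h3 : Real.exp l = Real.log Y := by
        rw [hl, Real.exp_log]
        refine Real.log_pos ?_
        have : 1 < Y := by omega
        exact_mod_cast this
      rw [div_le_iff₀ (Real.log_pos (by linarith)), h3]
      have h4 : (0 : ℝ) ≤ Real.log Y := by rw [← h3]; exact (Real.exp_pos _).le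
      calc Real.log Y = 2 * l ^ 2 * Real.log Y * (δ / 2) := by rw [hδ]; field_simp
        _ ≤ _ := mul_le_mul_of_nonneg_left h2 (by positivity)
    have h1 : E / (w : ℝ) ≤ Real.exp (-(3 * R * K * l)) := by
      rw [div_le_iff₀ hw0']
      calc E = Real.exp (-(3 * R * K * l)) * Real.exp (4 * R * K * l) := by
            rw [hE, ← Real.exp_add]; congr 1; ring
        _ ≤ _ := mul_le_mul_of_nonneg_left hw1 (Real.exp_pos _).le
    rw [mul_div_assoc]
    exact mul_le_mul (by linarith) h1 (by positivity) (by positivity)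
  have x7 : (Y : ℝ) * (M * δ) + 1 ≤ Y * (2 * η) := by
    have h1 : (M : ℝ) * δ ≤ η := by
      have h2 : (M : ℝ) * δ ≤ K * l * δ := mul_le_mul_of_nonneg_right hMKl hδ0.le
      have h3 : K * l * δ = K / l := by rw [hδ]; field_simp
      have h4 : K / l ≤ η := by rw [div_le_iff₀ hl0]; exact e10
      linarith
    nlinarith [mul_le_mul_of_nonneg_left h1 hYpos.le]
  -- the inclusion
  set U : Finset ℕ := (Icc 1 Y).filter (fun D => ∃ p : ℕ, p.Prime ∧ w < p ∧ p ^ 2 ∣ D) ∪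
    ((Icc 1 Y).filter (fun D => ¬ Set.InjOn (win δ) (LA w D : Set ℕ)) ∪
    ((Icc 1 Y).filter (fun D => K * l ≤ (cnt ((Icc 1 Y).filter Nat.Prime) D : ℝ)) ∪
    ((Icc 1 Y).filter (fun D => l / (4 * R) ≤ (cnt ((Icc 1 w).filter Nat.Prime) D : ℝ)) ∪
    ((Icc 1 Y).filter (fun D => (cnt T D : ℝ) < (∑ p ∈ T, 1 / (p : ℝ)) / 2) ∪
    ((Icc 1 Y).filter (fun D => ∃ p ∈ LA w D, ((JJ δ w Y (win δ p)).card : ℝ) < E) ∪
    (Icc 1 Y).filter (fun D : ℕ => (Y : ℝ) < (D : ℝ) * (1 + δ) ^ M)))))) with hU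
  have hUcard : (U.card : ℝ) ≤ ε * Y := by
    have c1 : ∀ A B : Finset ℕ, ((A ∪ B).card : ℝ) ≤ (A.card : ℝ) + (B.card : ℝ) := by
      intro A B; exact_mod_cast card_union_le A B
    have : (U.card : ℝ) ≤ 8 * (Y * η) := by
      rw [hU]
      refine (c1 _ _).trans ?_
      refine (add_le_add_right ((c1 _ _).trans (add_le_add_right ((c1 _ _).trans
        (add_le_add_right ((c1 _ _).trans (add_le_add_right ((c1 _ _).trans
        (add_le_add_right (c1 _ _) _)) _)) _)) _)) _).trans ?_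
      linarith
    nlinarith
  refine le_trans ?_ hUcard
  rw [← Set.ncard_coe_finset U]
  have hsub : ({D ∈ Icc 1 Y | ¬ Gd δ E w Y M r0 D} : Set ℕ) ⊆ (U : Set ℕ) := by
    rintro D ⟨hD, hbad⟩
    have hDI := mem_Icc.1 hD
    by_contra hDU
    rw [mem_coe, hU] at hDU
    simp only [mem_union, mem_filter, hD, true_and, not_or, not_not] at hDU
    obtain ⟨u1, u2, u3, u4, u5, u6, u7⟩ := hDU
    apply hbad
    push Not at u1 u3 u4 u5 u6 u7
    have hcA : ((LA w D).card : ℝ) ≤ (cnt ((Icc 1 Y).filter Nat.Prime) D : ℝ) := by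
      unfold cnt
      have : LA w D ⊆ ((Icc 1 Y).filter Nat.Prime).filter (fun p => p ∣ D) := by
        intro p hp
        have hp' := mem_LA.1 hp
        rw [mem_filter, mem_filter, mem_Icc]
        exact ⟨⟨⟨hp'.1.one_lt.le, (Nat.le_of_dvd (by omega) hp'.2.1).trans hDI.2⟩, hp'.1⟩, hp'.2.1⟩
      exact_mod_cast card_le_card this
    have hcT : (cnt T D : ℝ) ≤ ((LA w D).card : ℝ) := by
      unfold cnt
      have : T.filter (fun p => p ∣ D) ⊆ LA w D := by
        intro p hp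
        rw [mem_filter, hT, mem_filter, mem_Icc] at hp
        exact mem_LA.2 ⟨hp.1.2.1, hp.2, by omega, hp.1.2.2⟩
      exact_mod_cast card_le_card this
    have hl4 : l / 4 ≤ ((LA w D).card : ℝ) := by linarith
    have hsm : ((D.primeFactors.filter (fun p => p ≤ w)).card : ℝ) ≤
        (cnt ((Icc 1 w).filter Nat.Prime) D : ℝ) := by
      unfold cnt
      have : D.primeFactors.filter (fun p => p ≤ w) ⊆
          ((Icc 1 w).filter Nat.Prime).filter (fun p => p ∣ D) := by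
        intro p hp
        rw [mem_filter, Nat.mem_primeFactors] at hp
        rw [mem_filter, mem_filter, mem_Icc]
        exact ⟨⟨⟨hp.1.1.one_lt.le, hp.2⟩, hp.1.1⟩, hp.1.2.1⟩
      exact_mod_cast card_le_card this
    refine ⟨hDI.1, fun p hp hwp => u1 p hp hwp, u2, ?_, ?_, ?_, fun p hp => u6 p hp, u7⟩
    · have h1 : ((LA w D).card : ℝ) < (M : ℝ) + 1 := by linarith
      have h2 : (LA w D).card < M + 1 := by exact_mod_cast h1
      omega
    · have h1 : (r0 : ℝ) * ((D.primeFactors.filter (fun p => p ≤ w)).card : ℝ) ≤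
          ((LA w D).card : ℝ) := by
        calc (r0 : ℝ) * ((D.primeFactors.filter (fun p => p ≤ w)).card : ℝ)
            ≤ R * (l / (4 * R)) := by
              refine mul_le_mul (by rw [hR]; linarith) (by linarith) (Nat.cast_nonneg _)
                (by linarith)
          _ = l / 4 := by field_simp
          _ ≤ _ := hl4
      exact_mod_cast h1
    · have h1 : (r0 : ℝ) ≤ ((LA w D).card : ℝ) := by
        have : (r0 : ℝ) ≤ R := by rw [hR]; linarith
        linarith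
      exact_mod_cast h1
  exact_mod_cast Set.ncard_le_ncard hsub (Finset.finite_toSet _)

end Pool.Agent.Lib.MP_8cb858_nt.PT.TDM

namespace Pool.Agent.Lib.MP_8cb858_nt.PT

open Finset TDM

theorem specTD : SpecTD := by
  classical
  intro ε r0 hε
  obtain ⟨Y0, hY0⟩ := exceptional ε r0 hε
  refine ⟨Y0, fun Y hY => ?_⟩
  obtain ⟨δ, E, w, M, hδ, hE, hEM, hEw, hcard⟩ := hY0 Y hY
  set G : Finset ℕ := (Icc 1 Y).filter (fun D => Gd δ E w Y M r0 D) with hG
  set KK : Finset (ℕ × Finset ℕ) := G.image (key δ w) with hKK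
  have hKK' : ∀ c ∈ KK, ∃ D, D ≤ Y ∧ Gd δ E w Y M r0 D ∧ key δ w D = c := by
    intro c hc
    obtain ⟨D, hD, hDc⟩ := mem_image.1 hc
    rw [hG, mem_filter, mem_Icc] at hD
    exact ⟨D, hD.1.2, hD.2, hDc⟩
  have hsf : ∀ c : ℕ × Finset ℕ, ∃ D1 t : ℕ, c ∈ KK → (D1 * t ^ 2 = c.1 ∧ Squarefree D1 ∧ 0 < t) := by
    intro c
    by_cases hc : c ∈ KK
    · obtain ⟨D, hDY, hD, rfl⟩ := hKK' c hc
      obtain ⟨a, b, h1, h2⟩ := Nat.sq_mul_squarefree (key δ w D).1
      refine ⟨a, b, fun _ => ⟨by rw [← h1]; ring, h2, ?_⟩⟩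
      have := key_pos hD
      rcases Nat.eq_zero_or_pos b with hb | hb
      · rw [hb] at h1; simp at h1; omega
      · exact hb
    · exact ⟨1, 1, fun h => absurd h hc⟩
  choose D1 t hD1t using hsf
  set en := KK.equivFin.symm with hen
  refine ⟨KK.card, fun i => (en i).1.2.card, fun i => D1 (en i).1, fun i => t (en i).1,
    fun i => LL δ w Y (en i).1.2, ?_, ?_, ?_⟩
  · intro i
    obtain ⟨h1, h2, h3⟩ := hD1t (en i).1 (en i).2
    obtain ⟨D, hDY, hD, hDc⟩ := hKK' (en i).1 (en i).2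
    have hcard' : (en i).1.2.card = (LA w D).card := by rw [← hDc, card_key hD]
    have hexp : Real.exp (r0 * ((en i).1.2.card : ℝ)) ≤ E := by
      refine le_trans (Real.exp_le_exp.2 ?_) hEM
      refine mul_le_mul_of_nonneg_left ?_ (Nat.cast_nonneg _)
      rw [hcard']; exact_mod_cast hD.leM
    have hdvd : D1 (en i).1 ∣ (en i).1.1 := ⟨_, h1.symm⟩
    refine ⟨?_, h2, h3, ?_, ?_, ?_, ?_⟩
    · show r0 ≤ (en i).1.2.card
      rw [hcard']; exact hD.ge
    · have h4 := key_omega hD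
      rw [hDc] at h4
      refine le_trans (Nat.mul_le_mul_left _ (card_le_card (Nat.primeFactors_mono hdvd ?_))) h4
      rw [← hDc]; exact (key_pos hD).ne'
    · intro j p hp
      have hp' := mem_JJ.1 hp
      refine ⟨hp'.2.1, hexp.trans (hEw.trans ?_), fun hd => ?_⟩
      · exact_mod_cast hp'.2.2.1.le
      · have h5 : p ≤ w := by
          refine key_smooth hD hp'.2.1 ?_
          rw [hDc]; exact hd.trans hdvd
        have := hp'.2.2.1
        omega
    · intro j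
      refine hexp.trans ?_
      have hmem : (en i).1.2.orderEmbOfFin rfl j ∈ (LA w D).image (win δ) := by
        have h6 : (LA w D).image (win δ) = (en i).1.2 := by rw [← hDc]; rfl
        rw [h6]
        exact Finset.orderEmbOfFin_mem _ rfl j
      obtain ⟨p, hp, hpj⟩ := mem_image.1 hmem
      have h7 := hD.rich p hp
      rw [hpj] at h7
      exact h7
    · intro j k hjk
      rw [Finset.disjoint_left]
      intro p hp hp'
      have h8 := (mem_JJ.1 hp).2.2.2.symm.trans (mem_JJ.1 hp').2.2.2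
      exact hjk (((en i).1.2.orderEmbOfFin rfl).injective h8)
  · have h1 := class_sum hδ KK hKK'
    have h2 : ∑ i : Fin KK.card, ∏ j, ((LL δ w Y (en i).1.2 j).card : ℝ) =
        ((∑ c ∈ KK, ∏ j, (LL δ w Y c.2 j).card : ℕ) : ℝ) := by
      push_cast
      rw [← Finset.sum_coe_sort KK (fun c => ∏ j, ((LL δ w Y c.2 j).card : ℝ))]
      exact Equiv.sum_comp en (fun c : KK => ∏ j, ((LL δ w Y c.1.2 j).card : ℝ))
    rw [h2]
    exact_mod_cast h1
  · refine le_trans ?_ hcard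
    rw [← Set.ncard_coe_finset]
    refine Nat.cast_le.2 (Set.ncard_le_ncard ?_ ((Finset.finite_toSet (Icc 1 Y)).subset ?_))
    · intro D hD
      have hD := (@Finset.mem_filter _ _ (_) _ _).1 (mem_coe.1 hD)
      refine ⟨hD.1, fun hgood => ?_⟩
      have hDI := mem_Icc.1 hD.1
      have hc : key δ w D ∈ KK := mem_image_of_mem _ (mem_filter.2 ⟨hD.1, hgood⟩)
      obtain ⟨p, hp, hDp⟩ := cover hgood hDI.2
      obtain ⟨h1, _, _⟩ := hD1t (key δ w D) hc
      obtain ⟨i, hi⟩ : ∃ i, en i = ⟨key δ w D, hc⟩ := ⟨en.symm ⟨key δ w D, hc⟩, by simp⟩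
      have hi' : (en i).1 = key δ w D := by rw [hi]
      have key2 : ∀ p ∈ Fintype.piFinset (LL δ w Y (en i).1.2),
          D ≠ D1 (en i).1 * (t (en i).1) ^ 2 * ∏ j, p j := hD.2 i
      rw [hi'] at key2
      refine key2 p hp ?_
      rw [h1]
      exact hDp
    · intro D hD
      exact hD.1

end Pool.Agent.Lib.MP_8cb858_nt.PT
end

section
/-!
# TAS: the asymptotic inequalities used for the typical twist
-/
namespace Pool.Agent.Lib.MP_8cb858_nt.PU

open Filter Topology Pool.Agent.Lib.MP_8cb858_nt.PT.TDM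

theorem specTAS : SpecTAS := by
  intro n C1 C2 C0 R K η W hn hC1 hC2 hC0 hR hK hη
  have hRK : 1 ≤ R * K := by nlinarith
  have hn0 : 0 < n := by linarith
  have hC10 : 0 < C1 := by linarith
  have hR0 : 0 < R := by linarith
  filter_upwards [eventually_ge_atTop 2, eventually_ge_atTop (2 * K), eventually_ge_atTop W,
    eventually_ge_atTop C0, eventually_ge_atTop (4 * R), ev_lin (2 * C2) η hη,
    ev_exp (η / (4 * (C1 * n ^ 2))) (by positivity), ev_lin (4 * (C1 * n ^ 2)) η hη,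
    ev_log (4 * R * K) (by positivity) C0 (η / (4 * R * (C1 * n))) (by positivity),
    ev_log (4 * R * K) (by positivity) (C0 + (Real.log 3 + C0) / n) (1 / (2 * n)) (by positivity),
    ev_exp (η / C1) (by positivity)] with l h1 h2 h3 h4 h5 h6 h7 h8 h9 h10 h11
  have hl0 : 0 < l := by linarith
  have hlog : Real.log (4 * R * K * l) ≤ Real.log (4 * R * K * l + 1) :=
    Real.log_le_log (by positivity) (by linarith)
  have hx1 : Real.exp (-(4 * R * K * l)) ≤ Real.exp (-l) := by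
    apply Real.exp_le_exp.2; nlinarith
  have hx2 : Real.exp (-(3 * R * K * l)) ≤ Real.exp (-(2 * l)) := by
    apply Real.exp_le_exp.2; nlinarith
  have hx0 : 0 < Real.exp (-l) := Real.exp_pos _
  have hA : 0 < C1 * n ^ 2 := by positivity
  refine ⟨h1, h2, h3, h4, h5, h6, ?_, ?_, ?_, ?_⟩
  · have e1 : C1 * n ^ 2 * (l + C0) * (1 / l ^ 2) ≤ η / 2 := by
      have q1 : (l + C0) * (1 / l ^ 2) ≤ 2 * l * (1 / l ^ 2) :=
        mul_le_mul_of_nonneg_right (by linarith) (by positivity)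
      have q2 : 2 * l * (1 / l ^ 2) = 2 / l := by field_simp
      have q3 : C1 * n ^ 2 * (2 / l) ≤ η / 2 := by
        rw [← mul_div_assoc, div_le_iff₀ hl0]; linarith
      calc C1 * n ^ 2 * (l + C0) * (1 / l ^ 2) = C1 * n ^ 2 * ((l + C0) * (1 / l ^ 2)) := by ring
        _ ≤ C1 * n ^ 2 * (2 / l) := mul_le_mul_of_nonneg_left (by linarith) hA.le
        _ ≤ η / 2 := q3
    have e2 : C1 * n ^ 2 * (l + C0) * Real.exp (-(4 * R * K * l)) ≤ η / 4 := by
      have q1 : (l + C0) * Real.exp (-(4 * R * K * l)) ≤ 3 * l ^ 2 * Real.exp (-l) := by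
        refine mul_le_mul ?_ hx1 (Real.exp_pos _).le (by positivity)
        nlinarith
      have q2 : C1 * n ^ 2 * (η / (4 * (C1 * n ^ 2))) = η / 4 := by
        field_simp
      calc C1 * n ^ 2 * (l + C0) * Real.exp (-(4 * R * K * l))
          = C1 * n ^ 2 * ((l + C0) * Real.exp (-(4 * R * K * l))) := by ring
        _ ≤ C1 * n ^ 2 * (η / (4 * (C1 * n ^ 2))) :=
            mul_le_mul_of_nonneg_left (q1.trans h7) hA.le
        _ = η / 4 := q2
    rw [mul_add]; linarith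
  · have q1 : Real.log (4 * R * K * l) + C0 ≤ η / (4 * R * (C1 * n)) * l := by linarith
    calc C1 * n * (Real.log (4 * R * K * l) + C0) * (4 * R)
        = (Real.log (4 * R * K * l) + C0) * (4 * R * (C1 * n)) := by ring
      _ ≤ η / (4 * R * (C1 * n)) * l * (4 * R * (C1 * n)) :=
          mul_le_mul_of_nonneg_right q1 (by positivity)
      _ = η * l := by field_simp
  · have q1 : Real.log (4 * R * K * l) + (C0 + (Real.log 3 + C0) / n) ≤ 1 / (2 * n) * l := by
      linarith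
    have q2 : n * (Real.log (4 * R * K * l) + (C0 + (Real.log 3 + C0) / n)) ≤
        n * (1 / (2 * n) * l) := mul_le_mul_of_nonneg_left q1 hn0.le
    have q3 : n * (1 / (2 * n) * l) = l / 2 := by field_simp
    have q4 : n * (Real.log (4 * R * K * l) + (C0 + (Real.log 3 + C0) / n)) =
        n * (Real.log (4 * R * K * l) + C0) + (Real.log 3 + C0) := by field_simp; ring
    rw [q3, q4] at q2
    linarith
  · have q1 : (2 * l ^ 2 * Real.exp l + 1) ≤ 3 * l ^ 2 * Real.exp l := by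
      have h13 : (1 : ℝ) ≤ Real.exp l := Real.one_le_exp hl0.le
      have : 1 ≤ l ^ 2 * Real.exp l := by nlinarith
      nlinarith
    have q2 : (2 * l ^ 2 * Real.exp l + 1) * Real.exp (-(3 * R * K * l)) ≤ η / C1 := by
      calc (2 * l ^ 2 * Real.exp l + 1) * Real.exp (-(3 * R * K * l))
          ≤ (3 * l ^ 2 * Real.exp l) * Real.exp (-(2 * l)) := by
            refine mul_le_mul q1 hx2 (Real.exp_pos _).le (by positivity)
        _ = 3 * l ^ 2 * Real.exp (-l) := by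
            rw [mul_assoc, ← Real.exp_add]; congr 2; ring
        _ ≤ η / C1 := h11
    calc C1 * (2 * l ^ 2 * Real.exp l + 1) * Real.exp (-(3 * R * K * l))
        = C1 * ((2 * l ^ 2 * Real.exp l + 1) * Real.exp (-(3 * R * K * l))) := by ring
      _ ≤ C1 * (η / C1) := mul_le_mul_of_nonneg_left q2 hC10.le
      _ = η := by field_simp

end Pool.Agent.Lib.MP_8cb858_nt.PU
end

section
/-!
# TEX: almost all sets of places are good
-/
namespace Pool.Agent.Lib.MP_8cb858_nt.PU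

open Polynomial NumberField IsDedekindDomain Filter Pool.Agent.Lib.MP_8cb858_nt.SEL
open Pool.Agent.Lib.MP_8cb858_nt.PF
open scoped Classical WithZero Topology

namespace TEXM

open Finset

variable {F : Type} [Field F] [NumberField F]

theorem nv_pos (v : Pl F) : 1 ≤ nv v := by
  rw [Nat.one_le_iff_ne_zero]
  unfold nv
  rw [Ne, Ideal.absNorm_eq_zero_iff]
  exact v.ne_bot

theorem nv_le {A : Finset (Pl F)} {v : Pl F} (h : v ∈ A) : nv v ≤ NA A :=
  Finset.single_le_prod' (f := fun v => nv v) (fun v _ => nv_pos v) h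

/-- the places of norm at most `x` -/
noncomputable def TT (hf : ∀ x : ℝ, {v : Pl F | (nv v : ℝ) ≤ x}.Finite) (x : ℝ) : Finset (Pl F) :=
  (hf x).toFinset

theorem mem_TT {hf : ∀ x : ℝ, {v : Pl F | (nv v : ℝ) ≤ x}.Finite} {x : ℝ} {v : Pl F} :
    v ∈ TT hf x ↔ (nv v : ℝ) ≤ x := by
  unfold TT
  rw [Set.Finite.mem_toFinset]
  rfl

/-- two places in one window -/
theorem pairs {hf : ∀ x : ℝ, {v : Pl F | (nv v : ℝ) ≤ x}.Finite} {C1 Y δ w L c : ℝ}
    (hU : ∀ (ι : Type) (s : Finset ι) (B : ι → Finset (Pl F)) (E : Set (Finset (Pl F))),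
      E ⊆ WS ∅ Y → (∀ A ∈ E, ∃ i ∈ s, B i ⊆ A) →
      (E.ncard : ℝ) ≤ C1 * Y * ∑ i ∈ s, 1 / (NA (B i) : ℝ))
    (hCY : 0 ≤ C1 * Y) (hc : 0 ≤ c)
    (hsum : ∀ (j : ℕ) (T : Finset (Pl F)), (∀ v ∈ T, v ∈ WJ F δ w j) →
      ∑ v ∈ T, 1 / (nv v : ℝ) ≤ c)
    (hall : ∑ v ∈ TT hf Y, 1 / (nv v : ℝ) ≤ L) :
    (({A ∈ WS (∅ : Finset (Pl F)) Y |
      ¬ Set.InjOn (fun v : Pl F => wn δ (nv v)) (LG w A : Set (Pl F))} :
        Set (Finset (Pl F))).ncard : ℝ) ≤ C1 * Y * (L * c) := by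
  have h1 := hU (Pl F × Pl F) ((TT hf Y).sigma (fun v => (TT hf Y).filter
      (fun v' => v ≠ v' ∧ v' ∈ WJ F δ w (wn δ (nv v)))) |>.image (fun x => (x.1, x.2)))
    (fun p => {p.1, p.2})
    {A ∈ WS (∅ : Finset (Pl F)) Y |
      ¬ Set.InjOn (fun v : Pl F => wn δ (nv v)) (LG w A : Set (Pl F))} (fun A hA => hA.1) (by
      rintro A ⟨hA, hn⟩
      unfold Set.InjOn at hn
      push Not at hn
      obtain ⟨v, hv, v', hv', he, hne⟩ := hn
      have h1 : v ∈ A ∧ w < (nv v : ℝ) := by simpa [LG] using hv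
      have h2 : v' ∈ A ∧ w < (nv v' : ℝ) := by simpa [LG] using hv'
      have h3 : ∀ u ∈ A, (nv u : ℝ) ≤ Y := fun u hu => by
        have : (nv u : ℝ) ≤ NA A := by exact_mod_cast nv_le hu
        exact this.trans hA.2
      refine ⟨(v, v'), ?_, ?_⟩
      · refine mem_image.2 ⟨⟨v, v'⟩, ?_, rfl⟩
        rw [mem_sigma]
        refine ⟨mem_TT.2 (h3 v h1.1), ?_⟩
        rw [mem_filter]
        exact ⟨mem_TT.2 (h3 v' h2.1), hne, h2.2, he.symm⟩
      · intro u hu
        simp only [mem_insert, mem_singleton] at hu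
        rcases hu with rfl | rfl
        · exact h1.1
        · exact h2.1)
  refine h1.trans (mul_le_mul_of_nonneg_left ?_ hCY)
  have hinj : ∀ x ∈ (TT hf Y).sigma (fun v => (TT hf Y).filter
      (fun v' => v ≠ v' ∧ v' ∈ WJ F δ w (wn δ (nv v)))), ∀ y ∈ (TT hf Y).sigma (fun v =>
      (TT hf Y).filter (fun v' => v ≠ v' ∧ v' ∈ WJ F δ w (wn δ (nv v)))),
      ((x.1, x.2) : Pl F × Pl F) = (y.1, y.2) → x = y := by
    rintro ⟨a, b⟩ _ ⟨c, d⟩ _ h
    simp only [Prod.mk.injEq] at h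
    obtain ⟨rfl, rfl⟩ := h
    rfl
  rw [Finset.sum_image hinj, Finset.sum_sigma]
  have h2 : ∀ v ∈ TT hf Y, ∑ v' ∈ (TT hf Y).filter
      (fun v' => v ≠ v' ∧ v' ∈ WJ F δ w (wn δ (nv v))), 1 / (NA ({v, v'} : Finset (Pl F)) : ℝ) ≤
      1 / (nv v : ℝ) * c := by
    intro v _
    calc ∑ v' ∈ (TT hf Y).filter (fun v' => v ≠ v' ∧ v' ∈ WJ F δ w (wn δ (nv v))),
          1 / (NA ({v, v'} : Finset (Pl F)) : ℝ)
        = ∑ v' ∈ (TT hf Y).filter (fun v' => v ≠ v' ∧ v' ∈ WJ F δ w (wn δ (nv v))),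
          1 / (nv v : ℝ) * (1 / (nv v' : ℝ)) := by
          refine Finset.sum_congr rfl fun v' hv' => ?_
          rw [mem_filter] at hv'
          have : NA ({v, v'} : Finset (Pl F)) = nv v * nv v' := by
            unfold NA
            rw [Finset.prod_pair hv'.2.1]
          rw [this]
          push_cast
          rw [one_div_mul_one_div]
      _ = 1 / (nv v : ℝ) * ∑ v' ∈ (TT hf Y).filter
            (fun v' => v ≠ v' ∧ v' ∈ WJ F δ w (wn δ (nv v))), 1 / (nv v' : ℝ) := by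
          rw [Finset.mul_sum]
      _ ≤ 1 / (nv v : ℝ) * c := by
          refine mul_le_mul_of_nonneg_left (hsum (wn δ (nv v)) _ fun v' hv' => ?_) (by positivity)
          exact (mem_filter.1 hv').2.2
  calc _ ≤ ∑ v ∈ TT hf Y, 1 / (nv v : ℝ) * c := Finset.sum_le_sum h2
    _ = (∑ v ∈ TT hf Y, 1 / (nv v : ℝ)) * c := by rw [Finset.sum_mul]
    _ ≤ L * c := mul_le_mul_of_nonneg_right hall hc

/-- a poor window -/
theorem poor {hf : ∀ x : ℝ, {v : Pl F | (nv v : ℝ) ≤ x}.Finite} {C1 Y δ E w c : ℝ}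
    (hU : ∀ (ι : Type) (s : Finset ι) (B : ι → Finset (Pl F)) (E : Set (Finset (Pl F))),
      E ⊆ WS ∅ Y → (∀ A ∈ E, ∃ i ∈ s, B i ⊆ A) →
      (E.ncard : ℝ) ≤ C1 * Y * ∑ i ∈ s, 1 / (NA (B i) : ℝ))
    (hCY : 0 ≤ C1 * Y)
    (hsum : ∀ T : Finset (Pl F),
      (∀ v ∈ T, w < (nv v : ℝ) ∧ (nv v : ℝ) ≤ Y ∧ ((WJ F δ w (wn δ (nv v))).ncard : ℝ) < E) →
      ∑ v ∈ T, 1 / (nv v : ℝ) ≤ c) :
    (({A ∈ WS (∅ : Finset (Pl F)) Y | ∃ v ∈ A, w < (nv v : ℝ) ∧
      ((WJ F δ w (wn δ (nv v))).ncard : ℝ) < E} : Set (Finset (Pl F))).ncard : ℝ) ≤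
      C1 * Y * c := by
  have h1 := hU (Pl F) ((TT hf Y).filter (fun v => w < (nv v : ℝ) ∧
      ((WJ F δ w (wn δ (nv v))).ncard : ℝ) < E)) (fun v => {v})
    {A ∈ WS (∅ : Finset (Pl F)) Y | ∃ v ∈ A, w < (nv v : ℝ) ∧
      ((WJ F δ w (wn δ (nv v))).ncard : ℝ) < E} (fun A hA => hA.1) (by
      rintro A ⟨hA, v, hv, h2, h3⟩
      have h4 : (nv v : ℝ) ≤ Y := by
        have : (nv v : ℝ) ≤ NA A := by exact_mod_cast nv_le hv
        exact this.trans hA.2
      exact ⟨v, mem_filter.2 ⟨mem_TT.2 h4, h2, h3⟩, by simpa using hv⟩)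
  refine h1.trans (mul_le_mul_of_nonneg_left ?_ hCY)
  have h2 : ∑ v ∈ (TT hf Y).filter (fun v => w < (nv v : ℝ) ∧
      ((WJ F δ w (wn δ (nv v))).ncard : ℝ) < E), 1 / (NA ({v} : Finset (Pl F)) : ℝ) =
      ∑ v ∈ (TT hf Y).filter (fun v => w < (nv v : ℝ) ∧
      ((WJ F δ w (wn δ (nv v))).ncard : ℝ) < E), 1 / (nv v : ℝ) := by
    refine Finset.sum_congr rfl fun v _ => ?_
    unfold NA
    rw [Finset.prod_singleton]
  rw [h2]
  refine hsum _ fun v hv => ?_
  rw [mem_filter, mem_TT] at hv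
  exact ⟨hv.2.1, hv.1, hv.2.2⟩

end TEXM

open Finset TEXM in
theorem specTEX (hWSU : SpecWSU) (hTUR : SpecTUR) (hMEU : SpecMEU) (hMEL : SpecMEL)
    (hWIN : SpecWIN) (hTAS : SpecTAS) (hDNV : SpecDNV) : SpecTEX := by
  intro F _ _ S ε r0 hε
  have hf : ∀ x : ℝ, {v : Pl F | (nv v : ℝ) ≤ x}.Finite := (hDNV F).2.2.1
  obtain ⟨C1, hC1, hbd⟩ := hWSU.bd F
  obtain ⟨C2, hC2, htur⟩ := hTUR F
  obtain ⟨CU, hCU, hmeu⟩ := hMEU F
  obtain ⟨CL, hCL, hmel⟩ := hMEL F
  obtain ⟨C0, hC0⟩ : ∃ C0, C0 = max CU CL := ⟨_, rfl⟩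
  have hC0U : CU ≤ C0 := hC0 ▸ le_max_left _ _
  have hC0L : CL ≤ C0 := hC0 ▸ le_max_right _ _
  have hC00 : 0 < C0 := by linarith
  obtain ⟨n, hnn⟩ : ∃ n : ℝ, n = (Module.finrank ℚ F : ℝ) := ⟨_, rfl⟩
  have hn1 : 1 ≤ n := by
    rw [hnn]
    have : 1 ≤ Module.finrank ℚ F := Module.finrank_pos
    exact_mod_cast this
  obtain ⟨W, hW⟩ : ∃ W : ℝ, ∀ v ∈ S, (nv v : ℝ) ≤ W :=
    ⟨∑ v ∈ S, (nv v : ℝ), fun v hv =>
      Finset.single_le_sum (f := fun v => (nv v : ℝ)) (fun _ _ => Nat.cast_nonneg _) hv⟩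
  obtain ⟨R, hR⟩ : ∃ R : ℝ, R = (r0 : ℝ) + 1 := ⟨_, rfl⟩
  have hR1 : 1 ≤ R := by rw [hR]; have : (0 : ℝ) ≤ r0 := Nat.cast_nonneg _; linarith
  obtain ⟨η, hη⟩ : ∃ η : ℝ, η = min (ε / 8) (1 / 2) := ⟨_, rfl⟩
  have hη0 : 0 < η := by rw [hη]; exact lt_min (by positivity) (by norm_num)
  have hηε : 8 * η ≤ ε := by have := min_le_left (ε / 8) (1 / 2 : ℝ); rw [← hη] at this; linarith
  have hη2 : η ≤ 1 / 2 := by rw [hη]; exact min_le_right _ _
  have hCn : 1 ≤ C1 * n := one_le_mul_of_one_le_of_one_le hC1 hn1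
  obtain ⟨K, hK⟩ : ∃ K : ℝ, K = 2 * C1 * n / η := ⟨_, rfl⟩
  have hKη : K * η = 2 * C1 * n := by rw [hK]; field_simp
  have hK1 : 1 ≤ K := by rw [hK, le_div_iff₀ hη0]; linarith
  have hev := hTAS n C1 C2 C0 R K η W hn1 hC1 hC2 hC00 hR1 hK1 hη0
  have hlim : Tendsto (fun Y : ℝ => Real.log (Real.log Y)) atTop atTop :=
    Real.tendsto_log_atTop.comp Real.tendsto_log_atTop
  obtain ⟨YT, hYT⟩ := htur η hη0
  obtain ⟨Y0, hY0⟩ := eventually_atTop.1 ((hlim.eventually hev).and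
    ((eventually_ge_atTop YT).and (eventually_ge_atTop 27)))
  refine ⟨Y0, fun Y hY => ?_⟩
  obtain ⟨⟨e1, e2, e3, e4, e5, e6, e7, e8, e9, e10⟩, hY2, hY3⟩ := hY0 Y hY
  obtain ⟨l, hl⟩ : ∃ l : ℝ, l = Real.log (Real.log Y) := ⟨_, rfl⟩
  rw [← hl] at e1 e2 e3 e4 e5 e6 e7 e8 e9 e10
  have hl0 : 0 < l := by linarith
  have hYpos : 0 < Y := by linarith
  have hlogY : 0 < Real.log Y := Real.log_pos (by linarith)
  have hexpl : Real.exp l = Real.log Y := by rw [hl, Real.exp_log hlogY]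
  obtain ⟨w, hw⟩ : ∃ w : ℝ, w = Real.exp (4 * R * K * l) := ⟨_, rfl⟩
  obtain ⟨M, hMd⟩ : ∃ M : ℕ, M = ⌊K * l⌋₊ := ⟨_, rfl⟩
  obtain ⟨δ, hδ⟩ : ∃ δ : ℝ, δ = 1 / l ^ 2 := ⟨_, rfl⟩
  obtain ⟨E, hE⟩ : ∃ E : ℝ, E = Real.exp (R * K * l) := ⟨_, rfl⟩
  have hRK : 1 ≤ R * K := one_le_mul_of_one_le_of_one_le hR1 hK1
  have hRKl : l ≤ R * K * l := le_mul_of_one_le_left hl0.le hRK
  have hδ0 : 0 < δ := by rw [hδ]; positivity
  have hδ1 : δ ≤ 1 := by rw [hδ, div_le_one (by positivity)]; exact one_le_pow₀ (by linarith)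
  have hE0 : 0 < E := by rw [hE]; exact Real.exp_pos _
  have hw0 : 0 < w := by rw [hw]; exact Real.exp_pos _
  have hwl : 4 * R * K * l + 1 ≤ w := by rw [hw]; exact Real.add_one_le_exp _
  have hw3 : 3 ≤ w := by linarith
  have hwlog : Real.log (Real.log w) = Real.log (4 * R * K * l) := by rw [hw, Real.log_exp]
  have hwinv : 1 / w = Real.exp (-(4 * R * K * l)) := by rw [hw, Real.exp_neg, one_div]
  have hMKl : (M : ℝ) ≤ K * l := by rw [hMd]; exact Nat.floor_le (by positivity)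
  have hEw : E ≤ w := by rw [hE, hw]; exact Real.exp_le_exp.2 (by linarith)
  refine ⟨δ, E, w, M, hδ0, ?_, by linarith, ?_, ?_, hEw, ?_⟩
  · have h1 : (1 + δ) ^ M ≤ Real.exp (M * δ) := by
      rw [Real.exp_nat_mul]
      refine pow_le_pow_left₀ (by linarith) ?_ M
      have := Real.add_one_le_exp δ
      linarith
    have h2 : (M : ℝ) * δ ≤ 1 / 2 := by
      have h3 : (M : ℝ) * δ ≤ K * l * δ := mul_le_mul_of_nonneg_right hMKl hδ0.le
      have h4 : K * l * δ = K / l := by rw [hδ]; field_simp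
      have h5 : K / l ≤ 1 / 2 := by rw [div_le_iff₀ hl0]; linarith
      linarith
    have h6 : Real.exp (M * δ) ≤ 2 := by
      rw [← Real.le_log_iff_exp_le (by norm_num)]
      have := Real.log_two_gt_d9
      linarith
    linarith
  · intro v hv
    have := hW v hv
    linarith
  · rw [hE]
    refine Real.exp_le_exp.2 ?_
    have h1 : (r0 : ℝ) * M ≤ R * (K * l) :=
      mul_le_mul (by rw [hR]; linarith) hMKl (Nat.cast_nonneg _) (by linarith)
    linarith
  obtain ⟨-, hunion, hmark⟩ := hbd Y hYpos.le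
  have hCY : 0 ≤ C1 * Y := by positivity
  -- sums over places
  have hsY : ∑ v ∈ TT hf Y, 1 / (nv v : ℝ) ≤ n * (l + C0) := by
    have h1 := hmeu Y (by linarith) (TT hf Y) fun v hv => mem_TT.1 hv
    rw [← hl, ← hnn] at h1
    exact h1.trans (mul_le_mul_of_nonneg_left (by linarith) (by linarith))
  have hsw : ∑ v ∈ TT hf w, 1 / (nv v : ℝ) ≤ n * (Real.log (4 * R * K * l) + C0) := by
    have h1 := hmeu w hw3 (TT hf w) fun v hv => mem_TT.1 hv
    rw [hwlog, ← hnn] at h1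
    exact h1.trans (mul_le_mul_of_nonneg_left (by linarith) (by linarith))
  -- the places for Turan
  obtain ⟨z, hz⟩ : ∃ z : ℝ, z = Y ^ (1 / 3 : ℝ) := ⟨_, rfl⟩
  have hz0 : 0 < z := by rw [hz]; positivity
  have hz3 : z ^ 3 = Y := by
    rw [hz, ← Real.rpow_natCast, ← Real.rpow_mul hYpos.le]
    norm_num
  have hz33 : 3 ≤ z := by
    by_contra h
    push Not at h
    have : z ^ 3 < 3 ^ 3 := pow_lt_pow_left₀ h hz0.le (by norm_num)
    rw [hz3] at this
    norm_num at this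
    linarith
  have hlogz : Real.log (Real.log z) = l - Real.log 3 := by
    have h1 : Real.log z = Real.log Y / 3 := by
      rw [hz, Real.log_rpow hYpos]; ring
    rw [h1, Real.log_div hlogY.ne' (by norm_num), hl]
  have hsz : l - Real.log 3 - C0 ≤ ∑ v ∈ TT hf z, 1 / (nv v : ℝ) := by
    obtain ⟨T0, hT0, h1⟩ := hmel z hz33
    have h2 : T0 = TT hf z := by
      ext v; rw [hT0, mem_TT]
    rw [h2, hlogz] at h1
    linarith
  obtain ⟨T, hT⟩ : ∃ T : Finset (Pl F), T = (TT hf z).filter (fun v => w < (nv v : ℝ)) := ⟨_, rfl⟩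
  have hP : l / 2 ≤ ∑ v ∈ T, 1 / (nv v : ℝ) := by
    have h1 := Finset.sum_filter_add_sum_filter_not (TT hf z) (fun v => w < (nv v : ℝ))
      (fun v => 1 / (nv v : ℝ))
    have h2 : ∑ v ∈ (TT hf z).filter (fun v => ¬ w < (nv v : ℝ)), 1 / (nv v : ℝ) ≤
        ∑ v ∈ TT hf w, 1 / (nv v : ℝ) := by
      refine Finset.sum_le_sum_of_subset_of_nonneg ?_ fun _ _ _ => by positivity
      intro v hv
      rw [mem_filter] at hv
      exact mem_TT.2 (not_lt.1 hv.2)
    rw [← hT] at h1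
    linarith
  have hP0 : 0 < ∑ v ∈ T, 1 / (nv v : ℝ) := by linarith
  -- the five exceptional sets
  have X1 := pairs (hf := hf) hunion hCY (c := n * (δ + 1 / w)) (by positivity)
    (fun j T hT => by
      have := hWIN.sum F δ w j T hδ0 hw0 hT
      rw [← hnn] at this
      exact this) hsY
  have X2 := hmark (TT hf Y) (K * l) (by positivity)
  have X3 := hmark (TT hf w) (l / (4 * R)) (by positivity)
  have X4 := hYT Y hY2 T (fun v hv => by
    rw [hT, mem_filter, mem_TT] at hv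
    rw [← hz3]
    exact pow_le_pow_left₀ (Nat.cast_nonneg _) hv.1 3) hP0
  have X5 := poor (hf := hf) hunion hCY (δ := δ) (E := E) (w := w)
    (c := (Real.log Y / Real.log (1 + δ) + 1) * E / w)
    (fun T hT => hWIN.poor F δ w E Y T hδ0 hw0 hE0.le (by linarith) hT)
  have x1 : C1 * Y * (n * (l + C0) * (n * (δ + 1 / w))) ≤ η * Y := by
    have h1 : C1 * n ^ 2 * (l + C0) * (1 / l ^ 2 + Real.exp (-(4 * R * K * l))) =
        C1 * (n * (l + C0) * (n * (δ + 1 / w))) := by rw [hδ, hwinv]; ring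
    rw [h1] at e7
    have := mul_le_mul_of_nonneg_right e7 hYpos.le
    linarith
  have x2 : C1 * Y * ((∑ v ∈ TT hf Y, 1 / (nv v : ℝ)) / (K * l)) ≤ η * Y := by
    have h1 : C1 * ((∑ v ∈ TT hf Y, 1 / (nv v : ℝ)) / (K * l)) ≤ η := by
      rw [← mul_div_assoc, div_le_iff₀ (by positivity)]
      have h2 : ∑ v ∈ TT hf Y, 1 / (nv v : ℝ) ≤ n * (2 * l) :=
        hsY.trans (mul_le_mul_of_nonneg_left (by linarith) (by linarith))
      calc C1 * ∑ v ∈ TT hf Y, 1 / (nv v : ℝ) ≤ C1 * (n * (2 * l)) :=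
            mul_le_mul_of_nonneg_left h2 (by linarith)
        _ = K * η * l := by rw [hKη]; ring
        _ = η * (K * l) := by ring
    have := mul_le_mul_of_nonneg_right h1 hYpos.le
    linarith
  have x3 : C1 * Y * ((∑ v ∈ TT hf w, 1 / (nv v : ℝ)) / (l / (4 * R))) ≤ η * Y := by
    have h1 : C1 * ((∑ v ∈ TT hf w, 1 / (nv v : ℝ)) / (l / (4 * R))) ≤ η := by
      rw [div_div_eq_mul_div, ← mul_div_assoc, div_le_iff₀ hl0]
      refine le_trans ?_ e8
      calc C1 * ((∑ v ∈ TT hf w, 1 / (nv v : ℝ)) * (4 * R))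
          = (∑ v ∈ TT hf w, 1 / (nv v : ℝ)) * (C1 * (4 * R)) := by ring
        _ ≤ n * (Real.log (4 * R * K * l) + C0) * (C1 * (4 * R)) :=
            mul_le_mul_of_nonneg_right hsw (by positivity)
        _ = _ := by ring
    have := mul_le_mul_of_nonneg_right h1 hYpos.le
    linarith
  have x4 : Y * (η + C2 / ∑ v ∈ T, 1 / (nv v : ℝ)) ≤ 2 * η * Y := by
    have h1 : C2 / ∑ v ∈ T, 1 / (nv v : ℝ) ≤ η := by
      rw [div_le_iff₀ hP0]
      have := mul_le_mul_of_nonneg_left hP hη0.le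
      linarith
    have := mul_le_mul_of_nonneg_left h1 hYpos.le
    linarith
  have x5 : C1 * Y * ((Real.log Y / Real.log (1 + δ) + 1) * E / w) ≤ η * Y := by
    have hlg : 0 < Real.log (1 + δ) := Real.log_pos (by linarith)
    have h1 : Real.log Y / Real.log (1 + δ) ≤ 2 * l ^ 2 * Real.exp l := by
      have h2 : δ / 2 ≤ Real.log (1 + δ) := by
        have h3 := Real.one_sub_inv_le_log_of_pos (x := 1 + δ) (by linarith)
        have h4 : δ / 2 ≤ 1 - (1 + δ)⁻¹ := by
          have h5 : 1 - (1 + δ)⁻¹ = δ / (1 + δ) := by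
            field_simp; ring
          rw [h5, div_le_div_iff₀ (by norm_num) (by linarith)]
          exact mul_le_mul_of_nonneg_left (by linarith) hδ0.le
        linarith
      rw [div_le_iff₀ hlg, hexpl]
      calc Real.log Y = 2 * l ^ 2 * Real.log Y * (δ / 2) := by rw [hδ]; field_simp
        _ ≤ _ := mul_le_mul_of_nonneg_left h2 (by positivity)
    have h2 : E / w = Real.exp (-(3 * R * K * l)) := by
      rw [hE, hw, ← Real.exp_sub]; congr 1; ring
    have h3 : C1 * ((Real.log Y / Real.log (1 + δ) + 1) * E / w) ≤ η := by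
      rw [mul_div_assoc, h2]
      refine le_trans ?_ e10
      rw [← mul_assoc]
      refine mul_le_mul_of_nonneg_right ?_ (Real.exp_pos _).le
      exact mul_le_mul_of_nonneg_left (by linarith) (by linarith)
    have := mul_le_mul_of_nonneg_right h3 hYpos.le
    linarith
  -- the inclusion
  have hfinU : ∀ P : Finset (Pl F) → Prop, ({A ∈ WS (∅ : Finset (Pl F)) Y | P A}).Finite :=
    fun P => (hWSU.fin F ∅ Y).subset fun A hA => hA.1
  have hunioncard : ∀ s t : Set (Finset (Pl F)), ((s ∪ t).ncard : ℝ) ≤ s.ncard + t.ncard := by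
    intro s t
    exact_mod_cast Set.ncard_union_le s t
  have hsub : {A ∈ WS S Y | ¬ Gw δ E w M r0 A} ⊆
      {A ∈ WS (∅ : Finset (Pl F)) Y |
        ¬ Set.InjOn (fun v : Pl F => wn δ (nv v)) (LG w A : Set (Pl F))} ∪
      ({A ∈ WS (∅ : Finset (Pl F)) Y |
        K * l ≤ (((TT hf Y).filter (fun v => v ∈ A)).card : ℝ)} ∪
      ({A ∈ WS (∅ : Finset (Pl F)) Y |
        l / (4 * R) ≤ (((TT hf w).filter (fun v => v ∈ A)).card : ℝ)} ∪
      ({A ∈ WS (∅ : Finset (Pl F)) Y |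
        ((T.filter (fun v => v ∈ A)).card : ℝ) < (∑ v ∈ T, 1 / (nv v : ℝ)) / 2} ∪
      {A ∈ WS (∅ : Finset (Pl F)) Y | ∃ v ∈ A, w < (nv v : ℝ) ∧
        ((WJ F δ w (wn δ (nv v))).ncard : ℝ) < E}))) := by
    rintro A ⟨hA, hbad⟩
    have hA' : A ∈ WS (∅ : Finset (Pl F)) Y := ⟨fun v _ => by simp, hA.2⟩
    by_contra hcon
    simp only [Set.mem_union, Set.mem_ofPred_eq, hA', true_and, not_or, not_not] at hcon
    obtain ⟨u1, u2, u3, u4, u5⟩ := hcon
    apply hbad
    push Not at u2 u3 u4 u5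
    have hAY : ∀ v ∈ A, (nv v : ℝ) ≤ Y := fun v hv => by
      have : (nv v : ℝ) ≤ NA A := by exact_mod_cast nv_le hv
      exact this.trans hA.2
    have hcA : ((LG w A).card : ℝ) ≤ (((TT hf Y).filter (fun v => v ∈ A)).card : ℝ) := by
      have : LG w A ⊆ (TT hf Y).filter (fun v => v ∈ A) := by
        intro v hv
        unfold LG at hv
        rw [mem_filter] at hv ⊢
        exact ⟨mem_TT.2 (hAY v hv.1), hv.1⟩
      exact_mod_cast card_le_card this
    have hcT : ((T.filter (fun v => v ∈ A)).card : ℝ) ≤ ((LG w A).card : ℝ) := by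
      have : T.filter (fun v => v ∈ A) ⊆ LG w A := by
        intro v hv
        rw [mem_filter, hT, mem_filter] at hv
        unfold LG
        rw [mem_filter]
        exact ⟨hv.2, hv.1.2⟩
      exact_mod_cast card_le_card this
    have hcS : ((SG w A).card : ℝ) ≤ (((TT hf w).filter (fun v => v ∈ A)).card : ℝ) := by
      have : SG w A ⊆ (TT hf w).filter (fun v => v ∈ A) := by
        intro v hv
        unfold SG at hv
        rw [mem_filter] at hv ⊢
        exact ⟨mem_TT.2 hv.2, hv.1⟩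
      exact_mod_cast card_le_card this
    have hl4 : l / 4 ≤ ((LG w A).card : ℝ) := by linarith
    refine ⟨u1, ?_, ?_, ?_, ?_⟩
    · rw [hMd]
      exact Nat.le_floor (by linarith)
    · have h1 : (r0 : ℝ) * ((SG w A).card : ℝ) ≤ ((LG w A).card : ℝ) := by
        calc (r0 : ℝ) * ((SG w A).card : ℝ) ≤ R * (l / (4 * R)) := by
              refine mul_le_mul (by rw [hR]; linarith) (by linarith) (Nat.cast_nonneg _)
                (by linarith)
          _ = l / 4 := by field_simp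
          _ ≤ _ := hl4
      exact_mod_cast h1
    · have h1 : (r0 : ℝ) ≤ ((LG w A).card : ℝ) := by
        have : (r0 : ℝ) ≤ R := by rw [hR]; linarith
        linarith
      exact_mod_cast h1
    · intro v hv
      unfold LG at hv
      rw [mem_filter] at hv
      exact u5 v hv.1 hv.2
  have hle : (({A ∈ WS S Y | ¬ Gw δ E w M r0 A} : Set (Finset (Pl F))).ncard : ℝ) ≤ _ :=
    Nat.cast_le.2 (Set.ncard_le_ncard hsub (Set.Finite.union (hfinU _) (Set.Finite.union (hfinU _)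
      (Set.Finite.union (hfinU _) (Set.Finite.union (hfinU _) (hfinU _))))))
  refine hle.trans ?_
  refine (hunioncard _ _).trans ?_
  refine (add_le_add_right ((hunioncard _ _).trans (add_le_add_right ((hunioncard _ _).trans
        (add_le_add_right (hunioncard _ _) _)) _)) _).trans ?_
  have y1 := X1.trans x1
  have y2 := X2.trans x2
  have y3 := X3.trans x3
  have y4 := X4.trans x4
  have y5 := X5.trans x5
  have y6 := mul_le_mul_of_nonneg_right hηε hYpos.le
  have y7 : 0 ≤ η * Y := by positivity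
  linarith

end Pool.Agent.Lib.MP_8cb858_nt.PU
end
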