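import Pool.Agent.Lib.MP_8cb858_nt.PT.SpecE
import Pool.Agent.Lib.MP_8cb858_nt.PU.KRH
import Pool.Agent.Lib.MP_8cb858_nt.PU.SpecE

section
/-!
# SUH: many global classes which are unit classes outside `S` and `M` (port of `PF/SU.lean`)
-/
set_option autoImplicit false

namespace Pool.Agent.Lib.MP_8cb858_nt.PT

open Polynomial NumberField IsDedekindDomain Pool.Agent.Lib.MP_8cb858_nt.SEL
open Pool.Agent.Lib.MP_8cb858_nt.PF
open scoped Classical WithZero

namespace SUHM

set_option linter.unusedSectionVars false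

variable {F L : Type} [Field F] [NumberField F] [Field L] [NumberField L] [Algebra F L]

/-- The projection to the classes of square norm. -/
noncomputable def pj (x : L) : L := x * algebraMap F L (Algebra.norm F x)

theorem pj_ne {x : L} (hx : x ≠ 0) : pj (F := F) x ≠ 0 := by
  have h0 : Algebra.norm F x ≠ 0 := Algebra.norm_ne_zero_iff.mpr hx
  exact mul_ne_zero hx ((_root_.map_ne_zero _).mpr h0)

theorem norm_pj (h3 : Module.finrank F L = 3) (x : L) :
    Algebra.norm F (pj (F := F) x) = (Algebra.norm F x ^ 2) ^ 2 := by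
  unfold pj
  rw [map_mul, Algebra.norm_algebraMap, h3]
  ring

/-- the place under a place is unique -/
theorem over_eq {v v' : HeightOneSpectrum (𝓞 F)} {w : HeightOneSpectrum (𝓞 L)}
    (h : xt L v.asIdeal ≤ w.asIdeal) (h' : xt L v'.asIdeal ≤ w.asIdeal) : v = v' := by
  have h1 : v.asIdeal ≤ w.asIdeal.comap (algebraMap (𝓞 F) (𝓞 L)) :=
    Ideal.map_le_iff_le_comap.mp h
  have h2 : v'.asIdeal ≤ w.asIdeal.comap (algebraMap (𝓞 F) (𝓞 L)) :=
    Ideal.map_le_iff_le_comap.mp h'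
  have h3 : w.asIdeal.comap (algebraMap (𝓞 F) (𝓞 L)) ≠ ⊤ := by
    intro h
    exact w.isPrime.ne_top (Ideal.comap_eq_top_iff.mp h)
  have h4 := v.isMaximal.eq_of_le h3 h1
  have h5 := v'.isMaximal.eq_of_le h3 h2
  exact HeightOneSpectrum.ext (h4.trans h5.symm)

theorem dist_aux {x y c e U g : L} (hy : y ≠ 0) (hc : c ≠ 0) (hU : U * e = 1)
    (hG : g ^ 2 = (x * y) * c * e) : x = U * c⁻¹ * y * (g / y) ^ 2 := by
  have h1 : U * c⁻¹ * y * (g / y) ^ 2 = (U * e) * x := by
    rw [div_pow, hG]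
    field_simp
  rw [h1, hU, one_mul]

end SUHM

open SUHM

theorem specSUH (hSUF : SpecSUF) (hSRQ : SpecSRQ) (hSIR : PF.SpecSIR)
    (hSPQ : PF.SpecSPQ) (hSPX : PF.SpecSPX) (hSEJ : PF.SpecSEJ) (hSCT : PF.SpecSCT)
    (hSEV : PF.SpecSEV) : SpecSUH := by
  intro F _ _ a b S M hdsc hw _ hSM hD hS
  obtain ⟨w0, hw0⟩ := hw
  obtain ⟨hirr, hfin⟩ := hSIR F a b w0 hw0
  have : Fact (Irreducible (fpol (a : F) (b : F))) := ⟨hirr⟩
  set L := Lk (a : F) (b : F) with hL
  set n := Module.finrank ℚ F + nth (a : F) (b : F) with hn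
  obtain ⟨E, hEN, hEd⟩ := hSUF F L (nth (a : F) (b : F)) (hSRQ F (a : F) (b : F))
  -- the ideals over the places of `S` and `M`
  have hexS : ∀ k : S, ∃ (J : Ideal (𝓞 L)) (w : HeightOneSpectrum (𝓞 L)), xt L k.1.asIdeal ≤ J ∧
      Ideal.relNorm (𝓞 F) J = k.1.asIdeal ^ 2 ∧ J ≤ w.asIdeal ∧ ¬ J ≤ w.asIdeal ^ 2 := by
    rintro ⟨k, hk⟩
    obtain ⟨x, hx, hx'⟩ := hS k hk
    obtain ⟨P, Q, h1, h2, h3⟩ := hSPQ F a b k x hx hx'
    exact hSPX F L k P Q hfin h1 h2 h3
  choose JS wS hS1 hS2 hS3 hS4 using hexS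
  have hexM : ∀ k : M, _ := fun k => hSEJ F a b k.1 hdsc
  choose d JM wM hM0 hM1 hM2 hM3 hM4 hM5 using hexM
  let I : Type := S ⊕ (Σ k : M, Fin (d k))
  let qI : I → HeightOneSpectrum (𝓞 F) := Sum.elim (fun k => k.1) (fun z => z.1.1)
  let JI : I → Ideal (𝓞 L) := Sum.elim JS (fun z => JM z.1 z.2)
  let wI : I → HeightOneSpectrum (𝓞 L) := Sum.elim wS (fun z => wM z.1 z.2)
  have hI1 : ∀ k, xt L (qI k).asIdeal ≤ JI k := by
    rintro (k | ⟨k, i⟩)
    exacts [hS1 k, hM1 k i]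
  have hI2 : ∀ k, Ideal.relNorm (𝓞 F) (JI k) = (qI k).asIdeal ^ 2 := by
    rintro (k | ⟨k, i⟩)
    exacts [hS2 k, hM2 k i]
  have hI3 : ∀ k, JI k ≤ (wI k).asIdeal := by
    rintro (k | ⟨k, i⟩)
    exacts [hS3 k, hM3 k i]
  have hI4 : ∀ k, ¬ JI k ≤ (wI k).asIdeal ^ 2 := by
    rintro (k | ⟨k, i⟩)
    exacts [hS4 k, hM4 k i]
  have hI5 : ∀ k l, k ≠ l → ¬ JI l ≤ (wI k).asIdeal := by
    intro k l hkl h
    have hq : qI k = qI l := over_eq ((hI1 k).trans (hI3 k)) ((hI1 l).trans h)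
    rcases k with k | ⟨k, i⟩ <;> rcases l with l | ⟨l, j⟩
    · exact hkl (congrArg Sum.inl (Subtype.ext hq))
    · exact hSM k.1 k.2 ((show k.1 = l.1 from hq) ▸ l.2)
    · exact hSM l.1 l.2 ((show k.1 = l.1 from hq) ▸ k.2)
    · have hkl' : k = l := Subtype.ext hq
      subst hkl'
      exact hM5 k i j (fun e => hkl (by rw [e])) h
  have hIS : ∀ k, qI k ∈ S ∨ qI k ∈ M := by
    rintro (k | ⟨k, i⟩)
    exacts [Or.inl k.2, Or.inr k.2]
  set m := Fintype.card I with hm
  have hmc : 2 ^ m = 2 ^ S.card * ∏ v ∈ M, (1 + nr a b v) := by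
    rw [hm, Fintype.card_sum, Fintype.card_coe, Fintype.card_sigma, pow_add, ← Finset.prod_coe_sort,
      ← Finset.prod_pow_eq_pow_sum]
    congr 1
    refine Finset.prod_congr rfl fun k _ => ?_
    rw [Fintype.card_fin]
    exact hM0 k
  let e : Fin m ≃ I := (Fintype.equivFin I).symm
  let q : Fin m → HeightOneSpectrum (𝓞 F) := fun k => qI (e k)
  obtain ⟨α, hα0, hαv, hαd⟩ := hSCT F L m q (fun k => JI (e k)) (fun k => wI (e k)) hfin
    (fun k l hkl => hI5 _ _ (fun h => hkl (e.injective h))) (fun k => hI1 _) (fun k => hI2 _)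
    (fun k => hI3 _) (fun k => hI4 _)
  have hE0 : ∀ j, ((E j : 𝓞 L) : L) ≠ 0 := by
    intro j h
    have : (E j : 𝓞 L) = 0 := by
      exact_mod_cast (NumberField.RingOfIntegers.coe_eq_zero_iff).mp h
    exact (E j).ne_zero this
  -- the family
  let β : Fin (2 ^ m) × Fin (2 ^ n) → L := fun z => pj (F := F) (α z.1) * ((E z.2 : 𝓞 L) : L)
  have hβ0 : ∀ z, β z ≠ 0 := fun z => mul_ne_zero (pj_ne (hα0 _)) (hE0 _)
  have key : ∀ z z', z ≠ z' → ¬ IsSquare (β z * β z') := by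
    rintro ⟨i, s⟩ ⟨j, t⟩ hzw ⟨γ, hγ⟩
    have hij : i = j := by
      by_contra hij
      have hi := hα0 i
      have hj := hα0 j
      have hNi : Algebra.norm F (α i) ≠ 0 := Algebra.norm_ne_zero_iff.mpr hi
      have hNj : Algebra.norm F (α j) ≠ 0 := Algebra.norm_ne_zero_iff.mpr hj
      refine hαd i j hij ((E s) * (E t))⁻¹ (Algebra.norm F (α i) * Algebra.norm F (α j))⁻¹
        (γ / α j) ?_
      have hU : ((((E s * E t)⁻¹ : (𝓞 L)ˣ) : 𝓞 L) : L) * (((E s : 𝓞 L) : L) * ((E t : 𝓞 L) : L)) = 1 := by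
        rw [← map_mul, ← map_mul, ← Units.val_mul, ← Units.val_mul, inv_mul_cancel, Units.val_one,
          map_one]
      have hG : γ ^ 2 = (α i * α j) * (algebraMap F L (Algebra.norm F (α i)) *
          algebraMap F L (Algebra.norm F (α j))) * (((E s : 𝓞 L) : L) * ((E t : 𝓞 L) : L)) := by
        rw [sq, ← hγ]
        simp only [β, pj]
        ring
      rw [map_inv₀, map_mul (algebraMap F L)]
      exact dist_aux hj (mul_ne_zero ((_root_.map_ne_zero _).mpr hNi) ((_root_.map_ne_zero _).mpr hNj))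
        hU hG
    subst hij
    have hst : s ≠ t := fun h => hzw (by rw [h])
    apply hEd s t hst
    have hai := pj_ne (F := F) (hα0 i)
    refine ⟨γ / pj (F := F) (α i), ?_⟩
    have hG : γ * γ = (pj (F := F) (α i) * pj (F := F) (α i)) *
        (((E s : 𝓞 L) : L) * ((E t : 𝓞 L) : L)) := by
      rw [← hγ]
      simp only [β]
      ring
    rw [div_mul_div_comm, hG, mul_div_cancel_left₀ _ (mul_ne_zero hai hai)]
  have hinj : Function.Injective β := by
    intro z z' h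
    by_contra hzw
    exact key z z' hzw ⟨β z, by rw [← h]⟩
  refine ⟨Finset.univ.image β, ?_, ?_, ?_⟩
  · rw [Finset.card_image_of_injective _ hinj, Finset.card_univ, Fintype.card_prod,
      Fintype.card_fin, Fintype.card_fin, hmc, pow_add]
    apply le_of_eq
    ring
  · intro x hx
    obtain ⟨⟨i, s⟩, -, rfl⟩ := Finset.mem_image.mp hx
    refine ⟨⟨(hβ0 _).isUnit, ?_⟩, ?_⟩
    · have h1 : Algebra.norm F (β (i, s)) = (Algebra.norm F (α i) ^ 2) ^ 2 *
          Algebra.norm F ((E s : 𝓞 L) : L) := by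
        simp only [β]
        rw [map_mul, norm_pj hfin]
      have h2 : IsSquare (Algebra.norm F (β (i, s))) := by
        rw [h1]
        exact (IsSquare.sq _).mul (hEN s)
      exact h2
    · intro v hvS hvM
      refine hSEV F a b v _ (hβ0 _) (fun h => (hD v h).elim hvS hvM) ?_
      intro w hw
      have hqw : ∀ k, ¬ xt L (q k).asIdeal ≤ w.asIdeal := by
        intro k hk
        have hne : q k ≠ v := fun h => (hIS (e k)).elim (fun h' => hvS (h ▸ h')) (fun h' => hvM (h ▸ h'))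
        exact hne (over_eq hk hw)
      have hηw : w.valuation L ((E s : 𝓞 L) : L) = 1 := by
        refine (w.valuation_eq_one_iff_notMem (K := L) (r := (E s : 𝓞 L))).mpr ?_
        intro h
        exact w.isPrime.ne_top (Ideal.eq_top_of_isUnit_mem _ h (E s).isUnit)
      have h6 : w.valuation L (β (i, s)) = w.valuation L (pj (F := F) (α i)) := by
        simp only [β]
        rw [map_mul, hηw, mul_one]
      rw [h6]
      exact hαv i w hqw
  · intro x hx y hy hxy
    obtain ⟨z, -, rfl⟩ := Finset.mem_image.mp hx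
    obtain ⟨z', -, rfl⟩ := Finset.mem_image.mp hy
    exact key z z' (fun h => hxy (by rw [h]))

end Pool.Agent.Lib.MP_8cb858_nt.PT
end

section
/-!
# TRL: triviality is given by a character
-/
set_option autoImplicit false

namespace Pool.Agent.Lib.MP_8cb858_nt.PT

open Polynomial NumberField IsDedekindDomain Pool.Agent.Lib.MP_8cb858_nt.SEL
open Pool.Agent.Lib.MP_8cb858_nt.PF
open scoped Classical WithZero

theorem specTRL (hTVL : SpecTVL) (hBR : PF.SpecBR) (hLS : PF.SpecLS) (hINV : PF.SpecINV)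
    (hNF : PF.SpecNF) : SpecTRL := by
  intro F _ _ a b D v hD0 h6 hDv ht z w
  have hdv : dsc a b ∉ v.asIdeal := by
    have := ht 0
    simpa using this
  have hd0 : dsc a b ≠ 0 := by
    rintro h
    rw [h] at hdv
    exact hdv (Ideal.zero_mem _)
  have hdF : dsc (a : F) (b : F) ≠ 0 := by
    have h2 : ((dsc a b : 𝓞 F) : F) = dsc (a : F) (b : F) := by
      show algebraMap (𝓞 F) F (dsc a b) = dsc (algebraMap (𝓞 F) F a) (algebraMap (𝓞 F) F b)
      unfold dsc
      rw [map_add, map_mul, map_mul, map_pow, map_pow, map_ofNat, map_ofNat]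
    rw [← h2]
    exact fun h => hd0 (RingOfIntegers.coe_eq_zero_iff.1 h)
  have hDF : (D : F) ≠ 0 := Nat.cast_ne_zero.2 hD0.ne'
  obtain ⟨α, hα⟩ := hBR.surj hdF hDF z
  obtain ⟨β, hβ⟩ := hBR.surj hdF hDF w
  have hαβ := hBR.mul hdF hDF α β z w hα hβ
  obtain ⟨e1, t1⟩ := hTVL F a b D v hD0 h6 hDv ht α z hα
  obtain ⟨e2, t2⟩ := hTVL F a b D v hD0 h6 hDv ht β w hβ
  obtain ⟨-, t3⟩ := hTVL F a b D v hD0 h6 hDv ht (α * β) (z + w) hαβ
  rw [t1, t2, t3]
  have hm : ul v (α * β) = ul v α * ul v β := by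
    unfold ul up
    rw [map_mul]
  rw [hm]
  have hV1 : InV (ul v α) := hINV.upv _ α hα.1
  have hV2 : InV (ul v β) := hINV.upv _ β hβ.1
  have hw2 : vv v 2 = 1 := by
    have h2 : (2 : 𝓞 F) ∉ v.asIdeal := fun h => h6 (by
      have h3 : (6 : 𝓞 F) = 3 * 2 := by norm_num
      rw [h3]
      exact Ideal.mul_mem_left _ _ h)
    have h4 := FAPM.eq_one hNF v h2
    rwa [← FAPM.lcr_apply, map_ofNat] at h4
  have hw3 : vv v 3 = 1 := by
    have h2 : (3 : 𝓞 F) ∉ v.asIdeal := fun h => h6 (by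
      have h3 : (6 : 𝓞 F) = 2 * 3 := by norm_num
      rw [h3]
      exact Ideal.mul_mem_left _ _ h)
    have h4 := FAPM.eq_one hNF v h2
    rwa [← FAPM.lcr_apply, map_ofNat] at h4
  have hwd : dsc (lc v a) (lc v b) ≠ 0 := by
    rw [← FACM.lc_dsc, ← FAPM.lcr_apply]
    exact fun h => hd0 (FAPM.lcr_inj v (h.trans (map_zero _).symm))
  have hH := hLS (v.adicCompletion F) (vv v) (lc v a) (lc v b) (hNF.lf F v) hw2 hw3
    (hNF.int F v a 0).1 (hNF.int F v b 0).1 hwd (Or.inl ((hNF.t12 F v a b).2 ht))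
  constructor
  · intro h
    constructor
    · intro h1
      have := hINV.trs 1 (ul v α) (ul v β) hV1.1 (by rw [one_mul]; exact h1) h
      rwa [one_mul] at this
    · intro h1
      have := hINV.trs 1 (ul v β) (ul v α) hV2.1 (by rw [one_mul]; exact h1)
        (by rw [mul_comm]; exact h)
      rwa [one_mul] at this
  · intro h
    by_cases h1 : IsSquare (ul v α)
    · exact h1.mul (h.1 h1)
    · exact hH.c2 _ _ hV1 hV2 e1 e2 h1 (fun h2 => h1 (h.2 h2))

end Pool.Agent.Lib.MP_8cb858_nt.PT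
end

section
/-!
# TRZ: triviality at a prime number is given by a character
-/
namespace Pool.Agent.Lib.MP_8cb858_nt.PT

open Polynomial NumberField IsDedekindDomain Pool.Agent.Lib.MP_8cb858_nt.SEL
open Pool.Agent.Lib.MP_8cb858_nt.PF
open scoped Classical WithZero

namespace TRZM

theorem loc (hTRL : SpecTRL) (a b : 𝓞 ℚ) (A B : ℚ) (hA : (a : ℚ) = A) (hB : (b : ℚ) = B)
    (D : ℕ) (v : HeightOneSpectrum (𝓞 ℚ)) (hD : 0 < D) (h6 : (6 : 𝓞 ℚ) ∉ v.asIdeal)
    (hv : (D : 𝓞 ℚ) ∉ v.asIdeal) (h12 : ∀ x : 𝓞 ℚ, x ^ 2 + dsc a b ∉ v.asIdeal)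
    (z w : Sel 2 (cur A B (D : ℚ))) :
    Triv (a := A) (b := B) (D : ℚ) v (z + w) ↔
      (Triv (a := A) (b := B) (D : ℚ) v z ↔ Triv (a := A) (b := B) (D : ℚ) v w) := by
  subst hA hB
  exact hTRL ℚ a b D v hD h6 hv h12 z w

end TRZM

theorem specTRZ (hTRL : SpecTRL) (hPLQ : SpecPLQ) : SpecTRZ := by
  intro a b D p hp h5 hD hpD hY z w
  obtain ⟨v, hv⟩ := hPLQ.ex p hp
  have hT : ∀ z : Sl a b D, Tz p z ↔ Triv (a := (a : ℚ)) (b := (b : ℚ)) (D : ℚ) v z := by
    intro z
    constructor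
    · rintro ⟨v', hv', h⟩
      rwa [hPLQ.uni p v' v hp hv' hv] at h
    · intro h
      exact ⟨v, hv, h⟩
  rw [hT, hT, hT]
  have h6 : (6 : 𝓞 ℚ) ∉ v.asIdeal := by
    intro h
    have h2 := (hPLQ.mem p v 6 1 hp hv).1 (by rw [pow_one]; exact_mod_cast h)
    rw [pow_one] at h2
    have h3 : p ∣ 6 := by exact_mod_cast h2
    have h4 : p ≤ 6 := Nat.le_of_dvd (by norm_num) h3
    interval_cases p
    · omega
    · exact absurd hp (by norm_num)
  have hDv : (D : 𝓞 ℚ) ∉ v.asIdeal := by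
    intro h
    have h2 := (hPLQ.mem p v D 1 hp hv).1 (by rw [pow_one]; exact_mod_cast h)
    rw [pow_one] at h2
    exact hpD (by exact_mod_cast h2)
  exact TRZM.loc hTRL (a : 𝓞 ℚ) (b : 𝓞 ℚ) (a : ℚ) (b : ℚ) (map_intCast _ a) (map_intCast _ b) D v hD
    h6 hDv ((hPLQ.y12 p v a b hp hv).1 hY) z w

end Pool.Agent.Lib.MP_8cb858_nt.PT
end

section
/-!
# TVL: `Triv` at a place of type (1,2), good for `E^D` (local form; port of `PF/TVS.lean`)
-/
set_option autoImplicit false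

namespace Pool.Agent.Lib.MP_8cb858_nt.PT

open Polynomial NumberField IsDedekindDomain Pool.Agent.Lib.MP_8cb858_nt.SEL
open Pool.Agent.Lib.MP_8cb858_nt.PF
open scoped Classical WithZero

namespace TVLM

theorem val_one (hNF : SpecNF) {F : Type} [Field F] [NumberField F]
    (v : HeightOneSpectrum (𝓞 F)) (x : 𝓞 F) (hx : x ∉ v.asIdeal) :
    vv v (algebraMap F (v.adicCompletion F) (x : F)) = 1 := by
  obtain ⟨h1, h2⟩ := hNF.int F v x 1
  rw [pow_one] at h2
  refine le_antisymm h1 ?_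
  by_contra h
  push Not at h
  apply hx
  rw [h2]
  have h3 := h
  rw [← WithZero.exp_zero] at h3
  by_cases h0 : vv v (algebraMap F (v.adicCompletion F) (x : F)) = 0
  · rw [h0]; exact zero_le
  · rw [← WithZero.exp_log h0] at h3 ⊢
    rw [WithZero.exp_lt_exp] at h3
    rw [WithZero.exp_le_exp]
    push_cast
    omega

theorem exp_neg_le : WithZero.exp (-1 : ℤ) ≤ (1 : ℤᵐ⁰) := by
  rw [← WithZero.exp_zero, WithZero.exp_le_exp]
  norm_num

end TVLM

open TVLM in
theorem specTVL (hBR : SpecBR) (hLG : SpecLG) (hEVA : SpecEVA) (hINV : SpecINV) (hLR : SpecLR)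
    (hNF : SpecNF) : SpecTVL := by
  intro F _ _ a b D v hD0 h6 hDv hT α z hz
  have hint : ∀ x : 𝓞 F, vv v (lc v x) ≤ 1 := fun x => (hNF.int F v x 0).1
  have h2v : (2 : 𝓞 F) ∉ v.asIdeal := fun h => h6 (by
    have := v.asIdeal.mul_mem_left (3 : 𝓞 F) h
    have h' : (3 : 𝓞 F) * 2 = 6 := by norm_num
    rwa [h'] at this)
  have h3v : (3 : 𝓞 F) ∉ v.asIdeal := fun h => h6 (by
    have := v.asIdeal.mul_mem_left (2 : 𝓞 F) h
    have h' : (2 : 𝓞 F) * 3 = 6 := by norm_num
    rwa [h'] at this)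
  have hw2 : vv v (2 : v.adicCompletion F) = 1 := by
    have h := val_one hNF v 2 h2v
    rwa [show ((2 : 𝓞 F) : F) = 2 from map_ofNat (algebraMap (𝓞 F) F) 2, map_ofNat] at h
  have hw3 : vv v (3 : v.adicCompletion F) = 1 := by
    have h := val_one hNF v 3 h3v
    rwa [show ((3 : 𝓞 F) : F) = 3 from map_ofNat (algebraMap (𝓞 F) F) 3, map_ofNat] at h
  have hwD : vv v (D : v.adicCompletion F) = 1 := by
    have h := val_one hNF v (D : 𝓞 F) hDv
    simpa using h
  have hT12 : T12 (vv v) (lc v a) (lc v b) := (hNF.t12 F v a b).2 hT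
  have hwd : vv v (dsc (lc v a) (lc v b)) = 1 := by
    have h := hT12 0 (by rw [map_zero]; exact zero_le_one)
    simpa using h
  have hdv : dsc (lc v a) (lc v b) ≠ 0 := by
    intro h
    rw [h, map_zero] at hwd
    exact zero_ne_one hwd
  have hd : dsc (a : F) (b : F) ≠ 0 := by
    intro h
    apply hdv
    have h1 : dsc (lc v a) (lc v b) = algebraMap F (v.adicCompletion F) (dsc (a : F) (b : F)) := by
      unfold dsc lc
      rw [map_add, map_mul, map_mul, map_pow, map_pow, map_ofNat, map_ofNat]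
    rw [h1, h, map_zero]
  have hD : (D : F) ≠ 0 := Nat.cast_ne_zero.2 hD0.ne'
  have hsel := hBR.sel hd hD α z hz
  have hInV : InV α := hsel.1
  have hup : InV (ul v α) := hINV.upv _ α hInV
  have hAff : Aff (D : v.adicCompletion F) (ul v α) := by
    have h := hsel.2.1 v
    rwa [map_natCast] at h
  have hEv : Ev (vv v) (ul v α) :=
    (hLG (v.adicCompletion F) (vv v) (lc v a) (lc v b) (D : v.adicCompletion F) (ul v α)
      (hNF.lf F v) hw2 (hint a) (hint b) (by rw [hwd]; exact exp_neg_le) hwD hup).2 hAff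
  obtain ⟨⟨t₀, -, ht₀, -⟩, hLR2⟩ := hLR (v.adicCompletion F) (vv v) (lc v a) (lc v b) (hNF.lf F v)
    hw2 hw3 (hint a) (hint b) hdv (Or.inl hT12)
  have hev : ∀ (t : v.adicCompletion F) (β : Lk (a : F) (b : F)),
      ev (RingHom.id (v.adicCompletion F)) t (ul v β) =
        ev (algebraMap F (v.adicCompletion F)) t β := by
    intro t β
    unfold ul up
    rw [hEVA.upv, RingHom.id_comp]
  refine ⟨hEv, ?_, ?_⟩
  · rintro ⟨α', t, hz', ht, hsq⟩
    obtain ⟨γ, hγ⟩ := hBR.inj hd hD α α' z hz hz'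
    have h1 : ev (algebraMap F (v.adicCompletion F)) t α *
        ev (algebraMap F (v.adicCompletion F)) t α' =
        ev (algebraMap F (v.adicCompletion F)) t γ *
          ev (algebraMap F (v.adicCompletion F)) t γ := by
      rw [← hEVA.mul _ _ _ _ ht, hγ, hEVA.mul _ _ _ _ ht]
    have h2 : ev (algebraMap F (v.adicCompletion F)) t α' ≠ 0 :=
      (hEVA.unit _ _ α' ht hz'.1.1).ne_zero
    obtain ⟨c, hc⟩ := hsq
    have hc0 : c ≠ 0 := by
      rintro rfl
      rw [mul_zero] at hc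
      exact h2 hc
    have h3 : IsSquare (ev (algebraMap F (v.adicCompletion F)) t α) := by
      refine ⟨ev (algebraMap F (v.adicCompletion F)) t γ / c, ?_⟩
      rw [hc] at h1
      field_simp
      linear_combination h1
    exact (hLR2 hT12 t (ul v α) ht hup hEv).2 (by rw [hev]; exact h3)
  · intro h4
    have h5 := (hLR2 hT12 t₀ (ul v α) ht₀ hup hEv).1 h4
    rw [hev] at h5
    exact ⟨α, t₀, hz, ht₀, h5⟩

end Pool.Agent.Lib.MP_8cb858_nt.PT
end

section
/-!
# WCH: many elements of `Wh` (port of `PF/WCT.lean`)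
-/
namespace Pool.Agent.Lib.MP_8cb858_nt.PT

open Polynomial NumberField IsDedekindDomain Pool.Agent.Lib.MP_8cb858_nt.SEL
open Pool.Agent.Lib.MP_8cb858_nt.PF
open scoped Classical WithZero

namespace WCHM

/-- Pigeonhole with three families of colourings. -/
theorem pgh {X ι ι' κ : Type} [Fintype ι] [Fintype ι'] [Fintype κ] (G : Finset X) (M : ι → ℕ)
    (hM : ∀ i, 0 < M i) (c : ∀ i : ι, X → Fin (M i)) (N : ι' → ℕ) (hN : ∀ i, 0 < N i)
    (e : ∀ i : ι', X → Fin (N i)) (d : κ → X → ZMod 2) (k : ℕ)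
    (h : k * ((∏ i, M i) * ((∏ i, N i) * 2 ^ Fintype.card κ)) ≤ G.card) :
    ∃ H : Finset X, H ⊆ G ∧ k ≤ H.card ∧
      ∀ x ∈ H, ∀ y ∈ H, (∀ i, c i x = c i y) ∧ (∀ i, e i x = e i y) ∧ ∀ j, d j x = d j y := by
  have : ∀ i, Nonempty (Fin (M i)) := fun i => ⟨⟨0, hM i⟩⟩
  have : ∀ i, Nonempty (Fin (N i)) := fun i => ⟨⟨0, hN i⟩⟩
  have hc : (Finset.univ :
      Finset ((∀ i : ι, Fin (M i)) × (∀ i : ι', Fin (N i)) × (κ → ZMod 2))).card =
      (∏ i, M i) * ((∏ i, N i) * 2 ^ Fintype.card κ) := by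
    rw [Finset.card_univ, Fintype.card_prod, Fintype.card_prod, Fintype.card_pi, Fintype.card_pi,
      Fintype.card_fun, ZMod.card]
    simp only [Fintype.card_fin]
  obtain ⟨y, -, hy⟩ := Finset.exists_le_card_fiber_of_mul_le_card_of_maps_to
    (s := G)
    (t := (Finset.univ : Finset ((∀ i : ι, Fin (M i)) × (∀ i : ι', Fin (N i)) × (κ → ZMod 2))))
    (f := fun x => (fun i => c i x, fun i => e i x, fun j => d j x)) (n := k)
    (fun _ _ => Finset.mem_univ _)
    Finset.univ_nonempty (by rw [hc, mul_comm]; exact h)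
  refine ⟨_, Finset.filter_subset _ _, hy, ?_⟩
  intro x hx z hz
  have h1 := (Finset.mem_filter.1 hx).2
  have h2 := (Finset.mem_filter.1 hz).2
  have h3 := h1.trans h2.symm
  exact ⟨fun i => congrFun (congrArg Prod.fst h3) i,
    fun i => congrFun (congrArg (fun q => q.2.1) h3) i,
    fun j => congrFun (congrArg (fun q => q.2.2) h3) j⟩

theorem up_mul {F K : Type} [Field F] [Field K] [Algebra F K] {a b : F} (α β : Lk a b) :
    up K (α * β) = up K α * up K β := by
  unfold up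
  exact map_mul _ _ _

end WCHM

open WCHM in
theorem specWCH (hFAH : SpecFAH) (hSUH : SpecSUH) (hNF : SpecNF) (hKMD : SpecKMD) (hLIT : SpecLIT)
    (hLS : SpecLS) (hEVF : SpecEVF) (hINV : SpecINV) : SpecWCH := by
  intro F _ _ M Q P Ds a b hC hDs
  have hne0 := hFAH.ne0 hC
  have hM2 : ∀ v : HeightOneSpectrum (𝓞 F), (2 : 𝓞 F) ∈ v.asIdeal → v ∈ M := by
    intro v hv
    by_contra h
    exact (hFAH.tw hC v h).2.2 hv
  set bad : Finset (HeightOneSpectrum (𝓞 F)) := (hFAH.fin hne0.1).toFinset.filter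
    (fun v => v ∉ M) with hbad
  have mem_bad : ∀ v, v ∈ bad ↔ dsc a b ∈ v.asIdeal ∧ v ∉ M := by
    intro v
    rw [hbad, Finset.mem_filter, Set.Finite.mem_toFinset]
    rfl
  have bad_fac : ∀ v, v ∈ bad → v ∉ P ∧ v ∉ Q ∧
      vv v (dsc (lc v a) (lc v b)) = WithZero.exp (-1 : ℤ) := by
    intro v hv
    obtain ⟨h1, h2⟩ := (mem_bad v).1 hv
    exact hFAH.bad hC v h1 h2
  have hdis : Disjoint Q bad := by
    rw [Finset.disjoint_right]
    intro v hv
    exact (bad_fac v hv).2.1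
  have hQM : ∀ v ∈ Q, v ∉ M := hC.qm
  have hSM : ∀ v ∈ Q ∪ bad, v ∉ M := by
    intro v hv
    rcases Finset.mem_union.1 hv with h | h
    · exact hQM v h
    · exact ((mem_bad v).1 h).2
  have hprod := hNF.twm F M hM2
  obtain ⟨G0, hcard, hG1, hG2⟩ := hSUH F a b (Q ∪ bad) M hne0.1
    (by
      obtain ⟨w, hw⟩ := hC.ne
      exact ⟨w, hC.t3 w hw⟩)
    hM2 hSM
    (by
      intro v hv
      by_cases h : v ∈ M
      · exact Or.inr h
      · exact Or.inl (Finset.mem_union_right _ ((mem_bad v).2 ⟨hv, h⟩)))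
    (by
      intro v hv
      have hv' : v ∈ Q ∨ dsc a b ∈ v.asIdeal := by
        rcases Finset.mem_union.1 hv with h | h
        · exact Or.inl h
        · exact Or.inr ((mem_bad v).1 h).1
      exact hFAH.rt hC v (hSM v hv) hv')
  have hint : ∀ (v : HeightOneSpectrum (𝓞 F)) (x : 𝓞 F), vv v (lc v x) ≤ 1 := fun v x =>
    hFAH.int v x
  have hDs0 : ∀ v : HeightOneSpectrum (𝓞 F), ((Ds : ℕ) : v.adicCompletion F) ≠ 0 := by
    intro v
    exact Nat.cast_ne_zero.2 hDs.ne'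
  -- colourings at the places of `M`
  have hcol : ∀ v : {v // v ∈ M}, ∃ c : Lk (lc v.1 a) (lc v.1 b) →
      Fin (two (vv v.1) * (1 + nr a b v.1)),
      ∀ α β : Lk (lc v.1 a) (lc v.1 b), InV α → InV β → c α = c β →
        Aff ((Ds : ℕ) : v.1.adicCompletion F) (α * β) := by
    rintro ⟨v, hv⟩
    exact hKMD.col (v.adicCompletion F) (vv v) (lc v a) (lc v b) ((Ds : ℕ) : v.adicCompletion F)
      (hNF.lf F v) (hint v a) (hint v b) (hne0.2.2 v) (hFAH.nat v Ds) (hDs0 v)
  choose c hc using hcol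
  -- colourings at the infinite places
  choose e he using fun v : InfinitePlace F => hLIT.col F v (a : F) (b : F) hne0.2.1
  have hpos : ∀ v : {v // v ∈ M}, 0 < two (vv v.1) * (1 + nr a b v.1) := by
    intro v
    refine Nat.mul_pos ?_ (by omega)
    apply Nat.pos_of_ne_zero
    intro h0
    have h1 : ∏ v ∈ M, two (vv v) = 0 := Finset.prod_eq_zero v.2 h0
    rw [hprod] at h1
    exact absurd h1 (pow_ne_zero _ two_ne_zero)
  have hnth : ∏ v : InfinitePlace F, (if Thr v (a : F) (b : F) then 2 else 1) =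
      2 ^ nth (a : F) (b : F) := by
    rw [Finset.prod_ite, Finset.prod_const_one, mul_one, Finset.prod_const]
    rfl
  obtain ⟨H, hHG, hHc, hH⟩ := pgh (X := Lk (a : F) (b : F)) (ι := {v // v ∈ M})
    (ι' := InfinitePlace F)
    (κ := {v // v ∈ bad}) G0 (fun v => two (vv v.1) * (1 + nr a b v.1)) hpos
    (fun v α => c v (ul v.1 α))
    (fun v => if Thr v (a : F) (b : F) then 2 else 1)
    (by
      intro v
      show 0 < (if Thr v (a : F) (b : F) then 2 else 1)
      split_ifs <;> norm_num)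
    (fun v α => e v (up v.Completion α))
    (fun v α => ee v.1 α) (2 ^ Q.card) (by
      refine le_trans (le_of_eq ?_) hcard
      rw [hnth, Finset.card_union_of_disjoint hdis, Fintype.card_coe, Finset.prod_coe_sort M
        (fun v => two (vv v) * (1 + nr a b v)), Finset.prod_mul_distrib, hprod, pow_add, pow_add,
        pow_add]
      ring)
  have hne : H.Nonempty := by
    rw [← Finset.card_pos]
    exact lt_of_lt_of_le (pow_pos two_pos _) hHc
  obtain ⟨α₀, hα₀⟩ := hne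
  have hV : ∀ α ∈ H, InV α := fun α hα => (hG1 α (hHG hα)).1
  have hu₀ : IsUnit α₀ := (hV α₀ hα₀).1
  have hinj : Set.InjOn (fun α => α * α₀) (H : Set (Lk (a : F) (b : F))) := by
    intro x _ y _ hxy
    exact hu₀.mul_left_injective hxy
  refine ⟨H.image (fun α => α * α₀), ?_, ?_, ?_⟩
  · rw [Finset.card_image_of_injOn hinj]
    exact hHc
  · intro β hβ
    obtain ⟨α, hα, rfl⟩ := Finset.mem_image.1 hβ
    have hVl : ∀ (v : HeightOneSpectrum (𝓞 F)) (γ : Lk (a : F) (b : F)), InV γ →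
        InV (ul v γ) := fun v γ hγ => hINV.upv _ γ hγ
    refine ⟨hINV.mul _ _ (hV α hα) (hV α₀ hα₀), ?_, ?_, ?_⟩
    · intro v hv
      show Aff _ (up _ (α * α₀))
      rw [up_mul]
      exact hc ⟨v, hv⟩ _ _ (hVl v α (hV α hα)) (hVl v α₀ (hV α₀ hα₀))
        ((hH α hα α₀ hα₀).1 ⟨v, hv⟩)
    · intro v
      rw [up_mul]
      exact he v _ _ (hINV.upv _ α (hV α hα)) (hINV.upv _ α₀ (hV α₀ hα₀))
        ((hH α hα α₀ hα₀).2.1 v)
    · intro v hv hvQ
      show Ev (vv v) (up _ (α * α₀))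
      rw [up_mul]
      by_cases hvb : v ∈ bad
      · have hb := bad_fac v hvb
        have htw := hFAH.tw hC v hv
        have hyp := hLS (v.adicCompletion F) (vv v) (lc v a) (lc v b) (hNF.lf F v)
          htw.1 htw.2.1 (hint v a) (hint v b) (hne0.2.2 v) (Or.inr hb.2.2)
        have he : PR.he (Ev (vv v)) (ul v α) = PR.he (Ev (vv v)) (ul v α₀) :=
          (hH α hα α₀ hα₀).2.2 ⟨v, hvb⟩
        have hV1 := hVl v α (hV α hα)
        have hV2 := hVl v α₀ (hV α₀ hα₀)
        by_cases h1 : Ev (vv v) (ul v α)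
        · have h2 : Ev (vv v) (ul v α₀) := by
            by_contra h2
            rw [PR.he, PR.he, if_pos h1, if_neg h2] at he
            exact absurd he (by decide)
          exact hyp.c0 _ _ hV1 hV2 h1 h2
        · have h2 : ¬ Ev (vv v) (ul v α₀) := by
            intro h2
            rw [PR.he, PR.he, if_neg h1, if_pos h2] at he
            exact absurd he (by decide)
          exact hyp.c1 _ _ hV1 hV2 h1 h2
      · have hvS : v ∉ Q ∪ bad := by
          rw [Finset.mem_union]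
          rintro (h | h)
          · exact hvQ h
          · exact hvb h
        have h1 := (hG1 α (hHG hα)).2 v hvS hv
        have h2 := (hG1 α₀ (hHG hα₀)).2 v hvS hv
        exact (hEVF (v.adicCompletion F) (vv v) (lc v a) (lc v b) (ul v α) (ul v α₀) (hint v a)
          (hint v b)).1 h1 h2
  · intro β hβ β' hβ' hne
    obtain ⟨α, hα, rfl⟩ := Finset.mem_image.1 hβ
    obtain ⟨α', hα', rfl⟩ := Finset.mem_image.1 hβ'
    have hne' : α ≠ α' := fun h => hne (by rw [h])
    intro hsq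
    apply hG2 α (hHG hα) α' (hHG hα') hne'
    obtain ⟨r, hr⟩ := hsq
    obtain ⟨u, hu⟩ := hu₀.exists_right_inv
    refine ⟨r * u, ?_⟩
    have h1 : α * α' = (α * α₀ * (α' * α₀)) * (u * u) := by
      have : α * α₀ * (α' * α₀) * (u * u) = α * α' * ((α₀ * u) * (α₀ * u)) := by ring
      rw [this, hu]
      ring
    rw [h1, hr]
    ring

end Pool.Agent.Lib.MP_8cb858_nt.PT
end

section
/-!
# WGH: the subgroup of the vectors of coordinates (arbitrary local conditions)
-/
namespace Pool.Agent.Lib.MP_8cb858_nt.PT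

open Polynomial NumberField IsDedekindDomain Pool.Agent.Lib.MP_8cb858_nt.SEL
open Pool.Agent.Lib.MP_8cb858_nt.PF
open scoped Classical WithZero

namespace WGHM

variable {F : Type} [Field F] [NumberField F] {Ds D0 : ℕ}
  {M Q P : Finset (HeightOneSpectrum (𝓞 F))} {a b : 𝓞 F}

/-- The vector of the coordinates of a class. -/
noncomputable def vec (Q : Finset (HeightOneSpectrum (𝓞 F))) (a b : 𝓞 F) (α : Lk (a : F) (b : F)) :
    {v // v ∈ Q} → ZMod 2 × ZMod 2 := fun v => (ee v.1 α, ss v.1 α)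

theorem vec_mul (hHAQ : SpecHAQ) (hC : Cf M Q P a b)
    {α β : Lk (a : F) (b : F)} (ha : InV α) (hb : InV β) :
    vec Q a b (α * β) = vec Q a b α + vec Q a b β := by
  funext v
  have h := hHAQ F M Q P a b hC v.1 v.2 α β ha hb
  exact Prod.ext h.1 h.2.1

theorem add_self (x : ZMod 2 × ZMod 2) : x + x = 0 := by
  revert x; decide

theorem vadd_self {ι : Type} (w : ι → ZMod 2 × ZMod 2) : w + w = 0 := by
  funext v
  exact add_self (w v)

theorem vec_one (hELH : SpecELH) (hHAQ : SpecHAQ) (hC : Cf M Q P a b)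
    (hDs : 0 < Ds) : vec Q a b 1 = 0 := by
  have h1 : InV (1 : Lk (a : F) (b : F)) := (hELH F M Q P Ds a b hC hDs).1.1
  have h := vec_mul hHAQ hC h1 h1
  rw [mul_one, vadd_self] at h
  exact h

/-- Two classes with the same vector have a square as product. -/
theorem sq_of_vec (hELH : SpecELH) (hHAQ : SpecHAQ) (hKRH : SpecKRH)
    (hC : Cf M Q P a b) (hDs : 0 < Ds)
    (hA : Ad M P ∅ Ds D0)
    (hg : ∀ z : Sel 2 (cN a b D0), (∀ v ∈ Q, TrN D0 v z) → z = 0)
    {α β : Lk (a : F) (b : F)} (ha : α ∈ Wh M Q Ds a b) (hb : β ∈ Wh M Q Ds a b)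
    (h : vec Q a b α = vec Q a b β) : IsSquare (α * β) := by
  have h0 : vec Q a b (α * β) = 0 := by
    rw [vec_mul hHAQ hC ha.1 hb.1, h, vadd_self]
  refine hKRH F M Q P Ds D0 a b hC hDs hA hg _ ((hELH F M Q P Ds a b hC hDs).2 α ha β hb) fun v hv => ?_
  have h1 := congrFun h0 ⟨v, hv⟩
  exact ⟨congrArg Prod.fst h1, congrArg Prod.snd h1⟩

end WGHM

theorem specWGH (hELH : SpecELH) (hHAQ : SpecHAQ) (hRCH : SpecRCH) (hWCH : SpecWCH)
    (hKRH : SpecKRH) : SpecWGH := by
  intro F _ _ M Q P Ds D0 a b hrec hC hDs hA hg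
  refine ⟨{
      carrier := {w | ∃ α ∈ Wh M Q Ds a b, ∀ v, w v = (ee v.1 α, ss v.1 α)}
      add_mem' := ?_
      zero_mem' := ?_
      neg_mem' := ?_ }, fun w => Iff.rfl, ?_, ?_⟩
  · rintro w w' ⟨α, ha, h⟩ ⟨β, hb, h'⟩
    refine ⟨α * β, (hELH F M Q P Ds a b hC hDs).2 α ha β hb, fun v => ?_⟩
    have h1 := congrFun (WGHM.vec_mul hHAQ hC ha.1 hb.1) v
    rw [Pi.add_apply, h v, h' v]
    exact h1.symm
  · refine ⟨1, (hELH F M Q P Ds a b hC hDs).1, fun v => ?_⟩
    exact (congrFun (WGHM.vec_one hELH hHAQ hC hDs) v).symm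
  · rintro w ⟨α, ha, h⟩
    refine ⟨α, ha, fun v => ?_⟩
    rw [Pi.neg_apply, neg_eq_of_add_eq_zero_right (WGHM.add_self (w v))]
    exact h v
  · rintro w ⟨α, ha, h⟩
    have h1 := hRCH F M Q P Ds a b hrec hC hDs α ha
    rw [Finset.sum_subtype Q (fun x => Iff.rfl) (fun v => ee v α * ss v α)] at h1
    rw [← h1]
    refine Finset.sum_congr rfl fun v _ => ?_
    rw [h v]
  · obtain ⟨G, hG1, hG2, hG3⟩ := hWCH F M Q P Ds a b hC hDs
    have hcard : Fintype.card {v // v ∈ Q} = Q.card := Fintype.card_coe _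
    rw [hcard]
    refine hG1.trans ?_
    rw [← Nat.card_eq_finsetCard]
    refine Nat.card_le_card_of_injective
      (fun α : G => ⟨WGHM.vec Q a b α.1, α.1, hG2 α.1 α.2, fun v => rfl⟩) ?_
    intro α β hab
    by_contra hne
    have h1 : WGHM.vec Q a b α.1 = WGHM.vec Q a b β.1 := congrArg Subtype.val hab
    exact hG3 α.1 α.2 β.1 β.2 (fun h => hne (Subtype.ext h))
      (WGHM.sq_of_vec hELH hHAQ hKRH hC hDs hA hg (hG2 α.1 α.2) (hG2 β.1 β.2) h1)

end Pool.Agent.Lib.MP_8cb858_nt.PT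
end

section
/-!
# TRL: triviality is given by a character
-/
set_option autoImplicit false

namespace Pool.Agent.Lib.MP_8cb858_nt.PU

open Polynomial NumberField IsDedekindDomain Pool.Agent.Lib.MP_8cb858_nt.SEL
open Pool.Agent.Lib.MP_8cb858_nt.PF
open scoped Classical WithZero

theorem specTRL (hTVL : SpecTVL) (hBR : PF.SpecBR) (hLS : PF.SpecLS) (hINV : PF.SpecINV)
    (hNF : PF.SpecNF) : SpecTRL := by
  intro F _ _ a b D v hD0 h6 hDv ht z w
  have hdv : dsc a b ∉ v.asIdeal := by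
    have := ht 0
    simpa using this
  have hd0 : dsc a b ≠ 0 := by
    rintro h
    rw [h] at hdv
    exact hdv (Ideal.zero_mem _)
  have hdF : dsc (a : F) (b : F) ≠ 0 := by
    have h2 : ((dsc a b : 𝓞 F) : F) = dsc (a : F) (b : F) := by
      show algebraMap (𝓞 F) F (dsc a b) = dsc (algebraMap (𝓞 F) F a) (algebraMap (𝓞 F) F b)
      unfold dsc
      rw [map_add, map_mul, map_mul, map_pow, map_pow, map_ofNat, map_ofNat]
    rw [← h2]
    exact fun h => hd0 (RingOfIntegers.coe_eq_zero_iff.1 h)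
  have hDF : (D : F) ≠ 0 := fun h => hD0 (RingOfIntegers.coe_eq_zero_iff.1 h)
  obtain ⟨α, hα⟩ := hBR.surj hdF hDF z
  obtain ⟨β, hβ⟩ := hBR.surj hdF hDF w
  have hαβ := hBR.mul hdF hDF α β z w hα hβ
  obtain ⟨e1, t1⟩ := hTVL F a b D v hD0 h6 hDv ht α z hα
  obtain ⟨e2, t2⟩ := hTVL F a b D v hD0 h6 hDv ht β w hβ
  obtain ⟨-, t3⟩ := hTVL F a b D v hD0 h6 hDv ht (α * β) (z + w) hαβ
  rw [t1, t2, t3]
  have hm : ul v (α * β) = ul v α * ul v β := by
    unfold ul up
    rw [map_mul]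
  rw [hm]
  have hV1 : InV (ul v α) := hINV.upv _ α hα.1
  have hV2 : InV (ul v β) := hINV.upv _ β hβ.1
  have hw2 : vv v 2 = 1 := by
    have h2 : (2 : 𝓞 F) ∉ v.asIdeal := fun h => h6 (by
      have h3 : (6 : 𝓞 F) = 3 * 2 := by norm_num
      rw [h3]
      exact Ideal.mul_mem_left _ _ h)
    have h4 := FAPM.eq_one hNF v h2
    rwa [← FAPM.lcr_apply, map_ofNat] at h4
  have hw3 : vv v 3 = 1 := by
    have h2 : (3 : 𝓞 F) ∉ v.asIdeal := fun h => h6 (by
      have h3 : (6 : 𝓞 F) = 2 * 3 := by norm_num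
      rw [h3]
      exact Ideal.mul_mem_left _ _ h)
    have h4 := FAPM.eq_one hNF v h2
    rwa [← FAPM.lcr_apply, map_ofNat] at h4
  have hwd : dsc (lc v a) (lc v b) ≠ 0 := by
    rw [← FACM.lc_dsc, ← FAPM.lcr_apply]
    exact fun h => hd0 (FAPM.lcr_inj v (h.trans (map_zero _).symm))
  have hH := hLS (v.adicCompletion F) (vv v) (lc v a) (lc v b) (hNF.lf F v) hw2 hw3
    (hNF.int F v a 0).1 (hNF.int F v b 0).1 hwd (Or.inl ((hNF.t12 F v a b).2 ht))
  constructor
  · intro h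
    constructor
    · intro h1
      have := hINV.trs 1 (ul v α) (ul v β) hV1.1 (by rw [one_mul]; exact h1) h
      rwa [one_mul] at this
    · intro h1
      have := hINV.trs 1 (ul v β) (ul v α) hV2.1 (by rw [one_mul]; exact h1)
        (by rw [mul_comm]; exact h)
      rwa [one_mul] at this
  · intro h
    by_cases h1 : IsSquare (ul v α)
    · exact h1.mul (h.1 h1)
    · exact hH.c2 _ _ hV1 hV2 e1 e2 h1 (fun h2 => h1 (h.2 h2))

end Pool.Agent.Lib.MP_8cb858_nt.PU
end

section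
/-!
# TVL: `Triv` at a place of type (1,2), good for `E^D` (local form; port of `PF/TVS.lean`)
-/
set_option autoImplicit false

namespace Pool.Agent.Lib.MP_8cb858_nt.PU

open Polynomial NumberField IsDedekindDomain Pool.Agent.Lib.MP_8cb858_nt.SEL
open Pool.Agent.Lib.MP_8cb858_nt.PF
open scoped Classical WithZero

namespace TVLM

theorem val_one (hNF : SpecNF) {F : Type} [Field F] [NumberField F]
    (v : HeightOneSpectrum (𝓞 F)) (x : 𝓞 F) (hx : x ∉ v.asIdeal) :
    vv v (algebraMap F (v.adicCompletion F) (x : F)) = 1 := by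
  obtain ⟨h1, h2⟩ := hNF.int F v x 1
  rw [pow_one] at h2
  refine le_antisymm h1 ?_
  by_contra h
  push Not at h
  apply hx
  rw [h2]
  have h3 := h
  rw [← WithZero.exp_zero] at h3
  by_cases h0 : vv v (algebraMap F (v.adicCompletion F) (x : F)) = 0
  · rw [h0]; exact zero_le
  · rw [← WithZero.exp_log h0] at h3 ⊢
    rw [WithZero.exp_lt_exp] at h3
    rw [WithZero.exp_le_exp]
    push_cast
    omega

theorem exp_neg_le : WithZero.exp (-1 : ℤ) ≤ (1 : ℤᵐ⁰) := by
  rw [← WithZero.exp_zero, WithZero.exp_le_exp]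
  norm_num

end TVLM

open TVLM in
theorem specTVL (hBR : SpecBR) (hLG : SpecLG) (hEVA : SpecEVA) (hINV : SpecINV) (hLR : SpecLR)
    (hNF : SpecNF) : SpecTVL := by
  intro F _ _ a b D v hD0 h6 hDv hT α z hz
  have hint : ∀ x : 𝓞 F, vv v (lc v x) ≤ 1 := fun x => (hNF.int F v x 0).1
  have h2v : (2 : 𝓞 F) ∉ v.asIdeal := fun h => h6 (by
    have := v.asIdeal.mul_mem_left (3 : 𝓞 F) h
    have h' : (3 : 𝓞 F) * 2 = 6 := by norm_num
    rwa [h'] at this)
  have h3v : (3 : 𝓞 F) ∉ v.asIdeal := fun h => h6 (by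
    have := v.asIdeal.mul_mem_left (2 : 𝓞 F) h
    have h' : (2 : 𝓞 F) * 3 = 6 := by norm_num
    rwa [h'] at this)
  have hw2 : vv v (2 : v.adicCompletion F) = 1 := by
    have h := val_one hNF v 2 h2v
    rwa [show ((2 : 𝓞 F) : F) = 2 from map_ofNat (algebraMap (𝓞 F) F) 2, map_ofNat] at h
  have hw3 : vv v (3 : v.adicCompletion F) = 1 := by
    have h := val_one hNF v 3 h3v
    rwa [show ((3 : 𝓞 F) : F) = 3 from map_ofNat (algebraMap (𝓞 F) F) 3, map_ofNat] at h
  have hwD : vv v (lc v D) = 1 := by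
    exact val_one hNF v D hDv
  have hT12 : T12 (vv v) (lc v a) (lc v b) := (hNF.t12 F v a b).2 hT
  have hwd : vv v (dsc (lc v a) (lc v b)) = 1 := by
    have h := hT12 0 (by rw [map_zero]; exact zero_le_one)
    simpa using h
  have hdv : dsc (lc v a) (lc v b) ≠ 0 := by
    intro h
    rw [h, map_zero] at hwd
    exact zero_ne_one hwd
  have hd : dsc (a : F) (b : F) ≠ 0 := by
    intro h
    apply hdv
    have h1 : dsc (lc v a) (lc v b) = algebraMap F (v.adicCompletion F) (dsc (a : F) (b : F)) := by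
      unfold dsc lc
      rw [map_add, map_mul, map_mul, map_pow, map_pow, map_ofNat, map_ofNat]
    rw [h1, h, map_zero]
  have hD : (D : F) ≠ 0 := fun h => hD0 (RingOfIntegers.coe_eq_zero_iff.1 h)
  have hsel := hBR.sel hd hD α z hz
  have hInV : InV α := hsel.1
  have hup : InV (ul v α) := hINV.upv _ α hInV
  have hAff : Aff (lc v D) (ul v α) := hsel.2.1 v
  have hEv : Ev (vv v) (ul v α) :=
    (hLG (v.adicCompletion F) (vv v) (lc v a) (lc v b) (lc v D) (ul v α)
      (hNF.lf F v) hw2 (hint a) (hint b) (by rw [hwd]; exact exp_neg_le) hwD hup).2 hAff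
  obtain ⟨⟨t₀, -, ht₀, -⟩, hLR2⟩ := hLR (v.adicCompletion F) (vv v) (lc v a) (lc v b) (hNF.lf F v)
    hw2 hw3 (hint a) (hint b) hdv (Or.inl hT12)
  have hev : ∀ (t : v.adicCompletion F) (β : Lk (a : F) (b : F)),
      ev (RingHom.id (v.adicCompletion F)) t (ul v β) =
        ev (algebraMap F (v.adicCompletion F)) t β := by
    intro t β
    unfold ul up
    rw [hEVA.upv, RingHom.id_comp]
  refine ⟨hEv, ?_, ?_⟩
  · rintro ⟨α', t, hz', ht, hsq⟩
    obtain ⟨γ, hγ⟩ := hBR.inj hd hD α α' z hz hz'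
    have h1 : ev (algebraMap F (v.adicCompletion F)) t α *
        ev (algebraMap F (v.adicCompletion F)) t α' =
        ev (algebraMap F (v.adicCompletion F)) t γ *
          ev (algebraMap F (v.adicCompletion F)) t γ := by
      rw [← hEVA.mul _ _ _ _ ht, hγ, hEVA.mul _ _ _ _ ht]
    have h2 : ev (algebraMap F (v.adicCompletion F)) t α' ≠ 0 :=
      (hEVA.unit _ _ α' ht hz'.1.1).ne_zero
    obtain ⟨c, hc⟩ := hsq
    have hc0 : c ≠ 0 := by
      rintro rfl
      rw [mul_zero] at hc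
      exact h2 hc
    have h3 : IsSquare (ev (algebraMap F (v.adicCompletion F)) t α) := by
      refine ⟨ev (algebraMap F (v.adicCompletion F)) t γ / c, ?_⟩
      rw [hc] at h1
      field_simp
      linear_combination h1
    exact (hLR2 hT12 t (ul v α) ht hup hEv).2 (by rw [hev]; exact h3)
  · intro h4
    have h5 := (hLR2 hT12 t₀ (ul v α) ht₀ hup hEv).1 h4
    rw [hev] at h5
    exact ⟨α, t₀, hz, ht₀, h5⟩

end Pool.Agent.Lib.MP_8cb858_nt.PU
end

section
/-!
# WCH: many elements of `Wh` (port of `PF/WCT.lean`)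
-/
namespace Pool.Agent.Lib.MP_8cb858_nt.PU

open Polynomial NumberField IsDedekindDomain Pool.Agent.Lib.MP_8cb858_nt.SEL
open Pool.Agent.Lib.MP_8cb858_nt.PF
open scoped Classical WithZero

namespace WCHM

/-- Pigeonhole with three families of colourings. -/
theorem pgh {X ι ι' κ : Type} [Fintype ι] [Fintype ι'] [Fintype κ] (G : Finset X) (M : ι → ℕ)
    (hM : ∀ i, 0 < M i) (c : ∀ i : ι, X → Fin (M i)) (N : ι' → ℕ) (hN : ∀ i, 0 < N i)
    (e : ∀ i : ι', X → Fin (N i)) (d : κ → X → ZMod 2) (k : ℕ)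
    (h : k * ((∏ i, M i) * ((∏ i, N i) * 2 ^ Fintype.card κ)) ≤ G.card) :
    ∃ H : Finset X, H ⊆ G ∧ k ≤ H.card ∧
      ∀ x ∈ H, ∀ y ∈ H, (∀ i, c i x = c i y) ∧ (∀ i, e i x = e i y) ∧ ∀ j, d j x = d j y := by
  have : ∀ i, Nonempty (Fin (M i)) := fun i => ⟨⟨0, hM i⟩⟩
  have : ∀ i, Nonempty (Fin (N i)) := fun i => ⟨⟨0, hN i⟩⟩
  have hc : (Finset.univ :
      Finset ((∀ i : ι, Fin (M i)) × (∀ i : ι', Fin (N i)) × (κ → ZMod 2))).card =
      (∏ i, M i) * ((∏ i, N i) * 2 ^ Fintype.card κ) := by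
    rw [Finset.card_univ, Fintype.card_prod, Fintype.card_prod, Fintype.card_pi, Fintype.card_pi,
      Fintype.card_fun, ZMod.card]
    simp only [Fintype.card_fin]
  obtain ⟨y, -, hy⟩ := Finset.exists_le_card_fiber_of_mul_le_card_of_maps_to
    (s := G)
    (t := (Finset.univ : Finset ((∀ i : ι, Fin (M i)) × (∀ i : ι', Fin (N i)) × (κ → ZMod 2))))
    (f := fun x => (fun i => c i x, fun i => e i x, fun j => d j x)) (n := k)
    (fun _ _ => Finset.mem_univ _)
    Finset.univ_nonempty (by rw [hc, mul_comm]; exact h)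
  refine ⟨_, Finset.filter_subset _ _, hy, ?_⟩
  intro x hx z hz
  have h1 := (Finset.mem_filter.1 hx).2
  have h2 := (Finset.mem_filter.1 hz).2
  have h3 := h1.trans h2.symm
  exact ⟨fun i => congrFun (congrArg Prod.fst h3) i,
    fun i => congrFun (congrArg (fun q => q.2.1) h3) i,
    fun j => congrFun (congrArg (fun q => q.2.2) h3) j⟩

theorem up_mul {F K : Type} [Field F] [Field K] [Algebra F K] {a b : F} (α β : Lk a b) :
    up K (α * β) = up K α * up K β := by
  unfold up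
  exact map_mul _ _ _

end WCHM

open WCHM in
theorem specWCH (hFAH : PT.SpecFAH) (hSUH : PT.SpecSUH) (hNF : SpecNF) (hKMD : PT.SpecKMD) (hLIT : SpecLIT)
    (hLS : SpecLS) (hEVF : SpecEVF) (hINV : SpecINV) : SpecWCH := by
  intro F _ _ M Q P Ds a b hC hDs
  have hne0 := hFAH.ne0 hC
  have hM2 : ∀ v : HeightOneSpectrum (𝓞 F), (2 : 𝓞 F) ∈ v.asIdeal → v ∈ M := by
    intro v hv
    by_contra h
    exact (hFAH.tw hC v h).2.2 hv
  set bad : Finset (HeightOneSpectrum (𝓞 F)) := (hFAH.fin hne0.1).toFinset.filter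
    (fun v => v ∉ M) with hbad
  have mem_bad : ∀ v, v ∈ bad ↔ dsc a b ∈ v.asIdeal ∧ v ∉ M := by
    intro v
    rw [hbad, Finset.mem_filter, Set.Finite.mem_toFinset]
    rfl
  have bad_fac : ∀ v, v ∈ bad → v ∉ P ∧ v ∉ Q ∧
      vv v (dsc (lc v a) (lc v b)) = WithZero.exp (-1 : ℤ) := by
    intro v hv
    obtain ⟨h1, h2⟩ := (mem_bad v).1 hv
    exact hFAH.bad hC v h1 h2
  have hdis : Disjoint Q bad := by
    rw [Finset.disjoint_right]
    intro v hv
    exact (bad_fac v hv).2.1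
  have hQM : ∀ v ∈ Q, v ∉ M := hC.qm
  have hSM : ∀ v ∈ Q ∪ bad, v ∉ M := by
    intro v hv
    rcases Finset.mem_union.1 hv with h | h
    · exact hQM v h
    · exact ((mem_bad v).1 h).2
  have hprod := hNF.twm F M hM2
  obtain ⟨G0, hcard, hG1, hG2⟩ := hSUH F a b (Q ∪ bad) M hne0.1
    (by
      obtain ⟨w, hw⟩ := hC.ne
      exact ⟨w, hC.t3 w hw⟩)
    hM2 hSM
    (by
      intro v hv
      by_cases h : v ∈ M
      · exact Or.inr h
      · exact Or.inl (Finset.mem_union_right _ ((mem_bad v).2 ⟨hv, h⟩)))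
    (by
      intro v hv
      have hv' : v ∈ Q ∨ dsc a b ∈ v.asIdeal := by
        rcases Finset.mem_union.1 hv with h | h
        · exact Or.inl h
        · exact Or.inr ((mem_bad v).1 h).1
      exact hFAH.rt hC v (hSM v hv) hv')
  have hint : ∀ (v : HeightOneSpectrum (𝓞 F)) (x : 𝓞 F), vv v (lc v x) ≤ 1 := fun v x =>
    hFAH.int v x
  have hDsF : (Ds : F) ≠ 0 := fun h => hDs (RingOfIntegers.coe_eq_zero_iff.1 h)
  have hDs0 : ∀ v : Pl F, lc v Ds ≠ 0 := fun v =>
    (_root_.map_ne_zero (algebraMap F (v.adicCompletion F))).2 hDsF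
  -- colourings at the places of `M`
  have hcol : ∀ v : {v // v ∈ M}, ∃ c : Lk (lc v.1 a) (lc v.1 b) →
      Fin (two (vv v.1) * (1 + nr a b v.1)),
      ∀ α β : Lk (lc v.1 a) (lc v.1 b), InV α → InV β → c α = c β →
        Aff (lc v.1 Ds) (α * β) := by
    rintro ⟨v, hv⟩
    exact hKMD.col (v.adicCompletion F) (vv v) (lc v a) (lc v b) (lc v Ds)
      (hNF.lf F v) (hint v a) (hint v b) (hne0.2.2 v) (hint v Ds) (hDs0 v)
  choose c hc using hcol
  -- colourings at the infinite places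
  choose e he using fun v : InfinitePlace F => hLIT.col F v (a : F) (b : F) (Ds : F) hne0.2.1 hDsF
  have hpos : ∀ v : {v // v ∈ M}, 0 < two (vv v.1) * (1 + nr a b v.1) := by
    intro v
    refine Nat.mul_pos ?_ (by omega)
    apply Nat.pos_of_ne_zero
    intro h0
    have h1 : ∏ v ∈ M, two (vv v) = 0 := Finset.prod_eq_zero v.2 h0
    rw [hprod] at h1
    exact absurd h1 (pow_ne_zero _ two_ne_zero)
  have hnth : ∏ v : InfinitePlace F, (if PT.Thr v (a : F) (b : F) then 2 else 1) =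
      2 ^ PT.nth (a : F) (b : F) := by
    rw [Finset.prod_ite, Finset.prod_const_one, mul_one, Finset.prod_const]
    rfl
  obtain ⟨H, hHG, hHc, hH⟩ := pgh (X := Lk (a : F) (b : F)) (ι := {v // v ∈ M})
    (ι' := InfinitePlace F)
    (κ := {v // v ∈ bad}) G0 (fun v => two (vv v.1) * (1 + nr a b v.1)) hpos
    (fun v α => c v (ul v.1 α))
    (fun v => if PT.Thr v (a : F) (b : F) then 2 else 1)
    (by
      intro v
      show 0 < (if PT.Thr v (a : F) (b : F) then 2 else 1)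
      split_ifs <;> norm_num)
    (fun v α => e v (up v.Completion α))
    (fun v α => ee v.1 α) (2 ^ Q.card) (by
      refine le_trans (le_of_eq ?_) hcard
      rw [hnth, Finset.card_union_of_disjoint hdis, Fintype.card_coe, Finset.prod_coe_sort M
        (fun v => two (vv v) * (1 + nr a b v)), Finset.prod_mul_distrib, hprod, pow_add, pow_add,
        pow_add]
      ring)
  have hne : H.Nonempty := by
    rw [← Finset.card_pos]
    exact lt_of_lt_of_le (pow_pos two_pos _) hHc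
  obtain ⟨α₀, hα₀⟩ := hne
  have hV : ∀ α ∈ H, InV α := fun α hα => (hG1 α (hHG hα)).1
  have hu₀ : IsUnit α₀ := (hV α₀ hα₀).1
  have hinj : Set.InjOn (fun α => α * α₀) (H : Set (Lk (a : F) (b : F))) := by
    intro x _ y _ hxy
    exact hu₀.mul_left_injective hxy
  refine ⟨H.image (fun α => α * α₀), ?_, ?_, ?_⟩
  · rw [Finset.card_image_of_injOn hinj]
    exact hHc
  · intro β hβ
    obtain ⟨α, hα, rfl⟩ := Finset.mem_image.1 hβ
    have hVl : ∀ (v : HeightOneSpectrum (𝓞 F)) (γ : Lk (a : F) (b : F)), InV γ →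
        InV (ul v γ) := fun v γ hγ => hINV.upv _ γ hγ
    refine ⟨hINV.mul _ _ (hV α hα) (hV α₀ hα₀), ?_, ?_, ?_⟩
    · intro v hv
      show Aff _ (up _ (α * α₀))
      rw [up_mul]
      exact hc ⟨v, hv⟩ _ _ (hVl v α (hV α hα)) (hVl v α₀ (hV α₀ hα₀))
        ((hH α hα α₀ hα₀).1 ⟨v, hv⟩)
    · intro v
      rw [up_mul]
      exact he v _ _ (hINV.upv _ α (hV α hα)) (hINV.upv _ α₀ (hV α₀ hα₀))
        ((hH α hα α₀ hα₀).2.1 v)
    · intro v hv hvQ
      show Ev (vv v) (up _ (α * α₀))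
      rw [up_mul]
      by_cases hvb : v ∈ bad
      · have hb := bad_fac v hvb
        have htw := hFAH.tw hC v hv
        have hyp := hLS (v.adicCompletion F) (vv v) (lc v a) (lc v b) (hNF.lf F v)
          htw.1 htw.2.1 (hint v a) (hint v b) (hne0.2.2 v) (Or.inr hb.2.2)
        have he : PR.he (Ev (vv v)) (ul v α) = PR.he (Ev (vv v)) (ul v α₀) :=
          (hH α hα α₀ hα₀).2.2 ⟨v, hvb⟩
        have hV1 := hVl v α (hV α hα)
        have hV2 := hVl v α₀ (hV α₀ hα₀)
        by_cases h1 : Ev (vv v) (ul v α)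
        · have h2 : Ev (vv v) (ul v α₀) := by
            by_contra h2
            rw [PR.he, PR.he, if_pos h1, if_neg h2] at he
            exact absurd he (by decide)
          exact hyp.c0 _ _ hV1 hV2 h1 h2
        · have h2 : ¬ Ev (vv v) (ul v α₀) := by
            intro h2
            rw [PR.he, PR.he, if_neg h1, if_pos h2] at he
            exact absurd he (by decide)
          exact hyp.c1 _ _ hV1 hV2 h1 h2
      · have hvS : v ∉ Q ∪ bad := by
          rw [Finset.mem_union]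
          rintro (h | h)
          · exact hvQ h
          · exact hvb h
        have h1 := (hG1 α (hHG hα)).2 v hvS hv
        have h2 := (hG1 α₀ (hHG hα₀)).2 v hvS hv
        exact (hEVF (v.adicCompletion F) (vv v) (lc v a) (lc v b) (ul v α) (ul v α₀) (hint v a)
          (hint v b)).1 h1 h2
  · intro β hβ β' hβ' hne
    obtain ⟨α, hα, rfl⟩ := Finset.mem_image.1 hβ
    obtain ⟨α', hα', rfl⟩ := Finset.mem_image.1 hβ'
    have hne' : α ≠ α' := fun h => hne (by rw [h])
    intro hsq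
    apply hG2 α (hHG hα) α' (hHG hα') hne'
    obtain ⟨r, hr⟩ := hsq
    obtain ⟨u, hu⟩ := hu₀.exists_right_inv
    refine ⟨r * u, ?_⟩
    have h1 : α * α' = (α * α₀ * (α' * α₀)) * (u * u) := by
      have : α * α₀ * (α' * α₀) * (u * u) = α * α' * ((α₀ * u) * (α₀ * u)) := by ring
      rw [this, hu]
      ring
    rw [h1, hr]
    ring

end Pool.Agent.Lib.MP_8cb858_nt.PU
end
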