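import Pool.Agent.Lib.MP_8cb858_nt.PU.SpecC

/-!
# BAS: the base bound
-/

namespace Pool.Agent.Lib.MP_8cb858_nt.PU

open Polynomial NumberField IsDedekindDomain Pool.Agent.Lib.MP_8cb858_nt.SEL
open Pool.Agent.Lib.MP_8cb858_nt.PF
open scoped Classical WithZero

namespace BASM

variable {F : Type} [Field F] [NumberField F]

/-- The pairs (curve, nonzero class). -/
def W (ρ : InfinitePlace F → ℝ) (D : 𝓞 F) : Set (Σ q : 𝓞 F × 𝓞 F, Sel 2 (cO q.1 q.2 D)) :=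
  {z | z.1 ∈ Bx F ρ ∧ z.2 ≠ 0}

lemma count (ρ : InfinitePlace F → ℝ) (D : 𝓞 F) (hD : D ≠ 0) (hGEN : SpecGEN)
    (hH : (Bx F ρ).Finite) (hW : (W ρ D).Finite) (t : ℝ) :
    ({E ∈ Bx F ρ | t < (sc E D : ℝ)}.ncard : ℝ) * (t - 1) ≤ ((W ρ D).ncard : ℝ) := by
  classical
  set Hf := hH.toFinset with hHf
  set Wf := hW.toFinset with hWf
  have hmem : ∀ w ∈ Wf, w.1 ∈ Hf := by
    intro w hw
    rw [hWf, Set.Finite.mem_toFinset] at hw
    rw [hHf, Set.Finite.mem_toFinset]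
    exact hw.1
  have h1 : Wf.card = ∑ E ∈ Hf, (Wf.filter (fun w => w.1 = E)).card :=
    Finset.card_eq_sum_card_fiberwise hmem
  have hfib : ∀ E ∈ Hf, sc E D ≤ (Wf.filter (fun w => w.1 = E)).card + 1 := by
    intro E hE
    rw [hHf, Set.Finite.mem_toFinset] at hE
    obtain ⟨hfin, -, -⟩ := hGEN.fin F E D hE.1 hD
    have := hfin
    have : Fintype (Sel 2 (cO E.1 E.2 D)) := Fintype.ofFinite _
    have h2 : sc E D = (Finset.univ : Finset (Sel 2 (cO E.1 E.2 D))).card := by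
      rw [sc, Nat.card_eq_fintype_card, Finset.card_univ]
    have h3 : ((Finset.univ : Finset (Sel 2 (cO E.1 E.2 D))).erase 0).card + 1 =
        (Finset.univ : Finset (Sel 2 (cO E.1 E.2 D))).card :=
      Finset.card_erase_add_one (Finset.mem_univ _)
    have h4 : ((Finset.univ : Finset (Sel 2 (cO E.1 E.2 D))).erase 0).card ≤
        (Wf.filter (fun w => w.1 = E)).card := by
      refine Finset.card_le_card_of_injOn
        (fun z => (⟨E, z⟩ : Σ q : 𝓞 F × 𝓞 F, Sel 2 (cO q.1 q.2 D))) ?_ ?_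
      · intro z hz
        have hz0 : z ≠ 0 := Finset.ne_of_mem_erase hz
        simp only [Finset.coe_filter, Set.mem_setOf_eq, and_true]
        rw [hWf, Set.Finite.mem_toFinset]
        exact ⟨hE, hz0⟩
      · intro z _ z' _ h
        simpa using h
    omega
  have h5 : ({E ∈ Bx F ρ | t < (sc E D : ℝ)}.ncard) =
      (Hf.filter (fun E => t < (sc E D : ℝ))).card := by
    rw [← Set.ncard_coe_finset]
    congr 1
    ext E
    simp [hHf]
  rw [h5, Set.ncard_eq_toFinset_card _ hW, ← hWf, h1]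
  push_cast
  calc ((Hf.filter (fun E => t < (sc E D : ℝ))).card : ℝ) * (t - 1)
      = ∑ E ∈ Hf.filter (fun E => t < (sc E D : ℝ)), (t - 1) := by
        rw [Finset.sum_const, nsmul_eq_mul]
    _ ≤ ∑ E ∈ Hf.filter (fun E => t < (sc E D : ℝ)),
          ((Wf.filter (fun w => w.1 = E)).card : ℝ) := by
        apply Finset.sum_le_sum
        intro E hE
        obtain ⟨hE1, hE2⟩ := Finset.mem_filter.1 hE
        have h6 := hfib E hE1
        have h7 : (sc E D : ℝ) ≤ ((Wf.filter (fun w => w.1 = E)).card : ℝ) + 1 := by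
          exact_mod_cast h6
        linarith
    _ ≤ ∑ E ∈ Hf, ((Wf.filter (fun w => w.1 = E)).card : ℝ) := by
        apply Finset.sum_le_sum_of_subset_of_nonneg (Finset.filter_subset _ _)
        intro E _ _
        positivity

lemma fmz (hFMZ : SpecFMZ) (G : Gs F) : ∃ (C K1 : ℝ), 1 ≤ C ∧ 1 ≤ K1 ∧
    ∀ (c : 𝓞 F) (A : Finset (Pl F)), c ∈ G.UU → (∀ v ∈ A, v ∉ G.S) →
    ∃ R0 : ℝ, ∀ ρ : InfinitePlace F → ℝ, (∀ v, R0 ≤ ρ v) → (W ρ (G.tw c A)).Finite ∧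
      ((W ρ (G.tw c A)).ncard : ℝ) ≤ C * K1 ^ A.card * ((Bx F ρ).ncard : ℝ) := by
  obtain ⟨C, K1, P0, hC, hK, h⟩ := hFMZ F G
  refine ⟨C, K1, hC, hK, fun c A hc hA => ?_⟩
  obtain ⟨X0, hX0⟩ := h c A ∅ {∅} hc hA (by simp) (by simp)
  refine ⟨X0, fun ρ hρ => ?_⟩
  obtain ⟨h1, h2⟩ := hX0 ρ hρ
  have hset : FS ∅ (G.tw c A) ({∅} : Finset (Finset (Pl F))) ρ = W ρ (G.tw c A) := by
    ext z
    simp [W, FS]
  rw [hset] at h1 h2
  refine ⟨h1, ?_⟩
  simpa using h2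

lemma evt (δ ε C K1 : ℝ) (hδ : 0 < δ) (hε : 0 < ε) (hC : 1 ≤ C) (hK : 1 ≤ K1) :
    ∃ r0 : ℕ, 5 ≤ r0 ∧ K1 ≤ ((2 : ℝ) ^ (δ / 4)) ^ r0 ∧ (4 : ℝ) ≤ ((2 : ℝ) ^ (δ / 4)) ^ r0 ∧
      ∀ r : ℕ, r0 ≤ r →
      2 * Real.exp (-((r : ℝ) ^ 2)) ≤ ε / 2 ∧ 2 ≤ ((2 : ℝ) ^ (δ / 4)) ^ r ∧
      (r : ℝ) ^ 2 * C * 4 ≤ ε * ((2 : ℝ) ^ (δ / 4)) ^ r := by
  set q : ℝ := (2 : ℝ) ^ (δ / 4) with hq
  have hq1 : 1 < q := Real.one_lt_rpow (by norm_num) (by positivity)
  have hq0 : 0 < q := by linarith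
  have e1 : ∀ᶠ r : ℕ in Filter.atTop, 4 / ε < (r : ℝ) :=
    tendsto_natCast_atTop_atTop.eventually_gt_atTop _
  have e2 : ∀ᶠ r : ℕ in Filter.atTop, max 4 K1 < q ^ r :=
    (tendsto_pow_atTop_atTop_of_one_lt hq1).eventually_gt_atTop _
  have e3 : ∀ᶠ r : ℕ in Filter.atTop, (r : ℝ) ^ 2 / q ^ r < ε / (4 * C) :=
    (tendsto_pow_const_div_const_pow_of_one_lt 2 hq1).eventually_lt_const (by positivity)
  obtain ⟨r0, hr0⟩ := Filter.eventually_atTop.1 (e1.and (e2.and (e3.and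
    (Filter.eventually_ge_atTop 5))))
  refine ⟨r0, (hr0 r0 le_rfl).2.2.2, ?_, ?_, fun r hr => ?_⟩
  · exact ((le_max_right _ _).trans_lt (hr0 r0 le_rfl).2.1).le
  · exact ((le_max_left _ _).trans_lt (hr0 r0 le_rfl).2.1).le
  · obtain ⟨a1, a2, a3, a4⟩ := hr0 r hr
    refine ⟨?_, ?_, ?_⟩
    · have hr5 : (5 : ℝ) ≤ r := by exact_mod_cast a4
      have h1 : (r : ℝ) ≤ Real.exp ((r : ℝ) ^ 2) := by
        have := Real.add_one_le_exp ((r : ℝ) ^ 2)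
        nlinarith
      rw [Real.exp_neg]
      have h2 : 4 / ε < Real.exp ((r : ℝ) ^ 2) := lt_of_lt_of_le a1 h1
      have h3 : (Real.exp ((r : ℝ) ^ 2))⁻¹ ≤ ε / 4 := by
        rw [inv_le_comm₀ (Real.exp_pos _) (by positivity), inv_div]
        exact h2.le
      linarith
    · have h2 : 4 < q ^ r := (le_max_left _ _).trans_lt a2
      linarith
    · have hp : 0 < q ^ r := by positivity
      have hc : 0 < 4 * C := by positivity
      rw [div_lt_div_iff₀ hp hc] at a3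
      linarith

end BASM

open BASM in
theorem specBAS (hFMZ : SpecFMZ) (hAXP : SpecAXP) (hGEN : SpecGEN) (hEQZ : SpecEQZ)
    (hTWV : SpecTWV) : SpecBAS := by
  classical
  intro F _ _ G δ ε hδ hε
  obtain ⟨C, K1, hC, hK, hF⟩ := fmz hFMZ G
  obtain ⟨r0, hr5, hrK, hr4, hr⟩ := evt δ ε C K1 hδ hε hC hK
  refine ⟨r0, ?_⟩
  intro r b u A1 mm hrr hu hA hb hAS hq
  obtain ⟨b1, b2, b3⟩ := hr r hrr
  set q : ℝ := (2 : ℝ) ^ (δ / 4) with hqd
  have hq1 : 1 < q := Real.one_lt_rpow (by norm_num) (by positivity)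
  have hq0 : 0 < q := by linarith
  have hr0 : 0 < r0 := by omega
  set Rn : ℕ := 4 ^ b * r ^ 2 with hRn
  obtain ⟨XA, hXA⟩ := hAXP F Rn b mm hq.dis
    (fun j => ⟨hq.card j, fun v hv => (G.six v (hq.out j v hv).1).1⟩)
  have hdj : ∀ j, Disjoint A1 (mm j).2 := fun j =>
    Finset.disjoint_right.2 fun v hv => (hq.out j v hv).2.2
  have hUU : ∀ j, u * (mm j).1 ∈ G.UU := fun j =>
    Finset.mem_image.2 ⟨(u, (mm j).1), Finset.mem_product.2 ⟨hu, hq.u j⟩, rfl⟩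
  have htw : ∀ j, G.tw u A1 * G.tw (mm j).1 (mm j).2 = G.tw (u * (mm j).1) (A1 ∪ (mm j).2) :=
    fun j => hTWV.mul G _ _ _ _ (hdj j)
  have hne : ∀ j, G.tw (u * (mm j).1) (A1 ∪ (mm j).2) ≠ 0 := fun j =>
    hTWV.ne G _ _ (hTWV.uu G _ (hUU j)).1
  have hout : ∀ j, ∀ v ∈ A1 ∪ (mm j).2, v ∉ G.S := by
    intro j v hv
    rcases Finset.mem_union.1 hv with h | h
    · exact hAS v h
    · exact (hq.out j v h).1
  choose XF hXF using fun j => hF (u * (mm j).1) (A1 ∪ (mm j).2) (hUU j) (hout j)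
  have hcard : ∀ j, (A1 ∪ (mm j).2).card ≤ A1.card + b := fun j =>
    (Finset.card_union_le _ _).trans (Nat.add_le_add_left (hq.card j) _)
  -- the bound for `K1 ^ ω`
  have hKω : ∀ j, K1 ^ (A1 ∪ (mm j).2).card ≤ q ^ r * q ^ r := by
    intro j
    calc K1 ^ (A1 ∪ (mm j).2).card ≤ K1 ^ (A1.card + b) := pow_le_pow_right₀ hK (hcard j)
      _ ≤ (q ^ r0) ^ (A1.card + b) := pow_le_pow_left₀ (by linarith) hrK _
      _ = q ^ (r0 * A1.card) * q ^ (r0 * b) := by rw [← pow_mul, ← pow_add, mul_add]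
      _ ≤ q ^ r * q ^ r := by
        have h1 : q ^ (r0 * A1.card) ≤ q ^ r := pow_le_pow_right₀ hq1.le hA
        have h2 : q ^ (r0 * b) ≤ q ^ r := pow_le_pow_right₀ hq1.le hb
        have h3 : 0 < q ^ (r0 * b) := by positivity
        have h4 : 0 < q ^ r := by positivity
        exact mul_le_mul h1 h2 h3.le h4.le
  have h4b : (4 : ℝ) ^ b ≤ q ^ r := by
    calc (4 : ℝ) ^ b ≤ (q ^ r0) ^ b := pow_le_pow_left₀ (by norm_num) hr4 _
      _ = q ^ (r0 * b) := by rw [← pow_mul]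
      _ ≤ q ^ r := pow_le_pow_right₀ hq1.le hb
  have hq2 : (2 : ℝ) ^ (δ * r) = q ^ r * q ^ r * (q ^ r * q ^ r) := by
    rw [hqd, ← Real.rpow_natCast, ← Real.rpow_mul (by norm_num), ← Real.rpow_add (by norm_num),
      ← Real.rpow_add (by norm_num)]
    congr 1
    ring
  set X0 : ℝ := |XA| + ∑ j ∈ Finset.range Rn, |XF j| with hX0
  refine ⟨X0, fun ρ hρ => ?_⟩
  have hXA' : ∀ v, XA ≤ ρ v := by
    intro v
    have : 0 ≤ ∑ j ∈ Finset.range Rn, |XF j| := Finset.sum_nonneg fun _ _ => abs_nonneg _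
    linarith [le_abs_self XA, hρ v]
  have hXF' : ∀ j ∈ Finset.range Rn, ∀ v, XF j ≤ ρ v := by
    intro j hj v
    have h9 : |XF j| ≤ ∑ j ∈ Finset.range Rn, |XF j| :=
      Finset.single_le_sum (f := fun j => |XF j|) (fun _ _ => abs_nonneg _) hj
    have h0 : 0 ≤ |XA| := abs_nonneg _
    linarith [le_abs_self (XF j), hρ v]
  have hfinH : (Bx F ρ).Finite := (hEQZ F).1 ρ
  set A : Set (𝓞 F × 𝓞 F) := {E ∈ Bx F ρ | ¬ Au Rn mm E} with hAd
  set B : ℕ → Set (𝓞 F × 𝓞 F) := fun j =>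
    {E ∈ Bx F ρ | (2 : ℝ) ^ (δ * r) < (sc E (G.tw (u * (mm j).1) (A1 ∪ (mm j).2)) : ℝ)} with hBd
  have hsub : {E ∈ Bx F ρ | ¬ (Au Rn mm E ∧
        (sc E (G.tw u A1 * G.mx mm E) : ℝ) ≤ 2 ^ (δ * r))} ⊆
      A ∪ ⋃ j ∈ Finset.range Rn, B j := by
    rintro E ⟨hE, hn⟩
    by_cases h : Au Rn mm E
    · right
      rw [Set.mem_iUnion₂]
      refine ⟨jx mm E, Finset.mem_range.2 h.1, hE, ?_⟩
      by_contra hc
      refine hn ⟨h, ?_⟩
      rw [Gs.mx, htw]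
      exact not_lt.1 hc
    · left
      exact ⟨hE, h⟩
  have hfinA : A.Finite := hfinH.subset (Set.sep_subset _ _)
  have hfinB : ∀ j, (B j).Finite := fun j => hfinH.subset (Set.sep_subset _ _)
  have hfinU : (⋃ j ∈ Finset.range Rn, B j).Finite :=
    (Finset.range Rn).finite_toSet.biUnion fun j _ => hfinB j
  have hUcard : ((⋃ j ∈ Finset.range Rn, B j).ncard : ℝ) ≤
      ∑ j ∈ Finset.range Rn, ((B j).ncard : ℝ) := by
    have h1 : ∀ s : Finset ℕ, (⋃ j ∈ s, B j).ncard ≤ ∑ j ∈ s, (B j).ncard := by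
      intro s
      induction s using Finset.induction_on with
      | empty => simp
      | insert a s ha ih =>
        rw [Finset.sum_insert ha, Finset.set_biUnion_insert]
        exact (Set.ncard_union_le _ _).trans (Nat.add_le_add_left ih _)
    exact_mod_cast h1 _
  have hp : 0 < q ^ r := by positivity
  have h0H : (0 : ℝ) ≤ ((Bx F ρ).ncard : ℝ) := by positivity
  have hBj2 : ∀ j ∈ Finset.range Rn, ((B j).ncard : ℝ) * (q ^ r * q ^ r) ≤
      2 * C * ((Bx F ρ).ncard : ℝ) := by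
    intro j hj
    obtain ⟨w1, w2⟩ := hXF j ρ (hXF' j hj)
    have hcnt := count ρ _ (hne j) hGEN hfinH w1 ((2 : ℝ) ^ (δ * r))
    have h0 : (0 : ℝ) ≤ ((B j).ncard : ℝ) := by positivity
    have hcnt' : ((B j).ncard : ℝ) * (q ^ r * q ^ r * (q ^ r * q ^ r) - 1) ≤
        ((W ρ (G.tw (u * (mm j).1) (A1 ∪ (mm j).2))).ncard : ℝ) := by
      rw [← hq2]
      exact hcnt
    have hQ2 : 2 ≤ q ^ r * q ^ r * (q ^ r * q ^ r) := by
      have h1 : 4 ≤ q ^ r * q ^ r := by nlinarith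
      nlinarith
    have h3 : ((B j).ncard : ℝ) * (q ^ r * q ^ r * (q ^ r * q ^ r)) ≤
        2 * (((B j).ncard : ℝ) * (q ^ r * q ^ r * (q ^ r * q ^ r) - 1)) := by
      nlinarith
    have h4 : ((W ρ (G.tw (u * (mm j).1) (A1 ∪ (mm j).2))).ncard : ℝ) ≤
        C * (q ^ r * q ^ r) * ((Bx F ρ).ncard : ℝ) := by
      refine w2.trans ?_
      have := hKω j
      gcongr
    have hp2 : 0 < q ^ r * q ^ r := by positivity
    refine le_of_mul_le_mul_right ?_ hp2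
    calc ((B j).ncard : ℝ) * (q ^ r * q ^ r) * (q ^ r * q ^ r)
        = ((B j).ncard : ℝ) * (q ^ r * q ^ r * (q ^ r * q ^ r)) := by ring
      _ ≤ 2 * (C * (q ^ r * q ^ r) * ((Bx F ρ).ncard : ℝ)) := by linarith
      _ = _ := by ring
  have hsum : (∑ j ∈ Finset.range Rn, ((B j).ncard : ℝ)) * (q ^ r * q ^ r) ≤
      (q ^ r * (r : ℝ) ^ 2) * (2 * C * ((Bx F ρ).ncard : ℝ)) := by
    rw [Finset.sum_mul]
    calc ∑ j ∈ Finset.range Rn, ((B j).ncard : ℝ) * (q ^ r * q ^ r)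
        ≤ ∑ j ∈ Finset.range Rn, 2 * C * ((Bx F ρ).ncard : ℝ) :=
          Finset.sum_le_sum hBj2
      _ = ((4 : ℝ) ^ b * (r : ℝ) ^ 2) * (2 * C * ((Bx F ρ).ncard : ℝ)) := by
          rw [Finset.sum_const, Finset.card_range, nsmul_eq_mul, hRn]; push_cast; ring
      _ ≤ _ := by
          have hCC : 0 ≤ 2 * C * ((Bx F ρ).ncard : ℝ) := by positivity
          refine mul_le_mul_of_nonneg_right ?_ hCC
          exact mul_le_mul_of_nonneg_right h4b (by positivity)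
  have hsum2 : ∑ j ∈ Finset.range Rn, ((B j).ncard : ℝ) ≤ ε / 2 * ((Bx F ρ).ncard : ℝ) := by
    have hp2 : 0 < q ^ r * q ^ r := by positivity
    refine le_of_mul_le_mul_right ?_ hp2
    refine hsum.trans ?_
    have h7 := mul_le_mul_of_nonneg_right b3 h0H
    have h8 := mul_le_mul_of_nonneg_left h7 hp.le
    nlinarith
  have hAc : (A.ncard : ℝ) ≤ ε / 2 * ((Bx F ρ).ncard : ℝ) := by
    refine (hXA ρ hXA').trans ?_
    have hex : ((Rn : ℕ) : ℝ) / 4 ^ b = (r : ℝ) ^ 2 := by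
      rw [hRn]
      push_cast
      field_simp
    rw [hex]
    exact mul_le_mul_of_nonneg_right b1 h0H
  calc ({E ∈ Bx F ρ | ¬ (Au Rn mm E ∧
        (sc E (G.tw u A1 * G.mx mm E) : ℝ) ≤ 2 ^ (δ * r))}.ncard : ℝ)
      ≤ ((A ∪ ⋃ j ∈ Finset.range Rn, B j).ncard : ℝ) := by
        exact_mod_cast Set.ncard_le_ncard hsub (hfinA.union hfinU)
    _ ≤ (A.ncard : ℝ) + ((⋃ j ∈ Finset.range Rn, B j).ncard : ℝ) := by
        exact_mod_cast Set.ncard_union_le _ _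
    _ ≤ ε / 2 * ((Bx F ρ).ncard : ℝ) + ε / 2 * ((Bx F ρ).ncard : ℝ) :=
        add_le_add hAc (hUcard.trans hsum2)
    _ = ε * ((Bx F ρ).ncard : ℝ) := by ring

end Pool.Agent.Lib.MP_8cb858_nt.PU
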