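import Pool.Agent.Lib.MP_8cb858_nt.PU.Defs
import Pool.Agent.Lib.MP_8cb858_nt.PF.SpecS
import Pool.Agent.Lib.MP_8cb858_nt.PF.SpecDN
import Pool.Agent.Lib.MP_8cb858_nt.PF.RF.Spec

/-!
# Specs, block G: generators, classes modulo local squares, auxiliary sets of places

This replaces the theorem of Dirichlet on primes in arithmetic progressions: every class modulo squares at the places of `M` (and at
the infinite places) contains infinitely many `u ∏_(v ∈ A) pi v`, `u ∈ U`, with disjoint sets `A` of at most `c0 + 2 #M` places.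
The Specs of `PF/`, `SEL/` are proved and may be used as hypotheses (`PF.SpecNF`, `PF.SpecVAL`, `PF.SpecHNS`, ...).
Module XXX = file `PU/XXX.lean` (import `...PU.SpecG`), `theorem specXXX (hYYY : SpecYYY) .. : SpecXXX`, own lemmas in the namespace
`Pool.Agent.Lib.MP_8cb858_nt.PU.XXXM`.
-/

namespace Pool.Agent.Lib.MP_8cb858_nt.PU

open Polynomial NumberField IsDedekindDomain Pool.Agent.Lib.MP_8cb858_nt.SEL
open Pool.Agent.Lib.MP_8cb858_nt.PF
open scoped Classical WithZero

/-- **UNR** (60 lines). Almost all places are unramified.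
Proof. If `p` is a prime number not dividing `discr F`, all places over `p` are unramified (`NumberField.not_dvd_discr_iff_forall_mem` or the lemma used
in `PF/PRM.lean`); finitely many primes divide the discriminant, finitely many places contain a given `p`. -/
def SpecUNR : Prop := ∀ (F : Type) [Field F] [NumberField F], {v : Pl F | ¬ Unr v}.Finite

/-- **GNA** (200 lines; from UNR). Generators outside a finite set of places.
Proof. The class group is finite: there are nonzero integral ideals `c_1, .., c_h` representing all classes (`ClassGroup.mk0_surjective`). `S` = the places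
containing `6`, the ramified places (UNR), and the places containing some `c_i`. For `v ∉ S` there is `i` with `v c_i = (π)` principal
(`ClassGroup.mk0_eq_one_iff`): `π ≠ 0`, `π ∈ v`, `π ∉ v^2` (`c_i` is not contained in `v`), `π ∉ w` for `w ∉ S`, `w ≠ v`; `N(π) = nv v N(c_i)`.
`PF.SpecNF` `int` translates to valuations. `pi v = 1` for `v ∈ S`. `C = 1 + max N(c_i)` (`nv v ≥ 1`). -/
def SpecGNA : Prop :=
  ∀ (F : Type) [Field F] [NumberField F], ∃ (S : Finset (Pl F)) (pi : Pl F → 𝓞 F) (C : ℝ), 1 ≤ C ∧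
    (∀ v : Pl F, v ∉ S → (6 : 𝓞 F) ∉ v.asIdeal ∧ Unr v) ∧ (∀ v, pi v ≠ 0) ∧
    (∀ v, v ∉ S → vv v (lc v (pi v)) = WithZero.exp (-1 : ℤ)) ∧
    (∀ v w, v ∉ S → w ∉ S → w ≠ v → vv w (lc w (pi v)) = 1) ∧
    ∀ v, (Ideal.absNorm (Ideal.span {pi v}) : ℝ) ≤ C * nv v

/-- **GNB** (250 lines; from `PF.SpecSUI`). Finitely many classes of elements with even valuations outside `S`.
Proof. Let `x ≠ 0` have even valuations outside `S` (finitely many are nonzero). Dividing by the square of a product of powers of the `pi w` we may assume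
that all valuations outside `S` are 1. Let `h` be the class number: `v^h = (g_v)` for `v ∈ S`. Let `n_v` be the exponent of `v ∈ S` in `x`
(`w x = exp (-n_v)`), `n_v = 2 h q_v + r_v`, `0 ≤ r_v < 2h`. `x' = x ∏ g_v^(-2 q_v)` is `x` times a square, integral
(`HeightOneSpectrum.mem_integers_of_valuation_le_one`), and `(x') = ∏_(v ∈ S) v^(r_v)`. For each of the finitely many `r` for which this ideal is
principal choose a generator `x_r`; `x' = x_r e`, `e` a unit; the units modulo squares are finite (`PF.SpecSUI`: the index is not 0): representatives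
`e_j`. `U` = the set of the `x_r e_j`. (`v^h` principal: `pow_card_eq_one'` in the class group.) -/
def SpecGNB : Prop :=
  ∀ (F : Type) [Field F] [NumberField F] (S : Finset (Pl F)) (pi : Pl F → 𝓞 F), (∀ v, pi v ≠ 0) →
    (∀ v, v ∉ S → vv v (lc v (pi v)) = WithZero.exp (-1 : ℤ)) →
    (∀ v w, v ∉ S → w ∉ S → w ≠ v → vv w (lc w (pi v)) = 1) →
    ∃ U : Finset (𝓞 F), (∀ u ∈ U, u ≠ 0) ∧ (∀ u ∈ U, ∀ w, w ∉ S → vv w (lc w u) = 1) ∧
      ∀ x : F, x ≠ 0 →
      (∀ w : Pl F, w ∉ S → ∃ n : ℤ, vv w (algebraMap F (w.adicCompletion F) x) =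
        WithZero.exp (2 * n)) → ∃ u ∈ U, ∃ y : F, y ≠ 0 ∧ x = (u : F) * y ^ 2

/-- **GNX** (20 lines; from GNA, GNB). -/
def SpecGNX : Prop := ∀ (F : Type) [Field F] [NumberField F], Nonempty (Gs F)

/-- **TWV** (100 lines). The valuations of `u ∏_(v ∈ A) pi v`.
Proof. `Gs.ex`, `Gs.un`, `Gs.uun`, products. `odd`: the parity of the valuation outside `S` is 1 exactly at `A`. -/
structure SpecTWV : Prop where
  ne : ∀ {F : Type} [Field F] [NumberField F] (G : Gs F) (u : 𝓞 F) (A : Finset (Pl F)), u ≠ 0 →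
    G.tw u A ≠ 0
  ex : ∀ {F : Type} [Field F] [NumberField F] (G : Gs F) (u : 𝓞 F) (A : Finset (Pl F)) (v : Pl F),
    (∀ w, w ∉ G.S → vv w (lc w u) = 1) → (∀ w ∈ A, w ∉ G.S) → v ∈ A →
    vv v (lc v (G.tw u A)) = WithZero.exp (-1 : ℤ)
  un : ∀ {F : Type} [Field F] [NumberField F] (G : Gs F) (u : 𝓞 F) (A : Finset (Pl F)) (v : Pl F),
    (∀ w, w ∉ G.S → vv w (lc w u) = 1) → (∀ w ∈ A, w ∉ G.S) → v ∉ A → v ∉ G.S →
    vv v (lc v (G.tw u A)) = 1
  mul : ∀ {F : Type} [Field F] [NumberField F] (G : Gs F) (u u' : 𝓞 F) (A A' : Finset (Pl F)),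
    Disjoint A A' → G.tw u A * G.tw u' A' = G.tw (u * u') (A ∪ A')
  img : ∀ {F : Type} [Field F] [NumberField F] (G : Gs F) (u : 𝓞 F) (A : Finset (Pl F)) (ι : Type)
    (s : Finset ι) (p : ι → Pl F), (∀ i ∈ s, ∀ j ∈ s, p i = p j → i = j) → (∀ i ∈ s, p i ∉ A) →
    G.tw u A * ∏ i ∈ s, G.pi (p i) = G.tw u (A ∪ s.image p)
  uu : ∀ {F : Type} [Field F] [NumberField F] (G : Gs F), ∀ c ∈ G.UU, c ≠ 0 ∧
    ∀ w, w ∉ G.S → vv w (lc w c) = 1

/-! ## Classes modulo local squares -/

/-- **LSC** (200 lines). Finitely many square classes in the completions.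
Proof. `odd`: `x = π^k y`, `y` a unit (`π` a uniformizer of `F_v`, `PF.SpecVAL`); colour = (parity of `k`, is `y` a square modulo the maximal
ideal); product of two nonsquares in a finite field is a square; Hensel (`PF.SpecHNS` `sqr`, `2 ∉ v`). `fin`: `4 ≠ 0`: there is `N` such that every
`y` with `w (y - 1) ≤ exp (-N)` is a square (`SEL.BIGM.sq_of_near`); colour = (parity of `k`, class of `y` modulo `{w ≤ exp (-N)}`), finitely many
classes (`O / π^N` is finite: the classes are represented by elements of `𝓞 F ⧸ v^N`, density `PF.SpecNF` `dense` iterated, or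
`PF.SpecLFB`/`KMF`-type lemmas); for `y, y'` in the same class `y y' = y^2 (y'/y)`. `inf`: complex: everything is a square (algebraically closed); real:
the sign (`v.Completion ≅ ℝ`, see `PF/LIF.lean`). -/
structure SpecLSC : Prop where
  odd : ∀ (F : Type) [Field F] [NumberField F] (v : Pl F), (2 : 𝓞 F) ∉ v.asIdeal →
    ∃ c : v.adicCompletion F → Fin 4, ∀ x y, x ≠ 0 → y ≠ 0 → c x = c y → IsSquare (x * y)
  fin : ∀ (F : Type) [Field F] [NumberField F] (v : Pl F),
    ∃ (N : ℕ) (c : v.adicCompletion F → Fin N), ∀ x y, x ≠ 0 → y ≠ 0 → c x = c y → IsSquare (x * y)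
  inf : ∀ (F : Type) [Field F] [NumberField F] (v : InfinitePlace F),
    ∃ c : v.Completion → Fin 2, ∀ x y, x ≠ 0 → y ≠ 0 → c x = c y → IsSquare (x * y)

/-- **NUM** (120 lines; from LSC, CLM). The number of classes.
Proof. Let `S2` be the set of the places over 2, `N_v` from LSC `fin`, `2^c0 ≥ ∏_(v ∈ S2) N_v * 2^(number of infinite places)` (`N_v ≥ 1`). The map
`x ↦` (colour of `x` at `v ∈ M \ S2` (`Fin 4`), at `v ∈ S2`, at the infinite places): if `x, y ≠ 0` have the same colours then `Lsq M (x y)` and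
`cl M x = cl M y` (CLM `eq`). -/
def SpecNUM : Prop :=
  ∀ (F : Type) [Field F] [NumberField F], ∃ c0 : ℕ, ∀ (M : Finset (Pl F)) (T : Finset F),
    (∀ x ∈ T, x ≠ 0) → (T.image (cl M)).card ≤ 2 ^ (c0 + 2 * M.card)

/-- **CLM** (150 lines). The classes.
Proof. `Lsq M` is closed under products, contains the squares, and is invariant under multiplication by nonzero squares; `cl M x = cl M y` iff
`Lsq M (x y)`: if equal, `y` (note `Lsq M (y y)`) is in `cl M y = cl M x`; conversely `x z = (x y)(y z)/y^2`. `val`: a square in `F_v`. -/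
structure SpecCLM : Prop where
  lmul : ∀ {F : Type} [Field F] [NumberField F] (M : Finset (Pl F)) (x y : F), Lsq M x → Lsq M y →
    Lsq M (x * y)
  lsq : ∀ {F : Type} [Field F] [NumberField F] (M : Finset (Pl F)) (x y : F), y ≠ 0 →
    (Lsq M (x * y ^ 2) ↔ Lsq M x)
  one : ∀ {F : Type} [Field F] [NumberField F] (M : Finset (Pl F)) (y : F), Lsq M (y ^ 2)
  eq : ∀ {F : Type} [Field F] [NumberField F] (M : Finset (Pl F)) (x y : F), x ≠ 0 → y ≠ 0 →
    (cl M x = cl M y ↔ Lsq M (x * y))
  mul : ∀ {F : Type} [Field F] [NumberField F] (M : Finset (Pl F)) (x x' y y' : F), x ≠ 0 →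
    x' ≠ 0 → y ≠ 0 → y' ≠ 0 → cl M x = cl M x' → cl M y = cl M y' → cl M (x * y) = cl M (x' * y')
  prd : ∀ {F : Type} [Field F] [NumberField F] (M : Finset (Pl F)) (ι : Type) (s : Finset ι)
    (f g : ι → F), (∀ i ∈ s, f i ≠ 0 ∧ g i ≠ 0 ∧ cl M (f i) = cl M (g i)) →
    cl M (∏ i ∈ s, f i) = cl M (∏ i ∈ s, g i)
  mon : ∀ {F : Type} [Field F] [NumberField F] (M M' : Finset (Pl F)) (x y : F), x ≠ 0 → y ≠ 0 →
    M' ⊆ M → cl M x = cl M y → cl M' x = cl M' y
  val : ∀ {F : Type} [Field F] [NumberField F] (M : Finset (Pl F)) (x : F), x ≠ 0 → Lsq M x →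
    ∀ v ∈ M, ∃ n : ℤ, vv v (algebraMap F (v.adicCompletion F) x) = WithZero.exp (2 * n)

/-- **WAP** (250 lines). Weak approximation.
Proof. (1) `PF.RF.SpecDNF` for the set `M ∪ B`: `m1 ∈ F` with `m1/x` close to 1 in `F_v`, `v ∈ M` (so that it is a nonzero square:
`SEL.BIGM.sq_of_near`, `m1 x = (m1/x) x^2`), and `w(m1 - 1) < 1` for `v ∈ B`. (2) Signs: let `ε_v = ±1` be the sign of `m1 x` at the real place `v`. There
is `s ∈ 𝓞 F` with `ε_v s_v > 1` for all real `v` (`F` is dense in the product of the completions at the infinite places,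
`NumberField.InfiniteAdeleRing.denseRange_algebraMap`: `y ∈ F` with `|y - ε_v|_v < 1/2`; multiply by a large positive integer which makes it
integral). Let `N` be a positive integer contained in all `v ∈ M ∪ B` and `k` large: `t = 1 + N^k s` is a square in `F_v` for `v ∈ M`, a
unit at `v ∈ B`, and has the sign `ε_v` at the real places (`N^k ≥ 1`). `m = m1 t`: at the infinite places `m x` is positive (real places) or
complex, hence a square (`v.Completion` is `ℝ` or `ℂ`, see `PF/LIF.lean`). -/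
def SpecWAP : Prop :=
  ∀ (F : Type) [Field F] [NumberField F] (M B : Finset (Pl F)) (x : F), (∀ v ∈ B, v ∉ M) → x ≠ 0 →
    ∃ m : F, m ≠ 0 ∧ Lsq M (m * x) ∧
      ∀ v ∈ B, vv v (algebraMap F (v.adicCompletion F) m) = 1

/-- **AUY** (200 lines; from CLM, WAP, TWV). One auxiliary set.
Proof. WAP for `M` and `B \ M`: `m` with `Lsq M (m x)` and unit at `B \ M`. Let `A'` be the set of the `v ∉ S` with odd valuation of `m` (finite). `A'` is
disjoint from `B` and from `M`: at `v ∈ M \ S` the valuation of `m x` is even (CLM `val`) and the one of `x` is 0. `m / ∏_(A') pi v` has even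
valuations outside `S` (`Gs.ex`, `Gs.un`), so it is `u y^2` (`Gs.rep`) and `cl M (tw u A') = cl M m = cl M x`. Now let `A ⊆ A'` be of minimal
cardinality with `cl M (tw u A) = cl M x`. If `#A > c0 + 2 #M`: the `2^#A` subsets `J` of `A` give at most `2^(c0 + 2 #M)` classes
`cl M (∏_J pi v)`, so there are `J ≠ J'` with the same class; `Δ` = the symmetric difference, not empty, `∏_Δ pi v` has the trivial class
(`∏_J ∏_J' = ∏_Δ (∏_(J ∩ J'))^2`), and `A \ Δ` is smaller with the same class of `tw u`: contradiction. -/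
def SpecAUY : Prop :=
  ∀ (F : Type) [Field F] [NumberField F] (G : Gs F) (c0 : ℕ) (M B : Finset (Pl F)) (x : F),
    (∀ T : Finset F, (∀ x ∈ T, x ≠ 0) → (T.image (cl M)).card ≤ 2 ^ (c0 + 2 * M.card)) →
    G.S ⊆ M → x ≠ 0 →
    (∀ v ∈ M, v ∉ G.S → vv v (algebraMap F (v.adicCompletion F) x) = 1) →
    ∃ u ∈ G.U, ∃ A : Finset (Pl F), A.card ≤ c0 + 2 * M.card ∧ (∀ v ∈ A, v ∉ M ∧ v ∉ B) ∧
      cl M (G.tw u A : F) = cl M x

/-- **AUX** (150 lines; from AUY, `PF.SpecDNV`). The auxiliary sets of places.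
Proof. For `(M, c)` such that there is `x` as in AUY with `cl M x = c` choose `x` and define the `j`-th pair by AUY with `B` = `bad`, the places of norm
`< B0` (finitely many: DNV) and the union of the previous sets `A` (recursion on `j`, carrying the union). Other `(M, c)`: anything. -/
def SpecAUX : Prop :=
  ∀ (F : Type) [Field F] [NumberField F] (G : Gs F) (c0 : ℕ),
    (∀ (M : Finset (Pl F)) (T : Finset F), (∀ x ∈ T, x ≠ 0) →
      (T.image (cl M)).card ≤ 2 ^ (c0 + 2 * M.card)) →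
    ∀ (B0 : ℕ) (bad : Finset (Pl F)), ∃ mm : Finset (Pl F) → Set F → ℕ → 𝓞 F × Finset (Pl F),
      ∀ (M : Finset (Pl F)) (x : F), G.S ⊆ M → x ≠ 0 →
        (∀ v ∈ M, v ∉ G.S → vv v (algebraMap F (v.adicCompletion F) x) = 1) →
        (∀ i j, i ≠ j → Disjoint (mm M (cl M x) i).2 (mm M (cl M x) j).2) ∧
        ∀ j, (mm M (cl M x) j).1 ∈ G.U ∧ (mm M (cl M x) j).2.card ≤ c0 + 2 * M.card ∧
          (∀ v ∈ (mm M (cl M x) j).2, v ∉ M ∧ v ∉ bad ∧ B0 ≤ nv v) ∧
          cl M (G.tw (mm M (cl M x) j).1 (mm M (cl M x) j).2 : F) = cl M x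

end Pool.Agent.Lib.MP_8cb858_nt.PU
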