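import Pool.Agent.Lib.MP_8cb858_nt.PU.SpecF
import Pool.Agent.Lib.MP_8cb858_nt.PU.SpecG

/-!
# Definitions for Theorem S*: auxiliary elements, nodes

Version over `F` of `PT/DefN.lean`. An auxiliary sequence is `mm : ℕ → 𝓞 F × Finset (Pl F)`, the `j`-th auxiliary element is
`G.tw (mm j).1 (mm j).2 = u ∏_(v ∈ A) pi v`; it is used for the curve `E` if all places of `A` are of type (3) for `E`.
-/

namespace Pool.Agent.Lib.MP_8cb858_nt.PU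

open Polynomial NumberField IsDedekindDomain Pool.Agent.Lib.MP_8cb858_nt.SEL
open Pool.Agent.Lib.MP_8cb858_nt.PF
open scoped Classical WithZero

variable {F : Type} [Field F] [NumberField F]

/-- The index of the first auxiliary set all of whose places are of type (3). -/
noncomputable def jx (mm : ℕ → 𝓞 F × Finset (Pl F)) (E : 𝓞 F × 𝓞 F) : ℕ :=
  sInf {j | ∀ v ∈ (mm j).2, Y3 v E}

/-- The auxiliary element. -/
noncomputable def Gs.mx (G : Gs F) (mm : ℕ → 𝓞 F × Finset (Pl F)) (E : 𝓞 F × 𝓞 F) : 𝓞 F :=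
  G.tw (mm (jx mm E)).1 (mm (jx mm E)).2

/-- The auxiliary element exists among the first `R`. -/
def Au (R : ℕ) (mm : ℕ → 𝓞 F × Finset (Pl F)) (E : 𝓞 F × 𝓞 F) : Prop :=
  jx mm E < R ∧ ∀ v ∈ (mm (jx mm E)).2, Y3 v E

/-- A good node: `D = D0 m`, `m` the auxiliary element, `L` a list of places. -/
structure Nok (G : Gs F) (η κ : ℝ) (R : ℕ) (D0 : 𝓞 F) (mm : ℕ → 𝓞 F × Finset (Pl F))
    (L : Finset (Pl F)) (E : 𝓞 F × 𝓞 F) : Prop where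
  aux : Au R mm E
  t12 : |((L.filter (fun q => Y12 q E)).card : ℝ) - (L.card : ℝ) / 2| ≤ κ * L.card
  t3 : |((L.filter (fun q => Y3 q E)).card : ℝ) - (L.card : ℝ) / 3| ≤ κ * L.card
  uni : ∀ z : Sel 2 (cO E.1 E.2 (D0 * G.mx mm E)), z ≠ 0 →
    |((L.filter (fun q => Y12 q E ∧ TrO (D0 * G.mx mm E) q z)).card : ℝ) -
      ((L.filter (fun q => Y12 q E)).card : ℝ) / 2| ≤
      η * ((L.filter (fun q => Y12 q E)).card : ℝ)

/-- The conditions on an auxiliary sequence (`b` = bound for the number of places, `r0` = bound for the norms, `X` = forbidden places). -/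
structure Aq (G : Gs F) (b r0 : ℕ) (X : Set (Pl F)) (mm : ℕ → 𝓞 F × Finset (Pl F)) : Prop where
  dis : ∀ i j, i ≠ j → Disjoint (mm i).2 (mm j).2
  u : ∀ j, (mm j).1 ∈ G.U
  card : ∀ j, (mm j).2.card ≤ b
  out : ∀ j, ∀ v ∈ (mm j).2, v ∉ G.S ∧ r0 ≤ nv v ∧ v ∉ X

/-- **NOD.** The probability over `E` of a bad node. -/
def SpecNOD : Prop :=
  ∀ (F : Type) [Field F] [NumberField F] (G : Gs F) (η κ B : ℝ), 0 < η → 0 < κ → 0 < B →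
    ∃ r0 : ℕ, ∀ (r b : ℕ) (u : 𝓞 F) (A L : Finset (Pl F)) (mm : ℕ → 𝓞 F × Finset (Pl F)),
    r0 ≤ r → u ∈ G.U → A.card ≤ 3 * r → b ≤ 5 * r → (∀ v ∈ A, v ∉ G.S) →
    (∀ q ∈ L, q ∉ G.S ∧ r0 ≤ nv q ∧ q ∉ A) → Real.exp (r0 * r) ≤ (L.card : ℝ) →
    Aq G b r0 (fun v => v ∈ A ∨ v ∈ L) mm →
    ∃ R0 : ℝ, ∀ ρ : InfinitePlace F → ℝ, (∀ v, R0 ≤ ρ v) →
      ({E ∈ Bx F ρ | ¬ Nok G η κ (4 ^ b * r ^ 2) (G.tw u A) mm L E}.ncard : ℝ) ≤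
        Real.exp (-(B * r)) * ((Bx F ρ).ncard : ℝ)

/-- **BAS.** The base bound. -/
def SpecBAS : Prop :=
  ∀ (F : Type) [Field F] [NumberField F] (G : Gs F) (δ ε : ℝ), 0 < δ → 0 < ε →
    ∃ r0 : ℕ, ∀ (r b : ℕ) (u : 𝓞 F) (A : Finset (Pl F)) (mm : ℕ → 𝓞 F × Finset (Pl F)),
    r0 ≤ r → u ∈ G.U → r0 * A.card ≤ r → r0 * b ≤ r → (∀ v ∈ A, v ∉ G.S) →
    Aq G b r0 (fun v => v ∈ A) mm →
    ∃ R0 : ℝ, ∀ ρ : InfinitePlace F → ℝ, (∀ v, R0 ≤ ρ v) →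
      ({E ∈ Bx F ρ | ¬ (Au (4 ^ b * r ^ 2) mm E ∧
        (sc E (G.tw u A * G.mx mm E) : ℝ) ≤ 2 ^ (δ * r))}.ncard : ℝ) ≤
        ε * ((Bx F ρ).ncard : ℝ)

end Pool.Agent.Lib.MP_8cb858_nt.PU
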