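import Pool.Agent.Lib.MP_8cb858_nt.PT.SpecE

/-!
# The Poonen-Rains law for almost all quadratic twists, over every number field: definitions

`F` is a number field, `a, b, D` integers of `F`, `f = X^3 + a X + b`, `E^D : y^2 = x^3 + a D^2 x + b D^3`.
A curve is a pair `E = (a, b)` of integers of `F`. Places of `F` = `HeightOneSpectrum (𝓞 F)` (finite) and
`InfinitePlace F`. This is the version over `F` of the folder `PT/` (`F = ℚ`).
-/

namespace Pool.Agent.Lib.MP_8cb858_nt.PU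

open Polynomial NumberField IsDedekindDomain Pool.Agent.Lib.MP_8cb858_nt.SEL
open Pool.Agent.Lib.MP_8cb858_nt.PF
open scoped Classical WithZero

/-- The finite places. -/
abbrev Pl (F : Type) [Field F] [NumberField F] : Type := HeightOneSpectrum (𝓞 F)

section defs

variable {F : Type} [Field F] [NumberField F]

/-- The twist `E^D`, `D` an integer of `F`. -/
noncomputable abbrev cO (a b D : 𝓞 F) : WeierstrassCurve F := cur (a : F) (b : F) (D : F)

/-- `Triv` for `E^D`. -/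
abbrev TrO {a b : 𝓞 F} (D : 𝓞 F) (v : Pl F) (z : Sel 2 (cO a b D)) : Prop :=
  Triv (a := (a : F)) (b := (b : F)) (D : F) v z

/-- The order of the 2-Selmer group of `E^D`. -/
noncomputable def sc (E : 𝓞 F × 𝓞 F) (D : 𝓞 F) : ℕ := Nat.card (Sel 2 (cO E.1 E.2 D))

/-- `v` is of type (1,2): `f` is the product of a linear and an irreducible quadratic factor modulo `v`
(`v` not over 6). -/
def Y12 (v : Pl F) (E : 𝓞 F × 𝓞 F) : Prop := ∀ x : 𝓞 F, x ^ 2 + dsc E.1 E.2 ∉ v.asIdeal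

/-- `v` is of type (3): `f` is irreducible modulo `v`. -/
def Y3 (v : Pl F) (E : 𝓞 F × 𝓞 F) : Prop := ∀ x : 𝓞 F, x ^ 3 + E.1 * x + E.2 ∉ v.asIdeal

/-- The type of the place `v` for `E`: 0 = (1,2), 1 = (3), 2 = (1,1,1), 3 = bad. -/
noncomputable def ty (v : Pl F) (E : 𝓞 F × 𝓞 F) : ℕ :=
  if Y12 v E then 0 else if Y3 v E then 1 else if dsc E.1 E.2 ∈ v.asIdeal then 3 else 2

/-- `x` is a square at the places of `M` and at the infinite places. -/
def Lsq (M : Finset (Pl F)) (x : F) : Prop :=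
  (∀ v ∈ M, IsSquare (algebraMap F (v.adicCompletion F) x)) ∧
    ∀ v : InfinitePlace F, IsSquare (algebraMap F v.Completion x)

/-- The class of `x` modulo `Lsq M` (a coset, as a set). -/
def cl (M : Finset (Pl F)) (x : F) : Set F := {y | y ≠ 0 ∧ Lsq M (x * y)}

/-- `4 a^3 + 27 b^2` is not in `v^2` for `v ∉ M`. -/
def Sf (M : Finset (Pl F)) (E : 𝓞 F × 𝓞 F) : Prop :=
  ∀ v : Pl F, v ∉ M → dsc E.1 E.2 ∉ v.asIdeal ^ 2

/-- `v` is unramified over `ℚ`. -/
def Unr (v : Pl F) : Prop := ∀ p : ℕ, p.Prime → (p : 𝓞 F) ∈ v.asIdeal → (p : 𝓞 F) ∉ v.asIdeal ^ 2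

/-- `M` contains the places over 6 and the ramified places. -/
def Gm (M : Finset (Pl F)) : Prop := ∀ v : Pl F, v ∉ M → (6 : 𝓞 F) ∉ v.asIdeal ∧ Unr v

/-- `D` is `T`-admissible with the class of `Ds` at the places of `M` and at the infinite places. -/
structure Ad (M P T : Finset (Pl F)) (Ds D : 𝓞 F) : Prop where
  ne : D ≠ 0
  sq : Lsq M ((D * Ds : 𝓞 F) : F)
  ex : ∀ v ∈ T, vv v (lc v D) = WithZero.exp (-1 : ℤ)
  un : ∀ v : Pl F, v ∉ M → v ∉ P → v ∉ T → vv v (lc v D) = 1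

/-- The classes which are Kummer classes of `E^Ds` at the places of `M` and at the infinite places, and unit classes at
all other places outside `Q`. -/
def Wh (M Q : Finset (Pl F)) (Ds : 𝓞 F) (a b : 𝓞 F) : Set (Lk (a : F) (b : F)) :=
  {α | InV α ∧ (∀ v ∈ M, Aff (lc v Ds) (ul v α)) ∧
    (∀ v : InfinitePlace F, Aff (algebraMap F v.Completion (Ds : F)) (up v.Completion α)) ∧
    ∀ v : Pl F, v ∉ M → v ∉ Q → Ev (vv v) (ul v α)}

end defs

variable (F : Type) [Field F] [NumberField F]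

/-- Generators: `S` is a finite set of places generating the class group, `pi v` (`v ∉ S`) an integer with `(pi v)` = `v`
times places of `S`, `U` a finite set of representatives of the elements with even valuations outside `S`, modulo squares. -/
structure Gs where
  S : Finset (Pl F)
  pi : Pl F → 𝓞 F
  U : Finset (𝓞 F)
  C : ℝ
  one : 1 ≤ C
  six : ∀ v : Pl F, v ∉ S → (6 : 𝓞 F) ∉ v.asIdeal ∧ Unr v
  ne : ∀ v, pi v ≠ 0
  ex : ∀ v, v ∉ S → vv v (lc v (pi v)) = WithZero.exp (-1 : ℤ)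
  un : ∀ v w, v ∉ S → w ∉ S → w ≠ v → vv w (lc w (pi v)) = 1
  nrm : ∀ v, (Ideal.absNorm (Ideal.span {pi v}) : ℝ) ≤ C * nv v
  une : ∀ u ∈ U, u ≠ 0
  uun : ∀ u ∈ U, ∀ w, w ∉ S → vv w (lc w u) = 1
  rep : ∀ x : F, x ≠ 0 →
    (∀ w : Pl F, w ∉ S → ∃ n : ℤ, vv w (algebraMap F (w.adicCompletion F) x) = WithZero.exp (2 * n)) →
    ∃ u ∈ U, ∃ y : F, y ≠ 0 ∧ x = (u : F) * y ^ 2

variable {F}

/-- The integer `u ∏_(v ∈ A) pi v`. -/
noncomputable def Gs.tw (G : Gs F) (u : 𝓞 F) (A : Finset (Pl F)) : 𝓞 F := u * ∏ v ∈ A, G.pi v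

/-- The products of two elements of `U`. -/
noncomputable def Gs.UU (G : Gs F) : Finset (𝓞 F) := (G.U ×ˢ G.U).image (fun p => p.1 * p.2)

/-- The proportion of the pairs in the box `Bx F ρ` whose twist by `D` has `dim Sel_2 = d`. -/
noncomputable def prop (ρ : InfinitePlace F → ℝ) (D : 𝓞 F) (d : ℕ) : ℝ :=
  ({q ∈ Bx F ρ | sc q D = 2 ^ d}.ncard : ℝ) / ((Bx F ρ).ncard : ℝ)

end Pool.Agent.Lib.MP_8cb858_nt.PU
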