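import Pool.Agent.Lib.MP_8cb858_nt.PU.SpecR
import Pool.Agent.Lib.MP_8cb858_nt.PF.RF.TRI
import Pool.Agent.Lib.MP_8cb858_nt.PF.RF.RECF

section
/-!
# ANJ: the anisotropic ternary form of determinant minus a square, also when `-1` is not a square
-/
namespace Pool.Agent.Lib.MP_8cb858_nt.PU

open Matrix NumberField IsDedekindDomain Pool.Agent.Lib.MP_8cb858_nt.PF
open Pool.Agent.Lib.MP_8cb858_nt.PF.RF (Cg IsoM D3 J3 hT)

namespace ANJM

variable {K : Type} [Field K] [CharZero K]

lemma form_diag (d x : Fin 3 → K) : x ⬝ᵥ (diagonal d).mulVec x = d 0 * x 0 ^ 2 + d 1 * x 1 ^ 2 + d 2 * x 2 ^ 2 := by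
  simp only [dotProduct, Matrix.mulVec_diagonal, Fin.sum_univ_three]
  ring

/-- two coefficients whose sum is zero up to a square -/
lemma iso_diag2 {d : Fin 3 → K} {j k : Fin 3} (hjk : j ≠ k) {t : K} (ht : d j + d k * t ^ 2 = 0) :
    IsoM (diagonal d) := by
  refine ⟨Pi.single j 1 + Pi.single k t, ?_, ?_⟩
  · intro h
    have := congrFun h j
    simp [hjk] at this
  · rw [form_diag]
    fin_cases j <;> fin_cases k <;> simp at hjk ht ⊢ <;> linear_combination ht

/-- the value of a label -/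
def Lb (l : K) (b : Bool) : K := if b then l else 1

lemma cg_trans {A B C : Matrix (Fin 3) (Fin 3) K} (h1 : Cg A B) (h2 : Cg B C) : Cg A C := by
  obtain ⟨P, hP, rfl⟩ := h1
  obtain ⟨Q, hQ, rfl⟩ := h2
  refine ⟨P * Q, by rw [Matrix.det_mul]; exact mul_ne_zero hP hQ, ?_⟩
  rw [Matrix.transpose_mul]
  simp only [Matrix.mul_assoc]

/-- `diag(-1, -l, -l)` is congruent to `diag(-1, l, l)`. -/
lemma cg_neg {l c x y : K} (hc : c ≠ 0) (hxy : x ^ 2 + y ^ 2 = -1) :
    Cg (diagonal ![-c ^ 2, -l, -l]) (diagonal ![-c ^ 2, l, c ^ 2 * l]) := by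
  refine ⟨!![1, 0, 0; 0, x, c * y; 0, y, -(c * x)], ?_, ?_⟩
  · rw [Matrix.det_fin_three]
    simp
    intro h
    apply hc
    linear_combination h + c * hxy
  · ext i j
    rw [RF.ISOM.gram, RF.ISOM.form]
    fin_cases i <;> fin_cases j <;> simp [diagonal] <;> first | ring1 | linear_combination -l * hxy | linear_combination -l * c ^ 2 * hxy

end ANJM

open ANJM in
theorem specANJ : SpecANJ := by
  intro K _ _ u l a r s hu hl0 hr hs hcl htwo hneg hl ha A hA hdet hani
  by_cases hsq : IsSquare (-1 : K)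
  · exact RF.specANI.{0} K u l a r s hu hl0 hr hs hcl hsq ha A hA hdet hani
  obtain ⟨r0, hr0, hur⟩ := hneg.resolve_left hsq
  obtain ⟨x, y, hxy⟩ := htwo
  have hd0 : A.det ≠ 0 := by rw [hdet]; exact neg_ne_zero.2 (pow_ne_zero 2 hs)
  obtain ⟨P, d, hP, hd, hPd⟩ := RF.ANIM.exists_diag hA hd0
  have hCg : Cg A (diagonal d) := ⟨P, hP, hPd⟩
  have hniso : ¬ IsoM (diagonal d) := fun h => hani (RF.ANIM.iso_of_cg hCg h)
  have hprod : d 0 * d 1 * d 2 = -(s * P.det) ^ 2 := by
    have h := congrArg Matrix.det hPd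
    rw [Matrix.det_mul, Matrix.det_mul, Matrix.det_transpose, Matrix.det_diagonal,
      Fin.prod_univ_three, hdet] at h
    rw [← h]
    ring
  have hT : s * P.det ≠ 0 := mul_ne_zero hs hP
  have hlab : ∀ j : Fin 3, ∃ (e : K) (b : Bool) (t : K), (e = 1 ∨ e = -1) ∧ t ≠ 0 ∧ d j = e * Lb l b * t ^ 2 := by
    intro j
    obtain ⟨t, ht, h | h | h | h⟩ := hcl (d j) (hd j)
    · exact ⟨1, false, t, Or.inl rfl, ht, by rw [h]; simp [Lb]⟩
    · refine ⟨-1, false, t / r0, Or.inr rfl, div_ne_zero ht hr0, ?_⟩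
      rw [h]
      simp only [Lb, Bool.false_eq_true, if_false]
      field_simp
      linear_combination -hur
    · exact ⟨1, true, t, Or.inl rfl, ht, by rw [h]; simp [Lb]⟩
    · refine ⟨-1, true, t / r0, Or.inr rfl, div_ne_zero ht hr0, ?_⟩
      rw [h]
      simp only [Lb, if_true]
      field_simp
      linear_combination -hur
  choose e b t he ht hdt using hlab
  have hsame : ∀ j k : Fin 3, b j = b k → e j = e k := by
    intro j k hbjk
    by_cases hjk : j = k
    · rw [hjk]
    by_contra hne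
    have hee : e j = -e k := by
      rcases he j with h1 | h1 <;> rcases he k with h2 | h2
      · exact absurd (h1.trans h2.symm) hne
      · rw [h1, h2]; ring
      · rw [h1, h2]
      · exact absurd (h1.trans h2.symm) hne
    apply hniso
    refine iso_diag2 hjk (t := t j / t k) ?_
    rw [hdt j, hdt k, hee, hbjk]
    have := ht k
    field_simp
    ring
  have hesq : ∀ j, e j * e j = 1 := by
    intro j
    rcases he j with h | h <;> rw [h] <;> ring
  -- the labels
  have hcase : (∀ j k, b j = b k) ∨ ∃ j0, ∀ j, j ≠ j0 → b j ≠ b j0 := by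
    clear hdt hsame hesq he ht
    revert b
    decide
  rcases hcase with hall | ⟨j0, hj0⟩
  · exfalso
    apply hniso
    refine ⟨![x / t 0, y / t 1, 1 / t 2], ?_, ?_⟩
    · intro h
      have := congrFun h 2
      simp at this
      exact ht 2 this
    · rw [form_diag, hdt 0, hdt 1, hdt 2, hall 1 0, hall 2 0, hsame 1 0 (hall 1 0), hsame 2 0 (hall 2 0)]
      have h0 := ht 0
      have h1 := ht 1
      have h2 := ht 2
      simp
      field_simp
      linear_combination e 0 * Lb l (b 0) * hxy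
  · set σ : Equiv.Perm (Fin 3) := Equiv.swap 0 j0 with hσ
    have hσ0 : σ 0 = j0 := Equiv.swap_apply_left 0 j0
    have h1 : σ 1 ≠ j0 := by
      rw [← hσ0]; intro h; exact absurd (σ.injective h) (by decide)
    have h2 : σ 2 ≠ j0 := by
      rw [← hσ0]; intro h; exact absurd (σ.injective h) (by decide)
    have hb1 := hj0 _ h1
    have hb2 := hj0 _ h2
    have hb12 : b (σ 1) = b (σ 2) := by
      cases h : b j0 <;> rw [h] at hb1 hb2
      · have e1 : b (σ 1) = true := by simpa using hb1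
        have e2 : b (σ 2) = true := by simpa using hb2
        rw [e1, e2]
      · have e1 : b (σ 1) = false := by simpa using hb1
        have e2 : b (σ 2) = false := by simpa using hb2
        rw [e1, e2]
    have he12 := hsame _ _ hb12
    have hprod' : d (σ 0) * d (σ 1) * d (σ 2) = -(s * P.det) ^ 2 := by
      rw [← hprod]
      have := Equiv.prod_comp σ d
      rw [Fin.prod_univ_three, Fin.prod_univ_three] at this
      exact this
    rw [hdt (σ 0), hdt (σ 1), hdt (σ 2), he12, hb12] at hprod'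
    have t0 := ht (σ 0)
    have t1 := ht (σ 1)
    have t2 := ht (σ 2)
    have hes := hesq (σ 2)
    cases hbj : b j0
    · -- the interesting case
      have hL0 : Lb l (b (σ 0)) = 1 := by rw [hσ0, hbj]; simp [Lb]
      have hL2 : Lb l (b (σ 2)) = l := by
        have e2 : b (σ 2) = true := by rw [hbj] at hb2; simpa using hb2
        rw [e2]; simp [Lb]
      rw [hL0, hL2] at hprod'
      have he0 : e (σ 0) = -1 := by
        rcases he (σ 0) with h | h
        · exfalso
          apply hsq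
          rw [h] at hprod'
          refine ⟨s * P.det / (l * t (σ 0) * t (σ 1) * t (σ 2)), ?_⟩
          field_simp
          linear_combination -hprod' + (l * t (σ 0) * t (σ 1) * t (σ 2)) ^ 2 * hes
        · exact h
      have hc0 : r / r0 ≠ 0 := div_ne_zero hr hr0
      have hac : a = -(r / r0) ^ 2 := by
        rw [ha]
        field_simp
        linear_combination -hur
      have hD3 : D3 a l = diagonal ![-(r / r0) ^ 2, l, (r / r0) ^ 2 * l] := by
        unfold D3
        rw [hac]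
        congr 1
        ext i
        fin_cases i <;> simp
      rw [hD3]
      rcases he (σ 2) with hf | hf
      · refine RF.ANIM.final hP hPd σ (c := ![r / r0 / t (σ 0), 1 / t (σ 1), r / r0 / t (σ 2)]) ?_ ?_
        · intro i
          fin_cases i
          · exact div_ne_zero hc0 t0
          · exact div_ne_zero one_ne_zero t1
          · exact div_ne_zero hc0 t2
        · intro i
          fin_cases i
          · show d (σ 0) * (r / r0 / t (σ 0)) ^ 2 = -(r / r0) ^ 2
            rw [hdt (σ 0), hL0, he0]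
            field_simp
          · show d (σ 1) * (1 / t (σ 1)) ^ 2 = l
            rw [hdt (σ 1), hb12, hL2, he12, hf]
            field_simp
          · show d (σ 2) * (r / r0 / t (σ 2)) ^ 2 = (r / r0) ^ 2 * l
            rw [hdt (σ 2), hL2, hf]
            field_simp
      · refine cg_trans (B := diagonal ![-(r / r0) ^ 2, -l, -l]) ?_ (cg_neg hc0 hxy)
        refine RF.ANIM.final hP hPd σ (c := ![r / r0 / t (σ 0), 1 / t (σ 1), 1 / t (σ 2)]) ?_ ?_
        · intro i
          fin_cases i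
          · exact div_ne_zero hc0 t0
          · exact div_ne_zero one_ne_zero t1
          · exact div_ne_zero one_ne_zero t2
        · intro i
          fin_cases i
          · show d (σ 0) * (r / r0 / t (σ 0)) ^ 2 = -(r / r0) ^ 2
            rw [hdt (σ 0), hL0, he0]
            field_simp
          · show d (σ 1) * (1 / t (σ 1)) ^ 2 = -l
            rw [hdt (σ 1), hb12, hL2, he12, hf]
            field_simp
          · show d (σ 2) * (1 / t (σ 2)) ^ 2 = -l
            rw [hdt (σ 2), hL2, hf]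
            field_simp
    · exfalso
      have hL0 : Lb l (b (σ 0)) = l := by rw [hσ0, hbj]; simp [Lb]
      have hL2 : Lb l (b (σ 2)) = 1 := by
        have e2 : b (σ 2) = false := by rw [hbj] at hb2; simpa using hb2
        rw [e2]; simp [Lb]
      rw [hL0, hL2] at hprod'
      have hτ : t (σ 0) * t (σ 1) * t (σ 2) ≠ 0 := mul_ne_zero (mul_ne_zero t0 t1) t2
      rcases he (σ 0) with h | h
      · apply (hl (s * P.det / (t (σ 0) * t (σ 1) * t (σ 2)))).2
        rw [h] at hprod'
        field_simp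
        linear_combination -hprod' + l * (t (σ 0) * t (σ 1) * t (σ 2)) ^ 2 * hes
      · apply (hl (s * P.det / (t (σ 0) * t (σ 1) * t (σ 2)))).1
        rw [h] at hprod'
        field_simp
        linear_combination hprod' + l * (t (σ 0) * t (σ 1) * t (σ 2)) ^ 2 * hes

end Pool.Agent.Lib.MP_8cb858_nt.PU
end

section
/-!
# NRN: an integer with prescribed residues whose norm is a nonresidue
-/
set_option autoImplicit false

namespace Pool.Agent.Lib.MP_8cb858_nt.PU

open Matrix NumberField IsDedekindDomain Pool.Agent.Lib.MP_8cb858_nt.PF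

namespace NRNM

/-- The determinant of an endomorphism of a free `ℤ`-module modulo `p`. -/
theorem det_red (p : ℕ) [Fact p.Prime] {M V : Type} [AddCommGroup M] [Module.Free ℤ M]
    [Module.Finite ℤ M] [AddCommGroup V] [Module (ZMod p) V] (f : M →ₗ[ℤ] M)
    (g : V →ₗ[ZMod p] V) (π : M →+ V) (hs : Function.Surjective π)
    (hk : ∀ x, π x = 0 → ∃ y, x = (p : ℤ) • y) (hc : ∀ x, g (π x) = π (f x)) :
    ((LinearMap.det f : ℤ) : ZMod p) = LinearMap.det g := by
  classical
  set ι := Module.Free.ChooseBasisIndex ℤ M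
  set b : Module.Basis ι ℤ M := Module.Free.chooseBasis ℤ M
  have hpi : ∀ x : M, π x = ∑ i, ((b.repr x i : ℤ) : ZMod p) • π (b i) := by
    intro x
    conv_lhs => rw [← b.sum_repr x]
    rw [map_sum]
    refine Finset.sum_congr rfl fun i _ => ?_
    rw [map_zsmul, Int.cast_smul_eq_zsmul]
  have hli : LinearIndependent (ZMod p) fun i => π (b i) := by
    rw [Fintype.linearIndependent_iff]
    intro c hc0
    have hC : ∀ i, ∃ C : ℤ, (C : ZMod p) = c i := fun i => ZMod.intCast_surjective (c i)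
    choose C hC using hC
    have h1 : π (∑ i, C i • b i) = 0 := by
      rw [map_sum, ← hc0]
      refine Finset.sum_congr rfl fun i _ => ?_
      rw [map_zsmul, ← hC i, Int.cast_smul_eq_zsmul]
    obtain ⟨y, hy⟩ := hk _ h1
    intro i
    have h2 : C i = (p : ℤ) * b.repr y i := by
      have h3 := congrArg (fun z => b.repr z i) hy
      simp only [map_smul, Finsupp.smul_apply, smul_eq_mul] at h3
      rw [← h3, map_sum, Finsupp.finsetSum_apply]
      simp only [map_smul, Module.Basis.repr_self, Finsupp.smul_apply, Finsupp.single_apply, smul_eq_mul,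
        mul_ite, mul_one, mul_zero, Finset.sum_ite_eq', Finset.mem_univ, if_true]
    rw [← hC i, h2]
    push_cast
    rw [ZMod.natCast_self, zero_mul]
  have hsp : ⊤ ≤ Submodule.span (ZMod p) (Set.range fun i => π (b i)) := by
    intro v _
    obtain ⟨x, rfl⟩ := hs v
    rw [hpi x]
    exact Submodule.sum_mem _ fun i _ => Submodule.smul_mem _ _ (Submodule.subset_span ⟨i, rfl⟩)
  set B : Module.Basis ι (ZMod p) V := Module.Basis.mk hli hsp
  have hB : ∀ i, B i = π (b i) := fun i => Module.Basis.mk_apply hli hsp i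
  have hrep : ∀ (x : M) (i : ι), B.repr (π x) i = ((b.repr x i : ℤ) : ZMod p) := by
    intro x i
    have : π x = ∑ j, ((b.repr x j : ℤ) : ZMod p) • B j := by
      rw [hpi x]
      exact Finset.sum_congr rfl fun j _ => by rw [hB]
    rw [this]
    exact congrFun (B.repr_sum_self fun j => ((b.repr x j : ℤ) : ZMod p)) i
  have hmat : LinearMap.toMatrix B B g = (Int.castRingHom (ZMod p)).mapMatrix (LinearMap.toMatrix b b f) := by
    ext i j
    rw [LinearMap.toMatrix_apply, RingHom.mapMatrix_apply, Matrix.map_apply, LinearMap.toMatrix_apply, hB, hc,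
      hrep]
    rfl
  rw [← LinearMap.det_toMatrix B g, hmat, ← RingHom.map_det, LinearMap.det_toMatrix]
  rfl

theorem det_prod_id {K V W : Type} [Field K] [AddCommGroup V] [Module K V] [AddCommGroup W] [Module K W]
    (hV : Module.Finite K V) (hW : Module.Finite K W) (f : V →ₗ[K] V) :
    LinearMap.det (f.prodMap (LinearMap.id : W →ₗ[K] W)) = LinearMap.det f := by
  rw [LinearMap.det_prodMap, LinearMap.det_id, mul_one]

end NRNM

open NRNM in
theorem specNRN : SpecNRN := by
  classical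
  intro F _ _ v p hp hp2 hpv hpv2
  have : Fact p.Prime := ⟨hp⟩
  set R := 𝓞 F
  have hvm : v.asIdeal.IsMaximal := v.isMaximal
  -- the complementary ideal
  have hdvd : v.asIdeal ∣ Ideal.span {(p : R)} := by
    rw [Ideal.dvd_iff_le, Ideal.span_singleton_le_iff_mem]
    exact hpv
  obtain ⟨J, hJ⟩ := hdvd
  have hp0 : (p : R) ≠ 0 := Nat.cast_ne_zero.2 hp.ne_zero
  have hJ0 : J ≠ ⊥ := by
    rintro rfl
    rw [Ideal.mul_bot, Ideal.span_singleton_eq_bot] at hJ
    exact hp0 hJ
  have hJv : ¬ J ≤ v.asIdeal := by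
    intro h
    apply hpv2
    have h1 : (p : R) ∈ v.asIdeal * J := by
      rw [← hJ]
      exact Ideal.mem_span_singleton_self _
    rw [pow_two]
    exact Ideal.mul_mono_right h h1
  have hsup : v.asIdeal ⊔ J = ⊤ := by
    by_contra h
    have h1 := hvm.eq_of_le h le_sup_left
    exact hJv (by rw [h1]; exact le_sup_right)
  have hcop : IsCoprime v.asIdeal J := Ideal.isCoprime_iff_sup_eq.2 hsup
  have hinf : v.asIdeal ⊓ J = Ideal.span {(p : R)} := by
    rw [hJ]
    exact (Ideal.mul_eq_inf_of_isCoprime hcop).symm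
  obtain ⟨x0, hx0, y0, hy0, hxy⟩ : ∃ x ∈ v.asIdeal, ∃ y ∈ J, x + y = 1 := by
    have h1 : (1 : R) ∈ v.asIdeal ⊔ J := by rw [hsup]; trivial
    obtain ⟨x, hx, y, hy, h⟩ := Submodule.mem_sup.1 h1
    exact ⟨x, hx, y, hy, h⟩
  have hpJ : (p : R) ∈ J := by
    have h1 : (p : R) ∈ v.asIdeal ⊓ J := by rw [hinf]; exact Ideal.mem_span_singleton_self _
    exact h1.2
  -- the residue field
  letI : Field (R ⧸ v.asIdeal) := Ideal.Quotient.field v.asIdeal
  have : Finite (R ⧸ v.asIdeal) := Ideal.finiteQuotientOfFreeOfNeBot v.asIdeal v.ne_bot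
  have : Finite (R ⧸ J) := Ideal.finiteQuotientOfFreeOfNeBot J hJ0
  have hpk : (p : R ⧸ v.asIdeal) = 0 := by
    rw [← map_natCast (Ideal.Quotient.mk v.asIdeal) p]
    exact Ideal.Quotient.eq_zero_iff_mem.2 hpv
  have : CharP (R ⧸ v.asIdeal) p := (CharP.charP_iff_prime_eq_zero hp).2 hpk
  have hchar : ringChar (R ⧸ v.asIdeal) ≠ 2 := by
    rw [ringChar.eq (R ⧸ v.asIdeal) p]
    exact hp2
  obtain ⟨ub, hub⟩ := FiniteField.exists_nonsquare hchar
  obtain ⟨u, rfl⟩ := Ideal.Quotient.mk_surjective ub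
  set a : R := 1 + (u - 1) * y0 with ha
  have hav : Ideal.Quotient.mk v.asIdeal a = Ideal.Quotient.mk v.asIdeal u := by
    rw [Ideal.Quotient.eq]
    have : a - u = -((u - 1) * x0) := by
      have h1 : y0 = 1 - x0 := by rw [← hxy]; ring
      rw [ha, h1]
      ring
    rw [this]
    exact v.asIdeal.neg_mem (v.asIdeal.mul_mem_left _ hx0)
  have haJ : a - 1 ∈ J := by
    have : a - 1 = (u - 1) * y0 := by rw [ha]; ring
    rw [this]
    exact J.mul_mem_left _ hy0
  refine ⟨a, ?_, ?_, Algebra.norm ℤ a, (Algebra.coe_norm_int a).symm, ?_⟩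
  · intro x hx
    apply hub
    refine ⟨Ideal.Quotient.mk v.asIdeal x, ?_⟩
    rw [← map_mul, ← hav, Ideal.Quotient.eq, ← pow_two]
    have : a - x ^ 2 = -(x ^ 2 - a) := by ring
    rw [this]
    exact v.asIdeal.neg_mem hx
  · intro w hw hwv
    have h1 : v.asIdeal * J ≤ w.asIdeal := by
      rw [← hJ, Ideal.span_singleton_le_iff_mem]
      exact hw
    rcases (w.isPrime.mul_le).1 h1 with h2 | h2
    · exfalso
      apply hwv
      have h3 := hvm.eq_of_le w.isPrime.ne_top h2
      exact HeightOneSpectrum.ext h3.symm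
    · exact h2 haJ
  · intro m hm
    letI : Algebra (ZMod p) (R ⧸ v.asIdeal) := ZMod.algebra _ p
    letI iJ : Module (ZMod p) (R ⧸ J) := AddCommGroup.zmodModule (n := p) (fun x => by
      obtain ⟨y, rfl⟩ := Ideal.Quotient.mk_surjective x
      rw [← map_nsmul, nsmul_eq_mul]
      exact Ideal.Quotient.eq_zero_iff_mem.2 (J.mul_mem_right _ hpJ))
    have hf1 : Module.Finite (ZMod p) (R ⧸ v.asIdeal) := Module.Finite.of_finite
    have hf2 : Module.Finite (ZMod p) (R ⧸ J) := Module.Finite.of_finite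
    have hdet := det_red p (M := R) (V := (R ⧸ v.asIdeal) × (R ⧸ J)) (Algebra.lmul ℤ R a)
      (LinearMap.prodMap (Algebra.lmul (ZMod p) (R ⧸ v.asIdeal) (Ideal.Quotient.mk v.asIdeal u))
        (LinearMap.id (R := ZMod p) (M := R ⧸ J)))
      ((Ideal.Quotient.mk v.asIdeal : R →+* _).toAddMonoidHom.prod
        (Ideal.Quotient.mk J : R →+* _).toAddMonoidHom) ?_ ?_ ?_
    · have hdet2 := hdet.trans (det_prod_id hf1 hf2 _)
      rw [← Algebra.norm_apply, ← Algebra.norm_apply] at hdet2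
      -- nonresidue
      have hm2 : ((m : ZMod p)) ^ 2 = Algebra.norm (ZMod p) (Ideal.Quotient.mk v.asIdeal u) := by
        rw [← hdet2]
        have h1 : (((m ^ 2 - Algebra.norm ℤ a : ℤ)) : ZMod p) = 0 :=
          (ZMod.intCast_zmod_eq_zero_iff_dvd _ _).2 hm
        push_cast at h1
        exact sub_eq_zero.1 h1
      have hu0 : Ideal.Quotient.mk v.asIdeal u ≠ 0 := by
        intro h
        apply hub
        rw [h]
        exact ⟨0, by simp⟩
      have hfn := FiniteField.algebraMap_norm_eq_pow (K := ZMod p) (K' := R ⧸ v.asIdeal)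
        (x := Ideal.Quotient.mk v.asIdeal u)
      rw [← hm2, map_pow] at hfn
      set mb : R ⧸ v.asIdeal := algebraMap (ZMod p) (R ⧸ v.asIdeal) (m : ZMod p) with hmb
      have hmb0 : (m : ZMod p) ≠ 0 := by
        intro h
        rw [hmb, h, map_zero, zero_pow two_ne_zero] at hfn
        exact (pow_ne_zero _ hu0) hfn.symm
      have hmp : mb ^ (p - 1) = 1 := by
        rw [hmb, ← map_pow, ZMod.pow_card_sub_one_eq_one hmb0, map_one]
      letI : Fintype (R ⧸ v.asIdeal) := Fintype.ofFinite _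
      obtain ⟨n, -, hn⟩ := FiniteField.card (R ⧸ v.asIdeal) p
      apply hub
      rw [FiniteField.isSquare_iff hchar hu0]
      rw [Nat.card_eq_fintype_card, Nat.card_eq_fintype_card, ZMod.card, hn] at hfn
      rw [hn]
      have hodd : p % 2 = 1 := by
        rcases hp.eq_two_or_odd with h | h
        · exact absurd h hp2
        · exact h
      obtain ⟨r, hr⟩ : ∃ r, p - 1 = 2 * r := ⟨(p - 1) / 2, by omega⟩
      obtain ⟨s, hs⟩ : (p - 1) ∣ p ^ (n : ℕ) - 1 := by
        have := Nat.sub_dvd_pow_sub_pow p 1 (n : ℕ)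
        rwa [one_pow] at this
      have hp1 : 1 ≤ p := hp.one_le
      have hr0 : 0 < r := by
        have := hp.two_le
        omega
      have hpn : 1 ≤ p ^ (n : ℕ) := Nat.one_le_pow _ _ hp1
      have e1 : (p ^ (n : ℕ) - 1) / (p - 1) = s := by
        rw [hs]
        exact Nat.mul_div_cancel_left s (by omega)
      have e2 : p ^ (n : ℕ) / 2 = s * r := by
        have h1 : p ^ (n : ℕ) = 2 * (s * r) + 1 := by
          have h2 : p ^ (n : ℕ) - 1 = 2 * (s * r) := by rw [hs, hr]; ring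
          omega
        rw [h1]
        omega
      rw [e1] at hfn
      rw [e2, pow_mul, ← hfn, ← pow_mul, ← hr]
      exact hmp
    · rintro ⟨s, t⟩
      obtain ⟨s', rfl⟩ := Ideal.Quotient.mk_surjective s
      obtain ⟨t', rfl⟩ := Ideal.Quotient.mk_surjective t
      refine ⟨s' * y0 + t' * x0, Prod.ext ?_ ?_⟩
      · show Ideal.Quotient.mk v.asIdeal (s' * y0 + t' * x0) = Ideal.Quotient.mk v.asIdeal s'
        rw [Ideal.Quotient.eq]
        have : s' * y0 + t' * x0 - s' = (t' - s') * x0 := by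
          have h1 : y0 = 1 - x0 := by rw [← hxy]; ring
          rw [h1]
          ring
        rw [this]
        exact v.asIdeal.mul_mem_left _ hx0
      · show Ideal.Quotient.mk J (s' * y0 + t' * x0) = Ideal.Quotient.mk J t'
        rw [Ideal.Quotient.eq]
        have : s' * y0 + t' * x0 - t' = (s' - t') * y0 := by
          have h1 : x0 = 1 - y0 := by rw [← hxy]; ring
          rw [h1]
          ring
        rw [this]
        exact J.mul_mem_left _ hy0
    · intro x hx
      have h1 : x ∈ v.asIdeal := Ideal.Quotient.eq_zero_iff_mem.1 (congrArg Prod.fst hx)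
      have h2 : x ∈ J := Ideal.Quotient.eq_zero_iff_mem.1 (congrArg Prod.snd hx)
      have h3 : x ∈ Ideal.span {(p : R)} := by rw [← hinf]; exact ⟨h1, h2⟩
      obtain ⟨c, hc⟩ := Ideal.mem_span_singleton'.1 h3
      exact ⟨c, by rw [← hc, zsmul_eq_mul]; push_cast; ring⟩
    · intro x
      refine Prod.ext ?_ ?_
      · show Ideal.Quotient.mk v.asIdeal u * Ideal.Quotient.mk v.asIdeal x = Ideal.Quotient.mk v.asIdeal (a * x)
        rw [map_mul, hav]
      · show Ideal.Quotient.mk J x = Ideal.Quotient.mk J (a * x)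
        rw [Ideal.Quotient.eq]
        have : x - a * x = -((a - 1) * x) := by ring
        rw [this]
        exact J.neg_mem (J.mul_mem_right _ haJ)

end Pool.Agent.Lib.MP_8cb858_nt.PU
end

section
/-!
# REF: reciprocity for ternary forms over number fields, all odd unramified places
-/
namespace Pool.Agent.Lib.MP_8cb858_nt.PU

open Matrix NumberField IsDedekindDomain Pool.Agent.Lib.MP_8cb858_nt.PF
open Pool.Agent.Lib.MP_8cb858_nt.PF.RF (Cg IsoM D3 J3 hT hs Bi factPrimes)

namespace REFM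

open Pool.Agent.Lib.MP_8cb858_nt.PF.RF.RECFM

variable {F : Type} [Field F] [NumberField F]

/-- every place lies over a prime number -/
lemma ex_prime (v : Pl F) : ∃ p : ℕ, p.Prime ∧ (p : 𝓞 F) ∈ v.asIdeal := by
  have key : ∀ n : ℕ, n ≠ 0 → (n : 𝓞 F) ∈ v.asIdeal → ∃ p : ℕ, p.Prime ∧ (p : 𝓞 F) ∈ v.asIdeal := by
    intro n
    induction n using induction_on_primes with
    | zero => intro h; exact absurd rfl h
    | one =>
      intro _ h
      exact absurd (by simpa using h) (one_notMem v)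
    | prime_mul p a hp ih =>
      intro h0 h
      have ha0 : a ≠ 0 := by rintro rfl; exact h0 (mul_zero _)
      rw [Nat.cast_mul] at h
      rcases v.isPrime.mem_or_mem h with h1 | h1
      · exact ⟨p, hp, h1⟩
      · exact ih ha0 h1
  refine key (Ideal.absNorm v.asIdeal) ?_ (Ideal.absNorm_mem v.asIdeal)
  rw [Ne, Ideal.absNorm_eq_zero_iff]
  exact v.ne_bot

lemma prod_sub_one {ι R : Type} [CommRing R] [DecidableEq ι] (I : Ideal R) (S : Finset ι)
    (a : ι → R) (h : ∀ v ∈ S, a v - 1 ∈ I) : (∏ v ∈ S, a v) - 1 ∈ I := by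
  induction S using Finset.induction_on with
  | empty => simp
  | insert x S hx ih =>
    rw [Finset.prod_insert hx]
    have e : a x * ∏ v ∈ S, a v - 1 = a x * ((∏ v ∈ S, a v) - 1) + (a x - 1) := by ring
    rw [e]
    exact Ideal.add_mem _ (Ideal.mul_mem_left _ _ (ih fun v hv => h v (Finset.mem_insert_of_mem hv)))
      (h x (Finset.mem_insert_self _ _))

lemma hs_prod {K : Type} [Field K] [CharZero K] (hB : Bi K) {ι : Type} [DecidableEq ι]
    (l : K) (hl : l ≠ 0) (S : Finset ι) (N : ι → K) (h0 : ∀ v ∈ S, N v ≠ 0)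
    (h : ∀ v ∈ S, hs K l (N v) = -1) : hs K l (∏ v ∈ S, N v) = (-1) ^ S.card := by
  induction S using Finset.induction_on with
  | empty => simpa using PF.RF.hs_one_right l
  | insert x S hx ih =>
    rw [Finset.prod_insert hx, Finset.card_insert_of_notMem hx,
      PF.RF.Bi.right hB hl (h0 x (Finset.mem_insert_self _ _))
        (Finset.prod_ne_zero_iff.2 fun v hv => h0 v (Finset.mem_insert_of_mem hv)),
      h x (Finset.mem_insert_self _ _),
      ih (fun v hv => h0 v (Finset.mem_insert_of_mem hv))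
        (fun v hv => h v (Finset.mem_insert_of_mem hv)), pow_succ]
    ring

open scoped Classical in
lemma bad (hHBP : PF.RF.SpecHBP) (hHB2 : PF.RF.SpecHB2) (hPRJ : PF.RF.SpecPRJ.{0})
    (hLOC : PF.RF.SpecLOC.{0}) (hISO : PF.RF.SpecISO.{0}) (hNRM : PF.RF.SpecNRM.{0})
    (hSQW : SpecSQW) (hANJ : SpecANJ) (hNRN : SpecNRN)
    {A : Matrix (Fin 3) (Fin 3) F} {s : F}
    (hA : A.IsSymm) (hs0 : s ≠ 0) (hd : A.det = -s ^ 2) (p : ℕ) [hp : Fact p.Prime] (hp2 : p ≠ 2)
    (W : Finset (Pl F))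
    (hW : ∀ v ∈ W, (p : 𝓞 F) ∈ v.asIdeal ∧ (p : 𝓞 F) ∉ v.asIdeal ^ 2 ∧
      ¬ IsoM (A.map (algebraMap F (v.adicCompletion F))))
    (h : ∀ w : Pl F, (p : 𝓞 F) ∈ w.asIdeal → w ∉ W →
      IsoM (A.map (algebraMap F (w.adicCompletion F)))) :
    hT ℚ_[p] A = (-1) ^ W.card * hT ℚ_[p] (J3 F) := by
  have hd0 : A.det ≠ 0 := by rw [hd]; exact neg_ne_zero.2 (pow_ne_zero _ hs0)
  have H : ∀ v : Pl F, ∃ (a : 𝓞 F) (N : ℤ), v ∈ W → (∀ x : 𝓞 F, x ^ 2 - a ∉ v.asIdeal) ∧
      (∀ w : Pl F, (p : 𝓞 F) ∈ w.asIdeal → w ≠ v → a - 1 ∈ w.asIdeal) ∧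
      Algebra.norm ℚ (a : F) = N ∧ ∀ m : ℤ, ¬ (p : ℤ) ∣ m ^ 2 - N := by
    intro v
    by_cases hv : v ∈ W
    · obtain ⟨a, h1, h2, N, h3, h4⟩ := hNRN F v p hp.out hp2 (hW v hv).1 (hW v hv).2.1
      exact ⟨a, N, fun _ => ⟨h1, h2, h3, h4⟩⟩
    · exact ⟨0, 0, fun h' => absurd h' hv⟩
  choose a N H using H
  have h2w : ∀ w : Pl F, (p : 𝓞 F) ∈ w.asIdeal → (2 : 𝓞 F) ∉ w.asIdeal := by
    intro w hw h'
    exact hp2 (prime_eq hp.out Nat.prime_two hw (by exact_mod_cast h'))
  have hav : ∀ v ∈ W, a v ∉ v.asIdeal := by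
    intro v hv h'
    apply (H v hv).1 0
    rw [zero_pow two_ne_zero, zero_sub]
    exact (Ideal.neg_mem_iff _).2 h'
  have ha0 : ∀ v ∈ W, a v ≠ 0 := by
    intro v hv h0
    apply hav v hv
    rw [h0]; exact Ideal.zero_mem _
  set b : 𝓞 F := ∏ v ∈ W, a v with hb
  have hb0 : b ≠ 0 := Finset.prod_ne_zero_iff.2 ha0
  have hx0 : (b : F) ≠ 0 := by
    intro h0
    exact hb0 (by exact_mod_cast h0)
  have hpF : (((p : ℚ)) : F) ≠ 0 := by
    have := hp.out.ne_zero
    exact_mod_cast this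
  -- residues
  have hbW : ∀ w ∈ W, b - a w ∈ w.asIdeal := by
    intro w hw
    have e : b = a w * ∏ v ∈ W.erase w, a v := by rw [hb, Finset.mul_prod_erase _ _ hw]
    have e2 : b - a w = a w * ((∏ v ∈ W.erase w, a v) - 1) := by rw [e]; ring
    rw [e2]
    refine Ideal.mul_mem_left _ _ (prod_sub_one _ _ _ fun v hv => ?_)
    have hv1 := Finset.mem_of_mem_erase hv
    exact (H v hv1).2.1 w (hW w hw).1 (Finset.ne_of_mem_erase hv).symm
  have hbN : ∀ w : Pl F, (p : 𝓞 F) ∈ w.asIdeal → w ∉ W → b - 1 ∈ w.asIdeal := by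
    intro w hw hwW
    refine prod_sub_one _ _ _ fun v hv => ?_
    exact (H v hv).2.1 w hw (by rintro rfl; exact hwW hv)
  set A1 : Matrix (Fin 3) (Fin 3) F := D3 (b : F) ((p : ℚ) : F) with hA1
  have f1 := ((hISO F).2.1 (b : F) ((p : ℚ) : F))
  have hd1 : A1.det ≠ 0 := by
    rw [hA1, f1.2.1]; exact neg_ne_zero.2 (pow_ne_zero _ (mul_ne_zero hx0 hpF))
  have hmain : hT ℚ_[p] A = hT ℚ_[p] A1 := by
    refine (hLOC F A A1 hA f1.1 hd0 hd1).1 p fun w hw => ?_
    have h2 := h2w w hw
    by_cases hwW : w ∈ W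
    · obtain ⟨r, hr, har⟩ := hSQW.sq0 F w b (a w) h2 (hbW w hwW) (hav w hwW)
      rw [hA1, D3_map]
      have e1 : algebraMap F (w.adicCompletion F) ((p : ℚ) : F) = (p : w.adicCompletion F) := by
        simp
      rw [e1]
      have hu := (H w hwW).1
      refine hANJ (w.adicCompletion F) (lc w (a w)) (p : w.adicCompletion F)
        (algebraMap F (w.adicCompletion F) (b : F)) r
        (algebraMap F (w.adicCompletion F) s) ?_ ?_ hr ((map_ne_zero _).2 hs0)
        (hSQW.cls F w p (a w) h2 hw (hW w hwW).2.1 hu) (hSQW.two F w h2)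
        (hSQW.neg F w (a w) h2 hu) (hSQW.prm F w p hw (hW w hwW).2.1) har _
        (symm_map _ hA) ?_ (hW w hwW).2.2
      · refine (map_ne_zero _).2 ?_
        intro h0
        exact ha0 w hwW (by exact_mod_cast h0)
      · have := hp.out.ne_zero
        exact_mod_cast this
      · rw [PF.RF.RECFM.det_map', hd, map_neg, map_pow]
    · have c1 := cg_J3 hISO (algebraMap F (w.adicCompletion F)) hA hs0 hd (h w hw hwW)
      refine c1.trans (PF.RF.Cg.symm ?_)
      obtain ⟨r, hr, har⟩ := hSQW.sq0 F w b 1 h2 (hbN w hw hwW) (one_notMem w)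
      refine cg_J3 hISO (algebraMap F (w.adicCompletion F)) f1.1 (mul_ne_zero hx0 hpF) f1.2.1 ?_
      rw [D3_map]
      refine ((hISO (w.adicCompletion F)).2.1 _ _).2.2 ⟨r, ?_⟩
      have har' : algebraMap F (w.adicCompletion F) (b : F) =
          algebraMap F (w.adicCompletion F) ((1 : 𝓞 F) : F) * r ^ 2 := har
      rw [har']
      simp [pow_two]
  have hp0 : (p : ℚ) ≠ 0 := by
    have := hp.out.ne_zero
    exact_mod_cast this
  have hnorm : Algebra.norm ℚ (b : F) = ∏ v ∈ W, (N v : ℚ) := by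
    have e : (b : F) = ∏ v ∈ W, (a v : F) := by rw [hb]; push_cast; rfl
    rw [e, map_prod]
    exact Finset.prod_congr rfl fun v hv => (H v hv).2.2.1
  rw [hmain, hA1, hPRJ F ℚ_[p] (bi hHBP hHB2 p) (b : F) (p : ℚ) hx0 hp0, hnorm]
  have hN0 : ∀ v ∈ W, (N v : ℚ) ≠ 0 := by
    intro v hv h0
    rw [← (H v hv).2.2.1, Algebra.norm_eq_zero_iff] at h0
    exact ha0 v hv (by exact_mod_cast h0)
  have hprod : hs ℚ_[p] (((p : ℚ) : ℚ_[p])) ((∏ v ∈ W, (N v : ℚ) : ℚ) : ℚ_[p]) =
      (-1) ^ W.card := by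
    rw [Rat.cast_prod]
    refine hs_prod (bi hHBP hHB2 p) _ (by exact_mod_cast hp0) W _ ?_ ?_
    · intro v hv
      exact_mod_cast hN0 v hv
    · intro v hv
      exact hNRM.2 p (N v) (N v) hp2 (H v hv).2.2.2 (by simp)
  rw [hprod]; ring

end REFM

open Pool.Agent.Lib.MP_8cb858_nt.PF.RF.RECFM in
open REFM in
open scoped Classical in
theorem specREF (hHBP : PF.RF.SpecHBP) (hHB2 : PF.RF.SpecHB2) (hHBR : PF.RF.SpecHBR)
    (hGLP : PF.RF.SpecGLP.{0}) (hPRJ : PF.RF.SpecPRJ.{0}) (hLOC : PF.RF.SpecLOC.{0})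
    (hISO : PF.RF.SpecISO.{0}) (hNRM : PF.RF.SpecNRM.{0}) (hSQW : SpecSQW) (hANJ : SpecANJ)
    (hNRN : SpecNRN) : SpecREF := by
  -- the case of determinant `- s^2`
  have key : ∀ (F : Type) [Field F] [NumberField F] (A : Matrix (Fin 3) (Fin 3) F) (s : F)
      (Q : Set (Pl F)),
      A.IsSymm → s ≠ 0 → A.det = -s ^ 2 → Q.Finite →
      (∀ v ∈ Q, (2 : 𝓞 F) ∉ v.asIdeal ∧ Unr v) →
      (∀ v ∉ Q, IsoM (A.map (algebraMap F (v.adicCompletion F)))) →
      (∀ v : InfinitePlace F, IsoM (A.map (algebraMap F v.Completion))) →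
      Even {v : Pl F | ¬ IsoM (A.map (algebraMap F (v.adicCompletion F)))}.ncard := by
    intro F _ _ A s Q hA hs0 hd hQ hQ2 hfin hinf
    have hd0 : A.det ≠ 0 := by rw [hd]; exact neg_ne_zero.2 (pow_ne_zero _ hs0)
    set S : Set (Pl F) := {v | ¬ IsoM (A.map (algebraMap F (v.adicCompletion F)))} with hS
    have hSQ : S ⊆ Q := by
      intro v hv
      by_contra hvQ
      exact hv (hfin v hvQ)
    have hSf : S.Finite := hQ.subset hSQ
    obtain ⟨fA, pA, uA⟩ := (hGLP F A).1 hA hd0
    obtain ⟨fJ, pJ, uJ⟩ := (hGLP F (J3 F)).1 (J3_facts hISO).1 (J3_facts hISO).2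
    have hreal := real hLOC hISO hA hs0 hd hinf
    -- the prime below a place
    have hπ : ∀ v : Pl F, ∃ p : Nat.Primes, ((p : ℕ) : 𝓞 F) ∈ v.asIdeal := by
      intro v
      obtain ⟨p, hp, hv⟩ := ex_prime v
      exact ⟨⟨p, hp⟩, hv⟩
    choose π hπ using hπ
    have hπu : ∀ (v : Pl F) (p : Nat.Primes), ((p : ℕ) : 𝓞 F) ∈ v.asIdeal → π v = p := by
      intro v p hv
      exact Subtype.ext (prime_eq (π v).2 p.2 (hπ v) hv)
    set S' : Finset (Pl F) := hSf.toFinset with hS'
    have hmS : ∀ v, v ∈ S' ↔ ¬ IsoM (A.map (algebraMap F (v.adicCompletion F))) := by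
      intro v
      rw [hS', Set.Finite.mem_toFinset]
      rfl
    have hval : ∀ p : Nat.Primes, hT ℚ_[(p : ℕ)] A * hT ℚ_[(p : ℕ)] (J3 F) =
        (-1) ^ (S'.filter fun v => π v = p).card := by
      intro p
      have hsq : hT ℚ_[(p : ℕ)] (J3 F) * hT ℚ_[(p : ℕ)] (J3 F) = 1 := by
        rcases uJ ℚ_[(p : ℕ)] (bi hHBP hHB2 p) with h | h <;> rw [h] <;> norm_num
      have hout : ∀ w : Pl F, ((p : ℕ) : 𝓞 F) ∈ w.asIdeal → w ∉ S'.filter (fun v => π v = p) →
          IsoM (A.map (algebraMap F (w.adicCompletion F))) := by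
        intro w hw hwn
        by_contra hw'
        exact hwn (Finset.mem_filter.2 ⟨(hmS w).2 hw', hπu w p hw⟩)
      by_cases hp : (S'.filter fun v => π v = p) = ∅
      · rw [hp, Finset.card_empty, pow_zero, good hLOC hISO hA hs0 hd (p : ℕ) ?_]
        · exact hsq
        · intro w hw
          refine hout w hw ?_
          rw [hp]; simp
      · obtain ⟨v0, hv0⟩ := Finset.nonempty_iff_ne_empty.2 hp
        rw [Finset.mem_filter] at hv0
        have hp2 : (p : ℕ) ≠ 2 := by
          intro h2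
          have h3 := hπ v0
          rw [hv0.2, h2] at h3
          exact (hQ2 v0 (hSQ ((hmS v0).1 hv0.1))).1 (by exact_mod_cast h3)
        rw [bad hHBP hHB2 hPRJ hLOC hISO hNRM hSQW hANJ hNRN hA hs0 hd (p : ℕ) hp2
          (S'.filter fun v => π v = p) ?_ hout, mul_assoc, hsq, mul_one]
        intro v hv
        rw [Finset.mem_filter] at hv
        have hvp : ((p : ℕ) : 𝓞 F) ∈ v.asIdeal := by rw [← hv.2]; exact hπ v
        exact ⟨hvp, (hQ2 v (hSQ ((hmS v).1 hv.1))).2 p p.2 hvp, (hmS v).1 hv.1⟩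
    have hprod : (∏ᶠ p : Nat.Primes, hT ℚ_[(p : ℕ)] A * hT ℚ_[(p : ℕ)] (J3 F)) =
        (-1 : ℤ) ^ S'.card := by
      have e1 : (fun p : Nat.Primes => hT ℚ_[(p : ℕ)] A * hT ℚ_[(p : ℕ)] (J3 F)) =
          fun p => (-1) ^ (S'.filter fun v => π v = p).card := funext hval
      rw [e1, finprod_eq_prod_of_mulSupport_subset (s := S'.image π)]
      · rw [Finset.prod_pow_eq_pow_sum]
        congr 1
        exact (Finset.card_eq_sum_card_fiberwise fun v hv => Finset.mem_coe.2
          (Finset.mem_image_of_mem _ hv)).symm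
      · intro p hp
        rw [Function.mem_mulSupport] at hp
        by_contra hp'
        apply hp
        have : (S'.filter fun v => π v = p) = ∅ := by
          rw [Finset.filter_eq_empty_iff]
          intro v hv hvp
          apply hp'
          rw [← hvp]
          exact Finset.mem_coe.2 (Finset.mem_image_of_mem _ hv)
        rw [this]; simp
    rw [finprod_mul_distrib fA fJ] at hprod
    have hR : hT ℝ (J3 F) * hT ℝ (J3 F) = 1 := by
      rcases uJ ℝ hHBR with h | h <;> rw [h] <;> norm_num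
    rw [hreal] at pA
    have h1 : (-1 : ℤ) ^ S'.card = 1 := by
      rw [← hprod]
      calc (∏ᶠ p : Nat.Primes, hT ℚ_[(p : ℕ)] A) * (∏ᶠ p : Nat.Primes, hT ℚ_[(p : ℕ)] (J3 F))
          = ((∏ᶠ p : Nat.Primes, hT ℚ_[(p : ℕ)] A) * hT ℝ (J3 F)) *
            ((∏ᶠ p : Nat.Primes, hT ℚ_[(p : ℕ)] (J3 F)) * hT ℝ (J3 F)) *
            (hT ℝ (J3 F) * hT ℝ (J3 F)) := by
            linear_combination (-(((∏ᶠ p : Nat.Primes, hT ℚ_[(p : ℕ)] A)) *
              ((∏ᶠ p : Nat.Primes, hT ℚ_[(p : ℕ)] (J3 F))))) * (1 + hT ℝ (J3 F) *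
              hT ℝ (J3 F)) * hR
        _ = 1 := by rw [pA, pJ, hR]; norm_num
    rw [Set.ncard_eq_toFinset_card S hSf]
    exact (neg_one_pow_eq_one_iff_even (by norm_num)).1 h1
  intro F _ _ A Q hA hd0 hQ hQ2 hfin hinf
  set c : F := -A.det with hc
  have hc0 : c ≠ 0 := neg_ne_zero.2 hd0
  have hmap : ∀ {K : Type} [Field K] [CharZero K] (φ : F →+* K),
      IsoM ((c • A).map φ) ↔ IsoM (A.map φ) := by
    intro K _ _ φ
    have : (c • A).map φ = (φ c) • A.map φ := by
      ext i j
      simp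
    rw [this]
    exact (hISO K).2.2.2.2.2 (A.map φ) (φ c) ((map_ne_zero φ).2 hc0)
  have hset : {v : Pl F | ¬ IsoM (A.map (algebraMap F (v.adicCompletion F)))} =
      {v : Pl F | ¬ IsoM ((c • A).map (algebraMap F (v.adicCompletion F)))} := by
    ext v
    show ¬ _ ↔ ¬ _
    rw [hmap]
  rw [hset]
  refine key F (c • A) (c ^ 2) Q ?_ (pow_ne_zero _ hc0) ?_ hQ hQ2 ?_ ?_
  · unfold Matrix.IsSymm at hA ⊢
    rw [transpose_smul, hA]
  · rw [det_smul, Fintype.card_fin]
    have : A.det = -c := by rw [hc, neg_neg]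
    rw [this]; ring
  · intro v hv
    rw [hmap]; exact hfin v hv
  · intro v
    rw [hmap]; exact hinf v

end Pool.Agent.Lib.MP_8cb858_nt.PU
end
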