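import Pool.Agent.Lib.MP_8cb858_nt.PU.SpecR
import Pool.Agent.Lib.MP_8cb858_nt.PF.RF.SQV

/-!
# SQW: square classes of the completion at an odd unramified place
-/

namespace Pool.Agent.Lib.MP_8cb858_nt.PU

open Matrix NumberField IsDedekindDomain Pool.Agent.Lib.MP_8cb858_nt.PF
open scoped Classical WithZero
open Pool.Agent.Lib.MP_8cb858_nt.PF.RF.SQVM (val_alg val_le val_lt val_one near)

namespace SQWM

variable {F : Type} [Field F] [NumberField F]

theorem four {v : Pl F} (h2 : (2 : 𝓞 F) ∉ v.asIdeal) : (Valued.v (4 : v.adicCompletion F) : ℤᵐ⁰) = 1 := by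
  have h := val_one v h2
  have e : (4 : v.adicCompletion F) = (algebraMap F (v.adicCompletion F) ((2 : 𝓞 F) : F)) ^ 2 := by
    simp only [map_ofNat]
    norm_num
  rw [e, map_pow, h, one_pow]

theorem lc_sub (v : Pl F) (x y : 𝓞 F) : lc v x - lc v y = lc v (x - y) := by
  simp [lc]

/-- a nonzero image -/
theorem lc_ne {v : Pl F} {s : 𝓞 F} (hs : s ∉ v.asIdeal) : lc v s ≠ 0 := by
  intro h
  have h1 := val_one v hs
  have h2 : algebraMap F (v.adicCompletion F) (s : F) = 0 := h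
  rw [h2, map_zero] at h1
  exact zero_ne_one h1

/-- a unit is close to an integer of `F` -/
theorem unit_near (hNF : PF.SpecNF) {v : Pl F} {y : v.adicCompletion F} (hy : (Valued.v y : ℤᵐ⁰) = 1) :
    ∃ n : 𝓞 F, n ∉ v.asIdeal ∧ (Valued.v (y - lc v n) : ℤᵐ⁰) < 1 := by
  obtain ⟨n, hn⟩ := hNF.dense F v y (le_of_eq hy)
  refine ⟨n, fun h => ?_, hn⟩
  have h1 : (Valued.v (lc v n) : ℤᵐ⁰) < 1 := (val_lt v n).2 h
  have e : y = (y - lc v n) + lc v n := by ring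
  have h2 : (Valued.v y : ℤᵐ⁰) < 1 := by
    rw [e]
    exact Valuation.map_add_lt _ hn h1
  rw [hy] at h2
  exact lt_irrefl _ h2

/-- the residue field -/
theorem quot (v : Pl F) (h2 : (2 : 𝓞 F) ∉ v.asIdeal) {u : 𝓞 F} (hu : ∀ x : 𝓞 F, x ^ 2 - u ∉ v.asIdeal)
    {n : 𝓞 F} (hn : n ∉ v.asIdeal) :
    ∃ s : 𝓞 F, s ∉ v.asIdeal ∧ (n - s ^ 2 ∈ v.asIdeal ∨ n - u * s ^ 2 ∈ v.asIdeal) := by
  have hmax : v.asIdeal.IsMaximal := v.isMaximal
  let _ : Field (𝓞 F ⧸ v.asIdeal) := Ideal.Quotient.field v.asIdeal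
  have : Finite (𝓞 F ⧸ v.asIdeal) := Ideal.finiteQuotientOfFreeOfNeBot v.asIdeal v.ne_bot
  let _ : Fintype (𝓞 F ⧸ v.asIdeal) := Fintype.ofFinite _
  have hn0 : (Ideal.Quotient.mk v.asIdeal n) ≠ 0 := fun h => hn (Ideal.Quotient.eq_zero_iff_mem.1 h)
  have huN : ¬ IsSquare (Ideal.Quotient.mk v.asIdeal u) := by
    rintro ⟨r, hr⟩
    obtain ⟨r', rfl⟩ := Ideal.Quotient.mk_surjective r
    apply hu r'
    rw [← Ideal.Quotient.eq_zero_iff_mem, map_sub, map_pow, hr]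
    ring
  have hu0 : (Ideal.Quotient.mk v.asIdeal u) ≠ 0 := by
    intro h
    exact huN (by rw [h]; exact IsSquare.zero)
  have key : ∃ s : 𝓞 F ⧸ v.asIdeal, s ≠ 0 ∧ (Ideal.Quotient.mk v.asIdeal n = s ^ 2 ∨
      Ideal.Quotient.mk v.asIdeal n = Ideal.Quotient.mk v.asIdeal u * s ^ 2) := by
    by_cases hsq : IsSquare (Ideal.Quotient.mk v.asIdeal n)
    · obtain ⟨s, hs⟩ := hsq
      refine ⟨s, ?_, Or.inl (by rw [hs]; ring)⟩
      rintro rfl
      exact hn0 (by rw [hs]; ring)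
    · have h1 := quadraticChar_neg_one_iff_not_isSquare.2 hsq
      have h2 := quadraticChar_neg_one_iff_not_isSquare.2 huN
      have h3 : quadraticChar (𝓞 F ⧸ v.asIdeal) (Ideal.Quotient.mk v.asIdeal n * Ideal.Quotient.mk v.asIdeal u) = 1 := by
        rw [map_mul, h1, h2]; norm_num
      obtain ⟨s, hs⟩ := (quadraticChar_one_iff_isSquare (mul_ne_zero hn0 hu0)).1 h3
      have hs0 : s ≠ 0 := by
        rintro rfl
        exact mul_ne_zero hn0 hu0 (by rw [hs]; ring)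
      refine ⟨s / Ideal.Quotient.mk v.asIdeal u, div_ne_zero hs0 hu0, Or.inr ?_⟩
      field_simp
      rw [← pow_two] at hs
      rw [← hs]
  obtain ⟨s, hs0, hs⟩ := key
  obtain ⟨s', rfl⟩ := Ideal.Quotient.mk_surjective s
  refine ⟨s', fun h => hs0 (Ideal.Quotient.eq_zero_iff_mem.2 h), ?_⟩
  rcases hs with h | h
  · left
    rw [← Ideal.Quotient.eq_zero_iff_mem, map_sub, map_pow, h]
    ring
  · right
    rw [← Ideal.Quotient.eq_zero_iff_mem, map_sub, map_mul, map_pow, h]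
    ring

/-- square classes of units -/
theorem units (hNF : PF.SpecNF) {v : Pl F} (h2 : (2 : 𝓞 F) ∉ v.asIdeal) {u : 𝓞 F}
    (hu : ∀ x : 𝓞 F, x ^ 2 - u ∉ v.asIdeal) {y : v.adicCompletion F} (hy : (Valued.v y : ℤᵐ⁰) = 1) :
    ∃ r : v.adicCompletion F, r ≠ 0 ∧ (y = r ^ 2 ∨ y = lc v u * r ^ 2) := by
  have h4 := four h2
  obtain ⟨n, hn, hyn⟩ := unit_near hNF hy
  obtain ⟨s, hs, h⟩ := quot v h2 hu hn
  have hs1 : (Valued.v (lc v s) : ℤᵐ⁰) = 1 := val_one v hs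
  have hs0 := lc_ne hs
  have hu' : u ∉ v.asIdeal := by
    intro h
    apply hu 0
    rw [zero_pow two_ne_zero, zero_sub]
    exact v.asIdeal.neg_mem h
  have hu1 : (Valued.v (lc v u) : ℤᵐ⁰) = 1 := val_one v hu'
  rcases h with h | h
  · have h1 : (Valued.v (lc v (n - s ^ 2)) : ℤᵐ⁰) < 1 := (val_lt v _).2 h
    obtain ⟨r, hr, hr2⟩ := near h4 (y := y) (z := lc v s ^ 2) (by rw [map_pow, hs1, one_pow]) (by
      have e : y - lc v s ^ 2 = (y - lc v n) + lc v (n - s ^ 2) := by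
        simp only [lc, map_sub, map_pow]
        ring
      rw [e]
      exact Valuation.map_add_lt _ hyn h1)
    refine ⟨lc v s * r, mul_ne_zero hs0 hr, Or.inl ?_⟩
    rw [hr2]; ring
  · have h1 : (Valued.v (lc v (n - u * s ^ 2)) : ℤᵐ⁰) < 1 := (val_lt v _).2 h
    obtain ⟨r, hr, hr2⟩ := near h4 (y := y) (z := lc v u * lc v s ^ 2)
      (by rw [map_mul, map_pow, hs1, hu1, one_pow, one_mul]) (by
      have e : y - lc v u * lc v s ^ 2 = (y - lc v n) + lc v (n - u * s ^ 2) := by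
        simp only [lc, map_sub, map_mul, map_pow]
        ring
      rw [e]
      exact Valuation.map_add_lt _ hyn h1)
    refine ⟨lc v s * r, mul_ne_zero hs0 hr, Or.inr ?_⟩
    rw [hr2]; ring

theorem val_p {v : Pl F} {p : ℕ} (hp : (p : 𝓞 F) ∈ v.asIdeal) (hp2 : (p : 𝓞 F) ∉ v.asIdeal ^ 2) :
    (Valued.v ((p : ℕ) : v.adicCompletion F) : ℤᵐ⁰) = WithZero.exp (-1 : ℤ) := by
  have hp0 : (p : 𝓞 F) ≠ 0 := fun h => hp2 (by rw [h]; exact Ideal.zero_mem _)
  have e : (Valued.v ((p : ℕ) : v.adicCompletion F) : ℤᵐ⁰) = v.intValuation (p : 𝓞 F) := by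
    rw [← v.valuation_of_algebraMap (K := F), ← val_alg]
    simp
  rw [e]
  have h1 := (v.intValuation_le_pow_iff_mem (p : 𝓞 F) 1).2 (by rw [pow_one]; exact hp)
  have h2 : ¬ v.intValuation (p : 𝓞 F) ≤ WithZero.exp (-((2 : ℕ) : ℤ)) := fun h =>
    hp2 ((v.intValuation_le_pow_iff_mem (p : 𝓞 F) 2).1 h)
  have hne : v.intValuation (p : 𝓞 F) ≠ 0 := v.intValuation_ne_zero _ hp0
  obtain ⟨k, hk⟩ : ∃ k : ℤ, v.intValuation (p : 𝓞 F) = WithZero.exp k :=
    ⟨WithZero.log (v.intValuation (p : 𝓞 F)), (WithZero.exp_log hne).symm⟩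
  rw [hk, WithZero.exp_le_exp] at h1
  rw [hk, WithZero.exp_le_exp] at h2
  rw [hk]
  congr 1
  push_cast at h1 h2
  omega

end SQWM

open SQWM

theorem specSQW (hNF : PF.SpecNF) : SpecSQW where
  sq0 := by
    intro F _ _ v a b h2 hab hb
    refine near (four h2) (val_one v hb) ?_
    have := (val_lt v (a - b)).2 hab
    have e : algebraMap F (v.adicCompletion F) (a : F) - algebraMap F (v.adicCompletion F) (b : F) =
        algebraMap F (v.adicCompletion F) ((a - b : 𝓞 F) : F) := lc_sub v a b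
    rw [e]
    exact this
  nsq := by
    intro F _ _ v h2
    have hmax : v.asIdeal.IsMaximal := v.isMaximal
    let _ : Field (𝓞 F ⧸ v.asIdeal) := Ideal.Quotient.field v.asIdeal
    have : Finite (𝓞 F ⧸ v.asIdeal) := Ideal.finiteQuotientOfFreeOfNeBot v.asIdeal v.ne_bot
    let _ : Fintype (𝓞 F ⧸ v.asIdeal) := Fintype.ofFinite _
    have hch : ringChar (𝓞 F ⧸ v.asIdeal) ≠ 2 := by
      intro h
      have h3 := ringChar.Nat.cast_ringChar (R := 𝓞 F ⧸ v.asIdeal)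
      rw [h] at h3
      apply h2
      rw [← Ideal.Quotient.eq_zero_iff_mem, map_ofNat]
      exact_mod_cast h3
    obtain ⟨u, hu⟩ := FiniteField.exists_nonsquare hch
    obtain ⟨u', rfl⟩ := Ideal.Quotient.mk_surjective u
    refine ⟨u', fun x hx => hu ⟨Ideal.Quotient.mk v.asIdeal x, ?_⟩⟩
    rw [← Ideal.Quotient.eq_zero_iff_mem, map_sub, map_pow, sub_eq_zero] at hx
    rw [← hx]; ring
  cls := by
    intro F _ _ v p u h2 hp hp2 hu x hx
    have hℓv := val_p hp hp2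
    have hℓ0 : ((p : ℕ) : v.adicCompletion F) ≠ 0 := by
      intro h
      rw [h, map_zero] at hℓv
      exact WithZero.exp_ne_zero hℓv.symm
    have hvx : (Valued.v x : ℤᵐ⁰) ≠ 0 := (Valuation.ne_zero_iff _).2 hx
    obtain ⟨k, hk⟩ : ∃ k : ℤ, (Valued.v x : ℤᵐ⁰) = WithZero.exp k :=
      ⟨WithZero.log (Valued.v x : ℤᵐ⁰), (WithZero.exp_log hvx).symm⟩
    obtain ⟨y, hy⟩ : ∃ y, y = x * ((p : ℕ) : v.adicCompletion F) ^ k := ⟨_, rfl⟩
    have hy1 : (Valued.v y : ℤᵐ⁰) = 1 := by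
      rw [hy, map_mul, map_zpow₀, hk, hℓv, ← WithZero.exp_zsmul, ← WithZero.exp_add]
      simp
    have hxy : x = y * ((p : ℕ) : v.adicCompletion F) ^ (-k) := by
      rw [hy, mul_assoc, ← zpow_add₀ hℓ0]
      simp
    obtain ⟨r, hr, hr2⟩ := units hNF h2 hu hy1
    rcases Int.even_or_odd' k with ⟨m, hm | hm⟩
    · have e : ((p : ℕ) : v.adicCompletion F) ^ (-k) = (((p : ℕ) : v.adicCompletion F) ^ (-m)) ^ 2 := by
        rw [← zpow_natCast, ← _root_.zpow_mul, hm]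
        congr 1
        push_cast
        ring
      have hne := zpow_ne_zero (-m) hℓ0
      refine ⟨r * ((p : ℕ) : v.adicCompletion F) ^ (-m), mul_ne_zero hr hne, ?_⟩
      rcases hr2 with h | h
      · left
        rw [hxy, h, e]; ring
      · right; left
        rw [hxy, h, e]; ring
    · have e : ((p : ℕ) : v.adicCompletion F) ^ (-k) = ((p : ℕ) : v.adicCompletion F) *
          (((p : ℕ) : v.adicCompletion F) ^ (-m - 1)) ^ 2 := by
        rw [← zpow_natCast, ← _root_.zpow_mul, ← zpow_one_add₀ hℓ0, hm]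
        congr 1
        push_cast
        ring
      have hne := zpow_ne_zero (-m - 1) hℓ0
      refine ⟨r * ((p : ℕ) : v.adicCompletion F) ^ (-m - 1), mul_ne_zero hr hne, ?_⟩
      rcases hr2 with h | h
      · right; right; left
        rw [hxy, h, e]; ring
      · right; right; right
        rw [hxy, h, e]; ring
  two := by
    intro F _ _ v h2
    have hmax : v.asIdeal.IsMaximal := v.isMaximal
    let _ : Field (𝓞 F ⧸ v.asIdeal) := Ideal.Quotient.field v.asIdeal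
    have : Finite (𝓞 F ⧸ v.asIdeal) := Ideal.finiteQuotientOfFreeOfNeBot v.asIdeal v.ne_bot
    have : NeZero (ringChar (𝓞 F ⧸ v.asIdeal)) := ⟨CharP.ringChar_ne_zero_of_finite _⟩
    obtain ⟨a, b, hab⟩ := CharP.sq_add_sq (𝓞 F ⧸ v.asIdeal) (ringChar (𝓞 F ⧸ v.asIdeal)) (-1)
    have hm : (-1 : 𝓞 F) - (b : 𝓞 F) ^ 2 - (a : 𝓞 F) ^ 2 ∈ v.asIdeal := by
      rw [← Ideal.Quotient.eq_zero_iff_mem]
      simp only [map_sub, map_neg, map_one, map_pow, map_natCast]
      push_cast at hab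
      linear_combination -hab
    have key : ∀ a b : ℕ, (-1 : 𝓞 F) - (b : 𝓞 F) ^ 2 - (a : 𝓞 F) ^ 2 ∈ v.asIdeal → (a : 𝓞 F) ∉ v.asIdeal →
        ∃ x y : v.adicCompletion F, x ^ 2 + y ^ 2 = -1 := by
      intro a b hm ha
      have ha1 : (Valued.v (lc v (a : 𝓞 F)) : ℤᵐ⁰) = 1 := val_one v ha
      obtain ⟨s, -, hs⟩ := near (four h2) (y := lc v (-1 - (b : 𝓞 F) ^ 2)) (z := lc v (a : 𝓞 F) ^ 2)
        (by rw [map_pow, ha1, one_pow]) (by
          have := (val_lt v _).2 hm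
          have e : lc v (-1 - (b : 𝓞 F) ^ 2) - lc v (a : 𝓞 F) ^ 2 =
              algebraMap F (v.adicCompletion F) (((-1 : 𝓞 F) - (b : 𝓞 F) ^ 2 - (a : 𝓞 F) ^ 2 : 𝓞 F) : F) := by
            simp [lc]
          rw [e]
          exact this)
      refine ⟨lc v (a : 𝓞 F) * s, lc v (b : 𝓞 F), ?_⟩
      have e : lc v (-1 - (b : 𝓞 F) ^ 2) = -1 - lc v (b : 𝓞 F) ^ 2 := by simp [lc]
      rw [e] at hs
      linear_combination -hs
    by_cases ha : (a : 𝓞 F) ∈ v.asIdeal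
    · have hb : (b : 𝓞 F) ∉ v.asIdeal := by
        intro hb
        apply v.isPrime.ne_top
        rw [Ideal.eq_top_iff_one]
        have e : (1 : 𝓞 F) = -((-1 : 𝓞 F) - (b : 𝓞 F) ^ 2 - (a : 𝓞 F) ^ 2) - (b : 𝓞 F) * b - (a : 𝓞 F) * a := by ring
        rw [e]
        exact v.asIdeal.sub_mem (v.asIdeal.sub_mem (v.asIdeal.neg_mem hm) (v.asIdeal.mul_mem_left _ hb))
          (v.asIdeal.mul_mem_left _ ha)
      refine key b a ?_ hb
      have e : (-1 : 𝓞 F) - (a : 𝓞 F) ^ 2 - (b : 𝓞 F) ^ 2 = (-1 : 𝓞 F) - (b : 𝓞 F) ^ 2 - (a : 𝓞 F) ^ 2 := by ring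
      rw [e]
      exact hm
    · exact key a b hm ha
  neg := by
    intro F _ _ v u h2 hu
    obtain ⟨r, hr, h | h⟩ := units hNF h2 hu (y := (-1 : v.adicCompletion F)) (by rw [Valuation.map_neg, map_one])
    · left
      exact ⟨r, by rw [h]; ring⟩
    · right
      exact ⟨r, hr, h⟩
  prm := by
    intro F _ _ v p hp hp2 r
    have hℓv := val_p hp hp2
    have key : ∀ x : v.adicCompletion F, (Valued.v x : ℤᵐ⁰) = (Valued.v r : ℤᵐ⁰) ^ 2 → x ≠ (p : v.adicCompletion F) := by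
      intro x hx h
      rw [h, hℓv] at hx
      have hr0 : (Valued.v r : ℤᵐ⁰) ≠ 0 := by
        intro h0
        rw [h0, zero_pow two_ne_zero] at hx
        exact WithZero.exp_ne_zero hx
      obtain ⟨k, hk⟩ : ∃ k : ℤ, (Valued.v r : ℤᵐ⁰) = WithZero.exp k :=
        ⟨WithZero.log (Valued.v r : ℤᵐ⁰), (WithZero.exp_log hr0).symm⟩
      rw [hk, ← WithZero.exp_nsmul, WithZero.exp_inj] at hx
      rw [nsmul_eq_mul] at hx
      push_cast at hx
      omega
    exact ⟨key _ (by rw [map_pow]), key _ (by rw [Valuation.map_neg, map_pow])⟩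

end Pool.Agent.Lib.MP_8cb858_nt.PU
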