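import Pool.Agent.Lib.MP_8cb858_nt.PU.Defs
import Pool.Agent.Lib.MP_8cb858_nt.PT.SpecA

/-!
# Specs, block A: abstract probability on products of lists of elements of any type

Ports of `PT/CHB.lean`, `PT/BLK.lean`, `PT/ONE.lean` with `ℕ` replaced by any type `α`. The other Specs of `PT/SpecA.lean`
(`PT.SpecKPM`, `PT.SpecRSM`, `PT.SpecTGT`, `PT.SpecMIX`, `PT.SpecSMM`, and `PT.Pop`, `PT.Lm`) are used unchanged.
-/

namespace Pool.Agent.Lib.MP_8cb858_nt.PU

open scoped Classical

/-- **CHB** (port of `PT/CHB.lean`). Chebyshev's inequality for independent indicators on a product of finite lists. -/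
def SpecCHB : Prop :=
  ∀ (α : Type) (r : ℕ) (L : Fin r → Finset α) (T : Fin r → α → Prop) (t : ℝ), 0 < t →
    (((Fintype.piFinset L).filter (fun p =>
      t ≤ |((Finset.univ.filter (fun i => T i (p i))).card : ℝ) -
        ∑ i, (((L i).filter (T i)).card : ℝ) / ((L i).card : ℝ)|)).card : ℝ) * t ^ 2 ≤
      r / 4 * ((Fintype.piFinset L).card : ℝ)

/-- **BLK** (port of `PT/BLK.lean`). No success in a block. -/
def SpecBLK : Prop :=
  ∀ (α : Type) (r : ℕ) (L : Fin r → Finset α) (T : Fin r → α → Prop) (I : Finset (Fin r)) (θ : ℝ),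
    0 ≤ θ →
    (∀ i ∈ I, (((L i).filter (fun q => ¬ T i q)).card : ℝ) ≤ θ * ((L i).card : ℝ)) →
    (((Fintype.piFinset L).filter (fun p => ∀ i ∈ I, ¬ T i (p i))).card : ℝ) ≤
      θ ^ I.card * ((Fintype.piFinset L).card : ℝ)

/-- **ONE** (port of `PT/ONE.lean`). A condition on one coordinate given the others. -/
def SpecONE : Prop :=
  ∀ (α : Type) (r : ℕ) (L : Fin r → Finset α) (i : Fin r) (B : (Fin r → α) → Prop) (c : ℝ), 0 ≤ c →
    (∀ p ∈ Fintype.piFinset L,
      (((L i).filter (fun q => B (Function.update p i q))).card : ℝ) ≤ c * ((L i).card : ℝ)) →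
    (((Fintype.piFinset L).filter B).card : ℝ) ≤ c * ((Fintype.piFinset L).card : ℝ)

end Pool.Agent.Lib.MP_8cb858_nt.PU
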