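import Pool.Agent.Lib.MP_8cb858_nt.PU.DefN

/-!
# Specs, block C: the probability over `E` of a bad node (`SpecNOD`, `SpecBAS` of `DefN.lean`)

Ports of the modules of `PT/` of the same name: primes become places, `(p : ℝ)` becomes `(nv v : ℝ)`, `Hz X` becomes `Bx F ρ`.
Everything is a statement for `ρ v ≥ R0`, `R0` depending on all other data. Module XXX = file `PU/XXX.lean` (import `...PU.SpecC`),
`theorem specXXX (hYYY : SpecYYY) .. : SpecXXX`, own lemmas in the namespace `Pool.Agent.Lib.MP_8cb858_nt.PU.XXXM`.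
-/

namespace Pool.Agent.Lib.MP_8cb858_nt.PU

open Polynomial NumberField IsDedekindDomain Pool.Agent.Lib.MP_8cb858_nt.SEL
open Pool.Agent.Lib.MP_8cb858_nt.PF
open scoped Classical WithZero

/-- **PRG** (80 lines; from EQZ, `PF.SpecDNC`). Product densities for coprime ideals.
Proof. `PF.SpecDNC`: `T = {q | ∀ i ∈ s, q ∈ T i}` is periodic modulo `J = ∏ J i`, and `#Clm J T = ∏ #Clm (J i) (T i)`, `N J = ∏ N (J i)`. EQZ for `R = Clm J T`: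
`rd J q ∈ Clm J T` iff `q ∈ T` (periodicity). -/
def SpecPRG : Prop :=
  ∀ (F : Type) [Field F] [NumberField F] (ι : Type) (s : Finset ι) (J : ι → Ideal (𝓞 F))
    (T : ι → Set (𝓞 F × 𝓞 F)) (ε : ℝ), (∀ i ∈ s, J i ≠ ⊥ ∧ Per (J i) (T i)) →
    (∀ i ∈ s, ∀ j ∈ s, i ≠ j → IsCoprime (J i) (J j)) → 0 < ε →
    ∃ R0 : ℝ, ∀ ρ : InfinitePlace F → ℝ, (∀ v, R0 ≤ ρ v) →
      |({q ∈ Bx F ρ | ∀ i ∈ s, q ∈ T i}.ncard : ℝ) -
        (∏ i ∈ s, ((Clm (J i) (T i)).ncard : ℝ) / (Ideal.absNorm (J i) : ℝ) ^ 2) *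
          ((Bx F ρ).ncard : ℝ)| ≤ ε * ((Bx F ρ).ncard : ℝ)

/-- **PRD** (80 lines; from PRG). Product densities for places.
Proof. PRG with `J v = v`, `T v = {q | rd v q ∈ R v}`: `Clm v (T v) = R v` (every class is the class of an integer). Distinct maximal ideals are coprime. -/
def SpecPRD : Prop :=
  ∀ (F : Type) [Field F] [NumberField F] (S : Finset (Pl F)) (R : ∀ v : Pl F, Set (Kv v)) (ε : ℝ),
    0 < ε → ∃ R0 : ℝ, ∀ ρ : InfinitePlace F → ℝ, (∀ v, R0 ≤ ρ v) →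
      |({q ∈ Bx F ρ | ∀ v ∈ S, rd v.asIdeal q ∈ R v}.ncard : ℝ) -
        (∏ v ∈ S, ((R v).ncard : ℝ) / (nv v : ℝ) ^ 2) * ((Bx F ρ).ncard : ℝ)| ≤
        ε * ((Bx F ρ).ncard : ℝ)

/-- **AXP** (250 lines; from PRG, `PF.SpecDNC`, TYZ). The auxiliary sets.
Proof. `Au R mm E` holds as soon as some `j < R` has `∀ v ∈ (mm j).2, Y3 v E` (`Nat.sInf_mem`, `Nat.sInf_le`). PRG for `s = range R`,
`J j = ∏_(v ∈ A_j) v` (pairwise coprime: the `A_j` are disjoint), `T j = {E | ¬ ∀ v ∈ A_j, Y3 v E}`: `Clm (J j)` of the complement has `∏_(A_j) #C3(v)`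
elements (DNC, TYZ `e3`), so `#Clm (J j) (T j)/N^2 = 1 - ∏_(A_j) #C3/nv^2 ≤ 1 - 4^(-b)` (TYZ `n3`, `five`: `#C3/nv^2 = (1 - nv^-2)/3 ≥ 1/4`; `#A_j ≤ b`). The product
is `≤ (1 - 4^-b)^R ≤ exp(-R/4^b)`; `ε = exp(-R/4^b)`. -/
def SpecAXP : Prop :=
  ∀ (F : Type) [Field F] [NumberField F] (R b : ℕ) (mm : ℕ → 𝓞 F × Finset (Pl F)),
    (∀ i j, i ≠ j → Disjoint (mm i).2 (mm j).2) →
    (∀ j, (mm j).2.card ≤ b ∧ ∀ v ∈ (mm j).2, (6 : 𝓞 F) ∉ v.asIdeal) →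
    ∃ R0 : ℝ, ∀ ρ : InfinitePlace F → ℝ, (∀ v, R0 ≤ ρ v) →
      ({E ∈ Bx F ρ | ¬ Au R mm E}.ncard : ℝ) ≤
        2 * Real.exp (-((R : ℝ) / 4 ^ b)) * ((Bx F ρ).ncard : ℝ)

/-- **TYV** (port of `PT/TYV.lean`, 250 lines; from PRD, TYZ). The types in a list. -/
def SpecTYV : Prop :=
  ∀ (F : Type) [Field F] [NumberField F] (κ : ℝ) (L : Finset (Pl F)), 0 < κ →
    (∀ q ∈ L, (6 : 𝓞 F) ∉ q.asIdeal) →
    ∃ R0 : ℝ, ∀ ρ : InfinitePlace F → ℝ, (∀ v, R0 ≤ ρ v) →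
    ({E ∈ Bx F ρ | ¬ (|((L.filter (fun q => Y12 q E)).card : ℝ) - (L.card : ℝ) / 2| ≤
        κ * L.card ∧
      |((L.filter (fun q => Y3 q E)).card : ℝ) - (L.card : ℝ) / 3| ≤ κ * L.card)}.ncard : ℝ) *
      (κ ^ 2 * L.card) ≤ (6 * Module.finrank ℚ F + 6) * ((Bx F ρ).ncard : ℝ)

/-- **BNH** (port of `PT/BNH.lean`: any type instead of `ℕ`). Hoeffding's inequality for subsets. -/
def SpecBNH : Prop :=
  ∀ (α : Type) (Q : Finset α) (η : ℝ), 0 < η →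
    ((Q.powerset.filter (fun z => η * (Q.card : ℝ) < |(z.card : ℝ) - (Q.card : ℝ) / 2|)).card : ℝ) ≤
      2 * 2 ^ Q.card * Real.exp (-(2 * η ^ 2 * Q.card))

/-- **SWR** (port of `PT/SWR.lean`: any type instead of `ℕ`). Sampling without replacement. -/
def SpecSWR : Prop :=
  ∀ (α : Type) (T A : Finset α) (m : ℕ) (η : ℝ), 0 < η → A ⊆ T → m ≤ T.card → 2 ≤ T.card →
    4 / η ^ 2 ≤ (m : ℝ) → η * (T.card : ℝ) < |(A.card : ℝ) - (T.card : ℝ) / 2| →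
    ((T.card.choose m : ℕ) : ℝ) ≤
      2 * (((T.powersetCard m).filter
        (fun Q => η / 2 * (m : ℝ) < |((Q ∩ A).card : ℝ) - (m : ℝ) / 2|)).card : ℝ)

/-- **UBI** (port of `PT/UBI.lean`, 300 lines; from FMZ, BNH, SWR, `PT.SpecCHR`). Lemma U. -/
def SpecUBI : Prop :=
  ∀ (F : Type) [Field F] [NumberField F] (G : Gs F) (η : ℝ), 0 < η → η ≤ 1 →
    ∃ (κ c C K1 : ℝ) (P1 N0 : ℕ), 0 < κ ∧ 0 < c ∧ 1 ≤ C ∧ 1 ≤ K1 ∧
    ∀ (L A : Finset (Pl F)) (d : 𝓞 F), d ∈ G.UU → (∀ v ∈ A, v ∉ G.S) →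
      (∀ q ∈ L, q ∉ G.S ∧ P1 ≤ nv q ∧ q ∉ A) → N0 ≤ L.card →
      ∃ R0 : ℝ, ∀ ρ : InfinitePlace F → ℝ, (∀ v, R0 ≤ ρ v) →
      ({E ∈ Bx F ρ | |((L.filter (fun q => Y12 q E)).card : ℝ) - (L.card : ℝ) / 2| ≤
          κ * L.card ∧
        ∃ z : Sel 2 (cO E.1 E.2 (G.tw d A)), z ≠ 0 ∧
          η * ((L.filter (fun q => Y12 q E)).card : ℝ) <
          |((L.filter (fun q => Y12 q E ∧ TrO (G.tw d A) q z)).card : ℝ) -
            ((L.filter (fun q => Y12 q E)).card : ℝ) / 2|}.ncard : ℝ) ≤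
        C * K1 ^ A.card * Real.exp (-(c * L.card)) * ((Bx F ρ).ncard : ℝ)

-- **NOD** (200 lines): `theorem specNOD (hAXP : SpecAXP) (hTYV : SpecTYV) (hUBI : SpecUBI) (hEQZ : SpecEQZ) (hTWV : SpecTWV) : SpecNOD` (PU/NOD.lean).
-- Port of `PT/NOD.lean`. WLOG `η ≤ 1`. `κ' = min(κ, κ_U)`. Outside the sets of AXP (`R = 4^b r^2`), TYV (`κ'`) and UBI (for
-- `tw u A * tw (mm j).1 (mm j).2 = tw (u (mm j).1) (A ∪ (mm j).2)` (TWV `mul`), all `j < 4^b r^2`; at most `3r + 5r` places) the node is good. Proportions: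
-- `2 exp(-r^2)`, `(6n+6)/(κ'^2 exp(r0 r))`, `4^(5r) r^2 C K1^(8r) exp(-c exp(r0 r))`; each is `≤ exp(-B r)/3` for `r ≥ r0`, `r0` large. (`v ∉ G.S` implies `6 ∉ v`: `Gs.six`.)
-- **BAS** (150 lines): `theorem specBAS (hFMZ : SpecFMZ) (hAXP : SpecAXP) (hGEN : SpecGEN) (hEQZ : SpecEQZ) (hTWV : SpecTWV) : SpecBAS` (PU/BAS.lean).
-- Port of `PT/BAS.lean`. AXP: `2 exp(-r^2) ≤ ε/2`. For `j < 4^b r^2`, `D = tw (u (mm j).1) (A ∪ (mm j).2)`: FMZ with `Q = ∅`, `Z = {∅}`: `∑_E (sc E D - 1) ≤ C K1^(#A + b) #Bx`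
-- (finiteness: GEN `fin`), so the proportion of `E` with `sc E D > 2^(δ r)` is at most `C K1^(#A+b)/(2^(δ r) - 1)`; `#A, b ≤ r/r0`: `4^(r/r0) r^2 K1^(2r/r0) ≤ 2^(δ r/2)` for
-- large `r0`; sum over `j < 4^b r^2`: `≤ ε/2`.

end Pool.Agent.Lib.MP_8cb858_nt.PU
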