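import Pool.Agent.Lib.MP_8cb858_nt.PU.DefN
import Pool.Agent.Lib.MP_8cb858_nt.PU.SpecA

/-!
# Specs: the node structure (Theorem S*), over `F`

Version over `F` of `PT/SpecN.lean`. `S : Dat F` are the data of Theorem S*: `r` lists `S.L i` of places, `M0` a finite set of
places (containing `G.S`, the places of `D1` and all places of small norm), `D1 = tw u1 A1`, and auxiliary sequences
`S.mm M c` (`c` a class modulo local squares at `M` and at the infinite places). `p ∈ Ω = Fintype.piFinset S.L`. For a curve `E`: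
`Jx` = indices of type (1,1,1) (junk), `Ux` = indices of type (1,2), `Kx = M0 ∪ {p_j : j ∈ Jx}`, `Dx U = D1 ∏_(J ∪ U) pi (p_i) m`, `m` = the first
auxiliary element all of whose places are of type (3), in the class at `Kx` of the product of the other `pi (p_i)`,
`sx U = log_2 #Sel(E^(Dx U))`. Dictionary `PT → PU`: prime `p` dividing `K` becomes `v ∈ K`, `K * ∏ p_j` becomes `K ∪ image p`, `cl K n`
becomes `cl K (x : F)`, `n.Coprime K` becomes: `vv v x = 1` for `v ∈ K \ G.S`, `S.r ^ 2` becomes `S.RR K`.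
Module XXX = file `PU/XXX.lean`, `theorem specXXX (hYYY : SpecYYY) .. : SpecXXX`, own lemmas in the namespace
`Pool.Agent.Lib.MP_8cb858_nt.PU.XXXM`. Every Spec is a closed proposition with a complete proof in its doc string.
-/

namespace Pool.Agent.Lib.MP_8cb858_nt.PU

open Polynomial NumberField IsDedekindDomain Pool.Agent.Lib.MP_8cb858_nt.SEL
open Pool.Agent.Lib.MP_8cb858_nt.PF
open scoped Classical WithZero

/-- The data. -/
structure Dat (F : Type) [Field F] [NumberField F] where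
  G : Gs F
  r : ℕ
  c0 : ℕ
  M0 : Finset (Pl F)
  u1 : 𝓞 F
  A1 : Finset (Pl F)
  L : Fin r → Finset (Pl F)
  mm : Finset (Pl F) → Set F → ℕ → 𝓞 F × Finset (Pl F)

namespace Dat

variable {F : Type} [Field F] [NumberField F]

/-- The conditions on the data. -/
structure Ok (S : Dat F) : Prop where
  rp : 0 < S.r
  gs : S.G.S ⊆ S.M0
  u1 : S.u1 ∈ S.G.U
  a1 : ∀ v ∈ S.A1, v ∈ S.M0 ∧ v ∉ S.G.S
  lpr : ∀ i, ∀ q ∈ S.L i, q ∉ S.M0
  dis : ∀ i j, i ≠ j → Disjoint (S.L i) (S.L j)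
  num : ∀ (M : Finset (Pl F)) (T : Finset F), (∀ x ∈ T, x ≠ 0) →
    (T.image (cl M)).card ≤ 2 ^ (S.c0 + 2 * M.card)
  aux : ∀ (M : Finset (Pl F)) (x : F), S.M0 ⊆ M → x ≠ 0 →
    (∀ v ∈ M, v ∉ S.G.S → vv v (algebraMap F (v.adicCompletion F) x) = 1) →
    (∀ i j, i ≠ j → Disjoint (S.mm M (cl M x) i).2 (S.mm M (cl M x) j).2) ∧
    ∀ j, (S.mm M (cl M x) j).1 ∈ S.G.U ∧ (S.mm M (cl M x) j).2.card ≤ S.c0 + 2 * M.card ∧
      (∀ v ∈ (S.mm M (cl M x) j).2, v ∉ M ∧ ∀ i, v ∉ S.L i) ∧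
      cl M (S.G.tw (S.mm M (cl M x) j).1 (S.mm M (cl M x) j).2 : F) = cl M x

variable (S : Dat F)

/-- `D1`. -/
noncomputable def D1 : 𝓞 F := S.G.tw S.u1 S.A1

/-- The number of auxiliary elements which are tried. -/
def RR (M : Finset (Pl F)) : ℕ := 4 ^ (S.c0 + 2 * M.card) * S.r ^ 2

/-- `∏_(i ∈ I) pi (p_i)`, an element of `F`. -/
noncomputable def pp (p : Fin S.r → Pl F) (I : Finset (Fin S.r)) : 𝓞 F := ∏ i ∈ I, S.G.pi (p i)

/-- The points of the probability space. -/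
noncomputable def Om : Finset (Fin S.r → Pl F) := Fintype.piFinset S.L

/-- The junk indices. -/
noncomputable def Jx (E : 𝓞 F × 𝓞 F) (p : Fin S.r → Pl F) : Finset (Fin S.r) :=
  Finset.univ.filter (fun i => ty (p i) E = 2)

/-- The indices of type (1,2). -/
noncomputable def Ux (E : 𝓞 F × 𝓞 F) (p : Fin S.r → Pl F) : Finset (Fin S.r) :=
  Finset.univ.filter (fun i => ty (p i) E = 0)

/-- `M0 ∪ {p_i : i ∈ I}`. -/
noncomputable def Kp (p : Fin S.r → Pl F) (I : Finset (Fin S.r)) : Finset (Pl F) :=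
  S.M0 ∪ I.image p

/-- `K` for one curve. -/
noncomputable def Kx (E : 𝓞 F × 𝓞 F) (p : Fin S.r → Pl F) : Finset (Pl F) := S.Kp p (S.Jx E p)

/-- `K` for two curves. -/
noncomputable def K2 (E E' : 𝓞 F × 𝓞 F) (p : Fin S.r → Pl F) : Finset (Pl F) :=
  S.Kp p (S.Jx E p ∪ S.Jx E' p)

/-- The auxiliary sequence for the class at `M` of `∏_(i ∈ W) pi (p_i)`. -/
noncomputable def ms (M : Finset (Pl F)) (p : Fin S.r → Pl F) (W : Finset (Fin S.r)) :
    ℕ → 𝓞 F × Finset (Pl F) := S.mm M (cl M (S.pp p W : F))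

/-- The auxiliary sequence for `J`, `U`. -/
noncomputable def Mx (E : 𝓞 F × 𝓞 F) (p : Fin S.r → Pl F) (U : Finset (Fin S.r)) :
    ℕ → 𝓞 F × Finset (Pl F) := S.ms (S.Kx E p) p (Finset.univ \ (S.Jx E p ∪ U))

/-- The auxiliary element exists. -/
def Aok (E : 𝓞 F × 𝓞 F) (p : Fin S.r → Pl F) (U : Finset (Fin S.r)) : Prop :=
  Au (S.RR (S.Kx E p)) (S.Mx E p U) E

/-- The twist. -/
noncomputable def Dx (E : 𝓞 F × 𝓞 F) (p : Fin S.r → Pl F) (U : Finset (Fin S.r)) : 𝓞 F :=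
  S.D1 * S.pp p (S.Jx E p ∪ U) * S.G.mx (S.Mx E p U) E

/-- The dimension of its 2-Selmer group. -/
noncomputable def sx (E : 𝓞 F × 𝓞 F) (p : Fin S.r → Pl F) (U : Finset (Fin S.r)) : ℕ :=
  Nat.log 2 (sc E (S.Dx E p U))

/-- The sublist of `L i` of the places with the type of `p i` for `E'` and its class at `K`. -/
noncomputable def Ls (E' : 𝓞 F × 𝓞 F) (K : Finset (Pl F)) (p : Fin S.r → Pl F) (i : Fin S.r) :
    Finset (Pl F) :=
  (S.L i).filter (fun q => ty q E' = ty (p i) E' ∧ cl K (S.G.pi q : F) = cl K (S.G.pi (p i) : F))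

/-- The node `(p, i, U)` for `E`, list `Ls E' K p i`. -/
def Nd (η κ : ℝ) (E E' : 𝓞 F × 𝓞 F) (p : Fin S.r → Pl F) (K : Finset (Pl F)) (i : Fin S.r)
    (U : Finset (Fin S.r)) : Prop :=
  Nok S.G η κ (S.RR (S.Kx E p)) (S.D1 * S.pp p (S.Jx E p ∪ U)) (S.Mx E p U) (S.Ls E' K p i) E

/-- All nodes over `p`. -/
def Nal (η κ : ℝ) (E E' : 𝓞 F × 𝓞 F) (p : Fin S.r → Pl F) : Prop :=
  ∀ (i : Fin S.r) (I V J W : Finset (Fin S.r)), i ∉ I → i ∉ V → Disjoint J W →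
    Nok S.G η κ (S.RR (S.Kp p J)) (S.D1 * S.pp p V) (S.ms (S.Kp p J) p W)
      (S.Ls E' (S.Kp p I) p i) E

/-- The auxiliary sequence at `M0` for the class of `∏_i pi (p_i)`. -/
noncomputable def m0 (p : Fin S.r → Pl F) : ℕ → 𝓞 F × Finset (Pl F) := S.ms S.M0 p Finset.univ

end Dat

/-- **VAP** (100 lines; from TWV). Valuations of the products. `S.Ok`, `p ∈ Om`.
Proof. The `p_i` are different places outside `M0 ⊇ G.S` (lists disjoint). `Gs.ex`, `Gs.un`. `cop`: `v ∈ Kp p J` is in `M0` or `v = p_j`, `j ∈ J`, and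
`j ∉ W`. `im`: TWV `img`. -/
structure SpecVAP : Prop where
  inj : ∀ {F : Type} [Field F] [NumberField F] (S : Dat F) (p : Fin S.r → Pl F), S.Ok →
    p ∈ S.Om → (∀ i j, p i = p j → i = j) ∧ ∀ i, p i ∈ S.L i ∧ p i ∉ S.M0 ∧ p i ∉ S.G.S ∧ p i ∉ S.A1
  ne : ∀ {F : Type} [Field F] [NumberField F] (S : Dat F) (p : Fin S.r → Pl F)
    (I : Finset (Fin S.r)), S.Ok → p ∈ S.Om → S.pp p I ≠ 0 ∧ (S.pp p I : F) ≠ 0 ∧ S.D1 ≠ 0
  val : ∀ {F : Type} [Field F] [NumberField F] (S : Dat F) (p : Fin S.r → Pl F)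
    (I : Finset (Fin S.r)), S.Ok → p ∈ S.Om →
    (∀ i ∈ I, vv (p i) (lc (p i) (S.pp p I)) = WithZero.exp (-1 : ℤ)) ∧
    ∀ v : Pl F, v ∉ S.G.S → (∀ i ∈ I, v ≠ p i) → vv v (lc v (S.pp p I)) = 1
  d1 : ∀ {F : Type} [Field F] [NumberField F] (S : Dat F), S.Ok → ∀ v : Pl F, v ∉ S.M0 →
    vv v (lc v S.D1) = 1
  cop : ∀ {F : Type} [Field F] [NumberField F] (S : Dat F) (p : Fin S.r → Pl F)
    (J W : Finset (Fin S.r)), S.Ok → p ∈ S.Om → Disjoint J W → ∀ v ∈ S.Kp p J, v ∉ S.G.S →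
      vv v (algebraMap F (v.adicCompletion F) (S.pp p W : F)) = 1
  im : ∀ {F : Type} [Field F] [NumberField F] (S : Dat F) (p : Fin S.r → Pl F)
    (V : Finset (Fin S.r)), S.Ok → p ∈ S.Om → S.D1 * S.pp p V = S.G.tw S.u1 (S.A1 ∪ V.image p)
  mul : ∀ {F : Type} [Field F] [NumberField F] (S : Dat F) (p : Fin S.r → Pl F)
    (V W : Finset (Fin S.r)), Disjoint V W → S.pp p V * S.pp p W = S.pp p (V ∪ W)

/-- **AUV** (80 lines; from TWV, VAP). The auxiliary elements of the sequence `ms (Kp p J) p W`, `J`, `W` disjoint.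
Proof. `S.Ok.aux` for `M = Kp p J ⊇ M0` and `x = pp p W` (VAP `cop`, `ne`). Valuations: TWV (`Gs.uun`). -/
def SpecAUV : Prop :=
  ∀ (F : Type) [Field F] [NumberField F] (S : Dat F) (p : Fin S.r → Pl F) (J W : Finset (Fin S.r)),
    S.Ok → p ∈ S.Om → Disjoint J W →
    (∀ i j, i ≠ j → Disjoint (S.ms (S.Kp p J) p W i).2 (S.ms (S.Kp p J) p W j).2) ∧
    ∀ j, (S.ms (S.Kp p J) p W j).1 ∈ S.G.U ∧
      (S.ms (S.Kp p J) p W j).2.card ≤ S.c0 + 2 * (S.Kp p J).card ∧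
      (∀ v ∈ (S.ms (S.Kp p J) p W j).2, v ∉ S.Kp p J ∧ ∀ i, v ∉ S.L i) ∧
      cl (S.Kp p J) (S.G.tw (S.ms (S.Kp p J) p W j).1 (S.ms (S.Kp p J) p W j).2 : F) =
        cl (S.Kp p J) (S.pp p W : F) ∧
      S.G.tw (S.ms (S.Kp p J) p W j).1 (S.ms (S.Kp p J) p W j).2 ≠ 0 ∧
      ∀ v : Pl F, v ∉ S.M0 → v ∉ (S.ms (S.Kp p J) p W j).2 →
        vv v (lc v (S.G.tw (S.ms (S.Kp p J) p W j).1 (S.ms (S.Kp p J) p W j).2)) = 1

/-- **IVT** (port of `PT/IVT.lean`, 200 lines; from CLM, VAP). Invariance under resampling of the coordinate `i`.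
Proof. Types of the other coordinates do not change; `i` is not in `Jx E p`, `Jx E p'`. So `Jx` is the same, `Kx` too. `Mx`: CLM `prd` gives the
equality of the classes of the products (all `pi ≠ 0`). For `i ∉ U` the product over `Jx ∪ U` does not contain `i`, so `Dx` is the same. Last
part: the class at `M0` (CLM `mon`, `prd`; `M0 ⊆ Kx`). -/
def SpecIVT : Prop :=
  ∀ (F : Type) [Field F] [NumberField F] (S : Dat F) (E : 𝓞 F × 𝓞 F) (p p' : Fin S.r → Pl F)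
    (i : Fin S.r), S.Ok → p ∈ S.Om → p' ∈ S.Om →
    (∀ j, j ≠ i → p j = p' j) → ty (p i) E ≠ 2 → ty (p' i) E ≠ 2 →
    cl (S.Kx E p) (S.G.pi (p i) : F) = cl (S.Kx E p) (S.G.pi (p' i) : F) →
    S.Jx E p = S.Jx E p' ∧ S.Kx E p = S.Kx E p' ∧
    (∀ U : Finset (Fin S.r), S.Mx E p U = S.Mx E p' U ∧ (S.Aok E p U ↔ S.Aok E p' U)) ∧
    (∀ U : Finset (Fin S.r), i ∉ U → S.Dx E p U = S.Dx E p' U ∧ S.sx E p U = S.sx E p' U) ∧
    cl S.M0 (S.pp p Finset.univ : F) = cl S.M0 (S.pp p' Finset.univ : F) ∧ S.m0 p = S.m0 p'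

/-- **CNT** (port of `PT/CNT.lean`, 150 lines; from TRL, GEN). Counting the places where all classes are trivial. -/
def SpecCNT : Prop :=
  ∀ (F : Type) [Field F] [NumberField F] (G : Gs F) (η κ : ℝ) (R : ℕ) (D0 : 𝓞 F)
    (mm : ℕ → 𝓞 F × Finset (Pl F)) (L : Finset (Pl F)) (E : 𝓞 F × 𝓞 F) (s : ℕ), 0 ≤ η →
    Nok G η κ R D0 mm L E → dsc E.1 E.2 ≠ 0 → D0 * G.mx mm E ≠ 0 →
    (∀ q ∈ L, (6 : 𝓞 F) ∉ q.asIdeal ∧ D0 * G.mx mm E ∉ q.asIdeal) →
    sc E (D0 * G.mx mm E) = 2 ^ s →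
    |((L.filter (fun q => Y12 q E ∧ ∀ z : Sel 2 (cO E.1 E.2 (D0 * G.mx mm E)),
        TrO (D0 * G.mx mm E) q z)).card : ℝ) -
      (1 / 2) ^ s * ((L.filter (fun q => Y12 q E)).card : ℝ)| ≤
      2 * η * ((L.filter (fun q => Y12 q E)).card : ℝ)

/-- **NST** (port of `PT/NST.lean`, 300 lines; from STP, CLM, VAP, AUV, TYZ). The step from `U` to `U ∪ {i}`.
Proof. `M = Kx E p`, `Ds = D1 pp univ`. For a subset `U` of `Ux` with `Aok`: `Dx U` is `T`-admissible, `T = {p_i : i ∈ U}`: `sq`: `Ds` is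
`(D1 pp (J ∪ U)) pp (others)`, and `pp (others)` and `m` have the same class at `M` (AUV), so `Dx U * Ds` is a square times
`m pp (others)`: CLM `eq`, `lsq`. `ex`, `un`: VAP, AUV: outside `M` the valuations of `Dx U` are `exp(-1)` at the places of `T` and of the auxiliary set,
1 elsewhere. `P` = the places `p_i` of type 1 and the places of the auxiliary sets for `U`, `U ∪ {i}`, `∅` (type (3), not in `Kx`, not in the lists); it must not be
empty: if it is, add one more place of type (3): see `ne` below. `Q` = `{p_i : i ∈ Ux}` and the places of type (1,2) in `Ls E' K' p i0`. `PT.Cf`: `Sf M0` gives `sf`;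
`Gm M0` from `Gs.six`; `Q` and `P` are disjoint (types 0 and 1: TYZ `x3`), `Q` is outside `M` (`i0 ∉ Jx`, lists disjoint from `M0`; the elements of `L i0` are different
from the `p_j`, `j ∈ Jx`). Goodness of `D0 = Dx ∅`: let `z ≠ 0` be trivial at all `q ∈ Q`, in particular at all places of type (1,2) of `Ls E' K' p i0`; the list
is not empty (it contains `p i0`), so by `t12` (`κ < 1/2`) it contains places of type (1,2), and `uni` with `η < 1/2` gives a contradiction. Now STP for `T`,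
`v = p_i`. Second part: `Ds` is `T`-admissible for `T = {p_i : i ∈ Ux}` (the other `p_i` are of type 1, in `P`, or in `M`; no type 3), and so is `Dx Ux`.
`ne`: `P` is not empty because the list `Ls E' K' p i0` contains places of type (3) (`t3` with `κ < 1/3`): add them to `P` (they are of type (3), outside `M`,
disjoint from `Q`). -/
def SpecNST : Prop :=
  ∀ (F : Type) [Field F] [NumberField F] (S : Dat F) (η κ : ℝ) (E E' : 𝓞 F × 𝓞 F)
    (p : Fin S.r → Pl F) (K' : Finset (Pl F)) (i0 : Fin S.r), S.Ok →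
    p ∈ S.Om → 0 ≤ η → η < 1 / 2 → κ < 1 / 3 → Sf S.M0 E → dsc E.1 E.2 ≠ 0 →
    (∀ j, ty (p j) E ≠ 3) → i0 ∉ S.Jx E p → S.Nd η κ E E' p K' i0 ∅ →
    (∀ (U : Finset (Fin S.r)) (i : Fin S.r), U ⊆ S.Ux E p → i ∈ S.Ux E p → i ∉ U →
      S.Aok E p U → S.Aok E p (insert i U) →
      ((∀ z : Sel 2 (cO E.1 E.2 (S.Dx E p U)), TrO (S.Dx E p U) (p i) z) →
        sc E (S.Dx E p (insert i U)) = 2 * sc E (S.Dx E p U)) ∧
      (¬ (∀ z : Sel 2 (cO E.1 E.2 (S.Dx E p U)), TrO (S.Dx E p U) (p i) z) →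
        2 * sc E (S.Dx E p (insert i U)) = sc E (S.Dx E p U))) ∧
    (S.Aok E p (S.Ux E p) → sc E (S.D1 * S.pp p Finset.univ) = sc E (S.Dx E p (S.Ux E p)))

/-- **JST** (port of `PT/JST.lean`, 150 lines; from JNK, CLM, VAP, AUV, TYZ). The start: junk places.
Proof. JNK with `M = M0`, `J = {p_j : j ∈ Jx}`, `P` = the auxiliary sets of `Mx ∅` and of `m0 p`, `D1 := Dx ∅`, `D2 := D1 m0`. Classes at `M0`: the
auxiliary element of `Mx ∅` has the class of `pp (univ \ Jx)` at `Kx`, hence at `M0` (CLM `mon`), so `pp Jx * mx` has the class of `pp univ` (CLM `mul`), the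
class of `m0`. (`ty = 2`: `dsc ∉ v`, TYZ `t2`; `card (image) ≤ card Jx`.) -/
def SpecJST : Prop :=
  ∀ (F : Type) [Field F] [NumberField F] (S : Dat F) (E : 𝓞 F × 𝓞 F) (p : Fin S.r → Pl F), S.Ok →
    p ∈ S.Om → Sf S.M0 E → dsc E.1 E.2 ≠ 0 → S.Aok E p ∅ →
    (∀ v ∈ (S.m0 p (jx (S.m0 p) E)).2, Y3 v E) →
    sc E (S.Dx E p ∅) ≤ 4 ^ (S.Jx E p).card * sc E (S.D1 * S.G.mx (S.m0 p) E)

end Pool.Agent.Lib.MP_8cb858_nt.PU
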