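import Pool.Agent.Lib.MP_8cb858_nt.PU.SpecE
import Pool.Agent.Lib.MP_8cb858_nt.PF.RF.Spec

/-!
# Specs, block R: reciprocity for ternary forms over `F`, all odd unramified places (`SpecREC`)

`PF/RF/` proves the case of places of degree one over different primes `= 1 mod 4`. All its Specs are proved
(`PF/RF/All.lean`) and may be used as hypotheses, in the universe `Type` (`PF.RF.SpecPRJ.{0}` etc.). Method: `PF/RF/RECF.lean`.
Module XXX = file `PU/XXX.lean`, `theorem specXXX (hYYY : SpecYYY) .. : SpecXXX`, own lemmas in the namespace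
`Pool.Agent.Lib.MP_8cb858_nt.PU.XXXM`.
-/

namespace Pool.Agent.Lib.MP_8cb858_nt.PU

open Matrix NumberField IsDedekindDomain Pool.Agent.Lib.MP_8cb858_nt.PF
open Pool.Agent.Lib.MP_8cb858_nt.PF.RF (Cg IsoM D3 J3 hT)

/-- **SQW** (250 lines; adapt `PF/RF/SQV.lean`). Square classes of the completion at an odd place.
Proof. Hensel at an odd place (`PF.SpecHNS` `sqr`, `PF.SpecNF`, or `SEL.BIGM.sq_of_near` as in `PF/RF/SQV.lean`): `y` with
`vv v y = 1` is a square in `F_v` iff `y` is a square modulo the maximal ideal. `sq0`: `a/b` has `w(a/b - 1) < 1`. `nsq`: `k = 𝓞 F/v` is a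
finite field, `2 ≠ 0` in `k`, so it has a nonsquare (`FiniteField.exists_nonsquare`). `cls`: `w p = exp(-1)`, so `p^j x` is a
unit for some integer `j`; for a unit `y`: `y` or `u y` is a square modulo `v` (product of two nonsquares of a finite field). `two`: in a finite
field of odd characteristic `-1 = x^2 + y^2` (`FiniteField.exists_root_sum_quadratic` or `ZMod`-type pigeonhole: the sets `x^2` and `-1 - y^2`
have `(q+1)/2` elements each); one of `x, y` is not 0 modulo `v`, say `x`, lift `y` to `y0 ∈ 𝓞 F` and `-1 - y0^2 ≡ x^2` is a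
square in `F_v` (Hensel). `neg`: `-1` is a unit (`cls` argument for units). `prm`: `w(r^2)` is an even power of `exp 1`, `w p = exp(-1)`.
`uns`: Hensel. -/
structure SpecSQW : Prop where
  sq0 : ∀ (F : Type) [Field F] [NumberField F] (v : Pl F) (a b : 𝓞 F), (2 : 𝓞 F) ∉ v.asIdeal →
    a - b ∈ v.asIdeal → b ∉ v.asIdeal → ∃ r : v.adicCompletion F, r ≠ 0 ∧ lc v a = lc v b * r ^ 2
  nsq : ∀ (F : Type) [Field F] [NumberField F] (v : Pl F), (2 : 𝓞 F) ∉ v.asIdeal →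
    ∃ u : 𝓞 F, ∀ x : 𝓞 F, x ^ 2 - u ∉ v.asIdeal
  cls : ∀ (F : Type) [Field F] [NumberField F] (v : Pl F) (p : ℕ) (u : 𝓞 F), (2 : 𝓞 F) ∉ v.asIdeal →
    (p : 𝓞 F) ∈ v.asIdeal → (p : 𝓞 F) ∉ v.asIdeal ^ 2 → (∀ x : 𝓞 F, x ^ 2 - u ∉ v.asIdeal) →
    ∀ x : v.adicCompletion F, x ≠ 0 → ∃ r : v.adicCompletion F, r ≠ 0 ∧
      (x = r ^ 2 ∨ x = lc v u * r ^ 2 ∨ x = (p : v.adicCompletion F) * r ^ 2 ∨
        x = (lc v u * (p : v.adicCompletion F)) * r ^ 2)
  two : ∀ (F : Type) [Field F] [NumberField F] (v : Pl F), (2 : 𝓞 F) ∉ v.asIdeal →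
    ∃ x y : v.adicCompletion F, x ^ 2 + y ^ 2 = -1
  neg : ∀ (F : Type) [Field F] [NumberField F] (v : Pl F) (u : 𝓞 F), (2 : 𝓞 F) ∉ v.asIdeal →
    (∀ x : 𝓞 F, x ^ 2 - u ∉ v.asIdeal) →
    IsSquare (-1 : v.adicCompletion F) ∨ ∃ r : v.adicCompletion F, r ≠ 0 ∧ -1 = lc v u * r ^ 2
  prm : ∀ (F : Type) [Field F] [NumberField F] (v : Pl F) (p : ℕ), (p : 𝓞 F) ∈ v.asIdeal →
    (p : 𝓞 F) ∉ v.asIdeal ^ 2 → ∀ r : v.adicCompletion F, r ^ 2 ≠ p ∧ -r ^ 2 ≠ p

/-- **ANJ** (200 lines; from `PF.RF.SpecANI`). The anisotropic ternary form of determinant `-(square)`, also when `-1` is not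
a square.
Proof. If `-1` is a square: `PF.RF.SpecANI`. Otherwise `-1 = u r0^2`, so `u = -(1/r0)^2` and the square classes are `1, -1, l, -l`.
Diagonalize (as in `PF/RF/ANI.lean`) and scale: `A` is congruent to `diag(d_0,d_1,d_2)`, `d_i ∈ {1,-1,l,-l}`. `d_i + d_j ≠ 0` for `i ≠ j`
(otherwise `e_i + e_j` is isotropic). So all entries `±1` are equal to one `e`, all entries `±l` are equal to one `f l`, `f = ±1`. Number of
entries `±l`: 0: `e (X^2+Y^2+Z^2)` is isotropic at `(x, y, 1)`, `x^2 + y^2 = -1`; the same for 3. 1: the determinant is `f l =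
-t^2` with `t ≠ 0`: impossible (`hl`). 2: the determinant is `e l^2 = -t^2`, so `e = -(t/l)^2`, and `e = -1` because `-1` is not a
square. So up to order `diag(-1, f l, f l)`; if `f = -1`, `P = [[x,y],[y,-x]]` (`P^T P = -1`, determinant 1) shows that `diag(-l,-l)` is
congruent to `diag(l,l)`. Finally `D3 a l = diag(a, l, -a l)`, `a = u r^2 = -c^2`, `c = r/r0`: congruent to `diag(-1, l, l)` by scaling. -/
def SpecANJ : Prop :=
  ∀ (K : Type) [Field K] [CharZero K] (u l a r s : K), u ≠ 0 → l ≠ 0 → r ≠ 0 → s ≠ 0 →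
    (∀ x : K, x ≠ 0 → ∃ r : K, r ≠ 0 ∧
      (x = r ^ 2 ∨ x = u * r ^ 2 ∨ x = l * r ^ 2 ∨ x = (u * l) * r ^ 2)) →
    (∃ x y : K, x ^ 2 + y ^ 2 = -1) → (IsSquare (-1 : K) ∨ ∃ r0 : K, r0 ≠ 0 ∧ -1 = u * r0 ^ 2) →
    (∀ t : K, t ^ 2 ≠ l ∧ -t ^ 2 ≠ l) → a = u * r ^ 2 →
    ∀ A : Matrix (Fin 3) (Fin 3) K, A.IsSymm → A.det = -s ^ 2 → ¬ IsoM A → Cg A (D3 a l)

/-- **NRN** (250 lines). An integer with prescribed residues whose norm is a nonresidue.
Proof. `k = 𝓞 F/v`, `q = p^f` elements, `p ≠ 2`; `u ∈ 𝓞 F` not a square modulo `v`. `(p) = v J`, `v + J = 1` (`p ∉ v^2`): there is `e ∈ J` with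
`e - 1 ∈ v`. `a = 1 + (u-1) e`: `a - u = (u-1)(e-1) ∈ v`, `a - 1 ∈ J`, and `J ⊆ w` for the `w ≠ v` over `p`. Norm: `R = 𝓞 F/(p)`
is a free `ZMod p`-module with basis the reduction of an integral basis, so `N(a) mod p` is the determinant of the multiplication by `ā` on
`R` (reduce the matrix of `Algebra.leftMulMatrix`). `R ≅ k × 𝓞 F/J` (Chinese remainder theorem; `ZMod p`-linear), the multiplication
becomes (multiplication by `ū`) `×` identity, determinant `N_{k/F_p}(ū)` (`LinearMap.det_prodMap`, `LinearMap.det_conj`,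
`Algebra.norm_apply`), and `N_{k/F_p}(ū) = ū^((q-1)/(p-1))` (`FiniteField.algebraMap_norm_eq_pow`), whose `(p-1)/2`-th power is
`ū^((q-1)/2) = -1` (`FiniteField.isSquare_iff`, `FiniteField.pow_dichotomy`): it is not a square in `ZMod p`. (Instead of the determinant on `R`:
`Algebra.norm` base change `Algebra.norm_..` lemmas are fine too.) -/
def SpecNRN : Prop :=
  ∀ (F : Type) [Field F] [NumberField F] (v : Pl F) (p : ℕ), p.Prime → p ≠ 2 →
    (p : 𝓞 F) ∈ v.asIdeal → (p : 𝓞 F) ∉ v.asIdeal ^ 2 →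
    ∃ a : 𝓞 F, (∀ x : 𝓞 F, x ^ 2 - a ∉ v.asIdeal) ∧
      (∀ w : Pl F, (p : 𝓞 F) ∈ w.asIdeal → w ≠ v → a - 1 ∈ w.asIdeal) ∧
      ∃ N : ℤ, Algebra.norm ℚ (a : F) = N ∧ ∀ m : ℤ, ¬ (p : ℤ) ∣ m ^ 2 - N

/-- **REF** (350 lines; adapt `PF/RF/RECF.lean`). Reciprocity for ternary forms.
Proof. Replace `A` by `c A`, `c = - det A`: `det A = - s^2`. For a prime `p` let `W_p` = the set of the `v` with `p ∈ v` and `A` anisotropic at `v`
(finite, contained in `Q`). Claim: `hT ℚ_p A = (-1)^#W_p hT ℚ_p J3`. `W_p = ∅`: LOC and ISO. Otherwise `p ≠ 2` (`2 ∉ v`). For `v ∈ W_p` let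
`a_v` be as in NRN, `a = ∏_(v ∈ W_p) a_v`, `A1 = D3 a p`. At `v ∈ W_p`: `a ≡ a_v` modulo `v` (`a_w ≡ 1` for `w ≠ v`), so `a = a_v r^2` in `F_v` (SQW `sq0`;
`a_v ∉ v`: `x = 0`), and `Cg A A1` by ANJ with `u = a_v`, `l = p` and SQW. At the other `w` over `p`: `a ≡ 1` modulo `w`, `2 ∉ w` (`p` is odd), so `a` is a
square in `F_w` (SQW `sq0`), `A1` is isotropic, `Cg A1 J3`, `Cg A J3` (ISO). By LOC and PRJ `hT ℚ_p A = hT ℚ_p A1 = hT ℚ_p J3 * hs p (N a)`,
and `hs p (N a) = ∏_v hs p (N a_v) = (-1)^#W_p` (`Bi`, `Bi.right`; `PF.RF.SpecNRM` second part with `u = N`). `K = ℝ`: LOC, ISO. With GLP for `A`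
and `J3 F`: `1 = ∏ᶠ_p (hT ℚ_p A * hT ℚ_p J3) = (-1)^(∑_p #W_p)`, and the set of the anisotropic places is the disjoint union of the
`W_p`. -/
def SpecREF : Prop :=
  ∀ (F : Type) [Field F] [NumberField F] (A : Matrix (Fin 3) (Fin 3) F) (Q : Set (Pl F)),
    A.IsSymm → A.det ≠ 0 → Q.Finite → (∀ v ∈ Q, (2 : 𝓞 F) ∉ v.asIdeal ∧ Unr v) →
    (∀ v ∉ Q, IsoM (A.map (algebraMap F (v.adicCompletion F)))) →
    (∀ v : InfinitePlace F, IsoM (A.map (algebraMap F v.Completion))) →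
    Even {v : Pl F | ¬ IsoM (A.map (algebraMap F (v.adicCompletion F)))}.ncard

-- **REC** (80 lines; port of `PF/REC.lean`): `theorem specREC (hREF : SpecREF) (hCOO : PF.SpecCOO) .. : SpecREC` (file PU/REC.lean; `SpecREC` is in
-- `PU/SpecE.lean`). The form `ξ ↦ cf 2 (α ξ^2)` has the matrix `RECM.gram`.

end Pool.Agent.Lib.MP_8cb858_nt.PU
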