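import Pool.Agent.Lib.MP_8cb858_nt.PU.SpecT

/-!
# Specs: the theorems STA and FIN for all dense families of curves
-/

namespace Pool.Agent.Lib.MP_8cb858_nt.PU

open Polynomial NumberField IsDedekindDomain Filter Pool.Agent.Lib.MP_8cb858_nt.SEL
open Pool.Agent.Lib.MP_8cb858_nt.PF
open scoped Classical WithZero Topology

/-- The proportion of the pairs of the family `Φ` whose twist by `x` has `dim Sel_2 = d`. -/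
noncomputable def propS {F : Type} [Field F] [NumberField F] (Φ : Set (𝓞 F × 𝓞 F)) (x : F)
    (d : ℕ) : ℝ :=
  ({q ∈ Φ | Nat.card (Sel 2 (curve ((q.1 : F) * x ^ 2) ((q.2 : F) * x ^ 3))) = 2 ^ d}.ncard : ℝ) /
    (Φ.ncard : ℝ)

/-- **STD** (Theorem S* for dense families). -/
def SpecSTD : Prop :=
  ∀ (F : Type) [Field F] [NumberField F] (G : Gs F) (ε θ : ℝ), 0 < ε → 0 < θ →
    ∃ r0 : ℕ, ∀ (r : ℕ) (u : 𝓞 F) (A1 : Finset (Pl F)) (L : Fin r → Finset (Pl F)), r0 ≤ r →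
    u ∈ G.U → (∀ v ∈ A1, v ∉ G.S) → r0 * A1.card ≤ r →
    (∀ i, ∀ q ∈ L i, q ∉ G.S ∧ Real.exp (r0 * r) ≤ (nv q : ℝ) ∧ q ∉ A1) →
    (∀ i, Real.exp (r0 * r) ≤ ((L i).card : ℝ)) → (∀ i j, i ≠ j → Disjoint (L i) (L j)) →
    ∃ R0 : ℝ, ∀ ρ : InfinitePlace F → ℝ, (∀ v, R0 ≤ ρ v) → ∀ Φ : Set (𝓞 F × 𝓞 F),
      Φ ⊆ Bx F ρ → θ * ((Bx F ρ).ncard : ℝ) ≤ (Φ.ncard : ℝ) →
      (((Fintype.piFinset L).filter (fun p => ∃ d : ℕ,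
        ε < |propS Φ (G.tw u (A1 ∪ Finset.univ.image p) : F) d - PR.law d|)).card : ℝ) ≤
        ε * ∏ i, ((L i).card : ℝ)

/-- **FN2.** The final theorem for dense families. -/
def SpecFN2 : Prop :=
  ∀ (F : Type) [Field F] [NumberField F] (ε θ : ℝ), 0 < ε → 0 < θ → ∃ Y0 : ℝ, ∀ Y : ℝ, Y0 ≤ Y →
    ∃ X0 : ℝ, ∀ X : InfinitePlace F → ℝ, (∀ v, X0 ≤ X v) → ∀ Φ : Set (𝓞 F × 𝓞 F),
      Φ ⊆ Box F X → θ * ((Box F X).ncard : ℝ) ≤ (Φ.ncard : ℝ) →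
      ({c ∈ Tw F Y | ∃ D : Fˣ, (QuotientGroup.mk D : SqC F) = c ∧
        ∃ d : ℕ, ε < |propS Φ (D : F) d - PR.law d|}.ncard : ℝ) ≤ ε * ((Tw F Y).ncard : ℝ)

end Pool.Agent.Lib.MP_8cb858_nt.PU
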