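import Pool.Agent.Lib.MP_8cb858_nt.PU.SpecN
import Pool.Agent.Lib.MP_8cb858_nt.PU.SpecQ
import Pool.Agent.Lib.MP_8cb858_nt.PU.SpecU

section
/-!
# IVT: invariance under resampling, over `F`
-/
namespace Pool.Agent.Lib.MP_8cb858_nt.PU

open Polynomial NumberField IsDedekindDomain Pool.Agent.Lib.MP_8cb858_nt.SEL
open Pool.Agent.Lib.MP_8cb858_nt.PF
open scoped Classical WithZero

namespace IVTM

variable {F : Type} [Field F] [NumberField F]

theorem pi_ne (G : Gs F) (v : Pl F) : ((G.pi v : 𝓞 F) : F) ≠ 0 := by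
  intro h
  apply G.ne v
  exact_mod_cast h

theorem coe_pp (S : Dat F) (p : Fin S.r → Pl F) (I : Finset (Fin S.r)) :
    ((S.pp p I : 𝓞 F) : F) = ∏ i ∈ I, ((S.G.pi (p i) : 𝓞 F) : F) := by
  unfold Dat.pp
  exact map_prod (algebraMap (𝓞 F) F) _ _

theorem pp_ne (S : Dat F) (p : Fin S.r → Pl F) (I : Finset (Fin S.r)) :
    ((S.pp p I : 𝓞 F) : F) ≠ 0 := by
  rw [coe_pp]
  exact Finset.prod_ne_zero_iff.2 (fun i _ => pi_ne S.G _)

end IVTM

open IVTM in
theorem specIVT (hCLM : SpecCLM) : SpecIVT := by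
  intro F _ _ S E p p' i hS hp hp' hpp h2 h2' hcl
  have hiJ : i ∉ S.Jx E p := by
    unfold Dat.Jx
    simp only [Finset.mem_filter, Finset.mem_univ, true_and]
    exact h2
  have hJ : S.Jx E p = S.Jx E p' := by
    unfold Dat.Jx
    apply Finset.filter_congr
    intro j _
    by_cases hj : j = i
    · subst hj
      exact ⟨fun h => absurd h h2, fun h => absurd h h2'⟩
    · rw [hpp j hj]
  have hK : S.Kx E p = S.Kx E p' := by
    unfold Dat.Kx Dat.Kp
    rw [← hJ]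
    congr 1
    apply Finset.image_congr
    intro j hj
    exact hpp j (fun h => hiJ (h ▸ hj))
  have hprd : ∀ (M : Finset (Pl F)) (W : Finset (Fin S.r)),
      cl M (S.G.pi (p i) : F) = cl M (S.G.pi (p' i) : F) →
      cl M (S.pp p W : F) = cl M (S.pp p' W : F) := by
    intro M W h
    rw [coe_pp, coe_pp]
    apply hCLM.prd M (Fin S.r) W (fun i => ((S.G.pi (p i) : 𝓞 F) : F))
      (fun i => ((S.G.pi (p' i) : 𝓞 F) : F))
    intro j _
    refine ⟨pi_ne _ _, pi_ne _ _, ?_⟩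
    by_cases hji : j = i
    · subst hji; exact h
    · rw [hpp j hji]
  have hM : ∀ U : Finset (Fin S.r), S.Mx E p U = S.Mx E p' U := by
    intro U
    unfold Dat.Mx Dat.ms
    rw [← hK, ← hJ, hprd _ _ hcl]
  have hD : ∀ U : Finset (Fin S.r), i ∉ U → S.Dx E p U = S.Dx E p' U := by
    intro U hU
    unfold Dat.Dx
    rw [← hM U, ← hJ]
    congr 2
    unfold Dat.pp
    apply Finset.prod_congr rfl
    intro j hj
    have : p j = p' j := by
      apply hpp j
      rintro rfl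
      rw [Finset.mem_union] at hj
      rcases hj with h | h
      · exact hiJ h
      · exact hU h
    rw [this]
  have hM0 : cl S.M0 (S.G.pi (p i) : F) = cl S.M0 (S.G.pi (p' i) : F) :=
    hCLM.mon (S.Kx E p) S.M0 _ _ (pi_ne _ _) (pi_ne _ _) Finset.subset_union_left hcl
  refine ⟨hJ, hK, ?_, ?_, hprd _ _ hM0, ?_⟩
  · intro U
    refine ⟨hM U, ?_⟩
    unfold Dat.Aok
    rw [hM U, hK]
  · intro U hU
    refine ⟨hD U hU, ?_⟩
    unfold Dat.sx
    rw [hD U hU]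
  · unfold Dat.m0 Dat.ms
    rw [hprd _ _ hM0]

end Pool.Agent.Lib.MP_8cb858_nt.PU
end

section
/-!
# JST: the start (junk places), over `F`
-/
namespace Pool.Agent.Lib.MP_8cb858_nt.PU

open Polynomial NumberField IsDedekindDomain Pool.Agent.Lib.MP_8cb858_nt.SEL
open Pool.Agent.Lib.MP_8cb858_nt.PF
open scoped Classical WithZero

namespace JSTM

variable {F : Type} [Field F] [NumberField F]

theorem lc_mul (v : Pl F) (x y : 𝓞 F) : lc v (x * y) = lc v x * lc v y := by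
  show algebraMap F (v.adicCompletion F) (algebraMap (𝓞 F) F (x * y)) = _
  rw [map_mul, map_mul]

theorem vv_mul (v : Pl F) (x y : 𝓞 F) : vv v (lc v (x * y)) = vv v (lc v x) * vv v (lc v y) := by
  rw [lc_mul, map_mul]

omit [NumberField F] in
theorem cmul (x y : 𝓞 F) : ((x * y : 𝓞 F) : F) = (x : F) * (y : F) :=
  map_mul (algebraMap (𝓞 F) F) x y

omit [NumberField F] in
theorem cne {x : 𝓞 F} (h : x ≠ 0) : (x : F) ≠ 0 :=
  fun h' => h (RingOfIntegers.coe_eq_zero_iff.1 h')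

theorem Kp_empty (S : Dat F) (p : Fin S.r → Pl F) : S.Kp p ∅ = S.M0 := by
  unfold Dat.Kp
  rw [Finset.image_empty, Finset.union_empty]

theorem M0_sub (S : Dat F) (p : Fin S.r → Pl F) (J : Finset (Fin S.r)) : S.M0 ⊆ S.Kp p J :=
  Finset.subset_union_left

end JSTM

open JSTM in
theorem specJST (hJNK : SpecJNK) (hCLM : SpecCLM) (hVAP : SpecVAP) (hAUV : SpecAUV)
    (hTYZ : SpecTYZ) : SpecJST := by
  intro F _ _ S E p hS hp hSf hdz hA hY
  have hinj := hVAP.inj S p hS hp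
  have hd : Disjoint (S.Jx E p) (Finset.univ \ (S.Jx E p ∪ ∅)) := by
    rw [Finset.union_empty]
    exact Finset.disjoint_sdiff
  obtain ⟨-, ha⟩ := hAUV F S p (S.Jx E p) (Finset.univ \ (S.Jx E p ∪ ∅)) hS hp hd
  obtain ⟨-, -, a3, a4, a5, a6⟩ := ha (jx (S.Mx E p ∅) E)
  obtain ⟨-, hb⟩ := hAUV F S p ∅ Finset.univ hS hp (Finset.disjoint_empty_left _)
  rw [Kp_empty] at hb
  obtain ⟨-, -, b3, b4, b5, b6⟩ := hb (jx (S.m0 p) E)
  set m1 : 𝓞 F := S.G.mx (S.Mx E p ∅) E with hm1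
  set m0 : 𝓞 F := S.G.mx (S.m0 p) E with hm0
  set A1 : Finset (Pl F) := (S.Mx E p ∅ (jx (S.Mx E p ∅) E)).2 with hA1
  set A0 : Finset (Pl F) := (S.m0 p (jx (S.m0 p) E)).2 with hA0
  have a3' : ∀ v ∈ A1, v ∉ S.Kp p (S.Jx E p) ∧ ∀ i, v ∉ S.L i := a3
  have a4' : cl (S.Kp p (S.Jx E p)) (m1 : F) = cl (S.Kp p (S.Jx E p))
      (S.pp p (Finset.univ \ (S.Jx E p ∪ ∅)) : F) := a4
  have a5' : m1 ≠ 0 := a5
  have a6' : ∀ v : Pl F, v ∉ S.M0 → v ∉ A1 → vv v (lc v m1) = 1 := a6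
  have b3' : ∀ v ∈ A0, v ∉ S.M0 ∧ ∀ i, v ∉ S.L i := b3
  have b4' : cl S.M0 (m0 : F) = cl S.M0 (S.pp p Finset.univ : F) := b4
  have b5' : m0 ≠ 0 := b5
  have b6' : ∀ v : Pl F, v ∉ S.M0 → v ∉ A0 → vv v (lc v m0) = 1 := b6
  obtain ⟨n1, n2, n3⟩ := hVAP.ne S p (S.Jx E p) hS hp
  have hDx : S.Dx E p ∅ = S.D1 * (S.pp p (S.Jx E p) * m1) := by
    unfold Dat.Dx
    rw [Finset.union_empty, mul_assoc]
  have hsub : S.M0 ⊆ S.Kp p (S.Jx E p) := M0_sub S p _
  have nn : ∀ W : Finset (Fin S.r), (S.pp p W : F) ≠ 0 := fun W => (hVAP.ne S p W hS hp).2.1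
  -- the class
  have hcl : cl S.M0 ((S.pp p (S.Jx E p) : F) * (m1 : F)) = cl S.M0 (m0 : F) := by
    rw [b4']
    have c1 : cl S.M0 (m1 : F) = cl S.M0 (S.pp p (Finset.univ \ (S.Jx E p ∪ ∅)) : F) :=
      hCLM.mon _ S.M0 _ _ (cne a5') (nn _) hsub a4'
    rw [hCLM.mul S.M0 _ _ _ _ (nn _) (nn _) (cne a5') (nn _) rfl c1, ← cmul,
      hVAP.mul S p _ _ hd]
    congr 3
    rw [Finset.union_empty]
    exact Finset.union_sdiff_of_subset (Finset.subset_univ _)
  have hSq : Lsq S.M0 ((S.Dx E p ∅ * (S.D1 * m0) : 𝓞 F) : F) := by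
    have e : ((S.Dx E p ∅ * (S.D1 * m0) : 𝓞 F) : F) =
        ((S.pp p (S.Jx E p) : F) * (m1 : F)) * (m0 : F) * (S.D1 : F) ^ 2 := by
      rw [hDx, cmul, cmul, cmul, cmul]
      ring
    rw [e, hCLM.lsq S.M0 _ _ (cne n3)]
    exact (hCLM.eq S.M0 _ _ (mul_ne_zero n2 (cne a5')) (cne b5')).1 hcl
  have key := hJNK F S.M0 (A1 ∪ A0) ((S.Jx E p).image p) E (S.Dx E p ∅) (S.D1 * m0) ?_ hSf hdz
    ?_ ?_ ?_ ?_ hSq ?_
  · refine key.trans ?_
    exact Nat.mul_le_mul_right _ (Nat.pow_le_pow_right (by norm_num) Finset.card_image_le)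
  · intro v hv
    exact S.G.six v (fun h => hv (hS.gs h))
  · intro v hv
    rcases Finset.mem_union.1 hv with h | h
    · exact ⟨fun h' => (a3' v h).1 (hsub h'), hA.2 v h⟩
    · exact ⟨(b3' v h).1, hY v h⟩
  · intro v hv
    obtain ⟨i, hi, rfl⟩ := Finset.mem_image.1 hv
    have hty : ty (p i) E = 2 := by
      unfold Dat.Jx at hi
      rw [Finset.mem_filter] at hi
      exact hi.2
    obtain ⟨hiL, hiM, hiG, hiA⟩ := hinj.2 i
    refine ⟨hiM, hTYZ.t2 F (p i) E hty, ?_⟩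
    rw [hDx, vv_mul, vv_mul, hVAP.d1 S hS (p i) hiM, (hVAP.val S p (S.Jx E p) hS hp).1 i hi,
      a6' (p i) hiM (fun h => (a3' _ h).2 i hiL), one_mul, mul_one]
  · rw [hDx]
    exact mul_ne_zero n3 (mul_ne_zero n1 a5')
  · exact mul_ne_zero n3 b5'
  · intro v hvM hvJ hvP
    rw [Finset.mem_union, not_or] at hvP
    constructor
    · rw [hDx, vv_mul, vv_mul, hVAP.d1 S hS v hvM, a6' v hvM hvP.1,
        (hVAP.val S p (S.Jx E p) hS hp).2 v (fun h => hvM (hS.gs h)) ?_, one_mul, mul_one]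
      intro i hi he
      exact hvJ (he ▸ Finset.mem_image_of_mem p hi)
    · rw [vv_mul, hVAP.d1 S hS v hvM, b6' v hvM hvP.2, one_mul]

end Pool.Agent.Lib.MP_8cb858_nt.PU
end

section
/-!
# Module MXP: mixing for one curve (port of PT/MXP, helper29)
-/
namespace Pool.Agent.Lib.MP_8cb858_nt.PU

open Polynomial NumberField IsDedekindDomain Pool.Agent.Lib.MP_8cb858_nt.SEL
open Pool.Agent.Lib.MP_8cb858_nt.PF
open scoped Classical WithZero

namespace MXPM

variable {F : Type} [Field F] [NumberField F] (S : Dat F)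

theorem Kx_sub {p : Fin S.r → Pl F} (E E' : 𝓞 F × 𝓞 F) : S.Kx E p ⊆ S.K2 E E' p := by
  rw [Dat.K2, Dat.Kx, Dat.Kp, Dat.Kp]
  exact Finset.union_subset_union le_rfl (Finset.image_subset_image Finset.subset_union_left)

/-- types of the element of `fs` -/
theorem fs_ty {n : ℕ} {E E' : 𝓞 F × 𝓞 F} {p : Fin S.r → Pl F} {k : ℕ} {a : Fin S.r}
    (ha : a ∈ S.fs n E E' p k) : ty (p a) E ≤ 1 ∧ ty (p a) E' = 1 := by
  rw [Dat.fs, Finset.mem_filter] at ha
  exact ha.2.1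

theorem pi_ne (v : Pl F) : (S.G.pi v : F) ≠ 0 := by
  have := S.G.ne v
  simpa using this

/-- `sx E p U_k` is constant on the classes -/
theorem const (hEQR : SpecEQR) (hIVT : SpecIVT) (hCLM : SpecCLM) (hS : S.Ok) (n : ℕ)
    (E E' : 𝓞 F × 𝓞 F) (lo lo' k : ℕ) (hll : lo = 0 ∧ lo' = n ∨ lo = n ∧ lo' = 0) (hk : k < n)
    (p p' : Fin S.r → Pl F) (hp : p ∈ S.Om) (hp' : p' ∈ S.Om) (hR : S.Rm n E E' (lo + k) p p') :
    S.sx E p (S.Uk n E E' p lo lo' k) = S.sx E p' (S.Uk n E E' p' lo lo' k) := by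
  by_cases hpp : p = p'
  · rw [hpp]
  obtain ⟨-, -, -, -, hrest⟩ := hEQR.rmv S n E E' (lo + k) p p' hR
  obtain ⟨-, hU, hnot⟩ := hrest lo lo' hll (by omega) (by omega)
  rw [Nat.add_sub_cancel_left] at hU hnot
  rcases hR with h | ⟨a, ha, ha', hj, hcl⟩
  · exact absurd h hpp
  have t1 := fs_ty S ha
  have t2 := fs_ty S ha'
  have hcl' : cl (S.Kx E p) (S.G.pi (p a) : F) = cl (S.Kx E p) (S.G.pi (p' a) : F) :=
    hCLM.mon _ _ _ _ (pi_ne S _) (pi_ne S _) (Kx_sub S E E') hcl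
  obtain ⟨-, -, -, h4, -⟩ := hIVT F S E p p' a hS hp hp' hj (by omega) (by omega) hcl'
  rw [← hU]
  exact (h4 _ (hnot hpp a ha)).2

end MXPM

open MXPM in
theorem specMXP (hMIX : PT.SpecMIX) (hMXS : SpecMXS) (hEQR : SpecEQR) (hIVT : SpecIVT)
    (hCLM : SpecCLM) : SpecMXP := by
  intro F _ _ S n η κ E E' lo lo' g hS hn hr hη hη2 hκ hκ2 hSf hdz hll hg hgc f hf
  have h := hMIX (Fin S.r → Pl F) S.Om (S.Om.filter (fun p => ¬ S.Gh n η κ lo E E' p)) n
    (fun k => S.Rm n E E' (lo + k)) (fun k p => S.sx E p (S.Uk n E E' p lo lo' k)) g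
    (4 * η + 4 * κ) (by positivity) (fun k => hEQR.rm S n E E' (lo + k)) hg
    (fun k hk p hp p' hp' hR =>
      ⟨const S hEQR hIVT hCLM hS n E E' lo lo' k hll hk p p' hp hp' hR,
        hgc k hk p hp p' hp' hR⟩)
    (fun k hk p hp hpB f' hf' => by
      have hG : S.Gh n η κ lo E E' p := by
        by_contra hG
        exact hpB (Finset.mem_filter.2 ⟨hp, hG⟩)
      exact hMXS F S n η κ E E' lo lo' k p hS hn hr hη hη2 hκ hκ2 hSf hdz hll hk hp hG f' hf')
    f hf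
  have e : ∀ p : Fin S.r → Pl F, S.Uk n E E' p lo lo' n = S.Ux E p :=
    fun p => hEQR.uk S n E E' p lo lo'
  simp only [e] at h
  exact h

end Pool.Agent.Lib.MP_8cb858_nt.PU
end

section
/-!
# Module MXS: the mixing step
-/
namespace Pool.Agent.Lib.MP_8cb858_nt.PU

open Polynomial NumberField IsDedekindDomain Pool.Agent.Lib.MP_8cb858_nt.SEL
open Pool.Agent.Lib.MP_8cb858_nt.PF
open scoped Classical WithZero

namespace MXSM

/-! ## Types -/

section types

variable {F : Type} [Field F] [NumberField F]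

theorem excl (hTYZ : SpecTYZ) {v : Pl F} (h6 : (6 : 𝓞 F) ∉ v.asIdeal) {E : 𝓞 F × 𝓞 F}
    (h3 : Y3 v E) : ¬ Y12 v E := by
  intro h
  exact (hTYZ.x3 F v h6 _ ((hTYZ.e3 F v E).1 h3)).1 ((hTYZ.e12 F v E).1 h)

theorem ty_le_one (hTYZ : SpecTYZ) {v : Pl F} (h6 : (6 : 𝓞 F) ∉ v.asIdeal) {E : 𝓞 F × 𝓞 F} :
    ty v E ≤ 1 ↔ (Y12 v E ∨ Y3 v E) := by
  rw [← hTYZ.t0 F v E, ← hTYZ.t1 F v E h6]
  omega

theorem notMem_of_one (v : Pl F) (x : 𝓞 F) (h : vv v (lc v x) = 1) : x ∉ v.asIdeal := by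
  intro hx
  have h1 : v.valuation F (x : F) < 1 := (v.valuation_lt_one_iff_mem (K := F) x).2 hx
  have h2 : (vv v (algebraMap F (v.adicCompletion F) (x : F)) : ℤᵐ⁰) = v.valuation F (x : F) :=
    v.valuedAdicCompletion_eq_valuation' (x : F)
  rw [← h2] at h1
  exact h1.ne h

theorem lc_mul (v : Pl F) (x y : 𝓞 F) : lc v (x * y) = lc v x * lc v y := by
  have h : ((x * y : 𝓞 F) : F) = (x : F) * (y : F) := rfl
  show algebraMap F (v.adicCompletion F) ((x * y : 𝓞 F) : F) = _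
  rw [h, map_mul]

theorem pi_ne (G : Gs F) (v : Pl F) : (G.pi v : F) ≠ 0 :=
  RingOfIntegers.coe_ne_zero_iff.mpr (G.ne v)

end types

/-! ## Arithmetic of the data -/

section dat

variable {F : Type} [Field F] [NumberField F] {S : Dat F}

theorem six_out (hS : S.Ok) {i : Fin S.r} {q : Pl F} (hq : q ∈ S.L i) : (6 : 𝓞 F) ∉ q.asIdeal :=
  (S.G.six q (fun h => hS.lpr i q hq (hS.gs h))).1

theorem mem_L {p : Fin S.r → Pl F} (hp : p ∈ S.Om) (i : Fin S.r) : p i ∈ S.L i :=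
  Fintype.mem_piFinset.mp hp i

theorem disj (E : 𝓞 F × 𝓞 F) (p : Fin S.r → Pl F) (V : Finset (Fin S.r)) :
    Disjoint (S.Jx E p) (Finset.univ \ (S.Jx E p ∪ V)) := by
  rw [Finset.disjoint_left]
  intro x hx hx2
  exact (Finset.mem_sdiff.mp hx2).2 (Finset.mem_union_left _ hx)

theorem dx_ne (hVAP : SpecVAP) (hAUV : SpecAUV) (hS : S.Ok) {p : Fin S.r → Pl F} (hp : p ∈ S.Om)
    (E : 𝓞 F × 𝓞 F) (U : Finset (Fin S.r)) : S.Dx E p U ≠ 0 := by
  obtain ⟨h1, -, h2⟩ := hVAP.ne S p (S.Jx E p ∪ U) hS hp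
  have h3 := (hAUV F S p (S.Jx E p) (Finset.univ \ (S.Jx E p ∪ U)) hS hp (disj E p U)).2
    (jx (S.Mx E p U) E)
  exact mul_ne_zero (mul_ne_zero h2 h1) h3.2.2.2.2.1

theorem not_mem_dx (hVAP : SpecVAP) (hAUV : SpecAUV) (hS : S.Ok) {p : Fin S.r → Pl F}
    (hp : p ∈ S.Om) (E : 𝓞 F × 𝓞 F)
    (U : Finset (Fin S.r)) {a : Fin S.r} (haJ : a ∉ S.Jx E p) (haU : a ∉ U) {q : Pl F}
    (hq : q ∈ S.L a) : S.Dx E p U ∉ q.asIdeal := by
  have hqM := hS.lpr a q hq
  have hqS : q ∉ S.G.S := fun h => hqM (hS.gs h)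
  have h1 := hVAP.d1 S hS q hqM
  have h2 := (hVAP.val S p (S.Jx E p ∪ U) hS hp).2 q hqS (by
    rintro j hj rfl
    have hja : a ≠ j := by
      rintro rfl
      rcases Finset.mem_union.mp hj with h4 | h4
      · exact haJ h4
      · exact haU h4
    exact (Finset.disjoint_left.mp (hS.dis a j hja)) hq (mem_L hp j))
  have h3 := (hAUV F S p (S.Jx E p) (Finset.univ \ (S.Jx E p ∪ U)) hS hp (disj E p U)).2
    (jx (S.Mx E p U) E)
  have h4 := h3.2.2.2.2.2 q hqM (fun h => (h3.2.2.1 q h).2 a hq)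
  refine notMem_of_one q _ ?_
  have h5 : lc q (S.Dx E p U) = lc q S.D1 * lc q (S.pp p (S.Jx E p ∪ U)) *
      lc q (S.G.mx (S.Mx E p U) E) := by
    unfold Dat.Dx
    rw [lc_mul, lc_mul]
  rw [h5, map_mul, map_mul, h1, h2]
  have h6 : vv q (lc q (S.G.mx (S.Mx E p U) E)) = 1 := h4
  rw [h6, one_mul, one_mul]

end dat

/-! ## The estimate -/

theorem final_est {P η κ M n12 n3 c f0 f1 f2 : ℝ} (hP0 : 0 ≤ P) (hP1 : P ≤ 1) (hκ : 0 ≤ κ)
    (hκ1 : κ ≤ 1 / 10) (hη : 0 ≤ η) (hM : 0 ≤ M) (hn3 : 0 ≤ n3)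
    (h12 : |n12 - M / 2| ≤ κ * M) (h3 : |n3 - M / 3| ≤ κ * M)
    (hc : |c - P * n12| ≤ 2 * η * n12) (hf0 : |f0| ≤ 1) (hf1 : |f1| ≤ 1) (hf2 : |f2| ≤ 1) :
    |c * f2 + (n12 - c) * f0 + n3 * f1 -
      (3 / 5 * (P * f2 + (1 - P) * f0) + 2 / 5 * f1) * (n12 + n3)| ≤
      (4 * η + 4 * κ) * (n12 + n3) := by
  obtain ⟨e1, he1⟩ : ∃ e1, e1 = c - P * n12 := ⟨_, rfl⟩
  obtain ⟨e2, he2⟩ : ∃ e2, e2 = 2 / 5 * n12 - 3 / 5 * n3 := ⟨_, rfl⟩
  rw [← he1] at hc
  have hid : c * f2 + (n12 - c) * f0 + n3 * f1 -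
      (3 / 5 * (P * f2 + (1 - P) * f0) + 2 / 5 * f1) * (n12 + n3) =
      (P * e2 + e1) * f2 + ((1 - P) * e2 - e1) * f0 - e2 * f1 := by
    rw [he1, he2]
    ring
  rw [hid]
  have h2 : |e2| ≤ κ * M := by
    have : e2 = 2 / 5 * (n12 - M / 2) - 3 / 5 * (n3 - M / 3) := by rw [he2]; ring
    rw [this]
    refine (abs_sub _ _).trans ?_
    rw [abs_mul, abs_mul, abs_of_pos (by norm_num : (0 : ℝ) < 2 / 5),
      abs_of_pos (by norm_num : (0 : ℝ) < 3 / 5)]
    linarith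
  have hN : M ≤ 2 * (n12 + n3) := by
    have g1 := (abs_le.mp h12).1
    have g2 := (abs_le.mp h3).1
    have g3 : κ * M ≤ 1 / 10 * M := mul_le_mul_of_nonneg_right hκ1 hM
    linarith
  have hkM : κ * M ≤ κ * (2 * (n12 + n3)) := mul_le_mul_of_nonneg_left hN hκ
  have he : 2 * η * n12 ≤ 2 * η * (n12 + n3) :=
    mul_le_mul_of_nonneg_left (by linarith) (by linarith)
  have a1 : |(P * e2 + e1) * f2| ≤ P * |e2| + |e1| := by
    rw [abs_mul]
    have : |P * e2 + e1| ≤ P * |e2| + |e1| := by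
      refine (abs_add_le _ _).trans ?_
      rw [abs_mul, abs_of_nonneg hP0]
    calc |P * e2 + e1| * |f2| ≤ |P * e2 + e1| * 1 :=
          mul_le_mul_of_nonneg_left hf2 (abs_nonneg _)
      _ ≤ _ := by rw [mul_one]; exact this
  have a2 : |((1 - P) * e2 - e1) * f0| ≤ (1 - P) * |e2| + |e1| := by
    rw [abs_mul]
    have : |(1 - P) * e2 - e1| ≤ (1 - P) * |e2| + |e1| := by
      refine (abs_sub _ _).trans ?_
      rw [abs_mul, abs_of_nonneg (by linarith : 0 ≤ 1 - P)]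
    calc |(1 - P) * e2 - e1| * |f0| ≤ |(1 - P) * e2 - e1| * 1 :=
          mul_le_mul_of_nonneg_left hf0 (abs_nonneg _)
      _ ≤ _ := by rw [mul_one]; exact this
  have a3 : |e2 * f1| ≤ |e2| := by
    rw [abs_mul]
    calc |e2| * |f1| ≤ |e2| * 1 := mul_le_mul_of_nonneg_left hf1 (abs_nonneg _)
      _ = |e2| := mul_one _
  have a4 : |(P * e2 + e1) * f2 + ((1 - P) * e2 - e1) * f0 - e2 * f1| ≤
      |(P * e2 + e1) * f2| + |((1 - P) * e2 - e1) * f0| + |e2 * f1| :=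
    (abs_sub _ _).trans (add_le_add (abs_add_le _ _) le_rfl)
  linarith

/-- The sum over the class. -/
theorem sum_split {α : Type} (Λ : Finset α) (A B C : α → Prop) [DecidablePred C] (F : α → ℝ)
    (x y z : ℝ)
    (hexcl : ∀ q ∈ Λ, A q → ¬ B q) (hC : ∀ q ∈ Λ, C q ↔ (A q ∨ B q)) (T : α → Prop)
    (hx : ∀ q ∈ Λ, A q → T q → F q = x) (hy : ∀ q ∈ Λ, A q → ¬ T q → F q = y)
    (hz : ∀ q ∈ Λ, B q → F q = z) :
    ∑ q ∈ Λ.filter C, F q = ((Λ.filter (fun q => A q ∧ T q)).card : ℝ) * x +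
      (((Λ.filter A).card : ℝ) - ((Λ.filter (fun q => A q ∧ T q)).card : ℝ)) * y +
      ((Λ.filter B).card : ℝ) * z ∧
    ((Λ.filter C).card : ℝ) = ((Λ.filter A).card : ℝ) + ((Λ.filter B).card : ℝ) := by
  have e1 : Λ.filter C = Λ.filter A ∪ Λ.filter B := by
    ext q
    simp only [Finset.mem_union, Finset.mem_filter]
    constructor
    · rintro ⟨h1, h2⟩
      rcases (hC q h1).mp h2 with h3 | h3
      · exact Or.inl ⟨h1, h3⟩
      · exact Or.inr ⟨h1, h3⟩
    · rintro (⟨h1, h2⟩ | ⟨h1, h2⟩)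
      · exact ⟨h1, (hC q h1).mpr (Or.inl h2)⟩
      · exact ⟨h1, (hC q h1).mpr (Or.inr h2)⟩
  have e2 : Disjoint (Λ.filter A) (Λ.filter B) := by
    rw [Finset.disjoint_left]
    intro q h1 h2
    rw [Finset.mem_filter] at h1 h2
    exact hexcl q h1.1 h1.2 h2.2
  have e3 : ∑ q ∈ Λ.filter A, F q = ((Λ.filter (fun q => A q ∧ T q)).card : ℝ) * x +
      (((Λ.filter A).card : ℝ) - ((Λ.filter (fun q => A q ∧ T q)).card : ℝ)) * y := by
    rw [← Finset.sum_filter_add_sum_filter_not (Λ.filter A) T, Finset.filter_filter,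
      Finset.filter_filter]
    have g1 : ∑ q ∈ Λ.filter (fun q => A q ∧ T q), F q =
        ((Λ.filter (fun q => A q ∧ T q)).card : ℝ) * x := by
      rw [Finset.sum_congr rfl (g := fun _ => x), Finset.sum_const, nsmul_eq_mul]
      intro q hq
      rw [Finset.mem_filter] at hq
      exact hx q hq.1 hq.2.1 hq.2.2
    have g2 : ∑ q ∈ Λ.filter (fun q => A q ∧ ¬ T q), F q =
        ((Λ.filter (fun q => A q ∧ ¬ T q)).card : ℝ) * y := by
      rw [Finset.sum_congr rfl (g := fun _ => y), Finset.sum_const, nsmul_eq_mul]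
      intro q hq
      rw [Finset.mem_filter] at hq
      exact hy q hq.1 hq.2.1 hq.2.2
    have g3 : ((Λ.filter A).card : ℝ) = ((Λ.filter (fun q => A q ∧ T q)).card : ℝ) +
        ((Λ.filter (fun q => A q ∧ ¬ T q)).card : ℝ) := by
      have := Finset.card_filter_add_card_filter_not (s := Λ.filter A) T
      rw [Finset.filter_filter, Finset.filter_filter] at this
      exact_mod_cast this.symm
    rw [g1, g2, g3]
    ring
  have e4 : ∑ q ∈ Λ.filter B, F q = ((Λ.filter B).card : ℝ) * z := by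
    rw [Finset.sum_congr rfl (g := fun _ => z), Finset.sum_const, nsmul_eq_mul]
    intro q hq
    rw [Finset.mem_filter] at hq
    exact hz q hq.1 hq.2
  refine ⟨?_, ?_⟩
  · rw [e1, Finset.sum_union e2, e3, e4]
  · rw [e1, Finset.card_union_of_disjoint e2]
    push_cast
    ring

/-! ## The class of `p` -/

section cls

variable {F : Type} [Field F] [NumberField F] {S : Dat F} {n : ℕ} {E E' : 𝓞 F × 𝓞 F}
  {p : Fin S.r → Pl F} {k : ℕ} {a : Fin S.r}

theorem upd_mem (hp : p ∈ S.Om) {q : Pl F} (hq : q ∈ S.L a) : Function.update p a q ∈ S.Om := by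
  refine Fintype.mem_piFinset.mpr fun j => ?_
  by_cases h : j = a
  · subst h
    rw [Function.update_self]
    exact hq
  · rw [Function.update_of_ne h]
    exact mem_L hp j

theorem upd_pp {q : Pl F} {I : Finset (Fin S.r)} (h : a ∉ I) :
    S.pp (Function.update p a q) I = S.pp p I := by
  refine Finset.prod_congr rfl fun j hj => ?_
  rw [Function.update_of_ne (by rintro rfl; exact h hj)]

theorem upd_rm (hfs : S.fs n E E' p k = {a}) {q : Pl F}
    (hq : q ∈ S.Ls E' (S.K2 E E' p) p a) (hq1 : ty q E ≤ 1) :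
    a ∈ S.fs n E E' (Function.update p a q) k ∧ S.Rm n E E' k p (Function.update p a q) := by
  have ha : a ∈ S.fs n E E' p k := by rw [hfs]; exact Finset.mem_singleton_self a
  have hq' := Finset.mem_filter.mp hq
  have ha' := Finset.mem_filter.mp ha
  have h1 : a ∈ S.fs n E E' (Function.update p a q) k := by
    refine Finset.mem_filter.mpr ⟨ha'.1, ?_, ?_⟩
    · show ty (Function.update p a q a) E ≤ 1 ∧ ty (Function.update p a q a) E' = 1
      rw [Function.update_self]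
      exact ⟨hq1, hq'.2.1.trans ha'.2.1.2⟩
    · intro j hj hja hal
      apply ha'.2.2 j hj hja
      have : Function.update p a q j = p j := Function.update_of_ne hja.ne _ _
      unfold Dat.al at hal ⊢
      rw [this] at hal
      exact hal
  refine ⟨h1, Or.inr ⟨a, ha, h1, fun j hj => (Function.update_of_ne hj _ _).symm, ?_⟩⟩
  rw [Function.update_self]
  exact hq'.2.2.symm

theorem cls_eq (hp : p ∈ S.Om) (hfs : S.fs n E E' p k = {a}) :
    S.Om.filter (S.Rm n E E' k p) =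
      ((S.Ls E' (S.K2 E E' p) p a).filter (fun q => ty q E ≤ 1)).image
        (fun q => Function.update p a q) := by
  have ha : a ∈ S.fs n E E' p k := by rw [hfs]; exact Finset.mem_singleton_self a
  have ha' := Finset.mem_filter.mp ha
  ext p'
  rw [Finset.mem_image, Finset.mem_filter]
  constructor
  · rintro ⟨hp', h | ⟨b, hb, hb', hj, hcl⟩⟩
    · refine ⟨p a, Finset.mem_filter.mpr ⟨Finset.mem_filter.mpr ⟨mem_L hp a, rfl, rfl⟩,
        ha'.2.1.1⟩, ?_⟩
      rw [← h]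
      exact Function.update_eq_self a p
    · rw [hfs, Finset.mem_singleton] at hb
      subst hb
      have hb'' := Finset.mem_filter.mp hb'
      refine ⟨p' b, Finset.mem_filter.mpr ⟨Finset.mem_filter.mpr ⟨mem_L hp' b, ?_, hcl.symm⟩,
        hb''.2.1.1⟩, ?_⟩
      · rw [hb''.2.1.2, ha'.2.1.2]
      · funext j
        by_cases h : j = b
        · subst h
          rw [Function.update_self]
        · rw [Function.update_of_ne h]
          exact hj j h
  · rintro ⟨q, hq, rfl⟩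
    obtain ⟨hq1, hq2⟩ := Finset.mem_filter.mp hq
    exact ⟨upd_mem hp (Finset.mem_filter.mp hq1).1, (upd_rm hfs hq1 hq2).2⟩

theorem upd_inj : Function.Injective (fun q : Pl F => Function.update p a q) := by
  intro q q' h
  have := congrFun h a
  simpa using this

end cls

end MXSM

open MXSM in
theorem specMXS (hEQR : SpecEQR) (hIVT : SpecIVT) (hNST : SpecNST) (hCNT : SpecCNT)
    (hGEN : SpecGEN) (hCLM : SpecCLM) (hTYZ : SpecTYZ) (hVAP : SpecVAP) (hAUV : SpecAUV) :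
    SpecMXS := by
  intro F _ _ S n η κ E E' lo lo' k p hS hn h2n hη0 hη1 hκ0 hκ1 hSf hdz hlo hk hp hG f hf
  -- the mixing index
  obtain ⟨a, hfs⟩ : ∃ a, S.fs n E E' p (lo + k) = {a} :=
    Finset.card_eq_one.mp ((hEQR.fs1 S n E E' (lo + k) p).2
      (hG.blk (lo + k) (Nat.le_add_right _ _) (Nat.add_lt_add_left hk lo)))
  have ha : a ∈ S.fs n E E' p (lo + k) := by rw [hfs]; exact Finset.mem_singleton_self a
  have ha' := Finset.mem_filter.mp ha
  have haE : ty (p a) E ≤ 1 := ha'.2.1.1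
  have haE' : ty (p a) E' = 1 := ha'.2.1.2
  obtain ⟨hUk, haU⟩ := hEQR.uks S n E E' p lo lo' k hlo hk
  have haU := haU a ha
  obtain ⟨U, hU⟩ : ∃ U, U = S.Uk n E E' p lo lo' k := ⟨_, rfl⟩
  rw [← hU] at hUk haU ⊢
  have haJ : a ∉ S.Jx E p := by
    intro h
    have := (Finset.mem_filter.mp h).2
    omega
  have haJ' : a ∉ S.Jx E' p := by
    intro h
    have := (Finset.mem_filter.mp h).2
    omega
  have haI : a ∉ S.Jx E p ∪ S.Jx E' p := by
    rw [Finset.mem_union]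
    rintro (h | h)
    · exact haJ h
    · exact haJ' h
  have haV : a ∉ S.Jx E p ∪ U := by
    rw [Finset.mem_union]
    rintro (h | h)
    · exact haJ h
    · exact haU h
  -- the nodes
  have hnod : Nok S.G η κ (S.RR (S.Kx E p)) (S.D1 * S.pp p (S.Jx E p ∪ U)) (S.Mx E p U)
      (S.Ls E' (S.K2 E E' p) p a) E :=
    hG.nod a (S.Jx E p ∪ S.Jx E' p) (S.Jx E p ∪ U) (S.Jx E p) (Finset.univ \ (S.Jx E p ∪ U))
      haI haV (disj E p U)
  have hnod0 : Nok S.G η κ (S.RR (S.Kx E p)) (S.D1 * S.pp p (S.Jx E p ∪ ∅)) (S.Mx E p ∅)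
      (S.Ls E' (S.K2 E E' p) p a) E :=
    hG.nod a (S.Jx E p ∪ S.Jx E' p) (S.Jx E p ∪ ∅) (S.Jx E p) (Finset.univ \ (S.Jx E p ∪ ∅))
      haI (by rw [Finset.union_empty]; exact haJ) (disj E p ∅)
  have haok : ∀ V : Finset (Fin S.r), S.Aok E p V := fun V =>
    (hG.nod a ∅ ∅ (S.Jx E p) (Finset.univ \ (S.Jx E p ∪ V)) (Finset.notMem_empty a)
      (Finset.notMem_empty a) (disj E p V)).aux
  -- the Selmer group at `U`
  have hDne := dx_ne hVAP hAUV hS hp E U
  obtain ⟨-, -, s, hs⟩ := hGEN.fin F E (S.Dx E p U) hdz hDne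
  have hsx : S.sx E p U = s := by
    unfold Dat.sx
    rw [hs, Nat.log_pow (by norm_num)]
  -- facts on the updated points
  have hΛ : ∀ q ∈ S.Ls E' (S.K2 E E' p) p a, q ∈ S.L a ∧ ty q E' = ty (p a) E' ∧
      cl (S.K2 E E' p) (S.G.pi q : F) = cl (S.K2 E E' p) (S.G.pi (p a) : F) :=
    fun q hq => Finset.mem_filter.mp hq
  have hKsub : S.Kx E p ⊆ S.K2 E E' p :=
    Finset.union_subset_union_right (Finset.image_subset_image Finset.subset_union_left)
  have hfact : ∀ q ∈ S.Ls E' (S.K2 E E' p) p a, ty q E ≤ 1 →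
      S.Jx E (Function.update p a q) = S.Jx E p ∧
      S.Kx E (Function.update p a q) = S.Kx E p ∧
      S.K2 E E' (Function.update p a q) = S.K2 E E' p ∧
      (∀ V : Finset (Fin S.r), S.Mx E (Function.update p a q) V = S.Mx E p V ∧
        S.Aok E (Function.update p a q) V) ∧
      S.Dx E (Function.update p a q) U = S.Dx E p U ∧
      S.sx E (Function.update p a q) U = s ∧
      S.Uk n E E' (Function.update p a q) lo lo' k = U ∧
      S.Uk n E E' (Function.update p a q) lo lo' (k + 1) =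
        U ∪ ({a} : Finset (Fin S.r)).filter (fun i => ty (Function.update p a q i) E = 0) := by
    intro q hq hq1
    obtain ⟨hqL, hqt, hqc⟩ := hΛ q hq
    obtain ⟨hfa, hRm⟩ := upd_rm hfs hq hq1
    obtain ⟨r1, r2, r3, r4, r5⟩ := hEQR.rmv S n E E' (lo + k) p _ hRm
    obtain ⟨r6, r7, r8⟩ := r5 lo lo' hlo (Nat.le_add_right _ _) (Nat.add_lt_add_left hk lo)
    rw [Nat.add_sub_cancel_left, ← hU] at r7
    have hfs' : S.fs n E E' (Function.update p a q) (lo + k) = {a} := by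
      have h1 := (hEQR.fs1 S n E E' (lo + k) (Function.update p a q)).1
      exact Finset.eq_singleton_iff_unique_mem.mpr ⟨hfa, fun b hb =>
        Finset.card_le_one.mp h1 b hb a hfa⟩
    obtain ⟨i1, i2, i3, i4, i5⟩ := hIVT F S E p (Function.update p a q) a hS hp (upd_mem hp hqL)
      (fun j hj => (Function.update_of_ne hj _ _).symm) (by omega)
      (by rw [Function.update_self]; omega)
      (by
        rw [Function.update_self]
        exact hCLM.mon _ _ _ _ (pi_ne S.G _) (pi_ne S.G _) hKsub hqc.symm)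
    have hu := (hEQR.uks S n E E' (Function.update p a q) lo lo' k hlo hk).1
    refine ⟨i1.symm, i2.symm, r4.symm, fun V => ⟨(i3 V).1.symm, (i3 V).2.mp (haok V)⟩,
      (i4 U haU).1.symm, ?_, r7.symm, ?_⟩
    · rw [← (i4 U haU).2]
      exact hsx
    · rw [hu, ← r7, hfs']
  -- places of type (3)
  have hB : ∀ q ∈ S.Ls E' (S.K2 E E' p) p a, Y3 q E →
      S.sx E (Function.update p a q)
        (S.Uk n E E' (Function.update p a q) lo lo' (k + 1)) = s := by
    intro q hq h3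
    have hqL := (hΛ q hq).1
    have hty : ty q E = 1 := (hTYZ.t1 F q E (six_out hS hqL)).mpr h3
    obtain ⟨g1, g2, g3, g4, g5, g6, g7, g8⟩ := hfact q hq (by omega)
    have e : ({a} : Finset (Fin S.r)).filter (fun i => ty (Function.update p a q i) E = 0) = ∅ := by
      rw [Finset.filter_singleton, if_neg]
      rw [Function.update_self, hty]
      norm_num
    rw [g8, e, Finset.union_empty]
    exact g6
  -- places of type (1,2)
  have hA : ∀ q ∈ S.Ls E' (S.K2 E E' p) p a, Y12 q E →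
      ((∀ z : Sel 2 (cO E.1 E.2 (S.Dx E p U)), TrO (S.Dx E p U) q z) →
        S.sx E (Function.update p a q)
        (S.Uk n E E' (Function.update p a q) lo lo' (k + 1)) = s + 1) ∧
      (¬ (∀ z : Sel 2 (cO E.1 E.2 (S.Dx E p U)), TrO (S.Dx E p U) q z) →
        S.sx E (Function.update p a q)
        (S.Uk n E E' (Function.update p a q) lo lo' (k + 1)) = s - 1) := by
    intro q hq h12
    obtain ⟨hqL, hqt, hqc⟩ := hΛ q hq
    have hty : ty q E = 0 := (hTYZ.t0 F q E).mpr h12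
    obtain ⟨g1, g2, g3, g4, g5, g6, g7, g8⟩ := hfact q hq (by omega)
    have e : ({a} : Finset (Fin S.r)).filter (fun i => ty (Function.update p a q i) E = 0) =
        {a} := by
      rw [Finset.filter_singleton, if_pos]
      rw [Function.update_self]
      exact hty
    have hUk' : S.Uk n E E' (Function.update p a q) lo lo' (k + 1) = insert a U := by
      rw [g8, e, Finset.union_comm]
      rfl
    have hUsub : U ⊆ S.Ux E (Function.update p a q) := by
      rw [← g7]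
      exact Finset.filter_subset _ _
    have haUx : a ∈ S.Ux E (Function.update p a q) := by
      refine Finset.mem_filter.mpr ⟨Finset.mem_univ a, ?_⟩
      rw [Function.update_self]
      exact hty
    have hLs : S.Ls E' (S.K2 E E' p) (Function.update p a q) a = S.Ls E' (S.K2 E E' p) p a := by
      unfold Dat.Ls
      rw [Function.update_self, hqt, hqc]
    have hNd : S.Nd η κ E E' (Function.update p a q) (S.K2 E E' p) a ∅ := by
      unfold Dat.Nd
      rw [g1, g2, (g4 ∅).1, hLs, upd_pp (by rw [Finset.union_empty]; exact haJ)]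
      exact hnod0
    have hst := (hNST F S η κ E E' (Function.update p a q) (S.K2 E E' p) a hS (upd_mem hp hqL) hη0
      hη1 (by linarith) hSf hdz (by
        intro j
        by_cases hj : j = a
        · subst hj
          rw [Function.update_self, hty]
          norm_num
        · rw [Function.update_of_ne hj]
          exact hG.bad j) (by rw [g1]; exact haJ) hNd).1 U a hUsub haUx haU (g4 U).2
        (g4 (insert a U)).2
    rw [g5, Function.update_self, hs] at hst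
    rw [hUk']
    unfold Dat.sx
    refine ⟨fun hz => ?_, fun hz => ?_⟩
    · rw [hst.1 hz, ← pow_succ', Nat.log_pow (by norm_num)]
    · have h3 := hst.2 hz
      cases s with
      | zero => rw [pow_zero] at h3; omega
      | succ s =>
        have h4 : sc E (S.Dx E (Function.update p a q) (insert a U)) = 2 ^ s := by
          rw [pow_succ] at h3
          omega
        rw [h4, Nat.log_pow (by norm_num)]
        rfl
  -- the sum
  obtain ⟨k1, k2⟩ := sum_split (S.Ls E' (S.K2 E E' p) p a) (fun q => Y12 q E)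
    (fun q => Y3 q E) (fun q => ty q E ≤ 1)
    (fun q => f (S.sx E (Function.update p a q)
      (S.Uk n E E' (Function.update p a q) lo lo' (k + 1)))) (f (s + 1)) (f (s - 1)) (f s)
    (fun q hq h12 h3 => excl hTYZ (six_out hS (hΛ q hq).1) h3 h12)
    (fun q hq => ty_le_one hTYZ (six_out hS (hΛ q hq).1))
    (fun q => ∀ z : Sel 2 (cO E.1 E.2 (S.Dx E p U)), TrO (S.Dx E p U) q z)
    (fun q hq h12 hT => by
      show f _ = _
      rw [(hA q hq h12).1 hT])
    (fun q hq h12 hT => by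
      show f _ = _
      rw [(hA q hq h12).2 hT])
    (fun q hq h3 => by
      show f _ = _
      rw [hB q hq h3])
  have hcls := cls_eq (n := n) (E := E) (E' := E') (k := lo + k) hp hfs
  have hsum : ∑ p' ∈ S.Om.filter (S.Rm n E E' (lo + k) p),
      f (S.sx E p' (S.Uk n E E' p' lo lo' (k + 1))) =
      ∑ q ∈ (S.Ls E' (S.K2 E E' p) p a).filter (fun q => ty q E ≤ 1),
        f (S.sx E (Function.update p a q)
          (S.Uk n E E' (Function.update p a q) lo lo' (k + 1))) := by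
    rw [hcls, Finset.sum_image (fun x _ y _ h => upd_inj h)]
  have hcard : (S.Om.filter (S.Rm n E E' (lo + k) p)).card =
      ((S.Ls E' (S.K2 E E' p) p a).filter (fun q => ty q E ≤ 1)).card := by
    rw [hcls, Finset.card_image_of_injective _ upd_inj]
  rw [hsum, hcard, k1, k2, hsx]
  have hcnt := hCNT F S.G η κ (S.RR (S.Kx E p)) (S.D1 * S.pp p (S.Jx E p ∪ U)) (S.Mx E p U)
    (S.Ls E' (S.K2 E E' p) p a) E s hη0 hnod hdz hDne
    (fun q hq => ⟨six_out hS (hΛ q hq).1,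
      not_mem_dx hVAP hAUV hS hp E U haJ haU (hΛ q hq).1⟩) hs
  have hest := final_est (P := (1 / 2 : ℝ) ^ s) (η := η) (κ := κ)
    (M := ((S.Ls E' (S.K2 E E' p) p a).card : ℝ))
    (n12 := (((S.Ls E' (S.K2 E E' p) p a).filter (fun q => Y12 q E)).card : ℝ))
    (n3 := (((S.Ls E' (S.K2 E E' p) p a).filter (fun q => Y3 q E)).card : ℝ))
    (c := (((S.Ls E' (S.K2 E E' p) p a).filter (fun q => Y12 q E ∧
      ∀ z : Sel 2 (cO E.1 E.2 (S.Dx E p U)), TrO (S.Dx E p U) q z)).card : ℝ))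
    (f0 := f (s - 1)) (f1 := f s) (f2 := f (s + 1))
    (by positivity) (pow_le_one₀ (by norm_num) (by norm_num)) hκ0 hκ1 hη0 (Nat.cast_nonneg _)
    (Nat.cast_nonneg _) hnod.t12 hnod.t3 hcnt (hf _) (hf _) (hf _)
  exact hest

end Pool.Agent.Lib.MP_8cb858_nt.PU
end

section
/-!
# NDB: bad nodes, over `F`
-/
namespace Pool.Agent.Lib.MP_8cb858_nt.PU.NDBM

open NumberField IsDedekindDomain Pool.Agent.Lib.MP_8cb858_nt.SEL
open Pool.Agent.Lib.MP_8cb858_nt.PU Pool.Agent.Lib.MP_8cb858_nt.PF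
open scoped Classical

variable {F : Type} [Field F] [NumberField F]

/-- Union bound. -/
lemma union_bd {ι : Type} (T : Finset ι) (ρ : InfinitePlace F → ℝ) (hf : (Bx F ρ).Finite)
    (Q : ι → 𝓞 F × 𝓞 F → Prop) (P : 𝓞 F × 𝓞 F → Prop) (c : ℝ)
    (hP : ∀ E ∈ Bx F ρ, P E → ∃ t ∈ T, Q t E)
    (hQ : ∀ t ∈ T, ({E ∈ Bx F ρ | Q t E}.ncard : ℝ) ≤ c) :
    ({E ∈ Bx F ρ | P E}.ncard : ℝ) ≤ T.card * c := by
  have key : ∀ R : 𝓞 F × 𝓞 F → Prop, {E ∈ Bx F ρ | R E}.ncard = (hf.toFinset.filter R).card := by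
    intro R
    rw [← Set.ncard_coe_finset]
    congr 1
    ext E
    simp
  have h1 : (hf.toFinset.filter P) ⊆ T.biUnion (fun t => hf.toFinset.filter (Q t)) := by
    intro E hE
    rw [Finset.mem_filter, Set.Finite.mem_toFinset] at hE
    obtain ⟨t, ht, hq⟩ := hP E hE.1 hE.2
    rw [Finset.mem_biUnion]
    exact ⟨t, ht, Finset.mem_filter.mpr ⟨(Set.Finite.mem_toFinset hf).mpr hE.1, hq⟩⟩
  have h2 : ((hf.toFinset.filter P).card : ℝ) ≤ ∑ t ∈ T, ((hf.toFinset.filter (Q t)).card : ℝ) := by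
    exact_mod_cast (Finset.card_le_card h1).trans Finset.card_biUnion_le
  rw [key P]
  refine h2.trans ?_
  calc ∑ t ∈ T, ((hf.toFinset.filter (Q t)).card : ℝ) ≤ ∑ t ∈ T, c := by
        refine Finset.sum_le_sum (fun t ht => ?_)
        rw [← key (Q t)]
        exact hQ t ht
    _ = T.card * c := by rw [Finset.sum_const, nsmul_eq_mul]

theorem main (hEQZ : SpecEQZ) (hNOD : SpecNOD) (hAUV : SpecAUV) (hVAP : SpecVAP) : SpecNDB := by
  intro F _ _ G η κ ε hη hκ hε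
  obtain ⟨R, hR⟩ := hNOD F G η κ 8 hη hκ (by norm_num)
  obtain ⟨m, hm⟩ := exists_nat_ge (Real.log (1 / ε))
  have hm' : Real.exp (-(m : ℝ)) ≤ ε := by
    have h1 : Real.exp (-(m : ℝ)) ≤ Real.exp (-(Real.log (1 / ε))) :=
      Real.exp_le_exp.mpr (by linarith)
    rw [Real.exp_neg, Real.exp_neg, Real.exp_log (by positivity)] at h1
    rw [Real.exp_neg]
    simpa using h1
  refine ⟨R, R + m + 1, ?_⟩
  intro S hG hS
  subst hG
  have hok := hS.ok
  have hr0 : 1 ≤ S.r := hok.rp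
  have hrr : R + m + 1 ≤ S.r := hS.r
  have hA1 : S.A1.card ≤ S.r := by
    have h2 := hS.d1
    have h3 : 1 * S.A1.card ≤ (R + m + 1) * S.A1.card := Nat.mul_le_mul_right _ (by omega)
    omega
  have hM0 : S.M0.card ≤ S.r := by
    have h2 := hS.m0
    have h3 : 1 * S.M0.card ≤ (R + m + 1) * S.M0.card := Nat.mul_le_mul_right _ (by omega)
    omega
  have hc0 : S.c0 ≤ S.r := by
    have h2 := hS.c0
    have h3 : 1 * S.c0 ≤ (R + m + 1) * S.c0 := Nat.mul_le_mul_right _ (by omega)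
    omega
  have himc : ∀ (V : Finset (Fin S.r)) (p : Fin S.r → Pl F), (V.image p).card ≤ S.r := by
    intro V p
    refine Finset.card_image_le.trans ?_
    have := Finset.card_le_univ V
    rwa [Fintype.card_fin] at this
  -- the hypotheses of NOD
  have step : ∀ (p : Fin S.r → Pl F) (i : Fin S.r) (V J W : Finset (Fin S.r)) (L' : Finset (Pl F)),
      ∃ X0 : ℝ, p ∈ S.Om → i ∉ V → Disjoint J W → L' ⊆ S.L i →
        Real.exp (R * S.r) ≤ (L'.card : ℝ) → ∀ ρ : InfinitePlace F → ℝ, (∀ v, X0 ≤ ρ v) →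
        ({E ∈ Bx F ρ | ¬ Nok S.G η κ (S.RR (S.Kp p J)) (S.D1 * S.pp p V)
          (S.ms (S.Kp p J) p W) L' E}.ncard : ℝ) ≤
        Real.exp (-(8 * S.r)) * ((Bx F ρ).ncard : ℝ) := by
    intro p i V J W L'
    by_cases hyp : p ∈ S.Om ∧ i ∉ V ∧ Disjoint J W ∧ L' ⊆ S.L i ∧
        Real.exp (R * S.r) ≤ (L'.card : ℝ)
    · obtain ⟨hp, hiV, hJW, hL, hc⟩ := hyp
      obtain ⟨hinj, hpm⟩ := hVAP.inj S p hok hp
      obtain ⟨hdis, haux⟩ := hAUV F S p J W hok hp hJW
      have hM0K : S.M0 ⊆ S.Kp p J := Finset.subset_union_left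
      have hbig := hS.aux (S.Kp p J) (S.pp p W : F) hM0K (hVAP.ne S p W hok hp).2.1
        (hVAP.cop S p J W hok hp hJW)
      have hnv : ∀ q : Pl F, Real.exp (((R + m + 1 : ℕ) : ℝ) * S.r) ≤ (nv q : ℝ) → R ≤ nv q := by
        intro q h1
        have h2 : (R : ℝ) ≤ (nv q : ℝ) := by
          refine le_trans ?_ h1
          have h3 : (R : ℝ) ≤ ((R + m + 1 : ℕ) : ℝ) * S.r := by
            have h5 : (R + m + 1) * 1 ≤ (R + m + 1) * S.r := Nat.mul_le_mul_left _ hr0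
            have h4 : R ≤ (R + m + 1) * S.r := by omega
            exact_mod_cast h4
          have h4 := Real.add_one_le_exp (((R + m + 1 : ℕ) : ℝ) * S.r)
          linarith
        exact_mod_cast h2
      obtain ⟨X0, hX0⟩ := hR S.r (S.c0 + 2 * (S.Kp p J).card) S.u1 (S.A1 ∪ V.image p) L'
        (S.ms (S.Kp p J) p W) (by omega) hok.u1
        (by
          have h1 := Finset.card_union_le S.A1 (V.image p)
          have h2 := himc V p
          omega)
        (by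
          have h1 : (S.Kp p J).card ≤ S.M0.card + (J.image p).card := Finset.card_union_le _ _
          have h2 := himc J p
          omega)
        (by
          intro v hv
          rcases Finset.mem_union.1 hv with h | h
          · exact (hok.a1 v h).2
          · obtain ⟨j, _, rfl⟩ := Finset.mem_image.1 h
            exact (hpm j).2.2.1)
        (by
          intro q hq
          have hq' := hL hq
          have hqM := hok.lpr i q hq'
          refine ⟨fun h => hqM (hok.gs h), hnv q (hS.pr i q hq'), ?_⟩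
          intro h
          rcases Finset.mem_union.1 h with h | h
          · exact hqM (hok.a1 q h).1
          · obtain ⟨j, hj, rfl⟩ := Finset.mem_image.1 h
            have hij : i ≠ j := by rintro rfl; exact hiV hj
            exact (Finset.disjoint_left.mp (hok.dis i j hij)) hq' (hpm j).1)
        hc
        (by
          refine ⟨hdis, fun j => (haux j).1, fun j => (haux j).2.1, ?_⟩
          intro j v hv
          obtain ⟨h1, h2⟩ := (haux j).2.2.1 v hv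
          refine ⟨fun h => h1 (hM0K (hok.gs h)), ?_, ?_⟩
          · have := hbig j v hv
            omega
          · rintro (h | h)
            · rcases Finset.mem_union.1 h with h | h
              · exact h1 (hM0K (hok.a1 v h).1)
              · obtain ⟨l, _, rfl⟩ := Finset.mem_image.1 h
                exact h2 l (hpm l).1
            · exact h2 i (hL h))
      refine ⟨X0, fun _ _ _ _ _ ρ hρ => ?_⟩
      have := hX0 ρ hρ
      rw [← hVAP.im S p V hok hp] at this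
      exact this
    · exact ⟨0, fun a b c d e => absurd ⟨a, b, c, d, e⟩ hyp⟩
  choose f hf using step
  -- the maximum of the X0's
  let T0 : Finset ((Fin S.r → Pl F) × Fin S.r × Finset (Fin S.r) × Finset (Fin S.r) ×
      Finset (Fin S.r) × Finset (Pl F)) :=
    S.Om ×ˢ Finset.univ ×ˢ Finset.univ ×ˢ Finset.univ ×ˢ Finset.univ ×ˢ
      (Finset.univ.biUnion S.L).powerset
  obtain ⟨X0, hX0⟩ := (T0.image (fun t => f t.1 t.2.1 t.2.2.1 t.2.2.2.1 t.2.2.2.2.1
    t.2.2.2.2.2)).exists_le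
  refine ⟨X0, ?_⟩
  intro ρ hρ p hp E' hbig
  let T : Finset (Fin S.r × Finset (Fin S.r) × Finset (Fin S.r) × Finset (Fin S.r) ×
    Finset (Fin S.r)) := Finset.univ.filter (fun t => t.1 ∉ t.2.1 ∧ t.1 ∉ t.2.2.1 ∧
      Disjoint t.2.2.2.1 t.2.2.2.2)
  have h1 := union_bd T ρ ((hEQZ F).1 ρ) (fun t E => ¬ Nok S.G η κ (S.RR (S.Kp p t.2.2.2.1))
      (S.D1 * S.pp p t.2.2.1) (S.ms (S.Kp p t.2.2.2.1) p t.2.2.2.2)
      (S.Ls E' (S.Kp p t.2.1) p t.1) E) (fun E => ¬ S.Nal η κ E E' p)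
    (Real.exp (-(8 * S.r)) * ((Bx F ρ).ncard : ℝ))
    (by
      intro E _ hE
      unfold Dat.Nal at hE
      push Not at hE
      obtain ⟨i, I, V, J, W, hiI, hiV, hJW, hn⟩ := hE
      exact ⟨(i, I, V, J, W), Finset.mem_filter.mpr ⟨Finset.mem_univ _, hiI, hiV, hJW⟩, hn⟩)
    (by
      rintro ⟨i, I, V, J, W⟩ ht
      obtain ⟨-, hiI, hiV, hJW⟩ := Finset.mem_filter.mp ht
      simp only at hiI hiV hJW ⊢
      have hsub : S.Ls E' (S.Kp p I) p i ⊆ S.L i := Finset.filter_subset _ _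
      refine hf p i V J W (S.Ls E' (S.Kp p I) p i) hp hiV hJW hsub (hbig i I hiI) ρ ?_
      intro v
      refine le_trans ?_ (hρ v)
      refine hX0 _ (Finset.mem_image.mpr ⟨(p, i, V, J, W, S.Ls E' (S.Kp p I) p i),
        ?_, rfl⟩)
      simp only [T0, Finset.mem_product, Finset.mem_univ, true_and, Finset.mem_powerset]
      exact ⟨hp, hsub.trans (Finset.subset_biUnion_of_mem S.L (Finset.mem_univ i))⟩)
  refine h1.trans ?_
  rw [← mul_assoc]
  refine mul_le_mul_of_nonneg_right ?_ (Nat.cast_nonneg _)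
  have h9 : (T.card : ℝ) ≤ S.r * ((2 : ℝ) ^ S.r) ^ 4 := by
    have h10 : T.card ≤ S.r * (2 ^ S.r) ^ 4 := by
      refine (Finset.card_filter_le _ _).trans ?_
      rw [Finset.card_univ]
      simp only [Fintype.card_prod, Fintype.card_fin, Fintype.card_finset]
      apply le_of_eq
      ring
    exact_mod_cast h10
  have b1 : (S.r : ℝ) ≤ Real.exp S.r := by
    have := Real.add_one_le_exp (S.r : ℝ); linarith
  have b2 : (2 : ℝ) ^ S.r ≤ Real.exp S.r := by
    have h : (2 : ℝ) ≤ Real.exp 1 := by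
      have := Real.add_one_le_exp (1 : ℝ); linarith
    calc (2 : ℝ) ^ S.r ≤ (Real.exp 1) ^ S.r := pow_le_pow_left₀ (by norm_num) h _
      _ = Real.exp S.r := by rw [← Real.exp_nat_mul]; simp
  have b3 : (T.card : ℝ) ≤ Real.exp (5 * S.r) := by
    calc (T.card : ℝ) ≤ S.r * ((2 : ℝ) ^ S.r) ^ 4 := h9
      _ ≤ Real.exp S.r * (Real.exp S.r) ^ 4 := by
          apply mul_le_mul b1 (pow_le_pow_left₀ (by positivity) b2 4) (by positivity)
            (Real.exp_pos _).le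
      _ = Real.exp (5 * S.r) := by
          rw [← Real.exp_nat_mul, ← Real.exp_add]
          congr 1
          push_cast
          ring
  calc (T.card : ℝ) * Real.exp (-(8 * S.r)) ≤ Real.exp (5 * S.r) * Real.exp (-(8 * S.r)) :=
        mul_le_mul_of_nonneg_right b3 (Real.exp_pos _).le
    _ = Real.exp (-(3 * S.r)) := by rw [← Real.exp_add]; congr 1; ring
    _ ≤ Real.exp (-(m : ℝ)) := by
        apply Real.exp_le_exp.mpr
        have h11 : (m : ℝ) ≤ S.r := by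
          have : m ≤ S.r := by omega
          exact_mod_cast this
        have h12 : (0 : ℝ) ≤ S.r := Nat.cast_nonneg _
        linarith
    _ ≤ ε := hm'

end Pool.Agent.Lib.MP_8cb858_nt.PU.NDBM

namespace Pool.Agent.Lib.MP_8cb858_nt.PU

theorem specNDB (hEQZ : SpecEQZ) (hNOD : SpecNOD) (hAUV : SpecAUV) (hVAP : SpecVAP) : SpecNDB :=
  NDBM.main hEQZ hNOD hAUV hVAP

end Pool.Agent.Lib.MP_8cb858_nt.PU
end

section
/-!
# Module NST: the step from `U` to `U ∪ {i}`, over `F`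
-/
namespace Pool.Agent.Lib.MP_8cb858_nt.PU

open Polynomial NumberField IsDedekindDomain Pool.Agent.Lib.MP_8cb858_nt.SEL
open Pool.Agent.Lib.MP_8cb858_nt.PF
open scoped Classical WithZero

namespace NSTM

open JSTM

section

variable {F : Type} [Field F] [NumberField F]

theorem ty_cases (q : Pl F) (E : 𝓞 F × 𝓞 F) : ty q E = 0 ∨ ty q E = 1 ∨ ty q E = 2 ∨ ty q E = 3 := by
  unfold ty
  split_ifs <;> simp

variable {S : Dat F} {E : 𝓞 F × 𝓞 F} {p : Fin S.r → Pl F}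

theorem mem_L (hp : p ∈ S.Om) (i : Fin S.r) : p i ∈ S.L i := Fintype.mem_piFinset.1 hp i

theorem ne_of_mem (hS : S.Ok) (hp : p ∈ S.Om) {i j : Fin S.r} (h : i ≠ j) {q : Pl F}
    (hq : q ∈ S.L i) : q ≠ p j := by
  rintro rfl
  exact Finset.disjoint_left.1 (hS.dis i j h) hq (mem_L hp j)

theorem six_of (hS : S.Ok) {v : Pl F} (hv : v ∉ S.M0) : (6 : 𝓞 F) ∉ v.asIdeal :=
  (S.G.six v (fun h => hv (hS.gs h))).1

theorem M0_K : S.M0 ⊆ S.Kx E p := Finset.subset_union_left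

theorem mem_K (i : Fin S.r) (h : i ∈ S.Jx E p) : p i ∈ S.Kx E p :=
  Finset.mem_union_right _ (Finset.mem_image_of_mem p h)

theorem not_mem_K (hS : S.Ok) (hp : p ∈ S.Om) {i : Fin S.r} (hi : i ∉ S.Jx E p) {q : Pl F}
    (hq : q ∈ S.L i) : q ∉ S.Kx E p := by
  intro h
  rcases Finset.mem_union.1 h with h1 | h1
  · exact hS.lpr i q hq h1
  · obtain ⟨j, hj, he⟩ := Finset.mem_image.1 h1
    refine ne_of_mem hS hp (i := i) (j := j) ?_ hq he.symm
    rintro rfl
    exact hi hj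

/-- The product of the other elements. -/
noncomputable def oth (S : Dat F) (E : 𝓞 F × 𝓞 F) (p : Fin S.r → Pl F) (U : Finset (Fin S.r)) :
    𝓞 F := S.pp p (Finset.univ \ (S.Jx E p ∪ U))

/-- The auxiliary set. -/
noncomputable def ax (S : Dat F) (E : 𝓞 F × 𝓞 F) (p : Fin S.r → Pl F) (U : Finset (Fin S.r)) :
    Finset (Pl F) := (S.Mx E p U (jx (S.Mx E p U) E)).2

theorem aux (hAUV : SpecAUV) (hS : S.Ok) (hp : p ∈ S.Om) (U : Finset (Fin S.r)) :
    (∀ v ∈ ax S E p U, v ∉ S.Kx E p ∧ ∀ i, v ∉ S.L i) ∧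
    cl (S.Kx E p) (S.G.mx (S.Mx E p U) E : F) = cl (S.Kx E p) (oth S E p U : F) ∧
    S.G.mx (S.Mx E p U) E ≠ 0 ∧
    ∀ v : Pl F, v ∉ S.M0 → v ∉ ax S E p U → vv v (lc v (S.G.mx (S.Mx E p U) E)) = 1 := by
  have hd : Disjoint (S.Jx E p) (Finset.univ \ (S.Jx E p ∪ U)) := by
    rw [Finset.disjoint_left]
    intro j hj hj'
    exact (Finset.mem_sdiff.1 hj').2 (Finset.mem_union_left _ hj)
  obtain ⟨-, ha⟩ := hAUV F S p (S.Jx E p) (Finset.univ \ (S.Jx E p ∪ U)) hS hp hd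
  obtain ⟨-, -, a3, a4, a5, a6⟩ := ha (jx (S.Mx E p U) E)
  exact ⟨a3, a4, a5, a6⟩

/-- `Ds`. -/
noncomputable def DS (S : Dat F) (p : Fin S.r → Pl F) : 𝓞 F := S.D1 * S.pp p Finset.univ

theorem DS_eq (hVAP : SpecVAP) (U : Finset (Fin S.r)) :
    DS S p = S.D1 * S.pp p (S.Jx E p ∪ U) * oth S E p U := by
  unfold DS oth
  rw [mul_assoc, hVAP.mul S p _ _ Finset.disjoint_sdiff,
    Finset.union_sdiff_of_subset (Finset.subset_univ _)]

theorem DS_ne (hVAP : SpecVAP) (hS : S.Ok) (hp : p ∈ S.Om) : DS S p ≠ 0 := by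
  obtain ⟨n1, -, n3⟩ := hVAP.ne S p Finset.univ hS hp
  exact mul_ne_zero n3 n1

theorem D_ne (hVAP : SpecVAP) (hAUV : SpecAUV) (hS : S.Ok) (hp : p ∈ S.Om)
    (U : Finset (Fin S.r)) : S.Dx E p U ≠ 0 := by
  obtain ⟨n1, -, n3⟩ := hVAP.ne S p (S.Jx E p ∪ U) hS hp
  exact mul_ne_zero (mul_ne_zero n3 n1) (aux hAUV hS hp U).2.2.1

/-- The set `P`. -/
noncomputable def PP (S : Dat F) (E E' : 𝓞 F × 𝓞 F) (p : Fin S.r → Pl F) (K' : Finset (Pl F))
    (i0 : Fin S.r) (A : Finset (Finset (Fin S.r))) : Finset (Pl F) :=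
  (Finset.univ.filter (fun i => ty (p i) E = 1)).image p ∪ A.biUnion (fun U => ax S E p U) ∪
    (S.Ls E' K' p i0).filter (fun q => Y3 q E)

/-- The set `Q`. -/
noncomputable def QQ (S : Dat F) (E E' : 𝓞 F × 𝓞 F) (p : Fin S.r → Pl F) (K' : Finset (Pl F))
    (i0 : Fin S.r) : Finset (Pl F) :=
  (S.Ux E p).image p ∪ (S.Ls E' K' p i0).filter (fun q => Y12 q E)

theorem notJ_of_ty {i : Fin S.r} {t : ℕ} (h : ty (p i) E = t) (ht : t ≠ 2) : i ∉ S.Jx E p := by
  intro hi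
  have := (Finset.mem_filter.1 hi).2
  rw [h] at this
  exact ht this

theorem qq (hTYZ : SpecTYZ) (hS : S.Ok) (hp : p ∈ S.Om) {E' : 𝓞 F × 𝓞 F} {K' : Finset (Pl F)}
    {i0 : Fin S.r} (hi0 : i0 ∉ S.Jx E p) {q : Pl F} (hq : q ∈ QQ S E E' p K' i0) :
    q ∉ S.Kx E p ∧ Y12 q E := by
  rcases Finset.mem_union.1 hq with h | h
  · obtain ⟨i, hi, rfl⟩ := Finset.mem_image.1 h
    have ht := (Finset.mem_filter.1 hi).2
    exact ⟨not_mem_K hS hp (notJ_of_ty ht (by decide)) (mem_L hp i), (hTYZ.t0 F _ _).1 ht⟩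
  · obtain ⟨h1, h2⟩ := Finset.mem_filter.1 h
    have h3 : q ∈ S.L i0 := (Finset.mem_filter.1 h1).1
    exact ⟨not_mem_K hS hp hi0 h3, h2⟩

theorem pq (hTYZ : SpecTYZ) (hAUV : SpecAUV) (hS : S.Ok) (hp : p ∈ S.Om) {E' : 𝓞 F × 𝓞 F}
    {K' : Finset (Pl F)} {i0 : Fin S.r} (hi0 : i0 ∉ S.Jx E p) {A : Finset (Finset (Fin S.r))}
    (hAok : ∀ U ∈ A, S.Aok E p U) {q : Pl F} (hq : q ∈ PP S E E' p K' i0 A) :
    q ∉ S.Kx E p ∧ Y3 q E := by
  rcases Finset.mem_union.1 hq with h | h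
  · rcases Finset.mem_union.1 h with h | h
    · obtain ⟨i, hi, rfl⟩ := Finset.mem_image.1 h
      have ht := (Finset.mem_filter.1 hi).2
      have hK := not_mem_K hS hp (notJ_of_ty ht (by decide)) (mem_L hp i)
      exact ⟨hK, (hTYZ.t1 F _ _ (six_of hS (fun h => hK (M0_K h)))).1 ht⟩
    · obtain ⟨U, hU, hqU⟩ := Finset.mem_biUnion.1 h
      exact ⟨((aux hAUV hS hp U).1 q hqU).1, (hAok U hU).2 q hqU⟩
  · obtain ⟨h1, h2⟩ := Finset.mem_filter.1 h
    have h3 : q ∈ S.L i0 := (Finset.mem_filter.1 h1).1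
    exact ⟨not_mem_K hS hp hi0 h3, h2⟩

theorem Ls_pos (hp : p ∈ S.Om) (E' : 𝓞 F × 𝓞 F) (K' : Finset (Pl F)) (i0 : Fin S.r) :
    (0 : ℝ) < ((S.Ls E' K' p i0).card : ℝ) := by
  have hL : 0 < (S.Ls E' K' p i0).card := by
    apply Finset.card_pos.2
    exact ⟨p i0, Finset.mem_filter.2 ⟨mem_L hp i0, rfl, rfl⟩⟩
  exact_mod_cast hL

theorem cf (hTYZ : SpecTYZ) (hAUV : SpecAUV) (hS : S.Ok) (hp : p ∈ S.Om) (hsf : Sf S.M0 E)
    {η κ : ℝ} (hκ : κ < 1 / 3) (E' : 𝓞 F × 𝓞 F) (K' : Finset (Pl F)) {i0 : Fin S.r}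
    (hi0 : i0 ∉ S.Jx E p) (hN : S.Nd η κ E E' p K' i0 ∅) (A : Finset (Finset (Fin S.r)))
    (hAok : ∀ U ∈ A, S.Aok E p U) :
    PT.Cf (S.Kx E p) (QQ S E E' p K' i0) (PP S E E' p K' i0 A) E.1 E.2 where
  six := by
    intro v h6
    by_contra hv
    exact six_of hS (fun h => hv (M0_K h)) h6
  qm := fun v hv => (qq hTYZ hS hp hi0 hv).1
  pm := fun v hv => (pq hTYZ hAUV hS hp hi0 hAok hv).1
  qp := by
    intro v hv hv'
    obtain ⟨h1, h2⟩ := qq hTYZ hS hp hi0 hv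
    obtain ⟨-, h3⟩ := pq hTYZ hAUV hS hp hi0 hAok hv'
    have h6 := six_of hS (fun h => h1 (M0_K h))
    exact (hTYZ.x3 F v h6 _ ((hTYZ.e3 F v E).1 h3)).1 ((hTYZ.e12 F v E).1 h2)
  ne := by
    have hL' := Ls_pos hp E' K' i0
    have ht := hN.t3
    rw [abs_le] at ht
    have h1 : 0 < ((S.Ls E' K' p i0).filter (fun q => Y3 q E)).card := by
      by_contra h
      have h0 : ((S.Ls E' K' p i0).filter (fun q => Y3 q E)).card = 0 := by omega
      rw [h0] at ht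
      push_cast at ht
      nlinarith [ht.1]
    obtain ⟨q, hq⟩ := Finset.card_pos.1 h1
    exact ⟨q, Finset.mem_union_right _ hq⟩
  t12 := fun v hv => (qq hTYZ hS hp hi0 hv).2
  t3 := fun v hv => (pq hTYZ hAUV hS hp hi0 hAok hv).2
  sf := fun v hv => hsf v (fun h => hv (M0_K h))

theorem adm (hCLM : SpecCLM) (hVAP : SpecVAP) (hAUV : SpecAUV) (hS : S.Ok) (hp : p ∈ S.Om)
    (E' : 𝓞 F × 𝓞 F) (K' : Finset (Pl F)) (i0 : Fin S.r)
    (A : Finset (Finset (Fin S.r))) (U : Finset (Fin S.r)) (hU : U ∈ A) :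
    Ad (S.Kx E p) (PP S E E' p K' i0 A) (U.image p) (DS S p) (S.Dx E p U) where
  ne := D_ne hVAP hAUV hS hp U
  sq := by
    obtain ⟨-, h2, h3, -⟩ := aux (E := E) hAUV hS hp U
    obtain ⟨n1, n2, n3⟩ := hVAP.ne S p (S.Jx E p ∪ U) hS hp
    have e : ((S.Dx E p U * DS S p : 𝓞 F) : F) =
        (S.G.mx (S.Mx E p U) E : F) * (oth S E p U : F) *
          ((S.D1 : F) * (S.pp p (S.Jx E p ∪ U) : F)) ^ 2 := by
      rw [DS_eq (E := E) hVAP U, Dat.Dx, cmul, cmul, cmul, cmul, cmul]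
      ring
    rw [e, hCLM.lsq _ _ _ (mul_ne_zero (cne n3) n2)]
    exact (hCLM.eq _ _ _ (cne h3) (hVAP.ne S p _ hS hp).2.1).1 h2
  ex := by
    intro q hq
    obtain ⟨i, hi, rfl⟩ := Finset.mem_image.1 hq
    obtain ⟨hiL, hiM, hiG, hiA⟩ := (hVAP.inj S p hS hp).2 i
    obtain ⟨h1, -, -, h4⟩ := aux (E := E) hAUV hS hp U
    rw [Dat.Dx, vv_mul, vv_mul, hVAP.d1 S hS _ hiM,
      (hVAP.val S p (S.Jx E p ∪ U) hS hp).1 i (Finset.mem_union_right _ hi),
      h4 _ hiM (fun h => (h1 _ h).2 i hiL), one_mul, mul_one]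
  un := by
    intro v hvK hvP hvT
    have hvM : v ∉ S.M0 := fun h => hvK (M0_K h)
    obtain ⟨-, -, -, h4⟩ := aux (E := E) hAUV hS hp U
    rw [Dat.Dx, vv_mul, vv_mul, hVAP.d1 S hS _ hvM,
      (hVAP.val S p (S.Jx E p ∪ U) hS hp).2 v (fun h => hvM (hS.gs h)) ?_, h4 v hvM ?_, one_mul,
      mul_one]
    · intro h
      exact hvP (Finset.mem_union_left _ (Finset.mem_union_right _
        (Finset.mem_biUnion.2 ⟨U, hU, h⟩)))
    · intro i hi he
      rcases Finset.mem_union.1 hi with h | h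
      · exact hvK (he ▸ mem_K i h)
      · exact hvT (he ▸ Finset.mem_image_of_mem p h)

theorem adm_DS (hCLM : SpecCLM) (hVAP : SpecVAP) (hS : S.Ok) (hp : p ∈ S.Om)
    (h3 : ∀ j, ty (p j) E ≠ 3)
    (E' : 𝓞 F × 𝓞 F) (K' : Finset (Pl F)) (i0 : Fin S.r) (A : Finset (Finset (Fin S.r))) :
    Ad (S.Kx E p) (PP S E E' p K' i0 A) ((S.Ux E p).image p) (DS S p) (DS S p) where
  ne := DS_ne hVAP hS hp
  sq := by
    rw [cmul, ← sq]
    exact hCLM.one _ _
  ex := by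
    intro q hq
    obtain ⟨i, hi, rfl⟩ := Finset.mem_image.1 hq
    obtain ⟨hiL, hiM, hiG, hiA⟩ := (hVAP.inj S p hS hp).2 i
    rw [DS, vv_mul, hVAP.d1 S hS _ hiM,
      (hVAP.val S p Finset.univ hS hp).1 i (Finset.mem_univ _), one_mul]
  un := by
    intro v hvK hvP hvT
    have hvM : v ∉ S.M0 := fun h => hvK (M0_K h)
    rw [DS, vv_mul, hVAP.d1 S hS _ hvM,
      (hVAP.val S p Finset.univ hS hp).2 v (fun h => hvM (hS.gs h)) ?_, one_mul]
    intro j _ he
    rcases ty_cases (p j) E with h | h | h | h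
    · exact hvT (he ▸ Finset.mem_image_of_mem _ (Finset.mem_filter.2 ⟨Finset.mem_univ _, h⟩))
    · exact hvP (he ▸ Finset.mem_union_left _ (Finset.mem_union_left _ (Finset.mem_image_of_mem _
        (Finset.mem_filter.2 ⟨Finset.mem_univ _, h⟩))))
    · exact hvK (he ▸ mem_K j (Finset.mem_filter.2 ⟨Finset.mem_univ _, h⟩))
    · exact h3 j h

theorem good (hp : p ∈ S.Om) {η κ : ℝ} (hη : η < 1 / 2) (hκ : κ < 1 / 3)
    (E' : 𝓞 F × 𝓞 F) (K' : Finset (Pl F)) (i0 : Fin S.r) (hN : S.Nd η κ E E' p K' i0 ∅)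
    (z : Sel 2 (cO E.1 E.2 (S.Dx E p ∅)))
    (hz : ∀ q ∈ QQ S E E' p K' i0, TrO (S.Dx E p ∅) q z) : z = 0 := by
  by_contra hz0
  have hu := hN.uni z hz0
  have ht := hN.t12
  have e : (S.Ls E' K' p i0).filter (fun q => Y12 q E ∧ TrO (S.Dx E p ∅) q z) =
      (S.Ls E' K' p i0).filter (fun q => Y12 q E) := by
    apply Finset.filter_congr
    intro q hq
    constructor
    · exact fun h => h.1
    · intro h
      exact ⟨h, hz q (Finset.mem_union_right _ (Finset.mem_filter.2 ⟨hq, h⟩))⟩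
  have hu' : |(((S.Ls E' K' p i0).filter (fun q => Y12 q E)).card : ℝ) -
      (((S.Ls E' K' p i0).filter (fun q => Y12 q E)).card : ℝ) / 2| ≤
      η * (((S.Ls E' K' p i0).filter (fun q => Y12 q E)).card : ℝ) := by
    have hu2 : |(((S.Ls E' K' p i0).filter
        (fun q => Y12 q E ∧ TrO (S.Dx E p ∅) q z)).card : ℝ) -
      (((S.Ls E' K' p i0).filter (fun q => Y12 q E)).card : ℝ) / 2| ≤
      η * (((S.Ls E' K' p i0).filter (fun q => Y12 q E)).card : ℝ) := hu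
    rw [show ((S.Ls E' K' p i0).filter (fun q => Y12 q E ∧ TrO (S.Dx E p ∅) q z)).card =
      ((S.Ls E' K' p i0).filter (fun q => Y12 q E)).card from congrArg Finset.card e] at hu2
    exact hu2
  have hL' := Ls_pos hp E' K' i0
  have hN0 : (0 : ℝ) ≤ (((S.Ls E' K' p i0).filter (fun q => Y12 q E)).card : ℝ) :=
    Nat.cast_nonneg _
  rw [abs_le] at hu' ht
  have h1 : (((S.Ls E' K' p i0).filter (fun q => Y12 q E)).card : ℝ) = 0 := by
    nlinarith [hu'.2]
  rw [h1] at ht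
  nlinarith [ht.1]

end

end NSTM

open NSTM in
theorem specNST (hSTP : SpecSTP) (hCLM : SpecCLM) (hVAP : SpecVAP) (hAUV : SpecAUV)
    (hTYZ : SpecTYZ) : SpecNST := by
  intro F _ _ S η κ E E' p K' i0 hS hp _ hη hκ hsf _ h3 hi0 hN
  have hA0 : S.Aok E p ∅ := hN.aux
  have hgood := good (E := E) hp hη hκ E' K' i0 hN
  have hG : Gm (S.Kx E p) := fun v hv => S.G.six v (fun h => hv (M0_K (hS.gs h)))
  have key : ∀ A : Finset (Finset (Fin S.r)), ∅ ∈ A → (∀ U ∈ A, S.Aok E p U) →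
      (∀ T ⊆ QQ S E E' p K' i0, ∀ D D' : 𝓞 F,
        Ad (S.Kx E p) (PP S E E' p K' i0 A) T (DS S p) D →
        Ad (S.Kx E p) (PP S E E' p K' i0 A) T (DS S p) D' → sc E D = sc E D') ∧
      ∀ T ⊆ QQ S E E' p K' i0, ∀ v ∈ QQ S E E' p K' i0, v ∉ T → ∀ D D' : 𝓞 F,
        Ad (S.Kx E p) (PP S E E' p K' i0 A) T (DS S p) D →
        Ad (S.Kx E p) (PP S E E' p K' i0 A) (insert v T) (DS S p) D' →
      ((∀ z : Sel 2 (cO E.1 E.2 D), TrO D v z) → sc E D' = 2 * sc E D) ∧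
      (¬ (∀ z : Sel 2 (cO E.1 E.2 D), TrO D v z) → 2 * sc E D' = sc E D) := by
    intro A hA hAok
    apply hSTP F (S.Kx E p) (QQ S E E' p K' i0) (PP S E E' p K' i0 A) (DS S p) E.1 E.2 hG
      (cf hTYZ hAUV hS hp hsf hκ E' K' hi0 hN A hAok) (DS_ne hVAP hS hp)
    refine ⟨S.Dx E p ∅, ?_, hgood⟩
    have := adm (E := E) hCLM hVAP hAUV hS hp E' K' i0 A ∅ hA
    rwa [Finset.image_empty] at this
  constructor
  · intro U i hU hi hiU hAU hAi
    have hk := (key {∅, U, insert i U} (by simp) (by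
      intro V hV
      simp only [Finset.mem_insert, Finset.mem_singleton] at hV
      rcases hV with rfl | rfl | rfl
      · exact hA0
      · exact hAU
      · exact hAi)).2
    have hTQ : U.image p ⊆ QQ S E E' p K' i0 :=
      (Finset.image_subset_image hU).trans Finset.subset_union_left
    have hvQ : p i ∈ QQ S E E' p K' i0 :=
      Finset.mem_union_left _ (Finset.mem_image_of_mem _ hi)
    have hvT : p i ∉ U.image p := by
      intro h
      obtain ⟨j, hj, he⟩ := Finset.mem_image.1 h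
      have hij : i ≠ j := fun h => hiU (h ▸ hj)
      exact ne_of_mem hS hp hij (mem_L hp i) he.symm
    have h2 := adm (E := E) hCLM hVAP hAUV hS hp E' K' i0 {∅, U, insert i U} (insert i U) (by simp)
    rw [Finset.image_insert] at h2
    exact hk _ hTQ (p i) hvQ hvT _ _
      (adm (E := E) hCLM hVAP hAUV hS hp E' K' i0 _ U (by simp)) h2
  · intro hAU
    have hk := (key {∅, S.Ux E p} (by simp) (by
      intro V hV
      simp only [Finset.mem_insert, Finset.mem_singleton] at hV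
      rcases hV with rfl | rfl
      · exact hA0
      · exact hAU)).1
    exact hk ((S.Ux E p).image p) Finset.subset_union_left _ _
      (adm_DS hCLM hVAP hS hp h3 E' K' i0 _)
      (adm (E := E) hCLM hVAP hAUV hS hp E' K' i0 _ (S.Ux E p) (by simp))

end Pool.Agent.Lib.MP_8cb858_nt.PU
end

section
/-! Module STR: Theorem S*. -/
set_option autoImplicit false

namespace Pool.Agent.Lib.MP_8cb858_nt.PU

open Polynomial NumberField IsDedekindDomain Pool.Agent.Lib.MP_8cb858_nt.SEL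
open Pool.Agent.Lib.MP_8cb858_nt.PF
open scoped Classical WithZero

namespace STRM

/-- the double sum of the errors -/
theorem pair_sum {X Y : Type} (Ω : Finset X) (Ex : Finset Y) (F : Y → Y → X → ℝ) (c : ℝ)
    (hc : |c| ≤ 1) (hF : ∀ E E' p, |F E E' p| ≤ 1) (δ C : ℝ) (hC : 0 < C)
    (G : Y → Prop) (Bad : Y → Y → Finset X)
    (hgood : ∀ E ∈ Ex, ∀ E' ∈ Ex, G E → G E' →
      |∑ p ∈ Ω, F E E' p - c * (Ω.card : ℝ)| ≤ δ / 4 * (Ω.card : ℝ) + C * ((Bad E E').card : ℝ))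
    (hδ : 0 < δ)
    (hG : ((Ex.filter (fun E => ¬ G E)).card : ℝ) ≤ δ / 16 * (Ex.card : ℝ))
    (hBad : (∑ E ∈ Ex, ∑ E' ∈ Ex, ((Bad E E').card : ℝ)) ≤
      δ / (4 * C) * (Ex.card : ℝ) ^ 2 * (Ω.card : ℝ)) :
    |∑ p ∈ Ω, ∑ E ∈ Ex, ∑ E' ∈ Ex, F E E' p - c * (Ω.card : ℝ) * (Ex.card : ℝ) ^ 2| ≤
      δ * (Ω.card : ℝ) * (Ex.card : ℝ) ^ 2 := by
  have hΩ : (0 : ℝ) ≤ (Ω.card : ℝ) := Nat.cast_nonneg _
  have hE0 : (0 : ℝ) ≤ (Ex.card : ℝ) := Nat.cast_nonneg _
  have h1 : ∑ p ∈ Ω, ∑ E ∈ Ex, ∑ E' ∈ Ex, F E E' p - c * (Ω.card : ℝ) * (Ex.card : ℝ) ^ 2 =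
      ∑ E ∈ Ex, ∑ E' ∈ Ex, (∑ p ∈ Ω, F E E' p - c * (Ω.card : ℝ)) := by
    have h2 : ∑ p ∈ Ω, ∑ E ∈ Ex, ∑ E' ∈ Ex, F E E' p =
        ∑ E ∈ Ex, ∑ E' ∈ Ex, ∑ p ∈ Ω, F E E' p := by
      rw [Finset.sum_comm]
      refine Finset.sum_congr rfl fun E _ => ?_
      rw [Finset.sum_comm]
    rw [h2]
    simp only [Finset.sum_sub_distrib, Finset.sum_const, nsmul_eq_mul]
    ring
  rw [h1]
  have hterm : ∀ E ∈ Ex, ∀ E' ∈ Ex, |∑ p ∈ Ω, F E E' p - c * (Ω.card : ℝ)| ≤
      δ / 4 * (Ω.card : ℝ) + C * ((Bad E E').card : ℝ) +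
        (if ¬ G E then 2 * (Ω.card : ℝ) else 0) + (if ¬ G E' then 2 * (Ω.card : ℝ) else 0) := by
    intro E hE E' hE'
    have hB : (0 : ℝ) ≤ C * ((Bad E E').card : ℝ) := mul_nonneg hC.le (Nat.cast_nonneg _)
    have hD : (0 : ℝ) ≤ δ / 4 * (Ω.card : ℝ) := by positivity
    have htriv : |∑ p ∈ Ω, F E E' p - c * (Ω.card : ℝ)| ≤ 2 * (Ω.card : ℝ) := by
      have h3 : |∑ p ∈ Ω, F E E' p| ≤ (Ω.card : ℝ) := by
        calc |∑ p ∈ Ω, F E E' p| ≤ ∑ p ∈ Ω, |F E E' p| := Finset.abs_sum_le_sum_abs _ _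
          _ ≤ ∑ _p ∈ Ω, (1 : ℝ) := Finset.sum_le_sum fun p _ => hF E E' p
          _ = (Ω.card : ℝ) := by simp
      have h4 : |c * (Ω.card : ℝ)| ≤ (Ω.card : ℝ) := by
        rw [abs_mul, abs_of_nonneg hΩ]
        have := mul_le_mul_of_nonneg_right hc hΩ
        linarith
      have h5 := abs_sub (∑ p ∈ Ω, F E E' p) (c * (Ω.card : ℝ))
      linarith
    by_cases h6 : G E
    · by_cases h7 : G E'
      · have := hgood E hE E' hE' h6 h7
        rw [if_neg (not_not.2 h6), if_neg (not_not.2 h7)]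
        linarith
      · rw [if_neg (not_not.2 h6), if_pos h7]
        linarith
    · rw [if_pos h6]
      have : (0 : ℝ) ≤ (if ¬ G E' then 2 * (Ω.card : ℝ) else 0) := by
        split_ifs
        · exact le_refl (0 : ℝ)
        · positivity
      linarith
  have h8 : |∑ E ∈ Ex, ∑ E' ∈ Ex, (∑ p ∈ Ω, F E E' p - c * (Ω.card : ℝ))| ≤
      ∑ E ∈ Ex, ∑ E' ∈ Ex, (δ / 4 * (Ω.card : ℝ) + C * ((Bad E E').card : ℝ) +
        (if ¬ G E then 2 * (Ω.card : ℝ) else 0) + (if ¬ G E' then 2 * (Ω.card : ℝ) else 0)) := by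
    refine le_trans (Finset.abs_sum_le_sum_abs _ _) (Finset.sum_le_sum fun E hE => ?_)
    refine le_trans (Finset.abs_sum_le_sum_abs _ _) (Finset.sum_le_sum fun E' hE' => ?_)
    exact hterm E hE E' hE'
  have h9 : ∑ E ∈ Ex, ∑ E' ∈ Ex, (δ / 4 * (Ω.card : ℝ) + C * ((Bad E E').card : ℝ) +
        (if ¬ G E then 2 * (Ω.card : ℝ) else 0) + (if ¬ G E' then 2 * (Ω.card : ℝ) else 0)) =
      δ / 4 * (Ω.card : ℝ) * (Ex.card : ℝ) ^ 2 +
        C * (∑ E ∈ Ex, ∑ E' ∈ Ex, ((Bad E E').card : ℝ)) +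
        4 * (Ω.card : ℝ) * (Ex.card : ℝ) * ((Ex.filter (fun E => ¬ G E)).card : ℝ) := by
    have h10 : ∑ E ∈ Ex, (if ¬ G E then 2 * (Ω.card : ℝ) else 0) =
        2 * (Ω.card : ℝ) * ((Ex.filter (fun E => ¬ G E)).card : ℝ) := by
      rw [← Finset.sum_filter, Finset.sum_const, nsmul_eq_mul]
      ring
    simp only [Finset.sum_add_distrib, Finset.sum_const, nsmul_eq_mul, h10, ← Finset.mul_sum]
    ring
  rw [h9] at h8
  have h11 : C * (∑ E ∈ Ex, ∑ E' ∈ Ex, ((Bad E E').card : ℝ)) ≤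
      δ / 4 * (Ω.card : ℝ) * (Ex.card : ℝ) ^ 2 := by
    have h12 := mul_le_mul_of_nonneg_left hBad hC.le
    have h13 : C * (δ / (4 * C) * (Ex.card : ℝ) ^ 2 * (Ω.card : ℝ)) =
        δ / 4 * (Ω.card : ℝ) * (Ex.card : ℝ) ^ 2 := by
      field_simp
    linarith
  have h14 : 4 * (Ω.card : ℝ) * (Ex.card : ℝ) * ((Ex.filter (fun E => ¬ G E)).card : ℝ) ≤
      δ / 4 * (Ω.card : ℝ) * (Ex.card : ℝ) ^ 2 := by
    have h15 := mul_le_mul_of_nonneg_left hG
      (show (0 : ℝ) ≤ 4 * (Ω.card : ℝ) * (Ex.card : ℝ) by positivity)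
    have h16 : 4 * (Ω.card : ℝ) * (Ex.card : ℝ) * (δ / 16 * (Ex.card : ℝ)) =
        δ / 4 * (Ω.card : ℝ) * (Ex.card : ℝ) ^ 2 := by ring
    linarith
  have h17 : (0 : ℝ) ≤ δ * (Ω.card : ℝ) * (Ex.card : ℝ) ^ 2 := by positivity
  nlinarith [h8, h11, h14, h17]

theorem log_iff {s d : ℕ} {c : ℕ} (h : c = 2 ^ s) : c = 2 ^ d ↔ Nat.log 2 c = d := by
  rw [h, Nat.log_pow (by norm_num)]
  constructor
  · intro h1
    exact Nat.pow_right_injective (le_refl 2) h1
  · rintro rfl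
    rfl

/-- the number of triples -/
theorem triples {A B : Type} (H : Set A) (hH : H.Finite) (Ω : Finset B)
    (P : A → A → B → Prop) :
    (∑ E ∈ hH.toFinset, ∑ E' ∈ hH.toFinset, ((Ω.filter (fun p => P E E' p)).card : ℝ)) =
      ({t : A × A × B | t.1 ∈ H ∧ t.2.1 ∈ H ∧ t.2.2 ∈ Ω ∧ P t.1 t.2.1 t.2.2}.ncard : ℝ) := by
  have h1 : {t : A × A × B | t.1 ∈ H ∧ t.2.1 ∈ H ∧ t.2.2 ∈ Ω ∧ P t.1 t.2.1 t.2.2} =
      (((hH.toFinset ×ˢ hH.toFinset ×ˢ Ω).filter (fun t => P t.1 t.2.1 t.2.2) :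
        Finset (A × A × B)) : Set (A × A × B)) := by
    ext t
    simp only [Set.mem_ofPred_eq, Finset.coe_filter, Finset.mem_product, Set.Finite.mem_toFinset,
      and_assoc]
  rw [h1, Set.ncard_coe_finset, Finset.card_filter, Finset.sum_product]
  push_cast
  refine Finset.sum_congr rfl fun E _ => ?_
  rw [Finset.sum_product]
  refine Finset.sum_congr rfl fun E' _ => ?_
  rw [Finset.card_filter]
  push_cast
  rfl

end STRM

/-- **STA.** -/
theorem specSTA (hPAI : SpecPAI) (hBDM : SpecBDM) (hSMM : PT.SpecSMM) (hTLZ : SpecTLZ)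
    (hEQZ : SpecEQZ) (hGEN : SpecGEN) (hAUX : SpecAUX) (hNUM : SpecNUM) (hKPM : PT.SpecKPM)
    (hVAP : SpecVAP) (hDNV : PF.SpecDNV) : SpecSTA := by
  intro F _ _ G ε hε
  obtain ⟨δ, hδ, hS⟩ := hSMM ε hε
  obtain ⟨n, η, κ, C, hn, hη, hκ, hκ1, hC, hP⟩ := hPAI (δ / 4) (by positivity)
  obtain ⟨r1, hB⟩ := hBDM F G n η κ (δ / (4 * C)) hn hη hκ hκ1 (by positivity)
  obtain ⟨M, X1, hT⟩ := hTLZ F (δ / 16) (by positivity)
  obtain ⟨c0, hnum⟩ := hNUM F
  have hfN : {v : Pl F | (nv v : ℝ) ≤ M}.Finite := (hDNV F).2.2.1 M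
  set N0 : Finset (Pl F) := G.S ∪ hfN.toFinset with hN0
  refine ⟨40 * n + 2 * r1 * (N0.card + c0 + 1) + M + 1, ?_⟩
  intro r u A1 L hr hu hA1 hrA hL hcard hdis
  set r0 : ℕ := 40 * n + 2 * r1 * (N0.card + c0 + 1) + M + 1 with hr0
  have hrpos : 0 < r := by omega
  have hr1 : (1 : ℝ) ≤ r := by exact_mod_cast hrpos
  have e1 : 2 * r1 * (N0.card + c0 + 1) = 2 * (r1 * N0.card) + 2 * (r1 * c0) + 2 * r1 := by ring
  have h2r1 : 2 * r1 ≤ r0 := by omega
  have hr1r0 : r1 ≤ r0 := by omega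
  have hexp1 : Real.exp (r1 * r) ≤ Real.exp (r0 * r) := by
    apply Real.exp_le_exp.2
    have : (r1 : ℝ) ≤ r0 := by exact_mod_cast hr1r0
    exact mul_le_mul_of_nonneg_right this (by linarith)
  have hexpM : (M : ℝ) < Real.exp (r0 * r) := by
    have h1 : (r0 : ℝ) * r + 1 ≤ Real.exp (r0 * r) := Real.add_one_le_exp _
    have h2 : (r0 : ℝ) * 1 ≤ (r0 : ℝ) * r := mul_le_mul_of_nonneg_left hr1 (Nat.cast_nonneg _)
    have h3 : (M : ℝ) ≤ r0 := by
      have : M ≤ r0 := by omega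
      exact_mod_cast this
    linarith
  obtain ⟨mm, hmm⟩ := hAUX F G c0 hnum r1 (Finset.univ.biUnion L)
  let S : Dat F := ⟨G, r, c0, N0 ∪ A1, u, A1, L, mm⟩
  have hGM : ∀ K : Finset (Pl F), N0 ∪ A1 ⊆ K → G.S ⊆ K := by
    intro K hK v hv
    exact hK (Finset.mem_union_left _ (Finset.mem_union_left _ hv))
  have hOk : S.Ok := by
    refine ⟨hrpos, hGM _ (Finset.Subset.refl _), hu, fun v hv => ⟨Finset.mem_union_right _ hv,
      hA1 v hv⟩, ?_, hdis, hnum, ?_⟩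
    · intro i q hq hq0
      obtain ⟨h1, h2, h3⟩ := hL i q hq
      change q ∈ N0 ∪ A1 at hq0
      rw [Finset.mem_union, hN0, Finset.mem_union, Set.Finite.mem_toFinset] at hq0
      rcases hq0 with (h4 | h4) | h4
      · exact h1 h4
      · rw [Set.mem_ofPred_eq] at h4
        linarith
      · exact h3 h4
    · intro K x hK hx hc
      obtain ⟨h1, h2⟩ := hmm K x (hGM K hK) hx hc
      refine ⟨h1, fun j => ?_⟩
      obtain ⟨h3, h4, h5, h6⟩ := h2 j
      refine ⟨h3, h4, fun v hv => ⟨(h5 v hv).1, fun i hi => (h5 v hv).2.1 ?_⟩, h6⟩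
      exact Finset.mem_biUnion.2 ⟨i, Finset.mem_univ _, hi⟩
  have hBig : Big S r1 := by
    refine ⟨hOk, le_trans hr1r0 hr, ?_, ?_, ?_, ?_, ?_, ?_⟩
    · exact le_trans (Nat.mul_le_mul_right _ hr1r0) hrA
    · have h1 : (N0 ∪ A1).card ≤ N0.card + A1.card := Finset.card_union_le _ _
      have h2 : 2 * (r1 * A1.card) ≤ r := by
        have h3 : 2 * r1 * A1.card ≤ r0 * A1.card := Nat.mul_le_mul_right _ h2r1
        calc 2 * (r1 * A1.card) = 2 * r1 * A1.card := by ring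
          _ ≤ _ := h3
          _ ≤ r := hrA
      have h4 : 2 * (r1 * N0.card) ≤ r := by omega
      have h6 : r1 * (N0 ∪ A1).card ≤ r1 * (N0.card + A1.card) := Nat.mul_le_mul_left _ h1
      rw [Nat.mul_add] at h6
      change r1 * (N0 ∪ A1).card ≤ r
      omega
    · change r1 * c0 ≤ r
      omega
    · intro i q hq
      exact le_trans hexp1 (hL i q hq).2.1
    · intro i
      exact le_trans hexp1 (hcard i)
    · intro K x hK hx hc j v hv
      exact (((hmm K x (hGM K hK) hx hc).2 j).2.2.1 v hv).2.2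
  obtain ⟨X0, hX0⟩ := hB S rfl hBig
  refine ⟨max (max X0 X1) 1, fun ρ hρ => ?_⟩
  have hXX0 : ∀ v, X0 ≤ ρ v := fun v =>
    le_trans (le_trans (le_max_left _ _) (le_max_left _ _)) (hρ v)
  have hXX1 : ∀ v, X1 ≤ ρ v := fun v =>
    le_trans (le_trans (le_max_right _ _) (le_max_left _ _)) (hρ v)
  have hX1 : ∀ v, 1 ≤ ρ v := fun v => le_trans (le_max_right _ _) (hρ v)
  have hfin := (hEQZ F).1 ρ
  have hcardH : ((Bx F ρ).ncard : ℝ) = (hfin.toFinset.card : ℝ) := by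
    rw [Set.ncard_eq_toFinset_card _ hfin]
  have hne : hfin.toFinset.Nonempty := by
    rw [← Finset.card_pos, ← Set.ncard_eq_toFinset_card _ hfin]
    exact (hEQZ F).2.1 ρ hX1
  have hne0 : ∀ p ∈ Fintype.piFinset L, S.D1 * S.pp p Finset.univ ≠ 0 := by
    intro p hp
    obtain ⟨h1, _, h3⟩ := hVAP.ne S p Finset.univ hOk hp
    exact mul_ne_zero h3 h1
  have him : ∀ p ∈ Fintype.piFinset L,
      G.tw u (A1 ∪ Finset.univ.image p) = S.D1 * S.pp p Finset.univ := fun p hp =>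
    (hVAP.im S p Finset.univ hOk hp).symm
  have hmain := hS (Fin r → Pl F) (𝓞 F × 𝓞 F) (Fintype.piFinset L) hfin.toFinset
    (fun E p => Nat.log 2 (sc E (S.D1 * S.pp p Finset.univ))) hne ?_
  · have hcardΩ : ((Fintype.piFinset L).card : ℝ) = ∏ i, ((L i).card : ℝ) := by
      rw [Fintype.card_piFinset]
      push_cast
      rfl
    rw [← hcardΩ]
    refine le_trans (le_of_eq ?_) hmain
    congr 1
    refine congrArg Finset.card (Finset.filter_congr fun p hp => ?_)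
    have hprop : ∀ d : ℕ, prop ρ (G.tw u (A1 ∪ Finset.univ.image p)) d =
        ((hfin.toFinset.filter (fun E : 𝓞 F × 𝓞 F =>
          Nat.log 2 (sc E (S.D1 * S.pp p Finset.univ)) = d)).card : ℝ) /
            (hfin.toFinset.card : ℝ) := by
      intro d
      unfold prop
      rw [hcardH, him p hp]
      congr 2
      rw [← Set.ncard_coe_finset]
      congr 1
      ext E
      simp only [Finset.coe_filter, Set.Finite.mem_toFinset, Set.mem_ofPred_eq]
      constructor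
      · rintro ⟨h1, h2⟩
        obtain ⟨s, hs⟩ := (hGEN.fin F E _ h1.1 (hne0 p hp)).2.2
        exact ⟨h1, (STRM.log_iff hs).1 h2⟩
      · rintro ⟨h1, h2⟩
        obtain ⟨s, hs⟩ := (hGEN.fin F E _ h1.1 (hne0 p hp)).2.2
        exact ⟨h1, (STRM.log_iff hs).2 h2⟩
    simp only [hprop]
  · intro f g hf hg
    refine STRM.pair_sum (Fintype.piFinset L) hfin.toFinset
      (fun E E' p => f (Nat.log 2 (sc E (S.D1 * S.pp p Finset.univ))) *
        g (Nat.log 2 (sc E' (S.D1 * S.pp p Finset.univ)))) (PT.Lm f * PT.Lm g) ?_ ?_ δ C hC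
      (fun E => Sf S.M0 E)
      (fun E E' => S.Om.filter (fun p => ¬ (S.Gh n η κ 0 E E' p ∧ S.Gh n η κ n E' E p)))
      ?_ hδ ?_ ?_
    · rw [abs_mul]
      exact mul_le_one₀ (hKPM.lmb f hf) (abs_nonneg _) (hKPM.lmb g hg)
    · intro E E' p
      rw [abs_mul]
      exact mul_le_one₀ (hf _) (abs_nonneg _) (hg _)
    · intro E hE E' hE' hsf hsf'
      rw [Set.Finite.mem_toFinset] at hE hE'
      have h40 : 40 * n ≤ S.r := by
        change 40 * n ≤ r
        omega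
      exact hP F S E E' hOk h40 hsf hE.1 hsf' hE'.1 f g hf hg
    · rw [← hcardH]
      refine le_trans ?_ (hT ρ hXX1)
      rw [← Set.ncard_coe_finset]
      refine Nat.cast_le.2 (Set.ncard_le_ncard ?_ (hfin.subset (Set.sep_subset _ _)))
      intro E hE
      rw [Finset.coe_filter, Set.mem_ofPred_eq, Set.Finite.mem_toFinset] at hE
      refine ⟨hE.1, ?_⟩
      have h1 := hE.2
      unfold Sf at h1
      push Not at h1
      obtain ⟨v, h2, h3⟩ := h1
      change v ∉ N0 ∪ A1 at h2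
      rw [Finset.mem_union, hN0, Finset.mem_union, Set.Finite.mem_toFinset, Set.mem_ofPred_eq] at h2
      push Not at h2
      refine ⟨v, (G.six v h2.1.1).1, ?_, h3⟩
      have h4 := h2.1.2
      exact_mod_cast h4
    · have h := STRM.triples (Bx F ρ) hfin S.Om
        (fun E E' p => ¬ (S.Gh n η κ 0 E E' p ∧ S.Gh n η κ n E' E p))
      rw [← hcardH]
      refine le_trans (le_of_eq ?_) (hX0 ρ hXX0)
      convert h

end Pool.Agent.Lib.MP_8cb858_nt.PU
end

section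
/-! Module STD: Theorem S* for dense families of curves. -/
set_option autoImplicit false

namespace Pool.Agent.Lib.MP_8cb858_nt.PU

open Polynomial NumberField IsDedekindDomain Pool.Agent.Lib.MP_8cb858_nt.SEL
open Pool.Agent.Lib.MP_8cb858_nt.PF
open scoped Classical WithZero



/-- **STD.** -/
theorem specSTD (hPAI : SpecPAI) (hBDM : SpecBDM) (hSMM : PT.SpecSMM) (hTLZ : SpecTLZ)
    (hEQZ : SpecEQZ) (hGEN : SpecGEN) (hAUX : SpecAUX) (hNUM : SpecNUM) (hKPM : PT.SpecKPM)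
    (hVAP : SpecVAP) (hDNV : PF.SpecDNV) : SpecSTD := by
  intro F _ _ G ε θ hε hθ
  obtain ⟨δ, hδ, hS⟩ := hSMM ε hε
  obtain ⟨n, η, κ, C, hn, hη, hκ, hκ1, hC, hP⟩ := hPAI (δ / 4) (by positivity)
  obtain ⟨r1, hB⟩ := hBDM F G n η κ (δ / (4 * C) * θ ^ 2) hn hη hκ hκ1 (by positivity)
  obtain ⟨M, X1, hT⟩ := hTLZ F (δ / 16 * θ) (by positivity)
  obtain ⟨c0, hnum⟩ := hNUM F
  have hfN : {v : Pl F | (nv v : ℝ) ≤ M}.Finite := (hDNV F).2.2.1 M
  set N0 : Finset (Pl F) := G.S ∪ hfN.toFinset with hN0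
  refine ⟨40 * n + 2 * r1 * (N0.card + c0 + 1) + M + 1, ?_⟩
  intro r u A1 L hr hu hA1 hrA hL hcard hdis
  set r0 : ℕ := 40 * n + 2 * r1 * (N0.card + c0 + 1) + M + 1 with hr0
  have hrpos : 0 < r := by omega
  have hr1 : (1 : ℝ) ≤ r := by exact_mod_cast hrpos
  have e1 : 2 * r1 * (N0.card + c0 + 1) = 2 * (r1 * N0.card) + 2 * (r1 * c0) + 2 * r1 := by ring
  have h2r1 : 2 * r1 ≤ r0 := by omega
  have hr1r0 : r1 ≤ r0 := by omega
  have hexp1 : Real.exp (r1 * r) ≤ Real.exp (r0 * r) := by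
    apply Real.exp_le_exp.2
    have : (r1 : ℝ) ≤ r0 := by exact_mod_cast hr1r0
    exact mul_le_mul_of_nonneg_right this (by linarith)
  have hexpM : (M : ℝ) < Real.exp (r0 * r) := by
    have h1 : (r0 : ℝ) * r + 1 ≤ Real.exp (r0 * r) := Real.add_one_le_exp _
    have h2 : (r0 : ℝ) * 1 ≤ (r0 : ℝ) * r := mul_le_mul_of_nonneg_left hr1 (Nat.cast_nonneg _)
    have h3 : (M : ℝ) ≤ r0 := by
      have : M ≤ r0 := by omega
      exact_mod_cast this
    linarith
  obtain ⟨mm, hmm⟩ := hAUX F G c0 hnum r1 (Finset.univ.biUnion L)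
  let S : Dat F := ⟨G, r, c0, N0 ∪ A1, u, A1, L, mm⟩
  have hGM : ∀ K : Finset (Pl F), N0 ∪ A1 ⊆ K → G.S ⊆ K := by
    intro K hK v hv
    exact hK (Finset.mem_union_left _ (Finset.mem_union_left _ hv))
  have hOk : S.Ok := by
    refine ⟨hrpos, hGM _ (Finset.Subset.refl _), hu, fun v hv => ⟨Finset.mem_union_right _ hv,
      hA1 v hv⟩, ?_, hdis, hnum, ?_⟩
    · intro i q hq hq0
      obtain ⟨h1, h2, h3⟩ := hL i q hq
      change q ∈ N0 ∪ A1 at hq0
      rw [Finset.mem_union, hN0, Finset.mem_union, Set.Finite.mem_toFinset] at hq0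
      rcases hq0 with (h4 | h4) | h4
      · exact h1 h4
      · rw [Set.mem_ofPred_eq] at h4
        linarith
      · exact h3 h4
    · intro K x hK hx hc
      obtain ⟨h1, h2⟩ := hmm K x (hGM K hK) hx hc
      refine ⟨h1, fun j => ?_⟩
      obtain ⟨h3, h4, h5, h6⟩ := h2 j
      refine ⟨h3, h4, fun v hv => ⟨(h5 v hv).1, fun i hi => (h5 v hv).2.1 ?_⟩, h6⟩
      exact Finset.mem_biUnion.2 ⟨i, Finset.mem_univ _, hi⟩
  have hBig : Big S r1 := by
    refine ⟨hOk, le_trans hr1r0 hr, ?_, ?_, ?_, ?_, ?_, ?_⟩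
    · exact le_trans (Nat.mul_le_mul_right _ hr1r0) hrA
    · have h1 : (N0 ∪ A1).card ≤ N0.card + A1.card := Finset.card_union_le _ _
      have h2 : 2 * (r1 * A1.card) ≤ r := by
        have h3 : 2 * r1 * A1.card ≤ r0 * A1.card := Nat.mul_le_mul_right _ h2r1
        calc 2 * (r1 * A1.card) = 2 * r1 * A1.card := by ring
          _ ≤ _ := h3
          _ ≤ r := hrA
      have h4 : 2 * (r1 * N0.card) ≤ r := by omega
      have h6 : r1 * (N0 ∪ A1).card ≤ r1 * (N0.card + A1.card) := Nat.mul_le_mul_left _ h1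
      rw [Nat.mul_add] at h6
      change r1 * (N0 ∪ A1).card ≤ r
      omega
    · change r1 * c0 ≤ r
      omega
    · intro i q hq
      exact le_trans hexp1 (hL i q hq).2.1
    · intro i
      exact le_trans hexp1 (hcard i)
    · intro K x hK hx hc j v hv
      exact (((hmm K x (hGM K hK) hx hc).2 j).2.2.1 v hv).2.2
  obtain ⟨X0, hX0⟩ := hB S rfl hBig
  refine ⟨max (max X0 X1) 1, fun ρ hρ Φ hΦ hΦθ => ?_⟩
  have hXX0 : ∀ v, X0 ≤ ρ v := fun v =>
    le_trans (le_trans (le_max_left _ _) (le_max_left _ _)) (hρ v)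
  have hXX1 : ∀ v, X1 ≤ ρ v := fun v =>
    le_trans (le_trans (le_max_right _ _) (le_max_left _ _)) (hρ v)
  have hX1 : ∀ v, 1 ≤ ρ v := fun v => le_trans (le_max_right _ _) (hρ v)
  have hfin := (hEQZ F).1 ρ
  have hBpos : (0 : ℝ) < ((Bx F ρ).ncard : ℝ) := by exact_mod_cast (hEQZ F).2.1 ρ hX1
  have hfΦ : Φ.Finite := hfin.subset hΦ
  have hcardH : (Φ.ncard : ℝ) = (hfΦ.toFinset.card : ℝ) := by
    rw [Set.ncard_eq_toFinset_card _ hfΦ]
  have hΦpos : (0 : ℝ) < (Φ.ncard : ℝ) := lt_of_lt_of_le (mul_pos hθ hBpos) hΦθ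
  have hne : hfΦ.toFinset.Nonempty := by
    rw [← Finset.card_pos]
    rw [hcardH] at hΦpos
    exact_mod_cast hΦpos
  have hne0 : ∀ p ∈ Fintype.piFinset L, S.D1 * S.pp p Finset.univ ≠ 0 := by
    intro p hp
    obtain ⟨h1, _, h3⟩ := hVAP.ne S p Finset.univ hOk hp
    exact mul_ne_zero h3 h1
  have him : ∀ p ∈ Fintype.piFinset L,
      G.tw u (A1 ∪ Finset.univ.image p) = S.D1 * S.pp p Finset.univ := fun p hp =>
    (hVAP.im S p Finset.univ hOk hp).symm
  have hmain := hS (Fin r → Pl F) (𝓞 F × 𝓞 F) (Fintype.piFinset L) hfΦ.toFinset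
    (fun E p => Nat.log 2 (sc E (S.D1 * S.pp p Finset.univ))) hne ?_
  · have hcardΩ : ((Fintype.piFinset L).card : ℝ) = ∏ i, ((L i).card : ℝ) := by
      rw [Fintype.card_piFinset]
      push_cast
      rfl
    rw [← hcardΩ]
    refine le_trans (le_of_eq ?_) hmain
    congr 1
    refine congrArg Finset.card (Finset.filter_congr fun p hp => ?_)
    have hprop : ∀ d : ℕ, propS Φ (G.tw u (A1 ∪ Finset.univ.image p) : F) d =
        ((hfΦ.toFinset.filter (fun E : 𝓞 F × 𝓞 F =>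
          Nat.log 2 (sc E (S.D1 * S.pp p Finset.univ)) = d)).card : ℝ) /
            (hfΦ.toFinset.card : ℝ) := by
      intro d
      unfold propS
      rw [hcardH, him p hp]
      congr 2
      rw [← Set.ncard_coe_finset]
      congr 1
      ext E
      simp only [Finset.coe_filter, Set.Finite.mem_toFinset, Set.mem_ofPred_eq]
      constructor
      · rintro ⟨h1, h2⟩
        obtain ⟨s, hs⟩ := (hGEN.fin F E _ (hΦ h1).1 (hne0 p hp)).2.2
        exact ⟨h1, (STRM.log_iff hs).1 h2⟩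
      · rintro ⟨h1, h2⟩
        obtain ⟨s, hs⟩ := (hGEN.fin F E _ (hΦ h1).1 (hne0 p hp)).2.2
        exact ⟨h1, (STRM.log_iff hs).2 h2⟩
    simp only [hprop]
  · intro f g hf hg
    refine STRM.pair_sum (Fintype.piFinset L) hfΦ.toFinset
      (fun E E' p => f (Nat.log 2 (sc E (S.D1 * S.pp p Finset.univ))) *
        g (Nat.log 2 (sc E' (S.D1 * S.pp p Finset.univ)))) (PT.Lm f * PT.Lm g) ?_ ?_ δ C hC
      (fun E => Sf S.M0 E)
      (fun E E' => S.Om.filter (fun p => ¬ (S.Gh n η κ 0 E E' p ∧ S.Gh n η κ n E' E p)))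
      ?_ hδ ?_ ?_
    · rw [abs_mul]
      exact mul_le_one₀ (hKPM.lmb f hf) (abs_nonneg _) (hKPM.lmb g hg)
    · intro E E' p
      rw [abs_mul]
      exact mul_le_one₀ (hf _) (abs_nonneg _) (hg _)
    · intro E hE E' hE' hsf hsf'
      rw [Set.Finite.mem_toFinset] at hE hE'
      have h40 : 40 * n ≤ S.r := by
        change 40 * n ≤ r
        omega
      exact hP F S E E' hOk h40 hsf (hΦ hE).1 hsf' (hΦ hE').1 f g hf hg
    · rw [← hcardH]
      have hTΦ : δ / 16 * θ * ((Bx F ρ).ncard : ℝ) ≤ δ / 16 * (Φ.ncard : ℝ) := by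
        rw [mul_assoc]
        exact mul_le_mul_of_nonneg_left hΦθ (by positivity)
      refine le_trans ?_ ((hT ρ hXX1).trans hTΦ)
      rw [← Set.ncard_coe_finset]
      refine Nat.cast_le.2 (Set.ncard_le_ncard ?_ (hfin.subset (Set.sep_subset _ _)))
      intro E hE
      rw [Finset.coe_filter, Set.mem_ofPred_eq, Set.Finite.mem_toFinset] at hE
      refine ⟨hΦ hE.1, ?_⟩
      have h1 := hE.2
      unfold Sf at h1
      push Not at h1
      obtain ⟨v, h2, h3⟩ := h1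
      change v ∉ N0 ∪ A1 at h2
      rw [Finset.mem_union, hN0, Finset.mem_union, Set.Finite.mem_toFinset, Set.mem_ofPred_eq] at h2
      push Not at h2
      refine ⟨v, (G.six v h2.1.1).1, ?_, h3⟩
      have h4 := h2.1.2
      exact_mod_cast h4
    · have h := STRM.triples Φ hfΦ S.Om
        (fun E E' p => ¬ (S.Gh n η κ 0 E E' p ∧ S.Gh n η κ n E' E p))
      rw [← hcardH]
      have hsub : {t : (𝓞 F × 𝓞 F) × (𝓞 F × 𝓞 F) × (Fin r → Pl F) | t.1 ∈ Φ ∧ t.2.1 ∈ Φ ∧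
          t.2.2 ∈ S.Om ∧
          ¬ (S.Gh n η κ 0 t.1 t.2.1 t.2.2 ∧ S.Gh n η κ n t.2.1 t.1 t.2.2)} ⊆
          {t : (𝓞 F × 𝓞 F) × (𝓞 F × 𝓞 F) × (Fin r → Pl F) | t.1 ∈ Bx F ρ ∧ t.2.1 ∈ Bx F ρ ∧
          t.2.2 ∈ S.Om ∧
          ¬ (S.Gh n η κ 0 t.1 t.2.1 t.2.2 ∧ S.Gh n η κ n t.2.1 t.1 t.2.2)} := by
        rintro t ⟨h1, h2, h3⟩
        exact ⟨hΦ h1, hΦ h2, h3⟩
      have hfint : {t : (𝓞 F × 𝓞 F) × (𝓞 F × 𝓞 F) × (Fin r → Pl F) | t.1 ∈ Bx F ρ ∧
          t.2.1 ∈ Bx F ρ ∧ t.2.2 ∈ S.Om ∧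
          ¬ (S.Gh n η κ 0 t.1 t.2.1 t.2.2 ∧ S.Gh n η κ n t.2.1 t.1 t.2.2)}.Finite := by
        refine (hfin.prod (hfin.prod (S.Om.finite_toSet))).subset ?_
        rintro t ⟨h1, h2, h3, _⟩
        exact ⟨h1, h2, h3⟩
      have hle : (({t : (𝓞 F × 𝓞 F) × (𝓞 F × 𝓞 F) × (Fin r → Pl F) | t.1 ∈ Φ ∧ t.2.1 ∈ Φ ∧
          t.2.2 ∈ S.Om ∧
          ¬ (S.Gh n η κ 0 t.1 t.2.1 t.2.2 ∧ S.Gh n η κ n t.2.1 t.1 t.2.2)}.ncard : ℕ) : ℝ) ≤
          δ / (4 * C) * θ ^ 2 * ((Bx F ρ).ncard : ℝ) ^ 2 * (S.Om.card : ℝ) :=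
        le_trans (Nat.cast_le.2 (Set.ncard_le_ncard hsub hfint)) (hX0 ρ hXX0)
      have hsq : θ ^ 2 * ((Bx F ρ).ncard : ℝ) ^ 2 ≤ (Φ.ncard : ℝ) ^ 2 := by
        rw [← mul_pow]
        exact pow_le_pow_left₀ (mul_nonneg hθ.le hBpos.le) hΦθ 2
      have hfinal : δ / (4 * C) * θ ^ 2 * ((Bx F ρ).ncard : ℝ) ^ 2 * (S.Om.card : ℝ) ≤
          δ / (4 * C) * (Φ.ncard : ℝ) ^ 2 * (S.Om.card : ℝ) := by
        refine mul_le_mul_of_nonneg_right ?_ (Nat.cast_nonneg _)
        rw [mul_assoc]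
        exact mul_le_mul_of_nonneg_left hsq (by positivity)
      refine le_trans (le_of_eq ?_) (hle.trans hfinal)
      convert h

end Pool.Agent.Lib.MP_8cb858_nt.PU
end

section
/-!
# Module TGS: the tightness step
-/
namespace Pool.Agent.Lib.MP_8cb858_nt.PU

open Polynomial NumberField IsDedekindDomain Pool.Agent.Lib.MP_8cb858_nt.SEL
open Pool.Agent.Lib.MP_8cb858_nt.PF
open scoped Classical WithZero

namespace TGSM

open MXSM

variable {F : Type} [Field F] [NumberField F] {S : Dat F} {E E' : 𝓞 F × 𝓞 F}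
  {p : Fin S.r → Pl F} {a : Fin S.r}

theorem cls_eq (hTYZ : SpecTYZ) (hp : p ∈ S.Om) (ha : ty (p a) E = 0) :
    S.Om.filter (S.Rt E E' a p) =
      ((S.Ls E' (S.Kx E p) p a).filter (fun q => Y12 q E)).image
        (fun q => Function.update p a q) := by
  ext p'
  rw [Finset.mem_image, Finset.mem_filter]
  constructor
  · rintro ⟨hp', h | ⟨hlt, hj, ht, ht', h2, hcl⟩⟩
    · refine ⟨p a, Finset.mem_filter.mpr ⟨Finset.mem_filter.mpr ⟨mem_L hp a, rfl, rfl⟩,
        (hTYZ.t0 F _ E).mp ha⟩, ?_⟩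
      rw [← h]
      exact Function.update_eq_self a p
    · refine ⟨p' a, Finset.mem_filter.mpr ⟨Finset.mem_filter.mpr ⟨mem_L hp' a, ht'.symm,
        hcl.symm⟩, (hTYZ.t0 F _ E).mp (ht.symm.trans ha)⟩, ?_⟩
      funext j
      by_cases h : j = a
      · subst h
        rw [Function.update_self]
      · rw [Function.update_of_ne h]
        exact hj j h
  · rintro ⟨q, hq, rfl⟩
    obtain ⟨hq1, hq2⟩ := Finset.mem_filter.mp hq
    obtain ⟨hq3, hq4, hq5⟩ := Finset.mem_filter.mp hq1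
    refine ⟨upd_mem hp hq3, Or.inr ⟨a.isLt, fun j hj => (Function.update_of_ne hj _ _).symm,
      ?_, ?_, ?_, ?_⟩⟩
    · show ty (p a) E = ty (Function.update p a q a) E
      rw [Function.update_self, ha, (hTYZ.t0 F q E).mpr hq2]
    · show ty (p a) E' = ty (Function.update p a q a) E'
      rw [Function.update_self, hq4]
    · show ty (p a) E ≠ 2
      rw [ha]
      norm_num
    · show cl (S.Kx E p) (S.G.pi (p a) : F) = cl (S.Kx E p) (S.G.pi (Function.update p a q a) : F)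
      rw [Function.update_self, hq5]

/-- The sum over the class. -/
theorem sum_split {α : Type} (Λ : Finset α) (T : α → Prop) (F : α → ℝ) (x y : ℝ)
    (hx : ∀ q ∈ Λ, T q → F q = x) (hy : ∀ q ∈ Λ, ¬ T q → F q = y) :
    ∑ q ∈ Λ, F q = ((Λ.filter T).card : ℝ) * x +
      ((Λ.card : ℝ) - ((Λ.filter T).card : ℝ)) * y := by
  rw [← Finset.sum_filter_add_sum_filter_not Λ T]
  have g1 : ∑ q ∈ Λ.filter T, F q = ((Λ.filter T).card : ℝ) * x := by
    rw [Finset.sum_congr rfl (g := fun _ => x), Finset.sum_const, nsmul_eq_mul]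
    intro q hq
    rw [Finset.mem_filter] at hq
    exact hx q hq.1 hq.2
  have g2 : ∑ q ∈ Λ.filter (fun q => ¬ T q), F q =
      ((Λ.filter (fun q => ¬ T q)).card : ℝ) * y := by
    rw [Finset.sum_congr rfl (g := fun _ => y), Finset.sum_const, nsmul_eq_mul]
    intro q hq
    rw [Finset.mem_filter] at hq
    exact hy q hq.1 hq.2
  have g3 : (Λ.card : ℝ) = ((Λ.filter T).card : ℝ) +
      ((Λ.filter (fun q => ¬ T q)).card : ℝ) := by
    have := Finset.card_filter_add_card_filter_not (s := Λ) T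
    exact_mod_cast this.symm
  rw [g1, g2, g3]
  ring

end TGSM

open MXSM TGSM in
theorem specTGS (hIVT : SpecIVT) (hNST : SpecNST) (hCNT : SpecCNT) (hGEN : SpecGEN)
    (hTYZ : SpecTYZ) (hVAP : SpecVAP) (hAUV : SpecAUV) : SpecTGS := by
  intro F _ _ S η κ E E' p a U hS hp hη0 hη1 hκ hSf hdz hbad hUx haUx haU hN hN0 hAok
  have hta : ty (p a) E = 0 := (Finset.mem_filter.mp haUx).2
  have haJ : a ∉ S.Jx E p := by
    intro h
    have := (Finset.mem_filter.mp h).2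
    omega
  -- the Selmer group at `U`
  have hDne := dx_ne hVAP hAUV hS hp E U
  obtain ⟨-, -, s, hs⟩ := hGEN.fin F E (S.Dx E p U) hdz hDne
  have hsx : S.sx E p U = s := by
    unfold Dat.sx
    rw [hs, Nat.log_pow (by norm_num)]
  have hAokU : S.Aok E p U := hN.aux
  have hΛ : ∀ q ∈ S.Ls E' (S.Kx E p) p a, q ∈ S.L a ∧ ty q E' = ty (p a) E' ∧
      cl (S.Kx E p) (S.G.pi q : F) = cl (S.Kx E p) (S.G.pi (p a) : F) :=
    fun q hq => Finset.mem_filter.mp hq
  have hA : ∀ q ∈ S.Ls E' (S.Kx E p) p a, Y12 q E →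
      ((∀ z : Sel 2 (cO E.1 E.2 (S.Dx E p U)), TrO (S.Dx E p U) q z) →
        S.sx E (Function.update p a q) (insert a U) = s + 1) ∧
      (¬ (∀ z : Sel 2 (cO E.1 E.2 (S.Dx E p U)), TrO (S.Dx E p U) q z) →
        (2 : ℝ) ^ S.sx E (Function.update p a q) (insert a U) = 2 ^ s / 2) := by
    intro q hq h12
    obtain ⟨hqL, hqt, hqc⟩ := hΛ q hq
    have hty : ty q E = 0 := (hTYZ.t0 F q E).mpr h12
    obtain ⟨i1, i2, i3, i4, i5⟩ := hIVT F S E p (Function.update p a q) a hS hp (upd_mem hp hqL)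
      (fun j hj => (Function.update_of_ne hj _ _).symm) (by omega)
      (by rw [Function.update_self]; omega)
      (by
        rw [Function.update_self]
        exact hqc.symm)
    have hUsub : U ⊆ S.Ux E (Function.update p a q) := by
      intro j hj
      refine Finset.mem_filter.mpr ⟨Finset.mem_univ j, ?_⟩
      rw [Function.update_of_ne (by rintro rfl; exact haU hj)]
      exact (Finset.mem_filter.mp (hUx hj)).2
    have haUx' : a ∈ S.Ux E (Function.update p a q) := by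
      refine Finset.mem_filter.mpr ⟨Finset.mem_univ a, ?_⟩
      rw [Function.update_self]
      exact hty
    have hLs : S.Ls E' (S.Kx E p) (Function.update p a q) a = S.Ls E' (S.Kx E p) p a := by
      unfold Dat.Ls
      rw [Function.update_self, hqt, hqc]
    have hNd : S.Nd η κ E E' (Function.update p a q) (S.Kx E p) a ∅ := by
      unfold Dat.Nd
      rw [← i1, ← i2, ← (i3 ∅).1, hLs, upd_pp (by rw [Finset.union_empty]; exact haJ)]
      exact hN0
    have hst := (hNST F S η κ E E' (Function.update p a q) (S.Kx E p) a hS (upd_mem hp hqL) hη0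
      hη1 hκ hSf hdz (by
        intro j
        by_cases hj : j = a
        · subst hj
          rw [Function.update_self, hty]
          norm_num
        · rw [Function.update_of_ne hj]
          exact hbad j) (by rw [← i1]; exact haJ) hNd).1 U a hUsub haUx' haU
        ((i3 U).2.mp hAokU) ((i3 (insert a U)).2.mp hAok)
    rw [← (i4 U haU).1, Function.update_self, hs] at hst
    unfold Dat.sx
    refine ⟨fun hz => ?_, fun hz => ?_⟩
    · rw [hst.1 hz, ← pow_succ', Nat.log_pow (by norm_num)]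
    · have h3 := hst.2 hz
      cases s with
      | zero => rw [pow_zero] at h3; omega
      | succ s =>
        have h4 : sc E (S.Dx E (Function.update p a q) (insert a U)) = 2 ^ s := by
          rw [pow_succ] at h3
          omega
        rw [h4, Nat.log_pow (by norm_num), pow_succ]
        ring
  -- the sum
  have hcls := cls_eq (E := E) (E' := E') hTYZ hp hta
  rw [hcls, Finset.sum_image (fun x _ y _ h => upd_inj h),
    Finset.card_image_of_injective _ upd_inj]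
  have k1 := TGSM.sum_split ((S.Ls E' (S.Kx E p) p a).filter (fun q => Y12 q E))
    (fun q => ∀ z : Sel 2 (cO E.1 E.2 (S.Dx E p U)), TrO (S.Dx E p U) q z)
    (fun q => (2 : ℝ) ^ S.sx E (Function.update p a q) (insert a U)) (2 ^ (s + 1)) (2 ^ s / 2)
    (fun q hq hT => by
      show (2 : ℝ) ^ _ = _
      rw [(hA q (Finset.mem_filter.mp hq).1 (Finset.mem_filter.mp hq).2).1 hT])
    (fun q hq hT => (hA q (Finset.mem_filter.mp hq).1 (Finset.mem_filter.mp hq).2).2 hT)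
  have hcnt := hCNT F S.G η κ (S.RR (S.Kx E p)) (S.D1 * S.pp p (S.Jx E p ∪ U)) (S.Mx E p U)
    (S.Ls E' (S.Kx E p) p a) E s hη0 hN hdz hDne
    (fun q hq => ⟨six_out hS (hΛ q hq).1,
      not_mem_dx hVAP hAUV hS hp E U haJ haU (hΛ q hq).1⟩) hs
  rw [k1, hsx, Finset.filter_filter]
  have hc := (abs_le.mp hcnt).2
  obtain ⟨c, hcdef⟩ : ∃ c : ℝ, c = (((S.Ls E' (S.Kx E p) p a).filter (fun q => Y12 q E ∧
    ∀ z : Sel 2 (cO E.1 E.2 (S.Dx E p U)), TrO (S.Dx E p U) q z)).card : ℝ) := ⟨_, rfl⟩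
  obtain ⟨N, hNdef⟩ : ∃ N : ℝ, N =
    (((S.Ls E' (S.Kx E p) p a).filter (fun q => Y12 q E)).card : ℝ) := ⟨_, rfl⟩
  have hc' : c - (1 / 2) ^ s * N ≤ 2 * η * N := by
    rw [hcdef, hNdef]
    exact hc
  have hgoal : c * 2 ^ (s + 1) + (N - c) * (2 ^ s / 2) ≤
      ((1 / 2 + 3 * η) * 2 ^ s + 3 / 2) * N := by
    have h1 : (0 : ℝ) < 2 ^ s := by positivity
    have h2 : (2 : ℝ) ^ s * (1 / 2) ^ s = 1 := by
      rw [← mul_pow]
      norm_num
    have h3 := mul_le_mul_of_nonneg_left hc' h1.le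
    rw [pow_succ]
    have h4 : (2 : ℝ) ^ s * (c - (1 / 2) ^ s * N) = 2 ^ s * c - N := by
      calc (2 : ℝ) ^ s * (c - (1 / 2) ^ s * N) = 2 ^ s * c - (2 ^ s * (1 / 2) ^ s) * N := by ring
        _ = 2 ^ s * c - N := by rw [h2, one_mul]
    rw [h4] at h3
    nlinarith [h3]
  rw [hcdef, hNdef] at hgoal
  exact hgoal

end Pool.Agent.Lib.MP_8cb858_nt.PU
end
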