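import Pool.Agent.Lib.MP_8cb858_nt.PU.SpecC
import Pool.Agent.Lib.MP_8cb858_nt.PU.SpecF
import Pool.Agent.Lib.MP_8cb858_nt.PU.SpecG
import Pool.Agent.Lib.MP_8cb858_nt.PU.SpecQ
import Pool.Agent.Lib.MP_8cb858_nt.PT.SpecC

section
/-!
# Module AXP: the auxiliary sets
-/
namespace Pool.Agent.Lib.MP_8cb858_nt.PU

open Polynomial NumberField IsDedekindDomain Pool.Agent.Lib.MP_8cb858_nt.SEL
open Pool.Agent.Lib.MP_8cb858_nt.PF
open scoped Classical WithZero

namespace AXPM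

lemma mem_clm {R : Type} [CommRing R] {J : Ideal R} {T : Set (R × R)} (h : Per J T) (q : R × R) :
    ((Ideal.Quotient.mk J q.1, Ideal.Quotient.mk J q.2) ∈ Clm J T) ↔ q ∈ T := by
  constructor
  · rintro ⟨p, hp, hpq⟩
    rw [Prod.ext_iff] at hpq
    obtain ⟨h1, h2⟩ := hpq
    simp only at h1 h2
    rw [Ideal.Quotient.eq] at h1 h2
    exact (h p.1 p.2 q.1 q.2 h1 h2).1 hp
  · intro hq
    exact ⟨q, hq, rfl⟩

lemma per_compl {R : Type} [CommRing R] {J : Ideal R} {T : Set (R × R)} (h : Per J T) :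
    Per J Tᶜ := fun a b a' b' h1 h2 => not_congr (h a b a' b' h1 h2)

lemma clm_compl {R : Type} [CommRing R] {J : Ideal R} {T : Set (R × R)} (h : Per J T) :
    Clm J Tᶜ = (Clm J T)ᶜ := by
  ext ⟨x, y⟩
  obtain ⟨a, rfl⟩ := Ideal.Quotient.mk_surjective x
  obtain ⟨b, rfl⟩ := Ideal.Quotient.mk_surjective y
  rw [Set.mem_compl_iff, mem_clm h (a, b), mem_clm (per_compl h) (a, b), Set.mem_compl_iff]

variable {F : Type} [Field F] [NumberField F]

lemma cop {v w : Pl F} (h : v ≠ w) : IsCoprime v.asIdeal w.asIdeal := by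
  rw [Ideal.isCoprime_iff_sup_eq]
  have h1 := v.isMaximal
  have h2 := w.isMaximal
  exact h1.coprime_of_ne h2 fun e => h (HeightOneSpectrum.ext e)

lemma per3 (hTYZ : SpecTYZ) (v : Pl F) : Per v.asIdeal {E | Y3 v E} := by
  intro a b a' b' h1 h2
  show Y3 v (a, b) ↔ Y3 v (a', b')
  rw [hTYZ.e3, hTYZ.e3]
  have e1 : Ideal.Quotient.mk v.asIdeal a = Ideal.Quotient.mk v.asIdeal a' :=
    Ideal.Quotient.eq.2 h1
  have e2 : Ideal.Quotient.mk v.asIdeal b = Ideal.Quotient.mk v.asIdeal b' :=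
    Ideal.Quotient.eq.2 h2
  unfold rd
  rw [e1, e2]

lemma clm3 (hTYZ : SpecTYZ) (v : Pl F) : Clm v.asIdeal {E | Y3 v E} = C3 v := by
  ext ⟨x, y⟩
  obtain ⟨a, rfl⟩ := Ideal.Quotient.mk_surjective x
  obtain ⟨b, rfl⟩ := Ideal.Quotient.mk_surjective y
  rw [mem_clm (per3 hTYZ v) (a, b)]
  exact hTYZ.e3 F v (a, b)

/-- the ideal of a set of places -/
noncomputable def Jd (A : Finset (Pl F)) : Ideal (𝓞 F) := ∏ v ∈ A, v.asIdeal

lemma Jd_ne (A : Finset (Pl F)) : Jd A ≠ ⊥ := by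
  unfold Jd
  rw [← Ideal.zero_eq_bot]
  refine Finset.prod_ne_zero_iff.2 fun v _ => ?_
  rw [Ideal.zero_eq_bot]
  exact v.ne_bot

lemma ratio (hTYZ : SpecTYZ) (hDNC : PF.SpecDNC) (A : Finset (Pl F)) (b : ℕ) (hb : A.card ≤ b)
    (h6 : ∀ v ∈ A, (6 : 𝓞 F) ∉ v.asIdeal) :
    Per (Jd A) {E | ¬ ∀ v ∈ A, Y3 v E} ∧
    ((Clm (Jd A) {E | ¬ ∀ v ∈ A, Y3 v E}).ncard : ℝ) / (Ideal.absNorm (Jd A) : ℝ) ^ 2 ≤
      1 - 1 / 4 ^ b := by
  obtain ⟨hper, hcard⟩ := hDNC (𝓞 F) (Pl F) A (fun v => v.asIdeal) (fun v => {E | Y3 v E})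
    (fun v _ => per3 hTYZ v) (fun v _ w _ h => cop h)
  have hper' : Per (Jd A) {E | ∀ v ∈ A, Y3 v E} := hper
  have hcard' : (Clm (Jd A) {E | ∀ v ∈ A, Y3 v E}).ncard = ∏ v ∈ A, (C3 v).ncard := by
    have := hcard
    simp only [clm3 hTYZ] at this
    exact this
  have hc : {E : 𝓞 F × 𝓞 F | ¬ ∀ v ∈ A, Y3 v E} = {E | ∀ v ∈ A, Y3 v E}ᶜ := rfl
  refine ⟨hc ▸ per_compl hper', ?_⟩
  rw [hc, clm_compl hper']
  have hfin : Finite (𝓞 F ⧸ Jd A) := Ideal.finiteQuotientOfFreeOfNeBot _ (Jd_ne A)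
  have hN : Nat.card (𝓞 F ⧸ Jd A) = Ideal.absNorm (Jd A) := by
    rw [Ideal.absNorm_apply, Submodule.cardQuot_apply]
  have h3 : (Clm (Jd A) {E | ∀ v ∈ A, Y3 v E}).ncard
      + (Clm (Jd A) {E | ∀ v ∈ A, Y3 v E})ᶜ.ncard = Ideal.absNorm (Jd A) ^ 2 := by
    rw [Set.ncard_add_ncard_compl, Nat.card_prod, hN, sq]
  have h3' : ((Clm (Jd A) {E | ∀ v ∈ A, Y3 v E}).ncard : ℝ)
      + ((Clm (Jd A) {E | ∀ v ∈ A, Y3 v E})ᶜ.ncard : ℝ) = (Ideal.absNorm (Jd A) : ℝ) ^ 2 := by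
    exact_mod_cast h3
  have hNp : 0 < Ideal.absNorm (Jd A) := by
    rw [← hN]
    exact Nat.card_pos
  have hNp' : (0 : ℝ) < (Ideal.absNorm (Jd A) : ℝ) := by exact_mod_cast hNp
  have hNe : (Ideal.absNorm (Jd A) : ℝ) = ∏ v ∈ A, (nv v : ℝ) := by
    unfold Jd
    rw [map_prod]
    push_cast
    rfl
  have hlow : (1 / 4 : ℝ) ^ b * (Ideal.absNorm (Jd A) : ℝ) ^ 2 ≤
      ((Clm (Jd A) {E | ∀ v ∈ A, Y3 v E}).ncard : ℝ) := by
    rw [hcard', hNe, ← Finset.prod_pow]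
    push_cast
    have h1 : ∏ v ∈ A, ((1 / 4 : ℝ) * (nv v : ℝ) ^ 2) ≤ ∏ v ∈ A, ((C3 v).ncard : ℝ) := by
      refine Finset.prod_le_prod (fun v _ => by positivity) fun v hv => ?_
      have a1 : 3 * ((C3 v).ncard : ℝ) + 1 = (nv v : ℝ) ^ 2 := by
        exact_mod_cast hTYZ.n3 F v (h6 v hv)
      have a2 : (5 : ℝ) ≤ nv v := by exact_mod_cast hTYZ.five F v (h6 v hv)
      nlinarith
    rw [Finset.prod_mul_distrib, Finset.prod_const] at h1
    refine le_trans (mul_le_mul_of_nonneg_right ?_ (Finset.prod_nonneg fun v _ => by positivity)) h1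
    exact pow_le_pow_of_le_one (by norm_num) (by norm_num) hb
  rw [div_le_iff₀ (by positivity)]
  have e4 : (1 : ℝ) / 4 ^ b = (1 / 4 : ℝ) ^ b := by rw [one_div_pow]
  rw [e4]
  nlinarith

end AXPM

open AXPM in
theorem specAXP (hPRG : SpecPRG) (hDNC : PF.SpecDNC) (hTYZ : SpecTYZ) (hEQZ : SpecEQZ) :
    SpecAXP := by
  intro F _ _ R b mm hdis hmm
  have hε : (0 : ℝ) < Real.exp (-((R : ℝ) / 4 ^ b)) := Real.exp_pos _
  obtain ⟨R0, hR0⟩ := hPRG F ℕ (Finset.range R) (fun j => Jd (mm j).2)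
    (fun j => {E | ¬ ∀ v ∈ (mm j).2, Y3 v E}) (Real.exp (-((R : ℝ) / 4 ^ b)))
    (fun j _ => ⟨Jd_ne _, (ratio hTYZ hDNC (mm j).2 b (hmm j).1 (hmm j).2).1⟩)
    (by
      intro i _ j _ hij
      unfold Jd
      refine IsCoprime.prod_left fun v hv => IsCoprime.prod_right fun w hw => cop ?_
      rintro rfl
      exact Finset.disjoint_left.1 (hdis i j hij) hv hw) hε
  refine ⟨R0, fun ρ hρ => ?_⟩
  have h1 := hR0 ρ hρ
  have hsub : {E ∈ Bx F ρ | ¬ Au R mm E} ⊆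
      {q ∈ Bx F ρ | ∀ j ∈ Finset.range R, q ∈ {E : 𝓞 F × 𝓞 F | ¬ ∀ v ∈ (mm j).2, Y3 v E}} := by
    rintro E ⟨hE, hn⟩
    refine ⟨hE, fun j hj hY => hn ?_⟩
    have hj' : j < R := Finset.mem_range.1 hj
    have hmem : j ∈ {j | ∀ v ∈ (mm j).2, Y3 v E} := hY
    exact ⟨(Nat.sInf_le hmem).trans_lt hj', Nat.sInf_mem ⟨j, hmem⟩⟩
  have h2 : ({E ∈ Bx F ρ | ¬ Au R mm E}.ncard : ℝ) ≤
      ({q ∈ Bx F ρ | ∀ j ∈ Finset.range R,
        q ∈ {E : 𝓞 F × 𝓞 F | ¬ ∀ v ∈ (mm j).2, Y3 v E}}.ncard : ℝ) := by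
    exact_mod_cast Set.ncard_le_ncard hsub (((hEQZ F).1 ρ).subset fun q hq => hq.1)
  have h3 : ∏ j ∈ Finset.range R, (((Clm (Jd (mm j).2)
      {E : 𝓞 F × 𝓞 F | ¬ ∀ v ∈ (mm j).2, Y3 v E}).ncard : ℝ) /
        (Ideal.absNorm (Jd (mm j).2) : ℝ) ^ 2) ≤ Real.exp (-((R : ℝ) / 4 ^ b)) := by
    calc ∏ j ∈ Finset.range R, (((Clm (Jd (mm j).2)
          {E : 𝓞 F × 𝓞 F | ¬ ∀ v ∈ (mm j).2, Y3 v E}).ncard : ℝ) /
            (Ideal.absNorm (Jd (mm j).2) : ℝ) ^ 2)
        ≤ ∏ _j ∈ Finset.range R, (1 - 1 / 4 ^ b : ℝ) :=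
          Finset.prod_le_prod (fun j _ => by positivity)
            fun j _ => (ratio hTYZ hDNC (mm j).2 b (hmm j).1 (hmm j).2).2
      _ = (1 - 1 / 4 ^ b : ℝ) ^ R := by rw [Finset.prod_const, Finset.card_range]
      _ ≤ Real.exp (-(1 / 4 ^ b)) ^ R := by
          refine pow_le_pow_left₀ ?_ ?_ R
          · have : (1 : ℝ) / 4 ^ b ≤ 1 := by
              rw [div_le_one (by positivity)]
              exact one_le_pow₀ (by norm_num)
            linarith
          · have := Real.add_one_le_exp (-(1 / 4 ^ b : ℝ))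
            linarith
      _ = Real.exp (-((R : ℝ) / 4 ^ b)) := by
          rw [← Real.exp_nat_mul]
          congr 1
          ring
  have h4 := (abs_le.1 h1).2
  have h5 : (0 : ℝ) ≤ ((Bx F ρ).ncard : ℝ) := Nat.cast_nonneg _
  have h6 := mul_le_mul_of_nonneg_right h3 h5
  linarith

end Pool.Agent.Lib.MP_8cb858_nt.PU
end

section
/-!
# BNH: Hoeffding's inequality for subsets
-/
namespace Pool.Agent.Lib.MP_8cb858_nt.PU

namespace BNHM

theorem gen {α : Type} (Q : Finset α) (t : ℝ) :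
    ∑ z ∈ Q.powerset, Real.exp (t * (2 * z.card - Q.card)) ≤
      2 ^ Q.card * Real.exp (Q.card * (t ^ 2 / 2)) := by
  have h1 := Finset.sum_pow_mul_eq_add_pow (Real.exp t) (Real.exp (-t)) Q
  have h2 : ∀ z ∈ Q.powerset, Real.exp (t * (2 * z.card - Q.card)) =
      Real.exp t ^ z.card * Real.exp (-t) ^ (Q.card - z.card) := by
    intro z hz
    rw [← Real.exp_nat_mul, ← Real.exp_nat_mul, ← Real.exp_add,
      Nat.cast_sub (Finset.card_le_card (Finset.mem_powerset.1 hz))]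
    congr 1
    ring
  rw [Finset.sum_congr rfl h2, h1, Real.exp_nat_mul, ← mul_pow]
  refine pow_le_pow_left₀ (by positivity) ?_ _
  have h3 := Real.cosh_le_exp_half_sq t
  rw [Real.cosh_eq] at h3
  linarith

end BNHM

theorem specBNH : SpecBNH := by
  intro α Q η hη
  have h1 := BNHM.gen Q (2 * η)
  have h2 := BNHM.gen Q (-(2 * η))
  have key : ∀ z ∈ Q.powerset.filter (fun z => η * (Q.card : ℝ) <
      |(z.card : ℝ) - (Q.card : ℝ) / 2|), (1 : ℝ) ≤
      Real.exp (-(4 * η ^ 2 * Q.card)) * (Real.exp (2 * η * (2 * z.card - Q.card)) +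
        Real.exp (-(2 * η) * (2 * z.card - Q.card))) := by
    intro z hz
    have hz' := (Finset.mem_filter.1 hz).2
    rw [mul_add, ← Real.exp_add, ← Real.exp_add]
    rcases lt_abs.1 hz' with h | h
    · have h3 : (1 : ℝ) ≤ Real.exp (-(4 * η ^ 2 * Q.card) + 2 * η * (2 * z.card - Q.card)) := by
        apply Real.one_le_exp
        nlinarith
      have h4 := Real.exp_pos (-(4 * η ^ 2 * Q.card) + -(2 * η) * (2 * z.card - Q.card))
      linarith
    · have h3 : (1 : ℝ) ≤ Real.exp (-(4 * η ^ 2 * Q.card) + -(2 * η) * (2 * z.card - Q.card)) := by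
        apply Real.one_le_exp
        nlinarith
      have h4 := Real.exp_pos (-(4 * η ^ 2 * Q.card) + 2 * η * (2 * z.card - Q.card))
      linarith
  calc ((Q.powerset.filter (fun z => η * (Q.card : ℝ) <
        |(z.card : ℝ) - (Q.card : ℝ) / 2|)).card : ℝ)
      = ∑ z ∈ Q.powerset.filter (fun z => η * (Q.card : ℝ) <
        |(z.card : ℝ) - (Q.card : ℝ) / 2|), (1 : ℝ) := by simp
    _ ≤ ∑ z ∈ Q.powerset.filter (fun z => η * (Q.card : ℝ) <
        |(z.card : ℝ) - (Q.card : ℝ) / 2|), Real.exp (-(4 * η ^ 2 * Q.card)) *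
        (Real.exp (2 * η * (2 * z.card - Q.card)) +
        Real.exp (-(2 * η) * (2 * z.card - Q.card))) := Finset.sum_le_sum key
    _ ≤ ∑ z ∈ Q.powerset, Real.exp (-(4 * η ^ 2 * Q.card)) *
        (Real.exp (2 * η * (2 * z.card - Q.card)) +
        Real.exp (-(2 * η) * (2 * z.card - Q.card))) :=
        Finset.sum_le_sum_of_subset_of_nonneg (Finset.filter_subset _ _)
          fun z _ _ => by positivity
    _ = Real.exp (-(4 * η ^ 2 * Q.card)) *
        (∑ z ∈ Q.powerset, Real.exp (2 * η * (2 * z.card - Q.card)) +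
        ∑ z ∈ Q.powerset, Real.exp (-(2 * η) * (2 * z.card - Q.card))) := by
        rw [← Finset.mul_sum, Finset.sum_add_distrib]
    _ ≤ Real.exp (-(4 * η ^ 2 * Q.card)) *
        (2 ^ Q.card * Real.exp (Q.card * ((2 * η) ^ 2 / 2)) +
          2 ^ Q.card * Real.exp (Q.card * ((-(2 * η)) ^ 2 / 2))) :=
        mul_le_mul_of_nonneg_left (add_le_add h1 h2) (Real.exp_pos _).le
    _ = 2 * 2 ^ Q.card * Real.exp (-(2 * η ^ 2 * Q.card)) := by
        have e1 : Real.exp (-(2 * η ^ 2 * Q.card)) =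
            Real.exp (-(4 * η ^ 2 * Q.card)) * Real.exp (Q.card * ((2 * η) ^ 2 / 2)) := by
          rw [← Real.exp_add]
          congr 1
          ring
        rw [e1, show (-(2 * η)) ^ 2 = (2 * η) ^ 2 by ring]
        ring

end Pool.Agent.Lib.MP_8cb858_nt.PU
end

section
/-!
# Module FMZ: first moment with patterns, uniform in the twist
-/
namespace Pool.Agent.Lib.MP_8cb858_nt.PU

open NumberField IsDedekindDomain Pool.Agent.Lib.MP_8cb858_nt.SEL
open Pool.Agent.Lib.MP_8cb858_nt.PF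
open scoped Classical WithZero

namespace FMZM

section

variable {F : Type} [Field F] [NumberField F]

theorem nm_nonneg (D : 𝓞 F) : 0 ≤ nm D := Nat.cast_nonneg _

theorem nm_mul (x y : 𝓞 F) : nm (x * y) = nm x * nm y := by
  unfold nm
  rw [← Ideal.span_singleton_mul_span_singleton, map_mul, Nat.cast_mul]

theorem nm_one : nm (1 : 𝓞 F) = 1 := by
  unfold nm
  rw [Ideal.span_singleton_one, Ideal.absNorm_top, Nat.cast_one]

theorem nm_prod (A : Finset (Pl F)) (f : Pl F → 𝓞 F) : nm (∏ v ∈ A, f v) = ∏ v ∈ A, nm (f v) := by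
  induction A using Finset.induction_on with
  | empty => rw [Finset.prod_empty, Finset.prod_empty, nm_one]
  | insert a s ha ih => rw [Finset.prod_insert ha, Finset.prod_insert ha, nm_mul, ih]

theorem one_le_nv (v : Pl F) : (1 : ℝ) ≤ nv v := by
  have h : 0 < nv v := Nat.pos_of_ne_zero (Ideal.absNorm_eq_zero_iff.not.2 v.ne_bot)
  exact_mod_cast h

/-- The numerical estimate. -/
theorem num (G : Gs F) (B : ℝ) (P0 : ℕ) (c : 𝓞 F) (A : Finset (Pl F)) (hB : nm c ≤ B) :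
    nm (G.tw c A) ^ 5 * ∏ v ∈ A.filter (fun v => P0 < nv v), 4 / (nv v : ℝ) ^ 5 ≤
      B ^ 5 * (4 * G.C ^ 5 * ((P0 : ℝ) + 1) ^ 5) ^ A.card := by
  have hC := G.one
  have hC0 : 0 < G.C := lt_of_lt_of_le one_pos hC
  have h1 : nm (G.tw c A) ≤ B * ∏ v ∈ A, (G.C * nv v) := by
    unfold Gs.tw
    rw [nm_mul, nm_prod]
    refine mul_le_mul hB ?_ (Finset.prod_nonneg fun v _ => nm_nonneg _) ((nm_nonneg c).trans hB)
    exact Finset.prod_le_prod (fun v _ => nm_nonneg _) fun v _ => G.nrm v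
  have hB0 : 0 ≤ B := (nm_nonneg c).trans hB
  have h2 : nm (G.tw c A) ^ 5 ≤ B ^ 5 * ∏ v ∈ A, (G.C * nv v) ^ 5 := by
    rw [Finset.prod_pow, ← mul_pow]
    exact pow_le_pow_left₀ (nm_nonneg _) h1 5
  have h3 : 0 ≤ ∏ v ∈ A.filter (fun v => P0 < nv v), 4 / (nv v : ℝ) ^ 5 :=
    Finset.prod_nonneg fun v _ => by positivity
  refine (mul_le_mul_of_nonneg_right h2 h3).trans ?_
  rw [mul_assoc, Finset.prod_filter, ← Finset.prod_mul_distrib]
  refine mul_le_mul_of_nonneg_left ?_ (by positivity)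
  rw [← Finset.prod_const]
  refine Finset.prod_le_prod (fun v _ => by positivity) fun v _ => ?_
  have hP : (1 : ℝ) ≤ ((P0 : ℝ) + 1) ^ 5 := one_le_pow₀ (by
    have : (0 : ℝ) ≤ P0 := Nat.cast_nonneg _
    linarith)
  have hn := one_le_nv v
  have hC5 : 0 < G.C ^ 5 := by positivity
  split_ifs with hv
  · have e : (G.C * (nv v : ℝ)) ^ 5 * (4 / (nv v : ℝ) ^ 5) = 4 * G.C ^ 5 := by
      have : (nv v : ℝ) ≠ 0 := by positivity
      field_simp
    rw [e]
    nlinarith [mul_pos (by norm_num : (0 : ℝ) < 4) hC5]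
  · have h4 : (nv v : ℝ) ≤ (P0 : ℝ) + 1 := by
      have : nv v ≤ P0 := not_lt.1 hv
      have h5 : (nv v : ℝ) ≤ (P0 : ℝ) := by exact_mod_cast this
      linarith
    have h6 : (nv v : ℝ) ^ 5 ≤ ((P0 : ℝ) + 1) ^ 5 := pow_le_pow_left₀ (by positivity) h4 5
    rw [mul_one, mul_pow]
    have h7 : G.C ^ 5 * (nv v : ℝ) ^ 5 ≤ G.C ^ 5 * ((P0 : ℝ) + 1) ^ 5 :=
      mul_le_mul_of_nonneg_left h6 hC5.le
    have h8 : 0 ≤ G.C ^ 5 * ((P0 : ℝ) + 1) ^ 5 := by positivity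
    linarith

end

end FMZM

open FMZM in
/-- **FMZ**. -/
theorem specFMZ (hMMA : SpecMMA) (hLOW : SpecLOW.{0}) (hNF : SpecNF) (hTWV : SpecTWV) :
    SpecFMZ := by
  intro F _ _ G
  obtain ⟨C1, P0, hC1, hM⟩ := hMMA F
  obtain ⟨c0, hc0, hL⟩ := hLOW F
  obtain ⟨B, hB⟩ : ∃ B : ℝ, B = 1 + ∑ c ∈ G.UU, nm c := ⟨_, rfl⟩
  have hBc : ∀ c ∈ G.UU, nm c ≤ B := by
    intro c hc
    have h := Finset.single_le_sum (f := fun c => nm c) (fun i _ => nm_nonneg i) hc
    have h' : nm c ≤ ∑ c ∈ G.UU, nm c := h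
    linarith
  have hB0 : 0 ≤ B := by
    rw [hB]
    have : 0 ≤ ∑ c ∈ G.UU, nm c := Finset.sum_nonneg fun i _ => nm_nonneg i
    linarith
  obtain ⟨K1, hK1⟩ : ∃ K1 : ℝ, K1 = 4 * G.C ^ 5 * ((P0 : ℝ) + 1) ^ 5 := ⟨_, rfl⟩
  have hK : 1 ≤ K1 := by
    have h1 : (1 : ℝ) ≤ G.C ^ 5 := one_le_pow₀ G.one
    have h2 : (1 : ℝ) ≤ ((P0 : ℝ) + 1) ^ 5 := one_le_pow₀ (by
      have : (0 : ℝ) ≤ P0 := Nat.cast_nonneg _
      linarith)
    rw [hK1]
    nlinarith
  refine ⟨max 1 (C1 * B ^ 5 / c0), K1, P0, le_max_left _ _, hK, ?_⟩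
  intro c A Q Z hc hA hQ hZ
  have hcS := (hTWV.uu G c hc).2
  have hc1 := (hTWV.uu G c hc).1
  have hD : G.tw c A ≠ 0 := hTWV.ne G c A hc1
  have hmem : ∀ v : Pl F, ∀ x : 𝓞 F, x ∈ v.asIdeal ↔ vv v (lc v x) ≤ WithZero.exp (-1 : ℤ) := by
    intro v x
    have h := (hNF.int F v x 1).2
    rw [pow_one] at h
    rw [h, Nat.cast_one]
  obtain ⟨R0, hR0⟩ := hM Q (A.filter (fun v => P0 < nv v)) (G.tw c A) Z hD (by
      intro v hv
      obtain ⟨h1, h2, h3⟩ := hQ v hv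
      refine ⟨h3, fun h => ?_⟩
      rw [hmem, hTWV.un G c A v hcS hA h2 h1, ← WithZero.exp_zero, WithZero.exp_le_exp] at h
      omega) (by
      intro v hv
      rw [Finset.mem_filter] at hv
      refine ⟨hv.2, ?_⟩
      rw [hmem, hTWV.ex G c A v hcS hA hv.1]) hZ
  refine ⟨max 1 R0, fun ρ hρ => ?_⟩
  have hρ1 : ∀ v, 1 ≤ ρ v := fun v => (le_max_left _ _).trans (hρ v)
  obtain ⟨hfin, hcard⟩ := hR0 ρ fun v => (le_max_right _ _).trans (hρ v)
  refine ⟨hfin, hcard.trans ?_⟩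
  have hLow := (hL ρ hρ1).2
  obtain ⟨q, hq⟩ : ∃ q : ℝ, q = ((Z.card : ℝ) / 2 ^ Q.card) *
    (∏ v ∈ Q, (1 + 1 / (nv v : ℝ)) ^ 2 / 2) := ⟨_, rfl⟩
  have hq0 : 0 ≤ q := by
    rw [hq]
    exact mul_nonneg (by positivity) (Finset.prod_nonneg fun v _ => by positivity)
  have hdn : PT.dnW Q ∅ (A.filter (fun v => P0 < nv v)) Z =
      q * ∏ v ∈ A.filter (fun v => P0 < nv v), 4 / (nv v : ℝ) ^ 5 := by
    rw [PT.dnW, dns, Finset.prod_empty, mul_one, hq]
  have hnum := num G B P0 c A (hBc c hc)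
  rw [← hK1] at hnum
  have hV : 0 ≤ vol ρ ^ 5 := by
    have : 0 < vol ρ := Finset.prod_pos fun v _ => pow_pos (lt_of_lt_of_le one_pos (hρ1 v)) _
    positivity
  have hK0 : 0 ≤ K1 ^ A.card := by positivity
  rw [hdn]
  calc C1 * nm (G.tw c A) ^ 5 *
        (q * ∏ v ∈ A.filter (fun v => P0 < nv v), 4 / (nv v : ℝ) ^ 5) * vol ρ ^ 5
      = C1 * (nm (G.tw c A) ^ 5 *
        ∏ v ∈ A.filter (fun v => P0 < nv v), 4 / (nv v : ℝ) ^ 5) * q * vol ρ ^ 5 := by ring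
    _ ≤ C1 * (B ^ 5 * K1 ^ A.card) * q * vol ρ ^ 5 := by gcongr
    _ = (C1 * B ^ 5 / c0) * K1 ^ A.card * q * (c0 * vol ρ ^ 5) := by
        field_simp
    _ ≤ max 1 (C1 * B ^ 5 / c0) * K1 ^ A.card * q * ((Bx F ρ).ncard : ℝ) := by
        have h1 : C1 * B ^ 5 / c0 ≤ max 1 (C1 * B ^ 5 / c0) := le_max_right _ _
        have h2 : 0 ≤ C1 * B ^ 5 / c0 := by positivity
        gcongr
    _ = _ := by
        rw [hq]
        ring

end Pool.Agent.Lib.MP_8cb858_nt.PU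
end

section
/-!
# The probability of a bad node (port of PT/NOD, helper29)
-/
namespace Pool.Agent.Lib.MP_8cb858_nt.PU

open Polynomial NumberField IsDedekindDomain Pool.Agent.Lib.MP_8cb858_nt.SEL
open Pool.Agent.Lib.MP_8cb858_nt.PF
open scoped Classical WithZero

namespace NODM

/-- subsets of a finite set as finsets -/
lemma nc {α : Type} {S : Set α} (hS : S.Finite) (P : α → Prop) [DecidablePred P] :
    ({E ∈ S | P E}.ncard : ℝ) = ((hS.toFinset.filter P).card : ℝ) := by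
  have : ({E ∈ S | P E} : Set α) = ((hS.toFinset.filter P : Finset α) : Set α) := by
    ext E
    rw [Finset.mem_coe, Finset.mem_filter, Set.Finite.mem_toFinset]
    rfl
  rw [this, Set.ncard_coe_finset]

lemma b1 {B r : ℝ} (hB : 0 < B) (hr1 : 1 ≤ r) (hr : B + 2 ≤ r) :
    2 * Real.exp (-(r ^ 2)) ≤ Real.exp (-(B * r)) / 3 := by
  have h3 : Real.exp (-(r ^ 2)) ≤ Real.exp (-(B * r)) * Real.exp (-2) := by
    rw [← Real.exp_add]
    apply Real.exp_le_exp.2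
    nlinarith
  have h4 : Real.exp (-2) ≤ 1 / 6 := by
    have h5 : Real.exp (-2) = Real.exp (-1) ^ 2 := by
      rw [← Real.exp_nat_mul]; congr 1; norm_num
    rw [h5]
    have h6 := Real.exp_neg_one_lt_d9
    have h7 := Real.exp_pos (-1)
    nlinarith
  have h5 : Real.exp (-(B * r)) * Real.exp (-2) ≤ Real.exp (-(B * r)) * (1 / 6) :=
    mul_le_mul_of_nonneg_left h4 (Real.exp_pos _).le
  linarith

end NODM

open NODM

theorem specNOD (hAXP : SpecAXP) (hTYV : SpecTYV) (hUBI : SpecUBI) (hEQZ : SpecEQZ) (hTWV : SpecTWV) :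
    SpecNOD := by
  intro F _ _ G η κ B hη hκ hB
  set η1 : ℝ := min η 1 with hη1
  have hη10 : 0 < η1 := lt_min hη one_pos
  obtain ⟨κU, c, C, K1, P1, N0, hκU, hc, hC, hK1, hU⟩ := hUBI F G η1 hη10 (min_le_right _ _)
  set κ' : ℝ := min κ κU with hκ'
  have hκ'0 : 0 < κ' := lt_min hκ hκU
  set cT : ℝ := 6 * Module.finrank ℚ F + 6 with hcT
  have hcT0 : 0 < cT := by rw [hcT]; positivity
  set W : ℝ := B + 3 * C + 12 + 8 * K1 with hW
  set r0 : ℕ := max (max (max P1 N0) 5) (max (max ⌈3 * (B + 2)⌉₊ ⌈B + 3 * cT / κ' ^ 2⌉₊) ⌈W / c⌉₊)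
    with hr0
  have r1 : P1 ≤ r0 := le_trans (le_trans (le_max_left _ _) (le_max_left _ _)) (le_max_left _ _)
  have r2 : N0 ≤ r0 := le_trans (le_trans (le_max_right _ _) (le_max_left _ _)) (le_max_left _ _)
  have r3 : 5 ≤ r0 := le_trans (le_max_right _ _) (le_max_left _ _)
  have r4 : 3 * (B + 2) ≤ (r0 : ℝ) := by
    refine (Nat.le_ceil _).trans ?_
    exact_mod_cast le_trans (le_trans (le_max_left _ _) (le_max_left _ _)) (le_max_right _ _)
  have r5 : B + 3 * cT / κ' ^ 2 ≤ (r0 : ℝ) := by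
    refine (Nat.le_ceil _).trans ?_
    exact_mod_cast le_trans (le_trans (le_max_right _ _) (le_max_left _ _)) (le_max_right _ _)
  have r6 : W / c ≤ (r0 : ℝ) := by
    refine (Nat.le_ceil _).trans ?_
    exact_mod_cast le_trans (le_max_right _ _) (le_max_right _ _)
  refine ⟨r0, ?_⟩
  intro r b u A L mm hr hu hA3 hb5 hAS hL hLc hmm
  set R : ℕ := 4 ^ b * r ^ 2 with hR
  have hrr : (r0 : ℝ) ≤ r := by exact_mod_cast hr
  have hr1 : 1 ≤ r := by omega
  have hr1' : (1 : ℝ) ≤ r := by exact_mod_cast hr1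
  have hrpos : (0 : ℝ) < r := by linarith
  have hNr : (r0 : ℝ) * r ≤ L.card := by
    have h1 := Real.add_one_le_exp ((r0 : ℝ) * r)
    linarith
  have hNN0 : N0 ≤ L.card := by
    have h1 : (r0 : ℝ) ≤ L.card := by nlinarith [(Nat.cast_nonneg r0 : (0 : ℝ) ≤ r0)]
    have h2 : r0 ≤ L.card := by exact_mod_cast h1
    omega
  have hsix : ∀ v : Pl F, v ∉ G.S → (6 : 𝓞 F) ∉ v.asIdeal := fun v hv => (G.six v hv).1
  -- the three sources
  obtain ⟨XA, hXA⟩ := hAXP F R b mm hmm.dis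
    (fun j => ⟨hmm.card j, fun v hv => hsix v (hmm.out j v hv).1⟩)
  obtain ⟨XT, hXT⟩ := hTYV F κ' L hκ'0 (fun q hq => hsix q (hL q hq).1)
  have htw : ∀ j, G.tw u A * G.tw (mm j).1 (mm j).2 = G.tw (u * (mm j).1) (A ∪ (mm j).2) := fun j => by
    refine hTWV.mul G u (mm j).1 A (mm j).2 ?_
    rw [Finset.disjoint_left]
    intro v hv hv'
    exact (hmm.out j v hv').2.2 (Or.inl hv)
  have hUj : ∀ j, ∃ X0 : ℝ, ∀ ρ : InfinitePlace F → ℝ, (∀ v, X0 ≤ ρ v) →
      ({E ∈ Bx F ρ | |((L.filter (fun q => Y12 q E)).card : ℝ) - (L.card : ℝ) / 2| ≤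
          κU * L.card ∧
        ∃ z : Sel 2 (cO E.1 E.2 (G.tw u A * G.tw (mm j).1 (mm j).2)), z ≠ 0 ∧
          η1 * ((L.filter (fun q => Y12 q E)).card : ℝ) <
          |((L.filter (fun q => Y12 q E ∧ TrO (G.tw u A * G.tw (mm j).1 (mm j).2) q z)).card : ℝ) -
            ((L.filter (fun q => Y12 q E)).card : ℝ) / 2|}.ncard : ℝ) ≤
        C * K1 ^ (A ∪ (mm j).2).card * Real.exp (-(c * L.card)) * ((Bx F ρ).ncard : ℝ) := by
    intro j
    rw [htw j]
    refine hU L (A ∪ (mm j).2) (u * (mm j).1) ?_ ?_ ?_ hNN0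
    · rw [Gs.UU, Finset.mem_image]
      exact ⟨(u, (mm j).1), Finset.mem_product.2 ⟨hu, hmm.u j⟩, rfl⟩
    · intro v hv
      rcases Finset.mem_union.1 hv with h | h
      · exact hAS v h
      · exact (hmm.out j v h).1
    · intro q hq
      refine ⟨(hL q hq).1, r1.trans (hL q hq).2.1, ?_⟩
      intro hd
      rcases Finset.mem_union.1 hd with h | h
      · exact (hL q hq).2.2 h
      · exact (hmm.out j q h).2.2 (Or.inr hq)
  choose XU hXU using hUj
  refine ⟨max (max XA XT) (∑ j ∈ Finset.range R, |XU j|), fun ρ hρ => ?_⟩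
  have hA := hXA ρ (fun v => (le_trans (le_max_left _ _) (le_max_left _ _)).trans (hρ v))
  have hT := hXT ρ (fun v => (le_trans (le_max_right _ _) (le_max_left _ _)).trans (hρ v))
  have hXj : ∀ j ∈ Finset.range R, ∀ v, XU j ≤ ρ v := by
    intro j hj v
    have a1 := Finset.single_le_sum (f := fun j => |XU j|) (fun j _ => abs_nonneg _) hj
    have a2 := le_abs_self (XU j)
    have a3 := (le_max_right (max XA XT) (∑ j ∈ Finset.range R, |XU j|)).trans (hρ v)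
    linarith
  have hfin := (hEQZ F).1 ρ
  set H : Finset (𝓞 F × 𝓞 F) := hfin.toFinset with hH
  set h : ℝ := ((Bx F ρ).ncard : ℝ) with hh
  have hh0 : 0 ≤ h := Nat.cast_nonneg _
  rw [nc hfin] at hA hT ⊢
  have hRb : (R : ℝ) / 4 ^ b = (r : ℝ) ^ 2 := by
    rw [hR]; push_cast; field_simp
  rw [hRb] at hA
  set UF : ℕ → Finset (𝓞 F × 𝓞 F) := fun j => H.filter (fun E =>
    |((L.filter (fun q => Y12 q E)).card : ℝ) - (L.card : ℝ) / 2| ≤ κU * L.card ∧
        ∃ z : Sel 2 (cO E.1 E.2 (G.tw u A * G.tw (mm j).1 (mm j).2)), z ≠ 0 ∧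
          η1 * ((L.filter (fun q => Y12 q E)).card : ℝ) <
          |((L.filter (fun q => Y12 q E ∧ TrO (G.tw u A * G.tw (mm j).1 (mm j).2) q z)).card : ℝ) -
            ((L.filter (fun q => Y12 q E)).card : ℝ) / 2|) with hUF
  have hUc : ∀ j ∈ Finset.range R, ((UF j).card : ℝ) ≤
      C * K1 ^ (8 * r) * Real.exp (-(c * L.card)) * h := by
    intro j hj
    have a1 := hXU j ρ (hXj j hj)
    rw [nc hfin] at a1
    refine a1.trans ?_
    refine mul_le_mul_of_nonneg_right ?_ hh0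
    refine mul_le_mul_of_nonneg_right ?_ (Real.exp_pos _).le
    refine mul_le_mul_of_nonneg_left ?_ (by linarith)
    refine pow_le_pow_right₀ hK1 ?_
    refine (Finset.card_union_le _ _).trans ?_
    have := hmm.card j
    omega
  -- inclusion
  have hsub : H.filter (fun E => ¬ Nok G η κ R (G.tw u A) mm L E) ⊆
      (H.filter (fun E => ¬ Au R mm E) ∪
      H.filter (fun E => ¬ (|((L.filter (fun q => Y12 q E)).card : ℝ) - (L.card : ℝ) / 2| ≤
        κ' * L.card ∧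
      |((L.filter (fun q => Y3 q E)).card : ℝ) - (L.card : ℝ) / 3| ≤ κ' * L.card))) ∪
      (Finset.range R).biUnion UF := by
    intro E hE
    obtain ⟨hEH, hbad⟩ := Finset.mem_filter.1 hE
    by_contra hcon
    rw [Finset.mem_union, Finset.mem_union, not_or, not_or] at hcon
    obtain ⟨⟨h1, h2⟩, h3⟩ := hcon
    rw [Finset.mem_filter, not_and, not_not] at h1 h2
    have h1' := h1 hEH
    have h2' := h2 hEH
    have hLc0 : (0 : ℝ) ≤ L.card := Nat.cast_nonneg _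
    apply hbad
    refine ⟨h1', h2'.1.trans (mul_le_mul_of_nonneg_right (min_le_left _ _) hLc0),
      h2'.2.trans (mul_le_mul_of_nonneg_right (min_le_left _ _) hLc0), ?_⟩
    intro z hz
    by_contra hb
    push Not at hb
    apply h3
    refine Finset.mem_biUnion.2 ⟨jx mm E, Finset.mem_range.2 h1'.1, ?_⟩
    rw [hUF]
    refine Finset.mem_filter.2 ⟨hEH, h2'.1.trans
      (mul_le_mul_of_nonneg_right (min_le_right _ _) hLc0), z, hz, lt_of_le_of_lt ?_ hb⟩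
    exact mul_le_mul_of_nonneg_right (min_le_left _ _) (Nat.cast_nonneg _)
  have hcard : ((H.filter (fun E => ¬ Nok G η κ R (G.tw u A) mm L E)).card : ℝ) ≤
      2 * Real.exp (-((r : ℝ) ^ 2)) * h +
      ((H.filter (fun E => ¬ (|((L.filter (fun q => Y12 q E)).card : ℝ) - (L.card : ℝ) / 2| ≤
        κ' * L.card ∧
      |((L.filter (fun q => Y3 q E)).card : ℝ) - (L.card : ℝ) / 3| ≤ κ' * L.card))).card : ℝ)
      + (R : ℝ) * (C * K1 ^ (8 * r) * Real.exp (-(c * L.card)) * h) := by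
    refine le_trans (Nat.cast_le.2 (Finset.card_le_card hsub)) ?_
    refine le_trans (Nat.cast_le.2 (Finset.card_union_le _ _)) ?_
    rw [Nat.cast_add]
    refine add_le_add ?_ ?_
    · refine le_trans (Nat.cast_le.2 (Finset.card_union_le _ _)) ?_
      rw [Nat.cast_add]
      exact add_le_add hA le_rfl
    · refine le_trans (Nat.cast_le.2 Finset.card_biUnion_le) ?_
      rw [Nat.cast_sum]
      refine (Finset.sum_le_sum hUc).trans (le_of_eq ?_)
      rw [Finset.sum_const, Finset.card_range, nsmul_eq_mul]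
  refine hcard.trans ?_
  -- the three bounds
  have q1 : 2 * Real.exp (-((r : ℝ) ^ 2)) ≤ Real.exp (-(B * r)) / 3 :=
    b1 hB hr1' (by linarith)
  have q2 : ((H.filter (fun E => ¬ (|((L.filter (fun q => Y12 q E)).card : ℝ) -
      (L.card : ℝ) / 2| ≤ κ' * L.card ∧
      |((L.filter (fun q => Y3 q E)).card : ℝ) - (L.card : ℝ) / 3| ≤ κ' * L.card))).card : ℝ)
      ≤ Real.exp (-(B * r)) / 3 * h := by
    have hk : 0 < κ' ^ 2 := by positivity
    have h1 : 3 * cT ≤ Real.exp (-(B * r)) * (κ' ^ 2 * L.card) := by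
      have h2 : Real.exp (3 * cT / κ' ^ 2 * r) ≤ Real.exp (-(B * r)) * L.card := by
        calc Real.exp (3 * cT / κ' ^ 2 * r) ≤ Real.exp (-(B * r)) * Real.exp (r0 * r) := by
              rw [← Real.exp_add]
              apply Real.exp_le_exp.2
              nlinarith
          _ ≤ _ := mul_le_mul_of_nonneg_left hLc (Real.exp_pos _).le
      have h3 : 3 * cT / κ' ^ 2 ≤ Real.exp (3 * cT / κ' ^ 2 * r) := by
        have h4 := Real.add_one_le_exp (3 * cT / κ' ^ 2 * r)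
        have h5 : 3 * cT / κ' ^ 2 ≤ 3 * cT / κ' ^ 2 * r := by
          have : 0 < 3 * cT / κ' ^ 2 := by positivity
          nlinarith
        linarith
      have h4 : 3 * cT / κ' ^ 2 ≤ Real.exp (-(B * r)) * L.card := h3.trans h2
      rw [div_le_iff₀ hk] at h4
      linarith
    have hTc := hT
    have hx : 0 < κ' ^ 2 * (L.card : ℝ) := by
      by_contra hcon
      push Not at hcon
      have : Real.exp (-(B * r)) * (κ' ^ 2 * L.card) ≤ 0 :=
        mul_nonpos_of_nonneg_of_nonpos (Real.exp_pos _).le hcon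
      linarith
    refine le_of_mul_le_mul_right (hTc.trans ?_) hx
    nlinarith
  have q3 : (R : ℝ) * (C * K1 ^ (8 * r) * Real.exp (-(c * L.card)) * h) ≤
      Real.exp (-(B * r)) / 3 * h := by
    have h1 : (r : ℝ) ^ 2 ≤ Real.exp (2 * r) := by
      have h2 : (r : ℝ) ≤ Real.exp r := by have := Real.add_one_le_exp (r : ℝ); linarith
      have h3 : Real.exp (2 * (r : ℝ)) = Real.exp r ^ 2 := by
        rw [← Real.exp_nat_mul]; congr 1
      rw [h3]
      exact pow_le_pow_left₀ hrpos.le h2 2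
    have h1b : (4 : ℝ) ^ b ≤ Real.exp (10 * r) := by
      have h2 : (4 : ℝ) ≤ Real.exp 2 := by
        have h3 : Real.exp 2 = Real.exp 1 ^ 2 := by
          rw [← Real.exp_nat_mul]; congr 1; norm_num
        rw [h3]
        have := Real.add_one_le_exp (1 : ℝ)
        nlinarith
      calc (4 : ℝ) ^ b ≤ 4 ^ (5 * r) := pow_le_pow_right₀ (by norm_num) hb5
        _ ≤ Real.exp 2 ^ (5 * r) := pow_le_pow_left₀ (by norm_num) h2 _
        _ = Real.exp (10 * r) := by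
            rw [← Real.exp_nat_mul]; congr 1; push_cast; ring
    have hRr : (R : ℝ) ≤ Real.exp (10 * r) * Real.exp (2 * r) := by
      rw [hR]; push_cast
      exact mul_le_mul h1b h1 (by positivity) (Real.exp_pos _).le
    have h2 : 3 * C ≤ Real.exp (3 * C * r) := by
      have h3 := Real.add_one_le_exp (3 * C * r)
      nlinarith
    have h3 : K1 ^ (8 * r) ≤ Real.exp (8 * K1 * r) := by
      have h4 : K1 ≤ Real.exp K1 := by have := Real.add_one_le_exp K1; linarith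
      calc K1 ^ (8 * r) ≤ Real.exp K1 ^ (8 * r) := pow_le_pow_left₀ (by linarith) h4 _
        _ = Real.exp (8 * K1 * r) := by
            rw [← Real.exp_nat_mul]; congr 1; push_cast; ring
    have h4 : Real.exp (-(c * L.card)) ≤ Real.exp (-(W * r)) := by
      apply Real.exp_le_exp.2
      rw [div_le_iff₀ hc] at r6
      have h5 : c * ((r0 : ℝ) * r) ≤ c * L.card := mul_le_mul_of_nonneg_left hNr hc.le
      have h6 : W * r ≤ r0 * c * r := mul_le_mul_of_nonneg_right r6 hrpos.le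
      linarith
    have h5 : (R : ℝ) * (3 * C * K1 ^ (8 * r) * Real.exp (-(c * L.card))) ≤
        Real.exp (-(B * r)) := by
      calc (R : ℝ) * (3 * C * K1 ^ (8 * r) * Real.exp (-(c * L.card)))
          ≤ (Real.exp (10 * r) * Real.exp (2 * r)) * (Real.exp (3 * C * r) * Real.exp (8 * K1 * r) *
            Real.exp (-(W * r))) := by
            refine mul_le_mul hRr ?_ (by positivity) (by positivity)
            refine mul_le_mul ?_ h4 (Real.exp_pos _).le (by positivity)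
            exact mul_le_mul h2 h3 (by positivity) (Real.exp_pos _).le
        _ = Real.exp (-(B * r)) := by
            rw [← Real.exp_add, ← Real.exp_add, ← Real.exp_add, ← Real.exp_add, hW]; congr 1; ring
    calc (R : ℝ) * (C * K1 ^ (8 * r) * Real.exp (-(c * L.card)) * h)
        = (R : ℝ) * (3 * C * K1 ^ (8 * r) * Real.exp (-(c * L.card))) / 3 * h := by ring
      _ ≤ _ := mul_le_mul_of_nonneg_right (by linarith) hh0
  have q1' := mul_le_mul_of_nonneg_right q1 hh0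
  linarith

end Pool.Agent.Lib.MP_8cb858_nt.PU
end

section
/-!
Module PRD: product densities for places.
-/
namespace Pool.Agent.Lib.MP_8cb858_nt.PU

open NumberField IsDedekindDomain Pool.Agent.Lib.MP_8cb858_nt.SEL
open Pool.Agent.Lib.MP_8cb858_nt.PF
open scoped Classical

namespace PRDM

variable {F : Type} [Field F] [NumberField F]

theorem coprime_of_ne {v w : Pl F} (h : v ≠ w) : IsCoprime v.asIdeal w.asIdeal := by
  rw [Ideal.isCoprime_iff_sup_eq]
  have hv : v.asIdeal.IsMaximal := v.isMaximal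
  have hw : w.asIdeal.IsMaximal := w.isMaximal
  exact Ideal.IsMaximal.coprime_of_ne hv hw fun e => h (HeightOneSpectrum.ext e)

theorem rd_surj (I : Ideal (𝓞 F)) : Function.Surjective (rd I) := by
  rintro ⟨x, y⟩
  obtain ⟨a, ha⟩ := Ideal.Quotient.mk_surjective x
  obtain ⟨b, hb⟩ := Ideal.Quotient.mk_surjective y
  exact ⟨(a, b), Prod.ext ha hb⟩

theorem clm_eq (I : Ideal (𝓞 F)) (R : Set ((𝓞 F ⧸ I) × (𝓞 F ⧸ I))) :
    Clm I {q | rd I q ∈ R} = R := by
  show (rd I) '' ((rd I) ⁻¹' R) = R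
  exact Set.image_preimage_eq R (rd_surj I)

theorem per (I : Ideal (𝓞 F)) (R : Set ((𝓞 F ⧸ I) × (𝓞 F ⧸ I))) :
    Per I {q | rd I q ∈ R} := by
  intro a b a' b' h1 h2
  have e1 : Ideal.Quotient.mk I a = Ideal.Quotient.mk I a' := Ideal.Quotient.eq.2 h1
  have e2 : Ideal.Quotient.mk I b = Ideal.Quotient.mk I b' := Ideal.Quotient.eq.2 h2
  have e : rd I (a, b) = rd I (a', b') := Prod.ext e1 e2
  show rd I (a, b) ∈ R ↔ rd I (a', b') ∈ R
  rw [e]

end PRDM

open PRDM in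
theorem specPRD (hPRG : SpecPRG) : SpecPRD := by
  intro F _ _ S R ε hε
  obtain ⟨R0, h⟩ := hPRG F (Pl F) S (fun v => v.asIdeal) (fun v => {q | rd v.asIdeal q ∈ R v}) ε
    (fun v _ => ⟨v.ne_bot, per v.asIdeal (R v)⟩) (fun v _ w _ hvw => coprime_of_ne hvw) hε
  refine ⟨R0, fun ρ hρ => ?_⟩
  have h1 := h ρ hρ
  simp only [clm_eq] at h1
  exact h1

end Pool.Agent.Lib.MP_8cb858_nt.PU
end

section
/-!
# PRG: product densities for coprime ideals
-/
namespace Pool.Agent.Lib.MP_8cb858_nt.PU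

open Polynomial NumberField IsDedekindDomain Pool.Agent.Lib.MP_8cb858_nt.SEL
open Pool.Agent.Lib.MP_8cb858_nt.PF
open scoped Classical WithZero

namespace PRGM

lemma mem_clm {R : Type} [CommRing R] {J : Ideal R} {T : Set (R × R)} (h : Per J T) (q : R × R) :
    ((Ideal.Quotient.mk J q.1, Ideal.Quotient.mk J q.2) ∈ Clm J T) ↔ q ∈ T := by
  constructor
  · rintro ⟨p, hp, hpq⟩
    rw [Prod.ext_iff] at hpq
    obtain ⟨h1, h2⟩ := hpq
    simp only at h1 h2
    rw [Ideal.Quotient.eq] at h1 h2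
    exact (h p.1 p.2 q.1 q.2 h1 h2).1 hp
  · intro hq
    exact ⟨q, hq, rfl⟩

end PRGM

open PRGM in
theorem specPRG (hEQZ : SpecEQZ) (hDNC : PF.SpecDNC) : SpecPRG := by
  intro F _ _ ι s J T ε hJ hcop hε
  obtain ⟨hper, hcard⟩ := hDNC (𝓞 F) ι s J T (fun i hi => (hJ i hi).2) hcop
  have hne : (∏ i ∈ s, J i) ≠ ⊥ := by
    rw [← Ideal.zero_eq_bot]
    refine Finset.prod_ne_zero_iff.2 fun i hi => ?_
    rw [Ideal.zero_eq_bot]
    exact (hJ i hi).1
  obtain ⟨R0, hR0⟩ := (hEQZ F).2.2 (∏ i ∈ s, J i)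
    (Clm (∏ i ∈ s, J i) {p | ∀ i ∈ s, p ∈ T i}) ε hne hε
  refine ⟨R0, fun ρ hρ => ?_⟩
  have h1 := hR0 ρ hρ
  have e1 : {q ∈ Bx F ρ | rd (∏ i ∈ s, J i) q ∈
      Clm (∏ i ∈ s, J i) {p | ∀ i ∈ s, p ∈ T i}} = {q ∈ Bx F ρ | ∀ i ∈ s, q ∈ T i} := by
    ext q
    constructor
    · rintro ⟨hq1, hq2⟩
      exact ⟨hq1, (mem_clm hper q).1 hq2⟩
    · rintro ⟨hq1, hq2⟩
      exact ⟨hq1, (mem_clm hper q).2 hq2⟩
  have e2 : ((Clm (∏ i ∈ s, J i) {p | ∀ i ∈ s, p ∈ T i}).ncard : ℝ) /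
      (Ideal.absNorm (∏ i ∈ s, J i) : ℝ) ^ 2 =
      ∏ i ∈ s, ((Clm (J i) (T i)).ncard : ℝ) / (Ideal.absNorm (J i) : ℝ) ^ 2 := by
    rw [hcard, map_prod, Finset.prod_div_distrib, Finset.prod_pow]
    push_cast
    rfl
  rw [e1, e2] at h1
  exact h1

end Pool.Agent.Lib.MP_8cb858_nt.PU
end

section
/-!
# SWR: sampling without replacement (port of PT/SWR to any type, helper29)
-/
namespace Pool.Agent.Lib.MP_8cb858_nt.PU

open scoped Classical

namespace SWRM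

/-- The number of the `m`-subsets of `T` containing `S`. -/
theorem cnt {α : Type} (T S : Finset α) (m : ℕ) (hS : S ⊆ T) (hm : S.card ≤ m) :
    ((T.powersetCard m).filter (fun Q => S ⊆ Q)).card = (T.card - S.card).choose (m - S.card) := by
  rw [← Finset.card_sdiff_of_subset hS, ← Finset.card_powersetCard]
  refine Finset.card_nbij' (fun Q => Q \ S) (fun R => R ∪ S) ?_ ?_ ?_ ?_
  · intro Q hQ
    rw [Finset.mem_coe, Finset.mem_filter, Finset.mem_powersetCard] at hQ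
    rw [Finset.mem_coe, Finset.mem_powersetCard]
    refine ⟨Finset.sdiff_subset_sdiff hQ.1.1 le_rfl, ?_⟩
    rw [Finset.card_sdiff_of_subset hQ.2, hQ.1.2]
  · intro R hR
    rw [Finset.mem_coe, Finset.mem_powersetCard] at hR
    rw [Finset.mem_coe, Finset.mem_filter, Finset.mem_powersetCard]
    refine ⟨⟨Finset.union_subset (hR.1.trans Finset.sdiff_subset) hS, ?_⟩,
      Finset.subset_union_right⟩
    rw [Finset.card_union_of_disjoint, hR.2]
    · omega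
    · rw [Finset.disjoint_left]
      intro x hx
      exact (Finset.mem_sdiff.1 (hR.1 hx)).2
  · intro Q hQ
    rw [Finset.mem_coe, Finset.mem_filter] at hQ
    exact Finset.sdiff_union_of_subset hQ.2
  · intro R hR
    rw [Finset.mem_coe, Finset.mem_powersetCard] at hR
    show (R ∪ S) \ S = R
    rw [Finset.union_sdiff_right]
    refine Finset.sdiff_eq_self_of_disjoint ?_
    rw [Finset.disjoint_left]
    intro x hx
    exact (Finset.mem_sdiff.1 (hR.1 hx)).2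

theorem card_inter_eq {α : Type} (Q A : Finset α) :
    ((Q ∩ A).card : ℝ) = ∑ a ∈ A, if {a} ⊆ Q then (1 : ℝ) else 0 := by
  rw [Finset.sum_ite, Finset.sum_const_zero, add_zero, Finset.sum_const, nsmul_eq_mul, mul_one]
  congr 2
  ext x
  simp [and_comm]

/-- First moment. -/
theorem mom1 {α : Type} (T A : Finset α) (m : ℕ) (hA : A ⊆ T) (hm : 1 ≤ m) :
    ∑ Q ∈ T.powersetCard m, ((Q ∩ A).card : ℝ) =
      A.card * (((T.card - 1).choose (m - 1) : ℕ) : ℝ) := by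
  simp_rw [card_inter_eq]
  rw [Finset.sum_comm]
  have : ∀ a ∈ A, ∑ Q ∈ T.powersetCard m, (if {a} ⊆ Q then (1 : ℝ) else 0) =
      (((T.card - 1).choose (m - 1) : ℕ) : ℝ) := by
    intro a ha
    rw [Finset.sum_ite, Finset.sum_const_zero, add_zero, Finset.sum_const, nsmul_eq_mul, mul_one,
      cnt T {a} m (Finset.singleton_subset_iff.2 (hA ha)) (by simpa using hm),
      Finset.card_singleton]
  rw [Finset.sum_congr rfl this, Finset.sum_const, nsmul_eq_mul]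

/-- Second moment. -/
theorem mom2 {α : Type} (T A : Finset α) (m : ℕ) (hA : A ⊆ T) (hm : 2 ≤ m) :
    ∑ Q ∈ T.powersetCard m, ((Q ∩ A).card : ℝ) ^ 2 =
      A.card * (((T.card - 1).choose (m - 1) : ℕ) : ℝ) +
        A.card * (A.card - 1) * (((T.card - 2).choose (m - 2) : ℕ) : ℝ) := by
  have h1 : ∀ Q ∈ T.powersetCard m, ((Q ∩ A).card : ℝ) ^ 2 =
      ∑ a ∈ A, ∑ b ∈ A, if {a, b} ⊆ Q then (1 : ℝ) else 0 := by
    intro Q _
    rw [card_inter_eq, sq, Finset.sum_mul_sum]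
    refine Finset.sum_congr rfl fun a _ => Finset.sum_congr rfl fun b _ => ?_
    by_cases h1 : a ∈ Q <;> by_cases h2 : b ∈ Q <;> simp [Finset.insert_subset_iff, h1, h2]
  rw [Finset.sum_congr rfl h1, Finset.sum_comm]
  have h2 : ∀ a ∈ A, ∑ Q ∈ T.powersetCard m, ∑ b ∈ A, (if {a, b} ⊆ Q then (1 : ℝ) else 0) =
      (((T.card - 1).choose (m - 1) : ℕ) : ℝ) +
        (A.card - 1) * (((T.card - 2).choose (m - 2) : ℕ) : ℝ) := by
    intro a ha
    rw [Finset.sum_comm]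
    rw [← Finset.add_sum_erase A _ ha]
    have h3 : ∀ b ∈ A.erase a, ∑ Q ∈ T.powersetCard m, (if {a, b} ⊆ Q then (1 : ℝ) else 0) =
        (((T.card - 2).choose (m - 2) : ℕ) : ℝ) := by
      intro b hb
      have hab : a ≠ b := fun h => (Finset.mem_erase.1 hb).1 h.symm
      rw [Finset.sum_ite, Finset.sum_const_zero, add_zero, Finset.sum_const, nsmul_eq_mul, mul_one,
        cnt T {a, b} m ?_ ?_, Finset.card_pair hab]
      · intro x hx
        rcases Finset.mem_insert.1 hx with rfl | hx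
        · exact hA ha
        · rw [Finset.mem_singleton.1 hx]
          exact hA (Finset.mem_of_mem_erase hb)
      · rw [Finset.card_pair hab]
        exact hm
    rw [Finset.sum_congr rfl h3, Finset.sum_const, nsmul_eq_mul, Finset.card_erase_of_mem ha,
      Nat.cast_sub (Finset.card_pos.2 ⟨a, ha⟩), Nat.cast_one, Finset.pair_eq_singleton,
      Finset.sum_ite, Finset.sum_const_zero, add_zero, Finset.sum_const, nsmul_eq_mul, mul_one,
      cnt T {a} m (Finset.singleton_subset_iff.2 (hA ha)) (by simp; omega),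
      Finset.card_singleton]
  rw [Finset.sum_congr rfl h2, Finset.sum_const, nsmul_eq_mul]
  ring

theorem ch1 (t m : ℕ) (ht : 1 ≤ t) (hm : 1 ≤ m) :
    (((t - 1).choose (m - 1) : ℕ) : ℝ) * t = m * ((t.choose m : ℕ) : ℝ) := by
  obtain ⟨t, rfl⟩ := Nat.exists_eq_add_of_le' ht
  obtain ⟨m, rfl⟩ := Nat.exists_eq_add_of_le' hm
  have := Nat.add_one_mul_choose_eq t m
  simp only [Nat.add_sub_cancel]
  have h : ((((t + 1) * t.choose m : ℕ)) : ℝ) = (((t + 1).choose (m + 1) * (m + 1) : ℕ) : ℝ) := by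
    exact_mod_cast this
  push_cast at h ⊢
  linarith

end SWRM

theorem specSWR : SpecSWR := by
  intro α T A m η hη hA hmt ht2 hm hbias
  set t : ℝ := (T.card : ℝ) with ht
  set a : ℝ := (A.card : ℝ) with ha
  have ht2' : (2 : ℝ) ≤ t := by
    rw [ht]
    exact_mod_cast ht2
  have ht0 : 0 < t := by linarith
  have ha0 : 0 ≤ a := Nat.cast_nonneg _
  have hat : a ≤ t := by
    rw [ht, ha]
    exact_mod_cast Finset.card_le_card hA
  have hη2 : η < 1 / 2 := by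
    have h1 : |a - t / 2| ≤ t / 2 := by
      rw [abs_le]
      constructor <;> linarith
    have h2 : η * t < 1 / 2 * t := by linarith
    exact lt_of_mul_lt_mul_right h2 ht0.le
  have hη22 : η ^ 2 < 1 / 4 := by nlinarith
  have hm16 : (16 : ℝ) ≤ m := by
    refine le_trans ?_ hm
    rw [le_div_iff₀ (by positivity)]
    nlinarith
  have hm2 : 2 ≤ m := by
    have : (2 : ℝ) ≤ m := by linarith
    exact_mod_cast this
  have hm0 : (0 : ℝ) < m := by linarith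
  have hmt' : (m : ℝ) ≤ t := by
    rw [ht]
    exact_mod_cast hmt
  have hηm : 4 ≤ η ^ 2 * m := by
    rw [div_le_iff₀ (by positivity)] at hm
    linarith
  set C : ℝ := ((T.card.choose m : ℕ) : ℝ) with hC
  have hC0 : 0 ≤ C := Nat.cast_nonneg _
  have e1 := SWRM.mom1 T A m hA (by omega)
  have e2 := SWRM.mom2 T A m hA hm2
  have c1 := SWRM.ch1 T.card m (by omega) (by omega)
  have c2 := SWRM.ch1 (T.card - 1) (m - 1) (by omega) (by omega)
  rw [Nat.cast_sub (by omega : 1 ≤ T.card), Nat.cast_sub (by omega : 1 ≤ m), Nat.cast_one,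
    Nat.sub_sub, Nat.sub_sub] at c2
  set p1 : ℝ := (((T.card - 1).choose (m - 1) : ℕ) : ℝ) with hp1
  norm_num at c2
  set p2 : ℝ := (((T.card - 2).choose (m - 2) : ℕ) : ℝ) with hp2
  have hcard : ((T.powersetCard m).card : ℝ) = C := by rw [Finset.card_powersetCard]
  set μ : ℝ := a * m / t with hμ
  have e3 : ∑ Q ∈ T.powersetCard m, (((Q ∩ A).card : ℝ) - μ) ^ 2 =
      a * p1 + a * (a - 1) * p2 - 2 * μ * (a * p1) + C * μ ^ 2 := by
    have : ∀ Q ∈ T.powersetCard m, (((Q ∩ A).card : ℝ) - μ) ^ 2 =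
        ((Q ∩ A).card : ℝ) ^ 2 - 2 * μ * ((Q ∩ A).card : ℝ) + μ ^ 2 := by
      intro Q _
      ring
    rw [Finset.sum_congr rfl this, Finset.sum_add_distrib, Finset.sum_sub_distrib, e2,
      ← Finset.mul_sum, e1, Finset.sum_const, nsmul_eq_mul, hcard]
  have ht1 : 0 < t - 1 := by linarith
  have hp1e : p1 = m * C / t := by
    rw [eq_div_iff ht0.ne']
    exact c1
  have hp2e : p2 = (m - 1) * (m * C / t) / (t - 1) := by
    rw [eq_div_iff ht1.ne', ← hp1e]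
    exact c2
  have e4 : ∑ Q ∈ T.powersetCard m, (((Q ∩ A).card : ℝ) - μ) ^ 2 ≤ C * m / 2 := by
    rw [e3, hp2e, hp1e, hμ]
    have e5 : a * (m * C / t) + a * (a - 1) * ((m - 1) * (m * C / t) / (t - 1)) -
        2 * (a * m / t) * (a * (m * C / t)) + C * (a * m / t) ^ 2 =
        C * m * (a * (t - a) * (t - m)) / (t ^ 2 * (t - 1)) := by
      field_simp
      ring
    rw [e5, div_le_div_iff₀ (by positivity) (by norm_num)]
    have h6 : a * (t - a) ≤ t ^ 2 / 4 := by nlinarith [sq_nonneg (a - t / 2)]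
    have h7 : 0 ≤ t - m := by linarith
    have h8 : a * (t - a) * (t - m) ≤ t ^ 2 / 4 * t :=
      mul_le_mul h6 (by linarith) h7 (by positivity)
    have h9 : t ^ 2 / 4 * t * 2 ≤ t ^ 2 * (t - 1) := by
      have : t ^ 2 / 4 * t * 2 = t ^ 2 * (t / 2) := by ring
      rw [this]
      exact mul_le_mul_of_nonneg_left (by linarith) (by positivity)
    have h10 : 0 ≤ C * m := by positivity
    calc C * m * (a * (t - a) * (t - m)) * 2 = C * m * (a * (t - a) * (t - m) * 2) := by ring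
      _ ≤ C * m * (t ^ 2 * (t - 1)) := mul_le_mul_of_nonneg_left (by linarith) h10
  set B := (T.powersetCard m).filter
    (fun Q => η / 2 * (m : ℝ) < |((Q ∩ A).card : ℝ) - (m : ℝ) / 2|) with hB
  set G := (T.powersetCard m).filter
    (fun Q => ¬ η / 2 * (m : ℝ) < |((Q ∩ A).card : ℝ) - (m : ℝ) / 2|) with hG
  have hBG : (B.card : ℝ) + G.card = C := by
    rw [← hcard]
    exact_mod_cast Finset.card_filter_add_card_filter_not _
  have hμm : η * m ≤ |μ - m / 2| := by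
    have : μ - m / 2 = (a - t / 2) * (m / t) := by
      rw [hμ]
      field_simp
    rw [this, abs_mul, abs_of_pos (by positivity : 0 < (m : ℝ) / t)]
    have h11 : η * t * (m / t) ≤ |a - t / 2| * (m / t) :=
      mul_le_mul_of_nonneg_right hbias.le (by positivity)
    have h12 : η * t * (m / t) = η * m := by
      field_simp
    linarith
  have hGd : ∀ Q ∈ G, (η * m / 2) ^ 2 ≤ (((Q ∩ A).card : ℝ) - μ) ^ 2 := by
    intro Q hQ
    have hQ' := not_lt.1 (Finset.mem_filter.1 hQ).2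
    rw [← sq_abs (((Q ∩ A).card : ℝ) - μ)]
    refine pow_le_pow_left₀ (by positivity) ?_ 2
    have h13 : |μ - m / 2| ≤ |((Q ∩ A).card : ℝ) - μ| + |((Q ∩ A).card : ℝ) - (m : ℝ) / 2| := by
      have : μ - m / 2 = (((Q ∩ A).card : ℝ) - (m : ℝ) / 2) - (((Q ∩ A).card : ℝ) - μ) := by ring
      rw [this, add_comm]
      exact abs_sub _ _
    linarith
  have h14 : (G.card : ℝ) * (η * m / 2) ^ 2 ≤ C * m / 2 := by
    refine le_trans ?_ e4
    rw [← nsmul_eq_mul, ← Finset.sum_const]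
    refine (Finset.sum_le_sum hGd).trans ?_
    exact Finset.sum_le_sum_of_subset_of_nonneg (Finset.filter_subset _ _)
      fun Q _ _ => sq_nonneg _
  have h15 : (G.card : ℝ) ≤ C / 2 := by
    have h16 : (G.card : ℝ) * m ≤ (G.card : ℝ) * (η * m / 2) ^ 2 := by
      refine mul_le_mul_of_nonneg_left ?_ (Nat.cast_nonneg _)
      have : (η * m / 2) ^ 2 = η ^ 2 * m * m / 4 := by ring
      rw [this]
      nlinarith
    have h17 : (G.card : ℝ) * m ≤ C / 2 * m := by linarith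
    exact le_of_mul_le_mul_right h17 hm0
  linarith

end Pool.Agent.Lib.MP_8cb858_nt.PU
end

section
/-! Module TYE: the types are well distributed in all lists, over `F`. -/
set_option autoImplicit false

namespace Pool.Agent.Lib.MP_8cb858_nt.PU

open Polynomial NumberField IsDedekindDomain Pool.Agent.Lib.MP_8cb858_nt.SEL
open Pool.Agent.Lib.MP_8cb858_nt.PF
open scoped Classical WithZero

namespace TYEM

section

variable {F : Type} [Field F] [NumberField F]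

/-- finitely many thresholds -/
theorem unif {α : Type} (s : Finset α) (P : α → (InfinitePlace F → ℝ) → Prop)
    (h : ∀ a ∈ s, ∃ R0 : ℝ, ∀ ρ : InfinitePlace F → ℝ, (∀ v, R0 ≤ ρ v) → P a ρ) :
    ∃ R0 : ℝ, ∀ ρ : InfinitePlace F → ℝ, (∀ v, R0 ≤ ρ v) → ∀ a ∈ s, P a ρ := by
  induction s using Finset.induction_on with
  | empty => exact ⟨0, fun X _ a ha => absurd ha (Finset.notMem_empty a)⟩
  | insert b t hb ih =>
    obtain ⟨X1, h1⟩ := ih fun a ha => h a (Finset.mem_insert_of_mem ha)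
    obtain ⟨X2, h2⟩ := h b (Finset.mem_insert_self b t)
    refine ⟨max X1 X2, fun X hX a ha => ?_⟩
    rcases Finset.mem_insert.1 ha with rfl | ha
    · exact h2 X fun v => le_trans (le_max_right _ _) (hX v)
    · exact h1 X (fun v => le_trans (le_max_left _ _) (hX v)) a ha

/-- a union of `r` sets of small measure -/
theorem union_bound {r : ℕ} (ρ : InfinitePlace F → ℝ) (P : Fin r → 𝓞 F × 𝓞 F → Prop)
    (c : ℝ) (h : ∀ i, ({E ∈ Bx F ρ | P i E}.ncard : ℝ) ≤ c) :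
    ({E ∈ Bx F ρ | ∃ i, P i E}.ncard : ℝ) ≤ r * c := by
  have h1 : {E ∈ Bx F ρ | ∃ i, P i E} =
      ⋃ i ∈ (Finset.univ : Finset (Fin r)), {E ∈ Bx F ρ | P i E} := by
    ext E
    simp only [Set.mem_sep_iff, Finset.mem_univ, Set.iUnion_true, Set.mem_iUnion]
    constructor
    · rintro ⟨h1, i, h2⟩
      exact ⟨i, h1, h2⟩
    · rintro ⟨i, h1, h2⟩
      exact ⟨h1, i, h2⟩
  have h2 : ({E ∈ Bx F ρ | ∃ i, P i E}).ncard ≤ ∑ i : Fin r, {E ∈ Bx F ρ | P i E}.ncard := by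
    rw [h1]
    exact Finset.set_ncard_biUnion_le _ _
  have h3 : (({E ∈ Bx F ρ | ∃ i, P i E}).ncard : ℝ) ≤
      ∑ i : Fin r, ({E ∈ Bx F ρ | P i E}.ncard : ℝ) := by exact_mod_cast h2
  refine h3.trans ((Finset.sum_le_sum fun i _ => h i).trans ?_)
  rw [Finset.sum_const, Finset.card_univ, Fintype.card_fin, nsmul_eq_mul]

theorem six (S : Dat F) (hS : S.Ok) {i : Fin S.r} {q : Pl F} (hq : q ∈ S.L i) :
    (6 : 𝓞 F) ∉ q.asIdeal := (S.G.six q fun h => hS.lpr i q hq (hS.gs h)).1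

theorem card_sub (hTYZ : SpecTYZ) (S : Dat F) (hS : S.Ok) (i : Fin S.r) (E' : 𝓞 F × 𝓞 F) {κ : ℝ}
    (h : Tok κ (S.L i) E') :
    (1 / 3 - κ) * ((S.L i).card : ℝ) ≤
      (((S.L i).filter (fun q => ty q E' = 1)).card : ℝ) := by
  have e : (S.L i).filter (fun q => ty q E' = 1) = (S.L i).filter (fun q => Y3 q E') :=
    Finset.filter_congr fun q hq => hTYZ.t1 F q E' (six S hS hq)
  rw [e]
  have := (abs_le.1 h.t3).1
  linarith

end

end TYEM

/-- **TYE.** -/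
theorem specTYE (hTYV : SpecTYV) (hTYZ : SpecTYZ) : SpecTYE := by
  intro F _ _ κ ε hκ hκ1 hε
  obtain ⟨m, hm⟩ : ∃ m : ℝ, m = 6 * Module.finrank ℚ F + 6 := ⟨_, rfl⟩
  have hm0 : 0 < m := by rw [hm]; positivity
  obtain ⟨c, hc⟩ : ∃ c : ℝ, c = 4 * m / (κ ^ 2 * ε) := ⟨_, rfl⟩
  have hc0 : 0 < c := by rw [hc]; positivity
  refine ⟨⌈c⌉₊ + 1, fun S hB => ?_⟩
  have hS := hB.ok
  have hr0 : (1 : ℝ) ≤ S.r := by exact_mod_cast hS.rp
  have hexp : c * S.r ≤ Real.exp ((⌈c⌉₊ + 1 : ℕ) * S.r) := by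
    have h1 : c ≤ ⌈c⌉₊ := Nat.le_ceil c
    have h2 : (0 : ℝ) ≤ (⌈c⌉₊ : ℝ) := Nat.cast_nonneg _
    have h3 : (⌈c⌉₊ : ℝ) ≤ (⌈c⌉₊ : ℝ) * S.r := by nlinarith
    have h4 : (⌈c⌉₊ : ℝ) * S.r + 1 ≤ Real.exp ((⌈c⌉₊ : ℝ) * S.r) := Real.add_one_le_exp _
    have h5 : (S.r : ℝ) + 1 ≤ Real.exp S.r := Real.add_one_le_exp _
    have e : Real.exp ((⌈c⌉₊ + 1 : ℕ) * S.r) = Real.exp ((⌈c⌉₊ : ℝ) * S.r) * Real.exp S.r := by
      rw [← Real.exp_add]
      push_cast
      ring_nf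
    rw [e]
    exact mul_le_mul (by linarith) (by linarith) (by linarith) (Real.exp_pos _).le
  -- one sublist
  have hone : ∀ (i : Fin S.r) (T : Finset (Pl F)), T ⊆ S.L i →
      Real.exp ((⌈c⌉₊ + 1 : ℕ) * S.r) ≤ 4 * (T.card : ℝ) →
      ∃ R0 : ℝ, ∀ ρ : InfinitePlace F → ℝ, (∀ v, R0 ≤ ρ v) →
        ({E ∈ Bx F ρ | ¬ Tok κ T E}.ncard : ℝ) ≤ ε / S.r * ((Bx F ρ).ncard : ℝ) := by
    intro i T hT hcard
    obtain ⟨R0, h3⟩ := hTYV F κ T hκ fun q hq => TYEM.six S hS (hT hq)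
    refine ⟨R0, fun ρ hρ => ?_⟩
    have h4 := h3 ρ hρ
    rw [← hm] at h4
    have e : {E ∈ Bx F ρ | ¬ (|((T.filter (fun q => Y12 q E)).card : ℝ) - (T.card : ℝ) / 2| ≤
        κ * T.card ∧
      |((T.filter (fun q => Y3 q E)).card : ℝ) - (T.card : ℝ) / 3| ≤ κ * T.card)} =
        {E ∈ Bx F ρ | ¬ Tok κ T E} := by
      ext E
      simp only [Set.mem_sep_iff]
      exact and_congr_right fun _ => not_congr ⟨fun h => ⟨h.1, h.2⟩, fun h => ⟨h.t12, h.t3⟩⟩
    rw [e] at h4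
    have h5 : c * S.r ≤ 4 * (T.card : ℝ) := hexp.trans hcard
    have hX : (0 : ℝ) ≤ ({E ∈ Bx F ρ | ¬ Tok κ T E}.ncard : ℝ) := Nat.cast_nonneg _
    have h6 : ({E ∈ Bx F ρ | ¬ Tok κ T E}.ncard : ℝ) * (κ ^ 2 * (c * S.r)) ≤
        4 * (m * ((Bx F ρ).ncard : ℝ)) := by
      have h7 : ({E ∈ Bx F ρ | ¬ Tok κ T E}.ncard : ℝ) * (κ ^ 2 * (c * S.r)) ≤
          ({E ∈ Bx F ρ | ¬ Tok κ T E}.ncard : ℝ) * (κ ^ 2 * (4 * (T.card : ℝ))) := by
        gcongr
      linarith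
    have h8 : κ ^ 2 * (c * S.r) = 4 * m * (S.r / ε) := by
      rw [hc]
      field_simp
    rw [h8] at h6
    have hr : (0 : ℝ) < S.r := by linarith
    have h9 : ({E ∈ Bx F ρ | ¬ Tok κ T E}.ncard : ℝ) * (S.r / ε) ≤ ((Bx F ρ).ncard : ℝ) := by
      have h10 : 4 * m * (({E ∈ Bx F ρ | ¬ Tok κ T E}.ncard : ℝ) * (S.r / ε)) ≤
          4 * m * ((Bx F ρ).ncard : ℝ) := by linarith
      exact le_of_mul_le_mul_left h10 (by positivity)
    rw [div_mul_eq_mul_div, le_div_iff₀ hr]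
    rw [← mul_div_assoc, div_le_iff₀ hε] at h9
    linarith
  -- all sublists
  have hall : ∃ R0 : ℝ, ∀ ρ : InfinitePlace F → ℝ, (∀ v, R0 ≤ ρ v) →
      ∀ a ∈ (Finset.univ : Finset (Fin S.r)),
      ∀ T ∈ (S.L a).powerset, Real.exp ((⌈c⌉₊ + 1 : ℕ) * S.r) ≤ 4 * (T.card : ℝ) →
        ({E ∈ Bx F ρ | ¬ Tok κ T E}.ncard : ℝ) ≤ ε / S.r * ((Bx F ρ).ncard : ℝ) := by
    refine TYEM.unif _ _ fun i _ => ?_
    refine TYEM.unif _ _ fun T hT => ?_
    by_cases hcard : Real.exp ((⌈c⌉₊ + 1 : ℕ) * S.r) ≤ 4 * (T.card : ℝ)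
    · obtain ⟨X0, h3⟩ := hone i T (Finset.mem_powerset.1 hT) hcard
      exact ⟨X0, fun X hX _ => h3 X hX⟩
    · exact ⟨0, fun X _ h => absurd h hcard⟩
  obtain ⟨R0, h3⟩ := hall
  refine ⟨R0, fun ρ hρ => ?_⟩
  have hH : (0 : ℝ) ≤ ((Bx F ρ).ncard : ℝ) := Nat.cast_nonneg _
  have hfin : ∀ T : Fin S.r → Finset (Pl F), (∀ i, T i ⊆ S.L i) →
      (∀ i, Real.exp ((⌈c⌉₊ + 1 : ℕ) * S.r) ≤ 4 * ((T i).card : ℝ)) →
      ({E ∈ Bx F ρ | ∃ i, ¬ Tok κ (T i) E}.ncard : ℝ) ≤ ε * ((Bx F ρ).ncard : ℝ) := by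
    intro T hT hcard
    have h5 := TYEM.union_bound ρ (fun i E => ¬ Tok κ (T i) E) _
      (fun i => h3 ρ hρ i (Finset.mem_univ _) (T i) (Finset.mem_powerset.2 (hT i)) (hcard i))
    have hr : (S.r : ℝ) ≠ 0 := by linarith
    calc ({E ∈ Bx F ρ | ∃ i, ¬ Tok κ (T i) E}.ncard : ℝ) ≤
          S.r * (ε / S.r * ((Bx F ρ).ncard : ℝ)) := h5
      _ = ε * ((Bx F ρ).ncard : ℝ) := by field_simp
  have hpos := Real.exp_pos ((⌈c⌉₊ + 1 : ℕ) * S.r)
  constructor
  · refine hfin (fun i => S.L i) (fun i => subset_rfl) (fun i => ?_)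
    have h6 := hB.card i
    linarith
  · intro E' hE'
    refine hfin (fun i => (S.L i).filter (fun q => ty q E' = 1)) (fun i => Finset.filter_subset _ _)
      (fun i => ?_)
    have h6 := hB.card i
    have h7 := TYEM.card_sub hTYZ S hS i E' (hE' i)
    have h8 : (1 / 4 : ℝ) * ((S.L i).card : ℝ) ≤ (1 / 3 - κ) * ((S.L i).card : ℝ) :=
      mul_le_mul_of_nonneg_right (by linarith) (Nat.cast_nonneg _)
    linarith

end Pool.Agent.Lib.MP_8cb858_nt.PU
end

section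
/-!
# The types in a list
-/
namespace Pool.Agent.Lib.MP_8cb858_nt.PU

open Polynomial NumberField IsDedekindDomain Pool.Agent.Lib.MP_8cb858_nt.SEL
open Pool.Agent.Lib.MP_8cb858_nt.PF
open scoped Classical WithZero

namespace TYVM

variable {F : Type} [Field F] [NumberField F]

/-- the second moment -/
lemma var (hPRD : SpecPRD) (hfin : ∀ X : InfinitePlace F → ℝ, (Bx F X).Finite) (μ : ℝ)
    (hμ0 : 0 ≤ μ) (hμ1 : μ ≤ 1) (R : ∀ v : Pl F, Set (Kv v)) (L : Finset (Pl F)) (n : ℝ)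
    (hsq : ∑ q ∈ L, (1 / (nv q : ℝ)) ^ 2 ≤ n / 4)
    (hρ : ∀ q ∈ L, |((R q).ncard : ℝ) / (nv q : ℝ) ^ 2 - μ| ≤ 1 / (nv q : ℝ)) :
    ∃ X0 : ℝ, ∀ X : InfinitePlace F → ℝ, (∀ v, X0 ≤ X v) →
      ∑ E ∈ (hfin X).toFinset,
        (((L.filter (fun q => rd q.asIdeal E ∈ R q)).card : ℝ) -
          μ * L.card) ^ 2 ≤ (n / 4 + 2) * (L.card : ℝ) * ((Bx F X).ncard : ℝ) := by
  set N : ℝ := (L.card : ℝ) with hN
  have hN0 : 0 ≤ N := Nat.cast_nonneg _
  set ε : ℝ := 1 / (3 * (N + 1)) with hε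
  have hε0 : 0 < ε := by positivity
  -- the thresholds
  have h1 : ∀ q q' : Pl F, ∃ X0 : ℝ, q ∈ L → q' ∈ L → ∀ X : InfinitePlace F → ℝ,
      (∀ v, X0 ≤ X v) →
      |({E ∈ Bx F X | ∀ p ∈ ({q, q'} : Finset (Pl F)), rd p.asIdeal E ∈ R p}.ncard : ℝ) -
        (∏ p ∈ ({q, q'} : Finset (Pl F)), ((R p).ncard : ℝ) / (nv p : ℝ) ^ 2) *
          ((Bx F X).ncard : ℝ)| ≤ ε * ((Bx F X).ncard : ℝ) := by
    intro q q'
    obtain ⟨X0, hX0⟩ := hPRD F {q, q'} R ε hε0
    exact ⟨X0, fun _ _ => hX0⟩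
  choose X0 hX0 using h1
  refine ⟨∑ q ∈ L, ∑ q' ∈ L, |X0 q q'|, fun X hX => ?_⟩
  have hXle : ∀ q ∈ L, ∀ q' ∈ L, ∀ v, X0 q q' ≤ X v := by
    intro q hq q' hq' v
    have hXv := hX v
    have a1 := Finset.single_le_sum (f := fun q' => |X0 q q'|) (fun j _ => abs_nonneg _) hq'
    have a2 := Finset.single_le_sum (f := fun q => ∑ q' ∈ L, |X0 q q'|)
      (fun j _ => Finset.sum_nonneg fun _ _ => abs_nonneg _) hq
    have a3 := le_abs_self (X0 q q')
    linarith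
  set H : Finset (𝓞 F × 𝓞 F) := (hfin X).toFinset with hH
  have hHc : (H.card : ℝ) = ((Bx F X).ncard : ℝ) := by
    rw [Set.ncard_eq_toFinset_card _ (hfin X)]
  set h : ℝ := ((Bx F X).ncard : ℝ) with hh
  have hh0 : 0 ≤ h := Nat.cast_nonneg _
  set x : Pl F → 𝓞 F × 𝓞 F → ℝ := fun q E => if rd q.asIdeal E ∈ R q then 1 else 0
    with hx
  have hx0 : ∀ q E, 0 ≤ x q E := fun q E => by rw [hx]; simp only; split_ifs <;> norm_num
  have hx1 : ∀ q E, x q E ≤ 1 := fun q E => by rw [hx]; simp only; split_ifs <;> norm_num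
  set ρ : Pl F → ℝ := fun q => ((R q).ncard : ℝ) / (nv q : ℝ) ^ 2 with hρd
  -- first moments
  have hsx : ∀ q ∈ L, (ρ q - ε) * h ≤ ∑ E ∈ H, x q E := by
    intro q hq
    have a1 := (abs_le.1 (hX0 q q hq hq X (hXle q hq q hq))).1
    have a2 : ({E ∈ Bx F X | ∀ p ∈ ({q, q} : Finset (Pl F)),
        rd p.asIdeal E ∈ R p}.ncard : ℝ) = ∑ E ∈ H, x q E := by
      rw [hx]
      simp only
      rw [Finset.sum_boole]
      have : ({E ∈ Bx F X | ∀ p ∈ ({q, q} : Finset (Pl F)),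
          rd p.asIdeal E ∈ R p} : Set (𝓞 F × 𝓞 F)) =
          ((H.filter (fun E => rd q.asIdeal E ∈ R q) : Finset (𝓞 F × 𝓞 F)) :
            Set (𝓞 F × 𝓞 F)) := by
        ext E
        rw [Finset.mem_coe, Finset.mem_filter, hH, Set.Finite.mem_toFinset]
        simp
      rw [this, Set.ncard_coe_finset]
    rw [a2, Finset.pair_eq_singleton, Finset.prod_singleton] at a1
    have a3 : (ρ q - ε) * h = ρ q * h - ε * h := by ring
    rw [a3]
    linarith
  -- second moments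
  have hsxx : ∀ q ∈ L, ∀ q' ∈ L, q ≠ q' → ∑ E ∈ H, x q E * x q' E ≤ (ρ q * ρ q' + ε) * h := by
    intro q hq q' hq' hne
    have a1 := (abs_le.1 (hX0 q q' hq hq' X (hXle q hq q' hq'))).2
    have a2 : ({E ∈ Bx F X | ∀ p ∈ ({q, q'} : Finset (Pl F)),
        rd p.asIdeal E ∈ R p}.ncard : ℝ) = ∑ E ∈ H, x q E * x q' E := by
      have b1 : ∀ E, x q E * x q' E = if (rd q.asIdeal E ∈ R q ∧
          rd q'.asIdeal E ∈ R q') then 1 else 0 := by
        intro E
        rw [hx]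
        simp only
        by_cases c1 : rd q.asIdeal E ∈ R q <;>
          by_cases c2 : rd q'.asIdeal E ∈ R q' <;> simp [c1, c2]
      simp_rw [b1]
      rw [Finset.sum_boole]
      have : ({E ∈ Bx F X | ∀ p ∈ ({q, q'} : Finset (Pl F)),
          rd p.asIdeal E ∈ R p} : Set (𝓞 F × 𝓞 F)) =
          ((H.filter (fun E => (rd q.asIdeal E ∈ R q ∧
          rd q'.asIdeal E ∈ R q')) : Finset (𝓞 F × 𝓞 F)) :
            Set (𝓞 F × 𝓞 F)) := by
        ext E
        rw [Finset.mem_coe, Finset.mem_filter, hH, Set.Finite.mem_toFinset]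
        constructor
        · rintro ⟨d1, d2⟩
          exact ⟨d1, d2 q (by simp), d2 q' (by simp)⟩
        · rintro ⟨d1, d2, d3⟩
          refine ⟨d1, fun p hp => ?_⟩
          rw [Finset.mem_insert, Finset.mem_singleton] at hp
          rcases hp with rfl | rfl
          · exact d2
          · exact d3
      rw [this, Set.ncard_coe_finset]
    rw [a2, Finset.prod_pair hne] at a1
    have a3 : (ρ q * ρ q' + ε) * h = ρ q * ρ q' * h + ε * h := by ring
    rw [a3]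
    linarith
  -- covariance
  have hcov : ∀ q ∈ L, ∀ q' ∈ L, ∑ E ∈ H, (x q E - μ) * (x q' E - μ) ≤
      (1 / (nv q : ℝ) * (1 / (nv q' : ℝ)) + 3 * ε + if q = q' then 1 else 0) * h := by
    intro q hq q' hq'
    by_cases hne : q = q'
    · subst hne
      rw [if_pos rfl]
      calc ∑ E ∈ H, (x q E - μ) * (x q E - μ) ≤ ∑ E ∈ H, (1 : ℝ) := by
            refine Finset.sum_le_sum fun E _ => ?_
            nlinarith [hx0 q E, hx1 q E]
        _ = h := by rw [Finset.sum_const, nsmul_eq_mul, mul_one, hHc]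
        _ ≤ _ := by
            have : (0 : ℝ) ≤ 1 / (nv q : ℝ) * (1 / (nv q : ℝ)) + 3 * ε := by positivity
            nlinarith
    · rw [if_neg hne, add_zero]
      have e1 : ∑ E ∈ H, (x q E - μ) * (x q' E - μ) = ∑ E ∈ H, x q E * x q' E -
          μ * ∑ E ∈ H, x q E - μ * ∑ E ∈ H, x q' E + μ ^ 2 * h := by
        rw [← hHc, Finset.mul_sum, Finset.mul_sum, ← Finset.sum_sub_distrib,
          ← Finset.sum_sub_distrib, mul_comm (μ ^ 2), ← nsmul_eq_mul, ← Finset.sum_const,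
          ← Finset.sum_add_distrib]
        refine Finset.sum_congr rfl fun E _ => ?_
        ring
      rw [e1]
      have e2 := hsxx q hq q' hq' hne
      have e3 := mul_le_mul_of_nonneg_left (hsx q hq) hμ0
      have e4 := mul_le_mul_of_nonneg_left (hsx q' hq') hμ0
      have e5 : (ρ q - μ) * (ρ q' - μ) ≤ 1 / (nv q : ℝ) * (1 / (nv q' : ℝ)) := by
        refine (le_abs_self _).trans ?_
        rw [abs_mul]
        exact mul_le_mul (hρ q hq) (hρ q' hq') (abs_nonneg _) (by positivity)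
      have e6 : (ρ q - μ) * (ρ q' - μ) * h ≤ 1 / (nv q : ℝ) * (1 / (nv q' : ℝ)) * h :=
        mul_le_mul_of_nonneg_right e5 hh0
      have e7 : μ * ε * h ≤ ε * h := by
        have : μ * ε ≤ ε := by nlinarith
        exact mul_le_mul_of_nonneg_right this hh0
      nlinarith
  -- sum
  have hexp : ∑ E ∈ H, (((L.filter (fun q => rd q.asIdeal E ∈ R q)).card : ℝ) -
          μ * L.card) ^ 2 = ∑ q ∈ L, ∑ q' ∈ L, ∑ E ∈ H, (x q E - μ) * (x q' E - μ) := by
    have b1 : ∀ E : 𝓞 F × 𝓞 F, ((L.filter (fun q => rd q.asIdeal E ∈ R q)).card : ℝ) -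
          μ * L.card = ∑ q ∈ L, (x q E - μ) := by
      intro E
      rw [Finset.sum_sub_distrib, Finset.sum_const, nsmul_eq_mul, hx]
      simp only
      rw [Finset.sum_boole]
      ring
    simp_rw [b1, sq, Finset.sum_mul_sum]
    rw [Finset.sum_comm]
    refine Finset.sum_congr rfl fun q _ => ?_
    rw [Finset.sum_comm]
  rw [hexp]
  calc ∑ q ∈ L, ∑ q' ∈ L, ∑ E ∈ H, (x q E - μ) * (x q' E - μ)
      ≤ ∑ q ∈ L, ∑ q' ∈ L, (1 / (nv q : ℝ) * (1 / (nv q' : ℝ)) + 3 * ε + if q = q' then 1 else 0) * h :=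
        Finset.sum_le_sum fun q hq => Finset.sum_le_sum fun q' hq' => hcov q hq q' hq'
    _ = ((∑ q ∈ L, 1 / (nv q : ℝ)) ^ 2 + 3 * ε * (N * N) + N) * h := by
        simp_rw [← Finset.sum_mul, Finset.sum_add_distrib]
        congr 1
        have c1 : ∑ q ∈ L, ∑ q' ∈ L, 1 / (nv q : ℝ) * (1 / (nv q' : ℝ)) = (∑ q ∈ L, 1 / (nv q : ℝ)) ^ 2 := by
          rw [sq, Finset.sum_mul_sum]
        have c2 : ∑ q ∈ L, ∑ q' ∈ L, (if q = q' then (1 : ℝ) else 0) = N := by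
          have : ∀ q ∈ L, ∑ q' ∈ L, (if q = q' then (1 : ℝ) else 0) = 1 := by
            intro q hq
            rw [Finset.sum_ite_eq L q, if_pos hq]
          rw [Finset.sum_congr rfl this, Finset.sum_const, nsmul_eq_mul, mul_one]
        have c3 : ∑ q ∈ L, ∑ q' ∈ L, 3 * ε = 3 * ε * (N * N) := by
          rw [Finset.sum_const, Finset.sum_const, nsmul_eq_mul, nsmul_eq_mul]; ring
        rw [c1, c2, c3]
    _ ≤ (n / 4 + 2) * N * h := by
        refine mul_le_mul_of_nonneg_right ?_ hh0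
        have d1 : (∑ q ∈ L, 1 / (nv q : ℝ)) ^ 2 ≤ N * ∑ q ∈ L, (1 / (nv q : ℝ)) ^ 2 :=
          sq_sum_le_card_mul_sum_sq
        have d3 : N * ∑ q ∈ L, (1 / (nv q : ℝ)) ^ 2 ≤ N * (n / 4) :=
          mul_le_mul_of_nonneg_left hsq hN0
        have d4 : 3 * ε * (N * N) ≤ N := by
          have : 3 * ε * (N * N) = N * (N / (N + 1)) := by rw [hε]; field_simp
          rw [this]
          have h2 : N / (N + 1) ≤ 1 := by rw [div_le_one (by linarith)]; linarith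
          nlinarith
        linarith

/-- Chebyshev -/
lemma cheb {α : Type*} (H : Finset α) (f : α → ℝ) (N κ h C : ℝ) (hN : 0 ≤ N) (hC : 0 ≤ C)
    (hv : ∑ E ∈ H, f E ^ 2 ≤ C * N * h) (hh : 0 ≤ h) (hκ : 0 < κ) :
    ((H.filter (fun E => κ * N < |f E|)).card : ℝ) * (κ ^ 2 * N) ≤ C * h := by
  rcases hN.eq_or_lt with h0 | h0
  · rw [← h0]
    have := mul_nonneg hC hh
    simpa using this
  · have h1 : ((H.filter (fun E => κ * N < |f E|)).card : ℝ) * (κ * N) ^ 2 ≤ C * N * h := by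
      calc ((H.filter (fun E => κ * N < |f E|)).card : ℝ) * (κ * N) ^ 2
          = ∑ E ∈ H.filter (fun E => κ * N < |f E|), (κ * N) ^ 2 := by
            rw [Finset.sum_const, nsmul_eq_mul]
        _ ≤ ∑ E ∈ H.filter (fun E => κ * N < |f E|), f E ^ 2 := by
            refine Finset.sum_le_sum fun E hE => ?_
            have h2 := (Finset.mem_filter.1 hE).2
            rw [← sq_abs (f E)]
            exact pow_le_pow_left₀ (by positivity) h2.le 2
        _ ≤ ∑ E ∈ H, f E ^ 2 :=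
            Finset.sum_le_sum_of_subset_of_nonneg (Finset.filter_subset _ _) fun _ _ _ => sq_nonneg _
        _ ≤ _ := hv
    have h3 : N * (((H.filter (fun E => κ * N < |f E|)).card : ℝ) * (κ ^ 2 * N)) ≤ N * (C * h) := by
      nlinarith
    exact le_of_mul_le_mul_left h3 h0

end TYVM

open TYVM

theorem specTYV (hPRD : SpecPRD) (hTYZ : SpecTYZ) (hEQZ : SpecEQZ) (hDNV : PF.SpecDNV) :
    SpecTYV := by
  intro F _ _ κ L hκ hL
  have hfin := (hEQZ F).1
  have h5 : ∀ q ∈ L, (5 : ℝ) ≤ nv q := fun q hq => by exact_mod_cast hTYZ.five F q (hL q hq)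
  have hr1 : ∀ q ∈ L, |((C12 q).ncard : ℝ) / (nv q : ℝ) ^ 2 - 1 / 2| ≤ 1 / (nv q : ℝ) := by
    intro q hq
    have h5 := h5 q hq
    have h1 := hTYZ.n12 F q (hL q hq)
    have h2 : 2 * ((C12 q).ncard : ℝ) = nv q * (nv q - 1) := by
      have h3 : ((2 * (C12 q).ncard : ℕ) : ℝ) = ((nv q * (nv q - 1) : ℕ) : ℝ) := by
        exact_mod_cast h1
      have h4 : 1 ≤ nv q := by
        have : (1 : ℝ) ≤ nv q := by linarith
        exact_mod_cast this
      push_cast [Nat.cast_sub h4] at h3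
      exact h3
    have h3 : ((C12 q).ncard : ℝ) / (nv q : ℝ) ^ 2 - 1 / 2 = -(1 / (2 * nv q)) := by
      have : ((C12 q).ncard : ℝ) = nv q * (nv q - 1) / 2 := by linarith
      rw [this]; field_simp; ring
    rw [h3, abs_neg, abs_of_pos (by positivity)]
    exact one_div_le_one_div_of_le (by linarith) (by linarith)
  have hr3 : ∀ q ∈ L, |((C3 q).ncard : ℝ) / (nv q : ℝ) ^ 2 - 1 / 3| ≤ 1 / (nv q : ℝ) := by
    intro q hq
    have h5 := h5 q hq
    have h1 := hTYZ.n3 F q (hL q hq)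
    have h2 : 3 * ((C3 q).ncard : ℝ) + 1 = (nv q : ℝ) ^ 2 := by
      have h3 : ((3 * (C3 q).ncard + 1 : ℕ) : ℝ) = ((nv q ^ 2 : ℕ) : ℝ) := by
        exact_mod_cast h1
      push_cast at h3
      exact h3
    have h3 : ((C3 q).ncard : ℝ) / (nv q : ℝ) ^ 2 - 1 / 3 = -(1 / (3 * (nv q : ℝ) ^ 2)) := by
      have : ((C3 q).ncard : ℝ) = ((nv q : ℝ) ^ 2 - 1) / 3 := by linarith
      rw [this]; field_simp; ring
    rw [h3, abs_neg, abs_of_pos (by positivity)]
    exact one_div_le_one_div_of_le (by linarith) (by nlinarith)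
  obtain ⟨n, hn⟩ : ∃ n : ℝ, n = (Module.finrank ℚ F : ℝ) := ⟨_, rfl⟩
  have hn0 : 0 ≤ n := by rw [hn]; exact Nat.cast_nonneg _
  have hsq : ∑ q ∈ L, (1 / (nv q : ℝ)) ^ 2 ≤ n / 4 := by
    have h1 := (hDNV F).2.2.2.2.1 4 L (by norm_num) (fun v hv => by
      have := h5 v hv
      have h6 : (4 : ℝ) < nv v := by linarith
      exact_mod_cast h6)
    rw [← hn] at h1
    refine le_trans (le_of_eq (Finset.sum_congr rfl fun q _ => ?_)) (h1.trans (le_of_eq ?_))
    · rw [div_pow, one_pow]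
    · norm_num
  obtain ⟨X1, hX1⟩ := var hPRD hfin (1 / 2) (by norm_num) (by norm_num) C12 L n hsq hr1
  obtain ⟨X3, hX3⟩ := var hPRD hfin (1 / 3) (by norm_num) (by norm_num) C3 L n hsq hr3
  refine ⟨max X1 X3, fun X hX => ?_⟩
  have v1 := hX1 X fun v => (le_max_left _ _).trans (hX v)
  have v3 := hX3 X fun v => (le_max_right _ _).trans (hX v)
  have hh : (0 : ℝ) ≤ ((Bx F X).ncard : ℝ) := Nat.cast_nonneg _
  have c1 := cheb _ _ (L.card : ℝ) κ _ (n / 4 + 2) (Nat.cast_nonneg _) (by linarith) v1 hh hκ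
  have c3 := cheb _ _ (L.card : ℝ) κ _ (n / 4 + 2) (Nat.cast_nonneg _) (by linarith) v3 hh hκ
  simp_rw [← hTYZ.e12 F] at c1
  simp_rw [← hTYZ.e3 F] at c3
  set S1 := (hfin X).toFinset.filter (fun E => κ * (L.card : ℝ) <
    |((L.filter (fun q => Y12 q E)).card : ℝ) - 1 / 2 * (L.card : ℝ)|) with hS1
  set S3 := (hfin X).toFinset.filter (fun E => κ * (L.card : ℝ) <
    |((L.filter (fun q => Y3 q E)).card : ℝ) - 1 / 3 * (L.card : ℝ)|) with hS3
  have hsub : ({E ∈ Bx F X | ¬ (|((L.filter (fun q => Y12 q E)).card : ℝ) -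
      (L.card : ℝ) / 2| ≤ κ * L.card ∧
      |((L.filter (fun q => Y3 q E)).card : ℝ) - (L.card : ℝ) / 3| ≤ κ * L.card)} :
      Set (𝓞 F × 𝓞 F)) ⊆ ((S1 ∪ S3 : Finset (𝓞 F × 𝓞 F)) : Set (𝓞 F × 𝓞 F)) := by
    rintro E ⟨hE, hn⟩
    rw [Finset.mem_coe, Finset.mem_union]
    by_contra hcon
    push Not at hcon
    apply hn
    constructor
    · by_contra h
      push Not at h
      apply hcon.1
      rw [hS1]
      refine Finset.mem_filter.2 ⟨(hfin X).mem_toFinset.2 hE, ?_⟩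
      have : 1 / 2 * (L.card : ℝ) = (L.card : ℝ) / 2 := by ring
      rw [this]; exact h
    · by_contra h
      push Not at h
      apply hcon.2
      rw [hS3]
      refine Finset.mem_filter.2 ⟨(hfin X).mem_toFinset.2 hE, ?_⟩
      have : 1 / 3 * (L.card : ℝ) = (L.card : ℝ) / 3 := by ring
      rw [this]; exact h
  have hc : (({E ∈ Bx F X | ¬ (|((L.filter (fun q => Y12 q E)).card : ℝ) -
      (L.card : ℝ) / 2| ≤ κ * L.card ∧
      |((L.filter (fun q => Y3 q E)).card : ℝ) - (L.card : ℝ) / 3| ≤ κ * L.card)} :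
      Set (𝓞 F × 𝓞 F)).ncard : ℝ) ≤ (S1.card : ℝ) + S3.card := by
    have h1 := Set.ncard_le_ncard hsub (Finset.finite_toSet _)
    rw [Set.ncard_coe_finset] at h1
    have h2 := Finset.card_union_le S1 S3
    exact_mod_cast h1.trans h2
  have hk : 0 ≤ κ ^ 2 * (L.card : ℝ) := by positivity
  have h10 := mul_le_mul_of_nonneg_right hc hk
  have h11 : (n / 2 + 4) * ((Bx F X).ncard : ℝ) ≤ (6 * n + 6) * ((Bx F X).ncard : ℝ) :=
    mul_le_mul_of_nonneg_right (by linarith) hh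
  rw [← hn]
  linarith

end Pool.Agent.Lib.MP_8cb858_nt.PU
end

section
/-!
# Lemma U over a number field (port of PT/UBI, helper29)
-/
namespace Pool.Agent.Lib.MP_8cb858_nt.PU

open Polynomial NumberField IsDedekindDomain Pool.Agent.Lib.MP_8cb858_nt.SEL
open Pool.Agent.Lib.MP_8cb858_nt.PF
open scoped Classical WithZero

namespace UBIM

/-- double counting -/
lemma dcount {α β : Type*} [DecidableEq β] (S : Finset α) (B : Finset β) (G : α → Finset β) (c : ℝ)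
    (h : ∀ b ∈ B, c ≤ ((S.filter (fun Q => b ∈ G Q)).card : ℝ)) :
    (B.card : ℝ) * c ≤ ∑ Q ∈ S, ((G Q).card : ℝ) := by
  classical
  calc (B.card : ℝ) * c = ∑ b ∈ B, c := by rw [Finset.sum_const, nsmul_eq_mul]
    _ ≤ ∑ b ∈ B, ((S.filter (fun Q => b ∈ G Q)).card : ℝ) := Finset.sum_le_sum h
    _ = ∑ b ∈ B, ∑ Q ∈ S, (if b ∈ G Q then (1 : ℝ) else 0) := by
        refine Finset.sum_congr rfl fun b _ => ?_
        rw [Finset.sum_boole]
    _ = ∑ Q ∈ S, ∑ b ∈ B, (if b ∈ G Q then (1 : ℝ) else 0) := Finset.sum_comm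
    _ ≤ ∑ Q ∈ S, ((G Q).card : ℝ) := by
        refine Finset.sum_le_sum fun Q _ => ?_
        rw [Finset.sum_boole]
        have : B.filter (fun b => b ∈ G Q) ⊆ G Q := fun b hb => (Finset.mem_filter.1 hb).2
        exact_mod_cast Finset.card_le_card this

/-- the product of the factors -/
lemma prod_bound {F : Type} [Field F] [NumberField F] (Q : Finset (Pl F)) (P : ℝ) (hP : 0 < P)
    (hQ : ∀ q ∈ Q, P ≤ (nv q : ℝ)) :
    ∏ p ∈ Q, (1 + 1 / (nv p : ℝ)) ^ 2 / 2 ≤ Real.exp (2 / P * Q.card) / 2 ^ Q.card := by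
  have h1 : ∀ p ∈ Q, (1 + 1 / (nv p : ℝ)) ^ 2 / 2 ≤ Real.exp (2 / P) / 2 := by
    intro p hp
    have hp0 : 0 < (nv p : ℝ) := hP.trans_le (hQ p hp)
    have h2 : 1 + 1 / (nv p : ℝ) ≤ Real.exp (1 / P) := by
      calc 1 + 1 / (nv p : ℝ) ≤ 1 + 1 / P := by
            have := one_div_le_one_div_of_le hP (hQ p hp); linarith
        _ = 1 / P + 1 := by ring
        _ ≤ _ := Real.add_one_le_exp _
    have h3 : (1 + 1 / (nv p : ℝ)) ^ 2 ≤ Real.exp (1 / P) ^ 2 :=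
      pow_le_pow_left₀ (by positivity) h2 2
    have h4 : Real.exp (1 / P) ^ 2 = Real.exp (2 / P) := by
      rw [← Real.exp_nat_mul]; congr 1; push_cast; ring
    rw [h4] at h3
    linarith
  calc ∏ p ∈ Q, (1 + 1 / (nv p : ℝ)) ^ 2 / 2 ≤ ∏ p ∈ Q, Real.exp (2 / P) / 2 :=
        Finset.prod_le_prod (fun p _ => by positivity) h1
    _ = _ := by
        rw [Finset.prod_const, div_pow, ← Real.exp_nat_mul]
        congr 2; ring

end UBIM

open UBIM

theorem specUBI (hFMZ : SpecFMZ) (hBNH : SpecBNH) (hSWR : SpecSWR) (hCHR : PT.SpecCHR) : SpecUBI := by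
  intro F _ _ G η hη hη1
  obtain ⟨C, K1, P0, hC, hK1, hF⟩ := hFMZ F G
  set κ : ℝ := min (η ^ 2 / 64) (1 / 16) with hκ
  have hκ0 : 0 < κ := lt_min (by positivity) (by norm_num)
  have hκη : κ ≤ η ^ 2 / 64 := min_le_left _ _
  have hκ16 : κ ≤ 1 / 16 := min_le_right _ _
  have hη2 : 0 < η ^ 2 := by positivity
  set P1 : ℕ := max (P0 + 1) ⌈64 / η ^ 2⌉₊ with hP1
  set N0 : ℕ := ⌈(16 / η ^ 2 + 3) / κ⌉₊ with hN0
  refine ⟨κ, η ^ 2 * κ / 8, 4 * C, K1, P1, N0, hκ0, by positivity, by linarith, hK1, ?_⟩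
  intro L A0 d hd hA0 hL hN
  set D : 𝓞 F := G.tw d A0 with hDdef
  set N : ℕ := L.card with hNd
  set m : ℕ := ⌊κ * N⌋₊ with hm
  have hκN : 16 / η ^ 2 + 3 ≤ κ * N := by
    have h1 : (16 / η ^ 2 + 3) / κ ≤ N := (Nat.le_ceil _).trans (by exact_mod_cast hN)
    rw [div_le_iff₀ hκ0] at h1
    linarith
  have hm1 : (m : ℝ) ≤ κ * N := Nat.floor_le (by positivity)
  have hm2 : κ * N - 1 ≤ m := by have := Nat.lt_floor_add_one (κ * (N : ℝ)); linarith
  have h16 : 16 ≤ 16 / η ^ 2 := by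
    rw [le_div_iff₀ hη2]; nlinarith
  have hm3 : 4 / η ^ 2 ≤ (m : ℝ) := by
    have : 4 / η ^ 2 ≤ 16 / η ^ 2 := div_le_div_of_nonneg_right (by norm_num) hη2.le
    linarith
  have hNpos : 0 < (N : ℝ) := by
    by_contra h
    push Not at h
    have : κ * N ≤ 0 := mul_nonpos_of_nonneg_of_nonpos hκ0.le h
    linarith
  have hP1r : 64 / η ^ 2 ≤ (P1 : ℝ) := by
    refine (Nat.le_ceil _).trans ?_
    exact_mod_cast le_max_right _ _
  have hP1pos : (0 : ℝ) < P1 := lt_of_lt_of_le (by positivity) hP1r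
  -- the patterns
  set ZQ : Finset (Pl F) → Finset (Finset (Pl F)) := fun Q => Q.powerset.filter
    (fun z => η / 2 * (Q.card : ℝ) < |(z.card : ℝ) - (Q.card : ℝ) / 2|) with hZQ
  have hX : ∀ Q : Finset (Pl F), ∃ X0 : ℝ, Q ∈ L.powersetCard m → ∀ ρ : InfinitePlace F → ℝ, (∀ v, X0 ≤ ρ v) →
      {z : (Σ q : 𝓞 F × 𝓞 F, Sel 2 (cO q.1 q.2 D)) | z.1 ∈ Bx F ρ ∧ (∀ p ∈ Q, Y12 p z.1) ∧ z.2 ≠ 0 ∧
        Q.filter (fun p => ¬ TrO D p z.2) ∈ ZQ Q}.Finite ∧
      ({z : (Σ q : 𝓞 F × 𝓞 F, Sel 2 (cO q.1 q.2 D)) | z.1 ∈ Bx F ρ ∧ (∀ p ∈ Q, Y12 p z.1) ∧ z.2 ≠ 0 ∧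
        Q.filter (fun p => ¬ TrO D p z.2) ∈ ZQ Q}.ncard : ℝ) ≤
        C * K1 ^ A0.card * (((ZQ Q).card : ℝ) / 2 ^ Q.card) *
          (∏ p ∈ Q, (1 + 1 / (nv p : ℝ)) ^ 2 / 2) * ((Bx F ρ).ncard : ℝ) := by
    intro Q
    by_cases hQ : Q ∈ L.powersetCard m
    · have hQL := (Finset.mem_powersetCard.1 hQ).1
      obtain ⟨X0, hX0⟩ := hF d A0 Q (ZQ Q) hd hA0 (fun p hp => by
        have h1 := hL p (hQL hp)
        refine ⟨h1.1, h1.2.2, ?_⟩
        have : P0 + 1 ≤ P1 := le_max_left _ _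
        omega) (fun z hz => Finset.mem_powerset.1 (Finset.mem_filter.1 hz).1)
      exact ⟨X0, fun _ => hX0⟩
    · exact ⟨0, fun h => absurd h hQ⟩
  choose X0 hX0 using hX
  refine ⟨∑ Q ∈ L.powersetCard m, |X0 Q|, fun ρ hρρ => ?_⟩
  have hXQ : ∀ Q ∈ L.powersetCard m, ∀ v, X0 Q ≤ ρ v := fun Q hQ v => by
    have h1 := Finset.single_le_sum (f := fun Q => |X0 Q|) (fun j _ => abs_nonneg _) hQ
    have h2 := le_abs_self (X0 Q)
    have h3 := hρρ v
    linarith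
  set GS : Finset (Pl F) → Set (Σ q : 𝓞 F × 𝓞 F, Sel 2 (cO q.1 q.2 D)) := fun Q =>
    {z : (Σ q : 𝓞 F × 𝓞 F, Sel 2 (cO q.1 q.2 D)) | z.1 ∈ Bx F ρ ∧ (∀ p ∈ Q, Y12 p z.1) ∧ z.2 ≠ 0 ∧
        Q.filter (fun p => ¬ TrO D p z.2) ∈ ZQ Q} with hGS
  set BS : Set (Σ q : 𝓞 F × 𝓞 F, Sel 2 (cO q.1 q.2 D)) := {z | z.1 ∈ Bx F ρ ∧
    |((L.filter (fun q => Y12 q z.1)).card : ℝ) - (L.card : ℝ) / 2| ≤ κ * L.card ∧
    z.2 ≠ 0 ∧ η * ((L.filter (fun q => Y12 q z.1)).card : ℝ) <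
          |((L.filter (fun q => Y12 q z.1 ∧ TrO D q z.2)).card : ℝ) -
            ((L.filter (fun q => Y12 q z.1)).card : ℝ) / 2|} with hBS
  -- every biased pair is in many of the sets
  set c0 : ℝ := ((N.choose m : ℕ) : ℝ) / (2 * (2 * Real.exp (8 * κ)) ^ m) with hc0
  have hmN : m ≤ N := by
    have : (m : ℝ) ≤ N := by nlinarith
    exact_mod_cast this
  have hc0pos : 0 < c0 := by
    have : 0 < N.choose m := Nat.choose_pos hmN
    have : (0 : ℝ) < ((N.choose m : ℕ) : ℝ) := by exact_mod_cast this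
    positivity
  have hmany : ∀ b ∈ BS, c0 ≤ (((L.powersetCard m).filter (fun Q => b ∈ GS Q)).card : ℝ) := by
    rintro ⟨E, z⟩ ⟨hE, ht, hz, hb⟩
    simp only at ht hb hz hE
    set T : Finset (Pl F) := L.filter (fun q => Y12 q E) with hT
    set A : Finset (Pl F) := T.filter (fun q => ¬ TrO D q z) with hA
    have hTN : T.card ≤ N := Finset.card_le_card (Finset.filter_subset _ _)
    have ht' := abs_le.1 ht
    have hTl : (1 / 2 - κ) * (N : ℝ) ≤ T.card := by linarith [ht'.1]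
    have hAT : (A.card : ℝ) = T.card - ((L.filter (fun q => Y12 q E ∧ TrO D q z)).card : ℝ) := by
      have h1 : L.filter (fun q => Y12 q E ∧ TrO D q z) = T.filter (fun q => TrO D q z) := by
        rw [hT, Finset.filter_filter]
      have h2 : (T.filter (fun q => TrO D q z)).card + A.card = T.card := by
        rw [hA]; exact Finset.card_filter_add_card_filter_not _
      rw [h1]
      have h3 : ((T.filter (fun q => TrO D q z)).card : ℝ) + A.card = T.card := by exact_mod_cast h2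
      linarith
    have hbias : η * (T.card : ℝ) < |(A.card : ℝ) - (T.card : ℝ) / 2| := by
      have h1 : (A.card : ℝ) - (T.card : ℝ) / 2 =
          -(((L.filter (fun q => Y12 q E ∧ TrO D q z)).card : ℝ) - (T.card : ℝ) / 2) := by
        rw [hAT]; ring
      rw [h1, abs_neg]
      exact hb
    have hmT : m ≤ T.card := by
      have : (m : ℝ) ≤ T.card := by nlinarith
      exact_mod_cast this
    have hT2 : 2 ≤ T.card := by
      have h1 : (2 : ℝ) ≤ m := by linarith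
      have h2 : 2 ≤ m := by exact_mod_cast h1
      omega
    have hS := hSWR (Pl F) T A m η hη (Finset.filter_subset _ _) hmT hT2 hm3 hbias
    have hc := hCHR N T.card m κ hκ0 (by linarith) hm1 hTl hTN
    have hsub : (T.powersetCard m).filter
        (fun Q => η / 2 * (m : ℝ) < |((Q ∩ A).card : ℝ) - (m : ℝ) / 2|) ⊆
        (L.powersetCard m).filter (fun Q => (⟨E, z⟩ : Σ q : 𝓞 F × 𝓞 F, Sel 2 (cO q.1 q.2 D)) ∈ GS Q) := by
      intro Q hQ
      obtain ⟨hQ1, hQ2⟩ := Finset.mem_filter.1 hQ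
      obtain ⟨hQT, hQm⟩ := Finset.mem_powersetCard.1 hQ1
      refine Finset.mem_filter.2 ⟨Finset.mem_powersetCard.2
        ⟨hQT.trans (Finset.filter_subset _ _), hQm⟩, ?_⟩
      refine ⟨hE, fun p hp => (Finset.mem_filter.1 (hQT hp)).2, hz, ?_⟩
      have h1 : Q.filter (fun p => ¬ TrO D p z) = Q ∩ A := by
        ext p
        rw [Finset.mem_filter, Finset.mem_inter, hA, Finset.mem_filter]
        constructor
        · rintro ⟨h2, h3⟩; exact ⟨h2, hQT h2, h3⟩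
        · rintro ⟨h2, _, h3⟩; exact ⟨h2, h3⟩
      show Q.filter (fun p => ¬ TrO D p z) ∈ ZQ Q
      rw [h1, hZQ]
      refine Finset.mem_filter.2 ⟨Finset.mem_powerset.2 Finset.inter_subset_left, ?_⟩
      rw [hQm]
      exact hQ2
    have hcard : (((T.powersetCard m).filter
        (fun Q => η / 2 * (m : ℝ) < |((Q ∩ A).card : ℝ) - (m : ℝ) / 2|)).card : ℝ) ≤
        (((L.powersetCard m).filter
          (fun Q => (⟨E, z⟩ : Σ q : 𝓞 F × 𝓞 F, Sel 2 (cO q.1 q.2 D)) ∈ GS Q)).card : ℝ) := by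
      exact_mod_cast Finset.card_le_card hsub
    rw [hc0, div_le_iff₀ (by positivity)]
    have hpw : (0 : ℝ) < (2 * Real.exp (8 * κ)) ^ m := by positivity
    have h5 : ((N.choose m : ℕ) : ℝ) ≤ (2 * Real.exp (8 * κ)) ^ m *
        (2 * (((L.powersetCard m).filter
          (fun Q => (⟨E, z⟩ : Σ q : 𝓞 F × 𝓞 F, Sel 2 (cO q.1 q.2 D)) ∈ GS Q)).card : ℝ)) := by
      refine hc.trans (mul_le_mul_of_nonneg_left ?_ hpw.le)
      linarith
    linarith
  -- finiteness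
  have hfin : ∀ Q ∈ L.powersetCard m, (GS Q).Finite := fun Q hQ => (hX0 Q hQ ρ (hXQ Q hQ)).1
  have hBfin : BS.Finite := by
    refine Set.Finite.subset (Set.Finite.biUnion (Finset.finite_toSet (L.powersetCard m))
      (t := GS) (fun Q hQ => hfin Q hQ)) ?_
    intro b hb
    have h1 := hmany b hb
    have h2 : 0 < ((L.powersetCard m).filter (fun Q => b ∈ GS Q)).card := by
      have : (0 : ℝ) < (((L.powersetCard m).filter (fun Q => b ∈ GS Q)).card : ℝ) :=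
        lt_of_lt_of_le hc0pos h1
      exact_mod_cast this
    obtain ⟨Q, hQ⟩ := Finset.card_pos.1 h2
    obtain ⟨hQ1, hQ2⟩ := Finset.mem_filter.1 hQ
    exact Set.mem_biUnion hQ1 hQ2
  set Gf : Finset (Pl F) → Finset (Σ q : 𝓞 F × 𝓞 F, Sel 2 (cO q.1 q.2 D)) := fun Q =>
    if h : Q ∈ L.powersetCard m then (hfin Q h).toFinset else ∅ with hGf
  have hGfm : ∀ Q ∈ L.powersetCard m, ∀ b, b ∈ Gf Q ↔ b ∈ GS Q := by
    intro Q hQ b
    rw [hGf]
    simp only [hQ, dif_pos, Set.Finite.mem_toFinset]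
  have hdc := dcount (L.powersetCard m) hBfin.toFinset Gf c0 (by
    intro b hb
    have h1 := hmany b (hBfin.mem_toFinset.1 hb)
    refine h1.trans (le_of_eq ?_)
    congr 2
    refine Finset.filter_congr fun Q hQ => ?_
    exact (hGfm Q hQ b).symm)
  -- the upper bound
  have hup : ∀ Q ∈ L.powersetCard m, ((Gf Q).card : ℝ) ≤
      C * K1 ^ A0.card * (2 * Real.exp (-(η ^ 2 / 2 * m))) *
        (Real.exp (η ^ 2 / 32 * m) / 2 ^ m) * ((Bx F ρ).ncard : ℝ) := by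
    intro Q hQ
    obtain ⟨hQL, hQm⟩ := Finset.mem_powersetCard.1 hQ
    have h1 := (hX0 Q hQ ρ (hXQ Q hQ)).2
    have h2 : (Gf Q).card = (GS Q).ncard := by
      rw [hGf]
      simp only [hQ, dif_pos]
      rw [Set.ncard_eq_toFinset_card _ (hfin Q hQ)]
    rw [h2]
    refine h1.trans ?_
    have h3 : ((ZQ Q).card : ℝ) / 2 ^ Q.card ≤ 2 * Real.exp (-(η ^ 2 / 2 * m)) := by
      have h4 := hBNH (Pl F) Q (η / 2) (by positivity)
      rw [div_le_iff₀ (by positivity), hQm]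
      have h5 : ((ZQ Q).card : ℝ) ≤ 2 * 2 ^ Q.card * Real.exp (-(2 * (η / 2) ^ 2 * Q.card)) := by
        rw [hZQ]; exact h4
      rw [hQm] at h5
      have h6 : -(2 * (η / 2) ^ 2 * (m : ℝ)) = -(η ^ 2 / 2 * m) := by ring
      rw [h6] at h5
      linarith
    have h7 := prod_bound Q P1 hP1pos (fun q hq => by exact_mod_cast (hL q (hQL hq)).2.1)
    rw [hQm] at h7
    have h8 : 2 / (P1 : ℝ) * m ≤ η ^ 2 / 32 * m := by
      refine mul_le_mul_of_nonneg_right ?_ (Nat.cast_nonneg _)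
      rw [div_le_iff₀ hP1pos]
      rw [div_le_iff₀ hη2] at hP1r
      linarith
    have h9 : ∏ p ∈ Q, (1 + 1 / (nv p : ℝ)) ^ 2 / 2 ≤ Real.exp (η ^ 2 / 32 * m) / 2 ^ m :=
      h7.trans (div_le_div_of_nonneg_right (Real.exp_le_exp.2 h8) (by positivity))
    have hCK : 0 ≤ C * K1 ^ A0.card := by positivity
    have h10 : 0 ≤ ∏ p ∈ Q, (1 + 1 / (nv p : ℝ)) ^ 2 / 2 := Finset.prod_nonneg fun p _ => by positivity
    refine mul_le_mul_of_nonneg_right ?_ (Nat.cast_nonneg _)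
    refine mul_le_mul (mul_le_mul_of_nonneg_left h3 hCK) h9 h10 ?_
    exact mul_nonneg hCK (by positivity)
  have hsum : ∑ Q ∈ L.powersetCard m, ((Gf Q).card : ℝ) ≤ ((N.choose m : ℕ) : ℝ) *
      (C * K1 ^ A0.card * (2 * Real.exp (-(η ^ 2 / 2 * m))) *
        (Real.exp (η ^ 2 / 32 * m) / 2 ^ m) * ((Bx F ρ).ncard : ℝ)) := by
    refine (Finset.sum_le_sum hup).trans (le_of_eq ?_)
    rw [Finset.sum_const, Finset.card_powersetCard, nsmul_eq_mul]
  have hB := hdc.trans hsum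
  have hBcard : (hBfin.toFinset.card : ℝ) = (BS.ncard : ℝ) := by
    rw [Set.ncard_eq_toFinset_card _ hBfin]
  rw [hBcard, hc0] at hB
  have hch : (0 : ℝ) < ((N.choose m : ℕ) : ℝ) := by
    have : 0 < N.choose m := Nat.choose_pos hmN
    exact_mod_cast this
  have hBS2 : (BS.ncard : ℝ) ≤ 4 * C * K1 ^ A0.card *
      Real.exp (-(η ^ 2 * κ / 8 * N)) * ((Bx F ρ).ncard : ℝ) := by
    have h1 : (BS.ncard : ℝ) ≤ (2 * (2 * Real.exp (8 * κ)) ^ m) *
        (C * K1 ^ A0.card * (2 * Real.exp (-(η ^ 2 / 2 * m))) *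
        (Real.exp (η ^ 2 / 32 * m) / 2 ^ m) * ((Bx F ρ).ncard : ℝ)) := by
      have h2 : (BS.ncard : ℝ) * ((N.choose m : ℕ) : ℝ) ≤
          ((N.choose m : ℕ) : ℝ) * ((2 * (2 * Real.exp (8 * κ)) ^ m) *
        (C * K1 ^ A0.card * (2 * Real.exp (-(η ^ 2 / 2 * m))) *
        (Real.exp (η ^ 2 / 32 * m) / 2 ^ m) * ((Bx F ρ).ncard : ℝ))) := by
        have h3 : (0 : ℝ) < 2 * (2 * Real.exp (8 * κ)) ^ m := by positivity
        rw [← mul_div_assoc, div_le_iff₀ h3] at hB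
        linarith
      rw [mul_comm] at h2
      exact le_of_mul_le_mul_left h2 hch
    refine h1.trans (le_of_eq_of_le (b := 4 * C * K1 ^ A0.card *
      (Real.exp (8 * κ) ^ m * Real.exp (-(η ^ 2 / 2 * m)) * Real.exp (η ^ 2 / 32 * m)) *
        ((Bx F ρ).ncard : ℝ)) ?_ ?_)
    · rw [mul_pow]
      have : (2 : ℝ) ^ m ≠ 0 := by positivity
      field_simp
      ring
    · refine mul_le_mul_of_nonneg_right ?_ (Nat.cast_nonneg _)
      refine mul_le_mul_of_nonneg_left ?_ (by positivity)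
      rw [← Real.exp_nat_mul, ← Real.exp_add, ← Real.exp_add]
      apply Real.exp_le_exp.2
      have hm4 : κ * N / 2 ≤ m := by linarith
      have h4 : 8 * κ ≤ η ^ 2 / 8 := by linarith
      have h5 : (m : ℝ) * (8 * κ) ≤ m * (η ^ 2 / 8) := mul_le_mul_of_nonneg_left h4 (Nat.cast_nonneg _)
      have h6 : η ^ 2 / 4 * (κ * N / 2) ≤ η ^ 2 / 4 * m := mul_le_mul_of_nonneg_left hm4 (by positivity)
      nlinarith [mul_nonneg hη2.le (Nat.cast_nonneg (α := ℝ) m)]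
  -- from pairs to curves
  refine le_trans ?_ hBS2
  have hinj : ({E ∈ Bx F ρ | |((L.filter (fun q => Y12 q E)).card : ℝ) - (L.card : ℝ) / 2| ≤
          κ * L.card ∧
        ∃ z : Sel 2 (cO E.1 E.2 D), z ≠ 0 ∧ η * ((L.filter (fun q => Y12 q E)).card : ℝ) <
          |((L.filter (fun q => Y12 q E ∧ TrO D q z)).card : ℝ) -
            ((L.filter (fun q => Y12 q E)).card : ℝ) / 2|} : Set (𝓞 F × 𝓞 F)) ⊆
      Sigma.fst '' BS := by
    rintro E ⟨hE, ht, z, hz, hb⟩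
    exact ⟨⟨E, z⟩, ⟨hE, ht, hz, hb⟩, rfl⟩
  have h1 := Set.ncard_le_ncard hinj (hBfin.image _)
  have h2 := Set.ncard_image_le (f := (Sigma.fst : (Σ q : 𝓞 F × 𝓞 F, Sel 2 (cO q.1 q.2 D)) → 𝓞 F × 𝓞 F)) hBfin
  exact_mod_cast h1.trans h2

end Pool.Agent.Lib.MP_8cb858_nt.PU
end
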