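import Pool.Agent.Lib.MP_8cb858_nt.PU.SpecG
import Pool.Agent.Lib.MP_8cb858_nt.PF.RF.SQV

section
/-!
# Module TWV: the valuations of `u ∏_(v ∈ A) pi v`
-/
namespace Pool.Agent.Lib.MP_8cb858_nt.PU

open Polynomial NumberField IsDedekindDomain Pool.Agent.Lib.MP_8cb858_nt.SEL
open Pool.Agent.Lib.MP_8cb858_nt.PF
open scoped Classical WithZero

namespace TWVM

variable {F : Type} [Field F] [NumberField F]

/-- the map from the integers to the completion -/
noncomputable def lcR (v : Pl F) : 𝓞 F →+* v.adicCompletion F :=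
  (algebraMap F (v.adicCompletion F)).comp (algebraMap (𝓞 F) F)

lemma val_tw (G : Gs F) (u : 𝓞 F) (A : Finset (Pl F)) (v : Pl F) :
    vv v (lc v (G.tw u A)) = vv v (lc v u) * ∏ w ∈ A, vv v (lc v (G.pi w)) := by
  have h : lc v (G.tw u A) = lc v u * ∏ w ∈ A, lc v (G.pi w) := by
    change lcR v (u * ∏ w ∈ A, G.pi w) = lcR v u * ∏ w ∈ A, lcR v (G.pi w)
    rw [map_mul, map_prod]
  rw [h, map_mul, map_prod]

lemma val_mul (v : Pl F) (x y : 𝓞 F) : vv v (lc v (x * y)) = vv v (lc v x) * vv v (lc v y) := by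
  have h : lc v (x * y) = lc v x * lc v y := by
    change lcR v (x * y) = lcR v x * lcR v y
    rw [map_mul]
  rw [h, map_mul]

end TWVM

open TWVM in
/-- **TWV** -/
theorem specTWV : SpecTWV where
  ne := fun G u A hu => mul_ne_zero hu (Finset.prod_ne_zero_iff.2 fun v _ => G.ne v)
  ex := by
    intro F _ _ G u A v hu hA hv
    rw [val_tw, hu v (hA v hv), one_mul, Finset.prod_eq_single v]
    · exact G.ex v (hA v hv)
    · intro w hw hne
      exact G.un w v (hA w hw) (hA v hv) hne.symm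
    · intro h
      exact absurd hv h
  un := by
    intro F _ _ G u A v hu hA hv hS
    rw [val_tw, hu v hS, one_mul]
    refine Finset.prod_eq_one fun w hw => ?_
    refine G.un w v (hA w hw) hS ?_
    rintro rfl
    exact hv hw
  mul := by
    intro F _ _ G u u' A A' h
    unfold Gs.tw
    rw [Finset.prod_union h]
    ring
  img := by
    intro F _ _ G u A ι s p hp hA
    unfold Gs.tw
    have hd : Disjoint A (s.image p) := by
      rw [Finset.disjoint_right]
      intro w hw
      obtain ⟨i, hi, rfl⟩ := Finset.mem_image.1 hw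
      exact hA i hi
    rw [Finset.prod_union hd, Finset.prod_image hp, mul_assoc]
  uu := by
    intro F _ _ G c hc
    unfold Gs.UU at hc
    obtain ⟨⟨x, y⟩, hxy, rfl⟩ := Finset.mem_image.1 hc
    rw [Finset.mem_product] at hxy
    refine ⟨mul_ne_zero (G.une _ hxy.1) (G.une _ hxy.2), fun w hw => ?_⟩
    rw [val_mul, G.uun _ hxy.1 w hw, G.uun _ hxy.2 w hw, one_mul]

end Pool.Agent.Lib.MP_8cb858_nt.PU
end

section
/-!
# Module UNR: almost all places are unramified
-/
namespace Pool.Agent.Lib.MP_8cb858_nt.PU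

open NumberField IsDedekindDomain
open scoped Classical

namespace UNRM

variable (F : Type) [Field F] [NumberField F]

/-- A ramified place divides the different. -/
theorem dvd_diff (v : Pl F) (h : ¬ Unr v) : v.asIdeal ∣ differentIdeal ℤ (𝓞 F) := by
  unfold Unr at h
  push Not at h
  obtain ⟨p, hp, hpv, hp2⟩ := h
  have hmax : (Ideal.span {(p : ℤ)}).IsMaximal :=
    PrincipalIdealRing.isMaximal_of_irreducible (Nat.prime_iff_prime_int.1 hp).irreducible
  have h1 : v.asIdeal ^ 2 ∣ (Ideal.span {(p : ℤ)}).map (algebraMap ℤ (𝓞 F)) := by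
    rw [Ideal.dvd_iff_le, Ideal.map_span, Set.image_singleton, Ideal.span_singleton_le_iff_mem]
    simpa using hp2
  have h2 := pow_sub_one_dvd_differentIdeal ℤ v.asIdeal 2
    (by rw [Ne, Ideal.span_singleton_eq_bot]; exact_mod_cast hp.ne_zero) h1
  rwa [show 2 - 1 = 1 from rfl, pow_one] at h2

end UNRM

/-- **UNR**. -/
theorem specUNR : SpecUNR := by
  intro F _ _
  refine (Ideal.finite_factors (I := differentIdeal ℤ (𝓞 F)) ?_).subset ?_
  · exact differentIdeal_ne_bot
  · intro v hv
    exact UNRM.dvd_diff F v hv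

end Pool.Agent.Lib.MP_8cb858_nt.PU
end

section
/-!
# WAP: weak approximation with signs
-/
set_option autoImplicit false

namespace Pool.Agent.Lib.MP_8cb858_nt.PU

open Polynomial NumberField IsDedekindDomain Pool.Agent.Lib.MP_8cb858_nt.SEL
open Pool.Agent.Lib.MP_8cb858_nt.PF
open scoped Classical WithZero

namespace WAPM

variable {F : Type} [Field F] [NumberField F]

theorem isOpen_one (v : Pl F) : IsOpen {z : v.adicCompletion F | vv v z < 1} := by
  have := Valued.isOpen_ball (v.adicCompletion F) 1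
  convert this using 2
  ext z
  simp [Valuation.restrict_lt_one_iff]

theorem isOpen_ball (v : Pl F) (a g : v.adicCompletion F) :
    IsOpen {z : v.adicCompletion F | vv v ((z - a) * g) < 1} :=
  (isOpen_one v).preimage ((continuous_id.sub continuous_const).mul continuous_const)

/-- Powers of a small element. -/
theorem small {a b c : ℤᵐ⁰} (ha : a < 1) (hc : c ≠ 0) : ∃ k0 : ℕ, ∀ k : ℕ, k0 ≤ k → a ^ k * b < c := by
  rcases eq_or_ne b 0 with rfl | hb
  · exact ⟨0, fun k _ => by rw [mul_zero]; exact zero_lt_iff.2 hc⟩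
  rcases eq_or_ne a 0 with rfl | ha0
  · exact ⟨1, fun k hk => by rw [zero_pow (by omega), zero_mul]; exact zero_lt_iff.2 hc⟩
  obtain ⟨α, rfl⟩ : ∃ m : ℤ, a = WithZero.exp m := ⟨WithZero.log a, (WithZero.exp_log ha0).symm⟩
  obtain ⟨β, rfl⟩ : ∃ m : ℤ, b = WithZero.exp m := ⟨WithZero.log b, (WithZero.exp_log hb).symm⟩
  obtain ⟨γ, rfl⟩ : ∃ m : ℤ, c = WithZero.exp m := ⟨WithZero.log c, (WithZero.exp_log hc).symm⟩
  rw [← WithZero.exp_zero, WithZero.exp_lt_exp] at ha
  refine ⟨(β - γ + 1).toNat, fun k hk => ?_⟩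
  rw [← WithZero.exp_nsmul, ← WithZero.exp_add, WithZero.exp_lt_exp, nsmul_eq_mul]
  have h1 : (k : ℤ) * α ≤ (k : ℤ) * (-1) := mul_le_mul_of_nonneg_left (by omega) (by positivity)
  omega

/-- Finitely many conditions which hold for all large `k` hold together for all large `k`. -/
theorem ev_all {ι : Type} (s : Finset ι) (P : ι → ℕ → Prop)
    (h : ∀ i ∈ s, ∃ k0 : ℕ, ∀ k, k0 ≤ k → P i k) : ∃ k0 : ℕ, ∀ i ∈ s, ∀ k, k0 ≤ k → P i k := by
  choose! f hf using h
  refine ⟨s.sup f, fun i hi k hk => hf i hi k ((Finset.le_sup hi).trans hk)⟩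

/-- Finite weak approximation. -/
theorem fin (hDNF : PF.RF.SpecDNF.{0}) (M B : Finset (Pl F)) (x : F) (hMB : ∀ v ∈ B, v ∉ M) (hx : x ≠ 0) :
    ∃ m : F, m ≠ 0 ∧ (∀ v ∈ M, ∃ r : v.adicCompletion F, r ≠ 0 ∧
        algebraMap F (v.adicCompletion F) (m * x) = r ^ 2) ∧
      ∀ v ∈ B, vv v (algebraMap F (v.adicCompletion F) m) = 1 := by
  have h40 : ∀ v : Pl F, (4 : v.adicCompletion F) ≠ 0 := fun v => by norm_num
  have hxv : ∀ v : Pl F, algebraMap F (v.adicCompletion F) x ≠ 0 := fun v =>
    (_root_.map_ne_zero _).2 hx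
  by_cases hne : (M ∪ B).Nonempty
  swap
  · rw [Finset.not_nonempty_iff_eq_empty, Finset.union_eq_empty] at hne
    refine ⟨1, one_ne_zero, fun v hv => ?_, fun v hv => ?_⟩
    · rw [hne.1] at hv
      exact absurd hv (Finset.notMem_empty v)
    · rw [hne.2] at hv
      exact absurd hv (Finset.notMem_empty v)
  let W : Set (Pl F) := {v | v ∈ M ∪ B}
  have hW : W.Finite := (M ∪ B).finite_toSet
  have : Finite W := hW
  let U : ∀ w : W, Set (w.1.adicCompletion F) := fun w =>
    if w.1 ∈ M then {z | vv w.1 ((z - algebraMap F (w.1.adicCompletion F) x) *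
      (4 * algebraMap F (w.1.adicCompletion F) x)⁻¹) < 1}
    else {z | vv w.1 ((z - 1) * 1) < 1}
  have hU : ∀ w : W, IsOpen (U w) := by
    intro w
    by_cases h : w.1 ∈ M
    · simp only [U, if_pos h]
      exact isOpen_ball _ _ _
    · simp only [U, if_neg h]
      exact isOpen_ball _ _ _
  have hU1 : (Set.univ.pi U).Nonempty := by
    refine ⟨fun w => if w.1 ∈ M then algebraMap F (w.1.adicCompletion F) x else 1, ?_⟩
    intro w _
    by_cases h : w.1 ∈ M
    · simp only [U, if_pos h, Set.mem_ofPred_eq, sub_self, zero_mul, map_zero]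
      exact zero_lt_one
    · simp only [U, if_neg h, Set.mem_ofPred_eq, sub_self, zero_mul, map_zero]
      exact zero_lt_one
  obtain ⟨m, hm⟩ := (hDNF F W hW).exists_mem_open (isOpen_set_pi Set.finite_univ fun w _ => hU w) hU1
  have hM : ∀ v ∈ M, vv v ((algebraMap F (v.adicCompletion F) m - algebraMap F (v.adicCompletion F) x) *
      (4 * algebraMap F (v.adicCompletion F) x)⁻¹) < 1 := by
    intro v hv
    have h := hm ⟨v, Finset.mem_union_left _ hv⟩ (Set.mem_univ _)
    simp only [U, if_pos hv] at h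
    exact h
  have hB : ∀ v ∈ B, vv v (algebraMap F (v.adicCompletion F) m - 1) < 1 := by
    intro v hv
    have h := hm ⟨v, Finset.mem_union_right _ hv⟩ (Set.mem_univ _)
    simp only [U, if_neg (hMB v hv), mul_one] at h
    exact h
  have key : ∀ v ∈ M, ∃ r : v.adicCompletion F, r ≠ 0 ∧
      algebraMap F (v.adicCompletion F) (m * x) = r ^ 2 := by
    intro v hv
    have h1 := hM v hv
    obtain ⟨r, hr⟩ := BIGM.sq_of_near (G := ℤᵐ⁰) (u := algebraMap F (v.adicCompletion F) (m / x)) (h40 v) (by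
      have e : algebraMap F (v.adicCompletion F) (m / x) - 1 = 4 *
          ((algebraMap F (v.adicCompletion F) m - algebraMap F (v.adicCompletion F) x) *
          (4 * algebraMap F (v.adicCompletion F) x)⁻¹) := by
        rw [map_div₀]
        have := hxv v
        have := h40 v
        field_simp
      rw [e, map_mul]
      have h4 : (Valued.v (4 : v.adicCompletion F) : ℤᵐ⁰) ≠ 0 := (Valuation.ne_zero_iff _).2 (h40 v)
      exact mul_lt_of_lt_one_right (zero_lt_iff.2 h4) h1)
    have hr0 : r ≠ 0 := by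
      rintro rfl
      have h2 : algebraMap F (v.adicCompletion F) (m / x) = 0 := by rw [← hr]; ring
      have h3 : algebraMap F (v.adicCompletion F) m = 0 := by
        rw [map_div₀] at h2
        exact (div_eq_zero_iff.1 h2).resolve_right (hxv v)
      rw [h3, zero_sub, neg_mul, Valuation.map_neg, mul_inv, mul_comm, mul_assoc, inv_mul_cancel₀ (hxv v),
        mul_one, map_inv₀] at h1
      have h5 : vv v (4 : v.adicCompletion F) ≤ 1 := by
        have h2 := (vv v).map_add_le (x := 1) (y := 1) (map_one _).le (map_one _).le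
        have h3 := (vv v).map_add_le h2 h2
        rw [show (1 : v.adicCompletion F) + 1 + (1 + 1) = 4 by norm_num] at h3
        exact h3
      have h4 : (vv v (4 : v.adicCompletion F) : ℤᵐ⁰) ≠ 0 := (Valuation.ne_zero_iff _).2 (h40 v)
      exact absurd h1 (not_lt.2 ((one_le_inv₀ (zero_lt_iff.2 h4)).2 h5))
    refine ⟨r * algebraMap F (v.adicCompletion F) x, mul_ne_zero hr0 (hxv v), ?_⟩
    rw [mul_pow, hr, ← map_pow, ← map_mul]
    congr 1
    field_simp
  have key2 : ∀ v ∈ B, vv v (algebraMap F (v.adicCompletion F) m) = 1 := by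
    intro v hv
    have h1 := (vv v).map_add_eq_of_lt_right (x := algebraMap F (v.adicCompletion F) m - 1) (y := 1)
      (by rw [map_one]; exact hB v hv)
    rw [sub_add_cancel, map_one] at h1
    exact h1
  refine ⟨m, ?_, key, key2⟩
  rintro rfl
  obtain ⟨v, hv⟩ := hne
  rcases Finset.mem_union.1 hv with hv | hv
  · obtain ⟨r, hr, h⟩ := key v hv
    rw [zero_mul, map_zero] at h
    exact hr (by simpa using h.symm)
  · have h := key2 v hv
    rw [map_zero, map_zero] at h
    exact zero_ne_one h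

end WAPM

open NumberField.InfinitePlace NumberField.InfinitePlace.Completion in
theorem specWAP (hDNF : PF.RF.SpecDNF.{0}) : SpecWAP := by
  intro F _ _ M B x hMB hx
  obtain ⟨m1, hm0, hm1, hm2⟩ := WAPM.fin hDNF M B x hMB hx
  have h40 : ∀ v : Pl F, (4 : v.adicCompletion F) ≠ 0 := fun v => by norm_num
  obtain ⟨y, hy⟩ : ∃ y : F, y = m1 * x := ⟨_, rfl⟩
  have hy0 : y ≠ 0 := hy ▸ mul_ne_zero hm0 hx
  -- a natural number in all places
  obtain ⟨N, hN2, hN⟩ : ∃ N : ℕ, 2 ≤ N ∧ ∀ v ∈ M ∪ B, vv v ((N : ℕ) : v.adicCompletion F) < 1 := by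
    refine ⟨2 * ∏ v ∈ M ∪ B, Ideal.absNorm v.asIdeal, ?_, fun v hv => ?_⟩
    · have : 1 ≤ ∏ v ∈ M ∪ B, Ideal.absNorm v.asIdeal := by
        refine Nat.one_le_iff_ne_zero.2 (Finset.prod_ne_zero_iff.2 fun v _ => ?_)
        rw [Ne, Ideal.absNorm_eq_zero_iff]
        exact v.ne_bot
      omega
    · have h1 : ((2 * ∏ v ∈ M ∪ B, Ideal.absNorm v.asIdeal : ℕ) : 𝓞 F) ∈ v.asIdeal := by
        rw [← Finset.mul_prod_erase _ _ hv]
        push_cast
        have h2 := Ideal.absNorm_mem v.asIdeal
        rw [show (2 : 𝓞 F) * ((Ideal.absNorm v.asIdeal : 𝓞 F) *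
          ∏ w ∈ (M ∪ B).erase v, (Ideal.absNorm w.asIdeal : 𝓞 F)) =
          (2 * ∏ w ∈ (M ∪ B).erase v, (Ideal.absNorm w.asIdeal : 𝓞 F)) * (Ideal.absNorm v.asIdeal : 𝓞 F) by ring]
        exact v.asIdeal.mul_mem_left _ h2
      have h3 := (v.valuation_lt_one_iff_mem (K := F) _).2 h1
      rw [← v.valuedAdicCompletion_eq_valuation'] at h3
      have e : (((algebraMap (𝓞 F) F ((2 * ∏ v ∈ M ∪ B, Ideal.absNorm v.asIdeal : ℕ) : 𝓞 F) : F)) :
          v.adicCompletion F) = ((2 * ∏ v ∈ M ∪ B, Ideal.absNorm v.asIdeal : ℕ) : v.adicCompletion F) := by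
        rw [map_natCast]
        exact map_natCast (algebraMap F (v.adicCompletion F)) _
      rw [e] at h3
      exact h3
  -- the exponent
  obtain ⟨k1, hk1⟩ := WAPM.ev_all (M ∪ B) (fun v k => vv v (((N : ℕ) : v.adicCompletion F) ^ k *
      algebraMap F (v.adicCompletion F) y) < vv v (4 : v.adicCompletion F) ∧
      vv v (((N : ℕ) : v.adicCompletion F) ^ k * algebraMap F (v.adicCompletion F) y) < 1) (by
    intro v hv
    obtain ⟨a, ha⟩ := WAPM.small (b := vv v (algebraMap F (v.adicCompletion F) y)) (hN v hv)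
      ((Valuation.ne_zero_iff _).2 (h40 v))
    obtain ⟨b, hb⟩ := WAPM.small (b := vv v (algebraMap F (v.adicCompletion F) y)) (hN v hv)
      (one_ne_zero)
    refine ⟨max a b, fun k hk => ?_⟩
    rw [map_mul, map_pow]
    exact ⟨ha k (le_of_max_le_left hk), hb k (le_of_max_le_right hk)⟩)
  obtain ⟨k2, hk2⟩ := WAPM.ev_all (Finset.univ : Finset (InfinitePlace F)) (fun v k =>
      ∀ hv : v.IsReal, 1 < (N : ℝ) ^ k * |(ringEquivRealOfIsReal hv : v.Completion →+* ℝ)
        (algebraMap F v.Completion y)|) (by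
    intro v _
    by_cases hv : v.IsReal
    · have h1 : 0 < |(ringEquivRealOfIsReal hv : v.Completion →+* ℝ) (algebraMap F v.Completion y)| :=
        abs_pos.2 ((_root_.map_ne_zero _).2 ((_root_.map_ne_zero _).2 hy0))
      obtain ⟨n, hn⟩ := exists_nat_gt
        (1 / |(ringEquivRealOfIsReal hv : v.Completion →+* ℝ) (algebraMap F v.Completion y)|)
      refine ⟨n, fun k hk _ => ?_⟩
      have h2 : (n : ℝ) ≤ (N : ℝ) ^ k := by
        have h3 : n < N ^ n := Nat.lt_pow_self (by omega)
        have h4 : N ^ n ≤ N ^ k := Nat.pow_le_pow_right (by omega) hk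
        exact_mod_cast (h3.le.trans h4)
      rw [div_lt_iff₀ h1] at hn
      exact hn.trans_le (mul_le_mul_of_nonneg_right h2 h1.le)
    · exact ⟨0, fun k _ h => absurd h hv⟩)
  obtain ⟨k, hk1', hk2', hk3⟩ : ∃ k : ℕ, k1 ≤ k ∧ k2 ≤ k ∧ 1 + (N : F) ^ k * y ≠ 0 := by
    by_cases h : 1 + (N : F) ^ (max k1 k2) * y = 0
    · refine ⟨max k1 k2 + 1, (le_max_left _ _).trans (Nat.le_succ _), (le_max_right _ _).trans (Nat.le_succ _),
        fun h' => ?_⟩
      have h1 : (N : F) ^ (max k1 k2) * y * ((N : F) - 1) = 0 := by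
        rw [pow_succ] at h'
        linear_combination h' - h
      have hNF : (N : F) ≠ 0 := by
        have : N ≠ 0 := by omega
        exact_mod_cast this
      have hNF1 : (N : F) - 1 ≠ 0 := by
        rw [sub_ne_zero]
        have : N ≠ 1 := by omega
        exact_mod_cast this
      exact mul_ne_zero (mul_ne_zero (pow_ne_zero _ hNF) hy0) hNF1 h1
    · exact ⟨max k1 k2, le_max_left _ _, le_max_right _ _, h⟩
  obtain ⟨t, ht⟩ : ∃ t : F, t = 1 + (N : F) ^ k * y := ⟨_, rfl⟩
  have htv : ∀ v : Pl F, algebraMap F (v.adicCompletion F) t - 1 =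
      ((N : ℕ) : v.adicCompletion F) ^ k * algebraMap F (v.adicCompletion F) y := by
    intro v
    rw [ht, map_add, map_mul, map_pow, map_natCast, map_one]
    ring
  have hreal : ∀ (v : InfinitePlace F) (hv : v.IsReal),
      0 < (ringEquivRealOfIsReal hv : v.Completion →+* ℝ) (algebraMap F v.Completion t) *
        (ringEquivRealOfIsReal hv : v.Completion →+* ℝ) (algebraMap F v.Completion y) := by
    intro v hv
    have h1 := hk2 v (Finset.mem_univ v) k hk2' hv
    rw [ht, map_add, map_mul, map_pow, map_natCast, map_one, map_add, map_mul, map_pow, map_natCast, map_one]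
    generalize (ringEquivRealOfIsReal hv : v.Completion →+* ℝ) (algebraMap F v.Completion y) = z at h1 ⊢
    have hNk : 0 < (N : ℝ) ^ k := by positivity
    rcases abs_cases z with ⟨h2, h3⟩ | ⟨h2, h3⟩
    · rw [h2] at h1
      have h4 : 0 < z := by
        rcases h3.lt_or_eq with h | h
        · exact h
        · rw [← h, mul_zero] at h1
          linarith
      positivity
    · rw [h2] at h1
      have h4 : 1 + (N : ℝ) ^ k * z < 0 := by linarith
      exact mul_pos_of_neg_of_neg h4 h3
  have ht0 : t ≠ 0 := ht ▸ hk3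
  have e0 : m1 * t * x = y * t := by rw [hy]; ring
  refine ⟨m1 * t, mul_ne_zero hm0 ht0, ⟨fun v hv => ?_, fun v => ?_⟩, fun v hv => ?_⟩
  · obtain ⟨r, -, hr⟩ := hm1 v hv
    obtain ⟨q, hq⟩ := BIGM.sq_of_near (G := ℤᵐ⁰) (u := algebraMap F (v.adicCompletion F) t) (h40 v) (by
      rw [htv]
      exact (hk1 v (Finset.mem_union_left _ hv) k hk1').1)
    refine ⟨r * q, ?_⟩
    rw [e0, map_mul, hy, hr, ← hq]
    ring
  · rw [e0]
    rcases v.isReal_or_isComplex with hv | hv
    · have h1 := hreal v hv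
      refine ⟨(ringEquivRealOfIsReal hv).symm (Real.sqrt ((ringEquivRealOfIsReal hv : v.Completion →+* ℝ)
        (algebraMap F v.Completion (y * t)))), (ringEquivRealOfIsReal hv).injective ?_⟩
      rw [map_mul (ringEquivRealOfIsReal hv), RingEquiv.apply_symm_apply, Real.mul_self_sqrt]
      · rfl
      · rw [map_mul, map_mul, mul_comm]
        exact h1.le
    · obtain ⟨z, hz⟩ := IsAlgClosed.exists_pow_nat_eq ((ringEquivComplexOfIsComplex hv)
        (algebraMap F v.Completion (y * t))) (n := 2) (by norm_num)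
      refine ⟨(ringEquivComplexOfIsComplex hv).symm z, (ringEquivComplexOfIsComplex hv).injective ?_⟩
      rw [map_mul (ringEquivComplexOfIsComplex hv), RingEquiv.apply_symm_apply, ← hz, pow_two]
  · have h1 := (vv v).map_add_eq_of_lt_right (x := algebraMap F (v.adicCompletion F) t - 1) (y := 1) (by
      rw [map_one, htv]
      exact (hk1 v (Finset.mem_union_right _ hv) k hk1').2)
    rw [sub_add_cancel, map_one] at h1
    rw [map_mul, map_mul, h1, hm2 v hv, one_mul]

end Pool.Agent.Lib.MP_8cb858_nt.PU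
end
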