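import Pool.Agent.Lib.MP_8cb858_nt.PU.SpecE
import Pool.Agent.Lib.MP_8cb858_nt.PT.PLQ
import Pool.Agent.Lib.MP_8cb858_nt.PF.SpecO
import Pool.Agent.Lib.MP_8cb858_nt.PF.SpecB
import Pool.Agent.Lib.MP_8cb858_nt.SEL.Spec

section
/-!
# CRH: the Selmer group of the twist is counted by vectors
-/
namespace Pool.Agent.Lib.MP_8cb858_nt.PU

open Polynomial NumberField IsDedekindDomain Pool.Agent.Lib.MP_8cb858_nt.SEL
open Pool.Agent.Lib.MP_8cb858_nt.PF
open scoped Classical WithZero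

namespace CRHM

variable {F : Type} [Field F] [NumberField F]
  {M Q P : Finset (Pl F)} {Ds D0 : 𝓞 F} {a b : 𝓞 F}

/-- The vector of the coordinates of a class. -/
noncomputable def vec (Q : Finset (HeightOneSpectrum (𝓞 F))) (a b : 𝓞 F) (α : Lk (a : F) (b : F)) :
    {v // v ∈ Q} → ZMod 2 × ZMod 2 := fun v => (ee v.1 α, ss v.1 α)

theorem vec_mul (hHAQ : PT.SpecHAQ) (hC : PT.Cf M Q P a b)
    {α β : Lk (a : F) (b : F)} (ha : InV α) (hb : InV β) :
    vec Q a b (α * β) = vec Q a b α + vec Q a b β := by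
  funext v
  have h := hHAQ F M Q P a b hC v.1 v.2 α β ha hb
  exact Prod.ext h.1 h.2.1

theorem add_self (x : ZMod 2 × ZMod 2) : x + x = 0 := by
  revert x; decide

theorem vadd_self {ι : Type} (w : ι → ZMod 2 × ZMod 2) : w + w = 0 := by
  funext v
  exact add_self (w v)

/-- Two classes with the same vector have a square as product. -/
theorem sq_of_vec (hELH : SpecELH) (hHAQ : PT.SpecHAQ) (hKRH : SpecKRH)
    (hC : PT.Cf M Q P a b) (hDs : Ds ≠ 0) (hA : Ad M P ∅ Ds D0)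
    (hg : ∀ z : Sel 2 (cO a b D0), (∀ v ∈ Q, TrO D0 v z) → z = 0)
    {α β : Lk (a : F) (b : F)} (ha : α ∈ Wh M Q Ds a b) (hb : β ∈ Wh M Q Ds a b)
    (h : vec Q a b α = vec Q a b β) : IsSquare (α * β) := by
  have h0 : vec Q a b (α * β) = 0 := by
    rw [vec_mul hHAQ hC ha.1 hb.1, h, vadd_self]
  refine hKRH F M Q P Ds D0 a b hC hDs hA hg _ ((hELH F M Q P Ds a b hC hDs).2 α ha β hb)
    fun v hv => ?_
  have h1 := congrFun h0 ⟨v, hv⟩
  exact ⟨congrArg Prod.fst h1, congrArg Prod.snd h1⟩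

end CRHM

theorem specCRH (hBR : SpecBR) (hSLH : SpecSLH) (hELH : SpecELH) (hHAQ : PT.SpecHAQ)
    (hKRH : SpecKRH) (hRPH : SpecRPH) (hSFN : SpecSFN) (hFAH : PT.SpecFAH) :
    SpecCRH := by
  intro F _ _ M Q P Ds D0 a b _ hC hDs hA hg T D hT hD'
  have hd : dsc (a : F) (b : F) ≠ 0 := (hFAH.ne0 hC).2.1
  have hd0 : dsc a b ≠ 0 := (hFAH.ne0 hC).1
  have hD : (D : F) ≠ 0 := fun h => hD'.ne (RingOfIntegers.coe_eq_zero_iff.1 h)
  have hself := (hSFN F a b D hd0 hD'.ne).2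
  -- choice of a representative
  choose r hr using fun z : Sel 2 (cO a b D) => hBR.surj hd hD z
  have hmem : ∀ (α : Lk (a : F) (b : F)) (z : Sel 2 (cO a b D)),
      Rep (D : F) α z → α ∈ Wh M Q Ds a b ∧ Cnd Q T α := fun α z h =>
    (hSLH F M Q P T Ds D a b hC hDs hD' hT α).1 (hBR.sel hd hD α z h)
  -- two representatives have the same vector
  have hwd : ∀ (α β : Lk (a : F) (b : F)), α ∈ Wh M Q Ds a b → β ∈ Wh M Q Ds a b →
      IsSquare (α * β) → CRHM.vec Q a b α = CRHM.vec Q a b β := by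
    intro α β ha hb hs
    have h0 : CRHM.vec Q a b (α * β) = 0 := by
      funext v
      have hab := (hELH F M Q P Ds a b hC hDs).2 α ha β hb
      have h := hHAQ F M Q P a b hC v.1 v.2 (α * β) (α * β) hab.1 hab.1
      have h1 := h.2.2.2.1.2 (hs.map (upr (algebraMap F (v.1.adicCompletion F)) (a : F) (b : F)))
      exact Prod.ext h1.1 h1.2
    rw [CRHM.vec_mul hHAQ hC ha.1 hb.1] at h0
    have h1 := CRHM.vadd_self (CRHM.vec Q a b β)
    exact add_right_cancel (h0.trans h1.symm)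
  rw [← Nat.card_coe_set_eq]
  refine Nat.card_congr (Equiv.ofBijective
    (fun z => ⟨CRHM.vec Q a b (r z), ⟨r z, (hmem _ z (hr z)).1, fun v => rfl⟩,
      fun v hv => ((hmem _ z (hr z)).2 v.1 v.2).2 hv,
      fun v hv => ((hmem _ z (hr z)).2 v.1 v.2).1 hv⟩) ⟨?_, ?_⟩)
  · intro z w hzw
    have h1 : CRHM.vec Q a b (r z) = CRHM.vec Q a b (r w) := congrArg Subtype.val hzw
    have h2 := CRHM.sq_of_vec hELH hHAQ hKRH hC hDs hA hg (hmem _ z (hr z)).1
      (hmem _ w (hr w)).1 h1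
    have h3 := hBR.mul hd hD _ _ z w (hr z) (hr w)
    have h4 := ((hRPH F (a : F) (b : F) (D : F) hd hD).2 _ _ h3).2 h2
    exact add_right_cancel (h4.trans (hself w).symm)
  · rintro ⟨w, ⟨α, ha, hw⟩, h1, h2⟩
    have hc : Cnd Q T α := by
      intro v hv
      have hv' := hw ⟨v, hv⟩
      refine ⟨fun hs => ?_, fun hs => ?_⟩
      · have := h2 ⟨v, hv⟩ hs
        rw [hv'] at this
        exact this
      · have := h1 ⟨v, hv⟩ hs
        rw [hv'] at this
        exact this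
    obtain ⟨z, hz⟩ := hBR.ex hd hD α
      ((hSLH F M Q P T Ds D a b hC hDs hD' hT α).2 ⟨ha, hc⟩)
    refine ⟨z, Subtype.ext ?_⟩
    have h3 := hwd _ _ (hmem _ z (hr z)).1 ha (hBR.inj hd hD _ _ z (hr z) hz)
    exact h3.trans (funext fun v => (hw v).symm)

end Pool.Agent.Lib.MP_8cb858_nt.PU
end

section
/-!
# DAF: change of the twist by a local square
-/
set_option autoImplicit false

namespace Pool.Agent.Lib.MP_8cb858_nt.PU

open Polynomial NumberField IsDedekindDomain Pool.Agent.Lib.MP_8cb858_nt.SEL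
open Pool.Agent.Lib.MP_8cb858_nt.PF
open scoped Classical WithZero

theorem specDAF (hAFI : SpecAFI) : SpecDAF where
  fin := by
    intro F _ _ a b M D Ds hD hDs hL v hv α
    have hinj := (algebraMap F (v.adicCompletion F)).injective
    refine hAFI.dd (lc v D) (lc v Ds) α ?_ ?_ ?_
    · intro h
      have h1 : ((D : 𝓞 F) : F) = 0 := hinj (by rw [map_zero]; exact h)
      exact hD (by exact_mod_cast h1)
    · intro h
      have h1 : ((Ds : 𝓞 F) : F) = 0 := hinj (by rw [map_zero]; exact h)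
      exact hDs (by exact_mod_cast h1)
    · have h := hL.1 v hv
      have e : algebraMap F (v.adicCompletion F) ((D * Ds : 𝓞 F) : F) = lc v D * lc v Ds := by
        rw [← map_mul, ← map_mul]
      rw [← e]
      exact h
  inf := by
    intro F _ _ a b M D Ds hD hDs hL v α
    have hinj := (algebraMap F v.Completion).injective
    refine hAFI.dd _ _ α ?_ ?_ ?_
    · intro h
      have h1 : ((D : 𝓞 F) : F) = 0 := hinj (by rw [map_zero]; exact h)
      exact hD (by exact_mod_cast h1)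
    · intro h
      have h1 : ((Ds : 𝓞 F) : F) = 0 := hinj (by rw [map_zero]; exact h)
      exact hDs (by exact_mod_cast h1)
    · have h := hL.2 v
      have e : algebraMap F v.Completion ((D * Ds : 𝓞 F) : F) =
          algebraMap F v.Completion (D : F) * algebraMap F v.Completion (Ds : F) := by
        rw [← map_mul, ← map_mul]
      rw [← e]
      exact h
  sel := by
    intro F _ _ a b D t hD ht
    have key : ∀ (K : Type) [Field K] [Algebra F K] (α : Lk (algebraMap F K a) (algebraMap F K b)),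
        Aff (algebraMap F K (D * t ^ 2)) α ↔ Aff (algebraMap F K D) α := by
      intro K _ _ α
      have hinj := (algebraMap F K).injective
      refine hAFI.dd _ _ α ?_ ?_ ?_
      · exact fun h => (mul_ne_zero hD (pow_ne_zero 2 ht)) (hinj (by rw [map_zero]; exact h))
      · exact fun h => hD (hinj (by rw [map_zero]; exact h))
      · refine ⟨algebraMap F K (D * t), ?_⟩
        rw [← map_mul, ← map_mul]
        congr 1
        ring
    ext α
    unfold SelSet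
    simp only [Set.mem_ofPred_eq]
    constructor
    · rintro ⟨h1, h2, h3⟩
      exact ⟨h1, fun v => (key _ _).1 (h2 v), fun v => (key _ _).1 (h3 v)⟩
    · rintro ⟨h1, h2, h3⟩
      exact ⟨h1, fun v => (key _ _).2 (h2 v), fun v => (key _ _).2 (h3 v)⟩

end Pool.Agent.Lib.MP_8cb858_nt.PU
end

section
/-!
# ELH: `Wh` is a group (port of `PF/ELF.lean`)
-/
namespace Pool.Agent.Lib.MP_8cb858_nt.PU

open Polynomial NumberField IsDedekindDomain Pool.Agent.Lib.MP_8cb858_nt.SEL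
open Pool.Agent.Lib.MP_8cb858_nt.PF
open scoped Classical WithZero

theorem specELH (hINV : PF.SpecINV) (hEVF : PF.SpecEVF) (hLZ : PF.SpecLZ) (hNF : PF.SpecNF)
    (hKMD : PT.SpecKMD) (hLIT : SpecLIT) (hFAH : PT.SpecFAH) : SpecELH := by
  intro F _ _ M Q P Ds a b hC hDs
  have hd := (hFAH.ne0 hC).2.2
  have hdF := (hFAH.ne0 hC).2.1
  have hDsF : (Ds : F) ≠ 0 := fun h => hDs (RingOfIntegers.coe_eq_zero_iff.1 h)
  have hDv : ∀ v : Pl F, lc v Ds ≠ 0 := fun v =>
    (_root_.map_ne_zero (algebraMap F (v.adicCompletion F))).2 hDsF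
  have h1 : ∀ v : HeightOneSpectrum (𝓞 F), ul v (1 : Lk (a : F) (b : F)) = 1 := fun v => by
    unfold ul up
    rw [map_one]
  have h1i : ∀ v : InfinitePlace F, up v.Completion (1 : Lk (a : F) (b : F)) = 1 := fun v => by
    unfold up
    rw [map_one]
  have hm : ∀ (v : HeightOneSpectrum (𝓞 F)) (α β : Lk (a : F) (b : F)),
      ul v (α * β) = ul v α * ul v β := fun v α β => by
    unfold ul up
    rw [map_mul]
  have hmi : ∀ (v : InfinitePlace F) (α β : Lk (a : F) (b : F)),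
      up v.Completion (α * β) = up v.Completion α * up v.Completion β := fun v α β => by
    unfold up
    rw [map_mul]
  have hup : ∀ (v : HeightOneSpectrum (𝓞 F)) (α : Lk (a : F) (b : F)), InV α → InV (ul v α) :=
    fun v α h => hINV.upv _ α h
  have hupi : ∀ (v : InfinitePlace F) (α : Lk (a : F) (b : F)), InV α →
      InV (up v.Completion α) := fun v α h => hINV.upv _ α h
  have hI1 : InV (1 : Lk (a : F) (b : F)) := ⟨isUnit_one, by rw [map_one]; exact IsSquare.one⟩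
  refine ⟨⟨hI1, fun v _ => ?_, fun v => ?_, fun v _ _ => ?_⟩, fun α hα β hβ =>
    ⟨hINV.mul α β hα.1 hβ.1, fun v hv => ?_, fun v => ?_, fun v hv hvQ => ?_⟩⟩
  · rw [h1]
    exact hLZ (v.adicCompletion F) (vv v) _ _ _ 1 (hNF.lf F v) (hDv v) ⟨1, (mul_one 1).symm⟩
  · refine hLIT.sqa F v _ _ _ _ hdF hDsF (hupi v 1 hI1) ?_
    rw [h1i]
    exact IsSquare.one
  · rw [h1]
    exact (hEVF (v.adicCompletion F) (vv v) _ _ 1 1 (hFAH.int v a) (hFAH.int v b)).2.2
      isUnit_one ⟨1, (mul_one 1).symm⟩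
  · rw [hm]
    exact hKMD.grp (v.adicCompletion F) (vv v) _ _ _ _ _ (hNF.lf F v) (hFAH.int v a)
      (hFAH.int v b) (hd v) (hFAH.int v Ds) (hDv v)
      (hup v α hα.1) (hup v β hβ.1) (hα.2.1 v hv) (hβ.2.1 v hv)
  · rw [hmi]
    exact hLIT.grp F v _ _ _ _ _ hdF hDsF (hupi v α hα.1) (hupi v β hβ.1) (hα.2.2.1 v) (hβ.2.2.1 v)
  · rw [hm]
    exact (hEVF (v.adicCompletion F) (vv v) _ _ _ _ (hFAH.int v a) (hFAH.int v b)).1
      (hα.2.2.2 v hv hvQ) (hβ.2.2.2 v hv hvQ)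

end Pool.Agent.Lib.MP_8cb858_nt.PU
end

section
/-!
# GEN: general facts on the Selmer groups over a number field
-/
set_option autoImplicit false

namespace Pool.Agent.Lib.MP_8cb858_nt.PU

open Polynomial NumberField IsDedekindDomain Pool.Agent.Lib.MP_8cb858_nt.SEL
open Pool.Agent.Lib.MP_8cb858_nt.PF
open scoped Classical WithZero

namespace GENM

theorem card_two_pow {G : Type} [AddCommGroup G] [Finite G] (h : ∀ z : G, z + z = 0) :
    ∃ s : ℕ, Nat.card G = 2 ^ s := by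
  have h1 : IsPGroup 2 (Multiplicative G) := by
    intro g
    refine ⟨1, ?_⟩
    rw [pow_one, pow_two]
    exact h g.toAdd
  have : Fact (Nat.Prime 2) := ⟨Nat.prime_two⟩
  obtain ⟨n, hn⟩ := IsPGroup.iff_card.1 h1
  exact ⟨n, hn⟩

theorem dsc_coe {F : Type} [Field F] [NumberField F] (a b : 𝓞 F) (h : dsc a b ≠ 0) :
    dsc (a : F) (b : F) ≠ 0 := by
  have h1 : algebraMap (𝓞 F) F (dsc a b) = dsc (a : F) (b : F) := by
    simp only [dsc, map_add, map_mul, map_pow, map_ofNat]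
  rw [← h1]
  intro h2
  exact h (RingOfIntegers.ext (h2.trans (map_zero _).symm))

theorem exists_inj (hBR : PF.SpecBR) (hINV : PF.SpecINV) {F : Type} [Field F] [NumberField F]
    (a b D D' : F) (hd : dsc a b ≠ 0) (h0 : D ≠ 0) (h0' : D' ≠ 0)
    (hsub : SelSet a b D ⊆ SelSet a b D') :
    ∃ f : Sel 2 (cur a b D) → Sel 2 (cur a b D'), Function.Injective f := by
  have key : ∀ z : Sel 2 (cur a b D), ∃ (α : Lk a b) (z' : Sel 2 (cur a b D')),
      Rep D α z ∧ Rep D' α z' := fun z => by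
    obtain ⟨α, hα⟩ := hBR.surj hd h0 z
    obtain ⟨z', hz'⟩ := hBR.ex hd h0' α (hsub (hBR.sel hd h0 α z hα))
    exact ⟨α, z', hα, hz'⟩
  choose α f hα hf using key
  refine ⟨f, fun z₁ z₂ h => ?_⟩
  have h2 := hf z₂
  rw [← h] at h2
  have hs := hBR.inj hd h0' (α z₁) (α z₂) (f z₁) (hf z₁) h2
  obtain ⟨γ, hγ, hg⟩ := (hINV.quo _ _ (hα z₁).1.1 (hα z₂).1.1).1 hs
  have h3 := hBR.sqr hd h0 (α z₂) γ z₂ hγ (hα z₂)
  rw [← hg] at h3
  exact hBR.uni hd h0 (α z₁) z₁ z₂ (hα z₁) h3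

end GENM

open GENM in
theorem specGEN (hSFN : SpecSFN) (hDAF : SpecDAF) (hBR : PF.SpecBR) (hINV : PF.SpecINV) :
    SpecGEN where
  fin := by
    intro F _ _ E D hd hD
    obtain ⟨h1, h2⟩ := hSFN F E.1 E.2 D hd hD
    refine ⟨h1, h2, ?_⟩
    have : Finite (Sel 2 (cO E.1 E.2 D)) := h1
    exact card_two_pow h2
  sqt := by
    intro F _ _ E D D' t hd hD ht hD'
    have hdF := dsc_coe E.1 E.2 hd
    have hDF : (D : F) ≠ 0 := by exact_mod_cast hD
    have hD'0 : D' ≠ 0 := by rw [hD']; exact mul_ne_zero hDF (pow_ne_zero 2 ht)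
    have e : SelSet (E.1 : F) (E.2 : F) D' = SelSet (E.1 : F) (E.2 : F) (D : F) := by
      rw [hD']
      exact hDAF.sel _ _ _ _ hDF ht
    have hf : Finite (Sel 2 (cur (E.1 : F) (E.2 : F) (D : F))) := (hSFN F E.1 E.2 D hd hD).1
    obtain ⟨f, hfi⟩ := exists_inj hBR hINV (E.1 : F) (E.2 : F) D' (D : F) hdF hD'0 hDF e.le
    obtain ⟨g, hgi⟩ := exists_inj hBR hINV (E.1 : F) (E.2 : F) (D : F) D' hdF hDF hD'0 e.ge
    have hf' : Finite (Sel 2 (cur (E.1 : F) (E.2 : F) D')) := Finite.of_injective f hfi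
    exact le_antisymm (Nat.card_le_card_of_injective f hfi) (Nat.card_le_card_of_injective g hgi)

end Pool.Agent.Lib.MP_8cb858_nt.PU
end

section
/-!
# JNH: the junk lemma
-/
set_option autoImplicit false

namespace Pool.Agent.Lib.MP_8cb858_nt.PU

open Polynomial NumberField IsDedekindDomain Pool.Agent.Lib.MP_8cb858_nt.SEL
open Pool.Agent.Lib.MP_8cb858_nt.PF
open scoped Classical WithZero

namespace JNHM

variable {F : Type} [Field F] [NumberField F]

lemma two_one (v : HeightOneSpectrum (𝓞 F)) (h : (6 : 𝓞 F) ∉ v.asIdeal) :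
    vv v (2 : v.adicCompletion F) = 1 := by
  have h2 : (2 : 𝓞 F) ∉ v.asIdeal := by
    intro h2
    apply h
    rw [show (6 : 𝓞 F) = 2 * 3 by norm_num]
    exact Ideal.mul_mem_right _ _ h2
  rw [← NFBM.vv_int_one] at h2
  rw [← h2]
  congr 1
  have e : (((2 : 𝓞 F)) : F) = 2 := by
    exact map_ofNat (algebraMap (𝓞 F) F) 2
  rw [e, map_ofNat]

lemma dsc_map (v : HeightOneSpectrum (𝓞 F)) (a b : 𝓞 F) :
    algebraMap F (v.adicCompletion F) ((dsc a b : 𝓞 F) : F) = dsc (lc v a) (lc v b) := by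
  simp only [dsc, map_add, map_mul, map_pow, map_ofNat]

lemma dsc_ne (v : HeightOneSpectrum (𝓞 F)) {a b : 𝓞 F} (h : dsc a b ≠ 0) :
    dsc (lc v a) (lc v b) ≠ 0 := by
  rw [← dsc_map]
  intro h0
  apply h
  have h1 := (map_eq_zero _).1 h0
  exact RingOfIntegers.coe_injective (h1.trans (map_zero _).symm)

lemma sf (v : HeightOneSpectrum (𝓞 F)) {a b : 𝓞 F} (h : dsc a b ∉ v.asIdeal ^ 2) :
    WithZero.exp (-1 : ℤ) ≤ vv v (dsc (lc v a) (lc v b)) := by
  rw [(specNFB.int F v (dsc a b) 2).2, dsc_map] at h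
  generalize vv v (dsc (lc v a) (lc v b)) = k at h ⊢
  rcases eq_or_ne k 0 with rfl | hk
  · exact absurd zero_le h
  · obtain ⟨m, rfl⟩ : ∃ m : ℤ, k = WithZero.exp m := ⟨WithZero.log k, (WithZero.exp_log hk).symm⟩
    rw [WithZero.exp_le_exp] at h ⊢
    push_cast at h
    omega

end JNHM

open JNHM in
theorem specJNH (hLJR : PT.SpecLJR) (hNR3 : PT.SpecNR3) (hINV : SpecINV) (hKMD : PT.SpecKMD)
    (hFAH : PT.SpecFAH) (hDAF : SpecDAF) (hLIT : SpecLIT) (hLZ : SpecLZ) (hLV : SpecLV) (hLG : SpecLG)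
    (hEVF : SpecEVF) (hBR : SpecBR) (hSFN : SpecSFN) (hNF : SpecNF) : SpecJNH := by
  intro F _ _ M P J a b D1 D2 hd0 h6 hsf hP hJ hD1 hD2 hM hot
  have hd : dsc (a : F) (b : F) ≠ 0 := by
    intro h0
    apply hd0
    apply RingOfIntegers.coe_injective
    rw [map_zero, ← h0]
    simp only [dsc, map_add, map_mul, map_pow, map_ofNat]
  have hD1F : (D1 : F) ≠ 0 := fun h => hD1 (RingOfIntegers.coe_eq_zero_iff.1 h)
  have hD2F : (D2 : F) ≠ 0 := fun h => hD2 (RingOfIntegers.coe_eq_zero_iff.1 h)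
  have hlc : ∀ (v : Pl F) (D : 𝓞 F), (D : F) ≠ 0 → lc v D ≠ 0 := fun v D h =>
    (_root_.map_ne_zero (algebraMap F (v.adicCompletion F))).2 h
  have hm : ∀ (v : HeightOneSpectrum (𝓞 F)) (α β : Lk (a : F) (b : F)),
      ul v (α * β) = ul v α * ul v β := fun v α β => by
    unfold ul up
    rw [map_mul]
  -- the colours
  have hcol : ∀ v : {v // v ∈ J}, ∃ c : Lk (lc v.1 a) (lc v.1 b) → Fin 4,
      ∀ α β : Lk (lc v.1 a) (lc v.1 b), InV α → InV β →
        Aff (lc v.1 D1) α → Aff (lc v.1 D1) β → c α = c β →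
        IsSquare (α * β) := by
    rintro ⟨v, hv⟩
    obtain ⟨hvM, hvd, hvD⟩ := hJ v hv
    have h1 : vv v (dsc (lc v a) (lc v b)) = 1 := by
      rw [← dsc_map, NFBM.vv_int_one]
      exact hvd
    obtain ⟨c, hc⟩ := hLJR (v.adicCompletion F) (vv v) (lc v a) (lc v b)
      (lc v D1) (hNF.lf F v) (two_one v fun h => hvM (h6 v h)) (hFAH.int v a)
      (hFAH.int v b) h1 hvD
    have h4 : 1 + Nat.card {t : v.adicCompletion F // t ^ 3 + lc v a * t + lc v b = 0} ≤ 4 := by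
      have := (hNR3 (v.adicCompletion F) (lc v a) (lc v b)).1
      omega
    refine ⟨fun α => Fin.castLE h4 (c α), fun α β hα hβ h1 h2 h3 => hc α β hα hβ h1 h2 ?_⟩
    exact Fin.castLE_injective h4 h3
  choose c hc using hcol
  -- representatives
  choose r hr using fun z : Sel 2 (cO a b D1) => hBR.surj hd hD1F z
  obtain ⟨χ, hχ⟩ : ∃ χ : Sel 2 (cO a b D1) → ({v // v ∈ J} → Fin 4),
      χ = fun z v => c v (ul v.1 (r z)) := ⟨_, rfl⟩
  have key : ∀ z z' : Sel 2 (cO a b D1), χ z = χ z' →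
      ∃ y : Sel 2 (cO a b D2), Rep (D2 : F) (r z * r z') y := by
    intro z z' hzz
    apply hBR.ex hd hD2F
    have s1 := hBR.sel hd hD1F _ z (hr z)
    have s2 := hBR.sel hd hD1F _ z' (hr z')
    have i1 : ∀ v : HeightOneSpectrum (𝓞 F), InV (ul v (r z)) := fun v => hINV.upv _ _ s1.1
    have i2 : ∀ v : HeightOneSpectrum (𝓞 F), InV (ul v (r z')) := fun v => hINV.upv _ _ s2.1
    refine ⟨hINV.mul _ _ s1.1 s2.1, fun v => ?_, fun v => ?_⟩
    · have a1 : Aff (lc v D1) (ul v (r z)) := s1.2.1 v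
      have a2 : Aff (lc v D1) (ul v (r z')) := s2.2.1 v
      have hD2v : lc v D2 ≠ 0 := hlc v D2 hD2F
      have hD1v : lc v D1 ≠ 0 := hlc v D1 hD1F
      change Aff (lc v D2) (ul v (r z * r z'))
      rw [hm]
      by_cases hvM : v ∈ M
      · refine (hDAF.fin M D1 D2 hD1 hD2 hM v hvM _).1 ?_
        exact hKMD.grp (v.adicCompletion F) (vv v) _ _ _ _ _ (hNF.lf F v) (hFAH.int v a)
          (hFAH.int v b) (dsc_ne v hd0) (hFAH.int v D1) hD1v (i1 v) (i2 v) a1 a2
      by_cases hvJ : v ∈ J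
      · apply hLZ (v.adicCompletion F) (vv v) _ _ _ _ (hNF.lf F v) hD2v
        refine hc ⟨v, hvJ⟩ _ _ (i1 v) (i2 v) a1 a2 ?_
        have := congrFun hzz ⟨v, hvJ⟩
        rw [hχ] at this
        exact this
      by_cases hvP : v ∈ P
      · apply hLZ (v.adicCompletion F) (vv v) _ _ _ _ (hNF.lf F v) hD2v
        refine hLV (v.adicCompletion F) (vv v) _ _ _ (hNF.lf F v)
          (two_one v fun h => hvM (h6 v h)) (hFAH.int v a) (hFAH.int v b)
          ((hNF.t3 F v a b).2 (hP v hvP).2) (hINV.mul _ _ (i1 v) (i2 v))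
      · have h2 := two_one v fun h => hvM (h6 v h)
        have hs := sf v (hsf v hvM)
        have hw := hot v hvM hvJ hvP
        have lg := fun (D : v.adicCompletion F) (α : Lk (lc v a) (lc v b)) (hw : vv v D = 1)
          (hα : InV α) => hLG (v.adicCompletion F) (vv v) _ _ D α (hNF.lf F v) h2 (hFAH.int v a)
          (hFAH.int v b) hs hw hα
        refine (lg _ _ hw.2 (hINV.mul _ _ (i1 v) (i2 v))).1 ?_
        exact (hEVF (v.adicCompletion F) (vv v) _ _ _ _ (hFAH.int v a) (hFAH.int v b)).1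
          ((lg _ _ hw.1 (i1 v)).2 a1) ((lg _ _ hw.1 (i2 v)).2 a2)
    · have b1 := s1.2.2 v
      have b2 := s2.2.2 v
      refine (hDAF.inf M D1 D2 hD1 hD2 hM v _).1 ?_
      have e : up v.Completion (r z * r z') = up v.Completion (r z) * up v.Completion (r z') := by
        unfold up
        rw [map_mul]
      rw [e]
      exact hLIT.grp F v _ _ _ _ _ hd hD1F (hINV.upv _ _ s1.1) (hINV.upv _ _ s2.1) b1 b2
  -- base points
  obtain ⟨z0, hz0⟩ : ∃ z0 : ({v // v ∈ J} → Fin 4) → Sel 2 (cO a b D1),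
      ∀ z, χ (z0 (χ z)) = χ z := by
    refine ⟨fun x => if h : ∃ z, χ z = x then Classical.choose h else 0, fun z => ?_⟩
    have h : ∃ z', χ z' = χ z := ⟨z, rfl⟩
    dsimp only
    rw [dif_pos h]
    exact Classical.choose_spec h
  choose y hy using fun z : Sel 2 (cO a b D1) => key z (z0 (χ z)) (hz0 z).symm
  have hfin1 := (hSFN F a b D1 hd0 hD1).1
  have hfin2 := (hSFN F a b D2 hd0 hD2).1
  have hinj : Function.Injective (fun z : Sel 2 (cO a b D1) => (χ z, y z)) := by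
    intro z z' h
    have h1 : χ z = χ z' := congrArg Prod.fst h
    have h2 : y z = y z' := congrArg Prod.snd h
    have hy1 := hy z
    have hy2 := hy z'
    rw [← h2, ← h1] at hy2
    have hs := hBR.inj hd hD2F _ _ _ hy1 hy2
    have u0 := (hBR.sel hd hD1F _ _ (hr (z0 (χ z)))).1.1
    have u1 := (hBR.sel hd hD1F _ _ (hr z)).1.1
    have u2 := (hBR.sel hd hD1F _ _ (hr z')).1.1
    have hs2 : IsSquare (r z * r z' * (r (z0 (χ z))) ^ 2) := by
      have e : r z * r z' * (r (z0 (χ z))) ^ 2 =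
          r z * r (z0 (χ z)) * (r z' * r (z0 (χ z))) := by ring
      rw [e]
      exact hs
    have hs3 := hINV.trs _ _ 1 (u0.pow 2) hs2 (by rw [mul_one]; exact ⟨_, by ring⟩)
    rw [mul_one] at hs3
    obtain ⟨γ, hγ, hg⟩ := (hINV.quo _ _ u1 u2).1 hs3
    have hrep := hBR.sqr hd hD1F _ γ _ hγ (hr z')
    rw [← hg] at hrep
    exact hBR.uni hd hD1F _ _ _ (hr z) hrep
  have hcard := Nat.card_le_card_of_injective _ hinj
  rw [Nat.card_prod] at hcard
  have e1 : Nat.card ({v // v ∈ J} → Fin 4) = 4 ^ J.card := by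
    rw [Nat.card_fun, Nat.card_eq_fintype_card, Nat.card_eq_fintype_card, Fintype.card_fin,
      Fintype.card_coe]
  rwa [e1] at hcard

end Pool.Agent.Lib.MP_8cb858_nt.PU
end

section
/-!
# JNK: the junk lemma for pairs `E = (a, b)` (from JNH)
-/
namespace Pool.Agent.Lib.MP_8cb858_nt.PU

open Polynomial NumberField IsDedekindDomain Pool.Agent.Lib.MP_8cb858_nt.SEL
open Pool.Agent.Lib.MP_8cb858_nt.PF
open scoped Classical WithZero

/-- **JNK** (from JNH). -/
theorem specJNK (hJNH : SpecJNH) : SpecJNK := by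
  intro F _ _ M P J E D1 D2 hM hSf hd hP hJ hD1 hD2 hL hU
  refine hJNH F M P J E.1 E.2 D1 D2 hd ?_ (fun v hv => hSf v hv) (fun v hv => hP v hv) hJ hD1 hD2
    hL hU
  intro v h6
  by_contra hv
  exact (hM v hv).1 h6

end Pool.Agent.Lib.MP_8cb858_nt.PU
end

section
/-!
# Module LIT: the infinite places, for the twist by an element of `F`
-/
namespace Pool.Agent.Lib.MP_8cb858_nt.PU

open Polynomial NumberField IsDedekindDomain Pool.Agent.Lib.MP_8cb858_nt.SEL
open Pool.Agent.Lib.MP_8cb858_nt.PF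
open scoped Classical WithZero

namespace LITM

/-- `dsc` of the twist. -/
theorem dsc_twist {R : Type} [CommRing R] (a b D : R) :
    dsc (a * D ^ 2) (b * D ^ 3) = D ^ 6 * dsc a b := by
  unfold dsc
  ring

/-- Three real roots: the condition does not change under twisting. -/
theorem thr_twist {F : Type} [Field F] [NumberField F] (v : InfinitePlace F) (a b D : F)
    (hD : D ≠ 0) : PT.Thr v (a * D ^ 2) (b * D ^ 3) ↔ PT.Thr v a b := by
  unfold PT.Thr
  refine and_congr_right fun hv => ?_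
  have hval : ∀ x : F, ((InfinitePlace.embedding_of_isReal hv x : ℝ) : ℂ) = v.embedding x := fun x =>
    InfinitePlace.embedding_of_isReal_apply hv x
  have hre : ∀ x : F, (v.embedding x).re = InfinitePlace.embedding_of_isReal hv x := by
    intro x
    rw [← hval x, Complex.ofReal_re]
  rw [hre, hre, dsc_twist, map_mul, map_pow]
  have h0 : InfinitePlace.embedding_of_isReal hv D ≠ 0 := (_root_.map_ne_zero _).mpr hD
  have h6 : 0 < InfinitePlace.embedding_of_isReal hv D ^ 6 := by positivity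
  constructor
  · intro h
    by_contra h1
    have := mul_nonneg h6.le (not_lt.mp h1)
    linarith
  · intro h
    exact mul_neg_of_pos_of_neg h6 h

/-- The transport. -/
theorem trans (hTWD : PF.SpecTWD) {F : Type} [Field F] {K : Type} [Field K] [Algebra F K]
    (a b D : F) (hD : D ≠ 0) :
    ∃ κ : Lk (algebraMap F K a) (algebraMap F K b) ≃+*
        Lk (algebraMap F K (a * D ^ 2)) (algebraMap F K (b * D ^ 3)),
      (∀ α, InV (κ α) ↔ InV α) ∧ (∀ α, Aff 1 (κ α) ↔ Aff (algebraMap F K D) α) ∧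
      (∀ α, IsSquare (κ α) ↔ IsSquare α) := by
  have hδ : algebraMap F K D ≠ 0 := (_root_.map_ne_zero _).mpr hD
  obtain ⟨κ, h1, h2, h3, -⟩ := hTWD.1 K (algebraMap F K a) (algebraMap F K b)
    (algebraMap F K D) hδ
  have ea : algebraMap F K a * algebraMap F K D ^ 2 = algebraMap F K (a * D ^ 2) := by
    rw [map_mul, map_pow]
  have eb : algebraMap F K b * algebraMap F K D ^ 3 = algebraMap F K (b * D ^ 3) := by
    rw [map_mul, map_pow]
  generalize algebraMap F K (a * D ^ 2) = x at ea ⊢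
  generalize algebraMap F K (b * D ^ 3) = y at eb ⊢
  subst ea
  subst eb
  exact ⟨κ, h1, h2, h3⟩

end LITM

open LITM in
/-- **LIT.** -/
theorem specLIT (hLIT : PT.SpecLIT) (hTWD : PF.SpecTWD) : SpecLIT where
  grp := by
    intro F _ _ v a b D α β hd hD hα hβ h1 h2
    have hd' : dsc (a * D ^ 2) (b * D ^ 3) ≠ 0 := by
      rw [dsc_twist]
      exact mul_ne_zero (pow_ne_zero _ hD) hd
    obtain ⟨κ, k1, k2, k3⟩ := trans hTWD (K := v.Completion) a b D hD
    have h := hLIT.grp F v (a * D ^ 2) (b * D ^ 3) (κ α) (κ β) hd' ((k1 α).2 hα) ((k1 β).2 hβ)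
      ((k2 α).2 h1) ((k2 β).2 h2)
    rw [← map_mul] at h
    exact (k2 _).1 h
  sqa := by
    intro F _ _ v a b D α hd hD hα hs
    have hd' : dsc (a * D ^ 2) (b * D ^ 3) ≠ 0 := by
      rw [dsc_twist]
      exact mul_ne_zero (pow_ne_zero _ hD) hd
    obtain ⟨κ, k1, k2, k3⟩ := trans hTWD (K := v.Completion) a b D hD
    exact (k2 _).1 (hLIT.sqa F v (a * D ^ 2) (b * D ^ 3) (κ α) hd' ((k1 α).2 hα) ((k3 α).2 hs))
  col := by
    intro F _ _ v a b D hd hD
    have hd' : dsc (a * D ^ 2) (b * D ^ 3) ≠ 0 := by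
      rw [dsc_twist]
      exact mul_ne_zero (pow_ne_zero _ hD) hd
    obtain ⟨κ, k1, k2, k3⟩ := trans hTWD (K := v.Completion) a b D hD
    have hT : PT.Thr v (a * D ^ 2) (b * D ^ 3) = PT.Thr v a b := propext (thr_twist v a b D hD)
    have h := hLIT.col F v (a * D ^ 2) (b * D ^ 3) hd'
    rw [hT] at h
    obtain ⟨c, hc⟩ := h
    refine ⟨fun α => c (κ α), fun α β hα hβ he => ?_⟩
    have h := hc (κ α) (κ β) ((k1 α).2 hα) ((k1 β).2 hβ) he
    rw [← map_mul] at h
    exact (k2 _).1 h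

end Pool.Agent.Lib.MP_8cb858_nt.PU
end

section
/-!
# RCH: reciprocity on `Wh`
-/
namespace Pool.Agent.Lib.MP_8cb858_nt.PU

open Polynomial NumberField IsDedekindDomain Pool.Agent.Lib.MP_8cb858_nt.SEL
open Pool.Agent.Lib.MP_8cb858_nt.PF
open scoped Classical WithZero

theorem specRCH (hLG : SpecLG) (hLV : SpecLV) (hAFI : SpecAFI)
    (hINV : SpecINV) (hADJ : SpecADJ) (hHAQ : PT.SpecHAQ) (hFAH : PT.SpecFAH)
    (hNF : SpecNF) : SpecRCH := by
  intro F _ _ M Q P Ds a b hR hC hDs α hα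
  obtain ⟨hd0, -, -⟩ := hFAH.ne0 hC
  have hup : ∀ v : Pl F, InV (ul v α) := fun v => hINV.upv _ α hα.1
  have hDsF : (Ds : F) ≠ 0 := fun h => hDs (RingOfIntegers.coe_eq_zero_iff.1 h)
  have hinf : ∀ v : InfinitePlace F, Iso (up v.Completion α) := fun v =>
    hAFI.iso (algebraMap F v.Completion (Ds : F)) _ ((_root_.map_ne_zero _).2 hDsF) (hINV.upv _ α hα.1).1 (hα.2.2.1 v)
  have hiso : ∀ v : Pl F, v ∉ Q → Iso (ul v α) := by
    intro v hv
    by_cases hkv : v ∈ M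
    · exact hAFI.iso (lc v Ds) _ ((_root_.map_ne_zero (algebraMap F (v.adicCompletion F))).2 hDsF) (hup v).1
        (hα.2.1 v hkv)
    obtain ⟨hw2, hw3, -⟩ := hFAH.tw hC v hkv
    by_cases hP : v ∈ P
    · obtain ⟨γ, hγ⟩ := hLV (v.adicCompletion F) (vv v) (lc v a) (lc v b) (ul v α) (hNF.lf F v) hw2
        (hFAH.int v a) (hFAH.int v b) (hFAH.t3 hC v hP) (hup v)
      have hγu : IsUnit γ := by
        have h1 := (hup v).1
        rw [hγ] at h1
        exact isUnit_of_mul_isUnit_left h1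
      have h2 := (hAFI.inv (a := lc v a) (b := lc v b) 1 1 γ hγu).2.2 hADJ.one
      rw [one_mul, pow_two, ← hγ] at h2
      exact h2
    · have h1 := (hLG (v.adicCompletion F) (vv v) (lc v a) (lc v b) 1 (ul v α) (hNF.lf F v) hw2
        (hFAH.int v a) (hFAH.int v b) (hFAH.sqf hC v hkv) (map_one _) (hup v)).1
        (hα.2.2.2 v hkv hv)
      exact hAFI.iso 1 _ one_ne_zero (hup v).1 h1
  have hev := hR a b α hd0 hα.1 hiso hinf
  have hval : ∀ v ∈ Q, ee v α * ss v α = if ¬ Iso (ul v α) then 1 else 0 := by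
    intro v hv
    obtain ⟨-, -, h1, -⟩ := hHAQ F M Q P a b hC v hv α α hα.1 hα.1
    rw [h1]
    by_cases h : Iso (ul v α)
    · rw [if_pos h, if_neg (not_not.2 h)]
    · rw [if_neg h, if_pos h]
  rw [Finset.sum_congr rfl hval, Finset.sum_boole, ZMod.natCast_eq_zero_iff]
  exact hev.two_dvd

end Pool.Agent.Lib.MP_8cb858_nt.PU
end

section
/-!
# Module RPH: `1` represents the trivial class (port of `PF/RP0.lean`)
-/
namespace Pool.Agent.Lib.MP_8cb858_nt.PU

open Polynomial NumberField IsDedekindDomain Pool.Agent.Lib.MP_8cb858_nt.SEL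
open Pool.Agent.Lib.MP_8cb858_nt.PF
open scoped Classical WithZero

theorem specRPH (hBR : PF.SpecBR) (hLZ : PF.SpecLZ) (hINV : PF.SpecINV) (hNF : PF.SpecNF)
    (hLIT : SpecLIT) : SpecRPH := by
  intro F _ _ a b D hd hD0
  have hD := hD0
  have h1 : InV (1 : Lk a b) := ⟨isUnit_one, by rw [map_one]; exact IsSquare.one⟩
  have hsel : (1 : Lk a b) ∈ SelSet a b D := by
    refine ⟨h1, fun v => ?_, fun v => ?_⟩
    · refine hLZ _ (vv v) _ _ _ _ (hNF.lf F v) ?_ ?_
      · rw [Ne, map_eq_zero]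
        exact hD
      · unfold up
        rw [map_one]
        exact IsSquare.one
    · refine hLIT.sqa F v a b _ _ hd hD (hINV.upv _ _ h1) ?_
      unfold up
      rw [map_one]
      exact IsSquare.one
  obtain ⟨z, hz⟩ := hBR.ex hd hD 1 hsel
  have hzz := hBR.mul hd hD 1 1 z z hz hz
  rw [mul_one] at hzz
  have hz0 : z = 0 := by
    have h2 := hBR.uni hd hD 1 (z + z) z hzz hz
    exact add_eq_left.1 h2
  subst hz0
  refine ⟨hz, fun α z hα => ⟨?_, ?_⟩⟩
  · rintro rfl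
    have h2 := hBR.inj hd hD α 1 0 hα hz
    rwa [mul_one] at h2
  · rintro ⟨g, hg⟩
    have hu : IsUnit g := by
      have h2 := hα.1.1
      rw [hg] at h2
      exact isUnit_of_mul_isUnit_left h2
    have h2 := hBR.sqr hd hD 1 g 0 hu hz
    rw [one_mul, pow_two, ← hg] at h2
    exact hBR.uni hd hD α z 0 hα h2

end Pool.Agent.Lib.MP_8cb858_nt.PU
end

section
/-!
# SEQ: comparison of Selmer groups by local conditions (number fields)
-/
namespace Pool.Agent.Lib.MP_8cb858_nt.PU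

open Polynomial NumberField IsDedekindDomain Pool.Agent.Lib.MP_8cb858_nt.SEL
open Pool.Agent.Lib.MP_8cb858_nt.PF
open scoped Classical WithZero

theorem specSEQ (hBR : PF.SpecBR) (hINV : PF.SpecINV) : SpecSEQ := by
  intro F _ _ a b D D' hdF h0 h0' hfin hsub
  have := hfin
  have key : ∀ z : Sel 2 (cur a b D), ∃ (α : Lk a b) (z' : Sel 2 (cur a b D')),
      Rep D α z ∧ Rep D' α z' := fun z => by
    obtain ⟨α, hα⟩ := hBR.surj hdF h0 z
    obtain ⟨z', hz'⟩ := hBR.ex hdF h0' α (hsub (hBR.sel hdF h0 α z hα))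
    exact ⟨α, z', hα, hz'⟩
  choose α f hα hf using key
  refine Nat.card_le_card_of_injective f (fun z₁ z₂ h => ?_)
  have h2 := hf z₂
  rw [← h] at h2
  have hs := hBR.inj hdF h0' (α z₁) (α z₂) (f z₁) (hf z₁) h2
  obtain ⟨γ, hγ, hg⟩ := (hINV.quo _ _ (hα z₁).1.1 (hα z₂).1.1).1 hs
  have h3 := hBR.sqr hdF h0 (α z₂) γ z₂ hγ (hα z₂)
  rw [← hg] at h3
  exact hBR.uni hdF h0 (α z₁) z₁ z₂ (hα z₁) h3

end Pool.Agent.Lib.MP_8cb858_nt.PU
end

section
/-!
# Module SFN: the Selmer groups are finite of exponent 2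
-/
namespace Pool.Agent.Lib.MP_8cb858_nt.PU

open Polynomial NumberField IsDedekindDomain Pool.Agent.Lib.MP_8cb858_nt.SEL
open Pool.Agent.Lib.MP_8cb858_nt.PF
open scoped Classical WithZero

namespace SFNM

theorem two_tors {F : Type} [Field F] [NumberField F] (E : WeierstrassCurve F) (z : Sel 2 E) :
    z + z = 0 := by
  induction z using QuotientAddGroup.induction_on with
  | H c =>
    have h : c + c = 0 := by
      apply Subtype.ext
      funext s
      have h1 := c.2.2.1 s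
      rw [two_nsmul] at h1
      exact h1
    rw [← QuotientAddGroup.mk_add, h]
    rfl

theorem fin (hMAIN : SEL.SpecMAIN.{0}) (F : Type) [Field F] [NumberField F] (a b : 𝓞 F)
    (h : 4 * a ^ 3 + 27 * b ^ 2 ≠ 0) : Finite (Sel 2 (curve (a : F) (b : F))) := by
  obtain ⟨C, hC⟩ := hMAIN F
  set X : InfinitePlace F → ℝ := fun v =>
    max 1 (max (((v (a : F)) ^ v.mult) ^ 3) (((v (b : F)) ^ v.mult) ^ 2)) with hX
  obtain ⟨-, h2, -⟩ := hC X (fun v => le_max_left _ _)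
  exact h2 (a, b) ⟨h, fun v => ⟨(le_max_left _ _).trans (le_max_right _ _),
    (le_max_right _ _).trans (le_max_right _ _)⟩⟩

end SFNM

theorem specSFN (hMAIN : SEL.SpecMAIN.{0}) : SpecSFN := by
  intro F _ _ a b D hd hD
  refine ⟨?_, fun z => SFNM.two_tors _ z⟩
  have h := SFNM.fin hMAIN F (a * D ^ 2) (b * D ^ 3) (by
    have e : 4 * (a * D ^ 2) ^ 3 + 27 * (b * D ^ 3) ^ 2 =
        D ^ 6 * dsc a b := by
      unfold dsc; ring
    rw [e]
    exact mul_ne_zero (pow_ne_zero 6 hD) hd)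
  have e : curve ((a * D ^ 2 : 𝓞 F) : F) ((b * D ^ 3 : 𝓞 F) : F) = cO a b D := by
    unfold cO cur
    push_cast
    rfl
  rw [e] at h
  exact h

end Pool.Agent.Lib.MP_8cb858_nt.PU
end

section
/-!
# SLH: the local conditions of the 2-Selmer group in terms of the coordinates
-/
namespace Pool.Agent.Lib.MP_8cb858_nt.PU

open Polynomial NumberField IsDedekindDomain Pool.Agent.Lib.MP_8cb858_nt.SEL
open Pool.Agent.Lib.MP_8cb858_nt.PF
open scoped Classical WithZero

namespace SLHM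

/-- The local condition at a finite place. -/
theorem loc (hLG : SpecLG) (hLT : SpecLT) (hLV : SpecLV) (hLZ : SpecLZ)
    (hEVF : SpecEVF) (hNF : SpecNF) (hHAQ : PT.SpecHAQ) (hFAH : PT.SpecFAH) (hDAF : SpecDAF)
    {F : Type} [Field F] [NumberField F]
    {M Q P T : Finset (Pl F)} {Ds D : 𝓞 F} {a b : 𝓞 F} (hC : PT.Cf M Q P a b)
    (hDs : Ds ≠ 0) (hA : Ad M P T Ds D) (hT : T ⊆ Q)
    (α : Lk (a : F) (b : F)) (hα : InV α) (v : Pl F) (hup : InV (ul v α)) :
    Aff (lc v D) (ul v α) ↔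
      (v ∈ M → Aff (lc v Ds) (ul v α)) ∧
      (v ∉ M → v ∉ Q → Ev (vv v) (ul v α)) ∧
      (v ∈ Q → (v ∈ T → ss v α = 0) ∧ (v ∉ T → ee v α = 0)) := by
  have hDK : lc v D ≠ 0 := by
    intro h
    have h1 : algebraMap F (v.adicCompletion F) (D : F) = 0 := h
    exact hA.ne (RingOfIntegers.coe_eq_zero_iff.1 ((map_eq_zero _).1 h1))
  have hlf := hNF.lf F v
  have ia := hFAH.int v a
  have ib := hFAH.int v b
  by_cases hkv : v ∈ M
  · have hvQ : v ∉ Q := fun h => hC.qm v h hkv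
    rw [hDAF.fin M D Ds hA.ne hDs hA.sq v hkv (ul v α)]
    exact ⟨fun h => ⟨fun _ => h, fun h' => absurd hkv h', fun h' => absurd h' hvQ⟩,
      fun h => h.1 hkv⟩
  · obtain ⟨h2, h3, -⟩ := hFAH.tw hC v hkv
    by_cases hvP : v ∈ P
    · have hvQ : v ∉ Q := fun h => hC.qp v h hvP
      have hs : IsSquare (ul v α) :=
        hLV _ (vv v) (lc v a) (lc v b) (ul v α) hlf h2 ia ib (hFAH.t3 hC v hvP) hup
      have hE : Ev (vv v) (ul v α) := (hEVF _ (vv v) (lc v a) (lc v b) (ul v α) (ul v α) ia ib).2.2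
        hup.1 hs
      exact ⟨fun _ => ⟨fun h => absurd h hkv, fun _ _ => hE, fun h => absurd h hvQ⟩,
        fun _ => hLZ _ (vv v) _ _ _ _ hlf hDK hs⟩
    · have key : v ∉ T → (Aff (lc v D) (ul v α) ↔
          Ev (vv v) (ul v α)) := fun hvT =>
        (hLG _ (vv v) (lc v a) (lc v b) (lc v D) (ul v α) hlf h2 ia ib
          (hFAH.sqf hC v hkv) (hA.un v hkv hvP hvT) hup).symm
      by_cases hvQ : v ∈ Q
      · obtain ⟨-, -, -, -, he, hs⟩ := hHAQ F M Q P a b hC v hvQ α α hα hα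
        by_cases hvT : v ∈ T
        · rw [hLT _ (vv v) (lc v a) (lc v b) (lc v D) (ul v α) hlf h2
            h3 ia ib ((hFAH.ne0 hC).2.2 v) (hFAH.t12 hC v hvQ) (hA.ex v hvT)
            hup, ← hs]
          exact ⟨fun h => ⟨fun h' => absurd h' hkv, fun _ h' => absurd hvQ h',
            fun _ => ⟨fun _ => h, fun h' => absurd hvT h'⟩⟩, fun h => (h.2.2 hvQ).1 hvT⟩
        · rw [key hvT, ← he]
          exact ⟨fun h => ⟨fun h' => absurd h' hkv, fun _ h' => absurd hvQ h',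
            fun _ => ⟨fun h' => absurd h' hvT, fun _ => h⟩⟩, fun h => (h.2.2 hvQ).2 hvT⟩
      · rw [key (fun h => hvQ (hT h))]
        exact ⟨fun h => ⟨fun h' => absurd h' hkv, fun _ _ => h, fun h' => absurd h' hvQ⟩,
          fun h => h.2.1 hkv hvQ⟩

end SLHM

theorem specSLH (hINV : SpecINV) (hDAF : SpecDAF) (hLG : SpecLG) (hLT : SpecLT)
    (hLV : SpecLV) (hLZ : SpecLZ) (hEVF : SpecEVF) (hNF : SpecNF)
    (hHAQ : PT.SpecHAQ) (hFAH : PT.SpecFAH) : SpecSLH := by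
  intro F _ _ M Q P T Ds D a b hC hDs hA hT α
  have hloc := fun (hα : InV α) (v : Pl F) =>
    SLHM.loc hLG hLT hLV hLZ hEVF hNF hHAQ hFAH hDAF hC hDs hA hT α hα v
      (hINV.upv _ α hα)
  have hinf : ∀ v : InfinitePlace F, Aff (algebraMap F v.Completion (D : F))
      (up v.Completion α) ↔ Aff (algebraMap F v.Completion (Ds : F)) (up v.Completion α) := by
    intro v
    exact hDAF.inf M D Ds hA.ne hDs hA.sq v (up v.Completion α)
  constructor
  · rintro ⟨hα, hp, hi⟩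
    have h := fun v => (hloc hα v).1 (hp v)
    exact ⟨⟨hα, fun v => (h v).1, fun v => (hinf v).1 (hi v), fun v => (h v).2.1⟩,
      fun v hv => (h v).2.2 hv⟩
  · rintro ⟨⟨hα, h1, hi, h2⟩, h3⟩
    exact ⟨hα, fun v => (hloc hα v).2 ⟨h1 v, h2 v, h3 v⟩, fun v => (hinf v).2 (hi v)⟩

end Pool.Agent.Lib.MP_8cb858_nt.PU
end

section
/-!
# STH: the change of the Selmer group under twisting (port of `PT/STH.lean`)
-/
set_option autoImplicit false

namespace Pool.Agent.Lib.MP_8cb858_nt.PU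

open Polynomial NumberField IsDedekindDomain Pool.Agent.Lib.MP_8cb858_nt.SEL
open Pool.Agent.Lib.MP_8cb858_nt.PF
open scoped Classical WithZero

namespace STHM

variable {F : Type} [Field F] [NumberField F]

/-- the places of `U` in `Q` -/
noncomputable def SfQ (Q U : Finset (HeightOneSpectrum (𝓞 F))) : Finset {v // v ∈ Q} :=
  Finset.univ.filter fun v => v.1 ∈ U

omit [NumberField F] in
lemma mem_SfQ {Q U : Finset (HeightOneSpectrum (𝓞 F))} {v : {v // v ∈ Q}} :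
    v ∈ SfQ Q U ↔ v.1 ∈ U := by simp [SfQ]

omit [NumberField F] in
lemma insert_SfQ {Q U : Finset (HeightOneSpectrum (𝓞 F))} (v : {v // v ∈ Q}) :
    insert v (SfQ Q U) = SfQ Q (insert v.1 U) := by
  ext u
  rw [Finset.mem_insert, mem_SfQ, mem_SfQ, Finset.mem_insert, Subtype.ext_iff]

/-- the set of CRH is the set of LAL -/
lemma set_eq {M Q : Finset (HeightOneSpectrum (𝓞 F))} {Ds : 𝓞 F} {a b : 𝓞 F}
    {W : AddSubgroup ({v // v ∈ Q} → ZMod 2 × ZMod 2)}
    (hW : ∀ w, w ∈ W ↔ ∃ α ∈ Wh M Q Ds a b, ∀ v, w v = (ee v.1 α, ss v.1 α))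
    (U : Finset (HeightOneSpectrum (𝓞 F))) :
    {w : {v // v ∈ Q} → ZMod 2 × ZMod 2 |
        (∃ α ∈ Wh M Q Ds a b, ∀ v, w v = (ee v.1 α, ss v.1 α)) ∧
        (∀ v, v.1 ∉ U → (w v).1 = 0) ∧ ∀ v, v.1 ∈ U → (w v).2 = 0} =
    {w ∈ (W : Set ({v // v ∈ Q} → ZMod 2 × ZMod 2)) |
        (∀ u ∉ SfQ Q U, (w u).1 = 0) ∧ ∀ u ∈ SfQ Q U, (w u).2 = 0} := by
  ext w
  simp only [Set.mem_ofPred_eq, SetLike.mem_coe, hW, mem_SfQ]

lemma notMem_of_un (hNF : PF.SpecNF) (v : Pl F) (D : 𝓞 F)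
    (h : vv v (lc v D) = 1) : D ∉ v.asIdeal := by
  intro hD
  have h1 := (hNF.int F v D 1).2.1 (by rwa [pow_one])
  rw [h, Nat.cast_one] at h1
  exact absurd h1 (by decide)

lemma tr_iff (hNF : PF.SpecNF) (hHAQ : PT.SpecHAQ) (hTVL : SpecTVL)
    {M Q P T : Finset (HeightOneSpectrum (𝓞 F))} {Ds D : 𝓞 F} {a b : 𝓞 F} (hC : PT.Cf M Q P a b)
    (hA : Ad M P T Ds D) {v : HeightOneSpectrum (𝓞 F)} (hvQ : v ∈ Q) (hvT : v ∉ T)
    (α : Lk (a : F) (b : F)) (hα : α ∈ Wh M Q Ds a b) (z : Sel 2 (cO a b D))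
    (hz : Rep (D : F) α z) : TrO D v z ↔ ss v α = 0 := by
  have hvM := hC.qm v hvQ
  have h6 : (6 : 𝓞 F) ∉ v.asIdeal := fun h => hvM (hC.six v h)
  have hD : D ∉ v.asIdeal :=
    notMem_of_un hNF v D (hA.un v hvM (hC.qp v hvQ) hvT)
  obtain ⟨h1, h2⟩ := hTVL F a b D v hA.ne h6 hD (hC.t12 v hvQ) α z hz
  obtain ⟨-, -, -, h3, h4, -⟩ := hHAQ F M Q P a b hC v hvQ α α hα.1 hα.1
  rw [h2, ← h3]
  exact ⟨fun h => h.2, fun h => ⟨h4.2 h1, h⟩⟩

end STHM

theorem specSTH (hWGH : SpecWGH) (hLAL : PR.SpecLAL) (hCRH : SpecCRH) (hTVL : SpecTVL)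
    (hHAQ : PT.SpecHAQ) (hBR : PF.SpecBR) (hSLH : SpecSLH) (hFAH : PT.SpecFAH) (hNF : PF.SpecNF) :
    SpecSTH := by
  intro F _ _ M Q P Ds D0 a b hR hC hDs hA0 hgood
  have hd : dsc (a : F) (b : F) ≠ 0 := (hFAH.ne0 hC).2.1
  obtain ⟨W, hW, hiso, hcard⟩ := hWGH F M Q P Ds D0 a b hR hC hDs hA0 hgood
  refine ⟨?_, ?_⟩
  · intro T hT D D' hD hD'
    rw [hCRH F M Q P Ds D0 a b hR hC hDs hA0 hgood T D hT hD,
      hCRH F M Q P Ds D0 a b hR hC hDs hA0 hgood T D' hT hD']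
  · intro T hT v hvQ hvT D D' hD hD'
    have hDF : (D : F) ≠ 0 := fun h => hD.ne (RingOfIntegers.coe_eq_zero_iff.1 h)
    have hTv : insert v T ⊆ Q := Finset.insert_subset hvQ hT
    have hvS : (⟨v, hvQ⟩ : {v // v ∈ Q}) ∉ STHM.SfQ Q T := by
      rw [STHM.mem_SfQ]
      exact hvT
    obtain ⟨h1, h2⟩ := hLAL _ W hiso hcard (STHM.SfQ Q T) ⟨v, hvQ⟩ hvS
    have e0 := hCRH F M Q P Ds D0 a b hR hC hDs hA0 hgood T D hT hD
    have e1 := hCRH F M Q P Ds D0 a b hR hC hDs hA0 hgood (insert v T) D' hTv hD'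
    rw [STHM.set_eq hW] at e0 e1
    rw [STHM.insert_SfQ] at h1 h2
    rw [← e0, ← e1] at h1 h2
    have hcond : (∀ z : Sel 2 (cO a b D), TrO D v z) ↔
        ∀ w ∈ W, (∀ u ∉ STHM.SfQ Q T, (w u).1 = 0) →
          (∀ u ∈ STHM.SfQ Q T, (w u).2 = 0) → (w ⟨v, hvQ⟩).2 = 0 := by
      constructor
      · intro hz w hw hw1 hw2
        obtain ⟨α, hα, hαw⟩ := (hW w).1 hw
        have hsel : α ∈ SelSet (a : F) (b : F) (D : F) := by
          rw [hSLH F M Q P T Ds D a b hC hDs hD hT]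
          refine ⟨hα, fun q hq => ⟨fun h => ?_, fun h => ?_⟩⟩
          · have := hw2 ⟨q, hq⟩ (STHM.mem_SfQ.2 h)
            rwa [hαw] at this
          · have := hw1 ⟨q, hq⟩ fun h' => h (STHM.mem_SfQ.1 h')
            rwa [hαw] at this
        obtain ⟨z, hz'⟩ := hBR.ex hd hDF α hsel
        have := (STHM.tr_iff hNF hHAQ hTVL hC hD hvQ hvT α hα z hz').1 (hz z)
        rw [hαw]
        exact this
      · intro hw z
        obtain ⟨α, hα⟩ := hBR.surj hd hDF z
        have hsel := hBR.sel hd hDF α z hα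
        rw [hSLH F M Q P T Ds D a b hC hDs hD hT] at hsel
        refine (STHM.tr_iff hNF hHAQ hTVL hC hD hvQ hvT α hsel.1 z hα).2 ?_
        refine hw (fun v => (ee v.1 α, ss v.1 α)) ((hW _).2 ⟨α, hsel.1, fun v => rfl⟩) ?_ ?_
        · intro u hu
          exact (hsel.2 u.1 u.2).2 fun h => hu (STHM.mem_SfQ.2 h)
        · intro u hu
          exact (hsel.2 u.1 u.2).1 (STHM.mem_SfQ.1 hu)
    rw [hcond]
    exact ⟨h1, h2⟩

end Pool.Agent.Lib.MP_8cb858_nt.PU
end

section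
/-!
# STP: the step theorem over a number field
-/
set_option autoImplicit false

namespace Pool.Agent.Lib.MP_8cb858_nt.PU

open Polynomial NumberField IsDedekindDomain Pool.Agent.Lib.MP_8cb858_nt.SEL
open Pool.Agent.Lib.MP_8cb858_nt.PF
open scoped Classical WithZero

theorem specSTP (hSTH : SpecSTH) (hREC : SpecREC) : SpecSTP := by
  intro F _ _ M Q P Ds a b hG hC hD hex
  obtain ⟨D0, hA, hz⟩ := hex
  have hR : PT.RecFor F Q := by
    refine hREC F Q fun v hv => ?_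
    obtain ⟨h6, hu⟩ := hG v (hC.qm v hv)
    refine ⟨fun h2 => h6 ?_, hu⟩
    have : (6 : 𝓞 F) = 3 * 2 := by norm_num
    rw [this]
    exact v.asIdeal.mul_mem_left 3 h2
  exact hSTH F M Q P Ds D0 a b hR hC hD hA hz

end Pool.Agent.Lib.MP_8cb858_nt.PU
end

section
/-!
# WGH: the subgroup of the vectors of coordinates (arbitrary local conditions)
-/
namespace Pool.Agent.Lib.MP_8cb858_nt.PU

open Polynomial NumberField IsDedekindDomain Pool.Agent.Lib.MP_8cb858_nt.SEL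
open Pool.Agent.Lib.MP_8cb858_nt.PF
open scoped Classical WithZero

namespace WGHM

variable {F : Type} [Field F] [NumberField F] {Ds D0 : 𝓞 F}
  {M Q P : Finset (Pl F)} {a b : 𝓞 F}

/-- The vector of the coordinates of a class. -/
noncomputable def vec (Q : Finset (Pl F)) (a b : 𝓞 F) (α : Lk (a : F) (b : F)) :
    {v // v ∈ Q} → ZMod 2 × ZMod 2 := fun v => (ee v.1 α, ss v.1 α)

theorem vec_mul (hHAQ : PT.SpecHAQ) (hC : PT.Cf M Q P a b)
    {α β : Lk (a : F) (b : F)} (ha : InV α) (hb : InV β) :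
    vec Q a b (α * β) = vec Q a b α + vec Q a b β := by
  funext v
  have h := hHAQ F M Q P a b hC v.1 v.2 α β ha hb
  exact Prod.ext h.1 h.2.1

theorem add_self (x : ZMod 2 × ZMod 2) : x + x = 0 := by
  revert x; decide

theorem vadd_self {ι : Type} (w : ι → ZMod 2 × ZMod 2) : w + w = 0 := by
  funext v
  exact add_self (w v)

theorem vec_one (hELH : SpecELH) (hHAQ : PT.SpecHAQ) (hC : PT.Cf M Q P a b)
    (hDs : Ds ≠ 0) : vec Q a b 1 = 0 := by
  have h1 : InV (1 : Lk (a : F) (b : F)) := (hELH F M Q P Ds a b hC hDs).1.1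
  have h := vec_mul hHAQ hC h1 h1
  rw [mul_one, vadd_self] at h
  exact h

/-- Two classes with the same vector have a square as product. -/
theorem sq_of_vec (hELH : SpecELH) (hHAQ : PT.SpecHAQ) (hKRH : SpecKRH)
    (hC : PT.Cf M Q P a b) (hDs : Ds ≠ 0)
    (hA : Ad M P ∅ Ds D0)
    (hg : ∀ z : Sel 2 (cO a b D0), (∀ v ∈ Q, TrO D0 v z) → z = 0)
    {α β : Lk (a : F) (b : F)} (ha : α ∈ Wh M Q Ds a b) (hb : β ∈ Wh M Q Ds a b)
    (h : vec Q a b α = vec Q a b β) : IsSquare (α * β) := by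
  have h0 : vec Q a b (α * β) = 0 := by
    rw [vec_mul hHAQ hC ha.1 hb.1, h, vadd_self]
  refine hKRH F M Q P Ds D0 a b hC hDs hA hg _ ((hELH F M Q P Ds a b hC hDs).2 α ha β hb) fun v hv => ?_
  have h1 := congrFun h0 ⟨v, hv⟩
  exact ⟨congrArg Prod.fst h1, congrArg Prod.snd h1⟩

end WGHM

theorem specWGH (hELH : SpecELH) (hHAQ : PT.SpecHAQ) (hRCH : SpecRCH) (hWCH : SpecWCH)
    (hKRH : SpecKRH) : SpecWGH := by
  intro F _ _ M Q P Ds D0 a b hrec hC hDs hA hg
  refine ⟨{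
      carrier := {w | ∃ α ∈ Wh M Q Ds a b, ∀ v, w v = (ee v.1 α, ss v.1 α)}
      add_mem' := ?_
      zero_mem' := ?_
      neg_mem' := ?_ }, fun w => Iff.rfl, ?_, ?_⟩
  · rintro w w' ⟨α, ha, h⟩ ⟨β, hb, h'⟩
    refine ⟨α * β, (hELH F M Q P Ds a b hC hDs).2 α ha β hb, fun v => ?_⟩
    have h1 := congrFun (WGHM.vec_mul hHAQ hC ha.1 hb.1) v
    rw [Pi.add_apply, h v, h' v]
    exact h1.symm
  · refine ⟨1, (hELH F M Q P Ds a b hC hDs).1, fun v => ?_⟩
    exact (congrFun (WGHM.vec_one hELH hHAQ hC hDs) v).symm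
  · rintro w ⟨α, ha, h⟩
    refine ⟨α, ha, fun v => ?_⟩
    rw [Pi.neg_apply, neg_eq_of_add_eq_zero_right (WGHM.add_self (w v))]
    exact h v
  · rintro w ⟨α, ha, h⟩
    have h1 := hRCH F M Q P Ds a b hrec hC hDs α ha
    rw [Finset.sum_subtype Q (fun x => Iff.rfl) (fun v => ee v α * ss v α)] at h1
    rw [← h1]
    refine Finset.sum_congr rfl fun v _ => ?_
    rw [h v]
  · obtain ⟨G, hG1, hG2, hG3⟩ := hWCH F M Q P Ds a b hC hDs
    have hcard : Fintype.card {v // v ∈ Q} = Q.card := Fintype.card_coe _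
    rw [hcard]
    refine hG1.trans ?_
    rw [← Nat.card_eq_finsetCard]
    refine Nat.card_le_card_of_injective
      (fun α : G => ⟨WGHM.vec Q a b α.1, α.1, hG2 α.1 α.2, fun v => rfl⟩) ?_
    intro α β hab
    by_contra hne
    have h1 : WGHM.vec Q a b α.1 = WGHM.vec Q a b β.1 := congrArg Subtype.val hab
    exact hG3 α.1 α.2 β.1 β.2 (fun h => hne (Subtype.ext h))
      (WGHM.sq_of_vec hELH hHAQ hKRH hC hDs hA hg (hG2 α.1 α.2) (hG2 β.1 β.2) h1)

end Pool.Agent.Lib.MP_8cb858_nt.PU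
end
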