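import Pool.Agent.Lib.MP_8cb858_nt.PU.SpecT

/-!
# Module WSU: upper bounds for sets of sets of places
-/

namespace Pool.Agent.Lib.MP_8cb858_nt.PU

open Polynomial NumberField IsDedekindDomain Filter Pool.Agent.Lib.MP_8cb858_nt.SEL
open Pool.Agent.Lib.MP_8cb858_nt.PF
open scoped Classical WithZero Topology nonZeroDivisors

namespace WSUM

variable {F : Type} [Field F] [NumberField F]

/-- the squarefree ideal of a finite set of places -/
noncomputable def pr (A : Finset (Pl F)) : Ideal (𝓞 F) := ∏ v ∈ A, v.asIdeal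

theorem pr_inj (hIDA : SpecIDA) : Function.Injective (pr : Finset (Pl F) → Ideal (𝓞 F)) := by
  intro A A' h
  ext v
  rw [← (hIDA.sqf F A).2.2.2 v, ← (hIDA.sqf F A').2.2.2 v]
  change v.asIdeal ∣ pr A ↔ v.asIdeal ∣ pr A'
  rw [h]

theorem pr_mem (hIDA : SpecIDA) {S : Finset (Pl F)} {Y : ℝ} {A : Finset (Pl F)}
    (hA : A ∈ WS S Y) : pr A ≠ ⊥ ∧ (Ideal.absNorm (pr A) : ℝ) ≤ Y := by
  refine ⟨(hIDA.sqf F A).1, ?_⟩
  have h : Ideal.absNorm (pr A) = NA A := (hIDA.sqf F A).2.1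
  rw [h]
  exact hA.2

theorem WS_fin (hIDA : SpecIDA) (S : Finset (Pl F)) (Y : ℝ) : (WS S Y).Finite := by
  refine Set.Finite.of_finite_image (f := pr) ?_ (pr_inj hIDA).injOn
  refine (hIDA.fin F Y).subset ?_
  rintro _ ⟨A, hA, rfl⟩
  exact pr_mem hIDA hA

theorem WS_sub {S : Finset (Pl F)} {Y : ℝ} : WS S Y ⊆ WS (∅ : Finset (Pl F)) Y :=
  fun _ hA => ⟨fun _ _ => Finset.notMem_empty _, hA.2⟩

/-- the sets of places containing `B` -/
theorem cnt (hIDA : SpecIDA) {C : ℝ} (hC : ∀ x : ℝ, 0 ≤ x → IC F x ≤ C * x) {Y : ℝ} (hY : 0 ≤ Y)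
    (B : Finset (Pl F)) (E : Set (Finset (Pl F))) (hE : E ⊆ WS ∅ Y) (hB : ∀ A ∈ E, B ⊆ A) :
    (E.ncard : ℝ) ≤ C * Y * (1 / (NA B : ℝ)) := by
  have h1 : E.ncard = (pr '' E).ncard := (Set.ncard_image_of_injective E (pr_inj hIDA)).symm
  have h2 : (pr '' E) ⊆ {I : Ideal (𝓞 F) | I ≠ ⊥ ∧ (Ideal.absNorm I : ℝ) ≤ Y ∧
      ∀ v ∈ B, v.asIdeal ∣ I} := by
    rintro _ ⟨A, hA, rfl⟩
    refine ⟨(pr_mem hIDA (hE hA)).1, (pr_mem hIDA (hE hA)).2, fun v hv => ?_⟩
    exact ((hIDA.sqf F A).2.2.2 v).2 (hB A hA hv)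
  have h3 : ((pr '' E).ncard : ℝ) ≤ ({I : Ideal (𝓞 F) | I ≠ ⊥ ∧ (Ideal.absNorm I : ℝ) ≤ Y ∧
      ∀ v ∈ B, v.asIdeal ∣ I}.ncard : ℝ) := by
    refine Nat.cast_le.2 (Set.ncard_le_ncard h2 ((hIDA.fin F Y).subset ?_))
    intro I hI
    exact ⟨hI.1, hI.2.1⟩
  rw [hIDA.dvd F B Y] at h3
  rw [h1]
  refine h3.trans ((hC _ (div_nonneg hY (Nat.cast_nonneg _))).trans (le_of_eq ?_))
  ring

theorem NA_empty : NA (∅ : Finset (Pl F)) = 1 := by simp [NA]

theorem NA_single (v : Pl F) : NA ({v} : Finset (Pl F)) = nv v := by simp [NA]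

theorem uni {ι : Type} (s : Finset ι) (f : ι → Set (Finset (Pl F))) (hf : ∀ i ∈ s, (f i).Finite)
    (E : Set (Finset (Pl F))) (hE : ∀ A ∈ E, ∃ i ∈ s, A ∈ f i) :
    (E.ncard : ℝ) ≤ ∑ i ∈ s, ((f i).ncard : ℝ) := by
  have h1 : E ⊆ ⋃ i ∈ s, f i := by
    intro A hA
    obtain ⟨i, hi, h⟩ := hE A hA
    exact Set.mem_biUnion hi h
  have h2 : (⋃ i ∈ s, f i).Finite := Set.Finite.biUnion s.finite_toSet hf
  have h3 : (⋃ i ∈ s, f i).ncard ≤ ∑ i ∈ s, (f i).ncard := by
    clear h1 h2 hE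
    induction s using Finset.induction_on with
    | empty => simp
    | insert a s ha ih =>
      rw [Finset.set_biUnion_insert, Finset.sum_insert ha]
      exact (Set.ncard_union_le _ _).trans (Nat.add_le_add_left
        (ih fun i hi => hf i (Finset.mem_insert_of_mem hi)) _)
  exact_mod_cast (Set.ncard_le_ncard h1 h2).trans h3

end WSUM

open WSUM in
theorem specWSU (hIDA : SpecIDA) : SpecWSU where
  fin := fun _ _ _ S Y => WS_fin hIDA S Y
  bd := by
    intro F _ _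
    obtain ⟨C, hC1, hC⟩ := hIDA.upp F
    refine ⟨C, hC1, fun Y hY => ⟨fun S => ?_, ?_, ?_⟩⟩
    · have h := cnt hIDA hC hY ∅ (WS S Y) WS_sub (fun A _ => Finset.empty_subset A)
      rwa [NA_empty, Nat.cast_one, div_one, mul_one] at h
    · intro ι s B E hE hEB
      have h1 := uni s (fun i => {A ∈ WS (∅ : Finset (Pl F)) Y | B i ⊆ A})
        (fun i _ => (WS_fin hIDA ∅ Y).subset fun A hA => hA.1) E (by
          intro A hA
          obtain ⟨i, hi, h⟩ := hEB A hA
          exact ⟨i, hi, hE hA, h⟩)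
      refine h1.trans ?_
      rw [Finset.mul_sum]
      refine Finset.sum_le_sum fun i _ => ?_
      exact cnt hIDA hC hY (B i) _ (fun A hA => hA.1) fun A hA => hA.2
    · intro T a ha
      set E : Set (Finset (Pl F)) :=
        {A ∈ WS (∅ : Finset (Pl F)) Y | a ≤ ((T.filter (fun v => v ∈ A)).card : ℝ)} with hE
      have hEf : E.Finite := (WS_fin hIDA ∅ Y).subset fun A hA => hA.1
      have h1 : a * (E.ncard : ℝ) ≤ ∑ v ∈ T, C * Y * (1 / (nv v : ℝ)) := by
        have h2 : a * (E.ncard : ℝ) ≤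
            ∑ A ∈ hEf.toFinset, ((T.filter (fun v => v ∈ A)).card : ℝ) := by
          rw [Set.ncard_eq_toFinset_card E hEf, mul_comm, ← nsmul_eq_mul]
          refine Finset.card_nsmul_le_sum _ _ _ fun A hA => ?_
          exact ((Set.Finite.mem_toFinset hEf).1 hA).2
        have h3 : ∑ A ∈ hEf.toFinset, ((T.filter (fun v => v ∈ A)).card : ℝ) =
            ∑ v ∈ T, ((hEf.toFinset.filter (fun A => v ∈ A)).card : ℝ) := by
          have h4 : ∀ A : Finset (Pl F), ((T.filter (fun v => v ∈ A)).card : ℝ) =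
              ∑ v ∈ T, if v ∈ A then (1 : ℝ) else 0 := by
            intro A
            rw [Finset.sum_boole]
          have h5 : ∀ v : Pl F, ((hEf.toFinset.filter (fun A => v ∈ A)).card : ℝ) =
              ∑ A ∈ hEf.toFinset, if v ∈ A then (1 : ℝ) else 0 := by
            intro v
            rw [Finset.sum_boole]
          simp only [h4, h5]
          exact Finset.sum_comm
        refine h2.trans (h3.le.trans (Finset.sum_le_sum fun v _ => ?_))
        have h6 := cnt hIDA hC hY {v} {A | A ∈ E ∧ v ∈ A} (fun A hA => hA.1.1)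
          (fun A hA => Finset.singleton_subset_iff.2 hA.2)
        rw [NA_single] at h6
        refine le_trans (le_of_eq ?_) h6
        rw [← Set.ncard_coe_finset]
        congr 2
        ext A
        simp
      rw [← Finset.mul_sum] at h1
      rw [mul_div_assoc', le_div_iff₀ ha, mul_comm]
      exact h1

end Pool.Agent.Lib.MP_8cb858_nt.PU
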